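import Pool.Agent.Lib.MP_003e01_gt.Blue

/-! Block A1: heights along an axis and the twisting numbers. -/

namespace Pool.Agent.Lib.MP_003e01_gt

namespace A1

section arc
variable {G Z : Type} [Group G] [MulAction G Z]

/-- an arc on which `x` acts as an increasing archimedean translation -/
structure Arc (x : G) (S : Z → Prop) (lt : Z → Z → Prop) : Prop where
  mem : ∀ (h : ℤ) p, S p → S (x ^ h • p)
  lt_smul : ∀ (h : ℤ) p q, lt (x ^ h • p) (x ^ h • q) ↔ lt p q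
  trans : ∀ p q r, S p → S q → S r → lt p q → lt q r → lt p r
  cotrans : ∀ p q r, S p → S q → S r → lt p r → lt p q ∨ lt q r
  irrefl : ∀ p, ¬ lt p p
  mv : ∀ p, S p → lt p (x • p)
  arch : ∀ p q, S p → S q → ∃ n : ℕ, lt q (x ^ n • p)

/-- height -/
def Ht (x : G) (lt : Z → Z → Prop) (p q : Z) (h : ℤ) : Prop :=
  ¬ lt q (x ^ h • p) ∧ lt q (x ^ (h + 1) • p)

variable {x : G} {S : Z → Prop} {lt : Z → Z → Prop} (A : Arc x S lt)
include A

lemma Arc.mono {p : Z} (hp : S p) {h h' : ℤ} (hh : h < h') : lt (x ^ h • p) (x ^ h' • p) := by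
  induction h', hh using Int.leInduction with
  | base =>
    have := A.mv _ (A.mem h p hp)
    rwa [smul_smul, ← zpow_one_add, add_comm] at this
  | succ n hn ih =>
    have := A.mv _ (A.mem n p hp)
    rw [smul_smul, ← zpow_one_add, add_comm] at this
    exact A.trans _ _ _ (A.mem _ _ hp) (A.mem _ _ hp) (A.mem _ _ hp) ih this

lemma Arc.char {p q : Z} (hp : S p) (hq : S q) {h : ℤ} (H : Ht x lt p q h) (l : ℤ) :
    lt q (x ^ l • p) ↔ h < l := by
  constructor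
  · intro h1
    by_contra h2
    rcases (not_lt.1 h2).eq_or_lt with rfl | h3
    · exact H.1 h1
    · exact H.1 (A.trans _ _ _ hq (A.mem _ _ hp) (A.mem _ _ hp) h1 (A.mono hp h3))
  · intro h1
    rcases (Int.add_one_le_iff.2 h1).eq_or_lt with rfl | h3
    · exact H.2
    · exact A.trans _ _ _ hq (A.mem _ _ hp) (A.mem _ _ hp) H.2 (A.mono hp h3)

lemma Arc.below {p q : Z} (hp : S p) (hq : S q) {h : ℤ} (H : Ht x lt p q h) {l : ℤ} (hl : l < h) :
    lt (x ^ l • p) q :=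
  (A.cotrans _ q _ (A.mem _ _ hp) hq (A.mem _ _ hp) (A.mono hp hl)).resolve_right H.1

lemma Arc.uniq {p q : Z} (hp : S p) (hq : S q) {h h' : ℤ} (H : Ht x lt p q h)
    (H' : Ht x lt p q h') : h = h' := by
  have h1 := (A.char hp hq H (h' + 1)).1 H'.2
  have h2 := (A.char hp hq H' (h + 1)).1 H.2
  omega

lemma Arc.ex {p q : Z} (hp : S p) (hq : S q) : ∃ h, Ht x lt p q h := by
  obtain ⟨n, hn⟩ := A.arch p q hp hq
  obtain ⟨k, hk⟩ := A.arch q p hq hp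
  have hk' : lt (x ^ (-(k : ℤ)) • p) q := by
    have := (A.lt_smul (-(k : ℤ)) _ _).2 hk
    rwa [smul_smul, ← zpow_natCast, ← zpow_add, neg_add_cancel, zpow_zero, one_smul] at this
  obtain ⟨h, h1, h2⟩ := Int.exists_least_of_bdd (P := fun h => lt q (x ^ (h + 1) • p))
    ⟨-(k : ℤ) - 1, fun h hh => by
      by_contra h3
      have h4 := A.mono hp (show h + 1 < -(k : ℤ) by omega)
      exact A.irrefl q (A.trans _ _ _ hq (A.mem _ _ hp) hq
        (A.trans _ _ _ hq (A.mem _ _ hp) (A.mem _ _ hp) hh h4) hk')⟩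
    ⟨(n : ℤ) - 1, by simpa using hn⟩
  refine ⟨h, fun h3 => ?_, h1⟩
  have := h2 (h - 1) (by simpa using h3)
  omega

lemma Arc.shift {p q : Z} {h : ℤ} (i j : ℤ) (H : Ht x lt (x ^ i • p) (x ^ j • q) h) :
    Ht x lt p q (h + i - j) := by
  have e : ∀ l : ℤ, x ^ l • x ^ i • p = x ^ j • x ^ (l + i - j) • p := fun l => by
    rw [smul_smul, smul_smul, ← zpow_add, ← zpow_add]
    congr 2
    ring
  unfold Ht at *
  rw [e, e, A.lt_smul, A.lt_smul] at H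
  rwa [show h + i - j + 1 = h + 1 + i - j by ring]

lemma Arc.coc {p q r : Z} (hp : S p) (hq : S q) (hr : S r) {a b c : ℤ} (H1 : Ht x lt p q a)
    (H2 : Ht x lt q r b) (H3 : Ht x lt p r c) : a + b ≤ c ∧ c ≤ a + b + 1 := by
  have e : ∀ u v : ℤ, x ^ u • x ^ v • p = x ^ (u + v) • p := fun u v => by
    rw [smul_smul, ← zpow_add]
  constructor
  · by_contra h
    have h1 := (A.char hp hr H3 (b + a)).2 (by omega)
    rcases A.cotrans _ (x ^ b • q) _ hr (A.mem _ _ hq) (A.mem _ _ hp) h1 with h2 | h2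
    · exact H2.1 h2
    · rw [← e, A.lt_smul] at h2
      exact H1.1 h2
  · have h1 := (A.lt_smul (b + 1) _ _).2 H1.2
    rw [e] at h1
    have := (A.char hp hr H3 _).1
      (A.trans _ _ _ hr (A.mem _ _ hq) (A.mem _ _ hp) H2.2 h1)
    omega

lemma Arc.rev {p q : Z} (hp : S p) (hq : S q) {h k : ℤ} (h1 : ¬ lt (x ^ (-h) • p) q)
    (h2 : lt (x ^ (-(h + 1)) • p) q) (H : Ht x lt p q k) : -h - 1 ≤ k ∧ k ≤ -h := by
  constructor
  · by_contra h3
    have := (A.char hp hq H (-(h + 1))).2 (by omega)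
    exact A.irrefl q (A.trans _ _ _ hq (A.mem _ _ hp) hq this h2)
  · by_contra h3
    exact h1 (A.below hp hq H (by omega))

end arc

variable {G Z : Type} [Group G] [LinearOrder Z] [MulAction G Z] (C : CG G Z)

lemma rt_ne {x : G} {z : Z} (h : Rt C.att x z) : x ≠ 1 := by
  rintro rfl
  simp only [Rt, inv_one] at h
  exact (cyc_ne h).2.2 rfl

lemma cross_ne {x y : G} (h : Cross C.att x y) : x ≠ 1 ∧ y ≠ 1 := by
  refine ⟨by rcases h with h | h <;> exact rt_ne C h.1, ?_⟩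
  rintro rfl
  simp only [Cross, Rt, inv_one, inv_inv, or_self] at h
  exact cyc_asymm h.1 h.2

lemma fix_inv {x : G} (hx : x ≠ 1) : x • C.att x⁻¹ = C.att x⁻¹ := by
  have := C.att_fix x⁻¹ (inv_ne_one.2 hx)
  rw [inv_smul_eq_iff] at this
  exact this.symm

omit [LinearOrder Z] in
lemma zpow_fix {x : G} {z : Z} (h : x • z = z) (k : ℤ) : x ^ k • z = z :=
  Subgroup.zpow_mem (MulAction.stabilizer G z) h k

lemma att_zpow_pos {t : G} (ht : t ≠ 1) {k : ℤ} (hk : 0 < k) : C.att (t ^ k) = C.att t := by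
  obtain ⟨n, rfl⟩ := Int.eq_ofNat_of_zero_le hk.le
  rw [zpow_natCast]
  exact (C.att_pow t n ht (by omega)).2

lemma att_zpow_neg {t : G} (ht : t ≠ 1) {k : ℤ} (hk : k < 0) : C.att (t ^ k) = C.att t⁻¹ := by
  rw [← att_zpow_pos C (inv_ne_one.2 ht) (show 0 < -k by omega), inv_zpow', neg_neg]

include C in
lemma zpow_eq_one {t : G} (ht : t ≠ 1) {k : ℤ} (hk : t ^ k = 1) : k = 0 := by
  by_contra h
  have := (C.att_pow t k.natAbs ht (by omega)).1
  rcases Int.natAbs_eq k with h1 | h1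
  · rw [h1, zpow_natCast] at hk
    exact this hk
  · rw [h1, zpow_neg, zpow_natCast, inv_eq_one] at hk
    exact this hk

lemma pos_of_att {t : G} (ht : t ≠ 1) {k : ℤ} (h1 : t ^ k ≠ 1) (h2 : C.att (t ^ k) = C.att t) :
    0 < k := by
  rcases lt_trichotomy k 0 with h | rfl | h
  · rw [att_zpow_neg C ht h] at h2
    exact absurd h2.symm (C.att_ne t ht)
  · simp at h1
  · exact h

lemma att_eq (x y : G) (hx : x ≠ 1) (hy : y ≠ 1) (h : C.att x = C.att y) :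
    C.att x⁻¹ = C.att y⁻¹ := by
  obtain ⟨t, ht, h1, h2⟩ := C.root x hx
  obtain ⟨i, rfl⟩ := h2 x (C.att_fix x hx)
  obtain ⟨j, rfl⟩ := h2 y (h ▸ C.att_fix y hy)
  simp only at *
  have hi := pos_of_att C ht hx h1.symm
  have hj := pos_of_att C ht hy (h ▸ h1.symm)
  rw [← zpow_neg, ← zpow_neg, att_zpow_neg C ht (by omega), att_zpow_neg C ht (by omega)]

lemma prim_eq (x y : G) (hx : C.Prim x) (hy : C.Prim y) (h : C.att x = C.att y) : x = y := by
  obtain ⟨i, hi⟩ := hx.2 y (h ▸ C.att_fix y hy.1)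
  obtain ⟨j, hj⟩ := hy.2 x (h ▸ C.att_fix x hx.1)
  simp only at hi hj
  have h1 : 0 < i := pos_of_att C hx.1 (hi ▸ hy.1) (hi ▸ h.symm)
  have h2 : i * j - 1 = 0 := zpow_eq_one C hx.1 (by rw [zpow_sub_one, zpow_mul, hi, hj]; simp)
  have h3 : i = 1 := Int.eq_one_of_mul_eq_one_right h1.le (b := j) (by omega)
  rw [← hi, h3, zpow_one]

lemma prim_inv {a : G} (ha : C.Prim a) : C.Prim a⁻¹ := by
  refine ⟨inv_ne_one.2 ha.1, fun h hh => ?_⟩
  obtain ⟨t, ht, h1, h2⟩ := C.root a⁻¹ (inv_ne_one.2 ha.1)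
  have h3 := att_eq C _ _ ht (inv_ne_one.2 ha.1) h1
  rw [inv_inv] at h3
  have h4 := ha.2 t (h3 ▸ fix_inv C ht)
  rw [Subgroup.zpowers_inv]
  exact (Subgroup.zpowers_le.2 h4) (h2 h hh)

lemma prim_conj {a : G} (ha : C.Prim a) (g : G) : C.Prim (g * a * g⁻¹) := by
  refine ⟨by simpa using ha.1, fun h hh => ?_⟩
  rw [C.att_conj a g ha.1] at hh
  obtain ⟨k, hk⟩ := ha.2 (g⁻¹ * h * g) (by rw [mul_smul, mul_smul, hh, inv_smul_smul])
  simp only at hk
  exact ⟨k, by simp only [conj_zpow, hk]; group⟩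

lemma same_iff {a x : G} : Same a x ↔ ∃ g, x = g * a * g⁻¹ ∨ x = g * a⁻¹ * g⁻¹ := by
  simp only [Same, isConj_iff, eq_comm (a := x), exists_or]

lemma same_inv {a x : G} (h : Same a x) : Same a x⁻¹ :=
  h.trans (Or.inr (IsConj.refl _))

lemma same_conj {a x : G} (h : Same a x) (g : G) : Same a (g * x * g⁻¹) :=
  h.trans (same_iff.2 ⟨g, Or.inl rfl⟩)

lemma att_conj' (g : G) {x : G} (hx : x ≠ 1) : C.att (g * x * g⁻¹)⁻¹ = g • C.att x⁻¹ := by
  rw [← C.att_conj x⁻¹ g (inv_ne_one.2 hx), conj_inv]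

lemma cross_symm (x y : G) (h : Cross C.att x y) : Cross C.att y x := by
  simp only [Cross, Rt, inv_inv] at *
  generalize C.att x = a, C.att x⁻¹ = b, C.att y = c, C.att y⁻¹ = d at *
  simp only [cyc] at *
  grind

lemma cross_conj' (g x y : G) (h : Cross C.att x y) :
    Cross C.att (g * x * g⁻¹) (g * y * g⁻¹) := by
  obtain ⟨hx, hy⟩ := cross_ne C h
  simp only [Cross, Rt, inv_inv, att_conj' C g hx, att_conj' C g hy, C.att_conj x g hx,
    C.att_conj y g hy, C.smul_cyc] at *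
  exact h

lemma cross_conj (g x y : G) : Cross C.att (g * x * g⁻¹) (g * y * g⁻¹) ↔ Cross C.att x y :=
  ⟨fun h => by simpa [mul_assoc] using cross_conj' C g⁻¹ _ _ h, cross_conj' C g x y⟩

lemma cross_inv {x y : G} (h : Cross C.att x y) : Cross C.att x⁻¹ y := by
  simp only [Cross, inv_inv] at *
  tauto

lemma oc_of_meets (a b x : G) (h : C.Meets a b) (hx : Same a x) :
    ∃ y, Same b y ∧ OC C.att x y := by
  obtain ⟨x', y', h1, h2, h3⟩ := h
  obtain ⟨g, hg⟩ := same_iff.1 (h1.symm.trans hx)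
  have h4 : Cross C.att x (g * y' * g⁻¹) := by
    rcases hg with rfl | rfl
    · exact cross_conj' C g _ _ h3
    · exact cross_conj' C g _ _ (cross_inv C h3)
  rcases h4 with h4 | h4
  · exact ⟨_, same_conj h2 g, h4⟩
  · exact ⟨_, same_inv (same_conj h2 g), by simpa only [OC, inv_inv] using h4⟩

lemma arcR {x : G} (hx : x ≠ 1) : Arc x (Rt C.att x) fun p q => cyc p q (C.att x) := by
  have f1 := zpow_fix (C.att_fix x hx)
  have f2 := zpow_fix (fix_inv C hx)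
  refine ⟨fun h p hp => ?_, fun h p q => ?_, fun p q r hp hq hr h1 h2 => ?_,
    fun p q r hp hq hr h1 => ?_, fun p h => (cyc_ne h).1 rfl, fun p hp => C.move x p hx hp,
    fun p q hp hq => C.arch x p q hx hp hq⟩
  · unfold Rt at *
    rwa [← f1 h, ← f2 h, C.smul_cyc]
  · conv_lhs => rw [← f1 h, C.smul_cyc]
  · simp only [Rt, cyc] at *
    grind
  · simp only [Rt, cyc] at *
    grind

lemma arcL {x : G} (hx : x ≠ 1) : Arc x (Rt C.att x⁻¹) fun p q => cyc (C.att x) q p := by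
  have f1 := zpow_fix (C.att_fix x hx)
  have f2 := zpow_fix (fix_inv C hx)
  have hm : ∀ (h : ℤ) p, Rt C.att x⁻¹ p → Rt C.att x⁻¹ (x ^ h • p) := fun h p hp => by
    simp only [Rt, inv_inv] at *
    rwa [← f1 h, ← f2 h, C.smul_cyc]
  refine ⟨hm, fun h p q => ?_, fun p q r hp hq hr h1 h2 => ?_,
    fun p q r hp hq hr h1 => ?_, fun p h => (cyc_ne h).2.1 rfl, fun p hp => ?_,
    fun p q hp hq => ?_⟩
  · conv_lhs => rw [← f1 h, C.smul_cyc]
  · simp only [Rt, cyc, inv_inv] at *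
    grind
  · simp only [Rt, cyc, inv_inv] at *
    grind
  · have h1 := hm 1 p hp
    rw [zpow_one] at h1
    have h2 := C.move x⁻¹ _ (inv_ne_one.2 hx) h1
    rw [inv_smul_smul] at h2
    simp only [Rt, cyc, inv_inv] at *
    grind
  · obtain ⟨n, hn⟩ := C.arch x⁻¹ q p (inv_ne_one.2 hx) hq hp
    refine ⟨n, ?_⟩
    have h1 := hm n p hp
    rw [← C.smul_cyc (x ^ (n : ℤ)), f2, zpow_natCast, inv_pow, smul_inv_smul] at hn
    rw [zpow_natCast] at h1
    simp only [Rt, cyc, inv_inv] at *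
    grind

lemma exL (x y z : G) (hy : OC C.att x y) (hz : OC C.att x z) : ∃ m, C.TwL x y z m := by
  have hx := rt_ne C hy.1
  obtain ⟨h, H⟩ := (arcR C hx).ex hy.1 hz.1
  obtain ⟨h', H'⟩ := (arcL C hx).ex hy.2 hz.2
  exact ⟨_, hy, hz, h, h', rfl, H, H'⟩

lemma cocL (x y z u : G) (m₁ m₂ m₃ : ℤ) (h1 : C.TwL x y z m₁) (h2 : C.TwL x z u m₂)
    (h3 : C.TwL x y u m₃) : |m₁ + m₂ - m₃| ≤ 1 := by
  obtain ⟨hy, hz, a, a', rfl, A, A'⟩ := h1
  obtain ⟨-, hu, b, b', rfl, B, B'⟩ := h2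
  obtain ⟨-, -, c, c', rfl, D, D'⟩ := h3
  have hx := rt_ne C hy.1
  have e1 := (arcR C hx).coc hy.1 hz.1 hu.1 A B D
  have e2 := (arcL C hx).coc hy.2 hz.2 hu.2 A' B' D'
  rw [abs_le]
  omega

lemma disjL (x y z : G) (m : ℤ) (h : C.TwL x y z m)
    (hn : ∀ l : ℤ, ¬ Cross C.att z (x ^ l * y * (x ^ l)⁻¹)) : |m| ≤ 1 := by
  obtain ⟨hy, hz, a, a', rfl, A, A'⟩ := h
  have hx := rt_ne C hy.1
  have hy1 := (cross_ne C (Or.inl hy : Cross C.att x y)).2
  have R := arcR C hx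
  have L := arcL C hx
  obtain ⟨z1, z2⟩ := hz
  by_contra hh
  rcases lt_abs.1 (not_le.1 hh) with h1 | h1
  · refine hn (a' + 1) ?_
    have e1 := R.below hy.1 z1 A (show a' + 1 < a by omega)
    have e2 := A'.2
    have e3 := R.mem (a' + 1) _ hy.1
    have e4 := L.mem (a' + 1) _ hy.2
    simp only [Cross, Rt, inv_inv, att_conj' C _ hy1, C.att_conj y _ hy1, cyc] at *
    grind
  · refine hn (a + 1) ?_
    have e1 := L.below hy.2 z2 A' (show a + 1 < a' by omega)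
    have e2 := A.2
    have e3 := R.mem (a + 1) _ hy.1
    have e4 := L.mem (a + 1) _ hy.2
    simp only [Cross, Rt, inv_inv, att_conj' C _ hy1, C.att_conj y _ hy1, cyc] at *
    grind

lemma oc_conj (g : G) {x y : G} (h : OC C.att x y) : OC C.att (g * x * g⁻¹) (g * y * g⁻¹) := by
  obtain ⟨hx, hy⟩ := cross_ne C (Or.inl h : Cross C.att x y)
  simp only [OC, Rt, inv_inv, att_conj' C g hx, att_conj' C g hy, C.att_conj x g hx,
    C.att_conj y g hy, C.smul_cyc] at *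
  exact h

lemma tw_conj (g : G) {x y z : G} {m : ℤ} (h : C.TwL x y z m) :
    C.TwL (g * x * g⁻¹) (g * y * g⁻¹) (g * z * g⁻¹) m := by
  obtain ⟨hy, hz, a, a', rfl, A, A'⟩ := h
  obtain ⟨hx, hy1⟩ := cross_ne C (Or.inl hy : Cross C.att x y)
  have hz1 := (cross_ne C (Or.inl hz : Cross C.att x z)).2
  have e : ∀ (l : ℤ) (p : Z), (g * x * g⁻¹) ^ l • g • p = g • x ^ l • p := fun l p => by
    rw [conj_zpow, mul_smul, inv_smul_smul, mul_smul]
  refine ⟨oc_conj C g hy, oc_conj C g hz, a, a', rfl, ?_, ?_⟩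
  · simpa only [CG.HtR, C.att_conj _ g hx, C.att_conj _ g hy1, C.att_conj _ g hz1, e,
      C.smul_cyc] using A
  · simpa only [CG.HtL, C.att_conj _ g hx, att_conj' C g hy1, att_conj' C g hz1, e,
      C.smul_cyc] using A'

lemma tw_inv {x y z : G} {m : ℤ} (h : C.TwL x⁻¹ y z m) :
    ∃ m', C.TwL x y⁻¹ z⁻¹ m' ∧ |m - m'| ≤ 1 := by
  obtain ⟨hy, hz, a, a', rfl, A, A'⟩ := h
  have hx : x ≠ 1 := inv_ne_one.1 (rt_ne C hy.1)
  simp only [OC, inv_inv] at hy hz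
  have R := arcR C hx
  have L := arcL C hx
  obtain ⟨k, K⟩ := R.ex hy.2 hz.2
  obtain ⟨k', K'⟩ := L.ex hy.1 hz.1
  simp only [CG.HtR, CG.HtL, inv_zpow'] at A A'
  have z1 := hz.1
  have z2 := hz.2
  have e1 := R.rev hy.2 hz.2 (h := a') (by
    have := R.mem (-a') _ hy.2
    have := A'.1
    simp only [Rt, cyc] at *
    grind) (by
    have := R.mem (-(a' + 1)) _ hy.2
    have := A'.2
    simp only [Rt, cyc] at *
    grind) K
  have e2 := L.rev hy.1 hz.1 (h := a) (by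
    have := L.mem (-a) _ hy.1
    have := A.1
    simp only [Rt, cyc, inv_inv] at *
    grind) (by
    have := L.mem (-(a + 1)) _ hy.1
    have := A.2
    simp only [Rt, cyc, inv_inv] at *
    grind) K'
  refine ⟨k - k', ⟨by simpa only [OC, inv_inv] using hy.symm,
    by simpa only [OC, inv_inv] using hz.symm, k, k', rfl, K, by rw [inv_inv, inv_inv]; exact K'⟩, ?_⟩
  rw [abs_le]
  omega

lemma tw_norm {a b c : G} {m : ℤ} (h : C.Tw a b c m) :
    ∃ y z m', Same b y ∧ Same c z ∧ C.TwL a y z m' ∧ |m - m'| ≤ 1 := by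
  obtain ⟨x, y, z, hx, hy, hz, H⟩ := h
  obtain ⟨g, rfl | rfl⟩ := same_iff.1 hx.symm
  · exact ⟨_, _, m, same_conj hy g, same_conj hz g, tw_conj C g H, by simp⟩
  · have := tw_conj C g H
    rw [show g * x * g⁻¹ = (g * x⁻¹ * g⁻¹)⁻¹ by group] at this
    obtain ⟨m', h1, h2⟩ := tw_inv C this
    exact ⟨_, _, m', same_inv (same_conj hy g), same_inv (same_conj hz g), h1, h2⟩

lemma lifts {a b y y' : G} (hb : ¬ C.Meets b b) (hy : Same b y) (hy' : Same b y')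
    (h : OC C.att a y) (h' : OC C.att a y') : ∃ n, C.TwL a y y' n ∧ |n| ≤ 1 := by
  obtain ⟨n, hn⟩ := exL C a y y' h h'
  exact ⟨n, hn, disjL C _ _ _ _ hn fun l hl => hb ⟨_, _, hy', same_conj hy _, hl⟩⟩

lemma coc (a b c e : G) (m₁ m₂ m₃ : ℤ) (hb : ¬ C.Meets b b) (hc : ¬ C.Meets c c)
    (he : ¬ C.Meets e e) (h1 : C.Tw a b c m₁) (h2 : C.Tw a c e m₂) (h3 : C.Tw a b e m₃) :
    |m₁ + m₂ - m₃| ≤ 20 := by
  obtain ⟨y1, z1, n1, s1, t1, H1, d1⟩ := tw_norm C h1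
  obtain ⟨y2, z2, n2, s2, t2, H2, d2⟩ := tw_norm C h2
  obtain ⟨y3, z3, n3, s3, t3, H3, d3⟩ := tw_norm C h3
  obtain ⟨k1, K1, f1⟩ := lifts C hc t1 s2 H1.2.1 H2.1
  obtain ⟨k2, K2, f2⟩ := lifts C he t2 t3 H2.2.1 H3.2.1
  obtain ⟨k3, K3, f3⟩ := lifts C hb s1 s3 H1.1 H3.1
  obtain ⟨u1, U1⟩ := exL C a y1 y2 H1.1 H2.1
  obtain ⟨u2, U2⟩ := exL C a y1 z2 H1.1 H2.2.1
  obtain ⟨u3, U3⟩ := exL C a y1 z3 H1.1 H3.2.1
  have g1 := cocL C _ _ _ _ _ _ _ H1 K1 U1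
  have g2 := cocL C _ _ _ _ _ _ _ U1 H2 U2
  have g3 := cocL C _ _ _ _ _ _ _ U2 K2 U3
  have g4 := cocL C _ _ _ _ _ _ _ K3 H3 U3
  rw [abs_le] at *
  omega

lemma tw_uniq {x y z : G} {m m' : ℤ} (h : C.TwL x y z m) (h' : C.TwL x y z m') : m = m' := by
  obtain ⟨hy, hz, a, b, rfl, A, B⟩ := h
  obtain ⟨-, -, a', b', rfl, A', B'⟩ := h'
  have hx := rt_ne C hy.1
  rw [(arcR C hx).uniq hy.1 hz.1 A A', (arcL C hx).uniq hy.2 hz.2 B B']

lemma oc_shift {x y : G} {i : ℤ} (h : OC C.att x (x ^ i * y * (x ^ i)⁻¹)) : OC C.att x y := by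
  have := oc_conj C (x ^ i)⁻¹ h
  rwa [show (x ^ i)⁻¹ * x * (x ^ i)⁻¹⁻¹ = x by group,
    show (x ^ i)⁻¹ * (x ^ i * y * (x ^ i)⁻¹) * (x ^ i)⁻¹⁻¹ = y by group] at this

lemma tw_shift {x y z : G} {m i j : ℤ}
    (h : C.TwL x (x ^ i * y * (x ^ i)⁻¹) (x ^ j * z * (x ^ j)⁻¹) m) : C.TwL x y z m := by
  obtain ⟨hy, hz, a, b, rfl, A, B⟩ := h
  have hy' := oc_shift C hy
  have hz' := oc_shift C hz
  obtain ⟨hx, hy1⟩ := cross_ne C (Or.inl hy' : Cross C.att x y)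
  have hz1 := (cross_ne C (Or.inl hz' : Cross C.att x z)).2
  rw [C.att_conj _ _ hy1, C.att_conj _ _ hz1] at A
  rw [att_conj' C _ hy1, att_conj' C _ hz1] at B
  exact ⟨hy', hz', a + i - j, b + i - j, by ring, (arcR C hx).shift i j A, (arcL C hx).shift i j B⟩

lemma fin_same (a b : G) : ∃ T : Finset G, ∀ y, Same b y → OC C.att a y →
    ∃ (m : ℤ) (τ : G), τ ∈ T ∧ y = a ^ m * τ * (a ^ m)⁻¹ := by
  classical
  by_cases h : a ≠ 1 ∧ b ≠ 1
  · obtain ⟨T, hT⟩ := C.fin_cross a b h.1 h.2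
    obtain ⟨T', hT'⟩ := C.fin_cross a b⁻¹ h.1 (inv_ne_one.2 h.2)
    refine ⟨T ∪ T', fun y hy ho => ?_⟩
    rcases hy with hy | hy
    · obtain ⟨m, τ, h1, h2⟩ := hT y hy (Or.inl ho)
      exact ⟨m, τ, by simp [h1], h2⟩
    · obtain ⟨m, τ, h1, h2⟩ := hT' y hy (Or.inl ho)
      exact ⟨m, τ, by simp [h1], h2⟩
  · refine ⟨∅, fun y hy ho => (h ?_).elim⟩
    obtain ⟨h1, h2⟩ := cross_ne C (Or.inl ho : Cross C.att a y)
    refine ⟨h1, ?_⟩
    rintro rfl
    obtain ⟨g, rfl | rfl⟩ := same_iff.1 hy <;> simp at h2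

lemma bdd (a b c : G) : ∃ B : ℤ, ∀ m, C.Tw a b c m → |m| ≤ B := by
  obtain ⟨T, hT⟩ := fin_same C a b
  obtain ⟨T', hT'⟩ := fin_same C a c
  have hf : (⋃ τ ∈ T, ⋃ σ ∈ T', {m | C.TwL a τ σ m}).Finite :=
    T.finite_toSet.biUnion fun τ _ => T'.finite_toSet.biUnion fun σ _ =>
      Set.Subsingleton.finite fun _ h _ h' => tw_uniq C h h'
  obtain ⟨B, hB⟩ := (hf.image fun m => |m|).bddAbove
  refine ⟨B + 1, fun m hm => ?_⟩
  obtain ⟨y, z, m', hy, hz, H, d⟩ := tw_norm C hm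
  obtain ⟨i, τ, h1, rfl⟩ := hT y hy H.1
  obtain ⟨j, σ, h2, rfl⟩ := hT' z hz H.2.1
  have : |m'| ≤ B := hB ⟨m', by
    simp only [Set.mem_iUnion]
    exact ⟨τ, h1, σ, h2, tw_shift C H⟩, rfl⟩
  rw [abs_le] at *
  omega

end A1

theorem blockA1 : StmtA1 := fun _ _ _ _ _ C =>
  { cross_symm := A1.cross_symm C
    cross_conj := A1.cross_conj C
    oc_of_meets := A1.oc_of_meets C
    prim_same := fun _ _ ha hx => by
      obtain ⟨g, rfl | rfl⟩ := A1.same_iff.1 hx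
      · exact A1.prim_conj C ha g
      · exact A1.prim_conj C (A1.prim_inv C ha) g
    prim_eq := A1.prim_eq C
    att_eq := A1.att_eq C
    exL := A1.exL C
    cocL := A1.cocL C
    disjL := A1.disjL C
    coc := A1.coc C
    bdd := A1.bdd C }

end Pool.Agent.Lib.MP_003e01_gt
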