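import Pool.Agent.Lib.MP_003e01_gt.Blue

/-! Block A1P: automorphisms preserving or reversing the cyclic order at infinity. -/

namespace Pool.Agent.Lib.MP_003e01_gt

namespace A1P

variable {G Z : Type} [Group G] [LinearOrder Z] [MulAction G Z] (C : CG G Z)

lemma ne_one {α : MulAut G} {a : G} (h : a ≠ 1) : α a ≠ 1 := by simpa using h

omit [MulAction G Z] in
lemma cross_ne {att : G → Z} {x y : G} (h : Cross att x y) : x ≠ 1 ∧ y ≠ 1 := by
  constructor
  · rintro rfl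
    simp only [cyc, Rt, Cross, inv_one] at h
    grind
  · rintro rfl
    simp only [cyc, Rt, Cross, inv_one, inv_inv] at h
    grind

omit [MulAction G Z] in
lemma oc_ne {att : G → Z} {x y : G} (h : OC att x y) : x ≠ 1 ∧ y ≠ 1 :=
  cross_ne (Or.inl h)

lemma same_map (α : MulAut G) {a x : G} (h : Same a x) : Same (α a) (α x) := by
  rcases h with h | h
  · exact Or.inl (α.toMonoidHom.map_isConj h)
  · refine Or.inr ?_
    rw [← map_inv]
    exact α.toMonoidHom.map_isConj h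

lemma same_inv {a x : G} (h : Same a x) : Same a x⁻¹ :=
  h.trans (Or.inr (IsConj.refl _))

lemma inv (α : MulAut G) (ε : Bool) (h : C.Pres α ε) : C.Pres α⁻¹ ε := by
  intro a b c ha hb hc
  cases ε
  · have := h (α⁻¹ c) (α⁻¹ b) (α⁻¹ a) (ne_one hc) (ne_one hb) (ne_one ha)
    simpa using this.symm
  · have := h (α⁻¹ a) (α⁻¹ b) (α⁻¹ c) (ne_one ha) (ne_one hb) (ne_one hc)
    simpa using this.symm

lemma third (x y : G) (hx : x ≠ 1) : ∃ w : G, w ≠ 1 ∧ C.att w ≠ C.att x ∧ C.att w ≠ C.att y := by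
  obtain ⟨h, h1, hc⟩ := C.dense x hx
  by_contra hcon
  push Not at hcon
  have e1 := hcon h h1
  have e2 := hcon h⁻¹ (by simpa using h1)
  simp only [Rt, Cross, inv_inv] at hc
  have n : C.att h ≠ C.att x ∧ C.att h⁻¹ ≠ C.att x := by
    rcases hc with ⟨p, q⟩ | ⟨p, q⟩
    · exact ⟨(cyc_ne p).2.1, (cyc_ne q).1.symm⟩
    · exact ⟨(cyc_ne q).1.symm, (cyc_ne p).2.1⟩
  exact C.att_ne h h1 ((e1 n.1).trans (e2 n.2).symm)

lemma att_ne_map (α : MulAut G) (ε : Bool) (x y : G) (h : C.Pres α ε) (hx : x ≠ 1) (hy : y ≠ 1)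
    (hne : C.att x ≠ C.att y) : C.att (α x) ≠ C.att (α y) := by
  obtain ⟨w, hw, h1, h2⟩ := third C x y hx
  have p1 := h x y w hx hy hw
  have p2 := h w y x hw hy hx
  rcases cyc_total hne h2.symm h1.symm with e | e <;> cases ε
  · exact (cyc_ne (p2.2 (by simpa using e))).2.1.symm
  · exact (cyc_ne (p1.2 (by simpa using e))).1
  · exact (cyc_ne (p1.2 (by simpa using e))).1
  · exact (cyc_ne (p2.2 (by simpa using e))).2.1.symm

lemma att_iff (α : MulAut G) (ε : Bool) (x y : G) (h : C.Pres α ε) (hx : x ≠ 1) (hy : y ≠ 1) :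
    C.att (α x) = C.att (α y) ↔ C.att x = C.att y := by
  constructor
  · intro e
    by_contra hne
    exact att_ne_map C α ε x y h hx hy hne e
  · intro e
    by_contra hne
    have := att_ne_map C α⁻¹ ε _ _ (inv C α ε h) (ne_one hx) (ne_one hy) hne
    exact this (by simpa using e)

lemma cross_map (α : MulAut G) (ε : Bool) (x y : G) (h : C.Pres α ε) (hc : Cross C.att x y) :
    Cross C.att (α x) (α y) := by
  obtain ⟨hx, hy⟩ := cross_ne hc
  have hx' : x⁻¹ ≠ 1 := by simpa using hx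
  have hy' : y⁻¹ ≠ 1 := by simpa using hy
  have p1 := h x⁻¹ y x hx' hy hx
  have p2 := h x y⁻¹ x⁻¹ hx hy' hx'
  have p3 := h x⁻¹ y⁻¹ x hx' hy' hx
  have p4 := h x y x⁻¹ hx hy hx'
  simp only [map_inv] at p1 p2 p3 p4
  simp only [Cross, Rt, inv_inv] at hc ⊢
  rw [p1, p2, p3, p4]
  cases ε
  · simp only [Bool.false_eq_true, if_false]; tauto
  · simpa using hc

lemma meets_map (α : MulAut G) (ε : Bool) (a b : G) (h : C.Pres α ε) (hm : C.Meets a b) :
    C.Meets (α a) (α b) := by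
  obtain ⟨x, y, h1, h2, h3⟩ := hm
  exact ⟨α x, α y, same_map α h1, same_map α h2, cross_map C α ε x y h h3⟩

lemma zpow_smul_att (x y : G) (hy : y ≠ 1) (k : ℤ) :
    x ^ k • C.att y = C.att (x ^ k * y * (x ^ k)⁻¹) := (C.att_conj y _ hy).symm

lemma map_zpow_smul (α : MulAut G) (x y : G) (hy : y ≠ 1) (k : ℤ) :
    (α x) ^ k • C.att (α y) = C.att (α (x ^ k * y * (x ^ k)⁻¹)) := by
  rw [zpow_smul_att C _ _ (ne_one hy)]
  simp

lemma conj_ne {x y : G} (hy : y ≠ 1) : x * y * x⁻¹ ≠ 1 := by simpa using hy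

lemma cyc1 (α : MulAut G) (ε : Bool) (h : C.Pres α ε) {a y c : G} (x : G) (k : ℤ) (ha : a ≠ 1)
    (hy : y ≠ 1) (hc : c ≠ 1) :
    cyc (C.att (α a)) ((α x) ^ k • C.att (α y)) (C.att (α c)) ↔
      if ε then cyc (C.att a) (x ^ k • C.att y) (C.att c)
      else cyc (C.att c) (x ^ k • C.att y) (C.att a) := by
  rw [map_zpow_smul C α x y hy, zpow_smul_att C x y hy]
  exact h _ _ _ ha (conj_ne hy) hc

lemma twL_true (α : MulAut G) (h : C.Pres α true) {x y z : G} {m : ℤ} (t : C.TwL x y z m) :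
    C.TwL (α x) (α y) (α z) m := by
  obtain ⟨o1, o2, k, k', e, hR, hL⟩ := t
  obtain ⟨hx, hy⟩ := oc_ne o1
  have hz := (oc_ne o2).2
  have hx' : x⁻¹ ≠ 1 := by simpa using hx
  have hy' : y⁻¹ ≠ 1 := by simpa using hy
  have hz' : z⁻¹ ≠ 1 := by simpa using hz
  have oc : ∀ u, u ≠ 1 → OC C.att x u → OC C.att (α x) (α u) := by
    intro u hu o
    have p1 := h x⁻¹ u x hx' hu hx
    have p2 := h x u⁻¹ x⁻¹ hx (by simpa using hu) hx'
    simp only [map_inv, if_true] at p1 p2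
    simp only [OC, Rt, inv_inv] at o ⊢
    exact ⟨p1.2 o.1, p2.2 o.2⟩
  refine ⟨oc y hy o1, oc z hz o2, k, k', e, ?_, ?_⟩
  · simp only [CG.HtR] at hR ⊢
    rw [cyc1 C α true h x k hz hy hx, cyc1 C α true h x (k + 1) hz hy hx]
    simpa using hR
  · simp only [CG.HtL, ← map_inv] at hL ⊢
    rw [cyc1 C α true h x k' hx hy' hz', cyc1 C α true h x (k' + 1) hx hy' hz']
    simpa using hL

lemma twL_false (α : MulAut G) (h : C.Pres α false) {x y z : G} {m : ℤ} (t : C.TwL x y z m) :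
    C.TwL (α x) (α y⁻¹) (α z⁻¹) (-m) := by
  obtain ⟨o1, o2, k, k', e, hR, hL⟩ := t
  obtain ⟨hx, hy⟩ := oc_ne o1
  have hz := (oc_ne o2).2
  have hx' : x⁻¹ ≠ 1 := by simpa using hx
  have hy' : y⁻¹ ≠ 1 := by simpa using hy
  have hz' : z⁻¹ ≠ 1 := by simpa using hz
  have oc : ∀ u, u ≠ 1 → OC C.att x u → OC C.att (α x) (α u⁻¹) := by
    intro u hu o
    have p1 := h x⁻¹ u⁻¹ x hx' (by simpa using hu) hx
    have p2 := h x u x⁻¹ hx hu hx'
    simp only [map_inv, Bool.false_eq_true, if_false] at p1 p2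
    simp only [OC, Rt, inv_inv, map_inv] at o ⊢
    exact ⟨p1.2 o.2, p2.2 o.1⟩
  refine ⟨oc y hy o1, oc z hz o2, k', k, by omega, ?_, ?_⟩
  · simp only [CG.HtR, CG.HtL] at hL ⊢
    rw [cyc1 C α false h x k' hz' hy' hx, cyc1 C α false h x (k' + 1) hz' hy' hx]
    simpa using hL
  · simp only [CG.HtL, CG.HtR, ← map_inv, inv_inv] at hR ⊢
    rw [cyc1 C α false h x k hx hy hz, cyc1 C α false h x (k + 1) hx hy hz]
    simpa using hR

end A1P

open A1P in
theorem blockA1P (_h : StmtA1) : StmtA1P := by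
  intro G Z _ _ _ C
  refine ⟨?_, ?_, inv C, ?_, ?_, att_iff C, ?_, ?_, ?_, ?_⟩
  · intro a b c _ _ _
    simp
  · intro α β ε ε' h h' a b c ha hb hc
    have p := h (β a) (β b) (β c) (ne_one ha) (ne_one hb) (ne_one hc)
    have q1 := h' a b c ha hb hc
    have q2 := h' c b a hc hb ha
    simp only [MulAut.mul_apply]
    rw [p]
    cases ε <;> cases ε' <;> simp_all
  · rintro α ⟨g, hg⟩ h h'
    obtain ⟨u, hu, hc⟩ := C.dense g hg
    have hg' : g⁻¹ ≠ 1 := by simpa using hg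
    have p1 := h g⁻¹ u g hg' hu hg
    have p2 := h' g⁻¹ u g hg' hu hg
    have p3 := p1.symm.trans p2
    simp only [Bool.false_eq_true, if_false, if_true] at p3
    simp only [cyc, Rt, Cross, inv_inv] at hc p3
    grind
  · rintro α ⟨γ, hγ⟩ a b c ha hb hc
    rw [hγ, hγ, hγ, C.att_conj _ _ ha, C.att_conj _ _ hb, C.att_conj _ _ hc, C.smul_cyc]
    simp
  · intro α ε x y h
    refine ⟨fun hc => ?_, cross_map C α ε x y h⟩
    simpa using cross_map C α⁻¹ ε _ _ (inv C α ε h) hc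
  · intro α ε a b h
    refine ⟨fun hc => ?_, meets_map C α ε a b h⟩
    simpa using meets_map C α⁻¹ ε _ _ (inv C α ε h) hc
  · rintro α ε a h ⟨ha, hp⟩
    refine ⟨ne_one ha, fun g hg => ?_⟩
    obtain ⟨g, rfl⟩ := α.surjective g
    rw [← C.att_conj _ _ (ne_one ha), ← map_inv, ← map_mul, ← map_mul,
      att_iff C α ε _ _ h (conj_ne ha) ha, C.att_conj _ _ ha] at hg
    obtain ⟨k, hk⟩ := Subgroup.mem_zpowers_iff.1 (hp g hg)
    exact Subgroup.mem_zpowers_iff.2 ⟨k, by rw [← hk, map_zpow]⟩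
  · rintro α ε a b c m h ⟨x, y, z, h1, h2, h3, t⟩
    cases ε
    · exact ⟨α x, α y⁻¹, α z⁻¹, same_map α h1, same_map α (same_inv h2), same_map α (same_inv h3),
        by simpa using twL_false C α h t⟩
    · exact ⟨α x, α y, α z, same_map α h1, same_map α h2, same_map α h3,
        by simpa using twL_true C α h t⟩

end Pool.Agent.Lib.MP_003e01_gt
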