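import Pool.Agent.Lib.MP_003e01_gt.Blue

/-! Block A2: Behrstock inequality and finiteness of large twisting. -/

namespace Pool.Agent.Lib.MP_003e01_gt

namespace A2

variable {G Z : Type} [Group G] [LinearOrder Z] [MulAction G Z] (C : CG G Z)

lemma ne_one {x : G} {p : Z} (h : Rt C.att x p) : x ≠ 1 := by
  rintro rfl
  rw [Rt, inv_one] at h
  exact (cyc_ne h).2.2 rfl

lemma oc_ne {x y : G} (h : OC C.att x y) : y ≠ 1 := by
  rintro rfl
  simp only [OC, Rt, inv_one, inv_inv] at h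
  exact cyc_asymm h.1 h.2

lemma fix_zpow {x : G} (hx : x ≠ 1) (k : ℤ) :
    x ^ k • C.att x = C.att x ∧ x ^ k • C.att x⁻¹ = C.att x⁻¹ := by
  have h1 : x ∈ MulAction.stabilizer G (C.att x) := C.att_fix x hx
  have h2 : x⁻¹ ∈ MulAction.stabilizer G (C.att x⁻¹) := C.att_fix _ (inv_ne_one.2 hx)
  exact ⟨Subgroup.zpow_mem _ h1 k, Subgroup.zpow_mem _ ((Subgroup.inv_mem_iff _).1 h2) k⟩

lemma att_c (g : G) {y : G} (hy : y ≠ 1) : C.att (g * y * g⁻¹) = g • C.att y ∧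
    C.att (g * y * g⁻¹)⁻¹ = g • C.att y⁻¹ :=
  ⟨C.att_conj _ _ hy, by rw [← C.att_conj _ _ (inv_ne_one.2 hy)]; congr 1; group⟩

lemma rt_zpow {x : G} {p : Z} (h : Rt C.att x p) (k : ℤ) : Rt C.att x (x ^ k • p) := by
  have := (C.smul_cyc (x ^ k) _ _ _).2 h
  rwa [(fix_zpow C (ne_one C h) k).1, (fix_zpow C (ne_one C h) k).2] at this

lemma lt_zpow {x : G} {p : Z} (h : Rt C.att x⁻¹ p) (k : ℤ) : Rt C.att x⁻¹ (x ^ k • p) := by
  simpa using rt_zpow C h (-k)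

lemma sh {x : G} (hx : x ≠ 1) (k : ℤ) {p q : Z} :
    (cyc (x ^ k • p) (x ^ k • q) (C.att x) ↔ cyc p q (C.att x)) ∧
    (cyc (x ^ k • p) (x ^ k • q) (C.att x⁻¹) ↔ cyc p q (C.att x⁻¹)) := by
  rw [← C.smul_cyc (x ^ k) p q, ← C.smul_cyc (x ^ k) p q, (fix_zpow C hx k).1, (fix_zpow C hx k).2]
  exact ⟨Iff.rfl, Iff.rfl⟩

lemma mono {x : G} {p : Z} (h : Rt C.att x p) {i j : ℤ} (hij : i < j) :
    cyc (x ^ i • p) (x ^ j • p) (C.att x) := by
  obtain ⟨n, rfl⟩ := Int.le.dest (Int.add_one_le_of_lt hij)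
  induction n with
  | zero =>
    have := C.move x _ (ne_one C h) (rt_zpow C h i)
    rwa [← mul_smul, ← zpow_one_add, add_comm, ← add_zero (i + 1)] at this
  | succ n ih =>
    have h1 := C.move x _ (ne_one C h) (rt_zpow C h (i + 1 + n))
    rw [← mul_smul, ← zpow_one_add, show 1 + (i + 1 + n) = i + 1 + (n + 1 : ℕ) by omega] at h1
    have h2 := ih (by omega)
    simp only [cyc] at h1 h2 ⊢
    grind

lemma monoL {x : G} {p : Z} (h : Rt C.att x⁻¹ p) {i j : ℤ} (hij : i < j) :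
    cyc (x ^ j • p) (x ^ i • p) (C.att x⁻¹) := by
  simpa using mono C h (neg_lt_neg hij)

lemma same_conj {a x : G} (h : Same a x) (g : G) : Same a (g * x * g⁻¹) :=
  h.trans (Or.inl (isConj_iff.2 ⟨g, rfl⟩))

lemma same_inv {a x : G} (h : Same a x) : Same a x⁻¹ :=
  h.trans (Or.inr (IsConj.refl _))

/-- a lift of a simple curve does not travel along another lift -/
lemma noFT {a x u : G} (ha : ¬ C.Meets a a) (hu : Same a u) (h0 : u ≠ 1)
    (h1 : Rt C.att x (C.att u⁻¹)) (h2 : Rt C.att x (C.att u)) :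
    ¬ cyc (x • C.att u⁻¹) (C.att u) (C.att x) := fun h => by
  refine ha ⟨u, x * u * x⁻¹, hu, same_conj hu x, Or.inr ?_⟩
  have k1 := C.move x _ (ne_one C h1) h1
  have k2 := C.move x _ (ne_one C h1) h2
  rw [(att_c C x h0).1, (att_c C x h0).2]
  simp only [Rt, inv_inv, cyc] at *
  grind

lemma step {a x u : G} (ha : ¬ C.Meets a a) (hu : Same a u)
    (h1 : Rt C.att x (C.att u⁻¹)) (h2 : cyc (C.att u⁻¹) (C.att u) (C.att x)) {p q : Z}
    (hp : Rt C.att u p) (hq : Rt C.att u q) : cyc q (x • p) (C.att x) := by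
  have k1 := noFT C ha hu (ne_one C hp) h1 (by simp only [Rt, cyc] at *; grind)
  have k2 := (sh C (ne_one C h1) 1 (p := C.att u⁻¹) (q := p)).1.2
    (by simp only [Rt, cyc] at *; grind)
  have k3 := C.move x _ (ne_one C h1) h1
  rw [zpow_one] at k2
  simp only [Rt, cyc] at *
  grind

lemma htR {x : G} {p q : Z} {k : ℤ} (hp : Rt C.att x p)
    (h1 : cyc q (x • p) (C.att x)) (h2 : cyc p (x • q) (C.att x)) (h : C.HtR x p q k) :
    |k| ≤ 2 := by
  have k0 := (sh C (ne_one C hp) (-1)).1.2 h2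
  rw [← mul_smul, zpow_neg_one, inv_mul_cancel, one_smul, ← zpow_neg_one] at k0
  obtain ⟨k1, k2⟩ := h
  rw [abs_le]
  constructor <;> by_contra a
  · have := mono C hp (i := k + 1) (j := -1) (by omega)
    simp only [cyc] at *
    grind
  · have := mono C hp (i := 1) (j := k) (by omega)
    simp only [zpow_one, cyc] at *
    grind

lemma htL {x : G} {p q : Z} {k : ℤ} (hp : Rt C.att x⁻¹ p) (hq : Rt C.att x⁻¹ q)
    (h1 : cyc q (x⁻¹ • p) (C.att x⁻¹)) (h2 : cyc p (x⁻¹ • q) (C.att x⁻¹)) (h : C.HtL x p q k) :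
    |k| ≤ 2 := by
  have k0 := (sh C (inv_ne_one.1 (ne_one C hp)) 1).2.2 h2
  rw [← mul_smul, zpow_one, mul_inv_cancel, one_smul] at k0
  obtain ⟨k1, k2⟩ := h
  rw [abs_le]
  constructor <;> by_contra a
  · have := monoL C hp (i := k + 1) (j := -1) (by omega)
    simp only [zpow_neg_one, Rt, inv_inv, cyc] at *
    grind
  · have := monoL C hp (i := 1) (j := k) (by omega)
    have := lt_zpow C hp k
    simp only [zpow_one, Rt, inv_inv, cyc] at *
    grind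

/-- large twisting: the line `z` crosses many consecutive translates of `y` -/
lemma core {x y z : G} {m : ℤ} (h : C.TwL x y z m) (hm : 20 < |m|) :
    ∃ y' w : G, IsConj y y' ∧ OC C.att x y' ∧ (w = z ∨ w = z⁻¹) ∧ ∀ j : ℤ, -5 ≤ j → j ≤ 5 →
      cyc (x ^ j • C.att y'⁻¹) (C.att w⁻¹) (x ^ j • C.att y') ∧
      cyc (x ^ j • C.att y') (C.att w) (x ^ j • C.att y'⁻¹) := by
  obtain ⟨hy, hz, k, k', rfl, ⟨a1, a2⟩, a3, a4⟩ := h
  have key : ∀ (l : ℤ) (w : G), (w = z ∨ w = z⁻¹) → (∀ j : ℤ, l - 5 ≤ j → j ≤ l + 5 →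
      cyc (x ^ j • C.att y⁻¹) (C.att w⁻¹) (x ^ j • C.att y) ∧
      cyc (x ^ j • C.att y) (C.att w) (x ^ j • C.att y⁻¹)) → _ := fun l w hw hj =>
    (⟨x ^ l * y * (x ^ l)⁻¹, w, isConj_iff.2 ⟨_, rfl⟩, by
      rw [OC, (att_c C _ (oc_ne C hy)).1, (att_c C _ (oc_ne C hy)).2]
      exact ⟨rt_zpow C hy.1 l, lt_zpow C hy.2 l⟩, hw, fun j h1 h2 => by
      rw [(att_c C _ (oc_ne C hy)).1, (att_c C _ (oc_ne C hy)).2, ← mul_smul, ← mul_smul,
        ← zpow_add]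
      exact hj _ (by omega) (by omega)⟩ : ∃ y' w : G, IsConj y y' ∧ OC C.att x y' ∧
      (w = z ∨ w = z⁻¹) ∧ ∀ j : ℤ, -5 ≤ j → j ≤ 5 →
      cyc (x ^ j • C.att y'⁻¹) (C.att w⁻¹) (x ^ j • C.att y') ∧
      cyc (x ^ j • C.att y') (C.att w) (x ^ j • C.att y'⁻¹))
  rcases lt_abs.1 hm with b | b
  · refine key (k' + 7) z (Or.inl rfl) fun j h1 h2 => ?_
    have c1 := mono C hy.1 (i := j) (j := k) (by omega)
    have c2 := monoL C hy.2 (i := k' + 1) (j := j) (by omega)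
    have c3 := rt_zpow C hy.1 j
    have c4 := lt_zpow C hy.2 j
    have c5 := rt_zpow C hy.1 k
    simp only [OC, Rt, inv_inv, cyc] at *
    grind
  · refine key (k + 7) z⁻¹ (Or.inr rfl) fun j h1 h2 => ?_
    have c1 := mono C hy.1 (i := k + 1) (j := j) (by omega)
    have c2 := monoL C hy.2 (i := j) (j := k') (by omega)
    have c3 := rt_zpow C hy.1 j
    have c4 := lt_zpow C hy.2 j
    have c5 := lt_zpow C hy.2 k'
    simp only [OC, Rt, inv_inv, cyc] at *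
    grind

lemma behr (A : A1Facts C) (a b c : G) (m m' : ℤ) (hb : C.SP b) (ha : ¬ C.Meets a a)
    (hc : ¬ C.Meets c c) (h : C.Tw a b c m) (hm : 20 < |m|) (h' : C.Tw b a c m') : |m'| ≤ 50 := by
  obtain ⟨x, y0, z, hx, hy0, hz, h⟩ := h
  obtain ⟨y, w, k1, k2, k3, k4⟩ := core C h hm
  have hy : Same b y := hy0.trans (Or.inl k1)
  have hw : Same c w⁻¹ := by
    rcases k3 with rfl | rfl
    · exact same_inv hz
    · rwa [inv_inv]
  have y1 := oc_ne C k2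
  have o1 : OC C.att y x⁻¹ := by simp only [OC, Rt, inv_inv, cyc] at *; grind
  have o2 : OC C.att y w⁻¹ := by simpa [OC, Rt] using k4 0 (by omega) (by omega)
  obtain ⟨m0, t0⟩ := A.exL _ _ _ o1 o2
  obtain ⟨m1, t1⟩ := A.exL _ _ _ o2 o2
  have b1 := A.cocL _ _ _ _ _ _ _ t1 t1 t1
  have b2 := A.coc b a c c m0 m1 m' ha hc hc ⟨_, _, _, hy, same_inv hx, hw, t0⟩
    ⟨_, _, _, hy, hw, hw, t1⟩ h'
  obtain ⟨-, -, k, k', rfl, t2, t3⟩ := t0
  have c1 := mono C k2.1 (i := -1) (j := 0) (by omega)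
  have c2 := mono C k2.1 (i := 0) (j := 1) (by omega)
  have c3 := monoL C k2.2 (i := -1) (j := 0) (by omega)
  have c4 := monoL C k2.2 (i := 0) (j := 1) (by omega)
  have c5 := rt_zpow C k2.1 (-1)
  have c6 := lt_zpow C k2.2 1
  have c7 := k4 (-1) (by omega) (by omega)
  have c8 := k4 1 (by omega) (by omega)
  rw [zpow_zero, one_smul] at c1 c2 c3 c4
  have s1 : ∀ p q, cyc (x ^ (-1 : ℤ) • C.att y⁻¹) p (x ^ (-1 : ℤ) • C.att y) →
      cyc (x ^ (-1 : ℤ) • C.att y⁻¹) q (x ^ (-1 : ℤ) • C.att y) → cyc q (y • p) (C.att y) := by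
    intro p q hp hq
    refine step C hb.2 (same_conj hy (x ^ (-1 : ℤ))) ?_ ?_ ?_ ?_ <;>
      simp only [OC, Rt, (att_c C _ y1).1, (att_c C _ y1).2, inv_inv, cyc] at * <;> grind
  have s2 : ∀ p q, cyc (x ^ (1 : ℤ) • C.att y) p (x ^ (1 : ℤ) • C.att y⁻¹) →
      cyc (x ^ (1 : ℤ) • C.att y) q (x ^ (1 : ℤ) • C.att y⁻¹) →
      cyc q (y⁻¹ • p) (C.att y⁻¹) := by
    intro p q hp hq
    refine step C hb.2 (same_inv (same_conj hy (x ^ (1 : ℤ)))) ?_ ?_ ?_ ?_ <;>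
      simp only [OC, Rt, (att_c C _ y1).1, (att_c C _ y1).2, inv_inv, cyc] at * <;> grind
  have d1 : cyc (x ^ (-1 : ℤ) • C.att y⁻¹) (C.att x⁻¹) (x ^ (-1 : ℤ) • C.att y) := by
    simp only [OC, Rt, inv_inv, cyc] at k2 c1 c3 c5 ⊢; grind
  have d2 : cyc (x ^ (1 : ℤ) • C.att y) (C.att x) (x ^ (1 : ℤ) • C.att y⁻¹) := by
    simp only [OC, Rt, inv_inv, cyc] at k2 c2 c4 c6 ⊢; grind
  have e1 := htR C o1.1 (s1 _ _ d1 c7.1) (s1 _ _ c7.1 d1) t2
  have e2 := htL C o1.2 o2.2 (by simpa using s2 _ _ d2 c8.2) (by simpa using s2 _ _ c8.2 d2) t3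
  rw [abs_le] at *
  omega

/-- `y` crosses `w` within one period above `y₀` -/
def In (w y₀ y : G) : Prop := OC C.att w y ∧ ¬ cyc (C.att y) (C.att y₀) (C.att w) ∧
  cyc (C.att y) (w • C.att y₀) (C.att w)

def Cf (w x y : G) : Prop := OC C.att w y ∧ In C w y (x * y * x⁻¹) ∧
  In C w y (x * (x * y * x⁻¹) * x⁻¹) ∧ C.att y ≠ C.att (x * y * x⁻¹)

lemma oc_conj {w y : G} (h : OC C.att w y) (g : G) : OC C.att (g * w * g⁻¹) (g * y * g⁻¹) := by
  simp only [OC, Rt, inv_inv, (att_c C g (ne_one C h.1)).1, (att_c C g (ne_one C h.1)).2,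
    (att_c C g (oc_ne C h)).1, (att_c C g (oc_ne C h)).2, C.smul_cyc] at h ⊢
  exact h

lemma In_conj {w y₀ y : G} (h0 : y₀ ≠ 1) (h : In C w y₀ y) (g : G) :
    In C (g * w * g⁻¹) (g * y₀ * g⁻¹) (g * y * g⁻¹) := by
  refine ⟨oc_conj C h.1 g, ?_⟩
  rw [(att_c C g (ne_one C h.1.1)).1, (att_c C g (oc_ne C h.1)).1, (att_c C g h0).1, ← mul_smul,
    inv_mul_cancel_right, mul_smul, C.smul_cyc, C.smul_cyc]
  exact h.2

lemma Cf_conj {w x y : G} (h : Cf C w x y) (g : G) :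
    Cf C (g * w * g⁻¹) (g * x * g⁻¹) (g * y * g⁻¹) := by
  have e : ∀ u, g * x * g⁻¹ * (g * u * g⁻¹) * (g * x * g⁻¹)⁻¹ = g * (x * u * x⁻¹) * g⁻¹ :=
    fun u => by group
  rw [Cf, e, e, (att_c C g (oc_ne C h.1)).1, (att_c C g (oc_ne C h.2.1.1)).1]
  exact ⟨oc_conj C h.1 g, In_conj C (oc_ne C h.1) h.2.1 g, In_conj C (oc_ne C h.1) h.2.2.1 g,
    fun k => h.2.2.2 (smul_left_cancel g k)⟩

lemma finIn {w y₀ : G} (h : OC C.att w y₀) : {y | IsConj y₀ y ∧ In C w y₀ y}.Finite := by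
  obtain ⟨T, hT⟩ := C.fin_cross w y₀ (ne_one C h.1) (oc_ne C h)
  refine (T.finite_toSet.biUnion (t := fun τ =>
    {y | (∃ i : ℤ, y = w ^ i * τ * (w ^ i)⁻¹) ∧ In C w y₀ y}) fun τ _ => ?_).subset fun y hy => ?_
  · have key : ∀ i j : ℤ, In C w y₀ (w ^ i * τ * (w ^ i)⁻¹) → In C w y₀ (w ^ j * τ * (w ^ j)⁻¹) →
        ¬ i + 1 < j := fun i j hi hj hij => by
      have h0 : τ ≠ 1 := fun k => oc_ne C hi.1 (by simp [k])
      obtain ⟨⟨a1, -⟩, a2, -⟩ := hi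
      obtain ⟨-, -, a3⟩ := hj
      rw [(att_c C _ h0).1] at a1 a2 a3
      have a4 := mono C a1 (i := 1) (j := j - i) (by omega)
      rw [← (sh C (ne_one C a1) 1).1] at a2
      rw [← mul_smul _ _ (C.att τ), ← mul_smul, ← zpow_add, ← zpow_add, sub_add_cancel] at a4
      rw [← mul_smul, ← zpow_add, zpow_one] at a2
      simp only [cyc] at *
      grind
    rcases Set.eq_empty_or_nonempty
      {y | (∃ i : ℤ, y = w ^ i * τ * (w ^ i)⁻¹) ∧ In C w y₀ y} with k | ⟨_, ⟨i, rfl⟩, hi⟩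
    · rw [k]; exact Set.finite_empty
    refine ((Set.finite_Icc (i - 1) (i + 1)).image fun j : ℤ => w ^ j * τ * (w ^ j)⁻¹).subset ?_
    rintro _ ⟨⟨j, rfl⟩, hj⟩
    have := key i j hi hj
    have := key j i hj hi
    exact ⟨j, ⟨by omega, by omega⟩, rfl⟩
  · obtain ⟨i, τ, h1, h2⟩ := hT y hy.1 (Or.inl hy.2.1)
    exact Set.mem_biUnion h1 ⟨⟨i, h2⟩, hy.2⟩

lemma fixed {g : G} {p : Z} (hg : g ≠ 1) (h : g • p = p) : p = C.att g ∨ p = C.att g⁻¹ := by
  by_contra k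
  rw [not_or] at k
  rcases cyc_total (Ne.symm k.2) k.1 (C.att_ne g hg).symm with a | a
  · exact (cyc_ne (C.move g p hg a)).1 h.symm
  · refine (cyc_ne (C.move g⁻¹ p (inv_ne_one.2 hg) (by rwa [Rt, inv_inv]))).1 ?_
    rw [eq_inv_smul_iff, h]

lemma finX (w y : G) : {x | Cf C w x y}.Finite := by
  rcases Set.eq_empty_or_nonempty {x | Cf C w x y} with k | ⟨_, h, -⟩
  · rw [k]; exact Set.finite_empty
  refine Set.Finite.of_finite_image (f := fun x => (x * y * x⁻¹, x * (x * y * x⁻¹) * x⁻¹))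
    (((finIn C h).prod (finIn C h)).subset ?_) fun x hx x' hx' e => ?_
  · rintro _ ⟨x, hx, rfl⟩
    exact ⟨⟨isConj_iff.2 ⟨x, rfl⟩, hx.2.1⟩, isConj_iff.2 ⟨x * x, by group⟩, hx.2.2.1⟩
  · obtain ⟨e1, e2⟩ := Prod.ext_iff.1 e
    dsimp only at e1 e2
    rw [← e1] at e2
    have a1 : x'⁻¹ * x * y * (x'⁻¹ * x)⁻¹ = y := by
      rw [show x'⁻¹ * x * y * (x'⁻¹ * x)⁻¹ = x'⁻¹ * (x * y * x⁻¹) * x' by group, e1]; group
    have a2 : x'⁻¹ * x * (x * y * x⁻¹) * (x'⁻¹ * x)⁻¹ = x * y * x⁻¹ := by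
      rw [show x'⁻¹ * x * (x * y * x⁻¹) * (x'⁻¹ * x)⁻¹ = x'⁻¹ * (x * (x * y * x⁻¹) * x⁻¹) * x' by
        group, e2]; group
    by_contra k
    have k1 : x'⁻¹ * x ≠ 1 := fun a => k (inv_mul_eq_one.1 a).symm
    have b1 := att_c C (x'⁻¹ * x) (oc_ne C h)
    have b2 := (att_c C (x'⁻¹ * x) (oc_ne C hx.2.1.1)).1
    rw [a1] at b1
    rw [a2] at b2
    have c1 := fixed C k1 b1.1.symm
    have c2 := fixed C k1 b1.2.symm
    have c3 := fixed C k1 b2.symm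
    have c4 := hx.2.2.2
    have c5 := hx.2.1.1.1
    simp only [OC, Rt, inv_inv, cyc] at h c5
    grind

lemma finC (c b : G) : ∃ F : Set G, F.Finite ∧ ∀ w x y, IsConj c w → IsConj b y → Cf C w x y →
    ∃ τ ∈ F, IsConj τ x := by
  by_cases hc : c = 1
  · exact ⟨∅, Set.finite_empty, fun w x y h1 _ h =>
      (ne_one C h.1.1 (by simpa [hc] using h1.symm)).elim⟩
  by_cases hb : b = 1
  · exact ⟨∅, Set.finite_empty, fun w x y _ h1 h =>
      (oc_ne C h.1 (by simpa [hb] using h1.symm)).elim⟩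
  obtain ⟨T, hT⟩ := C.fin_cross c b hc hb
  refine ⟨⋃ τ ∈ (T : Set G), {x | Cf C c x τ}, T.finite_toSet.biUnion fun τ _ => finX C c τ,
    fun w x y h1 h2 h => ?_⟩
  obtain ⟨g, rfl⟩ := isConj_iff.1 h1.symm
  have k := Cf_conj C h g
  obtain ⟨i, τ, h3, h4⟩ := hT _ (h2.trans (isConj_iff.2 ⟨g, rfl⟩)) (Or.inl k.1)
  have k' := Cf_conj C k ((g * w * g⁻¹) ^ i)⁻¹
  rw [h4] at k'
  generalize g * w * g⁻¹ = c at *
  rw [show (c ^ i)⁻¹ * c * (c ^ i)⁻¹⁻¹ = c by group,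
    show (c ^ i)⁻¹ * (c ^ i * τ * (c ^ i)⁻¹) * (c ^ i)⁻¹⁻¹ = τ by group] at k'
  exact ⟨_, Set.mem_biUnion h3 k', isConj_iff.2 ⟨g⁻¹ * c ^ i, by group⟩⟩

lemma cf {a x y z : G} {m : ℤ} (ha : ¬ C.Meets a a) (hx : Same a x) (h : C.TwL x y z m)
    (hm : 20 < |m|) : ∃ y' w : G, IsConj y y' ∧ (w = z ∨ w = z⁻¹) ∧ Cf C w x y' := by
  obtain ⟨y, w, k1, k2, k3, k4⟩ := core C h hm
  have hz := h.2.1
  have x1 := ne_one C k2.1
  have y1 := oc_ne C k2
  have c0 := k4 0 (by omega) (by omega)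
  have c1 := k4 1 (by omega) (by omega)
  have c2 := k4 2 (by omega) (by omega)
  have c3 := mono C k2.1 (i := 0) (j := 1) (by omega)
  have c4 := mono C k2.1 (i := 1) (j := 2) (by omega)
  have c5 := monoL C k2.2 (i := 0) (j := 1) (by omega)
  have c6 := monoL C k2.2 (i := 1) (j := 2) (by omega)
  have c7 := lt_zpow C k2.2 2
  have key : cyc (x ^ (2 : ℤ) • C.att y) (w • C.att y) (C.att w) := by
    rcases k3 with rfl | rfl
    · have w1 := oc_ne C hz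
      have d0 : Rt C.att w (C.att x⁻¹) := by simp only [OC, Rt, inv_inv, cyc] at hz ⊢; grind
      have d1 : Rt C.att w⁻¹ (C.att x) := by simp only [OC, Rt, inv_inv, cyc] at hz ⊢; grind
      have d2 := C.move w _ w1 d0
      have d3 := monoL C d1 (i := 0) (j := 1) (by omega)
      have d4 := lt_zpow C d1 1
      have d5 := k4 4 (by omega) (by omega)
      have d6 := mono C k2.1 (i := 2) (j := 3) (by omega)
      have d7 := mono C k2.1 (i := 3) (j := 4) (by omega)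
      have d8 := rt_zpow C k2.1 4
      have d9 := lt_zpow C k2.2 4
      rw [zpow_zero, one_smul] at d3 c0 c3
      rw [zpow_one] at d3 d4
      have e0 : Rt C.att x (w • C.att x⁻¹) := by
        simp only [OC, Rt, inv_inv, cyc] at hz d2 ⊢; grind
      have e1 := noFT C ha (x := x) (same_conj hx w) (by simpa using x1)
        (by rwa [(att_c C w x1).2]) (by
          rw [(att_c C w x1).1]; simp only [OC, Rt, inv_inv, cyc] at hz d3 d4 ⊢; grind)
      rw [(att_c C w x1).1, (att_c C w x1).2] at e1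
      have e2 := rt_zpow C e0 1
      have e3 : cyc (x ^ (1 : ℤ) • x ^ (3 : ℤ) • C.att y) (x ^ (1 : ℤ) • w • C.att x⁻¹)
          (C.att x) := by
        rw [← mul_smul, ← zpow_add, show (1 : ℤ) + 3 = 4 by rfl, zpow_one]
        simp only [OC, Rt, inv_inv, zpow_one, cyc] at hz d3 d4 d5 d8 d9 e1 e2 ⊢
        grind
      rw [(sh C x1 1).1] at e3
      have e4 := (sh C w1 1 (p := C.att x⁻¹) (q := C.att y)).1.2 (by
        simp only [OC, Rt, inv_inv, one_smul, cyc] at hz k2 c0 ⊢; grind)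
      simp only [OC, Rt, inv_inv, zpow_one, cyc] at hz e0 e3 e4 d2 d6 c3 c4 k2 ⊢
      grind
    · have z1 := oc_ne C hz
      have d0 : Rt C.att z (C.att x⁻¹) := by simp only [OC, Rt, inv_inv, cyc] at hz ⊢; grind
      have d1 : Rt C.att z⁻¹ (C.att x) := by simp only [OC, Rt, inv_inv, cyc] at hz ⊢; grind
      have d2 := C.move z _ z1 d0
      have d3 := monoL C d1 (i := 0) (j := 1) (by omega)
      have d4 := lt_zpow C d1 1
      have d5 := k4 (-1) (by omega) (by omega)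
      have d8 := rt_zpow C k2.1 (-1)
      have d9 := lt_zpow C k2.2 (-1)
      rw [zpow_zero, one_smul] at d3 c0 c3
      rw [zpow_one] at d3 d4
      have e0 : Rt C.att x (z • C.att x⁻¹) := by
        simp only [OC, Rt, inv_inv, cyc] at hz d2 ⊢; grind
      have e1 := noFT C ha (x := x) (same_conj hx z) (by simpa using x1)
        (by rwa [(att_c C z x1).2]) (by
          rw [(att_c C z x1).1]; simp only [OC, Rt, inv_inv, cyc] at hz d3 d4 ⊢; grind)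
      rw [(att_c C z x1).1, (att_c C z x1).2] at e1
      have e3 := (sh C x1 1 (p := z • C.att x⁻¹) (q := x ^ (-1 : ℤ) • C.att y)).1.2 (by
        simp only [OC, Rt, inv_inv, cyc] at hz d2 d5 d8 d9 ⊢; grind)
      rw [← mul_smul _ _ (C.att y), ← zpow_add, add_neg_cancel, zpow_zero, one_smul] at e3
      have e2 := rt_zpow C e0 1
      have e4 := (sh C z1 (-1) (p := z • C.att x) (q := C.att y)).2.2 (by
        simp only [OC, Rt, inv_inv, zpow_one, cyc] at hz k2 d3 d4 e1 e2 e3 ⊢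
        grind)
      rw [← mul_smul, zpow_neg_one, inv_mul_cancel, one_smul] at e4
      simp only [OC, Rt, inv_inv, zpow_one, cyc] at hz e4 c3 c4 k2 ⊢
      grind
  have r1 := att_c C x y1
  have r2 := att_c C (x ^ (2 : ℤ)) y1
  rw [show x ^ (2 : ℤ) * y * (x ^ (2 : ℤ))⁻¹ = x * (x * y * x⁻¹) * x⁻¹ by
    rw [zpow_two]; group] at r2
  simp only [zpow_one, zpow_zero, one_smul] at c0 c1 c3 c4 c5 c6
  have f1 : cyc (C.att y) (x • C.att y) (C.att w) := by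
    simp only [OC, Rt, inv_inv, cyc] at k2 c1 c3 c5 c6 c7 ⊢; grind
  have f2 : cyc (x • C.att y) (x ^ (2 : ℤ) • C.att y) (C.att w) := by
    simp only [OC, Rt, inv_inv, cyc] at k2 c2 c3 c4 c7 ⊢; grind
  refine ⟨y, w, k1, k3, ⟨?_, ?_⟩, ⟨⟨?_, ?_⟩, ?_, ?_⟩, ⟨⟨?_, ?_⟩, ?_, ?_⟩, ?_⟩ <;>
    simp only [Rt, inv_inv, r1.1, r1.2, r2.1, r2.2, cyc] at c0 c1 c2 f1 f2 key ⊢ <;> grind

lemma fin (b c : G) : ∃ T : Finset G, ∀ a m, C.SP a → C.Tw a b c m → 20 < |m| →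
    ∃ τ ∈ T, Same τ a := by
  choose F hF hF' using finC C
  refine ⟨(((hF c b).union (hF c b⁻¹)).union ((hF c⁻¹ b).union (hF c⁻¹ b⁻¹))).toFinset, ?_⟩
  rintro a m ha ⟨x, y, z, hx, hy, hz, h⟩ hm
  obtain ⟨y', w, k1, k2, k3⟩ := cf C ha.2 hx h hm
  have hw : Same c w := by
    rcases k2 with rfl | rfl
    · exact hz
    · exact same_inv hz
  simp only [Set.Finite.mem_toFinset, Set.mem_union]
  rcases hw with hw | hw <;> rcases hy.trans (Or.inl k1) with hy | hy <;>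
    obtain ⟨τ, a1, a2⟩ := hF' _ _ _ _ _ hw hy k3 <;>
    exact ⟨τ, by simp [a1], Same.trans (Or.inl a2) hx.symm⟩

end A2

theorem blockA2 (h : StmtA1) : StmtA2 := fun G Z _ _ _ C =>
  ⟨A2.behr C (h G Z C), A2.fin C⟩

end Pool.Agent.Lib.MP_003e01_gt
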