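import Pool.Agent.Lib.MP_003e01_gt.A3a

/-! Block A3: properties of twists. -/

set_option linter.unusedSectionVars false

namespace Pool.Agent.Lib.MP_003e01_gt

namespace A3

variable {G Z : Type} [Group G] [LinearOrder Z] [MulAction G Z] {C : CG G Z}

lemma ht_abs (g : G) (A : Z → Prop) (lt : Z → Z → Prop)
    (hA : ∀ (l : ℤ) z, A z → A (g ^ l • z))
    (hlt : ∀ (l : ℤ) x y, lt (g ^ l • x) (g ^ l • y) ↔ lt x y)
    (asym : ∀ x y, lt x y → ¬ lt y x)
    (t1 : ∀ x y z, A x → A y → A z → ¬ lt y x → lt y z → lt x z)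
    (t2 : ∀ x y z, A x → A y → A z → lt x y → ¬ lt z y → lt x z)
    (mv : ∀ x, A x → lt x (g • x)) (arch : ∀ x y, A x → A y → ∃ n : ℕ, lt y (g ^ n • x))
    {w p q : Z} (hw : A w) (hp : A p) (hq : A q) {k h : ℤ}
    (e : ∀ l : ℤ, lt p (g ^ l • w) ↔ lt q (g ^ (l + k) • w))
    (h1 : ¬ lt q (g ^ h • p)) (h2 : lt q (g ^ (h + 1) • p)) : k - 1 ≤ h ∧ h ≤ k := by
  have sm : ∀ (i j : ℤ) (x : Z), g ^ i • g ^ j • x = g ^ (i + j) • x := fun i j x => by
    rw [zpow_add, mul_smul]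
  have mono : ∀ i j : ℤ, i ≤ j → ¬ lt (g ^ j • w) (g ^ i • w) := by
    intro i j hij
    induction j, hij using Int.le_induction with
    | base => exact fun h => asym _ _ h h
    | succ j _ ih =>
      have m := mv _ (hA j w hw)
      rw [← mul_smul, ← zpow_one_add, add_comm] at m
      exact asym _ _ (t1 _ _ _ (hA i w hw) (hA j w hw) (hA _ w hw) ih m)
  have ex : ∃ l : ℤ, ¬ lt p (g ^ l • w) ∧ lt p (g ^ (l + 1) • w) := by
    by_contra hc
    push Not at hc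
    obtain ⟨n, hn⟩ := arch w p hw hp
    obtain ⟨m, hm⟩ := arch p w hp hw
    have b : ¬ lt p (g ^ (-(m : ℤ)) • w) := by
      refine asym _ _ ?_
      have := (hlt (-(m : ℤ)) _ _).2 hm
      rwa [← zpow_natCast, sm, neg_add_cancel, zpow_zero, one_smul] at this
    have all : ∀ j : ℤ, -(m : ℤ) ≤ j → ¬ lt p (g ^ j • w) := by
      intro j hj
      induction j, hj using Int.le_induction with
      | base => exact b
      | succ j _ ih => exact hc j ih
    exact all n (by omega) (by rwa [zpow_natCast])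
  obtain ⟨l, l1, l2⟩ := ex
  constructor
  · by_contra hc
    have a1 := (hlt (h + 1) _ _).2 l2
    rw [sm] at a1
    have a2 := t2 _ _ _ hq (hA _ _ hp) (hA _ _ hw) h2 (asym _ _ a1)
    exact l1 ((e l).2 (t2 _ _ _ hq (hA _ _ hw) (hA _ _ hw) a2 (mono _ _ (by omega))))
  · by_contra hc
    have a1 := t2 _ _ _ hq (hA _ _ hw) (hA _ _ hw) ((e _).1 l2) (mono _ (h + l) (by omega))
    have a2 := t1 _ _ _ (hA _ _ hp) hq (hA _ _ hw) h1 a1
    rw [← sm, hlt] at a2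
    exact l1 a2

lemma htR (C : CG G Z) {g : G} (hg : g ≠ 1) {w p q : Z} (hw : Rt C.att g w) (hp : Rt C.att g p)
    (hq : Rt C.att g q) {k h : ℤ}
    (e : ∀ l : ℤ, cyc p (g ^ l • w) (C.att g) ↔ cyc q (g ^ (l + k) • w) (C.att g))
    (H : C.HtR g p q h) : k - 1 ≤ h ∧ h ≤ k := by
  refine ht_abs g (Rt C.att g) (fun x y => cyc x y (C.att g)) (fun l z => rt_smul C hg l) ?_ ?_ ?_
    ?_ (fun x => C.move g x hg) (fun x y => C.arch g x y hg) hw hp hq e H.1 H.2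
  · intro l x y
    rw [← C.smul_cyc (g ^ l) x y, fix_zpow (C.att_fix g hg)]
  · simp only [cyc]
    grind
  · simp only [Rt, cyc]
    grind
  · simp only [Rt, cyc]
    grind

lemma htL (C : CG G Z) {g : G} (hg : g ≠ 1) {w p q : Z} (hw : Rt C.att g⁻¹ w)
    (hp : Rt C.att g⁻¹ p) (hq : Rt C.att g⁻¹ q) {k h : ℤ}
    (e : ∀ l : ℤ, cyc (C.att g) (g ^ l • w) p ↔ cyc (C.att g) (g ^ (l + k) • w) q)
    (H : C.HtL g p q h) : k - 1 ≤ h ∧ h ≤ k := by
  refine ht_abs g (Rt C.att g⁻¹) (fun x y => cyc (C.att g) y x) (fun l z => lf_smul C hg l) ?_ ?_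
    ?_ ?_ (fun x => moveL C hg) (fun x y => archL C hg) hw hp hq e H.1 H.2
  · intro l x y
    rw [← C.smul_cyc (g ^ l) _ y x, fix_zpow (C.att_fix g hg)]
  · simp only [cyc]
    grind
  · simp only [Rt, cyc, inv_inv]
    grind
  · simp only [Rt, cyc, inv_inv]
    grind

lemma conj_ne {g x : G} (hx : x ≠ 1) : g * x * g⁻¹ ≠ 1 := fun h => hx (conj_eq_one_iff.1 h)

lemma pres_cyc {α : MulAut G} (h : C.Pres α true) {a b c : G} (ha : a ≠ 1) (hb : b ≠ 1)
    (hc : c ≠ 1) : cyc (C.att (α a)) (C.att (α b)) (C.att (α c)) ↔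
      cyc (C.att a) (C.att b) (C.att c) := by
  simpa using h a b c ha hb hc

lemma pres_rt {α : MulAut G} (h : C.Pres α true) {x y : G} (hx : x ≠ 1) (hy : y ≠ 1) :
    Rt C.att (α x) (C.att (α y)) ↔ Rt C.att x (C.att y) := by
  rw [Rt, ← map_inv]
  exact pres_cyc h (inv_ne_one.2 hx) hy hx

lemma oc_ne {x y : G} (h : OC C.att x y) : y ≠ 1 := by
  rintro rfl
  exact cyc_asymm h.1 (by simpa [Rt] using h.2)

/-- an order preserving automorphism fixing `b` and shifting one element on each side -/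
lemma twl (h1 : A1Facts C) {β : MulAut G} (hβ : C.Pres β true) {b y u w : G} {k : ℤ} (hb : b ≠ 1)
    (hu : u ≠ 1) (hw : w ≠ 1) (e1 : β b = b) (e2 : β u = b ^ k * u * (b ^ k)⁻¹) (e3 : β w = w)
    (ru : Rt C.att b (C.att u)) (rw' : Rt C.att b⁻¹ (C.att w)) (hy : OC C.att b y) :
    ∃ m, C.TwL b y (β y) m ∧ |m - k| ≤ 1 := by
  have hy0 := oc_ne hy
  have hz : OC C.att b (β y) := by
    constructor
    · have := (pres_rt hβ hb hy0).2 hy.1
      rwa [e1] at this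
    · have := (pres_rt hβ (inv_ne_one.2 hb) (inv_ne_one.2 hy0)).2 hy.2
      rwa [map_inv, map_inv, e1] at this
  obtain ⟨m, hm⟩ := h1.exL b y (β y) hy hz
  refine ⟨m, hm, ?_⟩
  obtain ⟨-, -, h, h', rfl, H, H'⟩ := hm
  have b1 := htR C hb (k := k) ru hy.1 hz.1 (fun l => by
    have := pres_cyc hβ hy0 (conj_ne (g := b ^ l) hu) hb
    rw [map_mul, map_mul, map_inv, map_zpow, e1, e2,
      show b ^ l * (b ^ k * u * (b ^ k)⁻¹) * (b ^ l)⁻¹ = b ^ (l + k) * u * (b ^ (l + k))⁻¹ by group,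
      C.att_conj _ _ hu, C.att_conj _ _ hu] at this
    exact this.symm) H
  have b2 := htL C hb (k := 0) rw' hy.2 hz.2 (fun l => by
    have := pres_cyc hβ hb (conj_ne (g := b ^ l) hw) (inv_ne_one.2 hy0)
    rw [map_mul, map_mul, map_inv, map_zpow, e1, e3, C.att_conj _ _ hw, map_inv] at this
    rw [add_zero]
    exact this.symm) H'
  rw [abs_le]
  omega

lemma pos (h1 : A1Facts C) {a : G} {k : ℤ} {α : MulAut G} (ha : C.SP a) (h : C.IsTwist a k α) :
    C.Pres α true := by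
  obtain ⟨⟨ε, hε⟩, h⟩ := h
  cases ε
  · exfalso
    obtain ⟨γ, g1, -⟩ := h a (Same.refl a)
    obtain ⟨u, -, hu, hl⟩ := exists_adj h1 ha (Same.refl a)
    have hs := adj_self h1 ha (Same.refl a)
    have key : ∀ b, C.Adj a a b → C.att (α b) = γ⁻¹ • C.att b := by
      intro b hb
      rw [← C.att_conj _ _ hb.1]
      congr 1
      conv_rhs => rw [← g1 b hb]
      group
    have := hε a u a⁻¹ hs.1 hu.1 (inv_ne_one.2 hs.1)
    rw [key _ hs, key _ hu, key _ (adj_inv hs), C.smul_cyc] at this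
    have h2 : cyc (C.att a) (C.att u) (C.att a⁻¹) := by simpa [Rt] using hl.1
    exact cyc_asymm h2 (by simpa using this.1 h2)
  · exact hε

lemma pres_conj (h2 : A1PFacts C) {α : MulAut G} (h : C.Pres α true) (γ : G) :
    C.Pres (MulAut.conj γ * α) true :=
  h2.mul _ _ true true (h2.inner _ ⟨γ, fun _ => rfl⟩) h

lemma gd_of {a c : G} (hc : c ≠ 1) (h : ¬ C.Meets a c) : Gd C a c :=
  ⟨hc, fun u hu hx => h ⟨u, c, hu, Same.refl c, hx⟩⟩

lemma same_tw {α : MulAut G} {c y : G} (h : Same c y) (γ : G) :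
    Same (α c) ((MulAut.conj γ * α) y) := same_conj (same_map α h) γ

lemma bare (h1 : A1Facts C) (h2 : A1PFacts C) {a b c : G} {k : ℤ} {α : MulAut G} (ha : C.SP a)
    (h : C.IsTwist a k α) (hb : C.SP b) (hab : ¬ C.Meets a b) (hn : ¬ Same a b)
    (hbc : C.Meets b c) : ∃ m, C.Tw b c (α c) m ∧ |m| ≤ 2 := by
  have hb0 := hb.1.1
  have hg := gd_of hb0 hab
  obtain ⟨y, hy, hoc⟩ := h1.oc_of_meets b c b hbc (Same.refl b)
  have : ∃ t, Same a t ∧ Lf C t b := by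
    rcases pos_cases h1 ha (Same.refl a) hg with h | h | h | h
    · exact ⟨a, Same.refl a, h⟩
    · exact ⟨a⁻¹, same_inv (Same.refl a), h⟩
    · exact absurd h.1 (not_end h1 ha hb.1 hn (Same.refl a))
    · exact absurd h.1 (not_end h1 ha hb.1 hn (same_inv (Same.refl a)))
  obtain ⟨t0, ht0, hl0⟩ := this
  obtain ⟨t, ht, hadj, hl, -⟩ := near h1 ha ht0 hg hl0
  obtain ⟨γ, g1, -⟩ := h.2 t ht
  obtain ⟨u, hu, ru⟩ := adj_right h1 ha ht hb.1 hg hn hadj hl
  obtain ⟨w, hw, rw'⟩ := adj_right h1 ha ht (h1.prim_same b _ hb.1 (same_inv (Same.refl b))) hg.inv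
    (fun h => hn (by simpa using same_inv h)) (adj_inv hadj) ⟨hl.2, by simpa using hl.1⟩
  obtain ⟨m, hm, hm'⟩ := twl h1 (pres_conj h2 (pos h1 ha h) γ) (k := 0) hb0 hu.1 hw.1 (g1 b hadj)
    (by simpa using g1 u hu) (g1 w hw) ru rw' hoc
  exact ⟨m, ⟨b, y, _, Same.refl b, hy, same_tw hy γ, hm⟩, by
    rw [sub_zero] at hm'
    omega⟩

lemma shift (h1 : A1Facts C) (h2 : A1PFacts C) {a c : G} {k : ℤ} {α : MulAut G} (ha : C.SP a)
    (h : C.IsTwist a k α) (hac : C.Meets a c) : ∃ m, C.Tw a c (α c) m ∧ |m - k| ≤ 2 := by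
  obtain ⟨y, hy, hoc⟩ := h1.oc_of_meets a c a hac (Same.refl a)
  obtain ⟨γ, g1, g2⟩ := h.2 a (Same.refl a)
  obtain ⟨w, -, hw, lw⟩ := exists_adj h1 ha (Same.refl a)
  obtain ⟨u, -, hu, lu⟩ := exists_adj h1 ha (same_inv (Same.refl a))
  obtain ⟨m, hm, hm'⟩ := twl h1 (pres_conj h2 (pos h1 ha h) γ) (k := k) ha.1.1 hu.1 hw.1
    (g1 a (adj_self h1 ha (Same.refl a))) (g2 u hu) (g1 w hw) (by simpa using lu.1) lw.1 hoc
  exact ⟨m, ⟨a, y, _, Same.refl a, hy, same_tw hy γ, hm⟩, by omega⟩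

lemma adj_map {a t b : G} {β : MulAut G} (hβ : C.Pres β true) (ha : a ≠ 1) (hs : Same (β a) a)
    (ht : t ≠ 1) (h : C.Adj a (β t) (β b)) : C.Adj a t b := by
  have hb : b ≠ 1 := fun e => h.1 (by rw [e, map_one])
  have key : ∀ b, b ≠ 1 → C.AdjPt a (β t) (C.att (β b)) → C.AdjPt a t (C.att b) := by
    intro b hb h
    refine ⟨fun r => h.1 ((pres_rt hβ ht hb).2 r), fun u hu r r' => ?_⟩
    have hu0 := same_ne ha hu
    refine h.2 (β u) (hs.symm.trans (same_map β hu)) ?_ ((pres_rt hβ hu0 hb).2 r')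
    rw [← map_inv]
    exact (pres_rt hβ (inv_ne_one.2 hu0) ht).2 r
  exact ⟨hb, key b hb h.2.1, key b⁻¹ (inv_ne_one.2 hb) (by rw [map_inv]; exact h.2.2)⟩

/-- `δ` is conjugation by `g` on both regions adjacent to `t` -/
def Qd (C : CG G Z) (a : G) (δ : MulAut G) (t g : G) : Prop :=
  ∀ b, C.Adj a t b ∨ C.Adj a t⁻¹ b → δ b = g * b * g⁻¹

lemma Qd.inv {a t g : G} {δ : MulAut G} (h : Qd C a δ t g) : Qd C a δ t⁻¹ g :=
  fun b hb => h b (by simpa [or_comm] using hb)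

lemma inner_of (h1 : A1Facts C) {a : G} (ha : C.SP a) {δ : MulAut G}
    (H : ∀ t, Same a t → ∃ g, Qd C a δ t g) : Inner δ := by
  have step : ∀ t c g, Same a t → Same a c → Lf C t c → C.Adj a t c → Qd C a δ t g →
      Qd C a δ c g := by
    intro t c g ht hc hl hadj hq
    obtain ⟨g', hq'⟩ := H c hc
    have e1 := hq c (Or.inl hadj)
    have e2 := hq t (Or.inl (adj_self h1 ha ht))
    have e3 := hq' c (Or.inl (adj_self h1 ha hc))
    have e4 : δ t = g' * t * g'⁻¹ := by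
      rcases pos_cases h1 ha hc (gd_lift ha ht) with h | h | h | h
      · exact hq' t (Or.inl (adj_symm h1 ha ht hadj (Or.inl rfl) h))
      · exact hq' t (Or.inr (adj_symm h1 ha ht hadj (Or.inr rfl) h))
      · exact absurd h.1 (by simpa using (cyc_ne hl.1).1)
      · exact absurd h.1 (by simpa using (cyc_ne hl.2).1)
    have : g'⁻¹ * g = 1 := by
      refine central C (same_ne ha.1.1 ht) (same_ne ha.1.1 hc) hl.1 ?_ ?_
      · rw [show g'⁻¹ * g * t * (g'⁻¹ * g)⁻¹ = g'⁻¹ * (g * t * g⁻¹) * g' by group, ← e2, e4]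
        group
      · rw [show g'⁻¹ * g * c * (g'⁻¹ * g)⁻¹ = g'⁻¹ * (g * c * g⁻¹) * g' by group, ← e1, e3]
        group
    rwa [inv_mul_eq_one.1 this] at hq'
  obtain ⟨g, hg⟩ := H a (Same.refl a)
  have ind : ∀ t c, Same a t → Same a c → Lf C t c → Qd C a δ t g → Qd C a δ c g := by
    intro t c ht hc hl
    refine sep_ind h1 ha (fun t c => Same a c → Qd C a δ t g → Qd C a δ c g) ?_ ?_ ht
      (gd_lift ha hc) hl hc
    · intro t c ht _ hl hadj hc
      exact step t c g ht hc hl hadj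
    · intro t c v _ _ _ hv _ _ p1 p2 hc hq
      exact p2 hc (p1 hv hq).inv
  have all : ∀ c, Same a c → δ c = g * c * g⁻¹ := by
    intro c hc
    have hp := h1.prim_same a c ha.1 hc
    refine (?_ : Qd C a δ c g) c (Or.inl (adj_self h1 ha hc))
    rcases pos_cases h1 ha (Same.refl a) (gd_lift ha hc) with h | h | h | h
    · exact ind a c (Same.refl a) hc h hg
    · exact ind a⁻¹ c (same_inv (Same.refl a)) hc h hg.inv
    · rw [h1.prim_eq _ _ hp ha.1 h.1]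
      exact hg
    · rw [h1.prim_eq _ _ hp (h1.prim_same a _ ha.1 (same_inv (Same.refl a))) h.1]
      exact hg.inv
  obtain ⟨u, hu, -, hl⟩ := exists_adj h1 ha (Same.refl a)
  refine ⟨g, fun x => ?_⟩
  have cm : ∀ c, Same a c → (x⁻¹ * g⁻¹ * δ x * g) * c * (x⁻¹ * g⁻¹ * δ x * g)⁻¹ = c := by
    intro c hc
    have e1 := all _ (same_conj hc x)
    rw [map_mul, map_mul, map_inv, all c hc] at e1
    rw [show (x⁻¹ * g⁻¹ * δ x * g) * c * (x⁻¹ * g⁻¹ * δ x * g)⁻¹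
      = x⁻¹ * g⁻¹ * (δ x * (g * c * g⁻¹) * (δ x)⁻¹) * g * x by group, e1]
    group
  have := central C ha.1.1 (same_ne ha.1.1 hu) hl.1 (cm a (Same.refl a)) (cm u hu)
  calc δ x = g * x * (x⁻¹ * g⁻¹ * δ x * g) * g⁻¹ := by group
    _ = g * x * g⁻¹ := by rw [this, mul_one]

lemma nat (h1 : A1Facts C) (h2 : A1PFacts C) {a : G} {k : ℤ} {α β : MulAut G} (ha : C.SP a)
    (h : C.IsTwist a k α) (hβ : C.Pres β true) (hs : Same (β a) a) :
    Inner (β * α * β⁻¹ * α⁻¹) := by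
  have hi : Inner (α⁻¹ * (β * α * β⁻¹)) := by
    refine inner_of h1 ha fun t ht => ?_
    have hs' : Same (β⁻¹ a) a := by simpa using (same_map β⁻¹ hs).symm
    have ht' : Same a (β⁻¹ t) := hs'.symm.trans (same_map β⁻¹ ht)
    have ht0 := same_ne ha.1.1 ht'
    obtain ⟨γ, g1, g2⟩ := h.2 t ht
    obtain ⟨γ', f1, f2⟩ := h.2 _ ht'
    refine ⟨α⁻¹ ((β γ')⁻¹ * γ), fun b hb => ?_⟩
    have e : β γ' * β (α (β⁻¹ b)) * (β γ')⁻¹ = γ * α b * γ⁻¹ := by
      rcases hb with hb | hb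
      · have := congrArg β (f1 (β⁻¹ b) (adj_map hβ ha.1.1 hs ht0 (by simpa using hb)))
        rw [g1 b hb]
        simpa using this
      · have := congrArg β (f2 (β⁻¹ b) (adj_map hβ ha.1.1 hs (inv_ne_one.2 ht0)
          (by simpa using hb)))
        rw [g2 b hb]
        simpa using this
    have e' : β (α (β⁻¹ b)) = (β γ')⁻¹ * γ * α b * ((β γ')⁻¹ * γ)⁻¹ := by
      calc β (α (β⁻¹ b)) = (β γ')⁻¹ * (β γ' * β (α (β⁻¹ b)) * (β γ')⁻¹) * β γ' := by group
        _ = _ := by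
          rw [e]
          group
    change α⁻¹ (β (α (β⁻¹ b))) = _
    rw [e', map_mul, map_mul, map_inv]
    simp
  obtain ⟨g, hg⟩ := hi
  refine ⟨α g, fun x => ?_⟩
  have := congrArg α (hg (α⁻¹ x))
  simpa using this

end A3

theorem blockA3 (h : StmtA1) (h' : StmtA1P) : StmtA3 := by
  intro G Z _ _ _ C
  have h1 := h G Z C
  have h2 := h' G Z C
  refine ⟨fun a k α ha h => A3.pos h1 ha h, fun a k α c ha h hc hn => ?_,
    fun a k α b c ha h hb hab hn hbc => A3.bare h1 h2 ha h hb hab hn hbc,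
    fun a k α c ha h hac => A3.shift h1 h2 ha h hac,
    fun a k α β ha h hβ hs => A3.nat h1 h2 ha h hβ hs⟩
  obtain ⟨t, ht, hadj⟩ := A3.exists_near h1 ha (A3.gd_of hc hn)
  obtain ⟨γ, g1, -⟩ := h.2 t ht
  exact Or.inl (isConj_iff.2 ⟨γ, g1 c hadj⟩)

end Pool.Agent.Lib.MP_003e01_gt
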