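import Pool.Agent.Lib.MP_003e01_gt.Blue

/-! Block A3, first part: adjacent lifts. -/

namespace Pool.Agent.Lib.MP_003e01_gt

namespace A3

variable {G Z : Type} [Group G] [LinearOrder Z] [MulAction G Z] {C : CG G Z}

/-- both ends of `c` are strictly on the left of `t` -/
def Lf (C : CG G Z) (t c : G) : Prop := Rt C.att t⁻¹ (C.att c) ∧ Rt C.att t⁻¹ (C.att c⁻¹)

/-- `c` crosses no lift of `a` -/
def Gd (C : CG G Z) (a c : G) : Prop := c ≠ 1 ∧ ∀ u, Same a u → ¬ Cross C.att u c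

lemma same_inv {a t : G} (h : Same a t) : Same a t⁻¹ := by
  rcases h with h | h
  · exact Or.inr (isConj_inv h)
  · exact Or.inl (by simpa using isConj_inv h)

lemma same_conj {a t : G} (h : Same a t) (g : G) : Same a (g * t * g⁻¹) :=
  h.trans (Or.inl (isConj_iff.2 ⟨g, rfl⟩))

lemma same_ne {a t : G} (ha : a ≠ 1) (h : Same a t) : t ≠ 1 := by
  rintro rfl
  rcases h with h | h
  · exact ha (isConj_one_left.1 h)
  · exact ha (inv_eq_one.1 (isConj_one_left.1 h))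

lemma same_map (β : MulAut G) {a t : G} (h : Same a t) : Same (β a) (β t) := by
  rcases h with h | h
  · exact Or.inl (β.toMonoidHom.map_isConj h)
  · exact Or.inr (by simpa using β.toMonoidHom.map_isConj h)

lemma tri (C : CG G Z) {g : G} (hg : g ≠ 1) (z : Z) :
    Rt C.att g z ∨ Rt C.att g⁻¹ z ∨ z = C.att g ∨ z = C.att g⁻¹ := by
  have := C.att_ne g hg
  simp only [Rt, cyc, inv_inv]
  grind

lemma fix_inv (C : CG G Z) {g : G} (hg : g ≠ 1) : g • C.att g⁻¹ = C.att g⁻¹ := by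
  have := C.att_fix g⁻¹ (inv_ne_one.2 hg)
  rw [inv_smul_eq_iff] at this
  exact this.symm

lemma fix_zpow {g : G} {z : Z} (h : g • z = z) (l : ℤ) : g ^ l • z = z :=
  (MulAction.stabilizer G z).zpow_mem h l

lemma fixed (C : CG G Z) {g : G} (hg : g ≠ 1) {z : Z} (h : g • z = z) :
    z = C.att g ∨ z = C.att g⁻¹ := by
  rcases tri C hg z with h1 | h1 | h1
  · have := C.move g z hg h1
    rw [h] at this
    exact absurd rfl (cyc_ne this).1
  · have := C.move g⁻¹ z (inv_ne_one.2 hg) h1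
    rw [inv_smul_eq_iff.2 h.symm] at this
    exact absurd rfl (cyc_ne this).1
  · exact h1

lemma central (C : CG G Z) {g x y : G} (hx : x ≠ 1) (hy : y ≠ 1) (h : Rt C.att x⁻¹ (C.att y))
    (e1 : g * x * g⁻¹ = x) (e2 : g * y * g⁻¹ = y) : g = 1 := by
  by_contra hg
  have f1 := C.att_conj x g hx
  have f2 := C.att_conj y g hy
  have f3 := C.att_conj x⁻¹ g (inv_ne_one.2 hx)
  rw [e1] at f1
  rw [e2] at f2
  rw [show g * x⁻¹ * g⁻¹ = x⁻¹ by rw [← conj_inv, e1]] at f3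
  have g1 := fixed C hg f1.symm
  have g2 := fixed C hg f2.symm
  have g3 := fixed C hg f3.symm
  have := cyc_ne h
  simp only [inv_inv] at this
  grind

lemma rt_smul (C : CG G Z) {g : G} (hg : g ≠ 1) (l : ℤ) {z : Z} (h : Rt C.att g z) :
    Rt C.att g (g ^ l • z) := by
  have := (C.smul_cyc (g ^ l) _ _ _).2 h
  rwa [fix_zpow (fix_inv C hg), fix_zpow (C.att_fix g hg)] at this

lemma lf_smul (C : CG G Z) {g : G} (hg : g ≠ 1) (l : ℤ) {z : Z} (h : Rt C.att g⁻¹ z) :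
    Rt C.att g⁻¹ (g ^ l • z) := by
  have := rt_smul C (inv_ne_one.2 hg) (-l) h
  simpa using this

lemma moveL (C : CG G Z) {g : G} (hg : g ≠ 1) {z : Z} (h : Rt C.att g⁻¹ z) :
    cyc (C.att g) (g • z) z := by
  have h1 := lf_smul C hg 1 h
  rw [zpow_one] at h1
  have h2 := C.move g⁻¹ _ (inv_ne_one.2 hg) h1
  rw [inv_smul_smul] at h2
  simp only [Rt, cyc, inv_inv] at *
  grind

lemma archL (C : CG G Z) {g : G} (hg : g ≠ 1) {x y : Z} (hx : Rt C.att g⁻¹ x)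
    (hy : Rt C.att g⁻¹ y) : ∃ n : ℕ, cyc (C.att g) (g ^ n • x) y := by
  obtain ⟨n, hn⟩ := C.arch g⁻¹ y x (inv_ne_one.2 hg) hy hx
  refine ⟨n, ?_⟩
  have h1 := (C.smul_cyc (g ^ (n : ℤ)) _ _ _).2 hn
  rw [fix_zpow (fix_inv C hg), zpow_natCast, inv_pow, smul_inv_smul] at h1
  have h2 := lf_smul C hg n hx
  rw [zpow_natCast] at h2
  simp only [Rt, cyc, inv_inv] at *
  grind

lemma side (h1 : A1Facts C) {v c : G} (hv : v ≠ 1) (hc : c ≠ 1) (hn : ¬ Cross C.att v c)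
    (h : Rt C.att v (C.att c)) : Rt C.att v (C.att c⁻¹) := by
  rcases tri C hv (C.att c⁻¹) with h2 | h2 | h2 | h2
  · exact h2
  · exact absurd (Or.inl ⟨h, h2⟩) hn
  · have := h1.att_eq _ _ (inv_ne_one.2 hc) hv h2
    rw [inv_inv] at this
    exact absurd this.symm (cyc_ne h).1
  · have := h1.att_eq _ _ (inv_ne_one.2 hc) (inv_ne_one.2 hv) h2
    rw [inv_inv, inv_inv] at this
    exact absurd this (cyc_ne h).2.1

lemma Gd.inv {a c : G} (h : Gd C a c) : Gd C a c⁻¹ := by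
  refine ⟨inv_ne_one.2 h.1, fun u hu hc => h.2 u hu ?_⟩
  simp only [Cross, inv_inv] at hc ⊢
  tauto

lemma gd_lift {a t : G} (ha : C.SP a) (h : Same a t) : Gd C a t :=
  ⟨same_ne ha.1.1 h, fun u hu hc => ha.2 ⟨u, t, hu, h, hc⟩⟩

lemma Gd.side (h1 : A1Facts C) {a c v : G} (ha : C.SP a) (h : Gd C a c) (hv : Same a v)
    (hr : Rt C.att v (C.att c)) : Rt C.att v (C.att c⁻¹) :=
  A3.side h1 (same_ne ha.1.1 hv) h.1 (h.2 v hv) hr

lemma Gd.side' (h1 : A1Facts C) {a c v : G} (ha : C.SP a) (h : Gd C a c) (hv : Same a v)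
    (hr : Rt C.att v (C.att c⁻¹)) : Rt C.att v (C.att c) := by
  simpa using h.inv.side h1 ha hv hr

lemma adj_inv {a t b : G} (h : C.Adj a t b) : C.Adj a t b⁻¹ :=
  ⟨inv_ne_one.2 h.1, h.2.2, by simpa using h.2.1⟩

lemma adjPt_end (h1 : A1Facts C) {a t : G} (ha : C.SP a) (ht : Same a t) {z : Z}
    (hz : z = C.att t ∨ z = C.att t⁻¹) : C.AdjPt a t z := by
  rcases hz with rfl | rfl
  · exact ⟨fun h => (cyc_ne h).2.1 rfl, fun u _ h h' => cyc_asymm h' (by simpa [Rt] using h)⟩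
  · exact ⟨fun h => (cyc_ne h).1 rfl, fun u hu h h' =>
      cyc_asymm ((gd_lift ha ht).side' h1 ha hu h') (by simpa [Rt] using h)⟩

lemma adj_self (h1 : A1Facts C) {a t : G} (ha : C.SP a) (ht : Same a t) : C.Adj a t t :=
  ⟨same_ne ha.1.1 ht, adjPt_end h1 ha ht (Or.inl rfl), adjPt_end h1 ha ht (Or.inr rfl)⟩

lemma sep_fin {a t c : G} (ha : a ≠ 1) (ht : t ≠ 1) (hc : c ≠ 1) :
    {u : G | Same a u ∧ Sep C.att u t c}.Finite := by
  refine ((C.fin_sep t c a ht hc ha).union (C.fin_sep t c a⁻¹ ht hc (inv_ne_one.2 ha))).subset ?_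
  rintro u ⟨h | h, h'⟩
  · exact Or.inl ⟨h, h'⟩
  · exact Or.inr ⟨h, h'⟩

/-- induction on the number of separating lifts -/
lemma sep_ind (h1 : A1Facts C) {a : G} (ha : C.SP a) (P : G → G → Prop)
    (base : ∀ t c, Same a t → Gd C a c → Lf C t c → C.Adj a t c → P t c)
    (step : ∀ t c v, Same a t → Gd C a c → Lf C t c → Same a v → Sep C.att v t c → Lf C t v →
      P t v → P v⁻¹ c → P t c) {t c : G} (ht : Same a t) (hc : Gd C a c) (hl : Lf C t c) :
    P t c := by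
  generalize hn : {u : G | Same a u ∧ Sep C.att u t c}.ncard = n
  induction n using Nat.strong_induction_on generalizing t c with
  | _ n ih =>
  by_cases hex : ∃ v, Same a v ∧ Sep C.att v t c
  · obtain ⟨v, hv, hs⟩ := hex
    have hfin := sep_fin (C := C) ha.1.1 (same_ne ha.1.1 ht) hc.1
    have hne := C.att_ne t (same_ne ha.1.1 ht)
    have hne' := C.att_ne v (same_ne ha.1.1 hv)
    have hl' : Lf C t v := by
      simp only [Lf, Sep, Rt, cyc, inv_inv] at hl hs ⊢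
      grind
    refine step t c v ht hc hl hv hs hl' (ih _ ?_ ht (gd_lift ha hv) hl' rfl)
      (ih _ ?_ (same_inv hv) hc ⟨by simpa using hs.2.2.1, by simpa using hs.2.2.2⟩ rfl)
    · rw [← hn]
      refine Set.ncard_lt_ncard ⟨fun w hw => ⟨hw.1, ?_⟩, fun h => ?_⟩ hfin
      · have := hw.2
        simp only [Sep, Rt, cyc, inv_inv] at this hs ⊢
        grind
      · exact (cyc_ne (h ⟨hv, hs⟩).2.2.2.1).2.1 rfl
    · rw [← hn]
      refine Set.ncard_lt_ncard ⟨fun w hw => ⟨hw.1, ?_⟩, fun h => ?_⟩ hfin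
      · have := hw.2
        simp only [Sep, Rt, cyc, inv_inv] at this hs ⊢
        grind
      · exact (cyc_ne (h ⟨hv, hs⟩).2.1).2.1 rfl
  · have key : ∀ u, Same a u → Rt C.att u⁻¹ (C.att t) → ¬ Rt C.att u (C.att c) := by
      intro u hu h h'
      exact hex ⟨u, hu, h, (gd_lift ha ht).side h1 ha (same_inv hu) h, h', hc.side h1 ha hu h'⟩
    refine base t c ht hc hl ⟨hc.1, ⟨fun h => cyc_asymm h (by simpa [Rt] using hl.1), key⟩,
      ⟨fun h => cyc_asymm h (by simpa [Rt] using hl.2), fun u hu h h' =>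
        key u hu h (hc.side' h1 ha hu h')⟩⟩

lemma near (h1 : A1Facts C) {a : G} (ha : C.SP a) {t c : G} (ht : Same a t) (hc : Gd C a c)
    (hl : Lf C t c) : ∃ t', Same a t' ∧ C.Adj a t' c ∧ Lf C t' c ∧
      (Rt C.att c (C.att t) → Rt C.att c (C.att t')) := by
  refine sep_ind h1 ha (fun t c => ∃ t', Same a t' ∧ C.Adj a t' c ∧ Lf C t' c ∧
      (Rt C.att c (C.att t) → Rt C.att c (C.att t'))) ?_ ?_ ht hc hl
  · intro t c ht _ hl h
    exact ⟨t, ht, h, hl, id⟩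
  · rintro t c v - hc - - hs - - ⟨t', h2, h3, h4, h5⟩
    refine ⟨t', h2, h3, h4, fun h => h5 ?_⟩
    simp only [Sep, Rt, cyc, inv_inv] at h hs ⊢
    grind

lemma dense' (C : CG G Z) {g : G} (hg : g ≠ 1) :
    ∃ h : G, h ≠ 1 ∧ Rt C.att g (C.att h) ∧ Rt C.att g⁻¹ (C.att h⁻¹) := by
  obtain ⟨h, h0, h1 | h1⟩ := C.dense g hg
  · exact ⟨h, h0, h1⟩
  · exact ⟨h⁻¹, inv_ne_one.2 h0, h1.1, by simpa using h1.2⟩

lemma exists_adj (h1 : A1Facts C) {a : G} (ha : C.SP a) {t : G} (ht : Same a t) :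
    ∃ u, Same a u ∧ C.Adj a t u ∧ Lf C t u := by
  have ht0 := same_ne ha.1.1 ht
  obtain ⟨h, h0, r1, r2⟩ := dense' C (inv_ne_one.2 ht0)
  have hl : Lf C t (h * t * h⁻¹) := by
    have m1 := C.move h (C.att t) h0 (by
      simp only [Rt, cyc, inv_inv] at r1 r2 ⊢
      grind)
    have m2 := moveL C h0 (z := C.att t⁻¹) (by
      simp only [Rt, cyc, inv_inv] at r1 r2 ⊢
      grind)
    rw [Lf, conj_inv, C.att_conj _ _ ht0, C.att_conj _ _ (inv_ne_one.2 ht0)]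
    simp only [Rt, cyc, inv_inv] at r1 r2 m1 m2 ⊢
    grind
  refine sep_ind h1 ha (fun t c => Same a c → ∃ u, Same a u ∧ C.Adj a t u ∧ Lf C t u) ?_ ?_ ht
    (gd_lift ha (same_conj ht h)) hl (same_conj ht h)
  · intro t c _ _ hl h hc
    exact ⟨c, hc, h, hl⟩
  · intro t c v _ _ _ hv _ _ h _ _
    exact h hv

/-- position of an element crossing no lift relative to a lift -/
lemma pos_cases (h1 : A1Facts C) {a t c : G} (ha : C.SP a) (ht : Same a t) (hc : Gd C a c) :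
    Lf C t c ∨ Lf C t⁻¹ c ∨ (C.att c = C.att t ∧ C.att c⁻¹ = C.att t⁻¹) ∨
      (C.att c = C.att t⁻¹ ∧ C.att c⁻¹ = C.att t) := by
  have ht0 := same_ne ha.1.1 ht
  rcases tri C ht0 (C.att c) with h | h | h | h
  · exact Or.inr (Or.inl ⟨by simpa using h, by simpa using hc.side h1 ha ht h⟩)
  · exact Or.inl ⟨h, hc.side h1 ha (same_inv ht) h⟩
  · exact Or.inr (Or.inr (Or.inl ⟨h, h1.att_eq _ _ hc.1 ht0 h⟩))
  · exact Or.inr (Or.inr (Or.inr ⟨h, by simpa using h1.att_eq _ _ hc.1 (inv_ne_one.2 ht0) h⟩))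

lemma exists_near (h1 : A1Facts C) {a c : G} (ha : C.SP a) (hc : Gd C a c) :
    ∃ t, Same a t ∧ C.Adj a t c := by
  rcases pos_cases h1 ha (Same.refl a) hc with h | h | h | h
  · obtain ⟨t, h2, h3, -⟩ := near h1 ha (Same.refl a) hc h
    exact ⟨t, h2, h3⟩
  · obtain ⟨t, h2, h3, -⟩ := near h1 ha (same_inv (Same.refl a)) hc h
    exact ⟨t, h2, h3⟩
  · exact ⟨a, Same.refl a, hc.1, adjPt_end h1 ha (Same.refl a) (Or.inl h.1),
      adjPt_end h1 ha (Same.refl a) (Or.inr h.2)⟩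
  · exact ⟨a, Same.refl a, hc.1, adjPt_end h1 ha (Same.refl a) (Or.inr h.1),
      adjPt_end h1 ha (Same.refl a) (Or.inl h.2)⟩

lemma not_end (h1 : A1Facts C) {a b v : G} (ha : C.SP a) (hb : C.Prim b) (hn : ¬ Same a b)
    (hv : Same a v) : C.att b ≠ C.att v := fun h =>
  hn (h1.prim_eq _ _ hb (h1.prim_same a v ha.1 hv) h ▸ hv)

/-- some lift lies on the right of `b` -/
lemma exists_right (h1 : A1Facts C) {a t b : G} (ha : C.SP a) (ht : Same a t) (hb : b ≠ 1)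
    (hl : Lf C b t) : ∃ u, Same a u ∧ Rt C.att b (C.att u) ∧ Rt C.att b (C.att u⁻¹) := by
  have ht0 := same_ne ha.1.1 ht
  obtain ⟨h, h0, r1, r2⟩ := dense' C hb
  have e1 : Rt C.att h⁻¹ (C.att b) := by
    simp only [Rt, cyc, inv_inv] at r1 r2 ⊢
    grind
  have e2 : Rt C.att h (C.att b⁻¹) := by
    simp only [Rt, cyc, inv_inv] at r1 r2 ⊢
    grind
  have stay : ∀ (n : ℕ) z, Rt C.att b z → Rt C.att b (h ^ n • z) := by
    intro n z hz
    induction n with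
    | zero => simpa using hz
    | succ n ih =>
      have m1 := C.move h _ h0 e2
      have m2 := moveL C h0 e1
      have m3 := (C.smul_cyc h _ _ _).2 ih
      rw [pow_succ', mul_smul]
      simp only [Rt, cyc, inv_inv] at r1 r2 m1 m2 m3 ⊢
      grind
  have go : ∀ x : G, x ≠ 1 → Lf C b x → ∃ n : ℕ, Rt C.att b (h ^ n • C.att x) := by
    intro x hx hl
    rcases tri C h0 (C.att x) with h2 | h2 | h2 | h2
    · obtain ⟨n, hn⟩ := C.arch h _ _ h0 h2 e2
      refine ⟨n, ?_⟩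
      simp only [Rt, cyc, inv_inv] at r1 hn ⊢
      grind
    · obtain ⟨n, hn⟩ := archL C h0 h2 e1
      refine ⟨n, ?_⟩
      simp only [Rt, cyc, inv_inv] at r1 hn ⊢
      grind
    · exact absurd (h2 ▸ r1) fun h => cyc_asymm h (by simpa [Rt] using hl.1)
    · have := h1.att_eq _ _ hx (inv_ne_one.2 h0) h2
      rw [inv_inv] at this
      exact absurd (this ▸ r1) fun h => cyc_asymm h (by simpa [Rt] using hl.2)
  obtain ⟨n, hn⟩ := go t ht0 hl
  obtain ⟨m, hm⟩ := go t⁻¹ (inv_ne_one.2 ht0) ⟨hl.2, by simpa using hl.1⟩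
  refine ⟨h ^ (n + m) * t * (h ^ (n + m))⁻¹, same_conj ht _, ?_, ?_⟩
  · rw [C.att_conj _ _ ht0, add_comm, pow_add, mul_smul]
    exact stay _ _ hn
  · rw [conj_inv, C.att_conj _ _ (inv_ne_one.2 ht0), pow_add, mul_smul]
    exact stay _ _ hm

/-- the region adjacent to `t` has a boundary lift on the right of `b` -/
lemma adj_right (h1 : A1Facts C) {a t b : G} (ha : C.SP a) (ht : Same a t) (hb : C.Prim b)
    (hg : Gd C a b) (hn : ¬ Same a b) (hadj : C.Adj a t b) (hl : Lf C t b) :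
    ∃ u, C.Adj a t u ∧ Rt C.att b (C.att u) := by
  by_cases hr : Rt C.att b (C.att t)
  · exact ⟨t, adj_self h1 ha ht, hr⟩
  by_cases hr' : Rt C.att b (C.att t⁻¹)
  · exact ⟨t⁻¹, adj_inv (adj_self h1 ha ht), hr'⟩
  have hbne := C.att_ne b hb.1
  have hl' : Lf C b t := by
    simp only [Lf, Rt, cyc, inv_inv] at hl hr hr' ⊢
    grind
  obtain ⟨u, hu, r1, r2⟩ := exists_right h1 ha ht hb.1 hl'
  have : ∃ u, Same a u ∧ Rt C.att b (C.att u) ∧ Lf C u b := by
    rcases pos_cases h1 ha hu hg with h | h | h | h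
    · exact ⟨u, hu, r1, h⟩
    · exact ⟨u⁻¹, same_inv hu, r2, h⟩
    · exact absurd h.1 (not_end h1 ha hb hn hu)
    · exact absurd h.1 (not_end h1 ha hb hn (same_inv hu))
  obtain ⟨u, hu, r1, r2⟩ := this
  obtain ⟨w, hw, w1, w2, w3⟩ := near h1 ha hu hg r2
  have w4 := w3 r1
  have k1 : ¬ Rt C.att t (C.att w) := by
    simp only [Lf, Rt, cyc, inv_inv] at hl hl' w4 ⊢
    grind
  have k2 : ∀ v, Same a v → Rt C.att v⁻¹ (C.att t) → ¬ Rt C.att v (C.att w) := by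
    intro v hv p1 p2
    rcases tri C (same_ne ha.1.1 hv) (C.att b) with h | h | h | h
    · exact hadj.2.1.2 v hv p1 h
    · exact w1.2.1.2 v⁻¹ (same_inv hv) (by simpa using p2) h
    · exact not_end h1 ha hb hn hv h
    · exact not_end h1 ha hb hn (same_inv hv) h
  exact ⟨w, ⟨same_ne ha.1.1 hw, ⟨k1, k2⟩, ⟨fun h => k1 ((gd_lift ha hw).side' h1 ha ht h),
    fun v hv p1 p2 => k2 v hv p1 ((gd_lift ha hw).side' h1 ha hv p2)⟩⟩, w4⟩

lemma adj_symm (h1 : A1Facts C) {a t u u' : G} (ha : C.SP a) (ht : Same a t)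
    (hadj : C.Adj a t u) (hu : u' = u ∨ u' = u⁻¹) (hl : Lf C u' t) : C.Adj a u' t := by
  have k2 : ∀ v, Same a v → Rt C.att v⁻¹ (C.att u') → ¬ Rt C.att v (C.att t) := by
    intro v hv p1 p2
    rcases hu with rfl | rfl
    · exact hadj.2.1.2 v⁻¹ (same_inv hv) (by simpa using p2) p1
    · exact hadj.2.2.2 v⁻¹ (same_inv hv) (by simpa using p2) p1
  exact ⟨same_ne ha.1.1 ht, ⟨fun h => cyc_asymm h (by simpa [Rt] using hl.1), k2⟩,
    ⟨fun h => cyc_asymm h (by simpa [Rt] using hl.2),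
      fun v hv p1 p2 => k2 v hv p1 ((gd_lift ha ht).side' h1 ha hv p2)⟩⟩

end A3

end Pool.Agent.Lib.MP_003e01_gt
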