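import Pool.Agent.Lib.MP_003e01_gt.A4b

/-! Block A4: the automorphisms of the splitting shift the chain. -/

namespace Pool.Agent.Lib.MP_003e01_gt

namespace A4

variable {Γ Cv : Type} [Group Γ] [MulAction Γ Cv] {P : AP Γ Cv}

namespace Ctx

variable {s e : Fin 3 → Cv} {D : Set Cv} {Ψ Τ : Fin 3 → Γ} {f : ℤ → Γ} {B n : ℤ}
  {Ns : Fin 3 → ℤ} (h : Ctx P s e D Ψ Τ f B n Ns)
include h

lemma gd_val (k : ℤ) : |P.d (f k • s (r k)) (f (k - 1) • e (r (k - 1))) (f (k + 1) • e (r (k + 1))) -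
    sgn k * Ns (r k)| ≤ 7 * P.K := by
  have := h.gdv (k - 1)
  rwa [sub_add_cancel, show k - 1 + 2 = k + 1 by ring] at this

/-- identification of the image of an annulus -/
lemma image_δ (α : Γ) (i k : ℤ) (σ : ℤ) (hσ : σ = 1 ∨ σ = -1)
    (h1 : P.M (f k • s (r k)) (α • f i • e (r (i + 2))))
    (h2 : P.M (f k • s (r k)) (α • f (i + 1) • e (r (i + 1 + 2))))
    (h3 : |P.d (f k • s (r k)) (α • f i • e (r (i + 2))) (α • f (i + 1) • e (r (i + 1 + 2))) -
      σ * Ns (r k)| ≤ 2 * B + 13 * P.K) :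
    α • f (i + 1) • s (r (i + 1)) = f k • s (r k) ∧ k % 3 = (i + 1) % 3 ∧
      σ = (P.sg α : ℤ) * sgn (i + 1) := by
  have hK := h.hK
  have hB := h.hB
  obtain ⟨b, hb⟩ : ∃ b, f k • s (r k) = α • b := ⟨_, (smul_inv_smul _ _).symm⟩
  rw [hb] at h1 h2 h3 ⊢
  rw [P.M_smul] at h1 h2
  have e1 := P.d_smul α _ _ _ h1 h2
  have n1 := h.hN (r k)
  have n2 := h.hN (r (i + 1))
  have hb2 : b = f (i + 1) • s (r (i + 1)) := by
    refine h.uniq_δ i h1 h2 ?_
    rcases Int.units_eq_one_or (P.sg α) with u | u <;> rw [u] at e1 <;>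
      rcases hσ with rfl | rfl <;>
      simp only [abs_le, lt_abs, Units.val_one, Units.val_neg] at * <;> omega
  have e2 := h.gεv i
  rw [← hb2] at e2
  have key : σ = (P.sg α : ℤ) * sgn (i + 1) ∧ |Ns (r k) - Ns (r (i + 1))| ≤ 10 * B := by
    simp only [sgn] at e2 ⊢
    rcases Int.units_eq_one_or (P.sg α) with u | u <;> rw [u] at e1 ⊢ <;>
      rcases hσ with rfl | rfl <;> split_ifs at e2 ⊢ <;>
      simp only [abs_le, Units.val_one, Units.val_neg] at * <;> omega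
  refine ⟨by rw [hb2], r_eq.1 ?_, key.1⟩
  by_contra hne
  exact absurd key.2 (not_le.2 (h.hNN _ _ hne))

lemma shift_δ (α : Γ) (hα : ∀ j x, (F Ψ f j)⁻¹ • α • x ∈ D ↔ (F Ψ f j)⁻¹ • x ∈ D) :
    P.sg α = 1 ∧ ∃ t : ℤ, t % 6 = 0 ∧ ∀ i, α • f i • s (r i) = f (i + t) • s (r (i + t)) := by
  have ch := h.chain
  have hK := h.hK
  have hB := h.hB
  have pos : ∀ i : ℤ, ∃ J : ℤ, (J - i) % 2 = 0 ∧
      Pl P (fun k => f k • s (r k)) (fun k => f k • e (r k)) B J (α • f i • e (r (i + 2))) ∧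
      Mi P (fun k => f k • s (r k)) (fun k => f k • e (r k)) B (J + 1)
        (α • f i • e (r (i + 2))) := by
    intro i
    refine ch.position fun t => ?_
    have e1 := h.F_ε (i - 1)
    rw [sub_add_cancel] at e1
    have := h.disc_wave (i - 1 + 2 * t) (α • f i • e (r (i + 2))) (by
      rw [h.disc_even, hα, ← e1, inv_smul_smul]; exact h.conf.e_mem _)
    rwa [show i - 1 + 2 * t + 1 = i + 2 * t by ring, show i - 1 + 2 * t = i + 2 * t - 1 by ring]
      at this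
  choose J hJ hP hM using pos
  have mi : ∀ i k, J i < k → (k - J i) % 2 = 1 →
      Mi P (fun k => f k • s (r k)) (fun k => f k • e (r k)) B k (α • f i • e (r (i + 2))) := by
    intro i k h1 h2
    by_cases h3 : k = J i + 1
    · rw [h3]; exact hM i
    · exact ch.mi_mono (ch.mi_far (hM i) (by omega))
  have sg1 : ∀ k, sgn k = 1 ∨ sgn k = -1 := fun k => by simp only [sgn]; split_ifs <;> simp
  have key : ∀ i : ℤ, ∃ k : ℤ, α • f (i + 1) • s (r (i + 1)) = f k • s (r k) ∧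
      k % 3 = (i + 1) % 3 ∧ ((k = J (i + 1) ∧ sgn k = (P.sg α : ℤ) * sgn (i + 1)) ∨
        (J (i + 1) < J i ∧ k = J i)) := by
    intro i
    have j1 := hJ i
    have j2 := hJ (i + 1)
    by_cases hlt : J i < J (i + 1)
    · have m := mi i (J (i + 1)) hlt (by omega)
      have e1 := ch.mi_pl m (hP (i + 1))
      have e2 := h.gd_val (J (i + 1))
      obtain ⟨a1, a2, a3⟩ := h.image_δ α i (J (i + 1)) _ (sg1 (J (i + 1))) m.1 (hP (i + 1)).1
        (by simp only [abs_le] at *; omega)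
      exact ⟨_, a1, a2, Or.inl ⟨rfl, a3⟩⟩
    · have m := mi (i + 1) (J i) (by omega) (by omega)
      have e1 := ch.mi_pl m (hP i)
      have e2 := h.gd_val (J i)
      have e3 := anti m.1 (hP i).1
      obtain ⟨a1, a2, -⟩ := h.image_δ α i (J i) (-sgn (J i))
        (by have := sg1 (J i); omega) (hP i).1 m.1
        (by simp only [abs_le, neg_mul] at *; omega)
      exact ⟨_, a1, a2, Or.inr ⟨by omega, rfl⟩⟩
  choose π h1 h2 h3 using key
  have step : ∀ i, π (i + 1) = π i + 1 := by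
    intro i
    have a := ch.close (i := π i) (k := π (i + 1)) (by
      show ¬ P.M (f (π i) • s (r (π i))) (f (π (i + 1)) • s (r (π (i + 1))))
      rw [← h1, ← h1, P.M_smul]; exact ch.dd (i + 1))
    have b1 := h2 i
    have b2 := h2 (i + 1)
    omega
  have lin : ∀ i, π i = i + π 0 := by
    intro i
    induction i using Int.induction_on with
    | zero => simp
    | succ i ih => rw [step, ih]; ring
    | pred i ih =>
      have := step (-(i : ℤ) - 1)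
      rw [sub_add_cancel] at this; omega
  have par : π 0 % 2 = 1 := by
    have a0 := h3 0
    have a1 := h3 1
    have b0 := hJ 0
    have b1 := hJ 1
    have b2 := hJ 2
    have c1 := lin 1
    simp only [zero_add, show (1 : ℤ) + 1 = 2 from rfl] at a0 a1
    omega
  refine ⟨?_, π 0 - 1, by have := h2 0; omega, fun i => ?_⟩
  · have b0 := hJ 0
    rcases h3 0 with ⟨-, a⟩ | ⟨-, a⟩
    · rcases Int.units_eq_one_or (P.sg α) with u | u
      · exact u
      · rw [u] at a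
        simp only [sgn, Units.val_neg, Units.val_one] at a
        split_ifs at a <;> omega
    · omega
  · have := h1 (i - 1)
    rw [sub_add_cancel, lin, show i - 1 + π 0 = i + (π 0 - 1) by ring] at this
    exact this

lemma shift_c {α : Γ} {t : ℤ} (h1 : ∀ i, α • f i • s (r i) = f (i + t) • s (r (i + t))) (i : ℤ) :
    α • f i • e (r i) = f (i + t) • e (r (i + t)) := by
  obtain ⟨k, rfl⟩ : ∃ k, i = k + 1 := ⟨i - 1, by ring⟩
  have ch := h.chain
  have m1 := P.symm _ _ (ch.m1 k)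
  have m2 : P.M (f (k + 1) • e (r (k + 1))) (f (k + 2) • s (r (k + 2))) := by
    have := P.symm _ _ (ch.m2 (k + 1)); rwa [show k + 1 + 1 = k + 2 by ring] at this
  have e1 := d_abs α m1 m2
  have m3 := (P.M_smul α _ _).2 m1
  have m4 := (P.M_smul α _ _).2 m2
  have e2 := h.gcv k
  simp only [h1] at e1 m3 m4
  rw [show k + 2 + t = k + t + 2 by ring] at e1 m4
  rw [show k + 1 + t = k + t + 1 by ring]
  refine h.uniq_c (k + t) m3 m4 ?_
  have := h.hK
  have := h.hB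
  have := h.hn
  simp only [sgn] at e2
  split_ifs at e2 <;> simp only [abs_le, lt_abs] at * <;> omega

/-- an element fixing the chain fixes the six curves -/
lemma fix_six {β : Γ} (hs : P.sg β = 1) (h1 : ∀ i, β • f i • s (r i) = f i • s (r i))
    (h2 : ∀ i, β • f i • e (r i) = f i • e (r i)) : (∀ i, β • s i = s i) ∧ ∀ i, β • e i = e i := by
  have a0 := h1 (-1)
  have b0 := h2 (-1)
  have a1 := h1 (-1 + 1)
  have b1 := h2 (-1 + 1)
  have a2 := h1 (-1 + 2)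
  have b2 := h2 (-1 + 2)
  rw [h.δ1] at a1
  rw [h.c1] at b1
  rw [h.δ2] at a2
  rw [h.c2] at b2
  simp only [h.f0, one_smul] at a0 b0 a1 b1 a2 b2
  rw [(h.twτ _).nat β hs b1, smul_left_cancel_iff] at a2
  rw [(h.twψ _).nat β hs a1, smul_left_cancel_iff] at b2
  constructor <;> intro i <;> fin_cases i
  exacts [a1, a2, a0, b1, b2, b0]

lemma aper {γ : Γ} {t : ℤ} (ht : t ≠ 0) (h1 : ∀ i, γ • f i • s (r i) = f (i + t) • s (r (i + t)))
    (g : Γ) : AperC Cv (g⁻¹ * γ * g) := by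
  intro k hk x hx
  have pw : ∀ (u : ℤ → Cv), (∀ i, γ • u i = u (i + t)) → ∀ (m : ℕ) (i : ℤ),
      γ ^ m • u i = u (i + m * t) := by
    intro u hu m
    induction m with
    | zero => intro i; simp
    | succ m ih => intro i; rw [pow_succ, mul_smul, hu, ih]; congr 1; push_cast; ring
  refine h.chain.aper h.fill (γ := γ ^ k) (t := k * t) (mul_ne_zero (by omega) ht)
    (pw _ h1 k) (pw _ (h.shift_c h1) k) (g • x) ?_
  have : (g⁻¹ * γ * g) ^ k = g⁻¹ * γ ^ k * g := by simpa using conj_pow (i := k) (a := g⁻¹) (b := γ)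
  rw [this, mul_smul, mul_smul, inv_smul_eq_iff] at hx
  exact hx

lemma main1 (α : Γ) (h1 : PresD D α) (h2 : PresD D (glueW Ψ Τ * α * (glueW Ψ Τ)⁻¹)) :
    (P.sg α = 1 ∧ (∀ i, α • s i = s i) ∧ ∀ i, α • e i = e i) ∨ AperC Cv α := by
  have F0 : F Ψ f (-1) = Ψ 0 * Ψ 2 := by
    rw [F, h.f0, one_mul]; show Ψ 0 * (Ψ 2)⁻¹⁻¹ = _; rw [inv_inv]
  have F1 : F Ψ f 0 = F Ψ f (-1) * (glueW Ψ Τ)⁻¹ := by
    have := h.fs (-1)
    rw [h.f0, neg_add_cancel] at this
    rw [F0, F, this]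
    show 1 * (Ψ 0 * Τ 0) * (Ψ 1)⁻¹ * (Ψ 0)⁻¹ = _
    simp only [glueW]; group
  have hα : ∀ j x, (F Ψ f j)⁻¹ • (F Ψ f (-1) * α * (F Ψ f (-1))⁻¹) • x ∈ D ↔
      (F Ψ f j)⁻¹ • x ∈ D := by
    intro j x
    rcases Int.emod_two_eq_zero_or_one j with hj | hj
    · rw [show j = 0 + 2 * (j / 2) by omega, h.disc_even, h.disc_even, ← h2 ((F Ψ f 0)⁻¹ • x), F1,
        ← mul_smul, ← mul_smul]
      congr! 2; group
    · rw [show j = -1 + 2 * (j / 2 + 1) by omega, h.disc_even, h.disc_even,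
        ← h1 ((F Ψ f (-1))⁻¹ • x), ← mul_smul, ← mul_smul]
      congr! 2; group
  obtain ⟨a1, t, -, a3⟩ := h.shift_δ _ hα
  have e : α = (F Ψ f (-1))⁻¹ * (F Ψ f (-1) * α * (F Ψ f (-1))⁻¹) * F Ψ f (-1) := by group
  by_cases ht : t = 0
  · left
    subst ht
    have a4 := h.shift_c a3
    simp only [add_zero] at a3 a4
    obtain ⟨b1, b2⟩ := h.fix_six a1 a3 a4
    have key : ∀ x : Cv, α • x = (F Ψ f (-1) * α * (F Ψ f (-1))⁻¹) • x := by
      intro x
      generalize F Ψ f (-1) * α * (F Ψ f (-1))⁻¹ = β at *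
      rw [e, F0, mul_smul, mul_smul, mul_smul, (h.tψ 0).nat β a1 (b1 0), (h.tψ 2).nat β a1 (b1 2),
        ← mul_smul (Ψ 0), inv_smul_smul]
    refine ⟨?_, fun i => (key _).trans (b1 i), fun i => (key _).trans (b2 i)⟩
    rw [map_mul, map_mul, map_inv, h.sg_F] at a1
    simpa using a1
  · right
    rw [e]; exact h.aper ht a3 _

lemma main2 : AperC Cv (paW Ψ Τ) := by
  have e : paW Ψ Τ = (F Ψ f (-1))⁻¹ * (F Ψ f (-1) * paW Ψ Τ * (F Ψ f (-1))⁻¹) * F Ψ f (-1) := by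
    group
  rw [e]
  refine h.aper (t := 6) (by norm_num) (fun i => ?_) _
  have key : ∀ x : Cv, F Ψ f (-1) • paW Ψ Τ • x = f 5 • F Ψ f (-1) • x := by
    intro x
    have e5 : F Ψ f (-1 + 2 + 2 + 2) = f 5 * F Ψ f (-1) := by
      rw [F, F, show (-1 + 2 + 2 + 2 : ℤ) = -1 + 6 by norm_num, h.period, alt_add_six,
        show (-1 + 6 + 1 : ℤ) = -1 + 1 + 6 by norm_num, alt_add_six, mul_assoc, mul_assoc, mul_assoc]
    rw [← mul_smul (f 5), ← e5, h.F_two, h.F_two, h.F_two]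
    show _ = F Ψ f (-1) • (Ψ 2)⁻¹ • Τ 0 • (Τ 1)⁻¹ • (Ψ 2)⁻¹⁻¹ • (Ψ 1)⁻¹ • Τ 2 • (Τ 0)⁻¹ •
      (Ψ 1)⁻¹⁻¹ • (Ψ 0)⁻¹ • Τ 1 • (Τ 2)⁻¹ • (Ψ 0)⁻¹⁻¹ • x
    simp only [paW, mul_smul, inv_inv]
  rw [mul_smul, mul_smul, key, smul_inv_smul, ← mul_smul, ← h.period,
    show r (i + 6) = r i from r_eq.2 (by omega)]

end Ctx

lemma bdd (P : AP Γ Cv) (x y : Cv) : ∃ B : ℤ, ∀ b, P.M b x → P.M b y → |P.d b x y| ≤ B := by
  obtain ⟨R, hR⟩ := ((P.fin x y).image fun b => |P.d b x y|).bddAbove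
  refine ⟨max R P.K, fun b h1 h2 => ?_⟩
  by_cases h3 : P.K < |P.d b x y|
  · exact (hR ⟨b, ⟨h1, h2, h3⟩, rfl⟩).trans (le_max_left _ _)
  · exact (not_lt.1 h3).trans (le_max_right _ _)

end A4

open A4 in
theorem blockA4 : StmtA4 := by
  intro Γ Cv _ _ P s e D hc
  obtain ⟨Bw, hw⟩ := hc.wave
  choose B1 hB1 using fun q : Fin 3 × Fin 3 => bdd P (e q.1) (s q.2)
  choose B2 hB2 using fun q : Fin 3 × Fin 3 => bdd P (s q.2) (e q.1)
  obtain ⟨R1, hR1⟩ := (Set.finite_range B1).bddAbove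
  obtain ⟨R2, hR2⟩ := (Set.finite_range B2).bddAbove
  have hK : 0 ≤ P.K := K_nonneg (hc.meets 0 1 (by decide))
  obtain ⟨B, a1, a2, a3, a4⟩ : ∃ B : ℤ, 6 * P.K ≤ B ∧ Bw + 3 * P.K ≤ B ∧ R1 ≤ B ∧ R2 ≤ B :=
    ⟨max (max (6 * P.K) (Bw + 3 * P.K)) (max R1 R2), by omega, by omega, by omega, by omega⟩
  refine ⟨10 * B + 1, fun i => ((i : ℕ) + 1) * (10 * B + 1), fun Ψ Τ h1 h2 h3 => ?_⟩
  obtain ⟨f, f0, fs⟩ := exists_frame fun i => alt Ψ i * alt Τ i
  have h : Ctx P s e D Ψ Τ f B (10 * B + 1) fun i => ((i : ℕ) + 1) * (10 * B + 1) := by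
    refine ⟨hc, h1, h2, h3, f0, fs, a1, fun i j hij x hx => ?_, fun i j b m1 m2 => ?_,
      fun i j b m1 m2 => ?_, by omega, fun i => ?_, fun i j hij => ?_⟩
    · exact (hw i j hij x hx).imp (fun u => ⟨u.1, by have := u.2; omega⟩)
        fun u => ⟨u.1, by have := u.2; omega⟩
    · exact (hB1 (i, j) b m1 m2).trans ((hR1 ⟨_, rfl⟩).trans a3)
    · exact (hB2 (i, j) b m1 m2).trans ((hR2 ⟨_, rfl⟩).trans a4)
    · fin_cases i <;> simp <;> omega
    · fin_cases i <;> fin_cases j <;> simp [lt_abs] at hij ⊢ <;> omega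
  exact ⟨fun α => h.main1 α, h.main2⟩

end Pool.Agent.Lib.MP_003e01_gt
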