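import Pool.Agent.Lib.MP_003e01_gt.Blue

/-! Block A4, part one: chains of annuli. -/

namespace Pool.Agent.Lib.MP_003e01_gt

namespace A4

variable {Γ Cv : Type} [Group Γ] [MulAction Γ Cv] {P : AP Γ Cv}

lemma K_nonneg {a b : Cv} (h : P.M a b) : 0 ≤ P.K :=
  (abs_nonneg _).trans (P.disj a b b h h (P.irrefl b))

lemma anti {a b c : Cv} (h1 : P.M a b) (h2 : P.M a c) : |P.d a b c + P.d a c b| ≤ 2 * P.K := by
  have e1 := P.coc a b c b h1 h2 h1
  have e2 := P.disj a b b h1 h1 (P.irrefl b)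
  simp only [abs_le] at *; omega

lemma beh {a b x : Cv} (h1 : P.M a b) (h2 : P.M a x) (h : P.K < |P.d a b x|) :
    P.M b x ∧ |P.d b a x| ≤ P.K := by
  have h3 : P.M b x := by
    by_contra hc
    exact absurd (P.disj a b x h1 h2 hc) (not_le.2 h)
  exact ⟨h3, P.behr a b x h1 h2 h3 h⟩

lemma d_abs (γ : Γ) {a b c : Cv} (h1 : P.M a b) (h2 : P.M a c) :
    |P.d (γ • a) (γ • b) (γ • c) - P.d a b c| ≤ P.K ∨
      |P.d (γ • a) (γ • b) (γ • c) + P.d a b c| ≤ P.K := by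
  have h := P.d_smul γ a b c h1 h2
  rcases Int.units_eq_one_or (P.sg γ) with e | e <;> rw [e] at h
  · left; simpa using h
  · right; simpa using h

lemma d_pos {γ : Γ} (hγ : P.sg γ = 1) {a b c : Cv} (h1 : P.M a b) (h2 : P.M a c) :
    |P.d (γ • a) (γ • b) (γ • c) - P.d a b c| ≤ P.K := by
  have h := P.d_smul γ a b c h1 h2
  rw [hγ] at h; simpa using h

/-- twists with a relaxed constant, stable under inversion -/
structure Tw2 (P : AP Γ Cv) (a : Cv) (k : ℤ) (T : Γ) : Prop where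
  sg : P.sg T = 1
  fix : ∀ c, ¬ P.M a c → T • c = c
  bare : ∀ b c, ¬ P.M a b → b ≠ a → P.M b c → |P.d b c (T • c)| ≤ 4 * P.K
  shift : ∀ c, P.M a c → |P.d a c (T • c) - k| ≤ 4 * P.K
  nat : ∀ β : Γ, P.sg β = 1 → β • a = a → ∀ c : Cv, β • T • c = T • β • c

lemma tw2_of {a : Cv} {k : ℤ} {T : Γ} (h : P.Tw a k T) : Tw2 P a k T where
  sg := h.sg
  fix := h.fix
  bare b c h1 h2 h3 := by have := h.bare b c h1 h2 h3; have := K_nonneg h3; omega
  shift c h1 := by have := h.shift c h1; have := K_nonneg h1; omega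
  nat := h.nat

lemma tw2_inv {a : Cv} {k : ℤ} {T : Γ} (h : P.Tw a k T) : Tw2 P a (-k) T⁻¹ := by
  have key : ∀ b c, T • b = b → P.M b c →
      |P.d b c (T⁻¹ • c) + P.d b c (T • c)| ≤ 3 * P.K := by
    intro b c hb h1
    have h2 : P.M b (T • c) := by rw [← hb]; exact (P.M_smul T b c).2 h1
    have h3 : P.M b (T⁻¹ • c) := by rw [← P.M_smul T, hb, smul_inv_smul]; exact h1
    have e1 := d_pos h.sg h1 h3
    rw [hb, smul_inv_smul] at e1
    have e2 := anti h1 h2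
    simp only [abs_le] at *; omega
  refine ⟨by rw [map_inv, h.sg, inv_one], fun c hc => ?_, fun b c h1 h2 h3 => ?_, fun c h1 => ?_,
    fun β h1 h2 c => ?_⟩
  · rw [inv_smul_eq_iff, h.fix c hc]
  · have e1 := key b c (h.fix b h1) h3
    have e2 := h.bare b c h1 h2 h3
    simp only [abs_le] at *; omega
  · have e1 := key a c (h.fix a (P.irrefl a)) h1
    have e2 := h.shift c h1
    simp only [abs_le] at *; omega
  · rw [eq_inv_smul_iff, ← h.nat β h1 h2, smul_inv_smul]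

/-- the only annulus with a big gap between `x` and `T • y` is the twisting annulus -/
lemma gap_unique {a x y b : Cv} {k B : ℤ} {T : Γ} (h : Tw2 P a k T) (hxy : ¬ P.M x y)
    (hx : ∀ b, P.M b x → P.M b a → |P.d b x a| ≤ B) (hy : ∀ b, P.M b a → P.M b y → |P.d b a y| ≤ B)
    (hB : 0 ≤ B) (h1 : P.M b x) (h2 : P.M b (T • y)) (h3 : 2 * B + 6 * P.K < |P.d b x (T • y)|) :
    b = a := by
  by_contra hne
  have hK := K_nonneg h1
  have ha : T • a = a := h.fix a (P.irrefl a)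
  by_cases hm : P.M a b
  · have hm' := P.symm _ _ hm
    have e1 := hx b h1 hm'
    have h4 : P.M (T⁻¹ • b) a := by rw [← P.M_smul T, smul_inv_smul, ha]; exact hm'
    have h5 : P.M (T⁻¹ • b) y := by rw [← P.M_smul T, smul_inv_smul]; exact h2
    have e2 := hy _ h4 h5
    have e3 := d_pos h.sg h4 h5
    rw [smul_inv_smul, ha] at e3
    have e4 := P.coc b x a (T • y) h1 hm' h2
    simp only [abs_le, lt_abs] at *; omega
  · have h5 : P.M b y := by rw [← P.M_smul T, h.fix b hm]; exact h2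
    have e1 := h.bare b y hm hne h5
    have e2 := P.disj b x y h1 h5 hxy
    have e4 := P.coc b x y (T • y) h1 h5 h2
    simp only [abs_le, lt_abs] at *; omega

/-- an abstract chain of annuli -/
structure Chain (P : AP Γ Cv) (δ c : ℤ → Cv) (B : ℤ) : Prop where
  hB : 6 * P.K ≤ B
  dd : ∀ k, ¬ P.M (δ k) (δ (k + 1))
  cc : ∀ k, ¬ P.M (c k) (c (k + 1))
  dc : ∀ k, ¬ P.M (δ k) (c k)
  m1 : ∀ k, P.M (δ k) (c (k + 1))
  m2 : ∀ k, P.M (δ (k + 1)) (c k)
  m3 : ∀ k, P.M (δ k) (c (k + 2))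
  m4 : ∀ k, P.M (δ (k + 2)) (c k)
  gd : ∀ k, 2 * B + 10 * P.K < |P.d (δ (k + 1)) (c k) (c (k + 2))|
  gc : ∀ k, 10 * P.K < |P.d (c (k + 1)) (δ k) (δ (k + 2))|

def Pl (P : AP Γ Cv) (δ c : ℤ → Cv) (B k : ℤ) (x : Cv) : Prop :=
  P.M (δ k) x ∧ |P.d (δ k) x (c (k + 1))| ≤ B

def Mi (P : AP Γ Cv) (δ c : ℤ → Cv) (B k : ℤ) (x : Cv) : Prop :=
  P.M (δ k) x ∧ |P.d (δ k) x (c (k - 1))| ≤ B

namespace Chain

variable {δ c : ℤ → Cv} {B : ℤ} (h : Chain P δ c B)
include h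

lemma hK : 0 ≤ P.K := K_nonneg (h.m1 0)

lemma m2' (k : ℤ) : P.M (δ k) (c (k - 1)) := by simpa using h.m2 (k - 1)

lemma gd' (k : ℤ) : 2 * B + 10 * P.K < |P.d (δ k) (c (k - 1)) (c (k + 1))| := by
  have := h.gd (k - 1)
  rwa [sub_add_cancel, show k - 1 + 2 = k + 1 by ring] at this

lemma upB {k : ℤ} {x : Cv} (h1 : P.M (c (k + 1)) x) (h2 : |P.d (c (k + 1)) (δ k) x| ≤ 3 * P.K) :
    Mi P δ c (5 * P.K) (k + 2) x ∧ Mi P δ c (5 * P.K) (k + 3) x := by
  have hK := h.hK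
  have a0 := P.symm _ _ (h.m1 k)
  have a2' : P.M (δ (k + 2)) (c (k + 1)) := by
    have := h.m2 (k + 1); rwa [show k + 1 + 1 = k + 2 by ring] at this
  have a3' : P.M (δ (k + 3)) (c (k + 1)) := by
    have := h.m4 (k + 1); rwa [show k + 1 + 2 = k + 3 by ring] at this
  have a4 : P.M (δ (k + 3)) (c (k + 2)) := by
    have := h.m2 (k + 2); rwa [show k + 2 + 1 = k + 3 by ring] at this
  have n1 : ¬ P.M (δ (k + 2)) (δ (k + 3)) := by
    have := h.dd (k + 2); rwa [show k + 2 + 1 = k + 3 by ring] at this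
  have n2 : ¬ P.M (c (k + 1)) (c (k + 2)) := by
    have := h.cc (k + 1); rwa [show k + 1 + 1 = k + 2 by ring] at this
  have a2 := P.symm _ _ a2'
  have a3 := P.symm _ _ a3'
  have e1 := h.gc k
  have e2 := P.coc _ _ _ _ a0 a2 h1
  have e3 := P.disj _ _ _ a2 a3 n1
  have e4 := P.coc _ _ _ _ a2 a3 h1
  obtain ⟨b1, b2⟩ := beh a2 h1 (by simp only [abs_le, lt_abs] at *; omega)
  obtain ⟨b3, b4⟩ := beh a3 h1 (by simp only [abs_le, lt_abs] at *; omega)
  have e5 := anti a2' b1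
  have e6 := anti a3' b3
  have e7 := P.disj _ _ _ a3' a4 n2
  have e8 := P.coc _ _ _ _ b3 a3' a4
  refine ⟨⟨b1, ?_⟩, ⟨b3, ?_⟩⟩
  · rw [show k + 2 - 1 = k + 1 by ring]; simp only [abs_le] at *; omega
  · rw [show k + 3 - 1 = k + 2 by ring]; simp only [abs_le] at *; omega

lemma downB {k : ℤ} {x : Cv} (h1 : P.M (c (k + 2)) x)
    (h2 : |P.d (c (k + 2)) (δ (k + 3)) x| ≤ 3 * P.K) :
    Pl P δ c (5 * P.K) (k + 1) x ∧ Pl P δ c (5 * P.K) k x := by
  have hK := h.hK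
  have a3' : P.M (δ (k + 3)) (c (k + 2)) := by
    have := h.m2 (k + 2); rwa [show k + 2 + 1 = k + 3 by ring] at this
  have a1' : P.M (δ (k + 1)) (c (k + 2)) := by
    have := h.m1 (k + 1); rwa [show k + 1 + 1 = k + 2 by ring] at this
  have a0' := h.m3 k
  have a4 := h.m1 k
  have n1 := h.dd k
  have n2 : ¬ P.M (c (k + 2)) (c (k + 1)) := fun hh => h.cc (k + 1) (by
    rw [show k + 1 + 1 = k + 2 by ring]; exact P.symm _ _ hh)
  have a3 := P.symm _ _ a3'
  have a1 := P.symm _ _ a1'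
  have a0 := P.symm _ _ a0'
  have e1 : 10 * P.K < |P.d (c (k + 2)) (δ (k + 1)) (δ (k + 3))| := by
    have := h.gc (k + 1)
    rwa [show k + 1 + 1 = k + 2 by ring, show k + 1 + 2 = k + 3 by ring] at this
  have e2 := P.coc _ _ _ _ a1 a3 h1
  have e3 := P.disj _ _ _ a0 a1 n1
  have e4 := P.coc _ _ _ _ a0 a1 h1
  obtain ⟨b1, b2⟩ := beh a1 h1 (by simp only [abs_le, lt_abs] at *; omega)
  obtain ⟨b3, b4⟩ := beh a0 h1 (by simp only [abs_le, lt_abs] at *; omega)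
  have e5 := anti a1' b1
  have e6 := anti a0' b3
  have e7 := P.disj _ _ _ a0' a4 n2
  have e8 := P.coc _ _ _ _ b3 a0' a4
  refine ⟨⟨b1, ?_⟩, ⟨b3, ?_⟩⟩
  · rw [show k + 1 + 1 = k + 2 by ring]; simp only [abs_le] at *; omega
  · simp only [abs_le] at *; omega

lemma upA {k : ℤ} {x : Cv} (h1 : P.M (δ k) x) (h2 : 3 * P.K < |P.d (δ k) x (c (k + 1))|) :
    Mi P δ c (5 * P.K) (k + 2) x ∧ Mi P δ c (5 * P.K) (k + 3) x := by
  have hK := h.hK
  have e1 := anti h1 (h.m1 k)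
  obtain ⟨b1, b2⟩ := beh (h.m1 k) h1 (by simp only [abs_le, lt_abs] at *; omega)
  exact h.upB b1 (by omega)

lemma downA {k : ℤ} {x : Cv} (h1 : P.M (δ k) x) (h2 : 3 * P.K < |P.d (δ k) x (c (k - 1))|) :
    Pl P δ c (5 * P.K) (k - 2) x ∧ Pl P δ c (5 * P.K) (k - 3) x := by
  have hK := h.hK
  have e1 := anti h1 (h.m2' k)
  obtain ⟨b1, b2⟩ := beh (h.m2' k) h1 (by simp only [abs_le, lt_abs] at *; omega)
  have := h.downB (k := k - 3) (x := x) (by rwa [show k - 3 + 2 = k - 1 by ring])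
    (by rw [show k - 3 + 2 = k - 1 by ring, sub_add_cancel]; omega)
  rwa [show k - 3 + 1 = k - 2 by ring] at this

/-- twisting between a minus curve and a plus curve -/
lemma mi_pl {k B₁ B₂ : ℤ} {x y : Cv} (h1 : Mi P δ c B₁ k x) (h2 : Pl P δ c B₂ k y) :
    |P.d (δ k) x y - P.d (δ k) (c (k - 1)) (c (k + 1))| ≤ B₁ + B₂ + 4 * P.K := by
  have e1 := h1.2
  have e2 := h2.2
  have e3 := P.coc _ _ _ _ h1.1 h2.1 (h.m1 k)
  have e4 := P.coc _ _ _ _ h1.1 (h.m2' k) (h.m1 k)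
  have hK := h.hK
  simp only [abs_le] at *; omega

lemma mi_step {k : ℤ} {x : Cv} (h1 : Mi P δ c B k x) :
    Mi P δ c (5 * P.K) (k + 2) x ∧ Mi P δ c (5 * P.K) (k + 3) x := by
  have hK := h.hK
  have hB := h.hB
  have e1 := h1.2
  have e2 := h.gd' k
  have e4 := P.coc _ _ _ _ h1.1 (h.m2' k) (h.m1 k)
  exact h.upA h1.1 (by simp only [abs_le, lt_abs] at *; omega)

lemma pl_step {k : ℤ} {x : Cv} (h1 : Pl P δ c B k x) :
    Pl P δ c (5 * P.K) (k - 2) x ∧ Pl P δ c (5 * P.K) (k - 3) x := by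
  have hK := h.hK
  have hB := h.hB
  have e1 := h1.2
  have e2 := h.gd' k
  have e4 := P.coc _ _ _ _ h1.1 (h.m2' k) (h.m1 k)
  exact h.downA h1.1 (by simp only [abs_le, lt_abs] at *; omega)

lemma mi_mono {k : ℤ} {x : Cv} (h1 : Mi P δ c (5 * P.K) k x) : Mi P δ c B k x :=
  ⟨h1.1, h1.2.trans (by have := h.hB; have := h.hK; omega)⟩

lemma pl_mono {k : ℤ} {x : Cv} (h1 : Pl P δ c (5 * P.K) k x) : Pl P δ c B k x :=
  ⟨h1.1, h1.2.trans (by have := h.hB; have := h.hK; omega)⟩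

lemma mi_all {k : ℤ} {x : Cv}
    (h1 : Mi P δ c (5 * P.K) k x ∧ Mi P δ c (5 * P.K) (k + 1) x) (m : ℤ) (hm : k ≤ m) :
    Mi P δ c (5 * P.K) m x := by
  have key : ∀ m, k ≤ m → Mi P δ c (5 * P.K) m x ∧ Mi P δ c (5 * P.K) (m + 1) x := by
    intro m hm
    induction m, hm using Int.le_induction with
    | base => exact h1
    | succ m _ ih =>
      refine ⟨ih.2, ?_⟩
      rw [show m + 1 + 1 = m + 2 by ring]
      exact (h.mi_step (h.mi_mono ih.1)).1
  exact (key m hm).1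

lemma pl_all {k : ℤ} {x : Cv}
    (h1 : Pl P δ c (5 * P.K) k x ∧ Pl P δ c (5 * P.K) (k - 1) x) (m : ℤ) (hm : m ≤ k) :
    Pl P δ c (5 * P.K) m x := by
  have key : ∀ m, m ≤ k → Pl P δ c (5 * P.K) m x ∧ Pl P δ c (5 * P.K) (m - 1) x := by
    intro m hm
    induction m, hm using Int.le_induction_down with
    | base => exact h1
    | pred m _ ih =>
      refine ⟨ih.2, ?_⟩
      rw [show m - 1 - 1 = m - 2 by ring]
      exact (h.pl_step (h.pl_mono ih.1)).1
  exact (key m hm).1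

lemma mi_far {k m : ℤ} {x : Cv} (h1 : Mi P δ c B k x) (hm : k + 2 ≤ m) :
    Mi P δ c (5 * P.K) m x :=
  h.mi_all (by rw [show k + 2 + 1 = k + 3 by ring]; exact h.mi_step h1) m hm

lemma pl_far {k m : ℤ} {x : Cv} (h1 : Pl P δ c B k x) (hm : m ≤ k - 2) :
    Pl P δ c (5 * P.K) m x :=
  h.pl_all (by rw [show k - 2 - 1 = k - 3 by ring]; exact h.pl_step h1) m hm

lemma meets_far {i k : ℤ} (hik : i + 2 ≤ k) : P.M (δ k) (δ i) := by
  have a0 := P.symm _ _ (h.m1 i)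
  have e := P.disj _ _ _ a0 a0 (P.irrefl _)
  have hK := h.hK
  exact (h.mi_all (by rw [show i + 2 + 1 = i + 3 by ring]; exact h.upB a0 (by omega)) k hik).1

lemma close {i k : ℤ} (hm : ¬ P.M (δ i) (δ k)) : k ≤ i + 1 ∧ i ≤ k + 1 := by
  constructor <;> by_contra hc
  · exact hm (P.symm _ _ (h.meets_far (by omega)))
  · exact hm (h.meets_far (by omega))

lemma inj : Function.Injective δ := by
  intro i k e
  obtain ⟨h1, h2⟩ := h.close (i := i) (k := k) (by rw [e]; exact P.irrefl _)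
  by_contra hne
  rcases (by omega : k = i + 1 ∨ i = k + 1) with rfl | rfl
  · exact h.dc i (by rw [e]; exact h.m2 i)
  · exact h.dc k (by rw [← e]; exact h.m2 k)

lemma fin_gap (x y : Cv) : ∃ R : ℤ, ∀ k, P.M (δ k) x → P.M (δ k) y → P.K < |P.d (δ k) x y| →
    |k| ≤ R := by
  obtain ⟨R, hR⟩ := (((P.fin x y).preimage h.inj.injOn).image fun k : ℤ => |k|).bddAbove
  exact ⟨R, fun k h1 h2 h3 => hR ⟨k, ⟨h1, h2, h3⟩, rfl⟩⟩

lemma not_pl (x : Cv) : ∃ R : ℤ, ∀ k, Pl P δ c B k x → k ≤ R := by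
  obtain ⟨R, hR⟩ := h.fin_gap (c 0) x
  have hK := h.hK
  have hB := h.hB
  have h0 : Mi P δ c B 1 (c 0) := by
    have a := h.m2' 1
    have e := P.disj _ _ _ a a (P.irrefl _)
    exact ⟨a, by simp only [sub_self] at e ⊢; omega⟩
  refine ⟨max R 3, fun k hk => ?_⟩
  by_cases h3 : 3 ≤ k
  · have h4 := h.mi_far h0 h3
    have e1 := h.mi_pl h4 hk
    have e2 := h.gd' k
    have := hR k h4.1 hk.1 (by simp only [abs_le, lt_abs] at *; omega)
    simp only [abs_le] at this; omega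
  · omega

lemma not_mi (x : Cv) : ∃ R : ℤ, ∀ k, Mi P δ c B k x → R ≤ k := by
  obtain ⟨R, hR⟩ := h.fin_gap x (c 0)
  have hK := h.hK
  have hB := h.hB
  have h0 : Pl P δ c B (-1) (c 0) := by
    have a := h.m1 (-1)
    have e := P.disj _ _ _ a a (P.irrefl _)
    exact ⟨a, by simp only [neg_add_cancel] at e ⊢; omega⟩
  refine ⟨min (-R) (-3), fun k hk => ?_⟩
  by_cases h3 : k ≤ -3
  · have h4 := h.pl_far h0 h3
    have e1 := h.mi_pl hk h4
    have e2 := h.gd' k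
    have := hR k hk.1 h4.1 (by simp only [abs_le, lt_abs] at *; omega)
    simp only [abs_le] at this; omega
  · omega

/-- the position of a disc -/
lemma position {x : Cv} {j : ℤ}
    (hx : ∀ t : ℤ, Pl P δ c B (j + 2 * t) x ∨ Mi P δ c B (j + 2 * t - 1) x) :
    ∃ J : ℤ, (J - j) % 2 = 0 ∧ Pl P δ c B J x ∧ Mi P δ c B (J + 1) x := by
  obtain ⟨R, hR⟩ := h.not_pl x
  obtain ⟨R', hR'⟩ := h.not_mi x
  obtain ⟨t, h1, h2⟩ := Int.exists_greatest_of_bdd (P := fun t => Pl P δ c B (j + 2 * t) x)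
    ⟨|R| + |j|, fun t ht => by
      have := hR _ ht
      have := le_abs_self R
      have := neg_abs_le j
      have := abs_nonneg R
      have := abs_nonneg j
      omega⟩
    ⟨-(|R'| + |j|), (hx _).resolve_right fun ht => by
      have := hR' _ ht
      have := neg_abs_le R'
      have := le_abs_self j
      have := abs_nonneg R'
      have := abs_nonneg j
      omega⟩
  refine ⟨j + 2 * t, by omega, h1, ?_⟩
  have := (hx (t + 1)).resolve_left fun ht => by have := h2 _ ht; omega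
  rwa [show j + 2 * (t + 1) - 1 = j + 2 * t + 1 by ring] at this

/-- a curve meeting the chain is plus or minus somewhere -/
lemma pl_or_mi {x : Cv} {k : ℤ} (hx : P.M (δ k) x ∨ P.M (c k) x) :
    ∃ m, Pl P δ c (5 * P.K) m x ∨ Mi P δ c (5 * P.K) m x := by
  have hK := h.hK
  have hB := h.hB
  rcases hx with hx | hx
  · by_cases h1 : 3 * P.K < |P.d (δ k) x (c (k + 1))|
    · exact ⟨_, Or.inr (h.upA hx h1).1⟩
    · exact ⟨k, Or.inl ⟨hx, by omega⟩⟩
  · obtain ⟨k, rfl⟩ : ∃ m, k = m + 1 := ⟨k - 1, by ring⟩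
    by_cases h1 : |P.d (c (k + 1)) (δ k) x| ≤ 3 * P.K
    · exact ⟨_, Or.inr (h.upB hx h1).1⟩
    · obtain ⟨b1, b2⟩ := beh (P.symm _ _ (h.m1 k)) hx (by omega)
      have e := anti (h.m1 k) b1
      exact ⟨k, Or.inl ⟨b1, by simp only [abs_le] at *; omega⟩⟩

/-- a nontrivial shift of a filling chain fixes no curve -/
lemma aper (hfill : ∀ x, ∃ k, P.M (δ k) x ∨ P.M (c k) x) {γ : Γ} {t : ℤ} (ht : t ≠ 0)
    (h1 : ∀ k, γ • δ k = δ (k + t)) (h2 : ∀ k, γ • c k = c (k + t)) (x : Cv) : γ • x ≠ x := by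
  intro hx
  have hK := h.hK
  have hB := h.hB
  have pw : ∀ (u : ℤ → Cv), (∀ k, γ • u k = u (k + t)) → ∀ (j k : ℤ),
      γ ^ j • u k = u (k + j * t) := by
    intro u hu j
    induction j using Int.induction_on with
    | zero => intro k; simp
    | succ j ih => intro k; rw [zpow_add_one, mul_smul, hu, ih]; congr 1; ring
    | pred j ih =>
      intro k
      have : γ⁻¹ • u k = u (k - t) := by rw [inv_smul_eq_iff, hu, sub_add_cancel]
      rw [zpow_sub_one, mul_smul, this, ih]; congr 1; ring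
  have px : ∀ j : ℤ, γ ^ j • x = x := fun j => by
    simpa using pw (fun _ => x) (fun _ => hx) j 0
  obtain ⟨k, hk⟩ := hfill x
  obtain ⟨m, hm⟩ := h.pl_or_mi hk
  have ht2 : 1 ≤ t * t := by have := mul_self_pos.2 ht; omega
  rcases hm with hm | hm
  · obtain ⟨R, hR⟩ := h.not_pl x
    have key : ∀ j : ℤ, Pl P δ c B (m + j * t) x := by
      intro j
      have e := d_abs (γ ^ j) hm.1 (h.m1 m)
      rw [pw δ h1, pw c h2, px, show m + 1 + j * t = m + j * t + 1 by ring] at e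
      refine ⟨by rw [← pw δ h1, ← px j]; exact (P.M_smul _ _ _).2 hm.1, ?_⟩
      have := hm.2
      simp only [abs_le] at *; omega
    have e := hR _ (key ((|R - m| + 1) * t))
    have e2 := le_abs_self (R - m)
    have e3 := abs_nonneg (R - m)
    nlinarith
  · obtain ⟨R, hR⟩ := h.not_mi x
    have key : ∀ j : ℤ, Mi P δ c B (m + j * t) x := by
      intro j
      have e := d_abs (γ ^ j) hm.1 (h.m2' m)
      rw [pw δ h1, pw c h2, px, show m - 1 + j * t = m + j * t - 1 by ring] at e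
      refine ⟨by rw [← pw δ h1, ← px j]; exact (P.M_smul _ _ _).2 hm.1, ?_⟩
      have := hm.2
      simp only [abs_le] at *; omega
    have e := hR _ (key (-(|R - m| + 1) * t))
    have e2 := neg_abs_le (R - m)
    have e3 := abs_nonneg (R - m)
    nlinarith

end Chain

end A4

end Pool.Agent.Lib.MP_003e01_gt
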