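import Pool.Agent.Lib.MP_003e01_gt.A4a

/-! Block A4, part two: frames. -/

namespace Pool.Agent.Lib.MP_003e01_gt

namespace A4

def r (i : ℤ) : Fin 3 := ⟨(i % 3).toNat, by omega⟩

lemma r_eq {i j : ℤ} : r i = r j ↔ i % 3 = j % 3 := by
  simp only [r, Fin.mk.injEq]; omega

lemma r_add_one (i : ℤ) : r (i + 1) = r i + 1 := by
  apply Fin.ext; simp only [r, Fin.val_add, Fin.val_one]; omega

lemma r_add_two (i : ℤ) : r (i + 2) = r i + 2 := by
  apply Fin.ext; simp only [r, Fin.val_add, Fin.val_two]; omega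

def sgn (i : ℤ) : ℤ := if i % 2 = 0 then 1 else -1

/-- alternating powers -/
def alt {Γ : Type} [Group Γ] (Ψ : Fin 3 → Γ) (i : ℤ) : Γ :=
  if i % 2 = 0 then Ψ (r i) else (Ψ (r i))⁻¹

section
variable {Γ : Type} [Group Γ]

lemma alt_add_three (Ψ : Fin 3 → Γ) (i : ℤ) : alt Ψ (i + 3) = (alt Ψ i)⁻¹ := by
  have : r (i + 3) = r i := r_eq.2 (by omega)
  simp only [alt, this]
  split_ifs <;> first | omega | simp

lemma alt_add_six (Ψ : Fin 3 → Γ) (i : ℤ) : alt Ψ (i + 6) = alt Ψ i := by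
  rw [show i + 6 = i + 3 + 3 by ring, alt_add_three, alt_add_three, inv_inv]

lemma exists_frame (g : ℤ → Γ) : ∃ f : ℤ → Γ, f (-1) = 1 ∧ ∀ i, f (i + 1) = f i * g (i + 1) := by
  refine ⟨fun i => Int.inductionOn' i (-1) 1 (fun k _ x => x * g (k + 1))
    (fun k _ x => x * (g k)⁻¹), Int.inductionOn'_self, fun i => ?_⟩
  by_cases h : -1 ≤ i
  · exact Int.inductionOn'_add_one h
  · have := Int.inductionOn'_sub_one (motive := fun _ => Γ) (z := i + 1) (b := -1) (zero := 1)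
      (succ := fun k _ x => x * g (k + 1)) (pred := fun k _ x => x * (g k)⁻¹) (by omega)
    rw [add_sub_cancel_right] at this
    simp only [this, inv_mul_cancel_right]

end

variable {Γ Cv : Type} [Group Γ] [MulAction Γ Cv] {P : AP Γ Cv}

/-- all the data -/
structure Ctx (P : AP Γ Cv) (s e : Fin 3 → Cv) (D : Set Cv) (Ψ Τ : Fin 3 → Γ) (f : ℤ → Γ)
    (B n : ℤ) (Ns : Fin 3 → ℤ) : Prop where
  conf : P.Conf s e D
  tψ : ∀ i, P.Tw (s i) (Ns i) (Ψ i)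
  tτ : ∀ i, P.Tw (e i) n (Τ i)
  push : ∀ i, PresD D (pushW Ψ Τ i) ∧ PresD D (pushW' Ψ Τ i)
  f0 : f (-1) = 1
  fs : ∀ i, f (i + 1) = f i * (alt Ψ (i + 1) * alt Τ (i + 1))
  hB : 6 * P.K ≤ B
  wave : ∀ i j, i ≠ j → ∀ x ∈ D, (P.M (s i) x ∧ |P.d (s i) x (e j)| + 3 * P.K ≤ B) ∨
    (P.M (s j) x ∧ |P.d (s j) x (e i)| + 3 * P.K ≤ B)
  b1 : ∀ i j b, P.M b (e i) → P.M b (s j) → |P.d b (e i) (s j)| ≤ B
  b2 : ∀ i j b, P.M b (s j) → P.M b (e i) → |P.d b (s j) (e i)| ≤ B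
  hn : 10 * B < n
  hN : ∀ i, 10 * B < Ns i
  hNN : ∀ i j, i ≠ j → 10 * B < |Ns i - Ns j|

namespace Ctx

variable {s e : Fin 3 → Cv} {D : Set Cv} {Ψ Τ : Fin 3 → Γ} {f : ℤ → Γ} {B n : ℤ}
  {Ns : Fin 3 → ℤ} (h : Ctx P s e D Ψ Τ f B n Ns)
include h

lemma hK : 0 ≤ P.K := K_nonneg (h.conf.meets 0 1 (by decide))

lemma twψ (i : ℤ) : Tw2 P (s (r i)) (sgn i * Ns (r i)) (alt Ψ i) := by
  simp only [sgn, alt]
  split_ifs
  · simpa using tw2_of (h.tψ _)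
  · simpa using tw2_inv (h.tψ _)

lemma twτ (i : ℤ) : Tw2 P (e (r i)) (sgn i * n) (alt Τ i) := by
  simp only [sgn, alt]
  split_ifs
  · simpa using tw2_of (h.tτ _)
  · simpa using tw2_inv (h.tτ _)

lemma ψs (i : ℤ) (j : Fin 3) : alt Ψ i • s j = s j := (h.twψ i).fix _ (h.conf.disj_ss _ _)
lemma τe (i : ℤ) (j : Fin 3) : alt Τ i • e j = e j := (h.twτ i).fix _ (h.conf.disj_ee _ _)
lemma ψe (i : ℤ) : alt Ψ i • e (r i) = e (r i) := (h.twψ i).fix _ (h.conf.disj_se _)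
lemma τs (i : ℤ) : alt Τ i • s (r i) = s (r i) :=
  (h.twτ i).fix _ fun hh => h.conf.disj_se _ (P.symm _ _ hh)
lemma ψψ (i j : ℤ) (c : Cv) : alt Ψ i • alt Ψ j • c = alt Ψ j • alt Ψ i • c :=
  (h.twψ j).nat _ (h.twψ i).sg (h.ψs _ _) c
lemma ττ (i j : ℤ) (c : Cv) : alt Τ i • alt Τ j • c = alt Τ j • alt Τ i • c :=
  (h.twτ j).nat _ (h.twτ i).sg (h.τe _ _) c
lemma ψτ (i : ℤ) (c : Cv) : alt Ψ i • alt Τ i • c = alt Τ i • alt Ψ i • c :=
  (h.twτ i).nat _ (h.twψ i).sg (h.ψe _) c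

lemma fs' (i : ℤ) (c : Cv) : f (i + 1) • c = f i • alt Ψ (i + 1) • alt Τ (i + 1) • c := by
  rw [h.fs, mul_smul, mul_smul]

lemma sg_f (i : ℤ) : P.sg (f i) = 1 := by
  induction i using Int.inductionOn' (b := -1) with
  | zero => rw [h.f0, map_one]
  | succ k _ ih => rw [h.fs, map_mul, map_mul, ih, (h.twψ _).sg, (h.twτ _).sg]; rfl
  | pred k _ ih =>
    have := h.fs (k - 1)
    rw [sub_add_cancel] at this
    rw [this, map_mul, map_mul, (h.twψ _).sg, (h.twτ _).sg] at ih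
    simpa using ih

lemma δ1 (k : ℤ) : f (k + 1) • s (r (k + 1)) = f k • s (r (k + 1)) := by
  rw [h.fs', h.τs, h.ψs]
lemma c1 (k : ℤ) : f (k + 1) • e (r (k + 1)) = f k • e (r (k + 1)) := by
  rw [h.fs', h.τe, h.ψe]
lemma δ2 (k : ℤ) : f (k + 2) • s (r (k + 2)) = f k • alt Τ (k + 1) • s (r (k + 2)) := by
  rw [show k + 2 = k + 1 + 1 by ring, h.δ1, h.fs', h.ψτ, h.ψs]
lemma c2 (k : ℤ) : f (k + 2) • e (r (k + 2)) = f k • alt Ψ (k + 1) • e (r (k + 2)) := by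
  rw [show k + 2 = k + 1 + 1 by ring, h.c1, h.fs', h.τe]
lemma ε1 (k : ℤ) : f (k + 1) • e (r (k + 1 + 2)) = f k • alt Ψ (k + 1) • e (r k) := by
  rw [h.fs', h.τe, show r (k + 1 + 2) = r k from r_eq.2 (by omega)]

lemma mse {i j : ℤ} (hij : i % 3 ≠ j % 3) : P.M (s (r i)) (e (r j)) :=
  h.conf.meets _ _ fun hh => hij (r_eq.1 hh)

/-- twisting between `x` and `T • y` about the twisting annulus -/
lemma gap_val {a x y : Cv} {k : ℤ} {T : Γ} (hT : Tw2 P a k T) (h1 : P.M a x) (h2 : P.M a y)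
    (h3 : ¬ P.M x y) (i : ℤ) : |P.d (f i • a) (f i • x) (f i • T • y) - k| ≤ 7 * P.K := by
  have h4 : P.M a (T • y) := by
    rw [← hT.fix a (P.irrefl a)]; exact (P.M_smul _ _ _).2 h2
  have e1 := d_pos (h.sg_f i) h1 h4
  have e2 := P.coc _ _ _ _ h1 h2 h4
  have e3 := P.disj _ _ _ h1 h2 h3
  have e4 := hT.shift y h2
  simp only [abs_le] at *; omega

lemma gdv (k : ℤ) : |P.d (f (k + 1) • s (r (k + 1))) (f k • e (r k)) (f (k + 2) • e (r (k + 2))) -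
    sgn (k + 1) * Ns (r (k + 1))| ≤ 7 * P.K := by
  rw [h.δ1, h.c2]
  exact h.gap_val (h.twψ _) (h.mse (by omega)) (h.mse (by omega)) (h.conf.disj_ee _ _) k

lemma gεv (k : ℤ) : |P.d (f (k + 1) • s (r (k + 1))) (f k • e (r (k + 2)))
    (f (k + 1) • e (r (k + 1 + 2))) - sgn (k + 1) * Ns (r (k + 1))| ≤ 7 * P.K := by
  rw [h.δ1, h.ε1]
  exact h.gap_val (h.twψ _) (h.mse (by omega)) (h.mse (by omega)) (h.conf.disj_ee _ _) k

lemma gcv (k : ℤ) : |P.d (f (k + 1) • e (r (k + 1))) (f k • s (r k)) (f (k + 2) • s (r (k + 2))) -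
    sgn (k + 1) * n| ≤ 7 * P.K := by
  rw [h.c1, h.δ2]
  exact h.gap_val (h.twτ _) (P.symm _ _ (h.mse (by omega))) (P.symm _ _ (h.mse (by omega)))
    (h.conf.disj_ss _ _) k

lemma chain : Chain P (fun k => f k • s (r k)) (fun k => f k • e (r k)) B where
  hB := h.hB
  dd k := by simp only [h.δ1, P.M_smul]; exact h.conf.disj_ss _ _
  cc k := by simp only [h.c1, P.M_smul]; exact h.conf.disj_ee _ _
  dc k := by simp only [P.M_smul]; exact h.conf.disj_se _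
  m1 k := by simp only [h.c1, P.M_smul]; exact h.mse (by omega)
  m2 k := by simp only [h.δ1, P.M_smul]; exact h.mse (by omega)
  m3 k := by
    simp only [h.c2, P.M_smul]
    rw [← h.ψs (k + 1) (r k), P.M_smul]; exact h.mse (by omega)
  m4 k := by
    simp only [h.δ2, P.M_smul]
    rw [← h.τe (k + 1) (r k), P.M_smul]; exact h.mse (by omega)
  gd k := by
    have e1 := h.gdv k
    have e2 := h.hN (r (k + 1))
    have := h.hK
    have := h.hB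
    simp only [sgn] at e1
    split_ifs at e1 <;> simp only [abs_le, lt_abs] at * <;> omega
  gc k := by
    have e1 := h.gcv k
    have e2 := h.hn
    have := h.hK
    have := h.hB
    simp only [sgn] at e1
    split_ifs at e1 <;> simp only [abs_le, lt_abs] at * <;> omega

lemma fill (x : Cv) : ∃ k, P.M (f k • s (r k)) x ∨ P.M (f k • e (r k)) x := by
  by_contra hc
  push Not at hc
  have key : ∀ y, ¬ P.M (f 0 • y) x ↔ ¬ P.M y ((f 0)⁻¹ • x) := fun y => by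
    rw [← P.M_smul (f 0) y, smul_inv_smul]
  have a0 := (key _).1 (hc 0).1
  have b0 := (key _).1 (hc 0).2
  have a1 := (key _).1 (h.δ1 0 ▸ (hc (0 + 1)).1)
  have b1 := (key _).1 (h.c1 0 ▸ (hc (0 + 1)).2)
  have a2 := (key _).1 (h.δ2 0 ▸ (hc (0 + 2)).1)
  have b2 := (key _).1 (h.c2 0 ▸ (hc (0 + 2)).2)
  rw [← (h.twτ (0 + 1)).fix _ b1, P.M_smul] at a2
  rw [← (h.twψ (0 + 1)).fix _ a1, P.M_smul] at b2
  obtain ⟨i, hi⟩ := h.conf.fill ((f 0)⁻¹ • x)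
  have hi' : P.M (s i) ((f 0)⁻¹ • x) ∨ P.M (e i) ((f 0)⁻¹ • x) := hi.imp (P.symm _ _) (P.symm _ _)
  fin_cases i
  · exact hi'.elim a0 b0
  · exact hi'.elim a1 b1
  · exact hi'.elim a2 b2

/-- uniqueness of the gap between consecutive discs -/
lemma uniq_δ (k : ℤ) {b : Cv} (h1 : P.M b (f k • e (r (k + 2))))
    (h2 : P.M b (f (k + 1) • e (r (k + 1 + 2))))
    (h3 : 2 * B + 7 * P.K < |P.d b (f k • e (r (k + 2))) (f (k + 1) • e (r (k + 1 + 2)))|) :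
    b = f (k + 1) • s (r (k + 1)) := by
  obtain ⟨b, rfl⟩ : ∃ b', b = f k • b' := ⟨_, (smul_inv_smul _ _).symm⟩
  rw [h.ε1] at h2 h3
  rw [P.M_smul] at h1 h2
  have e1 := d_pos (h.sg_f k) h1 h2
  have := h.hK
  have := h.hB
  rw [h.δ1, gap_unique (h.twψ (k + 1)) (h.conf.disj_ee _ _) (h.b1 _ _) (h.b2 _ _) (by omega) h1 h2
    (by simp only [abs_le, lt_abs] at *; omega)]

lemma uniq_c (k : ℤ) {b : Cv} (h1 : P.M b (f k • s (r k)))
    (h2 : P.M b (f (k + 2) • s (r (k + 2))))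
    (h3 : 2 * B + 7 * P.K < |P.d b (f k • s (r k)) (f (k + 2) • s (r (k + 2)))|) :
    b = f (k + 1) • e (r (k + 1)) := by
  obtain ⟨b, rfl⟩ : ∃ b', b = f k • b' := ⟨_, (smul_inv_smul _ _).symm⟩
  rw [h.δ2] at h2 h3
  rw [P.M_smul] at h1 h2
  have e1 := d_pos (h.sg_f k) h1 h2
  have := h.hK
  have := h.hB
  rw [h.c1, gap_unique (h.twτ (k + 1)) (h.conf.disj_ss _ _) (h.b2 _ _) (h.b1 _ _) (by omega) h1 h2
    (by simp only [abs_le, lt_abs] at *; omega)]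

lemma period (i : ℤ) : f (i + 6) = f 5 * f i := by
  induction i using Int.inductionOn' (b := -1) with
  | zero => rw [h.f0, mul_one]; rfl
  | succ k _ ih =>
    rw [show k + 1 + 6 = k + 6 + 1 by ring, h.fs, ih, h.fs, show k + 6 + 1 = k + 1 + 6 by ring,
      alt_add_six, alt_add_six, mul_assoc]
  | pred k _ ih =>
    have e1 := h.fs (k - 1)
    have e2 := h.fs (k - 1 + 6)
    rw [sub_add_cancel] at e1
    rw [show k - 1 + 6 + 1 = k + 6 by ring, alt_add_six, alt_add_six, ih, e1, ← mul_assoc] at e2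
    exact (mul_right_cancel e2).symm

/-- the handlebody frame with index `j + 1` -/
def F (Ψ : Fin 3 → Γ) (f : ℤ → Γ) (j : ℤ) : Γ := f j * alt Ψ (j + 1) * (alt Ψ j)⁻¹

lemma F_two (j : ℤ) (c : Cv) : F Ψ f (j + 2) • c =
    F Ψ f j • alt Ψ j • alt Τ (j + 1) • alt Τ (j + 2) • (alt Ψ j)⁻¹ • c := by
  have e1 : ∀ x : Cv, (alt Ψ j)⁻¹ • (alt Ψ (j + 2))⁻¹ • x = (alt Ψ (j + 2))⁻¹ • (alt Ψ j)⁻¹ • x := by
    intro x
    rw [← alt_add_three, ← alt_add_three, h.ψψ]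
  simp only [F, mul_smul]
  rw [show j + 2 + 1 = j + 3 by ring, alt_add_three, e1, show j + 2 = j + 1 + 1 by ring, h.fs',
    h.ψτ, smul_inv_smul, h.fs', inv_smul_smul]

lemma push_mem (j : ℤ) (c : Cv) :
    alt Ψ j • alt Τ (j + 1) • alt Τ (j + 2) • (alt Ψ j)⁻¹ • c ∈ D ↔ c ∈ D := by
  by_cases hj : j % 2 = 0
  · have e1 := h.ττ (j + 1) (j + 2)
    have a0 : alt Ψ j = Ψ (r j) := if_pos hj
    have a1 : alt Τ (j + 1) = (Τ (r j + 1))⁻¹ := by rw [← r_add_one]; exact if_neg (by omega)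
    have a2 : alt Τ (j + 2) = Τ (r j + 2) := by rw [← r_add_two]; exact if_pos (by omega)
    rw [← (h.push (r j)).2, e1, a0, a1, a2]
    simp only [pushW', mul_smul, inv_smul_smul, smul_inv_smul]
  · have a0 : alt Ψ j = (Ψ (r j))⁻¹ := if_neg hj
    have a1 : alt Τ (j + 1) = Τ (r j + 1) := by rw [← r_add_one]; exact if_pos (by omega)
    have a2 : alt Τ (j + 2) = (Τ (r j + 2))⁻¹ := by rw [← r_add_two]; exact if_neg (by omega)
    rw [← (h.push (r j)).1 c, a0, a1, a2]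
    simp only [pushW, mul_smul, inv_inv]

lemma disc_two (j : ℤ) (x : Cv) : (F Ψ f (j + 2))⁻¹ • x ∈ D ↔ (F Ψ f j)⁻¹ • x ∈ D := by
  obtain ⟨c, rfl⟩ : ∃ c, x = F Ψ f (j + 2) • c := ⟨_, (smul_inv_smul _ _).symm⟩
  rw [inv_smul_smul, h.F_two, inv_smul_smul, h.push_mem]

lemma disc_even (j t : ℤ) (x : Cv) : (F Ψ f (j + 2 * t))⁻¹ • x ∈ D ↔ (F Ψ f j)⁻¹ • x ∈ D := by
  induction t using Int.induction_on with
  | zero => simp
  | succ t ih => rw [← ih, show j + 2 * ((t : ℤ) + 1) = j + 2 * t + 2 by ring, h.disc_two]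
  | pred t ih =>
    rw [← ih, ← h.disc_two, show j + 2 * (-(t : ℤ) - 1) + 2 = j + 2 * -t by ring]

lemma F_ε (j : ℤ) : F Ψ f j • e (r j) = f (j + 1) • e (r (j + 1 + 2)) := by
  have : (alt Ψ j)⁻¹ • e (r j) = e (r j) := by rw [inv_smul_eq_iff, h.ψe]
  rw [h.ε1]; simp only [F, mul_smul, this]

lemma sg_F (j : ℤ) : P.sg (F Ψ f j) = 1 := by
  rw [F, map_mul, map_mul, map_inv, h.sg_f, (h.twψ _).sg, (h.twψ _).sg]; rfl

/-- waves -/
lemma disc_wave (j : ℤ) (x : Cv) (hx : (F Ψ f j)⁻¹ • x ∈ D) :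
    Pl P (fun k => f k • s (r k)) (fun k => f k • e (r k)) B (j + 1) x ∨
      Mi P (fun k => f k • s (r k)) (fun k => f k • e (r k)) B j x := by
  obtain ⟨c, rfl⟩ : ∃ c, x = F Ψ f j • c := ⟨_, (smul_inv_smul _ _).symm⟩
  rw [inv_smul_smul] at hx
  have hs : ∀ i, F Ψ f j • s i = f j • s i := fun i => by
    have : (alt Ψ j)⁻¹ • s i = s i := by rw [inv_smul_eq_iff, h.ψs]
    simp only [F, mul_smul, this, h.ψs]
  rcases h.wave (r (j + 1)) (r j) (fun hh => by have := r_eq.1 hh; omega) c hx with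
    ⟨h1, h2⟩ | ⟨h1, h2⟩
  · left
    have m1 : P.M (s (r (j + 1))) (e (r j)) := h.mse (by omega)
    have e1 := d_pos (h.sg_F j) h1 m1
    have m2 := (P.M_smul (F Ψ f j) _ _).2 h1
    have m3 := (P.M_smul (F Ψ f j) _ _).2 m1
    rw [hs, ← h.δ1] at m2
    rw [hs, ← h.δ1, h.F_ε] at e1 m3
    have m4 := h.chain.m1 (j + 1)
    have n1 : ¬ P.M (f (j + 1) • e (r (j + 1 + 2))) (f (j + 1 + 1) • e (r (j + 1 + 1))) := by
      rw [h.c1, P.M_smul]; exact h.conf.disj_ee _ _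
    have e2 := P.disj _ _ _ m3 m4 n1
    have e3 := P.coc _ _ _ _ m2 m3 m4
    exact ⟨m2, by simp only [abs_le] at *; cases abs_cases (P.d (s (r (j + 1))) c (e (r j))) <;> omega⟩
  · right
    have m1 : P.M (s (r j)) (e (r (j + 1))) := h.mse (by omega)
    have e1 := d_pos (h.sg_F j) h1 m1
    have m2 := (P.M_smul (F Ψ f j) _ _).2 h1
    have m3 := (P.M_smul (F Ψ f j) _ _).2 m1
    have he : F Ψ f j • e (r (j + 1)) = f (j - 1) • e (r (j + 1)) := by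
      have e0 := h.fs' (j - 1)
      rw [sub_add_cancel] at e0
      simp only [F, mul_smul]
      rw [e0, ← alt_add_three, h.ψψ (j + 1), h.ψe, h.ψτ, alt_add_three, smul_inv_smul, h.τe]
    rw [hs] at m2
    rw [hs, he] at e1 m3
    have m4 := h.chain.m2' j
    have n1 : ¬ P.M (f (j - 1) • e (r (j + 1))) (f (j - 1) • e (r (j - 1))) := by
      rw [P.M_smul]; exact h.conf.disj_ee _ _
    have e2 := P.disj _ _ _ m3 m4 n1
    have e3 := P.coc _ _ _ _ m2 m3 m4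
    exact ⟨m2, by simp only [abs_le] at *; cases abs_cases (P.d (s (r j)) c (e (r (j + 1)))) <;> omega⟩

end Ctx

end A4

end Pool.Agent.Lib.MP_003e01_gt
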