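import Pool.Agent.Lib.MP_003e01_gt.Blue

/-! Block A5: from the circle model to annular projections. -/

namespace Pool.Agent.Lib.MP_003e01_gt

namespace A5

variable {G Z : Type} [Group G] [LinearOrder Z] [MulAction G Z] {C : CG G Z}

theorem same_conj (a g : G) : Same a (g * a * g⁻¹) := Or.inl (isConj_iff.2 ⟨g, rfl⟩)

theorem same_inv (a : G) : Same a a⁻¹ := Or.inr (IsConj.refl _)

theorem same_map (α : MulAut G) {a b : G} (h : Same a b) : Same (α a) (α b) := by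
  rcases h with h | h
  · exact Or.inl (MonoidHom.map_isConj α.toMonoidHom h)
  · refine Or.inr ?_
    rw [← map_inv]
    exact MonoidHom.map_isConj α.toMonoidHom h

theorem same_mem {N : Subgroup G} (hN : N.Normal) {a b : G} (h : Same a b) (ha : a ∈ N) :
    b ∈ N := by
  rcases h with h | h <;> obtain ⟨c, rfl⟩ := isConj_iff.1 h
  · exact hN.conj_mem _ ha c
  · exact hN.conj_mem _ (N.inv_mem ha) c

theorem meets_congr {a b a' b' : G} (ha : Same a a') (hb : Same b b') (h : C.Meets a b) :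
    C.Meets a' b' := by
  obtain ⟨x, y, hx, hy, hc⟩ := h
  exact ⟨x, y, ha.symm.trans hx, hb.symm.trans hy, hc⟩

theorem tw_congr {a b c a' b' c' : G} {m : ℤ} (ha : Same a a') (hb : Same b b') (hc : Same c c')
    (h : C.Tw a b c m) : C.Tw a' b' c' m := by
  obtain ⟨x, y, z, hx, hy, hz, h⟩ := h
  exact ⟨x, y, z, ha.symm.trans hx, hb.symm.trans hy, hc.symm.trans hz, h⟩

theorem cross_inv_right {x y : G} : Cross C.att x y⁻¹ ↔ Cross C.att x y := by
  simp only [Cross, inv_inv]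
  exact or_comm

theorem orient {x y : G} (h : Cross C.att x y) : ∃ y', (y' = y ∨ y' = y⁻¹) ∧ OC C.att x y' := by
  rcases h with h | h
  · exact ⟨y, Or.inl rfl, h⟩
  · exact ⟨y⁻¹, Or.inr rfl, by simpa only [OC, inv_inv] using h⟩

theorem meets_symm (h1 : A1Facts C) {a b : G} (h : C.Meets a b) : C.Meets b a := by
  obtain ⟨x, y, hx, hy, hc⟩ := h
  exact ⟨y, x, hy, hx, h1.cross_symm _ _ hc⟩

theorem tw_ex (h1 : A1Facts C) {a b c : G} (hb : C.Meets a b) (hc : C.Meets a c) :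
    ∃ m, C.Tw a b c m := by
  obtain ⟨y, hy, hy'⟩ := h1.oc_of_meets a b a hb (Same.refl a)
  obtain ⟨z, hz, hz'⟩ := h1.oc_of_meets a c a hc (Same.refl a)
  obtain ⟨m, hm⟩ := h1.exL a y z hy' hz'
  exact ⟨m, a, y, z, Same.refl a, hy, hz, hm⟩

theorem tw_disj (h1 : A1Facts C) {a b c : G} {m : ℤ} (hbc : ¬ C.Meets b c) (h : C.Tw a b c m) :
    |m| ≤ 1 := by
  obtain ⟨x, y, z, -, hy, hz, h⟩ := h
  exact h1.disjL x y z m h fun l hl ↦
    hbc ⟨_, _, hy.trans (same_conj y _), hz, h1.cross_symm _ _ hl⟩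

theorem tw_close (h1 : A1Facts C) {a b c : G} {m m' : ℤ} (hb : ¬ C.Meets b b) (hc : ¬ C.Meets c c)
    (h : C.Tw a b c m) (h' : C.Tw a b c m') : |m - m'| ≤ 21 := by
  obtain ⟨x, y, z, hx, hy, hz, h0⟩ := id h
  obtain ⟨m0, hm0⟩ := h1.exL x z z h0.2.1 h0.2.1
  have h2 : C.Tw a c c m0 := ⟨x, z, z, hx, hz, hz, hm0⟩
  have h3 := abs_le.1 (tw_disj h1 hc h2)
  have h4 := abs_le.1 (h1.coc a b c c m m0 m' hb hc hc h h2 h')
  rw [abs_le]
  constructor <;> omega

/-- automorphisms preserving or reversing the cyclic order -/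
def Gam (hp : A1PFacts C) : Subgroup (MulAut G) where
  carrier := {α | ∃ ε, C.Pres α ε}
  mul_mem' := fun ⟨_, h⟩ ⟨_, h'⟩ ↦ ⟨_, hp.mul _ _ _ _ h h'⟩
  one_mem' := ⟨_, hp.one⟩
  inv_mem' := fun ⟨_, h⟩ ↦ ⟨_, hp.inv _ _ h⟩

/-- unoriented conjugacy on simple primitive elements -/
def cvS (C : CG G Z) : Setoid {t : G // C.SP t} where
  r a b := Same a.1 b.1
  iseqv := ⟨fun a ↦ Same.refl a.1, Same.symm, Same.trans⟩

/-- simple closed curves -/
def Cv (C : CG G Z) : Type := Quotient (cvS C)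

/-- the class of a simple primitive element -/
def mk {t : G} (h : C.SP t) : Cv C := Quotient.mk (cvS C) ⟨t, h⟩

/-- a representative -/
noncomputable def rep (c : Cv C) : G := (Quotient.out (s := cvS C) c).1

theorem rep_sp (c : Cv C) : C.SP (rep c) := (Quotient.out (s := cvS C) c).2

theorem mk_rep (c : Cv C) : mk (rep_sp c) = c := Quotient.out_eq c

theorem mk_eq {a b : G} (ha : C.SP a) (hb : C.SP b) : mk ha = mk hb ↔ Same a b :=
  Quotient.eq (r := cvS C)

theorem rep_mk {a : G} (ha : C.SP a) : Same (rep (mk ha)) a :=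
  (mk_eq _ ha).1 (mk_rep _)

theorem ind {p : Cv C → Prop} (h : ∀ a (ha : C.SP a), p (mk ha)) (c : Cv C) : p c :=
  mk_rep c ▸ h _ (rep_sp c)

theorem sp_map (hp : A1PFacts C) (α : Gam hp) {a : G} (ha : C.SP a) : C.SP (α.1 a) := by
  obtain ⟨ε, h⟩ := α.2
  exact ⟨hp.prim _ _ _ h ha.1, fun h' ↦ ha.2 ((hp.meets _ _ _ _ h).1 h')⟩

instance act (hp : A1PFacts C) : MulAction (Gam hp) (Cv C) where
  smul α := Quotient.map (fun a ↦ ⟨α.1 a.1, sp_map hp α a.2⟩) fun _ _ h ↦ same_map α.1 h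
  one_smul c := by
    induction c using ind
    rfl
  mul_smul α β c := by
    induction c using ind
    rfl

theorem smul_mk {hp : A1PFacts C} (α : Gam hp) {a : G} (ha : C.SP a) :
    α • mk ha = mk (sp_map hp α ha) := rfl

open Classical in
/-- the sign -/
noncomputable def sg (hp : A1PFacts C) (h0 : ∃ g : G, g ≠ 1) : Gam hp →* ℤˣ :=
  MonoidHom.mk' (fun α ↦ if C.Pres α.1 true then 1 else -1) (by
    rintro ⟨α, ε, h⟩ ⟨β, ε', h'⟩
    have h2 := hp.mul _ _ _ _ h h'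
    have u : ∀ γ, C.Pres γ false → ¬ C.Pres γ true := fun γ a b ↦ hp.uniq γ h0 b a
    change (if C.Pres (α * β) true then (1 : ℤˣ) else -1) = _
    cases ε <;> cases ε'
    · rw [if_pos (show C.Pres (α * β) true from h2), if_neg (u _ h), if_neg (u _ h')]
      simp
    · rw [if_neg (u _ h2), if_neg (u _ h), if_pos h']
      simp
    · rw [if_neg (u _ h2), if_pos h, if_neg (u _ h')]
      simp
    · rw [if_pos (show C.Pres (α * β) true from h2), if_pos h, if_pos h']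
      simp)

theorem sg_eq {hp : A1PFacts C} {h0 : ∃ g : G, g ≠ 1} (α : Gam hp) {ε : Bool}
    (h : C.Pres α.1 ε) : sg hp h0 α = if ε then 1 else -1 := by
  cases ε
  · exact if_neg fun b ↦ hp.uniq _ h0 b h
  · exact if_pos h

theorem pres_of_sg {hp : A1PFacts C} {h0 : ∃ g : G, g ≠ 1} (α : Gam hp) (h : sg hp h0 α = 1) :
    C.Pres α.1 true := by
  obtain ⟨ε, h'⟩ := α.2
  cases ε
  · rw [sg_eq α h'] at h
    simp at h
  · exact h'

/-- the curves meet -/
def M (a b : Cv C) : Prop := C.Meets (rep a) (rep b)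

theorem M_mk {a b : G} (ha : C.SP a) (hb : C.SP b) : M (mk ha) (mk hb) ↔ C.Meets a b :=
  ⟨meets_congr (rep_mk ha) (rep_mk hb), meets_congr (rep_mk ha).symm (rep_mk hb).symm⟩

open Classical in
/-- a value of the twisting -/
noncomputable def d (a b c : Cv C) : ℤ :=
  if h : ∃ m, C.Tw (rep a) (rep b) (rep c) m then h.choose else 0

theorem d_tw {a b c : G} (ha : C.SP a) (hb : C.SP b) (hc : C.SP c) {m : ℤ} (h : C.Tw a b c m) :
    C.Tw a b c (d (mk ha) (mk hb) (mk hc)) := by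
  have h' : ∃ m, C.Tw (rep (mk ha)) (rep (mk hb)) (rep (mk hc)) m :=
    ⟨m, tw_congr (rep_mk ha).symm (rep_mk hb).symm (rep_mk hc).symm h⟩
  rw [d, dif_pos h']
  exact tw_congr (rep_mk ha) (rep_mk hb) (rep_mk hc) h'.choose_spec

theorem d_spec (h1 : A1Facts C) {a b c : G} (ha : C.SP a) (hb : C.SP b) (hc : C.SP c)
    (hab : M (mk ha) (mk hb)) (hac : M (mk ha) (mk hc)) :
    C.Tw a b c (d (mk ha) (mk hb) (mk hc)) := by
  obtain ⟨m, hm⟩ := tw_ex h1 ((M_mk ha hb).1 hab) ((M_mk ha hc).1 hac)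
  exact d_tw ha hb hc hm

theorem d_close (h1 : A1Facts C) {a b c : G} (ha : C.SP a) (hb : C.SP b) (hc : C.SP c) {m : ℤ}
    (h : C.Tw a b c m) : |d (mk ha) (mk hb) (mk hc) - m| ≤ 21 :=
  tw_close h1 hb.2 hc.2 (d_tw ha hb hc h) h

/-- the annular projections -/
noncomputable def P (h1 : A1Facts C) (hp : A1PFacts C) (h2 : A2Facts C) (h0 : ∃ g : G, g ≠ 1) :
    AP (Gam hp) (Cv C) where
  M := M
  d := d
  sg := sg hp h0
  K := 100
  symm _ _ := meets_symm h1
  irrefl a := (rep_sp a).2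
  M_smul γ a b := by
    induction a using ind
    induction b using ind
    obtain ⟨ε, h⟩ := γ.2
    rw [smul_mk, smul_mk, M_mk, M_mk]
    exact hp.meets _ _ _ _ h
  d_smul γ a b c hab hac := by
    induction a using ind with | h a ha => ?_
    induction b using ind with | h b hb => ?_
    induction c using ind with | h c hc => ?_
    obtain ⟨ε, h⟩ := γ.2
    have := d_close h1 (sp_map hp γ ha) (sp_map hp γ hb) (sp_map hp γ hc)
      (hp.tw _ _ _ _ _ _ h (d_spec h1 ha hb hc hab hac))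
    rw [smul_mk, smul_mk, smul_mk, sg_eq γ h]
    refine le_trans (le_of_eq ?_) (this.trans (by norm_num))
    cases ε <;> simp
  coc a b c e hab hac hae := by
    induction a using ind with | h a ha => ?_
    induction b using ind with | h b hb => ?_
    induction c using ind with | h c hc => ?_
    induction e using ind with | h e he => ?_
    exact (h1.coc a b c e _ _ _ hb.2 hc.2 he.2 (d_spec h1 ha hb hc hab hac)
      (d_spec h1 ha hc he hac hae) (d_spec h1 ha hb he hab hae)).trans (by norm_num)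
  disj a b c hab hac hbc := by
    induction a using ind with | h a ha => ?_
    induction b using ind with | h b hb => ?_
    induction c using ind with | h c hc => ?_
    exact (tw_disj h1 (fun h ↦ hbc ((M_mk hb hc).2 h)) (d_spec h1 ha hb hc hab hac)).trans
      (by norm_num)
  behr a b c hab hac hbc hK := by
    induction a using ind with | h a ha => ?_
    induction b using ind with | h b hb => ?_
    induction c using ind with | h c hc => ?_
    exact (h2.behr a b c _ _ hb ha.2 hc.2 (d_spec h1 ha hb hc hab hac) (lt_trans (by norm_num) hK)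
      (d_spec h1 hb ha hc (meets_symm h1 hab) hbc)).trans (by norm_num)
  fin b c := by
    induction b using ind with | h b hb => ?_
    induction c using ind with | h c hc => ?_
    obtain ⟨T, hT⟩ := h2.fin b c
    refine (T.finite_toSet.biUnion (t := fun τ ↦ {a : Cv C | Same τ (rep a)}) fun τ _ ↦
      Set.Subsingleton.finite fun a ha a' ha' ↦ ?_).subset ?_
    · rw [← mk_rep a, ← mk_rep a', mk_eq]
      exact Same.trans (Same.symm ha) ha'
    · intro a
      induction a using ind with | h a ha => ?_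
      rintro ⟨hab, hac, hK⟩
      obtain ⟨τ, hτ, h⟩ := hT a _ ha (d_spec h1 ha hb hc hab hac) (lt_trans (by norm_num) hK)
      exact Set.mem_biUnion hτ (h.trans (rep_mk ha).symm)

theorem inner_smul {hp : A1PFacts C} (α : Gam hp) (h : Inner α.1) (c : Cv C) : α • c = c := by
  induction c using ind with | h c hc => ?_
  obtain ⟨γ, hγ⟩ := h
  rw [smul_mk, mk_eq, hγ]
  exact (same_conj c γ).symm

theorem tw_of (h1 : A1Facts C) (hp : A1PFacts C) (h2 : A2Facts C) (h3 : A3Facts C)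
    (h0 : ∃ g : G, g ≠ 1) {a : G} (ha : C.SP a) {k : ℤ} {α : MulAut G} (h : C.IsTwist a k α) :
    (P h1 hp h2 h0).Tw (mk ha) k ⟨α, h.1⟩ where
  sg := sg_eq (h0 := h0) (⟨α, h.1⟩ : Gam hp) (h3.pos a k α ha h)
  fix c hc := by
    induction c using ind with | h c hc' => ?_
    rw [smul_mk, mk_eq]
    exact h3.fix a k α c ha h hc'.1.1 fun h' ↦ hc ((M_mk ha hc').2 h')
  bare b c hab hne hbc := by
    induction b using ind with | h b hb => ?_
    induction c using ind with | h c hc => ?_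
    obtain ⟨m, hm, hm'⟩ := h3.bare a k α b c ha h hb (fun h' ↦ hab ((M_mk ha hb).2 h'))
      (fun h' ↦ hne ((mk_eq hb ha).2 h'.symm)) ((M_mk hb hc).1 hbc)
    have h4 := abs_le.1 (d_close h1 hb hc (sp_map hp ⟨α, h.1⟩ hc) hm)
    have h5 := abs_le.1 hm'
    change |d (mk hb) (mk hc) (mk (sp_map hp ⟨α, h.1⟩ hc))| ≤ 100
    rw [abs_le]
    constructor <;> omega
  shift c hac := by
    induction c using ind with | h c hc => ?_
    obtain ⟨m, hm, hm'⟩ := h3.shift a k α c ha h ((M_mk ha hc).1 hac)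
    have h4 := abs_le.1 (d_close h1 ha hc (sp_map hp ⟨α, h.1⟩ hc) hm)
    have h5 := abs_le.1 hm'
    change |d (mk ha) (mk hc) (mk (sp_map hp ⟨α, h.1⟩ hc)) - k| ≤ 100
    rw [abs_le]
    constructor <;> omega
  nat β hβ hfix c := by
    rw [smul_mk, mk_eq] at hfix
    have h4 := inner_smul (β * ⟨α, h.1⟩ * β⁻¹ * (⟨α, h.1⟩ : Gam hp)⁻¹)
      (h3.nat a k α β.1 ha h (pres_of_sg (h0 := h0) β hβ) hfix) ((⟨α, h.1⟩ : Gam hp) • β • c)
    simpa only [mul_smul, inv_smul_smul] using h4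

theorem presD {hp : A1PFacts C} {N : Subgroup G} (hN : N.Normal) (α : Gam hp)
    (h : PresN N α.1) : PresD {c : Cv C | rep c ∈ N} α := by
  intro c
  induction c using ind with | h c hc => ?_
  have e : ∀ {a : G} (ha : C.SP a), mk ha ∈ {c : Cv C | rep c ∈ N} ↔ a ∈ N := fun ha ↦
    ⟨same_mem hN (rep_mk ha), same_mem hN (rep_mk ha).symm⟩
  rw [smul_mk, e, e]
  exact h c

theorem aper (h1 : A1Facts C) {hp : A1PFacts C} (α : Gam hp) (h : AperC (Cv C) α) :
    C.Aper α.1 := by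
  intro k c hk hc hs hsame
  obtain ⟨t, ht, hat, hst⟩ := C.root c hc
  have hpt : C.Prim t := ⟨ht, fun g hg ↦ hst g (hat ▸ hg)⟩
  have hat' := h1.att_eq t c ht hc hat
  have key : ∀ x, Same t x → ∃ x', Same c x' ∧ C.att x' = C.att x ∧ C.att x'⁻¹ = C.att x⁻¹ := by
    have e : ∀ g u : G, (g * u * g⁻¹)⁻¹ = g * u⁻¹ * g⁻¹ := fun g u ↦ by group
    rintro x (hx | hx) <;> obtain ⟨g, rfl⟩ := isConj_iff.1 hx
    · refine ⟨_, same_conj c g, ?_, ?_⟩
      · rw [C.att_conj _ _ hc, C.att_conj _ _ ht, hat]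
      · rw [e, e, C.att_conj _ _ (inv_ne_one.2 hc), C.att_conj _ _ (inv_ne_one.2 ht), hat']
    · refine ⟨_, (same_inv c).trans (same_conj c⁻¹ g), ?_, ?_⟩
      · rw [C.att_conj _ _ (inv_ne_one.2 hc), C.att_conj _ _ (inv_ne_one.2 ht), hat']
      · rw [e, e, inv_inv, inv_inv, C.att_conj _ _ hc, C.att_conj _ _ ht, hat]
  have hsp : C.SP t := by
    refine ⟨hpt, ?_⟩
    rintro ⟨x, y, hx, hy, hxy⟩
    obtain ⟨x', hx', e1, e2⟩ := key x hx
    obtain ⟨y', hy', e3, e4⟩ := key y hy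
    refine hs ⟨x', y', hx', hy', ?_⟩
    simpa only [Cross, Rt, inv_inv, e1, e2, e3, e4] using hxy
  refine h k hk (mk hsp) ?_
  rw [smul_mk, mk_eq]
  obtain ⟨ε, hε⟩ := (α ^ k).2
  change Same ((α ^ k).1 c) c at hsame
  generalize α ^ k = β at *
  have hb := (sp_map hp β hsp).1
  have hbc : β.1 c ≠ 1 := by simpa using hc
  have e1 := (hp.att_iff _ _ t c hε ht hc).2 hat
  have e2 := h1.att_eq _ _ hb.1 hbc e1
  rcases hsame with hx | hx <;> obtain ⟨g, hg⟩ := isConj_iff.1 hx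
  · have := h1.prim_eq _ t (h1.prim_same _ _ hb (same_conj _ g)) hpt
      (by rw [C.att_conj _ _ hb.1, e1, ← C.att_conj _ _ hbc, hg, hat])
    have h5 := same_conj (β.1 t) g
    rwa [this] at h5
  · have h5 := (same_inv (β.1 t)).trans (same_conj _ g)
    have := h1.prim_eq _ t (h1.prim_same _ _ hb h5) hpt
      (by rw [C.att_conj _ _ (inv_ne_one.2 hb.1), e2, ← C.att_conj _ _ (inv_ne_one.2 hbc), hg, hat])
    rwa [this] at h5

theorem wave_bd (h1 : A1Facts C) {a c u x y m r : G} {B : ℤ} (hB : ∀ n, C.Tw a r u n → |n| ≤ B)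
    (hau : C.Meets a u) (hx : Same a x) (hy : Same c y) (hm : Same r m) (hxy : Cross C.att x y)
    (hxm : Cross C.att x m) (hl : ∀ l : ℤ, ¬ Cross C.att y (x ^ l * m * (x ^ l)⁻¹)) :
    ∃ n, C.Tw a c u n ∧ |n| ≤ B + 2 := by
  obtain ⟨y', hy', oy⟩ := orient hxy
  obtain ⟨m', hm', om⟩ := orient hxm
  obtain ⟨v, hv, ov⟩ := h1.oc_of_meets a u x hau hx
  obtain ⟨m1, t1⟩ := h1.exL x m' y' om oy
  obtain ⟨m2, t2⟩ := h1.exL x y' v oy ov
  obtain ⟨m3, t3⟩ := h1.exL x m' v om ov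
  have sy : Same c y' := by
    rcases hy' with rfl | rfl
    · exact hy
    · exact hy.trans (same_inv y)
  have sm : Same r m' := by
    rcases hm' with rfl | rfl
    · exact hm
    · exact hm.trans (same_inv m)
  have b1 := abs_le.1 (h1.disjL x m' y' m1 t1 fun l h ↦ hl l (by
    have h' : Cross C.att y (x ^ l * m' * (x ^ l)⁻¹) := by
      rcases hy' with rfl | rfl
      · exact h
      · exact h1.cross_symm _ _ (cross_inv_right.1 (h1.cross_symm _ _ h))
    rcases hm' with rfl | rfl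
    · exact h'
    · rw [← cross_inv_right]
      convert h' using 1
      group))
  have b2 := abs_le.1 (h1.cocL x m' y' v _ _ _ t1 t2 t3)
  have b3 := abs_le.1 (hB m3 ⟨x, m', v, hx, sm, hv, t3⟩)
  refine ⟨m2, ⟨x, y', v, hx, sy, hv, t2⟩, ?_⟩
  rw [abs_le]
  constructor <;> omega

end A5

open A5 in
theorem blockA5 (h1 : StmtA1) (h1p : StmtA1P) (h2 : StmtA2) (h3 : StmtA3) (h4 : StmtA4) :
    StmtA5 := by
  intro G Z _ _ _ C s e N hc
  have h1 := h1 G Z C
  have hp := h1p G Z C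
  have h2 := h2 G Z C
  have h3 := h3 G Z C
  have h0 : ∃ g : G, g ≠ 1 := ⟨s 0, (hc.prim_s 0).1⟩
  have hs : ∀ i, C.SP (s i) := fun i ↦ ⟨hc.prim_s i, hc.disj_ss i i⟩
  have he : ∀ i, C.SP (e i) := fun i ↦ ⟨hc.prim_e i, hc.disj_ee i i⟩
  have hconf : (P h1 hp h2 h0).Conf (fun i ↦ mk (hs i)) (fun i ↦ mk (he i))
      {c : Cv C | A5.rep c ∈ N} := by
    refine ⟨fun i j h ↦ hc.disj_ss i j ((M_mk _ _).1 h), fun i j h ↦ hc.disj_ee i j ((M_mk _ _).1 h),
      fun i h ↦ hc.disj_se i ((M_mk _ _).1 h), fun i j h ↦ (M_mk _ _).2 (hc.meets i j h),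
      fun i ↦ same_mem hc.normal (rep_mk (he i)).symm (hc.e_mem i), ?_, fun c ↦ ?_⟩
    · obtain ⟨R, hR⟩ := hc.wave
      choose B hB using h1.bdd
      obtain ⟨B0, hB0⟩ : ∃ B0 : ℤ, ∀ i j, ∀ r ∈ R, B (s i) r (e j) ≤ B0 := by
        obtain ⟨B0, hB0⟩ := ((Set.finite_univ.prod R.finite_toSet).image
          fun p : (Fin 3 × Fin 3) × G ↦ B (s p.1.1) p.2 (e p.1.2)).bddAbove
        exact ⟨B0, fun i j r hr ↦ hB0 ⟨((i, j), r), ⟨trivial, hr⟩, rfl⟩⟩
      refine ⟨B0 + 23, fun i j hij c hcN ↦ ?_⟩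
      induction c using ind with | h c hc' => ?_
      obtain ⟨x, y, m, r, hx, hy, hr, hm, hxy, hxm, hl⟩ :=
        hR i j hij c (same_mem hc.normal (rep_mk hc') hcN) hc'.1.1
      have key : ∀ i j, i ≠ j → Same (s i) x →
          M (mk (hs i)) (mk hc') ∧ |d (mk (hs i)) (mk hc') (mk (he j))| ≤ B0 + 23 := by
        intro i j hij hx
        obtain ⟨n, hn, hn'⟩ := wave_bd h1 (fun n h ↦ (hB _ _ _ n h).trans (hB0 i j r hr))
          (hc.meets i j hij) hx hy hm hxy hxm hl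
        refine ⟨(M_mk _ _).2 ⟨x, y, hx, hy, hxy⟩, ?_⟩
        have b1 := abs_le.1 (d_close h1 (hs i) hc' (he j) hn)
        have b2 := abs_le.1 hn'
        rw [abs_le]
        constructor <;> omega
      exact hx.imp (key i j hij) (key j i hij.symm)
    · induction c using ind with | h c hc' => ?_
      obtain ⟨i, hi⟩ := hc.fill c hc'.1.1
      exact ⟨i, hi.imp (M_mk _ _).2 (M_mk _ _).2⟩
  obtain ⟨n, Ns, H⟩ := h4 _ _ _ _ _ _ hconf
  refine ⟨n, Ns, fun Ψ Τ hΨ hΤ hN ↦ ?_⟩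
  obtain ⟨H1, H2⟩ := H (fun i ↦ ⟨Ψ i, (hΨ i).1⟩) (fun i ↦ ⟨Τ i, (hΤ i).1⟩)
    (fun i ↦ tw_of h1 hp h2 h3 h0 (hs i) (hΨ i)) (fun i ↦ tw_of h1 hp h2 h3 h0 (he i) (hΤ i))
    fun i ↦ ⟨presD hc.normal _ (hN i).1, presD hc.normal _ (hN i).2⟩
  refine ⟨fun α ε hα a1 a2 ↦ ?_, aper h1 _ H2⟩
  rcases H1 ⟨α, ε, hα⟩ (presD hc.normal _ a1) (presD hc.normal _ a2) with ⟨b1, b2, b3⟩ | b
  · exact Or.inl (hc.rigid α (pres_of_sg (h0 := h0) _ b1) (fun i ↦ (mk_eq _ _).1 (b2 i))
      fun i ↦ (mk_eq _ _).1 (b3 i))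
  · exact Or.inr (aper h1 _ b)

end Pool.Agent.Lib.MP_003e01_gt
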