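import Pool.Agent.Lib.MP_003e01_gt.A6a

/-! Block A6: rigidity and filling of the six curves. -/

namespace Pool.Agent.Lib.MP_003e01_gt

namespace A6

variable {G Z : Type} [Group G] [LinearOrder Z] [MulAction G Z] {C : CG G Z}
  {s e : Fin 3 → G} {N : Subgroup G}

/-- the hypothesis of the rigidity statement -/
def Hyp (C : CG G Z) (s e : Fin 3 → G) (α : MulAut G) : Prop :=
  C.Pres α true ∧ (∀ i, Same (α (s i)) (s i)) ∧ ∀ i, Same (α (e i)) (e i)

lemma Hyp.inv (h2 : A1PFacts C) {α : MulAut G} (h : Hyp C s e α) : Hyp C s e α⁻¹ := by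
  refine ⟨h2.inv _ _ h.1, fun i ↦ ?_, fun i ↦ ?_⟩
  · simpa using (same_map α⁻¹ (h.2.1 i)).symm
  · simpa using (same_map α⁻¹ (h.2.2 i)).symm

lemma Hyp.conj (h2 : A1PFacts C) {α : MulAut G} (h : Hyp C s e α) (γ : G) :
    Hyp C s e (MulAut.conj γ * α) := by
  refine ⟨?_, fun i ↦ ?_, fun i ↦ ?_⟩
  · simpa using h2.mul _ _ _ _ (h2.inner (MulAut.conj γ) ⟨γ, fun g ↦ by simp⟩) h.1
  · simpa using (same_conj (h.2.1 i).symm γ).symm
  · simpa using (same_conj (h.2.2 i).symm γ).symm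

lemma inner_of_conj {α : MulAut G} {γ : G} (h : Inner (MulAut.conj γ * α)) : Inner α := by
  obtain ⟨δ, hδ⟩ := h
  refine ⟨γ⁻¹ * δ, fun g ↦ ?_⟩
  have := hδ g
  simp only [MulAut.mul_apply, MulAut.conj_apply] at this
  calc α g = γ⁻¹ * (γ * α g * γ⁻¹) * γ := by group
    _ = _ := by rw [this]; group

lemma Hyp.same_s {α : MulAut G} (h : Hyp C s e α) {i : Fin 3} {u : G} (hu : Same (s i) u) :
    Same (s i) (α u) := (h.2.1 i).symm.trans (same_map α hu)

lemma Hyp.same_e {α : MulAut G} (h : Hyp C s e α) {i : Fin 3} {u : G} (hu : Same (e i) u) :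
    Same (e i) (α u) := (h.2.2 i).symm.trans (same_map α hu)

lemma Hyp.lift {α : MulAut G} (h : Hyp C s e α) {u : G} (hu : Lift s e u) : Lift s e (α u) := by
  obtain ⟨i, hu | hu⟩ := hu
  · exact ⟨i, Or.inl (h.same_s hu)⟩
  · exact ⟨i, Or.inr (h.same_e hu)⟩

lemma pres_cyc {α : MulAut G} (h : C.Pres α true) {a b c : G} (ha : a ≠ 1) (hb : b ≠ 1)
    (hc : c ≠ 1) : cyc (C.att (α a)) (C.att (α b)) (C.att (α c)) ↔
      cyc (C.att a) (C.att b) (C.att c) := by
  simpa using h a b c ha hb hc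

lemma pres_oc {α : MulAut G} (h : C.Pres α true) {x y : G} (ho : OC C.att x y) :
    OC C.att (α x) (α y) := by
  obtain ⟨hx, hy⟩ := oc_ne ho
  have hx' := inv_ne_one.2 hx
  have hy' := inv_ne_one.2 hy
  simp only [OC, Rt, inv_inv, ← map_inv] at ho ⊢
  exact ⟨(pres_cyc h hx' hy hx).2 ho.1, (pres_cyc h hx hy' hx').2 ho.2⟩

lemma e_inj (hc : Config0 C s e N) {k k' : Fin 3} {u : G} (h : Same (e k) u) (h' : Same (e k') u) :
    k = k' := by
  by_contra hne
  obtain ⟨x, y, hx, hy, hxy⟩ := hc.meets k k' hne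
  exact hc.disj_se k ⟨x, y, hx, (h.trans h'.symm).trans hy, hxy⟩

/-- two lifts crossing a third lift do not cross each other -/
lemma no_tri (hc : Config0 C s e N) {y u v : G} (hy : Lift s e y)
    (hu : Lift s e u) (hv : Lift s e v) (a1 : Cross C.att y u) (a2 : Cross C.att y v) :
    ¬ Cross C.att u v := by
  intro a3
  obtain ⟨i, hy | hy⟩ := hy <;> obtain ⟨j, hu | hu⟩ := hu <;> obtain ⟨k, hv | hv⟩ := hv
  · exact hc.disj_ss _ _ ⟨_, _, hy, hu, a1⟩
  · exact hc.disj_ss _ _ ⟨_, _, hy, hu, a1⟩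
  · exact hc.disj_ss _ _ ⟨_, _, hy, hv, a2⟩
  · exact hc.disj_ee _ _ ⟨_, _, hu, hv, a3⟩
  · exact hc.disj_ss _ _ ⟨_, _, hu, hv, a3⟩
  · exact hc.disj_ee _ _ ⟨_, _, hy, hv, a2⟩
  · exact hc.disj_ee _ _ ⟨_, _, hy, hu, a1⟩
  · exact hc.disj_ee _ _ ⟨_, _, hy, hu, a1⟩

/-- the repelling ends of two disjoint lines crossing `y` are ordered like the attracting ends -/
lemma ends_order (h1 : A1Facts C) {y u v : G} (a1 : OC C.att y u) (a2 : OC C.att y v)
    (a3 : ¬ Cross C.att u v) (h : cyc (C.att u) (C.att v) (C.att y)) :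
    cyc (C.att v⁻¹) (C.att u⁻¹) (C.att y⁻¹) := by
  have hne : C.att u⁻¹ ≠ C.att v⁻¹ := by
    intro h0
    have := h1.att_eq _ _ (inv_ne_one.2 (oc_ne a1).2) (inv_ne_one.2 (oc_ne a2).2) h0
    rw [inv_inv, inv_inv] at this
    exact (cyc_ne h).1 this
  simp only [OC, Cross, Rt, cyc, inv_inv] at *
  grind

/-- `α` fixes `x` and every lift crossing it -/
def Good (C : CG G Z) (s e : Fin 3 → G) (α : MulAut G) (x : G) : Prop :=
  α x = x ∧ ∀ u, Lift s e u → Cross C.att x u → α u = u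

lemma good_step (h1 : A1Facts C) (h2 : A1PFacts C) (hc : Config0 C s e N) {α : MulAut G}
    (hα : Hyp C s e α) {x y : G} (hx : Lift s e x) (hy : Lift s e y) (hxy : Cross C.att x y)
    (hg : Good C s e α x) : Good C s e α y := by
  have hyf : α y = y := hg.2 y hy hxy
  have hy1 : y ≠ 1 := (lift_prim h1 hc hy).1
  have hyf' : α⁻¹ y = y := by
    conv_lhs => rw [← hyf]
    simp
  obtain ⟨x0, hx0, hx0f⟩ : ∃ x0, (Lift s e x0 ∧ OC C.att y x0) ∧ α x0 = x0 := by
    rcases cross_oc (h1.cross_symm _ _ hxy) with h | h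
    · exact ⟨x, ⟨hx, h⟩, hg.1⟩
    · exact ⟨x⁻¹, ⟨lift_inv hx, h⟩, by rw [map_inv, hg.1]⟩
  have main : ∀ u, Lift s e u ∧ OC C.att y u → α u = u := by
    intro u hu
    refine fix_all {u | Lift s e u ∧ OC C.att y u}
      (fun u v ↦ cyc (C.att u) (C.att v) (C.att y)) (fun u _ h ↦ (cyc_ne h).1 rfl)
      (fun u hu v hv w hw a1 a2 ↦ ?_) (fun u hu v hv ↦ ?_) (fun u hu v hv ↦ ?_)
      α.toEquiv (fun u ↦ ⟨fun h ↦ ?_, fun h ↦ ?_⟩) (fun u hu v hv ↦ ?_) hx0 hx0f hu
    · simp only [cyc] at a1 a2 ⊢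
      grind
    · by_cases h0 : C.att u = C.att v
      · exact Or.inr (Or.inl (h1.prim_eq _ _ (lift_prim h1 hc hu.1) (lift_prim h1 hc hv.1) h0))
      · have a1 := hu.2.1
        have a2 := hv.2.1
        simp only [Rt, cyc] at a1 a2 ⊢
        grind
    · have hv1 := (oc_ne hv.2).2
      have hu1 := (oc_ne hu.2).2
      have fin : ∀ c : G, c ≠ 1 → {w : G | Same c w ∧ Sep C.att w v u}.Finite := by
        intro c hc1
        refine ((C.fin_sep v u c hv1 hu1 hc1).union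
          (C.fin_sep v u c⁻¹ hv1 hu1 (inv_ne_one.2 hc1))).subset ?_
        rintro w ⟨hw | hw, hs⟩
        exacts [Or.inl ⟨hw, hs⟩, Or.inr ⟨hw, hs⟩]
      refine (Set.finite_iUnion fun i : Fin 3 ↦
        (fin (s i) (hc.prim_s i).1).union (fin (e i) (hc.prim_e i).1)).subset ?_
      rintro w ⟨hw, a1, a2⟩
      have b1 := ends_order h1 hu.2 hw.2
        (no_tri hc hy hu.1 hw.1 (oc_cross hu.2) (oc_cross hw.2)) a1
      have b2 := ends_order h1 hw.2 hv.2
        (no_tri hc hy hw.1 hv.1 (oc_cross hw.2) (oc_cross hv.2)) a2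
      have hs : Sep C.att w v u := by
        have c1 := hu.2
        have c2 := hv.2
        have c3 := hw.2
        simp only [Sep, OC, Rt, cyc, inv_inv] at a1 a2 b1 b2 c1 c2 c3 ⊢
        grind
      obtain ⟨i, hi | hi⟩ := hw.1
      · exact Set.mem_iUnion.2 ⟨i, Or.inl ⟨hi, hs⟩⟩
      · exact Set.mem_iUnion.2 ⟨i, Or.inr ⟨hi, hs⟩⟩
    · have a1 := (hα.inv h2).lift h.1
      have a2 := pres_oc (hα.inv h2).1 h.2
      rw [hyf'] at a2
      exact ⟨by simpa using a1, by simpa using a2⟩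
    · have a2 := pres_oc hα.1 h.2
      rw [hyf] at a2
      exact ⟨hα.lift h.1, a2⟩
    · have := pres_cyc hα.1 (oc_ne hu.2).2 (oc_ne hv.2).2 hy1
      rwa [hyf] at this
  refine ⟨hyf, fun u hu h ↦ ?_⟩
  rcases cross_oc h with h | h
  · exact main u ⟨hu, h⟩
  · have := main u⁻¹ ⟨lift_inv hu, h⟩
    rw [map_inv] at this
    exact inv_injective this

lemma inner_of_good (h1 : A1Facts C) (h2 : A1PFacts C) (hc : Config0 C s e N) (hconn : Conn C s e)
    {α : MulAut G} (hα : Hyp C s e α) (hg : Good C s e α (s 0)) : Inner α := by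
  have hl : Lift s e (s 0) := ⟨0, Or.inl (Same.refl _)⟩
  have key : ∀ w, Relation.ReflTransGen
      (fun x y ↦ Lift s e x ∧ Lift s e y ∧ Cross C.att x y) (s 0) w → Good C s e α w := by
    intro w hw
    induction hw with
    | refl => exact hg
    | tail _ hxy ih => exact good_step h1 h2 hc hα hxy.1 hxy.2.1 hxy.2.2 ih
  have hall : ∀ u, Lift s e u → α u = u := fun u hu ↦ (key u (hconn _ u hl hu)).1
  obtain ⟨v, hv, ho⟩ := exists_crossing h1 hc hl
  refine ⟨1, fun g ↦ ?_⟩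
  have comm : ∀ u, Lift s e u → g⁻¹ * α g * u * (g⁻¹ * α g)⁻¹ = u := by
    intro u hu
    have a1 := hall _ (lift_conj hu g)
    rw [map_mul, map_mul, map_inv, hall u hu] at a1
    calc g⁻¹ * α g * u * (g⁻¹ * α g)⁻¹ = g⁻¹ * (α g * u * (α g)⁻¹) * g := by group
      _ = u := by rw [a1]; group
  have := central ho (comm _ hl) (comm _ hv)
  rw [inv_mul_eq_one] at this
  simp [← this]

section pattern
variable {y : ℤ → G}

lemma pat_lt (p1 : ∀ i, OC C.att (s 0) (y i)) (p4 : ∀ i, Rt C.att (y i)⁻¹ (C.att (y (i + 1))))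
    {i j : ℤ} (h : i < j) : cyc (C.att (y i)) (C.att (y j)) (C.att (s 0)) := by
  have step : ∀ i, cyc (C.att (y i)) (C.att (y (i + 1))) (C.att (s 0)) := by
    intro i
    have a1 := p1 i
    have a2 := (p1 (i + 1)).1
    have a3 := p4 i
    simp only [OC, Rt, cyc, inv_inv] at a1 a2 a3 ⊢
    grind
  have h' : i + 1 ≤ j := h
  induction j, h' using Int.leInduction with
  | base => exact step i
  | succ n hn ih =>
    have a1 := ih (by omega)
    have a2 := step n
    simp only [cyc] at a1 a2 ⊢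
    grind

lemma pat_lt_iff (p1 : ∀ i, OC C.att (s 0) (y i))
    (p4 : ∀ i, Rt C.att (y i)⁻¹ (C.att (y (i + 1)))) {i j : ℤ} :
    cyc (C.att (y i)) (C.att (y j)) (C.att (s 0)) ↔ i < j := by
  refine ⟨fun h ↦ ?_, pat_lt p1 p4⟩
  rcases lt_trichotomy i j with h0 | h0 | h0
  · exact h0
  · subst h0
    exact absurd rfl (cyc_ne h).1
  · have := pat_lt p1 p4 h0
    simp only [cyc] at h this
    grind

lemma pat_inj (p1 : ∀ i, OC C.att (s 0) (y i))
    (p4 : ∀ i, Rt C.att (y i)⁻¹ (C.att (y (i + 1)))) : Function.Injective y := by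
  intro i j h
  rcases lt_trichotomy i j with h0 | h0 | h0
  · exact absurd (congrArg C.att h) (cyc_ne (pat_lt p1 p4 h0)).1
  · exact h0
  · exact absurd (congrArg C.att h.symm) (cyc_ne (pat_lt p1 p4 h0)).1

lemma pat_period {a : G} (p3 : ∀ i, y (i + 10) = a * y i * a⁻¹) (m i : ℤ) :
    y (i + 10 * m) = a ^ m * y i * (a ^ m)⁻¹ := by
  induction m using Int.induction_on with
  | zero => simp
  | succ n ih =>
    rw [show i + 10 * ((n : ℤ) + 1) = i + 10 * n + 10 by ring, p3, ih]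
    group
  | pred n ih =>
    have := p3 (i + 10 * (-(n : ℤ) - 1))
    rw [show i + 10 * (-(n : ℤ) - 1) + 10 = i + 10 * (-n) by ring, ih] at this
    calc y (i + 10 * (-(n : ℤ) - 1)) = a⁻¹ * (a * y (i + 10 * (-(n : ℤ) - 1)) * a⁻¹) * a := by group
      _ = _ := by rw [← this]; group

end pattern

theorem rigid (h1 : A1Facts C) (h2 : A1PFacts C) (hc : Config0 C s e N) (hconn : Conn C s e)
    (hpat : Pat C s e) : Rigid C s e := by
  obtain ⟨y, p1, p2, p3, p4, p5⟩ := hpat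
  have hs1 : s 0 ≠ 1 := (hc.prim_s 0).1
  have hl : Lift s e (s 0) := ⟨0, Or.inl (Same.refl _)⟩
  have hyl : ∀ i, Lift s e (y i) := fun i ↦ ⟨_, Or.inr (p2 i)⟩
  have hinj := pat_inj p1 p4
  have pos : ∀ α : MulAut G, Hyp C s e α → α (s 0) = s 0 → Inner α := by
    intro α hα h0
    have ex : ∀ β : MulAut G, Hyp C s e β → β (s 0) = s 0 → ∀ i, ∃ j, β (y i) = y j := by
      intro β hβ hβ0 i
      refine p5 _ _ (hβ.same_e (p2 i)) ?_
      have := pres_oc hβ.1 (p1 i)
      rwa [hβ0] at this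
    choose φ hφ using ex α hα h0
    have hm : StrictMono φ := by
      intro i j hij
      have := (pres_cyc hα.1 (oc_ne (p1 i)).2 (oc_ne (p1 j)).2 hs1).2 (pat_lt p1 p4 hij)
      rw [hφ, hφ, h0] at this
      exact (pat_lt_iff p1 p4).1 this
    have hs : Function.Surjective φ := by
      intro j
      obtain ⟨i, hi⟩ := ex α⁻¹ (hα.inv h2) (by
        conv_lhs => rw [← h0]
        simp) j
      refine ⟨i, hinj ?_⟩
      rw [← hφ, ← hi]
      simp
    obtain ⟨m, hm⟩ : 10 ∣ φ 0 := pat_shift fun i ↦ by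
      refine e_inj hc (p2 _) ?_
      rw [← int_shift hm hs, ← hφ]
      exact hα.same_e (p2 i)
    have hy : ∀ i, (MulAut.conj ((s 0) ^ m)⁻¹ * α) (y i) = y i := by
      intro i
      rw [MulAut.mul_apply, hφ, int_shift ‹StrictMono φ› hs, hm, pat_period p3, MulAut.conj_apply]
      group
    refine inner_of_conj (inner_of_good h1 h2 hc hconn (hα.conj h2 ((s 0) ^ m)⁻¹) ⟨?_, ?_⟩)
    · rw [MulAut.mul_apply, h0, MulAut.conj_apply]
      group
    · rintro u ⟨k, hu | hu⟩ hcr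
      · exact absurd ⟨_, _, Same.refl _, hu, hcr⟩ (hc.disj_ss 0 k)
      · rcases cross_oc hcr with h | h
        · obtain ⟨i, rfl⟩ := p5 k u hu h
          exact hy i
        · obtain ⟨i, hi⟩ := p5 k u⁻¹ (same_inv hu) h
          have := hy i
          rw [← hi, map_inv] at this
          exact inv_injective this
  have neg : ∀ α : MulAut G, Hyp C s e α → α (s 0) = (s 0)⁻¹ → False := by
    intro α hα h0
    have ex : ∀ β : MulAut G, Hyp C s e β → β (s 0) = (s 0)⁻¹ → ∀ i, ∃ j, (β (y i))⁻¹ = y j := by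
      intro β hβ hβ0 i
      refine p5 _ _ (same_inv (hβ.same_e (p2 i))) ?_
      have := oc_inv (pres_oc hβ.1 (p1 i))
      rwa [hβ0, inv_inv] at this
    choose φ hφ using ex α hα h0
    have hφ' : ∀ i, α (y i) = (y (φ i))⁻¹ := fun i ↦ by rw [← hφ, inv_inv]
    have ord : ∀ a b, a < b → cyc (C.att (y b)⁻¹) (C.att (y a)⁻¹) (C.att (s 0)⁻¹) := fun a b h ↦
      ends_order h1 (p1 a) (p1 b)
        (no_tri hc hl (hyl a) (hyl b) (oc_cross (p1 a)) (oc_cross (p1 b))) (pat_lt p1 p4 h)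
    have hm : StrictMono fun i ↦ -φ i := by
      intro i j hij
      have := (pres_cyc hα.1 (oc_ne (p1 i)).2 (oc_ne (p1 j)).2 hs1).2 (pat_lt p1 p4 hij)
      rw [hφ', hφ', h0] at this
      rcases lt_trichotomy (φ i) (φ j) with h | h | h
      · have a := ord _ _ h
        simp only [cyc] at a this
        grind
      · rw [h] at this
        exact absurd rfl (cyc_ne this).1
      · exact neg_lt_neg h
    have hs : Function.Surjective fun i ↦ -φ i := by
      intro j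
      obtain ⟨i, hi⟩ := ex α⁻¹ (hα.inv h2) (by
        have : α (s 0)⁻¹ = s 0 := by rw [map_inv, h0, inv_inv]
        conv_lhs => rw [← this]
        simp) (-j)
      refine ⟨i, ?_⟩
      have : φ i = -j := by
        refine hinj ?_
        rw [← hφ, ← hi]
        simp
      simp [this]
    refine pat_refl (c := φ 0) fun i ↦ ?_
    have a := int_shift hm hs i
    refine e_inj hc (p2 _) ?_
    rw [show φ 0 - i = φ i by omega, ← hφ]
    exact same_inv (hα.same_e (p2 i))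
  intro α a1 a2 a3
  have hα : Hyp C s e α := ⟨a1, a2, a3⟩
  rcases a2 0 with h | h
  · obtain ⟨γ, hγ⟩ := isConj_iff.1 h
    exact inner_of_conj (pos _ (hα.conj h2 γ) (by simpa using hγ))
  · obtain ⟨γ, hγ⟩ := isConj_iff.1 h
    refine (neg _ (hα.conj h2 γ) ?_).elim
    rw [MulAut.mul_apply, MulAut.conj_apply]
    conv_rhs => rw [← hγ]
    group

end A6

theorem blockA6 (h : StmtA1) (h' : StmtA1P) : StmtA6 := fun G Z _ _ _ C _ _ _ hc hconn hpat ↦
  ⟨A6.rigid (h G Z C) (h' G Z C) hc hconn hpat, A6.fill (h G Z C) hc hconn⟩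

end Pool.Agent.Lib.MP_003e01_gt
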