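import Pool.Agent.Lib.MP_003e01_gt.Blue

/-! Block A6, first part: basic facts and filling. -/

namespace Pool.Agent.Lib.MP_003e01_gt

namespace A6

variable {G Z : Type} [Group G] [LinearOrder Z] [MulAction G Z] {C : CG G Z}
  {s e : Fin 3 → G} {N : Subgroup G}

lemma same_inv {a u : G} (h : Same a u) : Same a u⁻¹ :=
  h.trans (Or.inr (IsConj.refl _))

lemma same_conj {a u : G} (h : Same a u) (g : G) : Same a (g * u * g⁻¹) :=
  h.trans (Or.inl (isConj_iff.2 ⟨g, rfl⟩))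

lemma same_map (α : MulAut G) {a b : G} (h : Same a b) : Same (α a) (α b) := by
  rcases h with h | h
  · obtain ⟨c, hc⟩ := isConj_iff.1 h
    exact Or.inl (isConj_iff.2 ⟨α c, by rw [← hc]; simp⟩)
  · obtain ⟨c, hc⟩ := isConj_iff.1 h
    exact Or.inr (isConj_iff.2 ⟨α c, by rw [← hc]; simp⟩)

lemma lift_inv {u : G} (h : Lift s e u) : Lift s e u⁻¹ := by
  obtain ⟨i, h | h⟩ := h
  · exact ⟨i, Or.inl (same_inv h)⟩
  · exact ⟨i, Or.inr (same_inv h)⟩

lemma lift_conj {u : G} (h : Lift s e u) (g : G) : Lift s e (g * u * g⁻¹) := by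
  obtain ⟨i, h | h⟩ := h
  · exact ⟨i, Or.inl (same_conj h g)⟩
  · exact ⟨i, Or.inr (same_conj h g)⟩

lemma lift_prim (h1 : A1Facts C) (hc : Config0 C s e N) {u : G} (h : Lift s e u) : C.Prim u := by
  obtain ⟨i, h | h⟩ := h
  · exact h1.prim_same _ _ (hc.prim_s i) h
  · exact h1.prim_same _ _ (hc.prim_e i) h

omit [MulAction G Z] in
lemma oc_cross {att : G → Z} {x y : G} (h : OC att x y) : Cross att x y := Or.inl h

omit [MulAction G Z] in
lemma cross_oc {att : G → Z} {x y : G} (h : Cross att x y) : OC att x y ∨ OC att x y⁻¹ := by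
  rcases h with h | h
  · exact Or.inl h
  · exact Or.inr ⟨h.1, by simpa using h.2⟩

omit [MulAction G Z] in
lemma oc_inv {att : G → Z} {x y : G} (h : OC att x y) : OC att x⁻¹ y⁻¹ :=
  ⟨h.2, by simpa using h.1⟩

omit [MulAction G Z] in
lemma oc_ne {att : G → Z} {x y : G} (h : OC att x y) : x ≠ 1 ∧ y ≠ 1 := by
  constructor
  · rintro rfl
    simp only [OC, Rt, cyc, inv_one] at h
    grind
  · rintro rfl
    simp only [OC, Rt, cyc, inv_one, inv_inv] at h
    grind

lemma meets_symm (h1 : A1Facts C) {a b : G} (h : C.Meets a b) : C.Meets b a := by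
  obtain ⟨x, y, hx, hy, h⟩ := h
  exact ⟨y, x, hy, hx, h1.cross_symm _ _ h⟩

/-- every lift is crossed by a lift -/
lemma exists_crossing (h1 : A1Facts C) (hc : Config0 C s e N) {u : G} (h : Lift s e u) :
    ∃ v, Lift s e v ∧ OC C.att u v := by
  obtain ⟨i, h | h⟩ := h
  · obtain ⟨j, hj⟩ := exists_ne i
    obtain ⟨y, hy, ho⟩ := h1.oc_of_meets _ _ _ (hc.meets i j hj.symm) h
    exact ⟨y, ⟨j, Or.inr hy⟩, ho⟩
  · obtain ⟨j, hj⟩ := exists_ne i
    obtain ⟨y, hy, ho⟩ := h1.oc_of_meets _ _ _ (meets_symm h1 (hc.meets j i hj)) h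
    exact ⟨y, ⟨j, Or.inl hy⟩, ho⟩

lemma pow_fix {h : G} (hh : h ≠ 1) (n : ℕ) :
    h ^ n • C.att h = C.att h ∧ h ^ n • C.att h⁻¹ = C.att h⁻¹ := by
  have e1 := C.att_fix h hh
  have e2 : h • C.att h⁻¹ = C.att h⁻¹ := by
    have := C.att_fix h⁻¹ (inv_ne_one.2 hh)
    exact (inv_smul_eq_iff.1 this).symm
  induction n with
  | zero => simp
  | succ n ih => rw [pow_succ, mul_smul, mul_smul, e1, e2]; exact ih

/-- a point different from the repelling end is attracted to the right of `c` -/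
lemma attract {c h : G} (ho : OC C.att c h) {z : Z} (hz : z ≠ C.att h⁻¹) :
    ∃ n : ℕ, Rt C.att c (h ^ n • z) := by
  have hh := (oc_ne ho).2
  by_cases h0 : z = C.att h
  · exact ⟨0, by simpa [h0] using ho.1⟩
  have hne := C.att_ne h hh
  obtain ⟨o1, o2⟩ := ho
  rcases cyc_total hz.symm h0 hne.symm with hr | hr
  · have hcm : Rt C.att h (C.att c⁻¹) := by
      simp only [Rt, cyc, inv_inv] at *
      grind
    obtain ⟨n, hn⟩ := C.arch h z _ hh hr hcm
    refine ⟨n, ?_⟩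
    generalize h ^ n • z = w at hn ⊢
    simp only [Rt, cyc, inv_inv] at *
    grind
  · have hcp : Rt C.att h⁻¹ (C.att c) := by
      simp only [Rt, cyc, inv_inv] at *
      grind
    have hz' : Rt C.att h⁻¹ z := by simpa [Rt] using hr
    obtain ⟨n, hn⟩ := C.arch h⁻¹ _ z (inv_ne_one.2 hh) hcp hz'
    refine ⟨n, ?_⟩
    have f1 := (C.smul_cyc (h ^ n) _ _ _).2 hn
    have f2 := (C.smul_cyc (h ^ n) _ _ _).2 hr
    rw [(pow_fix hh n).2, inv_pow, smul_inv_smul] at f1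
    rw [(pow_fix hh n).2, (pow_fix hh n).1] at f2
    generalize h ^ n • z = w at f1 f2 ⊢
    simp only [Rt, cyc, inv_inv] at *
    grind

lemma exists_right (hc : Config0 C s e N) {c h : G} (ho : OC C.att c h) :
    ∃ u, Lift s e u ∧ Rt C.att c (C.att u) := by
  have h0 : s 0 ≠ 1 := (hc.prim_s 0).1
  have hl : Lift s e (s 0) := ⟨0, Or.inl (Same.refl _)⟩
  obtain ⟨u, hu, hu1, hu2⟩ : ∃ u, Lift s e u ∧ u ≠ 1 ∧ C.att u ≠ C.att h⁻¹ := by
    by_cases h2 : C.att (s 0) = C.att h⁻¹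
    · exact ⟨(s 0)⁻¹, lift_inv hl, inv_ne_one.2 h0, fun h3 ↦ C.att_ne _ h0 (h2.trans h3.symm)⟩
    · exact ⟨s 0, hl, h0, h2⟩
  obtain ⟨n, hn⟩ := attract ho hu2
  exact ⟨_, lift_conj hu (h ^ n), by rwa [C.att_conj _ _ hu1]⟩

theorem fill (h1 : A1Facts C) (hc : Config0 C s e N) (hconn : Conn C s e) : Fill C s e := by
  intro c hc1
  by_contra hno
  have hnc : ∀ u, Lift s e u → ¬ Cross C.att c u := by
    rintro u ⟨i, hu | hu⟩ h
    · exact hno ⟨i, Or.inl ⟨c, u, Same.refl _, hu, h⟩⟩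
    · exact hno ⟨i, Or.inr ⟨c, u, Same.refl _, hu, h⟩⟩
  have hend : ∀ u, Lift s e u → C.att u ≠ C.att c := by
    intro u hu h
    have h' := h1.att_eq _ _ (lift_prim h1 hc hu).1 hc1 h
    obtain ⟨v, hv, ho⟩ := exists_crossing h1 hc hu
    refine hnc v hv (oc_cross ?_)
    simp only [OC, Rt, inv_inv] at ho ⊢
    rwa [← h, ← h']
  have hend' : ∀ u, Lift s e u → C.att u ≠ C.att c⁻¹ := by
    intro u hu h
    have h' := h1.att_eq _ _ (lift_prim h1 hc hu).1 (inv_ne_one.2 hc1) h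
    rw [inv_inv] at h'
    exact hend _ (lift_inv hu) h'
  have hcc := C.att_ne c hc1
  have hboth : ∀ u, Lift s e u → Rt C.att c (C.att u) → Rt C.att c (C.att u⁻¹) := by
    intro u hu h
    have a1 := hnc u hu
    have a2 := hend _ (lift_inv hu)
    have a3 := hend' _ (lift_inv hu)
    simp only [Cross, Rt, cyc, inv_inv] at *
    grind
  obtain ⟨h, -, hcr⟩ := C.dense c hc1
  obtain ⟨h, ho⟩ : ∃ h, OC C.att c h := by
    rcases cross_oc hcr with ho | ho
    exacts [⟨_, ho⟩, ⟨_, ho⟩]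
  obtain ⟨u, hu, hur⟩ := exists_right hc ho
  obtain ⟨v, hv, hvr⟩ := exists_right hc (oc_inv ho)
  have key : ∀ w, Relation.ReflTransGen
      (fun x y ↦ Lift s e x ∧ Lift s e y ∧ Cross C.att x y) u w → Rt C.att c (C.att w) := by
    intro w hw
    induction hw with
    | refl => exact hur
    | tail _ hxy ih =>
      obtain ⟨hx, hy, hxy⟩ := hxy
      have a0 := hboth _ hx ih
      have a1 := hnc _ hy
      have a2 := hend _ (lift_inv hy)
      have a3 := hend' _ (lift_inv hy)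
      have a4 := hend _ hy
      have a5 := hend' _ hy
      simp only [Cross, Rt, cyc, inv_inv] at ih a0 a1 a2 a3 a4 a5 hxy ⊢
      grind
  have := key v (hconn u v hu hv)
  simp only [Rt, cyc, inv_inv] at this hvr
  grind

/-- an element commuting with two crossing elements is trivial -/
lemma central {u v h : G} (ho : OC C.att u v) (hu : h * u * h⁻¹ = u) (hv : h * v * h⁻¹ = v) :
    h = 1 := by
  by_contra hh
  obtain ⟨hu1, hv1⟩ := oc_ne ho
  have key : ∀ z : Z, h • z = z → z = C.att h ∨ z = C.att h⁻¹ := by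
    intro z hz
    by_contra hc
    push Not at hc
    rcases cyc_total hc.2.symm hc.1 (C.att_ne h hh).symm with hr | hr
    · have := C.move h z hh hr
      rw [hz] at this
      exact (cyc_ne this).1 rfl
    · have := C.move h⁻¹ z (inv_ne_one.2 hh) (by simpa [Rt] using hr)
      rw [inv_smul_eq_iff.2 hz.symm] at this
      exact (cyc_ne this).1 rfl
  have k1 := key (C.att u) (by rw [← C.att_conj _ _ hu1, hu])
  have k2 := key (C.att u⁻¹) (by
    rw [← C.att_conj _ _ (inv_ne_one.2 hu1)]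
    congr 1
    conv_rhs => rw [← hu]
    group)
  have k3 := key (C.att v) (by rw [← C.att_conj _ _ hv1, hv])
  have := cyc_ne ho.1
  grind

/-- an order automorphism with a fixed point of a locally finite order is the identity -/
lemma fix_up {L : Type} (S : Set L) (lt : L → L → Prop)
    (irr : ∀ u ∈ S, ¬ lt u u) (tr : ∀ u ∈ S, ∀ v ∈ S, ∀ w ∈ S, lt u v → lt v w → lt u w)
    (tri : ∀ u ∈ S, ∀ v ∈ S, lt u v ∨ u = v ∨ lt v u)
    (fin : ∀ u ∈ S, ∀ v ∈ S, {w | w ∈ S ∧ lt u w ∧ lt w v}.Finite)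
    (f : L ≃ L) (hf : ∀ u, f u ∈ S ↔ u ∈ S) (hlt : ∀ u ∈ S, ∀ v ∈ S, lt (f u) (f v) ↔ lt u v)
    {x : L} (hx : x ∈ S) (hfx : f x = x) {u : L} (hu : u ∈ S) (hxu : lt x u) : f u = u := by
  have hfu := (hf u).2 hu
  have hxfu : lt x (f u) := by
    have := (hlt x hx u hu).2 hxu
    rwa [hfx] at this
  have himg : f '' {w | w ∈ S ∧ lt x w ∧ lt w u} = {w | w ∈ S ∧ lt x w ∧ lt w (f u)} := by
    ext w
    obtain ⟨w, rfl⟩ := f.surjective w
    rw [f.injective.mem_set_image]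
    simp only [Set.mem_ofPred_eq, hf]
    refine and_congr_right fun hw ↦ ?_
    rw [hlt w hw u hu, ← hlt x hx w hw, hfx]
  have hcard : {w | w ∈ S ∧ lt x w ∧ lt w (f u)}.ncard = {w | w ∈ S ∧ lt x w ∧ lt w u}.ncard := by
    rw [← himg, Set.ncard_image_of_injective _ f.injective]
  have hmono : ∀ a ∈ S, ∀ b ∈ S, lt x a → lt a b →
      {w | w ∈ S ∧ lt x w ∧ lt w a}.ncard < {w | w ∈ S ∧ lt x w ∧ lt w b}.ncard := by
    intro a ha b hb hxa hab
    refine Set.ncard_lt_ncard ⟨fun w hw ↦ ⟨hw.1, hw.2.1, tr _ hw.1 _ ha _ hb hw.2.2 hab⟩, ?_⟩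
      (fin x hx b hb)
    intro hsub
    exact irr a ha (hsub ⟨ha, hxa, hab⟩).2.2
  rcases tri u hu (f u) hfu with h | h | h
  · have := hmono u hu _ hfu hxu h
    omega
  · exact h.symm
  · have := hmono _ hfu u hu hxfu h
    omega

lemma fix_all {L : Type} (S : Set L) (lt : L → L → Prop)
    (irr : ∀ u ∈ S, ¬ lt u u) (tr : ∀ u ∈ S, ∀ v ∈ S, ∀ w ∈ S, lt u v → lt v w → lt u w)
    (tri : ∀ u ∈ S, ∀ v ∈ S, lt u v ∨ u = v ∨ lt v u)
    (fin : ∀ u ∈ S, ∀ v ∈ S, {w | w ∈ S ∧ lt u w ∧ lt w v}.Finite)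
    (f : L ≃ L) (hf : ∀ u, f u ∈ S ↔ u ∈ S) (hlt : ∀ u ∈ S, ∀ v ∈ S, lt (f u) (f v) ↔ lt u v)
    {x : L} (hx : x ∈ S) (hfx : f x = x) {u : L} (hu : u ∈ S) : f u = u := by
  rcases tri x hx u hu with h | h | h
  · exact fix_up S lt irr tr tri fin f hf hlt hx hfx hu h
  · rw [← h, hfx]
  · refine fix_up S (fun a b ↦ lt b a) irr (fun a ha b hb c hc h1 h2 ↦ tr c hc b hb a ha h2 h1)
      (fun a ha b hb ↦ ?_) (fun a ha b hb ↦ ?_) f hf (fun a ha b hb ↦ hlt b hb a ha) hx hfx hu h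
    · rcases tri a ha b hb with h | h | h
      exacts [Or.inr (Or.inr h), Or.inr (Or.inl h), Or.inl h]
    · exact (fin b hb a ha).subset fun w hw ↦ ⟨hw.1, hw.2.2, hw.2.1⟩

/-- a strictly monotone surjection of the integers is a translation -/
lemma int_shift {φ : ℤ → ℤ} (hm : StrictMono φ) (hs : Function.Surjective φ) (i : ℤ) :
    φ i = i + φ 0 := by
  have step : ∀ i, φ (i + 1) = φ i + 1 := by
    intro i
    obtain ⟨j, hj⟩ := hs (φ i + 1)
    have h1 : i < j := hm.lt_iff_lt.1 (by omega)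
    have h2 : φ (i + 1) ≤ φ j := hm.monotone (by omega)
    have h3 : φ i < φ (i + 1) := hm (by omega)
    omega
  induction i using Int.induction_on with
  | zero => simp
  | succ n ih => rw [step, ih]; ring
  | pred n ih =>
    have := step (-(n : ℤ) - 1)
    rw [sub_add_cancel] at this
    omega

lemma patT_congr {i j : ℤ} (h : i % 10 = j % 10) : patT i = patT j := by
  simp only [patT, h]

lemma pat_shift {c : ℤ} (h : ∀ i, patT (i + c) = patT i) : 10 ∣ c := by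
  have key : ∀ r : Fin 10, (∀ i : Fin 10, patT ((i : ℕ) + (r : ℕ)) = patT (i : ℕ)) → r = 0 := by
    decide
  have h0 : 0 ≤ c % 10 := by omega
  have := key ⟨(c % 10).toNat, by omega⟩ fun i ↦ by
    refine Eq.trans (patT_congr ?_) (h _)
    simp only [Int.toNat_of_nonneg h0]
    omega
  have h2 := congrArg Fin.val this
  simp only [Fin.val_zero] at h2
  omega

lemma pat_refl {c : ℤ} (h : ∀ i, patT (c - i) = patT i) : False := by
  have key : ∀ r : Fin 10, ¬ ∀ i : Fin 10, patT ((r : ℕ) - (i : ℕ)) = patT (i : ℕ) := by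
    decide
  have h0 : 0 ≤ c % 10 := by omega
  refine key ⟨(c % 10).toNat, by omega⟩ fun i ↦ ?_
  refine Eq.trans (patT_congr ?_) (h _)
  simp only [Int.toNat_of_nonneg h0]
  omega

end A6

end Pool.Agent.Lib.MP_003e01_gt
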