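import Pool.Agent.Lib.MP_003e01_gt.Blue

/-! Block A7: a side preserving automorphism preserves or reverses the cyclic order. -/

open Filter

namespace Pool.Agent.Lib.MP_003e01_gt

namespace A7

variable {G Z : Type} [Group G] [LinearOrder Z] [MulAction G Z] (C : CG G Z)

lemma fix_pow {g : G} {z : Z} (h : g • z = z) (n : ℕ) : g ^ n • z = z := by
  induction n with
  | zero => simp
  | succ n ih => rw [pow_succ, mul_smul, h, ih]

lemma fix_inv {g : G} (hg : g ≠ 1) : g • C.att g⁻¹ = C.att g⁻¹ :=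
  (inv_smul_eq_iff.1 (C.att_fix g⁻¹ (inv_ne_one.2 hg))).symm

lemma rt_pow {g : G} (hg : g ≠ 1) {z : Z} (h : Rt C.att g z) (n : ℕ) : Rt C.att g (g ^ n • z) := by
  have := (C.smul_cyc (g ^ n) _ _ _).2 h
  rwa [fix_pow (fix_inv C hg), fix_pow (C.att_fix g hg)] at this

lemma lt_pow {g : G} (hg : g ≠ 1) {z : Z} (h : cyc (C.att g) z (C.att g⁻¹)) (n : ℕ) :
    cyc (C.att g) (g ^ n • z) (C.att g⁻¹) := by
  have := (C.smul_cyc (g ^ n) _ _ _).2 h
  rwa [fix_pow (fix_inv C hg), fix_pow (C.att_fix g hg)] at this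

lemma convR {g : G} (hg : g ≠ 1) {z p : Z} (h : Rt C.att g z) (hp : p ≠ C.att g) :
    ∀ᶠ n : ℕ in atTop, cyc p (g ^ n • z) (C.att g) := by
  by_cases hr : Rt C.att g p
  · obtain ⟨n, hn⟩ := C.arch g z p hg h hr
    refine eventually_atTop.2 ⟨n, fun m hm => ?_⟩
    induction m, hm using Nat.le_induction with
    | base => exact hn
    | succ m _ ih =>
      have := C.move g _ hg (rt_pow C hg h m)
      rw [pow_succ', mul_smul]
      simp only [cyc] at *; grind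
  · refine Eventually.of_forall fun n => ?_
    have := rt_pow C hg h n
    simp only [cyc, Rt] at *; grind

lemma convL {g : G} (hg : g ≠ 1) {z q : Z} (h : cyc (C.att g) z (C.att g⁻¹)) (hq : q ≠ C.att g) :
    ∀ᶠ n : ℕ in atTop, cyc (C.att g) (g ^ n • z) q := by
  have hg' := inv_ne_one.2 hg
  by_cases hr : cyc (C.att g) q (C.att g⁻¹)
  · obtain ⟨n, hn⟩ := C.arch g⁻¹ q z hg' (by simpa only [Rt, inv_inv] using hr)
      (by simpa only [Rt, inv_inv] using h)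
    have h1 := (C.smul_cyc (g ^ n) _ _ _).2 hn
    rw [inv_pow, smul_inv_smul, fix_pow (fix_inv C hg)] at h1
    refine eventually_atTop.2 ⟨n, fun m hm => ?_⟩
    induction m, hm using Nat.le_induction with
    | base =>
      have := lt_pow C hg h n
      simp only [cyc] at *; grind
    | succ m _ ih =>
      have h2 := lt_pow C hg h (m + 1)
      have h3 := C.move g⁻¹ _ hg' (by simpa only [Rt, inv_inv] using h2)
      rw [pow_succ', mul_smul] at h2 h3 ⊢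
      rw [inv_smul_smul] at h3
      simp only [cyc] at *; grind
  · refine Eventually.of_forall fun n => ?_
    have := lt_pow C hg h n
    simp only [cyc] at *; grind

lemma conv {g : G} (hg : g ≠ 1) {z p q : Z} (hz : z ≠ C.att g⁻¹) (h : cyc p (C.att g) q) :
    ∀ᶠ n : ℕ in atTop, cyc p (g ^ n • z) q := by
  by_cases e : z = C.att g
  · exact Eventually.of_forall fun n => by rwa [e, fix_pow (C.att_fix g hg)]
  rcases cyc_total hz.symm e (C.att_ne g hg).symm with h1 | h1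
  · filter_upwards [convR C hg h1 (cyc_ne h).1] with n hn
    simp only [cyc] at *; grind
  · filter_upwards [convL C hg h1 (cyc_ne h).2.1.symm] with n hn
    simp only [cyc] at *; grind

lemma convArc {g : G} (hg : g ≠ 1) {p q u w : Z} (h : cyc p (C.att g) q)
    (h' : cyc w (C.att g⁻¹) u) :
    ∀ᶠ n : ℕ in atTop, ∀ z, ¬ cyc w z u → cyc p (g ^ n • z) q := by
  have hne := C.att_ne g hg
  obtain ⟨p', q', h1, h2, h3⟩ : ∃ p' q', cyc p' (C.att g) q' ∧ ¬ cyc p' (C.att g⁻¹) q' ∧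
      ∀ z, cyc p' z q' → cyc p z q := by
    by_cases e : cyc p (C.att g⁻¹) q
    · by_cases e' : cyc p (C.att g⁻¹) (C.att g)
      · refine ⟨C.att g⁻¹, q, ?_, ?_, fun z hz => ?_⟩ <;> simp only [cyc] at * <;> grind
      · refine ⟨p, C.att g⁻¹, ?_, ?_, fun z hz => ?_⟩ <;> simp only [cyc] at * <;> grind
    · exact ⟨p, q, h, e, fun _ hz => hz⟩
  filter_upwards [conv C hg (cyc_ne h').2.1.symm h1, conv C hg (cyc_ne h').1 h1] with n hu hw z hz
  refine h3 _ ?_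
  rw [← C.smul_cyc (g ^ n)] at hz h'
  rw [fix_pow (fix_inv C hg)] at h'
  clear h3
  simp only [cyc] at *; grind

lemma trap1 {k : G} {B D : Z} (hne : B ≠ D) (h : ∀ z, ¬ cyc D z B → cyc B (k • z) D) :
    k ≠ 1 ∧ cyc B (C.att k) D := by
  have hk : k ≠ 1 := by
    rintro rfl
    have := h B (fun h => (cyc_ne h).2.1 rfl)
    rw [one_smul] at this
    exact (cyc_ne this).1 rfl
  refine ⟨hk, ?_⟩
  rw [← C.att_fix k hk]
  refine h _ fun h1 => ?_
  have key : ∀ x, ¬ cyc D x B → x = C.att k⁻¹ := fun x hx => by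
    by_contra hx'
    obtain ⟨n, hn⟩ := (conv C hk hx' h1).exists
    refine absurd hn ?_
    clear hn
    induction n with
    | zero => simpa using hx
    | succ n ih =>
      rw [pow_succ', mul_smul]
      exact fun h2 => cyc_asymm (h _ ih) h2
  exact hne ((key B fun h => (cyc_ne h).2.1 rfl).trans (key D fun h => (cyc_ne h).1 rfl).symm)

lemma trap {k : G} {B D : Z} (hne : B ≠ D) (h : ∀ z, ¬ cyc D z B → cyc B (k • z) D) :
    k ≠ 1 ∧ cyc B (C.att k) D ∧ cyc D (C.att k⁻¹) B :=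
  ⟨(trap1 C hne h).1, (trap1 C hne h).2, (trap1 C hne.symm fun z hz => by
    by_contra h1
    exact hz (by simpa using h _ h1)).2⟩

lemma pow_eq {x y : G} (hx : x ≠ 1) (hy : y ≠ 1) (h : C.att x = C.att y) :
    ∃ i j : ℕ, 0 < i ∧ 0 < j ∧ x ^ i = y ^ j := by
  obtain ⟨t, ht, e, H⟩ := C.root x hx
  have key : ∀ u : G, u ≠ 1 → C.att u = C.att x → ∃ m : ℕ, 0 < m ∧ u = t ^ m := by
    intro u hu eu
    obtain ⟨m, rfl⟩ := H u (eu ▸ C.att_fix u hu)
    obtain ⟨n, rfl | rfl⟩ := m.eq_nat_or_neg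
    · exact ⟨n, Nat.pos_of_ne_zero (by rintro rfl; simp at hu), by simp⟩
    · have hn : 0 < n := Nat.pos_of_ne_zero (by rintro rfl; simp at hu)
      have := (C.att_pow t⁻¹ n (inv_ne_one.2 ht) hn).2
      simp only [zpow_neg, zpow_natCast, ← inv_pow] at eu
      exact absurd (e.trans (eu.symm.trans this)) (C.att_ne t ht)
  obtain ⟨m, hm, rfl⟩ := key y hy h.symm
  obtain ⟨l, hl, e'⟩ := key x hx rfl
  exact ⟨m, l, hm, hl, by rw [e', ← pow_mul, ← pow_mul, mul_comm]⟩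

lemma att_of_pow {x y : G} (hx : x ≠ 1) (hy : y ≠ 1) {i j : ℕ} (hi : 0 < i) (hj : 0 < j)
    (e : x ^ i = y ^ j) : C.att x = C.att y := by
  rw [← (C.att_pow x i hx hi).2, e, (C.att_pow y j hy hj).2]

lemma att_inv {x y : G} (hx : x ≠ 1) (hy : y ≠ 1) (h : C.att x⁻¹ = C.att y⁻¹) :
    C.att x = C.att y := by
  obtain ⟨i, j, hi, hj, e⟩ := pow_eq C (inv_ne_one.2 hx) (inv_ne_one.2 hy) h
  exact att_of_pow C hx hy hi hj (by simpa using e)

lemma map_ne (α : MulAut G) {x : G} (hx : x ≠ 1) : α x ≠ 1 := by simpa using hx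

lemma att_map (α : MulAut G) {x y : G} (hx : x ≠ 1) (hy : y ≠ 1) :
    C.att (α x) = C.att (α y) ↔ C.att x = C.att y := by
  constructor <;> intro h
  · obtain ⟨i, j, hi, hj, e⟩ := pow_eq C (map_ne α hx) (map_ne α hy) h
    exact att_of_pow C hx hy hi hj (α.injective (by simpa using e))
  · obtain ⟨i, j, hi, hj, e⟩ := pow_eq C hx hy h
    exact att_of_pow C (map_ne α hx) (map_ne α hy) hi hj (by rw [← map_pow, e, map_pow])

lemma exists_sides {g : G} (hg : g ≠ 1) : (∃ h : G, h ≠ 1 ∧ Rt C.att g (C.att h)) ∧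
    ∃ h : G, h ≠ 1 ∧ cyc (C.att g) (C.att h) (C.att g⁻¹) := by
  obtain ⟨h, h1, ⟨h2, h3⟩ | ⟨h2, h3⟩⟩ := C.dense g hg
  · exact ⟨⟨h, h1, h2⟩, h⁻¹, inv_ne_one.2 h1, by simpa only [Rt, inv_inv] using h3⟩
  · exact ⟨⟨h⁻¹, inv_ne_one.2 h1, h2⟩, h, h1, by simpa only [Rt, inv_inv] using h3⟩

lemma between {g : G} (hg : g ≠ 1) {p : Z} (hp : p ≠ C.att g) :
    (∃ u, cyc p u (C.att g)) ∧ ∃ w, cyc (C.att g) w p := by
  obtain ⟨⟨h, -, h1⟩, h', -, h2⟩ := exists_sides C hg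
  obtain ⟨n, hn⟩ := (convR C hg h1 hp).exists
  obtain ⟨m, hm⟩ := (convL C hg h2 hp).exists
  exact ⟨⟨_, hn⟩, _, hm⟩

/-- North-south dynamics of `c ^ n * a⁻¹ ^ n`. -/
lemma ns {a c : G} (ha : a ≠ 1) (hc : c ≠ 1) {B D : Z} (h1 : cyc B (C.att c) D)
    (h2 : cyc D (C.att a) B) : ∀ᶠ n : ℕ in atTop, c ^ n * a⁻¹ ^ n ≠ 1 ∧
      cyc B (C.att (c ^ n * a⁻¹ ^ n)) D ∧ cyc D (C.att (c ^ n * a⁻¹ ^ n)⁻¹) B := by
  have hne : C.att c⁻¹ ≠ C.att a⁻¹ := fun e => by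
    rw [att_inv C hc ha e] at h1
    exact cyc_asymm h1 h2
  obtain ⟨⟨u, hu⟩, w, hw⟩ := between C (inv_ne_one.2 ha) hne
  filter_upwards [convArc C (inv_ne_one.2 ha) (p := u) (q := w) (u := B) (w := D)
    (by simp only [cyc] at hu hw ⊢; grind) (by rwa [inv_inv]),
    convArc C hc (u := u) (w := w) h1 (by simp only [cyc] at hu hw ⊢; grind)] with n h3 h4
  exact trap C (cyc_ne h1).2.2 fun z hz => by
    rw [mul_smul]
    exact h4 _ (cyc_asymm (h3 z hz))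

lemma ns' {a c : G} (ha : a ≠ 1) (hc : c ≠ 1) {B : Z} (h : cyc (C.att a) B (C.att c)) :
    ∀ᶠ n : ℕ in atTop, c ^ n * a⁻¹ ^ n ≠ 1 ∧ Rt C.att (c ^ n * a⁻¹ ^ n) B := by
  obtain ⟨-, D, hD⟩ := between C hc (cyc_ne h).2.2
  filter_upwards [ns C ha hc (B := B) (D := D) (by simp only [cyc] at h hD ⊢; grind)
    (by simp only [cyc] at h hD ⊢; grind)] with n hn
  refine ⟨hn.1, ?_⟩
  obtain ⟨-, h1, h2⟩ := hn
  clear h hD
  simp only [cyc, Rt] at *; grind

lemma generic {g : G} (hg : g ≠ 1) (p q : Z) :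
    ∃ c : G, c ≠ 1 ∧ Rt C.att g (C.att c) ∧ C.att c ≠ p ∧ C.att c ≠ q := by
  obtain ⟨⟨h, h0, h1⟩, -⟩ := exists_sides C hg
  have key : ∀ p : Z, ∀ᶠ n : ℕ in atTop, g ^ n • C.att h ≠ p := fun p => by
    by_cases hp : p = C.att g
    · exact Eventually.of_forall fun n => hp ▸ (cyc_ne (rt_pow C hg h1 n)).2.1
    · exact (convR C hg h1 hp).mono fun n hn => (cyc_ne hn).1.symm
  obtain ⟨n, hn, hn'⟩ := ((key p).and (key q)).exists
  refine ⟨g ^ n * h * (g ^ n)⁻¹, by simpa using h0, ?_⟩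
  rw [C.att_conj h _ h0]
  exact ⟨rt_pow C hg h1 n, hn, hn'⟩

lemma common {g h : G} (hg : g ≠ 1) (hh : h ≠ 1) :
    ∃ k : G, k ≠ 1 ∧ Cross C.att g k ∧ Cross C.att h k := by
  have key : ∀ a c : G, a ≠ 1 → c ≠ 1 → Rt C.att g (C.att c) → Rt C.att g⁻¹ (C.att a) →
      (Rt C.att h (C.att c) ∧ Rt C.att h⁻¹ (C.att a)) ∨
        (Rt C.att h⁻¹ (C.att c) ∧ Rt C.att h (C.att a)) →
      ∃ k : G, k ≠ 1 ∧ Cross C.att g k ∧ Cross C.att h k := by
    intro a c ha hc h1 h2 h3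
    simp only [Rt, inv_inv, Cross] at *
    rcases h3 with h3 | h3
    · obtain ⟨n, e, e'⟩ := ((ns C ha hc h1 h2).and (ns C ha hc h3.1 h3.2)).exists
      exact ⟨_, e.1, Or.inl e.2, Or.inl e'.2⟩
    · obtain ⟨n, e, e'⟩ := ((ns C ha hc h1 h2).and (ns C ha hc h3.1 h3.2)).exists
      exact ⟨_, e.1, Or.inl e.2, Or.inr e'.2.symm⟩
  have side : ∀ x : G, x ≠ 1 → ∀ z, z ≠ C.att x → z ≠ C.att x⁻¹ →
      Rt C.att x z ∨ Rt C.att x⁻¹ z := fun x hx z h1 h2 => by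
    simpa only [Rt, inv_inv] using cyc_total h2.symm h1 (C.att_ne x hx).symm
  obtain ⟨c1, n1, r1, p1, q1⟩ := generic C hg (C.att h) (C.att h⁻¹)
  obtain ⟨c2, n2, r2, p2, q2⟩ := generic C (inv_ne_one.2 hg) (C.att h) (C.att h⁻¹)
  obtain ⟨c3, n3, r3, p3, q3⟩ := generic C hh (C.att g) (C.att g⁻¹)
  obtain ⟨c4, n4, r4, p4, q4⟩ := generic C (inv_ne_one.2 hh) (C.att g) (C.att g⁻¹)
  rcases side h hh _ p1 q1 with s1 | s1 <;> rcases side h hh _ p2 q2 with s2 | s2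
  · rcases side g hg _ p4 q4 with s | s
    · exact key c2 c4 n2 n4 s r2 (Or.inr ⟨r4, s2⟩)
    · exact key c4 c1 n4 n1 r1 s (Or.inl ⟨s1, r4⟩)
  · exact key c2 c1 n2 n1 r1 r2 (Or.inl ⟨s1, s2⟩)
  · exact key c2 c1 n2 n1 r1 r2 (Or.inr ⟨s1, s2⟩)
  · rcases side g hg _ p3 q3 with s | s
    · exact key c2 c3 n2 n3 s r2 (Or.inl ⟨r3, s2⟩)
    · exact key c3 c1 n3 n1 r1 s (Or.inr ⟨s1, r3⟩)

/-- the sides of `g` go to the sides of `g'` -/
def Sd (α : MulAut G) (g g' : G) : Prop := ∀ h : G, h ≠ 1 →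
  (Rt C.att g (C.att h) ↔ Rt C.att g' (C.att (α h))) ∧
    (Rt C.att g⁻¹ (C.att h) ↔ Rt C.att g'⁻¹ (C.att (α h)))

lemma not_opp {α : MulAut G} {g h : G} (hg : g ≠ 1) (hh : h ≠ 1)
    (hc : Cross C.att g h ∨ Cross C.att h g) (h1 : Sd C α g (α g)) (h2 : Sd C α h (α h)⁻¹) :
    False := by
  have a1 := h1 h hh
  have a2 := h1 h⁻¹ (inv_ne_one.2 hh)
  have a3 := h2 g hg
  simp only [Rt, Cross, inv_inv, map_inv] at hc a1 a2 a3
  generalize C.att g = A, C.att g⁻¹ = A', C.att h = B, C.att h⁻¹ = B', C.att (α g) = P,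
    C.att (α g)⁻¹ = P', C.att (α h) = Q, C.att (α h)⁻¹ = Q' at *
  have e1 : (cyc A' B A ∧ cyc A B' A' ∧ cyc B A B') ∨ (cyc A' B' A ∧ cyc A B A' ∧ cyc B' A B) := by
    clear a1 a2 a3
    simp only [cyc] at *; grind
  rcases e1 with ⟨b1, b2, b3⟩ | ⟨b1, b2, b3⟩
  · have c1 := a1.1.1 b1
    have c2 := a2.2.1 b2
    have c3 := a3.2.1 b3
    clear a1 a2 a3 hc b1 b2 b3
    simp only [cyc] at *; grind
  · have c1 := a2.1.1 b1
    have c2 := a1.2.1 b2
    have c3 := a3.1.1 b3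
    clear a1 a2 a3 hc b1 b2 b3
    simp only [cyc] at *; grind

lemma map_k (α : MulAut G) (a c : G) (n : ℕ) :
    α (c ^ n * a⁻¹ ^ n) = (α a ^ n * (α c)⁻¹ ^ n)⁻¹ := by simp

lemma distinct (α : MulAut G) {a b c : G} (ha : a ≠ 1) (hb : b ≠ 1) (hc : c ≠ 1) :
    (cyc (C.att (α a)) (C.att (α b)) (C.att (α c)) ∨
      cyc (C.att (α c)) (C.att (α b)) (C.att (α a))) ↔
    (cyc (C.att a) (C.att b) (C.att c) ∨ cyc (C.att c) (C.att b) (C.att a)) := by
  have key : ∀ x y z : Z, (cyc x y z ∨ cyc z y x) ↔ x ≠ y ∧ y ≠ z ∧ x ≠ z := fun x y z => by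
    simp only [cyc]; grind
  simp only [key, ne_eq, att_map C α ha hb, att_map C α hb hc, att_map C α ha hc]

end A7

open A7 in
theorem blockA7 (_h : StmtA1) : StmtA7 := by
  intro G Z _ _ _ C α hα
  have hS : ∀ g : G, g ≠ 1 → Sd C α g (α g) ∨ Sd C α g (α g)⁻¹ := fun g hg => by
    obtain ⟨g', rfl | rfl, h⟩ := hα g hg
    exacts [Or.inl h, Or.inr h]
  by_cases H : ∀ g : G, g ≠ 1 → Sd C α g (α g)
  · have key : ∀ a b c : G, a ≠ 1 → b ≠ 1 → c ≠ 1 → cyc (C.att a) (C.att b) (C.att c) →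
        ¬ cyc (C.att (α c)) (C.att (α b)) (C.att (α a)) := fun a b c ha hb hc h h' => by
      obtain ⟨n, ⟨k1, h1⟩, -, h2⟩ :=
        ((ns' C ha hc h).and (ns' C (map_ne α hc) (map_ne α ha) h')).exists
      have h3 := (H _ k1 b hb).1.1 h1
      rw [map_k, Rt, inv_inv] at h3
      exact cyc_asymm h2 h3
    refine ⟨true, fun a b c ha hb hc => ⟨fun h => ?_, fun h => ?_⟩⟩
    · exact ((distinct C α ha hb hc).1 (Or.inl h)).resolve_right fun h' => key c b a hc hb ha h' h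
    · exact ((distinct C α ha hb hc).2 (Or.inl h)).resolve_right (key a b c ha hb hc h)
  · push Not at H
    obtain ⟨g₀, hg₀, H⟩ := H
    replace H : ∀ g : G, g ≠ 1 → Sd C α g (α g)⁻¹ := fun g hg => by
      obtain ⟨k, hk, c1, c2⟩ := common C hg₀ hg
      have h1 := (hS k hk).resolve_left fun h =>
        not_opp C hk hg₀ (Or.inr c1) h ((hS g₀ hg₀).resolve_left H)
      exact (hS g hg).resolve_left fun h => not_opp C hg hk (Or.inl c2) h h1
    have key : ∀ a b c : G, a ≠ 1 → b ≠ 1 → c ≠ 1 → cyc (C.att a) (C.att b) (C.att c) →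
        ¬ cyc (C.att (α a)) (C.att (α b)) (C.att (α c)) := fun a b c ha hb hc h h' => by
      obtain ⟨n, ⟨k1, h1⟩, -, h2⟩ :=
        ((ns' C ha hc h).and (ns' C (map_ne α ha) (map_ne α hc) h')).exists
      have h3 := (H _ k1 b hb).1.1 h1
      rw [Rt, inv_inv, map_mul, map_pow, map_pow, map_inv] at h3
      exact cyc_asymm h2 h3
    refine ⟨false, fun a b c ha hb hc => ⟨fun h => ?_, fun h => ?_⟩⟩
    · exact ((distinct C α ha hb hc).1 (Or.inl h)).resolve_left fun h' => key a b c ha hb hc h' h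
    · exact ((distinct C α ha hb hc).2 (Or.inr h)).resolve_right (key c b a hc hb ha h)

end Pool.Agent.Lib.MP_003e01_gt
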