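import Mathlib

/-! Groups acting on a circle: abstract interface (closed surface groups at infinity). -/

namespace Pool.Agent.Lib.MP_003e01_gt

/-- strict cyclic order induced by a linear order -/
def cyc {Z : Type} [LinearOrder Z] (a b c : Z) : Prop :=
  (a < b ∧ b < c) ∨ (b < c ∧ c < a) ∨ (c < a ∧ a < b)

section
variable {G Z : Type} [Group G] [LinearOrder Z]

/-- `z` is strictly on the right of the oriented axis of `g` -/
def Rt (att : G → Z) (g : G) (z : Z) : Prop := cyc (att g⁻¹) z (att g)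

/-- the axes of `g` and `h` cross -/
def Cross (att : G → Z) (g h : G) : Prop :=
  (Rt att g (att h) ∧ Rt att g⁻¹ (att h⁻¹)) ∨ (Rt att g (att h⁻¹) ∧ Rt att g⁻¹ (att h))

/-- the axis of `y` crosses the axis of `x` from left to right -/
def OC (att : G → Z) (x y : G) : Prop := Rt att x (att y) ∧ Rt att x⁻¹ (att y⁻¹)

/-- the axis of `u` has the axis of `a` strictly on its left, the axis of `b` strictly on its right -/
def Sep (att : G → Z) (u a b : G) : Prop :=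
  Rt att u⁻¹ (att a) ∧ Rt att u⁻¹ (att a⁻¹) ∧ Rt att u (att b) ∧ Rt att u (att b⁻¹)
end

/-- A group acting on a circle like a closed hyperbolic surface group; `att g` is the attracting
fixed point. -/
structure CG (G Z : Type) [Group G] [LinearOrder Z] [MulAction G Z] where
  att : G → Z
  smul_cyc : ∀ (g : G) (a b c : Z), cyc (g • a) (g • b) (g • c) ↔ cyc a b c
  att_fix : ∀ g : G, g ≠ 1 → g • att g = att g
  att_ne : ∀ g : G, g ≠ 1 → att g ≠ att g⁻¹
  att_conj : ∀ g h : G, g ≠ 1 → att (h * g * h⁻¹) = h • att g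
  att_pow : ∀ (g : G) (n : ℕ), g ≠ 1 → 0 < n → g ^ n ≠ 1 ∧ att (g ^ n) = att g
  move : ∀ (g : G) (z : Z), g ≠ 1 → Rt att g z → cyc z (g • z) (att g)
  arch : ∀ (g : G) (x y : Z), g ≠ 1 → Rt att g x → Rt att g y →
    ∃ n : ℕ, cyc y (g ^ n • x) (att g)
  root : ∀ g : G, g ≠ 1 → ∃ t : G, t ≠ 1 ∧ att t = att g ∧
    ∀ h : G, h • att g = att g → h ∈ Subgroup.zpowers t
  fin_cross : ∀ a b : G, a ≠ 1 → b ≠ 1 → ∃ T : Finset G, ∀ y : G, IsConj b y → Cross att a y →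
    ∃ (m : ℤ) (τ : G), τ ∈ T ∧ y = a ^ m * τ * (a ^ m)⁻¹
  fin_sep : ∀ a b c : G, a ≠ 1 → b ≠ 1 → c ≠ 1 → {u : G | IsConj c u ∧ Sep att u a b}.Finite
  dense : ∀ g : G, g ≠ 1 → ∃ h : G, h ≠ 1 ∧ Cross att g h

/-- unoriented conjugacy -/
def Same {G : Type} [Group G] (a b : G) : Prop := IsConj a b ∨ IsConj a⁻¹ b

lemma Same.refl {G : Type} [Group G] (a : G) : Same a a := Or.inl (IsConj.refl a)

lemma isConj_inv {G : Type} [Group G] {a b : G} (h : IsConj a b) : IsConj a⁻¹ b⁻¹ := by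
  obtain ⟨c, hc⟩ := isConj_iff.1 h
  exact isConj_iff.2 ⟨c, by rw [← hc]; group⟩

lemma Same.symm {G : Type} [Group G] {a b : G} (h : Same a b) : Same b a := by
  rcases h with h | h
  · exact Or.inl h.symm
  · exact Or.inr (by simpa using (isConj_inv h).symm)

lemma Same.trans {G : Type} [Group G] {a b c : G} (h : Same a b) (h' : Same b c) : Same a c := by
  rcases h with h | h <;> rcases h' with h' | h'
  · exact Or.inl (h.trans h')
  · exact Or.inr ((isConj_inv h).trans h')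
  · exact Or.inr (h.trans h')
  · exact Or.inl (IsConj.trans (by simpa using isConj_inv h) h')

namespace CG

variable {G Z : Type} [Group G] [LinearOrder Z] [MulAction G Z] (C : CG G Z)

/-- primitive element: generates the stabiliser of its axis -/
def Prim (t : G) : Prop := t ≠ 1 ∧ ∀ h : G, h • C.att t = C.att t → h ∈ Subgroup.zpowers t

/-- the closed curves `a`, `b` intersect -/
def Meets (a b : G) : Prop := ∃ x y : G, Same a x ∧ Same b y ∧ Cross C.att x y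

/-- `α` preserves (`ε = true`) or reverses (`ε = false`) the cyclic order at infinity -/
def Pres (α : MulAut G) (ε : Bool) : Prop :=
  ∀ a b c : G, a ≠ 1 → b ≠ 1 → c ≠ 1 →
    (cyc (C.att (α a)) (C.att (α b)) (C.att (α c)) ↔
      if ε then cyc (C.att a) (C.att b) (C.att c) else cyc (C.att c) (C.att b) (C.att a))

/-- `z` lies in the closure of the complementary region (of all lifts of `a`) adjacent to the
lift `t` on its left -/
def AdjPt (a t : G) (z : Z) : Prop :=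
  ¬ Rt C.att t z ∧ ∀ u : G, Same a u → Rt C.att u⁻¹ (C.att t) → ¬ Rt C.att u z

/-- the axis of `b` lies in the closed region adjacent to the lift `t` of `a` on its left -/
def Adj (a t b : G) : Prop := b ≠ 1 ∧ C.AdjPt a t (C.att b) ∧ C.AdjPt a t (C.att b⁻¹)

/-- `α` is the `k`-th power of the Dehn twist about `a`, up to inner automorphisms -/
def IsTwist (a : G) (k : ℤ) (α : MulAut G) : Prop :=
  (∃ ε, C.Pres α ε) ∧ ∀ t : G, Same a t → ∃ γ : G,
    (∀ b : G, C.Adj a t b → γ * α b * γ⁻¹ = b) ∧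
    (∀ b : G, C.Adj a t⁻¹ b → γ * α b * γ⁻¹ = t ^ k * b * (t ^ k)⁻¹)

/-- simple and primitive -/
def SP (a : G) : Prop := C.Prim a ∧ ¬ C.Meets a a

/-- on the right arc of `x`: `x ^ h • p ≤ q < x ^ (h + 1) • p` -/
def HtR (x : G) (p q : Z) (h : ℤ) : Prop :=
  ¬ cyc q (x ^ h • p) (C.att x) ∧ cyc q (x ^ (h + 1) • p) (C.att x)

/-- on the left arc of `x`: `x ^ h • p ≤ q < x ^ (h + 1) • p` -/
def HtL (x : G) (p q : Z) (h : ℤ) : Prop :=
  ¬ cyc (C.att x) (x ^ h • p) q ∧ cyc (C.att x) (x ^ (h + 1) • p) q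

/-- `m` is the twisting of the line `z` relative to the line `y` along the line `x` -/
def TwL (x y z : G) (m : ℤ) : Prop :=
  OC C.att x y ∧ OC C.att x z ∧ ∃ h h' : ℤ, m = h - h' ∧
    C.HtR x (C.att y) (C.att z) h ∧ C.HtL x (C.att y⁻¹) (C.att z⁻¹) h'

/-- `m` is a value of the twisting of the curve `c` relative to the curve `b` about the curve `a` -/
def Tw (a b c : G) (m : ℤ) : Prop :=
  ∃ x y z : G, Same a x ∧ Same b y ∧ Same c z ∧ C.TwL x y z m

/-- `α` maps the two sides of every axis to the two sides of the image axis -/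
def SidePres (α : MulAut G) : Prop :=
  ∀ g : G, g ≠ 1 → ∃ g' : G, (g' = α g ∨ g' = (α g)⁻¹) ∧ ∀ h : G, h ≠ 1 →
    (Rt C.att g (C.att h) ↔ Rt C.att g' (C.att (α h))) ∧
    (Rt C.att g⁻¹ (C.att h) ↔ Rt C.att g'⁻¹ (C.att (α h)))

/-- no power of `α` fixes a simple closed curve -/
def Aper (α : MulAut G) : Prop :=
  ∀ (k : ℕ) (c : G), 0 < k → c ≠ 1 → ¬ C.Meets c c → ¬ Same ((α ^ k) c) c

end CG

def Inner {G : Type} [Group G] (α : MulAut G) : Prop := ∃ γ : G, ∀ g, α g = γ * g * γ⁻¹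

def PresN {G : Type} [Group G] (N : Subgroup G) (α : MulAut G) : Prop := ∀ g, α g ∈ N ↔ g ∈ N

/-- `u` is a lift of one of the six curves -/
def Lift {G : Type} [Group G] (s e : Fin 3 → G) (u : G) : Prop :=
  ∃ i, Same (s i) u ∨ Same (e i) u

/-- types of the lifts of the `e i` met along `s 0` -/
def patT (i : ℤ) : Fin 3 := (![1, 2, 1, 2, 2, 1, 1, 2, 1, 2] : Fin 10 → Fin 3) ⟨(i % 10).toNat, by omega⟩

section
variable {G Z : Type} [Group G] [LinearOrder Z] [MulAction G Z] (C : CG G Z)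
  (s e : Fin 3 → G) (N : Subgroup G)

/-- the crossing graph of all lifts is connected -/
def Conn : Prop := ∀ u v : G, Lift s e u → Lift s e v →
  Relation.ReflTransGen (fun x y => Lift s e x ∧ Lift s e y ∧ Cross C.att x y) u v

/-- the lifts of the `e i` crossing `s 0`, in order -/
def Pat : Prop := ∃ y : ℤ → G, (∀ i, OC C.att (s 0) (y i)) ∧ (∀ i, Same (e (patT i)) (y i)) ∧
  (∀ i, y (i + 10) = s 0 * y i * (s 0)⁻¹) ∧ (∀ i, Rt C.att (y i)⁻¹ (C.att (y (i + 1)))) ∧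
  ∀ (k : Fin 3) (y' : G), Same (e k) y' → OC C.att (s 0) y' → ∃ i, y' = y i

/-- waves: a nontrivial element of `N` has a lift crossing a lift `x` of `s i` or `s j` and not
crossing any `x`-translate of some lift `m` (crossing `x`) of one of finitely many curves -/
def Wave : Prop := ∃ R : Finset G, ∀ i j, i ≠ j → ∀ d ∈ N, d ≠ 1 →
  ∃ x y m r : G, (Same (s i) x ∨ Same (s j) x) ∧ Same d y ∧ r ∈ R ∧ Same r m ∧
    Cross C.att x y ∧ Cross C.att x m ∧ ∀ l : ℤ, ¬ Cross C.att y (x ^ l * m * (x ^ l)⁻¹)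

def Rigid : Prop := ∀ α : MulAut G, C.Pres α true → (∀ i, Same (α (s i)) (s i)) →
  (∀ i, Same (α (e i)) (e i)) → Inner α

def Fill : Prop := ∀ c : G, c ≠ 1 → ∃ i, C.Meets c (s i) ∨ C.Meets c (e i)

/-- The intersection pattern of the six curves and the kernel of the handlebody. -/
structure Config0 : Prop where
  normal : N.Normal
  prim_s : ∀ i, C.Prim (s i)
  prim_e : ∀ i, C.Prim (e i)
  disj_ss : ∀ i j, ¬ C.Meets (s i) (s j)
  disj_ee : ∀ i j, ¬ C.Meets (e i) (e j)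
  disj_se : ∀ i, ¬ C.Meets (s i) (e i)
  meets : ∀ i j, i ≠ j → C.Meets (s i) (e j)
  e_mem : ∀ i, e i ∈ N

structure Config : Prop extends Config0 C s e N where
  wave : Wave C s N
  rigid : Rigid C s e
  fill : Fill C s e

end

/-- the gluing word -/
def glueW {Γ : Type} [Group Γ] (Ψ Τ : Fin 3 → Γ) : Γ := Ψ 0 * Ψ 1 * (Τ 0)⁻¹ * Ψ 2

/-- the pseudo-Anosov word -/
def paW {Γ : Type} [Group Γ] (Ψ Τ : Fin 3 → Γ) : Γ :=
  ((Ψ 2)⁻¹ * (Τ 0 * (Τ 1)⁻¹) * Ψ 2) * ((Ψ 1)⁻¹ * (Τ 2 * (Τ 0)⁻¹) * Ψ 1) *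
    ((Ψ 0)⁻¹ * (Τ 1 * (Τ 2)⁻¹) * Ψ 0)

/-- the two pushes around the disc `i` -/
def pushW {Γ : Type} [Group Γ] (Ψ Τ : Fin 3 → Γ) (i : Fin 3) : Γ :=
  (Ψ i)⁻¹ * (Τ (i + 1) * (Τ (i + 2))⁻¹) * Ψ i

def pushW' {Γ : Type} [Group Γ] (Ψ Τ : Fin 3 → Γ) (i : Fin 3) : Γ :=
  Ψ i * (Τ (i + 1) * (Τ (i + 2))⁻¹) * (Ψ i)⁻¹

/-- Annular projections: `M a b` means that the curves meet, `d a b c` is the signed twisting of
`c` relative to `b` about `a`. -/
structure AP (Γ Cv : Type) [Group Γ] [MulAction Γ Cv] where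
  M : Cv → Cv → Prop
  d : Cv → Cv → Cv → ℤ
  sg : Γ →* ℤˣ
  K : ℤ
  symm : ∀ a b, M a b → M b a
  irrefl : ∀ a, ¬ M a a
  M_smul : ∀ (γ : Γ) a b, M (γ • a) (γ • b) ↔ M a b
  d_smul : ∀ (γ : Γ) a b c, M a b → M a c →
    |d (γ • a) (γ • b) (γ • c) - (sg γ : ℤ) * d a b c| ≤ K
  coc : ∀ a b c e, M a b → M a c → M a e → |d a b c + d a c e - d a b e| ≤ K
  disj : ∀ a b c, M a b → M a c → ¬ M b c → |d a b c| ≤ K
  behr : ∀ a b c, M a b → M a c → M b c → K < |d a b c| → |d b a c| ≤ K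
  fin : ∀ b c, {a | M a b ∧ M a c ∧ K < |d a b c|}.Finite

namespace AP

variable {Γ Cv : Type} [Group Γ] [MulAction Γ Cv] (P : AP Γ Cv)

/-- `T` behaves like the `k`-th power of the twist about `a` -/
structure Tw (a : Cv) (k : ℤ) (T : Γ) : Prop where
  sg : P.sg T = 1
  fix : ∀ c, ¬ P.M a c → T • c = c
  bare : ∀ b c, ¬ P.M a b → b ≠ a → P.M b c → |P.d b c (T • c)| ≤ P.K
  shift : ∀ c, P.M a c → |P.d a c (T • c) - k| ≤ P.K
  nat : ∀ β : Γ, P.sg β = 1 → β • a = a → ∀ c : Cv, β • T • c = T • β • c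

structure Conf (s e : Fin 3 → Cv) (D : Set Cv) : Prop where
  disj_ss : ∀ i j, ¬ P.M (s i) (s j)
  disj_ee : ∀ i j, ¬ P.M (e i) (e j)
  disj_se : ∀ i, ¬ P.M (s i) (e i)
  meets : ∀ i j, i ≠ j → P.M (s i) (e j)
  e_mem : ∀ i, e i ∈ D
  wave : ∃ B : ℤ, ∀ i j, i ≠ j → ∀ x ∈ D,
    (P.M (s i) x ∧ |P.d (s i) x (e j)| ≤ B) ∨ (P.M (s j) x ∧ |P.d (s j) x (e i)| ≤ B)
  fill : ∀ c, ∃ i, P.M c (s i) ∨ P.M c (e i)

end AP

def PresD {Γ Cv : Type} [Group Γ] [MulAction Γ Cv] (D : Set Cv) (γ : Γ) : Prop :=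
  ∀ c, γ • c ∈ D ↔ c ∈ D

def AperC (Cv : Type) {Γ : Type} [Group Γ] [MulAction Γ Cv] (γ : Γ) : Prop :=
  ∀ k : ℕ, 0 < k → ∀ c : Cv, γ ^ k • c ≠ c

/-! basic facts on the cyclic order -/
section
variable {Z : Type} [LinearOrder Z] {a b c d : Z}

lemma cyc_rot : cyc a b c ↔ cyc b c a := by simp only [cyc]; grind
lemma cyc_asymm (h : cyc a b c) : ¬ cyc c b a := by simp only [cyc] at *; grind
lemma cyc_ne (h : cyc a b c) : a ≠ b ∧ b ≠ c ∧ a ≠ c := by simp only [cyc] at *; grind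
lemma cyc_total (h1 : a ≠ b) (h2 : b ≠ c) (h3 : a ≠ c) : cyc a b c ∨ cyc c b a := by
  simp only [cyc] at *; grind
lemma cyc_trans (h1 : cyc a b c) (h2 : cyc a c d) : cyc a b d ∧ cyc b c d := by
  simp only [cyc] at *; grind
end

end Pool.Agent.Lib.MP_003e01_gt
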