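import Pool.Agent.Lib.MP_003e01_gt.Blue

/-! Block Ax: axes of the elements of the surface group. -/

open Set Topology

namespace Pool.Agent.Lib.MP_003e01_gt

namespace Ax

lemma eq_zero_of {u v w x : V} (hd : det3 u v w ≠ 0) (h1 : lor x u = 0) (h2 : lor x v = 0)
    (h3 : lor x w = 0) : x = 0 := by
  simp only [lor] at h1 h2 h3
  ext k
  apply mul_left_cancel₀ hd
  fin_cases k <;> simp only [det3, Fin.zero_eta, Fin.mk_one, Fin.reduceFinMk, Pi.zero_apply]
  · linear_combination (v 1 * w 2 - v 2 * w 1) * h1 + (w 1 * u 2 - w 2 * u 1) * h2 +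
      (u 1 * v 2 - u 2 * v 1) * h3
  · linear_combination (v 2 * w 0 - v 0 * w 2) * h1 + (w 2 * u 0 - w 0 * u 2) * h2 +
      (u 2 * v 0 - u 0 * v 2) * h3
  · linear_combination -(v 0 * w 1 - v 1 * w 0) * h1 - (w 0 * u 1 - w 1 * u 0) * h2 -
      (u 0 * v 1 - u 1 * v 0) * h3

section
variable (a : Axis)

lemma hηξ : lor a.η a.ξ = -1 := by rw [lor_comm]; exact a.hξη
lemma hξn : lor a.ξ a.n = 0 := by rw [lor_comm]; exact a.hnξ
lemma hηn : lor a.η a.n = 0 := by rw [lor_comm]; exact a.hnη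

lemma expand (x : V) : x = (-lor x a.η) • a.ξ + (-lor x a.ξ) • a.η + lor x a.n • a.n := by
  rw [← sub_eq_zero]
  refine eq_zero_of a.orient.ne' ?_ ?_ ?_ <;>
    simp only [lor_sub_left, lor_add_left, lor_smul_left, a.hξ.1, a.hη.1, a.hξη, a.hn, a.hnξ,
      a.hnη, hηξ, hξn, hηn] <;> ring

lemma eq_smul_n {x : V} (h1 : lor x a.ξ = 0) (h2 : lor x a.η = 0) : x = lor x a.n • a.n := by
  conv_lhs => rw [expand a x, h1, h2]
  simp

lemma flow_eq (τ : ℝ) (x : V) : a.flow τ x = (Real.exp (τ * a.L) * -lor x a.η) • a.ξ +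
    (Real.exp (-(τ * a.L)) * -lor x a.ξ) • a.η + lor x a.n • a.n := by
  conv_lhs => rw [expand a (a.flow τ x)]
  rw [a.lor_flow_ξ, a.lor_flow_η, a.lor_flow_n, mul_neg, mul_neg]

lemma flow_ξ (τ : ℝ) : a.flow τ a.ξ = Real.exp (τ * a.L) • a.ξ := by
  rw [flow_eq, a.hξ.1, a.hξη, hξn]; simp

lemma flow_η (τ : ℝ) : a.flow τ a.η = Real.exp (-(τ * a.L)) • a.η := by
  rw [flow_eq, a.hη.1, hηξ, hηn]; simp

lemma flow_n (τ : ℝ) : a.flow τ a.n = a.n := by
  rw [flow_eq, a.hn, a.hnξ, a.hnη]; simp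

lemma one_lt_exp : 1 < Real.exp (1 * a.L) := Real.one_lt_exp_iff.2 (by simpa using a.hL)

lemma exp_lt_one : Real.exp (-(1 * a.L)) < 1 := Real.exp_lt_one_iff.2 (by simpa using a.hL)

lemma lor_self (x : V) : lor x x = -2 * (lor x a.η * lor x a.ξ) + lor x a.n ^ 2 := by
  conv_lhs => enter [1]; rw [expand a x]
  simp only [lor_add_left, lor_smul_left, lor_comm a.ξ x, lor_comm a.η x, lor_comm a.n x]
  ring

/-- the reversed axis -/
def rev : Axis where
  ξ := a.η
  η := a.ξ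
  n := -a.n
  L := a.L
  hξ := a.hη
  hη := a.hξ
  hξη := hηξ a
  hn := by rw [lor_neg_left, lor_neg_right, neg_neg, a.hn]
  hnξ := by rw [lor_neg_left, a.hnη, neg_zero]
  hnη := by rw [lor_neg_left, a.hnξ, neg_zero]
  orient := by
    have := a.orient
    simp only [det3, Pi.neg_apply] at this ⊢
    linarith
  hL := a.hL

lemma rev_flow (τ : ℝ) (x : V) : (rev a).flow τ x = a.flow (-τ) x := by
  simp only [Axis.flow, rev, neg_mul, neg_neg]
  abel

lemma inv_smul {g : W} (h : a.For g) (x : V) : g⁻¹ • x = a.flow (-1) x := by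
  rw [inv_smul_eq_iff, h, ← a.flow_add, add_neg_cancel, a.flow_zero]

lemma zpow {g : W} (h : a.For g) (m : ℤ) (x : V) : g ^ m • x = a.flow m x := by
  induction m using Int.induction_on generalizing x with
  | zero => simp [a.flow_zero]
  | succ m ih =>
    rw [zpow_add_one, mul_smul, ih, h, ← a.flow_add]
    push_cast
    rfl
  | pred m ih =>
    rw [zpow_sub_one, mul_smul, ih, inv_smul a h, ← a.flow_add]
    push_cast
    rfl

lemma det_n (x y : V) (c : ℝ) : det3 x (c • a.n) y = c * ((lor x a.ξ * lor y a.η -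
    lor x a.η * lor y a.ξ) * det3 a.η a.n a.ξ) := by
  conv_lhs => rw [expand a x, expand a y]
  simp only [det3, Pi.add_apply, Pi.smul_apply, smul_eq_mul]
  ring

lemma opole {g : W} (n : V) (h : a.For g) : OPole g n ↔ ∃ c : ℝ, 0 < c ∧ n = c • a.n := by
  have h1 := one_lt_exp a
  have h2 := exp_lt_one a
  have key : ∀ c : ℝ, 0 < det3 x0.1 (c • a.n) (g • x0.1) ↔ 0 < c := by
    intro c
    rw [det_n, h, a.lor_flow_ξ, a.lor_flow_η]
    refine mul_pos_iff_of_pos_right (mul_pos ?_ a.orient)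
    have := mul_pos_of_neg_of_neg (lor_null_neg x0 a.hξ) (lor_null_neg x0 a.hη)
    nlinarith
  constructor
  · rintro ⟨e, hd⟩
    have e1 := a.lor_flow_ξ 1 n
    have e2 := a.lor_flow_η 1 n
    rw [← h, e] at e1 e2
    have e3 := eq_smul_n a (x := n)
      (by
        have : (1 - Real.exp (-(1 * a.L))) * lor n a.ξ = 0 := by linarith
        exact (mul_eq_zero.1 this).resolve_left (by linarith))
      (by
        have : (1 - Real.exp (1 * a.L)) * lor n a.η = 0 := by linarith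
        exact (mul_eq_zero.1 this).resolve_left (by linarith))
    exact ⟨_, (key _).1 (e3 ▸ hd), e3⟩
  · rintro ⟨c, hc, rfl⟩
    exact ⟨by rw [smul_smul_V, h, flow_n], (key c).2 hc⟩

lemma uniq_ξ {g : W} {a b : Axis} (ha : a.For g) (hb : b.For g) :
    a.L = b.L ∧ ∃ c : ℝ, 0 < c ∧ b.ξ = c • a.ξ := by
  have e : a.flow 1 b.ξ = Real.exp (1 * b.L) • b.ξ := by rw [← ha, hb, flow_ξ]
  have h1 := one_lt_exp b
  have h2 := exp_lt_one a
  have e1 := a.lor_flow_ξ 1 b.ξ
  have e2 := a.lor_flow_η 1 b.ξ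
  have e3 := a.lor_flow_n 1 b.ξ
  rw [e, lor_smul_left] at e1 e2 e3
  have f1 : lor b.ξ a.ξ = 0 := by
    have : (Real.exp (1 * b.L) - Real.exp (-(1 * a.L))) * lor b.ξ a.ξ = 0 := by linarith
    exact (mul_eq_zero.1 this).resolve_left (by linarith)
  have f3 : lor b.ξ a.n = 0 := by
    have : (Real.exp (1 * b.L) - 1) * lor b.ξ a.n = 0 := by linarith
    exact (mul_eq_zero.1 this).resolve_left (by linarith)
  have f : b.ξ = (-lor b.ξ a.η) • a.ξ := by
    conv_lhs => rw [expand a b.ξ, f1, f3]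
    simp
  have hc : 0 < -lor b.ξ a.η := by
    have := b.hξ.2
    rw [f, Pi.smul_apply, smul_eq_mul] at this
    exact (mul_pos_iff_of_pos_right a.hξ.2).1 this
  refine ⟨?_, _, hc, f⟩
  have := Real.exp_injective (mul_right_cancel₀ (by linarith : lor b.ξ a.η ≠ 0) e2)
  linarith

lemma rev_for {g : W} (h : a.For g) : (rev a).For g⁻¹ := fun x => by
  rw [rev_flow, inv_smul a h]

lemma uniq {g : W} {a b : Axis} (ha : a.For g) (hb : b.For g) :
    a.n = b.n ∧ a.L = b.L ∧ (∀ τ x, a.flow τ x = b.flow τ x) ∧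
      ∃ c : ℝ, 0 < c ∧ b.ξ = c • a.ξ ∧ b.η = c⁻¹ • a.η := by
  obtain ⟨hL, c, hc, e1⟩ := uniq_ξ ha hb
  obtain ⟨-, c', hc', e2⟩ := uniq_ξ (rev_for a ha) (rev_for b hb)
  change b.η = c' • a.η at e2
  have hcc : c * c' = 1 := by
    have := b.hξη
    rw [e1, e2, lor_smul_left, lor_smul_right, a.hξη] at this
    linarith
  have hc2 : c' = c⁻¹ := eq_inv_of_mul_eq_one_right hcc
  have e3 : b.n = lor b.n a.n • a.n := by
    refine eq_smul_n a ?_ ?_
    · have := b.hnξ
      rw [e1, lor_smul_right] at this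
      exact (mul_eq_zero.1 this).resolve_left hc.ne'
    · have := b.hnη
      rw [e2, lor_smul_right] at this
      exact (mul_eq_zero.1 this).resolve_left hc'.ne'
  have t1 : lor b.n a.n * lor b.n a.n = 1 := by
    have := b.hn
    rw [e3, lor_smul_left, lor_smul_right, a.hn, mul_one] at this
    exact this
  have t2 : 0 < lor b.n a.n := by
    have := b.orient
    rw [e3, det_n, e1, e2] at this
    simp only [lor_smul_left, a.hξη, hηξ, a.hξ.1, a.hη.1] at this
    refine (mul_pos_iff_of_pos_right (mul_pos ?_ a.orient)).1 this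
    nlinarith
  have t3 : lor b.n a.n = 1 := by nlinarith
  refine ⟨by rw [e3, t3, one_smul], hL, fun τ x => ?_, c, hc, e1, hc2 ▸ e2⟩
  simp only [Axis.flow, e1, e2, lor_smul_right, smul_smul, hL]
  congr 2
  · congr 1
    linear_combination -((Real.exp (τ * b.L) - 1) * lor x a.η) * hcc
  · linear_combination -((Real.exp (-(τ * b.L)) - 1) * lor x a.ξ) * hcc

lemma null_smul (w : W) {x : V} (h : Null x) : Null (w • x) :=
  ⟨by rw [lor_smul]; exact h.1, smul_future w h.1.le h.2⟩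

lemma conj (h : StmtB1) (g w : W) (ha : a.For g) : ∃ b : Axis, b.For (w * g * w⁻¹) ∧
    b.ξ = w • a.ξ ∧ b.η = w • a.η ∧ b.n = (chB w * chR w) • w • a.n ∧ b.L = a.L := by
  have hχ : (chB w * chR w) * (chB w * chR w) = 1 := by
    rcases h.ch w with ⟨h1 | h1, h2 | h2⟩ <;> rw [h1, h2] <;> norm_num
  refine ⟨⟨w • a.ξ, w • a.η, (chB w * chR w) • w • a.n, a.L, null_smul w a.hξ, null_smul w a.hη,
    by rw [lor_smul, a.hξη], ?_, ?_, ?_, ?_, a.hL⟩, fun x => ?_, rfl, rfl, rfl, rfl⟩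
  · rw [lor_smul_left, lor_smul_right, lor_smul, a.hn, mul_one, hχ]
  · rw [lor_smul_left, lor_smul, a.hnξ, mul_zero]
  · rw [lor_smul_left, lor_smul, a.hnη, mul_zero]
  · have e : det3 (w • a.η) ((chB w * chR w) • w • a.n) (w • a.ξ) =
        (chB w * chR w) * det3 (w • a.η) (w • a.n) (w • a.ξ) := by
      simp only [det3, Pi.smul_apply (chB w * chR w), smul_eq_mul]
      ring
    rw [e, h.det, ← mul_assoc, hχ, one_mul]
    exact a.orient
  · have e : ∀ y, lor (w⁻¹ • x) y = lor x (w • y) := fun y => by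
      rw [← lor_smul w, smul_inv_smul]
    rw [mul_smul, mul_smul, ha]
    simp only [Axis.flow, smul_sub_V, smul_smul_V, smul_inv_smul, e]

lemma pow {g : W} (m : ℕ) (h : a.For g) (hm : 0 < m) : ∃ b : Axis, b.For (g ^ m) ∧
    b.ξ = a.ξ ∧ b.η = a.η ∧ b.n = a.n ∧ b.L = m * a.L := by
  refine ⟨{ a with L := m * a.L, hL := mul_pos (Nat.cast_pos.2 hm) a.hL }, fun x => ?_,
    rfl, rfl, rfl, rfl⟩
  rw [← zpow_natCast, zpow a h]
  simp [Axis.flow]

/-- the Fermi parametrisation -/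
noncomputable def fv (q : ℝ × ℝ) : V :=
  √((1 + q.2 ^ 2) / 2) • (Real.exp (q.1 * a.L) • a.ξ + Real.exp (-(q.1 * a.L)) • a.η) + q.2 • a.n

lemma fv_ξ (q : ℝ × ℝ) : lor (fv a q) a.ξ = -(√((1 + q.2 ^ 2) / 2) * Real.exp (-(q.1 * a.L))) := by
  simp only [fv, lor_add_left, lor_smul_left, a.hξ.1, hηξ, a.hnξ]
  ring

lemma fv_η (q : ℝ × ℝ) : lor (fv a q) a.η = -(√((1 + q.2 ^ 2) / 2) * Real.exp (q.1 * a.L)) := by
  simp only [fv, lor_add_left, lor_smul_left, a.hη.1, a.hξη, a.hnη]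
  ring

lemma fv_n (q : ℝ × ℝ) : lor (fv a q) a.n = q.2 := by
  simp only [fv, lor_add_left, lor_smul_left, hξn, hηn, a.hn]
  ring

lemma sq_pos (ν : ℝ) : 0 < √((1 + ν ^ 2) / 2) := by positivity

lemma fv_lor (q : ℝ × ℝ) : lor (fv a q) (fv a q) = -1 := by
  have h1 : Real.exp (q.1 * a.L) * Real.exp (-(q.1 * a.L)) = 1 := by rw [← Real.exp_add]; simp
  have h2 : √((1 + q.2 ^ 2) / 2) * √((1 + q.2 ^ 2) / 2) = (1 + q.2 ^ 2) / 2 :=
    Real.mul_self_sqrt (by positivity)
  rw [lor_self a, fv_ξ, fv_η, fv_n]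
  linear_combination (-2 * √((1 + q.2 ^ 2) / 2) * √((1 + q.2 ^ 2) / 2)) * h1 - 2 * h2

noncomputable def fx (q : ℝ × ℝ) : X :=
  ⟨fv a q, fv_lor a q, future_of_lor a.hξ.1.le a.hξ.2 (by rw [fv_lor]; norm_num) (by
    rw [lor_comm, fv_ξ]
    exact neg_neg_of_pos (mul_pos (sq_pos _) (Real.exp_pos _)))⟩

noncomputable def fi (z : X) : ℝ × ℝ :=
  ((Real.log (-lor z.1 a.η) - Real.log (-lor z.1 a.ξ)) / (2 * a.L), lor z.1 a.n)

lemma fi_fx (q : ℝ × ℝ) : fi a (fx a q) = q := by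
  have hL := a.hL.ne'
  refine Prod.ext ?_ (fv_n a q)
  show (Real.log (-lor (fv a q) a.η) - Real.log (-lor (fv a q) a.ξ)) / (2 * a.L) = q.1
  rw [fv_ξ, fv_η, neg_neg, neg_neg, Real.log_mul (sq_pos _).ne' (Real.exp_pos _).ne',
    Real.log_mul (sq_pos _).ne' (Real.exp_pos _).ne', Real.log_exp, Real.log_exp]
  field_simp
  ring

lemma fx_fi (z : X) : fx a (fi a z) = z := by
  have hL := a.hL.ne'
  have h1 : 0 < -lor z.1 a.η := neg_pos.2 (lor_null_neg z a.hη)
  have h2 : 0 < -lor z.1 a.ξ := neg_pos.2 (lor_null_neg z a.hξ)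
  have h3 := lor_self a z.1
  rw [z.2.1] at h3
  have h4 : √((1 + lor z.1 a.n ^ 2) / 2) =
      Real.exp ((Real.log (-lor z.1 a.η) + Real.log (-lor z.1 a.ξ)) / 2) := by
    rw [Real.sqrt_eq_iff_mul_self_eq_of_pos (Real.exp_pos _), ← Real.exp_add, add_halves,
      Real.exp_add, Real.exp_log h1, Real.exp_log h2]
    linarith
  refine Subtype.ext ?_
  show fv a (fi a z) = z.1
  conv_rhs => rw [expand a z.1]
  simp only [fv, fi, h4, smul_add, smul_smul, ← Real.exp_add]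
  congr 3
  · conv_rhs => rw [← Real.exp_log h1]
    congr 1
    field_simp
    ring
  · conv_rhs => rw [← Real.exp_log h2]
    congr 1
    field_simp
    ring

lemma fermi : ∃ e : ℝ × ℝ ≃ₜ X, Fermi a e ∧ ∀ τ ν : ℝ, (e (τ, ν)).1 =
    √((1 + ν ^ 2) / 2) • (Real.exp (τ * a.L) • a.ξ + Real.exp (-(τ * a.L)) • a.η) + ν • a.n := by
  refine ⟨⟨⟨fx a, fi a, fi_fx a, fx_fi a⟩, ?_, ?_⟩, ⟨fv_n a, fun τ q => Subtype.ext ?_⟩,
    fun _ _ => rfl⟩
  · refine Continuous.subtype_mk ?_ _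
    unfold fv
    fun_prop
  · refine Continuous.prodMk (Continuous.div_const (Continuous.sub ?_ ?_) _) (continuous_lor_left _)
    · exact (continuous_lor_left _).neg.log fun z => (neg_pos.2 (lor_null_neg z a.hη)).ne'
    · exact (continuous_lor_left _).neg.log fun z => (neg_pos.2 (lor_null_neg z a.hξ)).ne'
  · show a.flow τ (fv a q) = fv a (q.1 + τ, q.2)
    rw [flow_eq, fv_ξ, fv_η, fv_n]
    simp only [fv, add_mul, neg_add, Real.exp_add]
    module

lemma for_of (h : StmtB1) {g : W} (hg : chB g * chR g = 1) (h1 : g • a.ξ = Real.exp a.L • a.ξ)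
    (h2 : g • a.η = Real.exp (-a.L) • a.η) : a.For g := by
  have e : g • a.n = lor (g • a.n) a.n • a.n := by
    refine eq_smul_n a ?_ ?_
    · have := lor_smul g a.n a.ξ
      rw [h1, lor_smul_right, a.hnξ] at this
      exact (mul_eq_zero.1 this).resolve_left (Real.exp_pos _).ne'
    · have := lor_smul g a.n a.η
      rw [h2, lor_smul_right, a.hnη] at this
      exact (mul_eq_zero.1 this).resolve_left (Real.exp_pos _).ne'
  have t : lor (g • a.n) a.n = 1 := by
    have := h.det g a.η a.n a.ξ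
    rw [hg, one_mul, e, det_n, h1, h2] at this
    simp only [lor_smul_left, a.hξη, hηξ, a.hξ.1, a.hη.1] at this
    have h3 : Real.exp (-a.L) * Real.exp a.L = 1 := by rw [← Real.exp_add]; simp
    apply mul_right_cancel₀ a.orient.ne'
    linear_combination this - (lor (g • a.n) a.n * det3 a.η a.n a.ξ) * h3
  rw [t, one_smul] at e
  intro x
  conv_lhs => rw [expand a x]
  rw [flow_eq]
  simp only [smul_add_V, smul_smul_V, h1, h2, e, smul_smul, one_mul]
  module

end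

lemma height_le (z y : X) : y.1 2 ≤ 2 * z.1 2 * -lor z.1 y.1 := by
  obtain ⟨h1, h2⟩ := z.2
  obtain ⟨h3, h4⟩ := y.2
  simp only [lor] at h1 h3 ⊢
  by_contra hc
  push Not at hc
  have a1 : 1 ≤ z.1 2 * z.1 2 := by nlinarith [mul_self_nonneg (z.1 0), mul_self_nonneg (z.1 1)]
  have a2 : y.1 2 * (2 * (z.1 2 * z.1 2) - 1) < 2 * z.1 2 * (z.1 0 * y.1 0 + z.1 1 * y.1 1) := by
    linarith
  have a3 := pow_lt_pow_left₀ a2 (mul_nonneg h4.le (by linarith)) two_ne_zero
  have a4 : (z.1 0 * y.1 0 + z.1 1 * y.1 1) ^ 2 ≤ (z.1 2 * z.1 2 - 1) * (y.1 2 * y.1 2 - 1) := by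
    have e1 : z.1 2 * z.1 2 - 1 = z.1 0 * z.1 0 + z.1 1 * z.1 1 := by linarith
    have e2 : y.1 2 * y.1 2 - 1 = y.1 0 * y.1 0 + y.1 1 * y.1 1 := by linarith
    rw [e1, e2]
    nlinarith [sq_nonneg (z.1 0 * y.1 1 - z.1 1 * y.1 0)]
  have a5 := mul_le_mul_of_nonneg_left a4 (by positivity : 0 ≤ 4 * (z.1 2 * z.1 2))
  nlinarith [mul_pos h4 h4, mul_nonneg (sub_nonneg.2 a1) (zero_le_one.trans a1)]

/-- the displacement function attains its minimum -/
lemma exists_min (h : StmtB1) (g : W) : ∃ z0 : X, ∀ z : X,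
    -lor z0.1 (g • z0.1) ≤ -lor z.1 (g • z.1) := by
  set D : X → ℝ := fun z => -lor z.1 (g • z.1) with hD
  have hc : Continuous D := (continuous_lor.comp (continuous_subtype_val.prodMk
    (continuous_subtype_val.comp (continuous_const_smul (T := X) g)))).neg
  obtain ⟨R0, hR0⟩ := h.compact.bddAbove_image
    ((continuous_apply 2).comp continuous_subtype_val).continuousOn
  have hfin := (h.proper Q _ h.compact (h.ball (2 * R0 * D x0))).inter_of_left
    {k | ∃ w : W, k = w⁻¹ * g * w}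
  choose w hw using fun k : ↥({w : W | ∃ z ∈ Q, w • z ∈ {z : X | z.1 2 ≤ 2 * R0 * D x0}} ∩
    {k | ∃ w : W, k = w⁻¹ * g * w}) => k.2.2
  have := hfin.to_subtype
  have hK : IsCompact (⋃ k, (fun z => w k • z) '' Q) :=
    isCompact_iUnion fun k => h.compact.image (continuous_const_smul _)
  have hDw : ∀ (u : W) (z : X), D (u • z) = -lor z.1 ((u⁻¹ * g * u) • z.1) := fun u z => by
    simp only [hD, smul_val]
    rw [← lor_smul u⁻¹, inv_smul_smul, mul_smul, mul_smul]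
  have key : ∀ z, D z ≤ D x0 → ∃ y ∈ ⋃ k, (fun z => w k • z) '' Q, D y = D z := by
    intro z hz
    obtain ⟨u, z', hz', rfl⟩ := h.cover z
    have hm : u⁻¹ * g * u ∈ {w : W | ∃ z ∈ Q, w • z ∈ {z : X | z.1 2 ≤ 2 * R0 * D x0}} ∩
        {k | ∃ w : W, k = w⁻¹ * g * w} := by
      refine ⟨⟨z', hz', (height_le z' _).trans ?_⟩, u, rfl⟩
      have h1 : z'.1 2 ≤ R0 := hR0 ⟨z', hz', rfl⟩
      have h2 := (h.revCS z' ((u⁻¹ * g * u) • z')).1
      rw [hDw] at hz
      exact mul_le_mul (by linarith) hz (by linarith) (by linarith [z'.2.2])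
    refine ⟨_, mem_iUnion.2 ⟨⟨_, hm⟩, z', hz', rfl⟩, ?_⟩
    rw [hDw, hDw, ← hw ⟨_, hm⟩]
  obtain ⟨y, hy, ey⟩ := key x0 le_rfl
  obtain ⟨z0, -, hz0⟩ := hK.exists_isMinOn ⟨y, hy⟩ hc.continuousOn
  refine ⟨z0, fun z => ?_⟩
  by_cases hz : D z ≤ D x0
  · obtain ⟨y', hy', ey'⟩ := key z hz
    exact (hz0 hy').trans_eq ey'
  · exact ((hz0 hy).trans_eq ey).trans (not_le.1 hz).le

lemma eq_zero_of_orth (z : X) {u : V} (h1 : lor u z.1 = 0) (h2 : lor u u ≤ 0) : u = 0 := by
  obtain ⟨h3, h4⟩ := z.2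
  simp only [lor] at h1 h2 h3
  have a1 : (u 2 * z.1 2) ^ 2 ≤ (u 0 * u 0 + u 1 * u 1) * (z.1 0 * z.1 0 + z.1 1 * z.1 1) := by
    have : u 2 * z.1 2 = u 0 * z.1 0 + u 1 * z.1 1 := by linarith
    rw [this]
    nlinarith [sq_nonneg (u 0 * z.1 1 - u 1 * z.1 0)]
  have a2 : (u 0 * u 0 + u 1 * u 1) * (z.1 0 * z.1 0 + z.1 1 * z.1 1) ≤
      (u 2 * u 2) * (z.1 0 * z.1 0 + z.1 1 * z.1 1) :=
    mul_le_mul_of_nonneg_right (by linarith) (add_nonneg (mul_self_nonneg _) (mul_self_nonneg _))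
  have a3 : z.1 0 * z.1 0 + z.1 1 * z.1 1 = z.1 2 * z.1 2 - 1 := by linarith
  rw [a3] at a1 a2
  have b2 : u 2 = 0 := mul_self_eq_zero.1 (by nlinarith [mul_self_nonneg (u 2)])
  rw [b2] at h2
  have b0 : u 0 = 0 := mul_self_eq_zero.1 (by nlinarith [mul_self_nonneg (u 0), mul_self_nonneg (u 1)])
  have b1 : u 1 = 0 := mul_self_eq_zero.1 (by nlinarith [mul_self_nonneg (u 0), mul_self_nonneg (u 1)])
  ext k
  fin_cases k
  exacts [b0, b1, b2]

/-- at a point of minimal displacement the orbit is collinear -/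
lemma collinear (h : StmtB1) {g : W} {z : X}
    (hz : ∀ y : X, -lor z.1 (g • z.1) ≤ -lor y.1 (g • y.1)) :
    g • g • z.1 = (2 * -lor z.1 (g • z.1)) • g • z.1 - z.1 := by
  set c := -lor z.1 (g • z.1) with hc
  have h1 : 1 ≤ c := by
    have := (h.revCS z (g • z)).1
    rw [smul_val] at this
    linarith
  have e0 : lor z.1 z.1 = -1 := z.2.1
  have e1 : lor z.1 (g • z.1) = -c := by rw [hc, neg_neg]
  have e1' : lor (g • z.1) z.1 = -c := by rw [lor_comm, e1]
  have e2 : lor (g • z.1) (g • z.1) = -1 := by rw [lor_smul, e0]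
  have e3 : lor (g • z.1) (g • g • z.1) = -c := by rw [lor_smul, e1]
  have e3' : lor (g • g • z.1) (g • z.1) = -c := by rw [lor_comm, e3]
  have e4 : lor (g • g • z.1) (g • g • z.1) = -1 := by rw [lor_smul, e2]
  have hs : 0 < √(2 + 2 * c) := by positivity
  have hs2 : √(2 + 2 * c) * √(2 + 2 * c) = 2 + 2 * c := Real.mul_self_sqrt (by positivity)
  have hm := hz ⟨(√(2 + 2 * c))⁻¹ • (z.1 + g • z.1), by
      simp only [lor_smul_left, lor_smul_right, lor_add_left, lor_add_right, e0, e1, e1', e2]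
      generalize √(2 + 2 * c) = s at hs hs2
      field_simp
      linarith, by
      have := z.2.2
      have := (g • z).2.2
      rw [smul_val] at this
      simp only [Pi.smul_apply (√(2 + 2 * c))⁻¹, Pi.add_apply, smul_eq_mul]
      positivity⟩
  simp only [smul_smul_V, smul_add_V, lor_smul_left, lor_smul_right, lor_add_left, lor_add_right,
    e1, e2, e3] at hm
  have hm' : c * (2 + 2 * c) ≤ 2 * c + 1 - lor z.1 (g • g • z.1) := by
    rw [← hs2]
    have := mul_le_mul_of_nonneg_right hm (mul_pos hs hs).le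
    refine this.trans_eq ?_
    field_simp
    ring
  rw [← sub_eq_zero]
  refine eq_zero_of_orth (g • z) ?_ ?_
  · simp only [smul_val, lor_sub_left, lor_smul_left, e1, e2, e3']
    ring
  · simp only [lor_sub_left, lor_sub_right, lor_smul_left, lor_smul_right, e0, e1, e1', e2, e3, e3',
      e4, lor_comm (g • g • z.1) z.1]
    nlinarith

/-- Lorentzian cross product -/
def cr (u v : V) : V := ![u 1 * v 2 - u 2 * v 1, u 2 * v 0 - u 0 * v 2, u 1 * v 0 - u 0 * v 1]

lemma lor_cr (u v : V) : lor (cr u v) (cr u v) = lor u v ^ 2 - lor u u * lor v v := by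
  simp [lor, cr]; ring

lemma ex (h : StmtB1) (g : G) (hg : g ≠ 1) : ∃ a : Axis, a.For g.1 := by
  obtain ⟨z, hz⟩ := exists_min h g.1
  have hcol := collinear h hz
  set c := -lor z.1 (g.1 • z.1) with hc
  have h1 : 1 < c := by
    obtain ⟨a1, a2⟩ := h.revCS z (g.1 • z)
    rw [smul_val] at a1 a2
    refine lt_of_le_of_ne (by linarith) fun e => hg (h.free g z (a2 (by linarith)).symm)
  have e0 : lor z.1 z.1 = -1 := z.2.1
  have e1 : lor z.1 (g.1 • z.1) = -c := by rw [hc, neg_neg]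
  have e1' : lor (g.1 • z.1) z.1 = -c := by rw [lor_comm, e1]
  have e2 : lor (g.1 • z.1) (g.1 • z.1) = -1 := by rw [lor_smul, e0]
  have hp : 0 < c ^ 2 - 1 := by nlinarith
  set s := √(c ^ 2 - 1)
  have hs : 0 < s := Real.sqrt_pos.2 hp
  have hs2 : s * s = c ^ 2 - 1 := Real.mul_self_sqrt hp.le
  set ξ : V := (2 * (c ^ 2 - 1))⁻¹ • (g.1 • z.1 - (c - s) • z.1) with hξ
  set η : V := (c + s) • z.1 - g.1 • z.1 with hη
  have nξ : lor ξ ξ = 0 := by
    simp only [hξ, lor_smul_left, lor_smul_right, lor_sub_left, lor_sub_right, e0, e1, e1', e2]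
    linear_combination -((2 * (c ^ 2 - 1))⁻¹) ^ 2 * hs2
  have nη : lor η η = 0 := by
    simp only [hη, lor_smul_left, lor_smul_right, lor_sub_left, lor_sub_right, e0, e1, e1', e2]
    linear_combination -hs2
  have nξη : lor ξ η = -1 := by
    simp only [hξ, hη, lor_smul_left, lor_smul_right, lor_sub_left, lor_sub_right, e0, e1, e1', e2]
    field_simp
    linear_combination -hs2
  have hn : lor (cr ξ η) (cr ξ η) = 1 := by rw [lor_cr, nξη, nξ]; norm_num
  have hl : 0 < c + s := by linarith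
  refine ⟨⟨ξ, η, cr ξ η, Real.log (c + s), ⟨nξ, future_of_lor (by rw [e0]; norm_num) z.2.2 nξ.le ?_⟩,
    ⟨nη, future_of_lor (by rw [e0]; norm_num) z.2.2 nη.le ?_⟩, nξη, hn, ?_, ?_, ?_,
    Real.log_pos (by linarith)⟩, for_of _ h (by rw [g.2.1, g.2.2, one_mul]) ?_ ?_⟩
  · simp only [hξ, lor_smul_right, lor_sub_right, e0, e1]
    exact mul_neg_of_pos_of_neg (by positivity) (by linarith)
  · simp only [hη, lor_smul_right, lor_sub_right, e0, e1]
    linarith
  · simp [lor, cr]; ring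
  · simp [lor, cr]; ring
  · have : det3 η (cr ξ η) ξ = lor (cr ξ η) (cr ξ η) := by simp [det3, lor, cr]; ring
    rw [this, hn]
    exact one_pos
  · show g.1 • ξ = Real.exp (Real.log (c + s)) • ξ
    rw [Real.exp_log hl, hξ, smul_smul_V, smul_sub_V, smul_smul_V, hcol, smul_comm (c + s)]
    congr 1
    rw [smul_sub, smul_smul, show (c + s) * (c - s) = 1 by linear_combination -hs2]
    generalize g.1 • z.1 = y
    module
  · show g.1 • η = Real.exp (-Real.log (c + s)) • η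
    have : Real.exp (-Real.log (c + s)) = c - s := by
      rw [Real.exp_neg, Real.exp_log hl]
      exact inv_eq_of_mul_eq_one_right (by linear_combination -hs2)
    rw [this, hη, smul_sub_V, smul_smul_V, hcol, smul_sub (c - s), smul_smul,
      show (c - s) * (c + s) = 1 by linear_combination -hs2]
    generalize g.1 • z.1 = y
    module

end Ax

theorem blockAx (h : StmtB1) : StmtAx where
  expand := Ax.expand
  ex := Ax.ex h
  uniq _ _ _ := Ax.uniq
  inv _ a ha := ⟨Ax.rev a, Ax.rev_for a ha, rfl, rfl, rfl, rfl⟩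
  conj g w a := Ax.conj a h g w
  zpow _ a := Ax.zpow a
  pow _ a m := Ax.pow a m
  opole _ a n := Ax.opole a n
  fermi := Ax.fermi

end Pool.Agent.Lib.MP_003e01_gt
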