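import Pool.Agent.Lib.MP_003e01_gt.Blue

/-! Block B1: the tiling of the plane by the right-angled 12-gon. -/

open Set Topology

namespace Pool.Agent.Lib.MP_003e01_gt
namespace B1

lemma farZ : ∀ i j : Fin 12, i ≠ j → ¬ Adjacent i j →
    Z3.pos (Z3.sub (-1, 0) (lorZ (poleZ i) (poleZ j))) = true := by decide +kernel

lemma far (i j : Fin 12) (h : i ≠ j) (h' : ¬ Adjacent i j) : lor (pole i) (pole j) < -1 := by
  have h1 := (Z3.pos_iff _).1 (farZ i j h h')
  have h2 : Z3.toR (-1, 0) = -1 := by simp [Z3.toR]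
  rw [Z3.toR_sub, h2, ← lor_pole_pole] at h1
  linarith

/-- a point of the plane pairs negatively with a future causal vector -/
lemma lor_future_neg (z : X) {ξ : V} (h3 : lor ξ ξ ≤ 0) (h4 : 0 < ξ 2) : lor z.1 ξ < 0 := by
  obtain ⟨h1, h2⟩ := z.2
  simp only [lor] at *
  by_contra hc
  push Not at hc
  have h5 : 0 < z.1 2 * ξ 2 := mul_pos h2 h4
  have h6 : (z.1 2 * ξ 2) ^ 2 ≤ (z.1 0 * ξ 0 + z.1 1 * ξ 1) ^ 2 :=
    pow_le_pow_left₀ h5.le (by linarith) 2
  have h7 : (z.1 0 * ξ 0 + z.1 1 * ξ 1) ^ 2 ≤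
      (z.1 0 * z.1 0 + z.1 1 * z.1 1) * (ξ 0 * ξ 0 + ξ 1 * ξ 1) := by
    nlinarith [sq_nonneg (z.1 0 * ξ 1 - z.1 1 * ξ 0)]
  have h8 : (z.1 0 * z.1 0 + z.1 1 * z.1 1) * (ξ 0 * ξ 0 + ξ 1 * ξ 1) ≤
      (z.1 0 * z.1 0 + z.1 1 * z.1 1) * (ξ 2 * ξ 2) :=
    mul_le_mul_of_nonneg_left (by linarith) (add_nonneg (mul_self_nonneg _) (mul_self_nonneg _))
  have h9 : z.1 0 * z.1 0 + z.1 1 * z.1 1 = z.1 2 * z.1 2 - 1 := by linarith
  rw [h9] at h7 h8
  nlinarith [mul_pos h4 h4]

/-- a causal vector orthogonal to a point of the plane vanishes -/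
lemma eq_zero_of_perp (z : X) {u : V} (h : lor z.1 u = 0) (hu : lor u u ≤ 0) : u = 0 := by
  rcases lt_trichotomy (u 2) 0 with h2 | h2 | h2
  · have := lor_future_neg z (ξ := -u) (by rwa [lor_neg_left, lor_neg_right, neg_neg])
      (by simpa using h2)
    rw [lor_neg_right, h] at this
    simp at this
  · simp only [lor, h2] at hu
    have h0 : u 0 = 0 := by nlinarith [mul_self_nonneg (u 0), mul_self_nonneg (u 1)]
    have h1 : u 1 = 0 := by nlinarith [mul_self_nonneg (u 0), mul_self_nonneg (u 1)]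
    ext k
    fin_cases k <;> assumption
  · exact absurd h (lor_future_neg z hu h2).ne

lemma perp_nonneg (z : X) {u : V} (h : lor z.1 u = 0) : 0 ≤ lor u u := by
  by_contra hc
  push Not at hc
  rw [eq_zero_of_perp z h hc.le] at hc
  simp [lor] at hc

lemma lor_neg (x y : X) : lor x.1 y.1 < 0 := lor_future_neg x (by rw [y.2.1]; norm_num) y.2.2

lemma revCS (x y : X) : lor x.1 y.1 ≤ -1 ∧ (lor x.1 y.1 = -1 → x = y) := by
  have hx := x.2.1
  have hy := y.2.1
  have hc := lor_comm y.1 x.1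
  constructor
  · have h := perp_nonneg y (u := x.1 + lor x.1 y.1 • y.1) (by
      rw [lor_add_right, lor_smul_right, hy, hc]; ring)
    simp only [lor_add_left, lor_add_right, lor_smul_left, lor_smul_right, hx, hy, hc] at h
    nlinarith [lor_neg x y]
  · intro h
    have h1 := eq_zero_of_perp y (u := x.1 - y.1) (by rw [lor_sub_right, hc, h, hy]; ring) (by
      simp only [lor_sub_left, lor_sub_right, hx, hy, hc, h]; norm_num)
    exact Subtype.ext (sub_eq_zero.1 h1)

lemma tri (a b c : X) : -lor a.1 c.1 ≤ 2 * lor a.1 b.1 * lor b.1 c.1 := by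
  have ha := a.2.1
  have hb := b.2.1
  have hc := c.2.1
  have h1 := lor_comm b.1 a.1
  have h2 := lor_comm c.1 b.1
  have h3 := lor_comm c.1 a.1
  have h := perp_nonneg b (u := lor b.1 c.1 • a.1 + lor a.1 b.1 • c.1 +
    (2 * lor a.1 b.1 * lor b.1 c.1) • b.1) (by
      simp only [lor_add_right, lor_smul_right, hb, h1]; ring)
  simp only [lor_add_left, lor_add_right, lor_smul_left, lor_smul_right, ha, hb, hc, h1, h2,
    h3] at h
  have h4 := mul_pos_of_neg_of_neg (lor_neg a b) (lor_neg b c)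
  by_contra hcon
  push Not at hcon
  nlinarith [mul_pos h4 (sub_pos.2 hcon), mul_self_nonneg (lor a.1 b.1),
    mul_self_nonneg (lor b.1 c.1)]

lemma pole_two (i : Fin 12) : pole i 2 = √(3 + 2 * √3) := rfl

lemma beta_sq : √(3 + 2 * √3) * √(3 + 2 * √3) = 3 + 2 * √3 := Real.mul_self_sqrt (by positivity)

lemma beta_pos : 0 < √(3 + 2 * √3) := by positivity

lemma far_neg (i j : Fin 12) (h : i ≠ j) (h' : ¬ Adjacent i j) (z : X) :
    lor z.1 (pole i) + lor z.1 (pole j) < 0 := by
  rw [← lor_add_right]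
  refine lor_future_neg z ?_ ?_
  · simp only [lor_add_left, lor_add_right, lor_pole_self, lor_comm (pole j) (pole i)]
    linarith [far i j h h']
  · simp only [Pi.add_apply, pole_two]
    linarith [beta_pos]

lemma lor_x0 (v : V) : lor x0.1 v = -v 2 := by simp [lor, x0]

lemma lor_sr (j : Fin 12) (y : X) (i : Fin 12) :
    lor (sr j • y).1 (pole i) = lor y.1 (pole i) - 2 * lor y.1 (pole j) * lor (pole j) (pole i) := by
  rw [smul_val, sr_smul, lor_sub_smul]

lemma lor_sr_self (j : Fin 12) (y : X) : lor (sr j • y).1 (pole j) = -lor y.1 (pole j) := by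
  rw [lor_sr, lor_pole_self]; ring

lemma sr_two (j : Fin 12) (y : X) :
    (sr j • y).1 2 = y.1 2 - 2 * lor y.1 (pole j) * √(3 + 2 * √3) := by
  rw [smul_val, sr_smul]; rfl

lemma sr_fix {j : Fin 12} {y : X} (h : lor y.1 (pole j) = 0) : sr j • y = y :=
  Subtype.ext (by rw [smul_val, sr_smul, h]; simp)

lemma sr_comm {i j : Fin 12} (h : Adjacent i j) : sr i * sr j = sr j * sr i := by
  have hne : i ≠ j := by
    rintro rfl
    revert i
    decide
  have h2 : cm i j = 2 := by simp [cm, hne, h]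
  have h3 := cs.simple_mul_simple_pow i j
  rw [h2, pow_two] at h3
  have h4 := eq_inv_of_mul_eq_one_left h3
  rwa [mul_inv_rev, cs.inv_simple, cs.inv_simple] at h4

/-- induction by stripping left descents -/
lemma strip {P : W → Prop} (h1 : P 1)
    (hs : ∀ w j, ¬ cs.IsLeftDescent w j → P w → P (sr j * w)) (w : W) : P w := by
  induction h : cs.length w generalizing w with
  | zero => rw [cs.length_eq_zero_iff.1 h]; exact h1
  | succ n ih =>
    obtain ⟨j, hj⟩ := cs.exists_leftDescent_of_ne_one (w := w) (by rintro rfl; simp at h)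
    have h2 := hs _ j (cs.isLeftDescent_iff_not_isLeftDescent_mul.1 hj)
      (ih _ (by have := cs.isLeftDescent_iff.1 hj; omega))
    rwa [cs.simple_mul_simple_cancel_left] at h2

lemma key {c : ℝ} {z : X} (hz : ∀ j, lor z.1 (pole j) ≤ -c) (w : W) :
    ∀ i, ¬ cs.IsLeftDescent w i → lor (w • z).1 (pole i) ≤ -c := by
  induction w using strip with
  | h1 => intro i _; simpa using hz i
  | hs w j hj ih =>
    intro i hi
    have hl : cs.length (sr j * w) = cs.length w + 1 := cs.not_isLeftDescent_iff.1 hj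
    have hl' : cs.length (sr i * (sr j * w)) = cs.length (sr j * w) + 1 :=
      cs.not_isLeftDescent_iff.1 hi
    have hne : i ≠ j := by
      rintro rfl
      rw [cs.simple_mul_simple_cancel_left] at hl'
      omega
    rw [mul_smul]
    by_cases ha : Adjacent j i
    · rw [lor_sr, lor_pole_adj ha, mul_zero, sub_zero]
      refine ih i fun hd => ?_
      have h1 : cs.length (sr i * w) + 1 = cs.length w := cs.isLeftDescent_iff.1 hd
      have h2 := cs.length_mul_le (sr j) (sr i * w)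
      rw [← mul_assoc, ← sr_comm ha, mul_assoc] at hl'
      rw [cs.length_simple] at h2
      omega
    · have h1 := far_neg j i hne.symm ha (sr j • w • z)
      rw [lor_sr_self] at h1
      linarith [ih j hj]

lemma key' {c : ℝ} {z : X} (hz : ∀ j, lor z.1 (pole j) ≤ -c) (w : W) (i : Fin 12)
    (hi : cs.IsLeftDescent w i) : c ≤ lor (w • z).1 (pole i) := by
  have h := key hz _ i (cs.isLeftDescent_iff_not_isLeftDescent_mul.1 hi)
  rw [mul_smul, lor_sr_self] at h
  linarith

lemma x0_le (j : Fin 12) : lor x0.1 (pole j) ≤ -√(3 + 2 * √3) := by rw [lor_x0, pole_two]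

lemma growth (w : W) : 1 + (cs.length w : ℝ) ≤ (w • x0).1 2 := by
  induction w using strip with
  | h1 => simp [x0]
  | hs w j hj ih =>
    rw [mul_smul, sr_two, cs.not_isLeftDescent_iff.1 hj]
    have h1 := key x0_le w j hj
    have h2 := mul_le_mul_of_nonneg_right h1 beta_pos.le
    have h3 : 0 ≤ √3 := by positivity
    push_cast
    nlinarith [beta_sq]

lemma finite_len (n : ℕ) : {w : W | cs.length w ≤ n}.Finite := by
  refine ((List.finite_length_le (Fin 12) n).image cs.wordProd).subset fun w hw => ?_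
  obtain ⟨l, hl, rfl⟩ := cs.exists_isReduced w
  exact ⟨l, by rw [mem_ofPred_eq, ← hl.eq]; exact hw, rfl⟩

lemma cont_coord (k : Fin 3) : Continuous fun z : X => z.1 k :=
  (continuous_apply k).comp continuous_subtype_val

lemma finite_bd (R : ℝ) : {w : W | ∃ z : X, z.1 2 ≤ R ∧ (w • z).1 2 ≤ R}.Finite := by
  obtain ⟨n, hn⟩ := exists_nat_ge (2 * R * R)
  refine (finite_len n).subset ?_
  rintro w ⟨z, h1, h2⟩
  have h3 := tri x0 (w • z) (w • x0)
  rw [smul_val w z, smul_val w x0, lor_smul, lor_comm z.1, lor_x0, lor_x0, lor_x0, ← smul_val,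
    ← smul_val] at h3
  have h4 := growth w
  have h5 := mul_le_mul h2 h1 z.2.2.le ((w • z).2.2.le.trans h2)
  have h6 : (cs.length w : ℝ) ≤ n := by nlinarith
  exact_mod_cast h6

lemma proper (K L : Set X) (hK : IsCompact K) (hL : IsCompact L) :
    {w : W | ∃ z ∈ K, w • z ∈ L}.Finite := by
  obtain ⟨R, hR⟩ := ((hK.union hL).image (cont_coord 2)).bddAbove
  refine (finite_bd R).subset ?_
  rintro w ⟨z, h1, h2⟩
  exact ⟨z, hR ⟨z, Or.inl h1, rfl⟩, hR ⟨_, Or.inr h2, rfl⟩⟩

lemma ball (R : ℝ) : IsCompact {z : X | z.1 2 ≤ R} := by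
  refine (Topology.IsEmbedding.subtypeVal.isCompact_iff).2 ?_
  have h : Subtype.val '' {z : X | z.1 2 ≤ R} =
      {x : V | lor x x = -1 ∧ 0 ≤ x 2 ∧ x 2 ≤ R} := by
    ext x
    constructor
    · rintro ⟨z, hz, rfl⟩
      exact ⟨z.2.1, z.2.2.le, hz⟩
    · rintro ⟨h1, h2, h3⟩
      refine ⟨⟨x, h1, lt_of_le_of_ne h2 fun h4 => ?_⟩, h3, rfl⟩
      simp only [lor, ← h4] at h1
      nlinarith [mul_self_nonneg (x 0), mul_self_nonneg (x 1)]
  refine h ▸ (isCompact_Icc (a := fun _ : Fin 3 => -R) (b := fun _ => R)).of_isClosed_subset ?_ ?_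
  · refine (isClosed_eq ?_ continuous_const).inter
      ((isClosed_le continuous_const (continuous_apply 2)).inter
        (isClosed_le (continuous_apply 2) continuous_const))
    unfold lor
    fun_prop
  · rintro x ⟨h1, h2, h3⟩
    simp only [lor] at h1
    have h4 : x 2 * x 2 ≤ R * R := mul_self_le_mul_self h2 h3
    have h0 : |x 0| ≤ R := abs_le_of_sq_le_sq' (by nlinarith [mul_self_nonneg (x 1)])
      (h2.trans h3) |> abs_le.2
    have h5 : |x 1| ≤ R := abs_le_of_sq_le_sq' (by nlinarith [mul_self_nonneg (x 0)])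
      (h2.trans h3) |> abs_le.2
    constructor
    · intro k
      fin_cases k
      · exact (abs_le.1 h0).1
      · exact (abs_le.1 h5).1
      · show -R ≤ x 2
        linarith
    · intro k
      fin_cases k
      · exact (abs_le.1 h0).2
      · exact (abs_le.1 h5).2
      · exact h3

lemma gon {s a b h : ℝ} (hs : s * s = 3) (hs0 : 0 < s) (hb : 0 ≤ b) (hab : b ≤ a) (h1 : a ≤ h)
    (h2 : s * a + b ≤ 2 * h) : a * a + b * b ≤ (8 - 4 * s) * (h * h) := by
  have hs1 : 1.7 < s := by nlinarith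
  have hs2 : s < 1.75 := by nlinarith
  have ha : 0 ≤ a := hb.trans hab
  have hh : 0 ≤ h := ha.trans h1
  by_cases hc : b ≤ (2 - s) * h
  · have h3 := mul_self_le_mul_self hb hc
    have h4 := mul_self_le_mul_self ha h1
    nlinarith
  · push Not at hc
    have h3 : (s + 1) * b ≤ 2 * h := by nlinarith
    have h4 : b ≤ (s - 1) * h := by
      have : (s + 1) * b ≤ (s + 1) * ((s - 1) * h) := by nlinarith
      exact le_of_mul_le_mul_left this (by linarith)
    have h5 : s * a * (s * a) ≤ (2 * h - b) * (2 * h - b) :=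
      mul_self_le_mul_self (by positivity) (by linarith)
    have h6 : s * a * (s * a) = 3 * (a * a) := by linear_combination (a * a) * hs
    have h7 := mul_nonneg (sub_nonneg.2 hc.le) (sub_nonneg.2 h4)
    have h8 : (2 - s) * (s - 1) * (h * h) = (3 * s - 5) * (h * h) := by
      linear_combination (-(h * h)) * hs
    nlinarith

lemma last {s u : ℝ} (hs : s * s = 3) (hs0 : 0 < s)
    (h : (4 + 2 * s) * (u * u - 1) ≤ 4 * s * (u * u)) : u ≤ 4 := by
  have hs2 : s < 1.75 := by nlinarith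
  by_contra hc
  push Not at hc
  have c4 : 16 < u * u := by nlinarith
  nlinarith

lemma Q_le {z : X} (hz : z ∈ Q) (j : Fin 12) : lor z.1 (pole j) ≤ -0 := by
  rw [neg_zero]; exact hz j

lemma Q_bound {z : X} (hz : z ∈ Q) : z.1 2 ≤ 4 := by
  have hs := Z3.sq3
  have hs0 : 0 < √3 := by positivity
  set s := √3 with hsd
  have hA : √(4 + 2 * s) = 1 + s := by
    rw [Real.sqrt_eq_iff_mul_self_eq (by positivity) (by positivity)]
    linarith
  set x := (1 + s) * z.1 0 with hx
  set y := (1 + s) * z.1 1 with hy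
  set h := √(3 + 2 * s) * z.1 2 with hh
  let t : ℕ → ℝ := fun k => x * Real.cos (k * Real.pi / 6) + y * Real.sin (k * Real.pi / 6)
  have ht : ∀ k : Fin 12, t k ≤ h := fun k => by
    have := hz k
    simp only [lor, pole, Matrix.cons_val_zero, Matrix.cons_val_one, Matrix.cons_val, ← hsd,
      hA] at this
    simp only [t, hx, hy, hh]
    linarith
  have hr : ∀ k, t (k + 2) = s * t (k + 1) - t k := fun k => by
    simp only [t]
    rw [cos_nat, sin_nat]; ring
  have t0 : t 0 = x := by simp [t]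
  have t1 : t 1 = (s * x + y) / 2 := by
    simp only [t, Nat.cast_one, one_mul, Real.cos_pi_div_six, Real.sin_pi_div_six]; ring
  have t2 : t 2 = (x + s * y) / 2 := by rw [hr 0, t1, t0]; linear_combination (x / 2) * hs
  have t3 : t 3 = y := by rw [hr 1, t2, t1]; linear_combination (y / 2) * hs
  have t4 : t 4 = (-x + s * y) / 2 := by rw [hr 2, t3, t2]; ring
  have t5 : t 5 = (-(s * x) + y) / 2 := by rw [hr 3, t4, t3]; linear_combination (y / 2) * hs
  have t6 : t 6 = -x := by rw [hr 4, t5, t4]; linear_combination (-x / 2) * hs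
  have t7 : t 7 = (-(s * x) - y) / 2 := by rw [hr 5, t6, t5]; ring
  have t8 : t 8 = (-x - s * y) / 2 := by rw [hr 6, t7, t6]; linear_combination (-x / 2) * hs
  have t9 : t 9 = -y := by rw [hr 7, t8, t7]; linear_combination (-y / 2) * hs
  have t10 : t 10 = (x - s * y) / 2 := by rw [hr 8, t9, t8]; ring
  have t11 : t 11 = (s * x - y) / 2 := by rw [hr 9, t10, t9]; linear_combination (-y / 2) * hs
  have a0 : x ≤ h := t0 ▸ ht 0
  have a1 : (s * x + y) / 2 ≤ h := t1 ▸ ht 1
  have a2 : (x + s * y) / 2 ≤ h := t2 ▸ ht 2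
  have a3 : y ≤ h := t3 ▸ ht 3
  have a4 : (-x + s * y) / 2 ≤ h := t4 ▸ ht 4
  have a5 : (-(s * x) + y) / 2 ≤ h := t5 ▸ ht 5
  have a6 : -x ≤ h := t6 ▸ ht 6
  have a7 : (-(s * x) - y) / 2 ≤ h := t7 ▸ ht 7
  have a8 : (-x - s * y) / 2 ≤ h := t8 ▸ ht 8
  have a9 : -y ≤ h := t9 ▸ ht 9
  have a10 : (x - s * y) / 2 ≤ h := t10 ▸ ht 10
  have a11 : (s * x - y) / 2 ≤ h := t11 ▸ ht 11
  have b1 : |x| ≤ h := abs_le.2 ⟨by linarith, a0⟩
  have b2 : |y| ≤ h := abs_le.2 ⟨by linarith, a3⟩
  have b3 : s * |x| + |y| ≤ 2 * h := by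
    rcases abs_cases x with ⟨e1, -⟩ | ⟨e1, -⟩ <;> rcases abs_cases y with ⟨e2, -⟩ | ⟨e2, -⟩ <;>
      rw [e1, e2] <;> linarith
  have b4 : s * |y| + |x| ≤ 2 * h := by
    rcases abs_cases x with ⟨e1, -⟩ | ⟨e1, -⟩ <;> rcases abs_cases y with ⟨e2, -⟩ | ⟨e2, -⟩ <;>
      rw [e1, e2] <;> linarith
  have b5 : x * x + y * y ≤ (8 - 4 * s) * (h * h) := by
    rw [← abs_mul_abs_self x, ← abs_mul_abs_self y]
    rcases le_total |y| |x| with h1 | h1
    · exact gon hs hs0 (abs_nonneg _) h1 b1 b3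
    · rw [add_comm]; exact gon hs hs0 (abs_nonneg _) h1 b2 b4
  have c1 := z.2.1
  simp only [lor] at c1
  have c2 : x * x + y * y = (4 + 2 * s) * (z.1 2 * z.1 2 - 1) := by
    rw [hx, hy]
    linear_combination (4 + 2 * s) * c1 + (z.1 0 * z.1 0 + z.1 1 * z.1 1) * hs
  have c3 : (8 - 4 * s) * (h * h) = 4 * s * (z.1 2 * z.1 2) := by
    rw [hh]
    linear_combination (8 - 4 * s) * (z.1 2 * z.1 2) * beta_sq - 8 * (z.1 2 * z.1 2) * hs
  rw [c2, c3] at b5
  exact last hs hs0 b5

lemma compact : IsCompact Q := by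
  refine (ball 4).of_isClosed_subset ?_ fun z hz => Q_bound hz
  have : Q = ⋂ i, {z : X | lor z.1 (pole i) ≤ 0} := by ext z; simp [Q]
  rw [this]
  exact isClosed_iInter fun i => isClosed_le (continuous_lor_left _) continuous_const

lemma cover (z : X) : ∃ (w : W) (z' : X), z' ∈ Q ∧ z = w • z' := by
  have hf : {w : W | (w • z).1 2 ≤ z.1 2}.Finite :=
    (finite_bd (z.1 2)).subset fun w hw => ⟨z, le_rfl, hw⟩
  obtain ⟨w, hw, hmin⟩ := Set.exists_min_image _ (fun w : W => (w • z).1 2) hf ⟨1, by simp⟩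
  refine ⟨w⁻¹, w • z, fun i => ?_, by simp⟩
  by_contra hc
  push Not at hc
  have h1 : ((sr i * w) • z).1 2 < (w • z).1 2 := by
    rw [mul_smul, sr_two]
    linarith [mul_pos hc beta_pos]
  exact absurd (hmin _ (h1.le.trans hw)) h1.not_ge

lemma fund (w : W) (z : X) (hz : z ∈ Q) : w • z ∈ Q →
    w • z = z ∧ w ∈ Subgroup.closure {t | ∃ i, lor z.1 (pole i) = 0 ∧ t = sr i} := by
  induction w using strip with
  | h1 => exact fun _ => ⟨one_smul _ _, one_mem _⟩
  | hs w j hj ih =>
    intro hw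
    have h1 := key (Q_le hz) w j hj
    have h2 := hw j
    rw [mul_smul, lor_sr_self] at h2
    have h3 : lor (w • z).1 (pole j) = 0 := by linarith
    rw [mul_smul, sr_fix h3] at hw ⊢
    obtain ⟨h4, h5⟩ := ih hw
    exact ⟨h4, mul_mem (Subgroup.subset_closure ⟨j, h4 ▸ h3, rfl⟩) h5⟩

lemma ch (w : W) : (chB w = 1 ∨ chB w = -1) ∧ (chR w = 1 ∨ chR w = -1) := by
  induction w using cs.simple_induction_left with
  | one => simp
  | mul_simple_left w i ih =>
    rw [map_mul, map_mul, chB_sr, chR_sr]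
    split_ifs <;> rcases ih with ⟨h1 | h1, h2 | h2⟩ <;> simp [h1, h2]

lemma adj_parity : ∀ i j : Fin 12, Adjacent i j → i.val % 2 ≠ j.val % 2 := by decide

lemma stab {z : X} {h : W}
    (hh : h ∈ Subgroup.closure {t | ∃ i, lor z.1 (pole i) = 0 ∧ t = sr i}) (hB : chB h = 1)
    (hR : chR h = 1) : h = 1 := by
  have hadj : ∀ i j, lor z.1 (pole i) = 0 → lor z.1 (pole j) = 0 → i ≠ j → Adjacent i j := by
    intro i j hi hj hne
    by_contra hc
    have := far_neg i j hne hc z
    rw [hi, hj] at this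
    simp at this
  have ex : ∀ r : ℕ, ∃ e : W, (e = 1 ∨ ∃ i, lor z.1 (pole i) = 0 ∧ i.val % 2 = r ∧ e = sr i) ∧
      ∀ i, lor z.1 (pole i) = 0 → i.val % 2 = r → sr i = e := by
    intro r
    by_cases hex : ∃ i, lor z.1 (pole i) = 0 ∧ i.val % 2 = r
    · obtain ⟨i, hi, hi'⟩ := hex
      refine ⟨sr i, Or.inr ⟨i, hi, hi', rfl⟩, fun j hj hj' => ?_⟩
      by_cases hne : j = i
      · rw [hne]
      · exact absurd (hj'.trans hi'.symm) (adj_parity _ _ (hadj j i hj hi hne))
    · exact ⟨1, Or.inl rfl, fun i hi hi' => absurd ⟨i, hi, hi'⟩ hex⟩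
  obtain ⟨e, he, he'⟩ := ex 0
  obtain ⟨o, ho, ho'⟩ := ex 1
  have ee : e * e = 1 := by
    rcases he with rfl | ⟨i, -, -, rfl⟩
    · simp
    · exact cs.simple_mul_simple_self i
  have oo : o * o = 1 := by
    rcases ho with rfl | ⟨i, -, -, rfl⟩
    · simp
    · exact cs.simple_mul_simple_self i
  have oe : o * e = e * o := by
    rcases he with rfl | ⟨i, hi, hi', rfl⟩
    · simp
    · rcases ho with rfl | ⟨j, hj, hj', rfl⟩
      · simp
      · exact sr_comm (hadj j i hj hi (by rintro rfl; omega))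
  have step : ∀ x, (∃ i, lor z.1 (pole i) = 0 ∧ x = sr i) → ∀ y : W,
      (y = 1 ∨ y = e ∨ y = o ∨ y = e * o) → (x * y = 1 ∨ x * y = e ∨ x * y = o ∨ x * y = e * o) := by
    rintro _ ⟨i, hi, rfl⟩ y hy
    rcases Nat.mod_two_eq_zero_or_one i.val with h0 | h0
    · rw [he' i hi h0]
      rcases hy with rfl | rfl | rfl | rfl
      · simp
      · simp [ee]
      · simp
      · simp [← mul_assoc, ee]
    · rw [ho' i hi h0]
      rcases hy with rfl | rfl | rfl | rfl
      · simp
      · simp [oe]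
      · simp [oo]
      · rw [← mul_assoc, oe, mul_assoc, oo]; simp
  have all : h = 1 ∨ h = e ∨ h = o ∨ h = e * o := by
    clear hB hR
    induction hh using Subgroup.closure_induction_left with
    | one => simp
    | mul_left x hx y _ ih => exact step x hx y ih
    | inv_mul_cancel x hx y _ ih =>
      obtain ⟨i, hi, rfl⟩ := hx
      rw [cs.inv_simple]
      exact step _ ⟨i, hi, rfl⟩ y ih
  have eB : (chB e = 1 → e = 1) ∧ chR e = 1 := by
    rcases he with rfl | ⟨i, -, hi, rfl⟩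
    · simp
    · rw [chB_sr, chR_sr, if_pos hi, if_pos hi]; norm_num
  have oR : (chR o = 1 → o = 1) ∧ chB o = 1 := by
    rcases ho with rfl | ⟨i, -, hi, rfl⟩
    · simp
    · rw [chB_sr, chR_sr, if_neg (by omega), if_neg (by omega)]; norm_num
  rcases all with h1 | rfl | rfl | rfl
  · exact h1
  · exact eB.1 hB
  · exact oR.1 hR
  · rw [map_mul, oR.2, mul_one] at hB
    rw [map_mul, eB.2, one_mul] at hR
    rw [eB.1 hB, oR.1 hR, mul_one]

lemma free (g : G) (z : X) (h : g • z = z) : g = 1 := by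
  obtain ⟨w, z', hz', rfl⟩ := cover z
  have h1 : (w⁻¹ * g.1 * w) • z' = z' := by
    rw [mul_smul, mul_smul, inv_smul_eq_iff]; exact h
  have hc : ∀ χ : W →* ℝ, χ g.1 = 1 → χ (w⁻¹ * g.1 * w) = 1 := fun χ hχ => by
    rw [map_mul, map_mul, hχ, mul_one, ← map_mul, inv_mul_cancel, map_one]
  have h2 := stab (fund _ z' hz' (h1.symm ▸ hz')).2 (hc _ g.2.1) (hc _ g.2.2)
  refine Subtype.ext ?_
  have h3 : g.1 = w * (w⁻¹ * g.1 * w) * w⁻¹ := by group
  rw [h3, h2]; simp

lemma homeo : Nonempty (X ≃ₜ ℝ × ℝ) := by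
  have hp : ∀ p : ℝ × ℝ, 0 < 1 + p.1 * p.1 + p.2 * p.2 := fun p => by
    nlinarith [mul_self_nonneg p.1, mul_self_nonneg p.2]
  refine ⟨{
    toFun := fun z => (z.1 0, z.1 1)
    invFun := fun p => ⟨![p.1, p.2, √(1 + p.1 * p.1 + p.2 * p.2)], ?_, ?_⟩
    left_inv := fun z => Subtype.ext ?_
    right_inv := fun p => rfl
    continuous_toFun := (cont_coord 0).prodMk (cont_coord 1)
    continuous_invFun := Continuous.subtype_mk ?_ _ }⟩
  · simp only [lor, Matrix.cons_val_zero, Matrix.cons_val_one, Matrix.cons_val]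
    rw [Real.mul_self_sqrt (hp p).le]; ring
  · exact Real.sqrt_pos.2 (hp p)
  · have h1 := z.2.1
    simp only [lor] at h1
    have h2 : √(1 + z.1 0 * z.1 0 + z.1 1 * z.1 1) = z.1 2 := by
      rw [Real.sqrt_eq_iff_mul_self_eq (hp (z.1 0, z.1 1)).le z.2.2.le]; linarith
    ext k
    fin_cases k
    · rfl
    · rfl
    · exact h2
  · refine continuous_pi fun k => ?_
    fin_cases k
    · exact continuous_fst
    · exact continuous_snd
    · show Continuous fun p : ℝ × ℝ => √(1 + p.1 * p.1 + p.2 * p.2)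
      fun_prop

lemma det (w : W) (x y z : V) :
    det3 (w • x) (w • y) (w • z) = chB w * chR w * det3 x y z := by
  induction w using cs.simple_induction_left with
  | one => simp
  | mul_simple_left w i ih =>
    have h1 : chB (sr i) * chR (sr i) = -1 := by
      rw [chB_sr, chR_sr]; split_ifs <;> norm_num
    have h2 : ∀ a b c : V, det3 (sr i • a) (sr i • b) (sr i • c) = -det3 a b c := by
      intro a b c
      have h3 := lor_pole_self i
      simp only [sr_smul, det3, lor, Pi.sub_apply, Pi.smul_apply, smul_eq_mul] at h3 ⊢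
      linear_combination (-2 * (a 0 * (b 1 * c 2 - b 2 * c 1) - a 1 * (b 0 * c 2 - b 2 * c 0) +
        a 2 * (b 0 * c 1 - b 1 * c 0))) * h3
    rw [mul_smul, mul_smul, mul_smul, h2, ih, map_mul, map_mul]
    linear_combination (-(chB w * chR w * det3 x y z)) * h1

end B1

open B1 in
theorem blockB1 : StmtB1 where
  far := far
  far_neg := far_neg
  descent w i := by
    by_cases h : cs.IsLeftDescent w i
    · have h1 := beta_pos.trans_le (key' x0_le w i h)
      exact ⟨iff_of_true h h1, h1.ne'⟩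
    · have h1 := (key x0_le w i h).trans_lt (neg_lt_zero.2 beta_pos)
      exact ⟨iff_of_false h h1.not_gt, h1.ne⟩
  descent_le w i h z hz := by simpa using key (Q_le hz) w i h
  descent_ge w i h z hz := key' (Q_le hz) w i h
  compact := compact
  cover := cover
  fund := fund
  faithful w h := by
    have h1 := growth w
    rw [h] at h1
    have h2 : (cs.length w : ℝ) ≤ 0 := by simpa [x0] using h1
    exact cs.length_eq_zero_iff.1 (by exact_mod_cast le_antisymm h2 (Nat.cast_nonneg _))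
  proper := proper
  free := free
  ball := ball
  homeo := homeo
  det := det
  ch := ch
  revCS := revCS

end Pool.Agent.Lib.MP_003e01_gt
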