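import Pool.Agent.Lib.MP_003e01_gt.Blue

/-! Block B2a: the circle at infinity, parametrised by stereographic projection. -/

namespace Pool.Agent.Lib.MP_003e01_gt

namespace B2a

/-- the null vector with slope `t` -/
def nu : WithTop ℝ → V
  | ⊤ => ![-1, 0, 1]
  | (t : ℝ) => ![1 - t ^ 2, 2 * t, 1 + t ^ 2]

lemma nu_top : nu ⊤ = ![-1, 0, 1] := rfl

lemma nu_coe (t : ℝ) : nu t = ![1 - t ^ 2, 2 * t, 1 + t ^ 2] := rfl

/-- the slope of a null vector -/
noncomputable def sl (v : V) : WithTop ℝ :=
  if v 2 + v 0 = 0 then ⊤ else ((v 1 / (v 2 + v 0) : ℝ) : WithTop ℝ)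

lemma null_nu (z : WithTop ℝ) : Null (nu z) := by
  induction z with
  | top => simp [Null, lor, nu_top]
  | coe t =>
    refine ⟨?_, ?_⟩
    · simp only [lor, nu_coe, Matrix.cons_val_zero, Matrix.cons_val_one, Matrix.cons_val]
      ring
    · simp only [nu_coe, Matrix.cons_val]
      positivity

lemma sl_nu (z : WithTop ℝ) : sl (nu z) = z := by
  induction z with
  | top => simp [sl, nu_top]
  | coe t =>
    have h : 1 + t ^ 2 + (1 - t ^ 2) = 2 := by ring
    simp [sl, nu_coe, h]

lemma sl_smul {c : ℝ} (hc : c ≠ 0) (v : V) : sl (c • v) = sl v := by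
  simp only [sl, Pi.smul_apply, smul_eq_mul, ← mul_add, mul_eq_zero, hc, false_or,
    mul_div_mul_left _ _ hc]

lemma nu_sl {v : V} (h : Null v) : ∃ c : ℝ, 0 < c ∧ nu (sl v) = c • v := by
  obtain ⟨h1, h2⟩ := h
  simp only [lor] at h1
  by_cases h0 : v 2 + v 0 = 0
  · have e0 : v 0 = -v 2 := by linarith
    have e1 : v 1 = 0 := by
      rw [e0] at h1
      exact mul_self_eq_zero.1 (by linarith)
    refine ⟨(v 2)⁻¹, inv_pos.2 h2, ?_⟩
    rw [sl, if_pos h0, nu_top]
    ext k
    fin_cases k <;> simp [e0, e1, h2.ne']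
  · have p : 0 < v 2 + v 0 := by
      refine lt_of_le_of_ne ?_ (Ne.symm h0)
      by_contra hc
      nlinarith [mul_self_nonneg (v 1)]
    refine ⟨2 / (v 2 + v 0), by positivity, ?_⟩
    rw [sl, if_neg h0, nu_coe]
    ext k
    fin_cases k
    · simp only [Fin.zero_eta, Matrix.cons_val_zero, Pi.smul_apply, smul_eq_mul]
      field_simp
      linear_combination -h1
    · simp only [Fin.mk_one, Matrix.cons_val_one, Matrix.cons_val_zero, Pi.smul_apply, smul_eq_mul]
      field_simp
    · simp only [Fin.reduceFinMk, Matrix.cons_val, Pi.smul_apply, smul_eq_mul]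
      field_simp
      linear_combination h1

lemma null_smul (w : W) {v : V} (h : Null v) : Null (w • v) :=
  ⟨by rw [lor_smul]; exact h.1, smul_future w h.1.le h.2⟩

lemma vandermonde (a b c : ℝ) : cyc a b c ↔ 0 < (b - a) * (c - a) * (c - b) := by
  constructor
  · rintro (⟨h1, h2⟩ | ⟨h1, h2⟩ | ⟨h1, h2⟩)
    · exact mul_pos (mul_pos (by linarith) (by linarith)) (by linarith)
    · exact mul_pos (mul_pos_of_neg_of_neg (by linarith) (by linarith)) (by linarith)
    · exact mul_pos_of_neg_of_neg (mul_neg_of_pos_of_neg (by linarith) (by linarith))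
        (by linarith)
  · intro h
    have h1 : a ≠ b := by rintro rfl; simp at h
    have h2 : b ≠ c := by rintro rfl; simp at h
    have h3 : a ≠ c := by rintro rfl; simp at h
    rcases cyc_total h1 h2 h3 with h4 | (⟨h4, h5⟩ | ⟨h4, h5⟩ | ⟨h4, h5⟩)
    · exact h4
    · exact absurd h (not_lt.2 (mul_neg_of_pos_of_neg
        (mul_pos_of_neg_of_neg (by linarith) (by linarith)) (by linarith)).le)
    · exact absurd h (not_lt.2 (mul_neg_of_neg_of_pos
        (mul_neg_of_neg_of_pos (by linarith) (by linarith)) (by linarith)).le)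
    · exact absurd h (not_lt.2 (mul_neg_of_pos_of_neg
        (mul_pos (by linarith) (by linarith)) (by linarith)).le)

lemma det_fin (a b c : ℝ) : det3 (nu a) (nu b) (nu c) = 4 * ((b - a) * (c - a) * (c - b)) := by
  simp only [det3, nu_coe, Matrix.cons_val_zero, Matrix.cons_val_one, Matrix.cons_val]
  ring

lemma det_top (a b : ℝ) : det3 (nu a) (nu b) (nu ⊤) = 4 * (b - a) := by
  simp only [det3, nu_coe, nu_top, Matrix.cons_val_zero, Matrix.cons_val_one, Matrix.cons_val]
  ring

lemma det_rot (x y z : V) : det3 x y z = det3 y z x := by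
  simp only [det3]
  ring

lemma det_self (x y : V) : det3 x y y = 0 := by
  simp only [det3]
  ring

lemma cyc_top (a b : WithTop ℝ) : cyc a b ⊤ ↔ 0 < det3 (nu a) (nu b) (nu ⊤) := by
  induction a with
  | top => rw [← det_rot, ← det_rot, det_self]; simp [cyc]
  | coe a =>
    induction b with
    | top => rw [det_self]; simp [cyc]
    | coe b => rw [det_top]; simp [cyc]

lemma cyc_iff (a b c : WithTop ℝ) : cyc a b c ↔ 0 < det3 (nu a) (nu b) (nu c) := by
  induction c with
  | top => exact cyc_top a b
  | coe c =>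
    induction a with
    | top => rw [cyc_rot, det_rot]; exact cyc_top _ _
    | coe a =>
      induction b with
      | top => rw [← cyc_rot, ← det_rot]; exact cyc_top _ _
      | coe b =>
        rw [det_fin, mul_pos_iff_of_pos_left (by norm_num), ← vandermonde]
        simp only [cyc, WithTop.coe_lt_coe]

lemma inj (a b : WithTop ℝ) (h : lor (nu a) (nu b) = 0) : a = b := by
  induction a with
  | top =>
    induction b with
    | top => rfl
    | coe b =>
      simp only [lor, nu_coe, nu_top, Matrix.cons_val_zero, Matrix.cons_val_one,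
        Matrix.cons_val] at h
      linarith
  | coe a =>
    induction b with
    | top =>
      simp only [lor, nu_coe, nu_top, Matrix.cons_val_zero, Matrix.cons_val_one,
        Matrix.cons_val] at h
      linarith
    | coe b =>
      simp only [lor, nu_coe, Matrix.cons_val_zero, Matrix.cons_val_one, Matrix.cons_val] at h
      have : (a - b) * (a - b) = 0 := by linarith
      rw [sub_eq_zero.1 (mul_self_eq_zero.1 this)]

/-- the action on slopes -/
@[reducible] noncomputable def act : MulAction G (WithTop ℝ) where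
  smul g z := sl (g.1 • nu z)
  one_smul z := by
    change sl ((1 : W) • nu z) = z
    rw [one_smul, sl_nu]
  mul_smul g h z := by
    change sl ((g.1 * h.1) • nu z) = sl (g.1 • nu (sl (h.1 • nu z)))
    obtain ⟨c, hc, e⟩ := nu_sl (null_smul h.1 (null_nu z))
    rw [e, smul_smul_V, sl_smul hc.ne', mul_smul]

open Classical in
/-- the attracting point -/
noncomputable def att (g : G) : WithTop ℝ :=
  if h : ∃ a : Axis, a.For g.1 then sl h.choose.ξ else ⊤

end B2a

open B2a in
theorem blockB2a (_h : StmtB1) (ha : StmtAx) : StmtB2a := by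
  refine ⟨WithTop ℝ, inferInstance, act, att, nu,
    @Link.mk _ _ act _ _ null_nu cyc_iff inj (fun g z => nu_sl (null_smul g.1 (null_nu z))) ha.ex
      fun g a hg => ?_⟩
  have h : ∃ a : Axis, a.For g.1 := ⟨a, hg⟩
  obtain ⟨-, -, -, c, hc, e, -⟩ := ha.uniq _ _ _ hg h.choose_spec
  rw [att, dif_pos h, e, sl_smul hc.ne']
  exact nu_sl a.hξ

end Pool.Agent.Lib.MP_003e01_gt
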