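import Pool.Agent.Lib.MP_003e01_gt.Blue

/-! Block B2b: the circle at infinity, algebraic facts. -/

open Set Topology

namespace Pool.Agent.Lib.MP_003e01_gt

namespace B2b

lemma null_le {x y : V} (hx : Null x) (hy : Null y) : lor x y ≤ 0 := by
  obtain ⟨h1, h2⟩ := hx
  obtain ⟨h3, h4⟩ := hy
  simp only [lor] at *
  by_contra hc
  push Not at hc
  have h5 : 0 < x 2 * y 2 := mul_pos h2 h4
  have h6 : (x 2 * y 2) ^ 2 < (x 0 * y 0 + x 1 * y 1) ^ 2 :=
    pow_lt_pow_left₀ (by linarith) h5.le (by norm_num)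
  have h7 : (x 0 * y 0 + x 1 * y 1) ^ 2 ≤
      (x 0 * x 0 + x 1 * x 1) * (y 0 * y 0 + y 1 * y 1) := by
    nlinarith [sq_nonneg (x 0 * y 1 - x 1 * y 0)]
  have h8 : x 0 * x 0 + x 1 * x 1 = x 2 * x 2 := by linarith
  have h9 : y 0 * y 0 + y 1 * y 1 = y 2 * y 2 := by linarith
  rw [h8, h9] at h7
  nlinarith

lemma det_smul (c d e : ℝ) (x y z : V) :
    det3 (c • x) (d • y) (e • z) = c * d * e * det3 x y z := by
  simp only [det3, Pi.smul_apply, smul_eq_mul]; ring

variable (ha : StmtAx) (a : Axis)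

lemma ηξ : lor a.η a.ξ = -1 := by rw [lor_comm]; exact a.hξη
lemma ξn : lor a.ξ a.n = 0 := by rw [lor_comm]; exact a.hnξ
lemma ηn : lor a.η a.n = 0 := by rw [lor_comm]; exact a.hnη

lemma for_ne {g : W} (h : a.For g) : g ≠ 1 := by
  rintro rfl
  have h1 := a.lor_flow_η 1 a.ξ
  rw [← h, one_smul, a.hξη] at h1
  have := Real.one_lt_exp_iff.mpr (show 0 < 1 * a.L by simpa using a.hL)
  linarith

include ha

lemma det_eq (x y z : V) : det3 x y z = det3 a.η a.n a.ξ *
    det3 ![-lor x a.η, -lor x a.ξ, lor x a.n] ![-lor y a.η, -lor y a.ξ, lor y a.n]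
      ![-lor z a.η, -lor z a.ξ, lor z a.n] := by
  conv_lhs => rw [ha.expand a x, ha.expand a y, ha.expand a z]
  simp only [det3, Pi.add_apply, Pi.smul_apply, smul_eq_mul, Matrix.cons_val_zero,
    Matrix.cons_val_one, Matrix.cons_val]
  ring

lemma lor_eq (x y : V) :
    lor x y = -(lor x a.η * lor y a.ξ) - lor x a.ξ * lor y a.η + lor x a.n * lor y a.n := by
  conv_lhs => rw [ha.expand a x]
  rw [lor_add_left, lor_add_left, lor_smul_left, lor_smul_left, lor_smul_left, lor_comm a.ξ,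
    lor_comm a.η, lor_comm a.n]
  ring

lemma null_pos {x : V} (hx : Null x) (h : lor x a.n ≠ 0) : lor x a.ξ < 0 ∧ lor x a.η < 0 := by
  have h1 := lor_eq ha a x x
  rw [hx.1] at h1
  have h2 := null_le hx a.hξ
  have h3 := null_le hx a.hη
  have h4 := mul_self_pos.mpr h
  constructor
  · refine lt_of_le_of_ne h2 fun e => ?_
    rw [e] at h1; linarith
  · refine lt_of_le_of_ne h3 fun e => ?_
    rw [e] at h1; linarith

variable {Z : Type} [LinearOrder Z] [MulAction G Z] {att : G → Z} {ν : Z → V} (L : Link att ν)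
include L

lemma ends {g : G} (h : a.For g.1) : ∃ c d : ℝ, 0 < c ∧ 0 < d ∧ ν (att g) = c • a.ξ ∧
    ν (att g⁻¹) = d • a.η := by
  obtain ⟨c, hc, h1⟩ := L.att g a h
  obtain ⟨b, hb, h2, -⟩ := ha.inv _ a h
  obtain ⟨d, hd, h3⟩ := L.att g⁻¹ b hb
  exact ⟨c, d, hc, hd, h1, h2 ▸ h3⟩

lemma rt_iff {g : G} (h : a.For g.1) (z : Z) :
    (Rt att g z ↔ 0 < lor (ν z) a.n) ∧ (Rt att g⁻¹ z ↔ lor (ν z) a.n < 0) ∧
      (lor (ν z) a.n = 0 ↔ z = att g ∨ z = att g⁻¹) := by
  obtain ⟨c, d, hc, hd, h1, h2⟩ := ends ha a L h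
  have hD := mul_pos (mul_pos hc hd) a.orient
  refine ⟨?_, ?_, ?_, ?_⟩
  · rw [Rt, L.cyc_iff, h1, h2]
    have : det3 (d • a.η) (ν z) (c • a.ξ) = c * d * det3 a.η a.n a.ξ * lor (ν z) a.n := by
      rw [det_eq ha a]
      simp [det3, lor_smul_left, a.hξ.1, a.hη.1, a.hξη, ηξ, ξn, ηn]; ring
    rw [this, mul_pos_iff_of_pos_left hD]
  · rw [Rt, L.cyc_iff, inv_inv, h1, h2]
    have : det3 (c • a.ξ) (ν z) (d • a.η) = c * d * det3 a.η a.n a.ξ * -lor (ν z) a.n := by
      rw [det_eq ha a]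
      simp [det3, lor_smul_left, a.hξ.1, a.hη.1, a.hξη, ηξ, ξn, ηn]; ring
    rw [this, mul_pos_iff_of_pos_left hD, neg_pos]
  · intro h0
    have h3 := lor_eq ha a (ν z) (ν z)
    rw [(L.null z).1, h0] at h3
    have h4 : lor (ν z) a.ξ * lor (ν z) a.η = 0 := by linarith
    rcases mul_eq_zero.mp h4 with h5 | h5
    · exact Or.inl (L.inj _ _ (by rw [h1, lor_smul_right, h5, mul_zero]))
    · exact Or.inr (L.inj _ _ (by rw [h2, lor_smul_right, h5, mul_zero]))
  · rintro (rfl | rfl)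
    · rw [h1, lor_smul_left, ξn, mul_zero]
    · rw [h2, lor_smul_left, ηn, mul_zero]

lemma att_ne {g : G} (h : a.For g.1) : att g ≠ att g⁻¹ := by
  obtain ⟨c, d, hc, hd, h1, h2⟩ := ends ha a L h
  intro e
  have := (L.null (att g)).1
  nth_rewrite 2 [e] at this
  rw [h1, h2, lor_smul_left, lor_smul_right, a.hξη] at this
  nlinarith [mul_pos hc hd]

lemma cyc_flow {g : G} (h : a.For g.1) (x y : Z) (n : ℕ) : cyc y (g ^ n • x) (att g) ↔
    0 < -lor (ν y) a.ξ * lor (ν x) a.n -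
      lor (ν y) a.n * (Real.exp (-(n * a.L)) * -lor (ν x) a.ξ) := by
  obtain ⟨c, hc, h1⟩ := L.att g a h
  obtain ⟨d, hd, h2⟩ := L.smul (g ^ n) x
  have h3 : (g ^ n).1 • ν x = a.flow n (ν x) := by
    have := ha.zpow _ a h n (ν x)
    simpa using this
  rw [L.cyc_iff, h1, h2, h3]
  have : det3 (ν y) (d • a.flow n (ν x)) (c • a.ξ) = c * d * det3 a.η a.n a.ξ *
      (-lor (ν y) a.ξ * lor (ν x) a.n -
      lor (ν y) a.n * (Real.exp (-(n * a.L)) * -lor (ν x) a.ξ)) := by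
    rw [det_eq ha a]
    simp [det3, lor_smul_left, a.hξ.1, a.hξη, ξn, a.lor_flow_ξ, a.lor_flow_n]; ring
  rw [this, mul_pos_iff_of_pos_left (mul_pos (mul_pos hc hd) a.orient)]

variable {a} {b : Axis} {g h : G} (hg : a.For g.1) (hh : b.For h.1)
include hg hh

lemma oc_iff : OC att g h ↔ 0 < lor b.ξ a.n ∧ lor b.η a.n < 0 := by
  obtain ⟨c, d, hc, hd, h1, h2⟩ := ends ha b L hh
  rw [OC, (rt_iff ha a L hg _).1, (rt_iff ha a L hg _).2.1, h1, h2, lor_smul_left, lor_smul_left,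
    mul_pos_iff_of_pos_left hc, ← neg_pos (a := d * _), ← mul_neg, mul_pos_iff_of_pos_left hd,
    neg_pos]

lemma cross_iff : Cross att g h ↔ lor b.ξ a.n * lor b.η a.n < 0 := by
  obtain ⟨c, d, hc, hd, h1, h2⟩ := ends ha b L hh
  have e : ∀ c x : ℝ, 0 < c → (c * x < 0 ↔ x < 0) := fun c x hc => by
    rw [← neg_pos, ← mul_neg, mul_pos_iff_of_pos_left hc, neg_pos]
  rw [Cross, (rt_iff ha a L hg _).1, (rt_iff ha a L hg _).2.1, (rt_iff ha a L hg _).1,
    (rt_iff ha a L hg _).2.1, h1, h2, lor_smul_left, lor_smul_left,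
    mul_pos_iff_of_pos_left hc, mul_pos_iff_of_pos_left hd, e _ _ hc, e _ _ hd, mul_neg_iff]
  tauto

lemma n_eq (e1 : att g = att h) (e2 : att g⁻¹ = att h⁻¹) : a.n = b.n := by
  obtain ⟨c, d, hc, hd, h1, h2⟩ := ends ha a L hg
  obtain ⟨c', d', hc', hd', h3, h4⟩ := ends ha b L hh
  rw [e1, h3] at h1
  rw [e2, h4] at h2
  have u : lor a.n b.ξ = 0 := by
    have := congrArg (lor a.n) h1
    rw [lor_smul_right, lor_smul_right, a.hnξ, mul_zero] at this
    exact (mul_eq_zero.mp this).resolve_left hc'.ne'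
  have v : lor a.n b.η = 0 := by
    have := congrArg (lor a.n) h2
    rw [lor_smul_right, lor_smul_right, a.hnη, mul_zero] at this
    exact (mul_eq_zero.mp this).resolve_left hd'.ne'
  have h5 := ha.expand b a.n
  have h6 := lor_eq ha b a.n a.n
  rw [u, v] at h5 h6
  rw [a.hn] at h6
  simp only [neg_zero, zero_smul, zero_add] at h5
  have h7 := det_smul d 1 c a.η a.n a.ξ
  rw [← h1, ← h2, one_smul] at h7
  nth_rewrite 1 [h5] at h7
  rw [det_smul] at h7
  have h8 : 0 < lor a.n b.n := by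
    have := mul_pos (mul_pos (mul_pos hd one_pos) hc) a.orient
    rw [← h7] at this
    have h9 := mul_pos (mul_pos hd' hc') b.orient
    by_contra hc
    nlinarith
  have : lor a.n b.n = 1 := by nlinarith
  rw [h5, this, one_smul]

end B2b

open B2b in
theorem blockB2b (h : StmtB1) (ha : StmtAx) : StmtB2b := by
  intro Z _ _ att ν L
  have smul_cyc : ∀ (g : G) (a b c : Z), cyc (g • a) (g • b) (g • c) ↔ cyc a b c := by
    intro g a b c
    obtain ⟨c1, h1, e1⟩ := L.smul g a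
    obtain ⟨c2, h2, e2⟩ := L.smul g b
    obtain ⟨c3, h3, e3⟩ := L.smul g c
    rw [L.cyc_iff, L.cyc_iff, e1, e2, e3, det_smul, h.det, g.2.1, g.2.2,
      mul_pos_iff_of_pos_left (by positivity)]
    simp
  have conj : ∀ (g w : G), g ≠ 1 → att (w * g * w⁻¹) = w • att g := by
    intro g w hg
    obtain ⟨a, h1⟩ := L.axis g hg
    obtain ⟨b, h2, h3, -⟩ := ha.conj _ w.1 a h1
    obtain ⟨c, _, e1⟩ := L.att g a h1
    obtain ⟨d, _, e2⟩ := L.att (w * g * w⁻¹) b h2
    obtain ⟨e, _, e3⟩ := L.smul w (att g)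
    refine L.inj _ _ ?_
    rw [e2, e3, e1, h3, smul_smul_V, lor_smul_left, lor_smul_right, lor_smul_right, lor_smul,
      a.hξ.1]
    simp
  refine ⟨smul_cyc, fun g hg => ?_, fun g hg => ?_, fun g w hg => conj g w hg,
    fun g n hg hn => ?_, fun g z hg hz => ?_, fun g x y hg hx hy => ?_,
    fun g a z hg => rt_iff ha a L hg z, fun g k a b hg hk => ⟨?_, ?_, ?_, ?_, ?_⟩⟩
  · rw [← conj g g hg]; simp
  · obtain ⟨a, h1⟩ := L.axis g hg
    exact att_ne ha a L h1
  · obtain ⟨a, h1⟩ := L.axis g hg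
    obtain ⟨b, h2, h3, -⟩ := ha.pow _ a n h1 hn
    obtain ⟨c, _, e1⟩ := L.att g a h1
    obtain ⟨d, _, e2⟩ := L.att (g ^ n) b h2
    refine ⟨fun e => for_ne b h2 (congrArg Subtype.val e), L.inj _ _ ?_⟩
    rw [e1, e2, h3, lor_smul_left, lor_smul_right, a.hξ.1]; simp
  · obtain ⟨a, h1⟩ := L.axis g hg
    have h2 := (rt_iff ha a L h1 z).1.mp hz
    have h3 := (null_pos ha a (L.null z) h2.ne').1
    have h4 := (cyc_flow ha a L h1 z z 1).mpr (by
      have : Real.exp (-(((1:ℕ):ℝ) * a.L)) < 1 := Real.exp_lt_one_iff.mpr (by simpa using a.hL)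
      nlinarith [mul_pos h2 (neg_pos.mpr h3)])
    simpa using h4
  · obtain ⟨a, h1⟩ := L.axis g hg
    have h2 := (rt_iff ha a L h1 x).1.mp hx
    have h3 := neg_pos.mpr (null_pos ha a (L.null x) h2.ne').1
    have h4 := (rt_iff ha a L h1 y).1.mp hy
    have h5 := neg_pos.mpr (null_pos ha a (L.null y) h4.ne').1
    obtain ⟨n, hn⟩ := exists_pow_lt_of_lt_one (div_pos (mul_pos h5 h2) (mul_pos h4 h3))
      (Real.exp_lt_one_iff.mpr (neg_lt_zero.mpr a.hL))
    refine ⟨n, (cyc_flow ha a L h1 x y n).mpr ?_⟩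
    rw [← Real.exp_nat_mul, lt_div_iff₀ (mul_pos h4 h3), mul_neg] at hn
    linarith
  · have h1 := lor_eq ha b a.n a.n
    rw [a.hn, lor_comm a.n b.ξ, lor_comm a.n b.η] at h1
    rw [cross_iff ha L hg hk, ← sq_lt_one_iff_abs_lt_one]
    constructor <;> intro h2 <;> nlinarith
  · rw [cross_iff ha L hg hk]
    intro h1
    set u := lor b.ξ a.n with hu
    set v := lor b.η a.n with hv
    have hu0 : 0 < |u| := abs_pos.mpr (left_ne_zero_of_mul h1.ne)
    have hv0 : 0 < |v| := abs_pos.mpr (right_ne_zero_of_mul h1.ne)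
    set k := √(2 * |u| * |v|) with hk'
    have hk0 : 0 < k := Real.sqrt_pos.mpr (by positivity)
    have hk2 : k * k = 2 * |u| * |v| := Real.mul_self_sqrt (by positivity)
    refine ⟨⟨(|v| / k) • b.ξ + (|u| / k) • b.η, ?_, ?_⟩, ?_, ?_⟩
    · simp only [lor_add_left, lor_add_right, lor_smul_left, lor_smul_right, b.hξ.1, b.hη.1,
        b.hξη, ηξ]
      field_simp; linarith
    · have := b.hξ.2
      have := b.hη.2
      simp only [Pi.add_apply, Pi.smul_apply, smul_eq_mul]; positivity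
    · simp only [lor_add_left, lor_smul_left, ← hu, ← hv]
      field_simp
      rcases mul_neg_iff.mp h1 with ⟨h2, h3⟩ | ⟨h2, h3⟩
      · rw [abs_of_pos h2, abs_of_neg h3]; ring
      · rw [abs_of_pos h3, abs_of_neg h2]; ring
    · simp only [lor_add_left, lor_smul_left, ξn, ηn]; simp
  · have h1 : det3 b.n a.n x0.1 = det3 b.η b.n b.ξ *
        (lor b.ξ a.n * -lor x0.1 b.η - lor b.η a.n * -lor x0.1 b.ξ) := by
      rw [det_eq ha b, lor_comm a.n b.ξ, lor_comm a.n b.η]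
      simp [det3, b.hn, b.hnξ, b.hnη]; left; ring
    have h2 := neg_pos.mpr (lor_null_neg x0 b.hξ)
    have h3 := neg_pos.mpr (lor_null_neg x0 b.hη)
    rw [oc_iff ha L hg hk, cross_iff ha L hg hk, h1, mul_pos_iff_of_pos_left b.orient]
    constructor
    · rintro ⟨h4, h5⟩
      exact ⟨mul_neg_of_pos_of_neg h4 h5, by nlinarith [mul_pos h4 h3, mul_pos (neg_pos.mpr h5) h2]⟩
    · rintro ⟨h4, h5⟩
      rcases mul_neg_iff.mp h4 with h6 | ⟨h6, h7⟩
      · exact h6
      · nlinarith [mul_pos h7 h2, mul_pos (neg_pos.mpr h6) h3]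
  · intro z h1 h2
    rw [cross_iff ha L hg hk]
    have h3 := lor_eq ha b z.1 a.n
    have h4 := lor_null_neg z b.hξ
    have h5 := lor_null_neg z b.hη
    rw [h1, h2, lor_comm a.n b.ξ, lor_comm a.n b.η] at h3
    by_cases h6 : lor b.ξ a.n = 0
    · have h7 : lor b.η a.n = 0 := by
        rw [h6] at h3
        have : lor z.1 b.ξ * lor b.η a.n = 0 := by linarith
        exact (mul_eq_zero.mp this).resolve_left h4.ne
      have h8 := ha.expand b a.n
      have h9 := lor_eq ha b a.n a.n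
      rw [lor_comm a.n b.ξ, lor_comm a.n b.η, h6, h7] at h8 h9
      rw [a.hn] at h9
      simp only [neg_zero, zero_smul, zero_add] at h8
      rcases mul_self_eq_one_iff.mp (show lor a.n b.n * lor a.n b.n = 1 by linarith) with e | e
      · right; left; rw [h8, e, one_smul]
      · right; right; rw [h8, e, neg_one_smul]
    · left
      have := mul_self_pos.mpr h6
      by_contra hc
      push Not at hc
      have h7 := mul_nonneg (neg_pos.mpr h4).le hc
      have h8 := mul_pos (neg_pos.mpr h5) this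
      have h9 : -lor z.1 b.ξ * (lor b.ξ a.n * lor b.η a.n) +
          -lor z.1 b.η * (lor b.ξ a.n * lor b.ξ a.n) = 0 := by
        linear_combination (-lor b.ξ a.n) * h3
      linarith
  · refine ⟨fun e => ?_, fun e => n_eq ha L hg hk e.1 e.2⟩
    have h1 := (rt_iff ha a L hg (att k)).2.2.mp
      (e ▸ (rt_iff ha b L hk (att k)).2.2.mpr (Or.inl rfl))
    have h2 := (rt_iff ha a L hg (att k⁻¹)).2.2.mp
      (e ▸ (rt_iff ha b L hk (att k⁻¹)).2.2.mpr (Or.inr rfl))
    have h3 := att_ne ha b L hk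
    rcases h1 with h1 | h1 <;> rcases h2 with h2 | h2
    · exact absurd (h1.trans h2.symm) h3
    · exact ⟨h1.symm, h2.symm⟩
    · obtain ⟨a', h4, -, -, h5, -⟩ := ha.inv _ a hg
      have h6 := n_eq ha L (g := g⁻¹) h4 hk h1.symm (by rw [inv_inv]; exact h2.symm)
      rw [h5, ← e] at h6
      have h7 := congrArg (lor a.n) h6
      rw [lor_neg_right, a.hn] at h7
      norm_num at h7
    · exact absurd (h1.trans h2.symm) h3

end Pool.Agent.Lib.MP_003e01_gt
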