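import Pool.Agent.Lib.MP_003e01_gt.Blue

/-! Block B2c: stabilisers of attracting points are cyclic; every axis is crossed by an axis. -/

open Set Topology

namespace Pool.Agent.Lib.MP_003e01_gt

namespace B2c

lemma eig (ha : StmtAx) (b : Axis) {ζ : V} (hζ : Null ζ) {μ : ℝ} (h : b.flow 1 ζ = μ • ζ) :
    (μ = Real.exp b.L ∧ lor ζ b.ξ = 0) ∨ μ = Real.exp (-b.L) := by
  have h1 := b.lor_flow_η 1 ζ
  have h2 := b.lor_flow_ξ 1 ζ
  rw [h, lor_smul_left, one_mul] at h1 h2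
  by_cases hβ : lor ζ b.ξ = 0
  · left
    refine ⟨mul_right_cancel₀ (fun hα => ?_) h1, hβ⟩
    have he := ha.expand b ζ
    rw [hα, hβ, neg_zero, zero_smul, zero_smul, zero_add, zero_add] at he
    have h3 := hζ.1
    rw [he, lor_smul_left, lor_smul_right, b.hn, mul_one, mul_self_eq_zero] at h3
    have h4 := hζ.2
    rw [he, h3, zero_smul] at h4
    simp at h4
  · exact Or.inr (mul_right_cancel₀ hβ h2)

/-- `h` scales `ξ` by `μ` -/
def Sc (ξ : V) (h : G) (μ : ℝ) : Prop := h.1 • ξ = μ • ξ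

lemma Sc.pos {ξ : V} (hξ : Null ξ) {h : G} {μ : ℝ} (H : Sc ξ h μ) : 0 < μ := by
  have := smul_future h.1 hξ.1.le hξ.2
  rw [H, Pi.smul_apply, smul_eq_mul] at this
  exact (mul_pos_iff_of_pos_right hξ.2).1 this

lemma Sc.mul {ξ : V} {h k : G} {μ μ' : ℝ} (H : Sc ξ h μ) (K : Sc ξ k μ') :
    Sc ξ (h * k) (μ * μ') := by
  unfold Sc at *
  rw [Subgroup.coe_mul, mul_smul, K, smul_smul_V, H, smul_smul, mul_comm]

lemma Sc.inv {ξ : V} (hξ : Null ξ) {h : G} {μ : ℝ} (H : Sc ξ h μ) : Sc ξ h⁻¹ μ⁻¹ := by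
  have h0 := (H.pos hξ).ne'
  unfold Sc at *
  rw [Subgroup.coe_inv, inv_smul_eq_iff, smul_smul_V, H, smul_smul, inv_mul_cancel₀ h0, one_smul]

lemma Sc.zpow {ξ : V} (hξ : Null ξ) {h : G} {μ : ℝ} (H : Sc ξ h μ) (m : ℤ) :
    Sc ξ (h ^ m) (μ ^ m) := by
  have h0 := (H.pos hξ).ne'
  induction m using Int.induction_on with
  | zero => simp [Sc]
  | succ m ih => rw [zpow_add_one, zpow_add_one₀ h0]; exact ih.mul H
  | pred m ih => rw [zpow_sub_one, zpow_sub_one₀ h0]; exact ih.mul (H.inv hξ)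

lemma Sc.eq_one (ha : StmtAx) {ξ : V} (hξ : Null ξ) {h : G} (H : Sc ξ h 1) : h = 1 := by
  by_contra hne
  obtain ⟨b, hb⟩ := ha.ex h hne
  have hL := b.hL
  rcases eig ha b hξ ((hb ξ).symm.trans H) with h1 | h1
  · exact hL.ne' (Real.exp_eq_one_iff _ |>.1 h1.1.symm)
  · have := Real.exp_eq_one_iff _ |>.1 h1.symm
    linarith

lemma Sc.val {a : Axis} {h : G} {μ : ℝ} (H : Sc a.ξ h μ) : -lor (h.1 • a.ξ) a.η = μ := by
  rw [H, lor_smul_left, a.hξη]; ring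

lemma sc_axis {g : G} {a : Axis} (hg : a.For g.1) : Sc a.ξ g (Real.exp a.L) := by
  unfold Sc
  rw [hg, Axis.flow, a.hξη, a.hξ.1]
  ext k; simp only [Pi.sub_apply, Pi.smul_apply, smul_eq_mul]; ring_nf

lemma Sc.eta (ha : StmtAx) {g h : G} {a : Axis} (hg : a.For g.1) {μ : ℝ} (H : Sc a.ξ h μ) :
    h.1 • a.η = μ⁻¹ • a.η := by
  have h0 := (H.pos a.hξ).ne'
  have h1 := ((H.mul (sc_axis hg)).mul (H.inv a.hξ)).mul ((sc_axis hg).inv a.hξ)
  rw [show μ * Real.exp a.L * μ⁻¹ * (Real.exp a.L)⁻¹ = 1 by field_simp] at h1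
  have h2 : h * g * h⁻¹ = g := mul_inv_eq_one.1 (h1.eq_one ha a.hξ)
  obtain ⟨b, hb, hb1, hb2, -⟩ := ha.conj g.1 h.1 a hg
  have h3 : h.1 * g.1 * h.1⁻¹ = g.1 := congrArg Subtype.val h2
  rw [h3] at hb
  obtain ⟨-, -, -, c, -, hc1, hc2⟩ := ha.uniq g.1 a b hg hb
  have h4 : Sc a.ξ h c := hb1.symm.trans hc1
  rw [← hb2, hc2, ← h4.val, H.val]

lemma fin_sc (h : StmtB1) (ha : StmtAx) {g : G} {a : Axis} (hg : a.For g.1) (E : ℝ) :
    {k : G | ∃ μ, Sc a.ξ k μ ∧ 1 < μ ∧ μ ≤ E}.Finite := by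
  obtain ⟨e, -, he⟩ := ha.fermi a
  have h0 := he 0 0
  simp only [zero_mul, neg_zero, Real.exp_zero, one_smul, zero_smul, add_zero] at h0
  set z := e (0, 0)
  set r := √((1 + (0 : ℝ) ^ 2) / 2)
  have hr : 0 ≤ r := Real.sqrt_nonneg _
  refine ((h.proper {z} _ isCompact_singleton (h.ball (E * z.1 2))).preimage
    Subtype.val_injective.injOn).subset ?_
  rintro k ⟨μ, hk, h1, h2⟩
  refine ⟨z, rfl, ?_⟩
  show (k.1 • z.1) 2 ≤ E * z.1 2
  rw [h0, smul_smul_V, smul_add_V, hk, hk.eta ha hg]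
  simp only [Pi.smul_apply, Pi.add_apply, smul_eq_mul]
  have h3 : μ⁻¹ ≤ E := (inv_le_one_of_one_le₀ h1.le).trans (by linarith)
  have h4 := mul_le_mul_of_nonneg_right h2 a.hξ.2.le
  have h5 := mul_le_mul_of_nonneg_right h3 a.hη.2.le
  nlinarith [mul_le_mul_of_nonneg_left (add_le_add h4 h5) hr]

lemma root (h : StmtB1) (ha : StmtAx) {Z : Type} [LinearOrder Z] [MulAction G Z] {att : G → Z}
    {ν : Z → V} (hl : Link att ν) (g : G) (hg1 : g ≠ 1) : ∃ t : G, t ≠ 1 ∧ att t = att g ∧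
      ∀ k : G, k • att g = att g → k ∈ Subgroup.zpowers t := by
  obtain ⟨a, hg⟩ := ha.ex g hg1
  obtain ⟨c, hc, hν⟩ := hl.att g a hg
  have hE : 1 < Real.exp a.L := Real.one_lt_exp_iff.2 a.hL
  obtain ⟨t, ⟨μ, ht, ht1, ht2⟩, hmin⟩ := Set.exists_min_image _
    (fun k : G => -lor (k.1 • a.ξ) a.η) (fin_sc h ha hg (Real.exp a.L))
    ⟨g, _, sc_axis hg, hE, le_rfl⟩
  have hne : t ≠ 1 := by
    rintro rfl
    have := ht.val
    simp only [OneMemClass.coe_one, one_smul, a.hξη] at this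
    linarith
  refine ⟨t, hne, ?_, fun k hk => ?_⟩
  · obtain ⟨b, hb⟩ := ha.ex t hne
    obtain ⟨c', -, hν'⟩ := hl.att t b hb
    refine hl.inj _ _ ?_
    rcases eig ha b a.hξ ((hb _).symm.trans ht) with h1 | h1
    · rw [hν, hν', lor_smul_left, lor_smul_right, lor_comm, h1.2]; ring
    · have : Real.exp (-b.L) < 1 := Real.exp_lt_one_iff.2 (by linarith [b.hL])
      linarith
  · obtain ⟨d, hd, hs⟩ := hl.smul k (att g)
    rw [hk, hν, smul_smul_V, smul_comm] at hs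
    have hk1 : Sc a.ξ k d⁻¹ := by
      unfold Sc
      rw [eq_inv_smul_iff₀ hd.ne']
      exact (smul_right_injective V hc.ne' hs).symm
    obtain ⟨m, hm1, hm2⟩ := exists_mem_Ico_zpow (inv_pos.2 hd) ht1
    have hμ : 0 < μ := by linarith
    have hp : 0 < μ ^ m := zpow_pos hμ m
    have h1 := ((ht.zpow a.hξ m).inv a.hξ).mul hk1
    have h2 : 1 ≤ (μ ^ m)⁻¹ * d⁻¹ := by rwa [le_inv_mul_iff₀ hp, mul_one]
    have h3 : (μ ^ m)⁻¹ * d⁻¹ < μ := by rwa [inv_mul_lt_iff₀ hp, ← zpow_add_one₀ hμ.ne']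
    rcases h2.eq_or_lt with h4 | h4
    · rw [← h4] at h1
      exact ⟨m, inv_mul_eq_one.1 (h1.eq_one ha a.hξ)⟩
    · have := hmin _ ⟨_, h1, h4, by linarith⟩
      simp only [ht.val, h1.val] at this
      linarith

/-- the closed half plane beyond `P` lies in the open half plane beyond `n` -/
def Nest (P n : V) : Prop := ∀ ζ : V, lor ζ ζ ≤ 0 → 0 < ζ 2 → 0 ≤ lor ζ P → 0 < lor ζ n

lemma nest_aux {A B σ : ℝ} (hA : 4 ≤ A ^ 2) (hA0 : 0 < A) (hB : B ^ 2 = A ^ 2 - 1) (hB0 : 0 < B)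
    (hσ : σ ^ 2 = 1) {m : V} (hm : lor m m = 1) (h2 : m 2 ≤ -1) (h0 : 0 ≤ σ * m 0) :
    Nest ![A * σ, 0, B] m := by
  intro ζ h3 h4 h5
  simp only [lor, Matrix.cons_val_zero, Matrix.cons_val_one, Matrix.cons_val] at *
  have a1 : B * ζ 2 ≤ A * (σ * ζ 0) := by linarith
  have a2 : 0 < σ * ζ 0 := (mul_pos_iff_of_pos_left hA0).1 ((mul_pos hB0 h4).trans_le a1)
  have a3 : (B * ζ 2) ^ 2 ≤ (A * (σ * ζ 0)) ^ 2 := pow_le_pow_left₀ (by positivity) a1 2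
  rw [mul_pow, mul_pow, mul_pow, hσ, hB, one_mul] at a3
  have a4 : 4 * ζ 1 ^ 2 ≤ ζ 2 ^ 2 := by
    have : A ^ 2 * ζ 1 ^ 2 ≤ A ^ 2 * (ζ 2 ^ 2 - ζ 0 ^ 2) :=
      mul_le_mul_of_nonneg_left (by nlinarith) (by positivity)
    nlinarith [sq_nonneg (ζ 1)]
  have a5 : 0 ≤ ζ 0 * m 0 := by
    have := mul_nonneg a2.le h0
    rwa [show σ * ζ 0 * (σ * m 0) = σ ^ 2 * (ζ 0 * m 0) by ring, hσ, one_mul] at this
  have a6 : m 1 ^ 2 ≤ 2 * m 2 ^ 2 := by nlinarith [sq_nonneg (m 0)]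
  have a7 : (ζ 1 * m 1) ^ 2 < (ζ 2 * -m 2) ^ 2 := by
    have b1 : 4 * ζ 1 ^ 2 * m 1 ^ 2 ≤ ζ 2 ^ 2 * (2 * m 2 ^ 2) :=
      mul_le_mul a4 a6 (by positivity) (by positivity)
    have b2 : 0 < ζ 2 ^ 2 * m 2 ^ 2 := mul_pos (by positivity) (by nlinarith)
    nlinarith
  have a8 := abs_lt_of_sq_lt_sq' a7 (mul_nonneg h4.le (by linarith))
  linarith [a8.1]

lemma nest_pole {m : V} (hm : lor m m = 1) (h2 : m 2 ≤ -1) :
    ∃ i : Fin 12, i.val % 2 = 0 ∧ Nest (pole i) m := by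
  have h3 : 0 ≤ √3 := Real.sqrt_nonneg 3
  have hA : √(4 + 2 * √3) ^ 2 = 4 + 2 * √3 := Real.sq_sqrt (by positivity)
  have hB : √(3 + 2 * √3) ^ 2 = 3 + 2 * √3 := Real.sq_sqrt (by positivity)
  rcases le_total 0 (m 0) with h | h
  · refine ⟨0, rfl, ?_⟩
    have : pole 0 = ![√(4 + 2 * √3) * 1, 0, √(3 + 2 * √3)] := by simp [pole]
    rw [this]
    exact nest_aux (by linarith) (by positivity) (by linarith) (by positivity) (by norm_num) hm h2
      (by linarith)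
  · refine ⟨6, rfl, ?_⟩
    have e : (((6 : Fin 12) : ℕ) : ℝ) * Real.pi / 6 = Real.pi := by
      have e1 : ((6 : Fin 12) : ℕ) = 6 := rfl
      rw [e1]; push_cast; ring
    have : pole 6 = ![√(4 + 2 * √3) * -1, 0, √(3 + 2 * √3)] := by
      simp only [pole, e, Real.cos_pi, Real.sin_pi, mul_zero]
    rw [this]
    exact nest_aux (by linarith) (by positivity) (by linarith) (by positivity) (by norm_num) hm h2
      (by linarith)

lemma far_side (z : X) {m : V} (hm : lor m m = 1) (h : 3 * z.1 2 < lor z.1 m) : m 2 ≤ -1 := by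
  by_contra hc
  push Not at hc
  obtain ⟨h1, h2⟩ := z.2
  simp only [lor] at *
  have a1 : (z.1 0 * m 0 + z.1 1 * m 1) ^ 2 ≤ (z.1 2 * (1 + |m 2|)) ^ 2 := by
    have b1 : (z.1 0 * m 0 + z.1 1 * m 1) ^ 2 ≤
        (z.1 0 * z.1 0 + z.1 1 * z.1 1) * (m 0 * m 0 + m 1 * m 1) := by
      nlinarith [sq_nonneg (z.1 0 * m 1 - z.1 1 * m 0)]
    have b2 : m 0 * m 0 + m 1 * m 1 ≤ (1 + |m 2|) ^ 2 := by
      nlinarith [abs_nonneg (m 2), sq_abs (m 2)]
    rw [mul_pow]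
    refine b1.trans (mul_le_mul (by nlinarith) b2 ?_ (by positivity))
    nlinarith [mul_self_nonneg (m 0), mul_self_nonneg (m 1)]
  have a2 := (abs_le_of_sq_le_sq' a1 (by positivity)).2
  have a3 : |m 2| - m 2 ≤ 2 := by
    rcases abs_cases (m 2) with h | h <;> linarith [h.1]
  nlinarith [mul_le_mul_of_nonneg_left a3 h2.le]

/-- a blue reflection whose wall lies beyond `n` -/
lemma exists_refl (h : StmtB1) {n : V} (hn : lor n n = 1) (hz : ∀ t : ℝ, ∃ z : X, lor z.1 n = t) :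
    ∃ (r : W) (P : V), lor P P = 1 ∧ (∀ x : V, r • x = x - (2 * lor x P) • P) ∧ r * r = 1 ∧
      chB r = -1 ∧ chR r = 1 ∧ Nest P n := by
  obtain ⟨R, hR⟩ := h.compact.bddAbove_image (f := fun z : X => z.1 2)
    ((continuous_apply 2).comp continuous_subtype_val).continuousOn
  obtain ⟨z, hz⟩ := hz (3 * R + 1)
  obtain ⟨w, z', hz', rfl⟩ := h.cover z
  have h1 : z'.1 2 ≤ R := hR ⟨z', hz', rfl⟩
  have key : ∀ x y : V, lor (w⁻¹ • x) y = lor x (w • y) := fun x y => by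
    rw [← lor_smul w, smul_inv_smul]
  have hm : lor (w⁻¹ • n) (w⁻¹ • n) = 1 := by rw [lor_smul, hn]
  have h2 : lor z'.1 (w⁻¹ • n) = 3 * R + 1 := by
    rw [← hz, smul_val, ← lor_smul w, smul_inv_smul]
  obtain ⟨i, hi, hN⟩ := nest_pole hm (far_side z' hm (by linarith))
  refine ⟨w * sr i * w⁻¹, w • pole i, by rw [lor_smul, lor_pole_self], fun x => ?_, ?_, ?_, ?_,
    fun ζ a1 a2 a3 => ?_⟩
  · rw [mul_smul, mul_smul, sr_smul, smul_sub_V, smul_smul_V, smul_inv_smul, key]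
  · rw [show w * sr i * w⁻¹ * (w * sr i * w⁻¹) = w * (sr i * sr i) * w⁻¹ by group,
      cs.simple_mul_simple_self]
    group
  · rw [map_mul, map_mul, mul_right_comm, ← map_mul, chB_sr, if_pos hi]; simp
  · rw [map_mul, map_mul, mul_right_comm, ← map_mul, chR_sr, if_pos hi]; simp
  · have := hN (w⁻¹ • ζ) (by rwa [lor_smul]) (smul_future _ a1 a2) (by rwa [key])
    rwa [lor_smul] at this

lemma ends (ha : StmtAx) {k r : W} {P n : V} {b : Axis} (hb : b.For k) (hP : lor P P = 1)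
    (hr : ∀ x : V, r • x = x - (2 * lor x P) • P) (hk : r * k * r⁻¹ = k⁻¹) (hN : Nest P n) :
    0 < lor b.ξ n ∨ 0 < lor b.η n := by
  obtain ⟨b1, hb1, e1, -⟩ := ha.conj k r b hb
  obtain ⟨b2, hb2, e2, -⟩ := ha.inv k b hb
  rw [hk] at hb1
  obtain ⟨-, -, -, c, hc, e3, -⟩ := ha.uniq _ b2 b1 hb2 hb1
  have h1 : lor (r • b.ξ) P = lor (c • b.η) P := by rw [← e1, e3, e2]
  rw [hr, lor_sub_smul, hP, lor_smul_left] at h1
  rcases le_total 0 (lor b.ξ P) with h | h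
  · exact Or.inl (hN _ b.hξ.1.le b.hξ.2 h)
  · exact Or.inr (hN _ b.hη.1.le b.hη.2 (nonneg_of_mul_nonneg_right (by linarith) hc))

lemma dense (h : StmtB1) (ha : StmtAx) (hb : StmtB2b) {Z : Type} [LinearOrder Z] [MulAction G Z]
    {att : G → Z} {ν : Z → V} (hl : Link att ν) (g : G) (hg1 : g ≠ 1) :
    ∃ k : G, k ≠ 1 ∧ Cross att g k := by
  obtain ⟨a, hg⟩ := ha.ex g hg1
  obtain ⟨e, -, he⟩ := ha.fermi a
  have hz : ∀ t : ℝ, lor (e (0, t)).1 a.n = t := fun t => by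
    rw [he, lor_add_left, lor_smul_left, lor_smul_left, lor_add_left, lor_smul_left, lor_smul_left,
      lor_comm a.ξ, lor_comm a.η, a.hnξ, a.hnη, a.hn]
    ring
  obtain ⟨r1, P1, p1, f1, s1, b1, c1, n1⟩ := exists_refl h a.hn fun t => ⟨_, hz t⟩
  obtain ⟨r2, P2, p2, f2, s2, b2, c2, n2⟩ := exists_refl h (n := -a.n)
    (by rw [lor_neg_left, lor_neg_right, neg_neg, a.hn])
    fun t => ⟨e (0, -t), by rw [lor_neg_right, hz, neg_neg]⟩
  have i1 : r1⁻¹ = r1 := inv_eq_of_mul_eq_one_right s1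
  have i2 : r2⁻¹ = r2 := inv_eq_of_mul_eq_one_right s2
  let k : G := ⟨r1 * r2, by rw [map_mul, b1, b2]; norm_num, by rw [map_mul, c1, c2]; norm_num⟩
  have hk : k ≠ 1 := by
    intro hk
    have h1 : r1 * r2 = 1 := congrArg Subtype.val hk
    have h2 : r1 = r2 := by rw [← i2]; exact eq_inv_of_mul_eq_one_left h1
    set ζ : V := x0.1 - lor x0.1 P2 • P2 with hζ
    have a1 : lor ζ P2 = 0 := by rw [hζ, lor_sub_smul, p2]; ring
    have a2 : lor ζ P1 = 0 := by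
      have h3 := congrArg (fun x => lor x P1) ((f1 ζ).symm.trans (h2 ▸ f2 ζ))
      simp only [lor_sub_smul, p1, a1] at h3
      linarith
    have a3 : lor ζ ζ ≤ 0 := by
      conv_lhs => rw [hζ, lor_sub_smul, lor_comm P2, ← hζ, a1, lor_comm, hζ, lor_sub_smul, x0.2.1,
        lor_comm P2]
      nlinarith [mul_self_nonneg (lor x0.1 P2)]
    have a4 : 0 < ζ 2 := by
      simp only [hζ, x0, lor, Pi.sub_apply, Pi.smul_apply, smul_eq_mul, Matrix.cons_val_zero,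
        Matrix.cons_val_one, Matrix.cons_val]
      nlinarith [mul_self_nonneg (P2 2)]
    have a5 := n1 ζ a3 a4 a2.ge
    have a6 := n2 ζ a3 a4 a1.ge
    rw [lor_neg_right] at a6
    linarith
  obtain ⟨b, hkb⟩ := ha.ex k hk
  have e1 := ends ha hkb p1 f1 (k := r1 * r2)
    (by rw [mul_inv_rev, i1, i2, ← mul_assoc, s1, one_mul]) n1
  have e2 := ends ha hkb p2 f2 (k := r1 * r2)
    (by rw [mul_inv_rev, i1, i2, mul_assoc, mul_assoc, s2, mul_one]) n2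
  rw [lor_neg_right, lor_neg_right] at e2
  obtain ⟨b', hb', e3, -⟩ := ha.inv k.1 b hkb
  obtain ⟨c, hc, v1⟩ := hl.att k b hkb
  obtain ⟨c', hc', v2⟩ := hl.att k⁻¹ b' hb'
  rw [e3] at v2
  have R := fun z => (hb Z att ν hl).rt_iff g a z hg
  refine ⟨k, hk, ?_⟩
  unfold Cross
  rw [(R _).1, (R _).2.1, (R _).1, (R _).2.1, v1, v2, lor_smul_left, lor_smul_left]
  rcases e1 with e1 | e1 <;> rcases e2 with e2 | e2
  · linarith
  · exact Or.inl ⟨mul_pos hc e1, mul_neg_of_pos_of_neg hc' (by linarith)⟩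
  · exact Or.inr ⟨mul_pos hc' e1, mul_neg_of_pos_of_neg hc (by linarith)⟩
  · linarith

end B2c

theorem blockB2c (h : StmtB1) (ha : StmtAx) (hb : StmtB2b) : StmtB2c :=
  fun _ _ _ _ _ hl => ⟨B2c.root h ha hl, B2c.dense h ha hb hl⟩

end Pool.Agent.Lib.MP_003e01_gt
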