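import Pool.Agent.Lib.MP_003e01_gt.Blue

/-! Block B2d: finiteness of crossings and of separating lifts. -/

open Set Topology

namespace Pool.Agent.Lib.MP_003e01_gt

namespace B2d

variable (h : StmtB1) (ha : StmtAx)
include ha

lemma reduce {g : G} {a : Axis} (hg : a.For g.1) : ∃ K : Set X, IsCompact K ∧
    ∀ z : X, lor z.1 a.n = 0 → ∃ m : ℤ, g ^ m • z ∈ K := by
  obtain ⟨e, ⟨h1, h2⟩, -⟩ := ha.fermi a
  refine ⟨e '' (Icc 0 1 ×ˢ {0}), (isCompact_Icc.prod isCompact_singleton).image e.continuous,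
    fun z hz => ?_⟩
  obtain ⟨q, rfl⟩ := e.surjective z
  rw [h1] at hz
  refine ⟨-⌊q.1⌋, (q.1 + ((-⌊q.1⌋ : ℤ) : ℝ), q.2), ⟨⟨?_, ?_⟩, hz⟩, ?_⟩
  · have := Int.floor_le q.1; push_cast; linarith
  · have := Int.lt_floor_add_one q.1; push_cast; linarith
  · rw [← h2]
    exact Subtype.ext (ha.zpow _ a hg _ _).symm

lemma conj_axis {c : G} {a : Axis} (hc : a.For c.1) (w : G) :
    ∃ b : Axis, b.For (w * c * w⁻¹).1 ∧ ∀ z : X, lor (w⁻¹ • z).1 a.n = lor z.1 b.n := by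
  obtain ⟨b, h1, -, -, h2, -⟩ := ha.conj _ w.1 a hc
  refine ⟨b, h1, fun z => ?_⟩
  rw [h2, w.2.1, w.2.2, mul_one, one_smul, ← lor_smul w.1]
  congr 1
  exact smul_inv_smul w.1 z.1

include h

/-- finitely many conjugates of `c` have an axis meeting a compact set -/
lemma fin_conj {c : G} {a : Axis} (hc : a.For c.1) {K : Set X} (hK : IsCompact K) :
    {u : G | ∃ w : G, u = w * c * w⁻¹ ∧ ∃ z ∈ K, lor (w⁻¹ • z).1 a.n = 0}.Finite := by
  obtain ⟨K', h1, h2⟩ := reduce ha hc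
  have h3 : {w : G | ∃ z ∈ K', w • z ∈ K}.Finite :=
    Finite.preimage (f := fun w : G => w.1) Subtype.val_injective.injOn (h.proper K' K h1 hK)
  refine (h3.image fun w => w * c * w⁻¹).subset ?_
  rintro u ⟨w, rfl, z, hz, h4⟩
  obtain ⟨m, hm⟩ := h2 _ h4
  refine ⟨w * (c ^ m)⁻¹, ⟨_, hm, ?_⟩, by simp only; group⟩
  rwa [mul_smul, inv_smul_smul, smul_inv_smul]

end B2d

open B2d in
theorem blockB2d (h : StmtB1) (ha : StmtAx) (hb : StmtB2b) : StmtB2d := by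
  intro Z _ _ att ν L
  have F := hb Z att ν L
  refine ⟨fun a b h1 h2 => ?_, fun a b c h1 h2 h3 => ?_⟩
  · obtain ⟨A, hA⟩ := L.axis a h1
    obtain ⟨B, hB⟩ := L.axis b h2
    obtain ⟨K, hK, h3⟩ := reduce ha hA
    refine ⟨(fin_conj h ha hB hK).toFinset, fun y hy hc => ?_⟩
    obtain ⟨w, rfl⟩ := isConj_iff.1 hy
    obtain ⟨B', h4, h5⟩ := conj_axis ha hB w
    obtain ⟨z, h6, h7⟩ := (F.cross_iff _ _ A B' hA h4).2.1 hc
    obtain ⟨m, hm⟩ := h3 z h6
    refine ⟨-m, a ^ m * w * b * (a ^ m * w)⁻¹, ?_, by group⟩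
    rw [Set.Finite.mem_toFinset]
    refine ⟨_, rfl, _, hm, ?_⟩
    rw [mul_inv_rev, mul_smul, inv_smul_smul, h5, h7]
  · obtain ⟨A, hA⟩ := L.axis a h1
    obtain ⟨B, hB⟩ := L.axis b h2
    obtain ⟨C, hC⟩ := L.axis c h3
    have key : ∀ (g : G) (D : Axis), D.For g.1 → ∃ z : X, ∃ s t : ℝ, 0 < s ∧ 0 < t ∧
        z.1 = s • ν (att g) + t • ν (att g⁻¹) := by
      intro g D hD
      obtain ⟨e, -, h4⟩ := ha.fermi D
      obtain ⟨c, hc, h5⟩ := L.att g D hD
      obtain ⟨D', h6, h7, -⟩ := ha.inv _ D hD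
      obtain ⟨d, hd, h8⟩ := L.att g⁻¹ D' h6
      refine ⟨e (0, 0), √(1 / 2) / c, √(1 / 2) / d, by positivity, by positivity, ?_⟩
      rw [h4, h5, h8, h7, smul_smul, smul_smul, div_mul_cancel₀ _ hc.ne', div_mul_cancel₀ _ hd.ne']
      simp
    obtain ⟨x, s, t, hs, ht, hx⟩ := key a A hA
    obtain ⟨y, s', t', hs', ht', hy⟩ := key b B hB
    obtain ⟨e⟩ := h.homeo
    have hK : IsCompact (e.symm '' segment ℝ (e x) (e y)) := by
      rw [segment_eq_image]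
      exact (isCompact_Icc.image (by fun_prop)).image e.symm.continuous
    have hK' : IsPreconnected (e.symm '' segment ℝ (e x) (e y)) :=
      (convex_segment _ _).isPreconnected.image _ e.symm.continuous.continuousOn
    refine (fin_conj h ha hC hK).subset ?_
    rintro u ⟨hu, s1, s2, s3, s4⟩
    obtain ⟨w, rfl⟩ := isConj_iff.1 hu
    obtain ⟨U, h4, h5⟩ := conj_axis ha hC w
    rw [(F.rt_iff _ U _ h4).2.1] at s1 s2
    rw [(F.rt_iff _ U _ h4).1] at s3 s4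
    have e1 : lor x.1 U.n ≤ 0 := by
      rw [hx, lor_add_left, lor_smul_left, lor_smul_left]; nlinarith
    have e2 : 0 ≤ lor y.1 U.n := by
      rw [hy, lor_add_left, lor_smul_left, lor_smul_left]; positivity
    obtain ⟨z, hz, h6⟩ := hK'.intermediate_value (a := x) (b := y)
      ⟨_, left_mem_segment _ _ _, e.symm_apply_apply x⟩
      ⟨_, right_mem_segment _ _ _, e.symm_apply_apply y⟩
      (continuous_lor_left U.n).continuousOn ⟨e1, e2⟩
    exact ⟨w, rfl, z, hz, by rw [h5]; exact h6⟩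

end Pool.Agent.Lib.MP_003e01_gt
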