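import Pool.Agent.Lib.MP_003e01_gt.Top

/-! Statements of the blocks. -/

open Set Topology

namespace Pool.Agent.Lib.MP_003e01_gt

/-! ### A: abstract part -/

section
variable {G Z : Type} [Group G] [LinearOrder Z] [MulAction G Z] (C : CG G Z)

structure A1Facts : Prop where
  cross_symm : ∀ x y, Cross C.att x y → Cross C.att y x
  cross_conj : ∀ g x y, Cross C.att (g * x * g⁻¹) (g * y * g⁻¹) ↔ Cross C.att x y
  oc_of_meets : ∀ a b x, C.Meets a b → Same a x → ∃ y, Same b y ∧ OC C.att x y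
  prim_same : ∀ a x, C.Prim a → Same a x → C.Prim x
  prim_eq : ∀ x y, C.Prim x → C.Prim y → C.att x = C.att y → x = y
  att_eq : ∀ x y, x ≠ 1 → y ≠ 1 → C.att x = C.att y → C.att x⁻¹ = C.att y⁻¹
  exL : ∀ x y z, OC C.att x y → OC C.att x z → ∃ m, C.TwL x y z m
  cocL : ∀ x y z u m₁ m₂ m₃, C.TwL x y z m₁ → C.TwL x z u m₂ → C.TwL x y u m₃ →
    |m₁ + m₂ - m₃| ≤ 1
  disjL : ∀ x y z m, C.TwL x y z m → (∀ l : ℤ, ¬ Cross C.att z (x ^ l * y * (x ^ l)⁻¹)) → |m| ≤ 1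
  coc : ∀ a b c e m₁ m₂ m₃, ¬ C.Meets b b → ¬ C.Meets c c → ¬ C.Meets e e →
    C.Tw a b c m₁ → C.Tw a c e m₂ → C.Tw a b e m₃ → |m₁ + m₂ - m₃| ≤ 20
  bdd : ∀ a b c, ∃ B : ℤ, ∀ m, C.Tw a b c m → |m| ≤ B

structure A1PFacts : Prop where
  one : C.Pres 1 true
  mul : ∀ α β ε ε', C.Pres α ε → C.Pres β ε' → C.Pres (α * β) (ε == ε')
  inv : ∀ α ε, C.Pres α ε → C.Pres α⁻¹ ε
  uniq : ∀ α, (∃ g : G, g ≠ 1) → C.Pres α true → ¬ C.Pres α false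
  inner : ∀ α, Inner α → C.Pres α true
  att_iff : ∀ α ε x y, C.Pres α ε → x ≠ 1 → y ≠ 1 → (C.att (α x) = C.att (α y) ↔ C.att x = C.att y)
  cross : ∀ α ε x y, C.Pres α ε → (Cross C.att (α x) (α y) ↔ Cross C.att x y)
  meets : ∀ α ε a b, C.Pres α ε → (C.Meets (α a) (α b) ↔ C.Meets a b)
  prim : ∀ α ε a, C.Pres α ε → C.Prim a → C.Prim (α a)
  tw : ∀ α ε a b c m, C.Pres α ε → C.Tw a b c m → C.Tw (α a) (α b) (α c) (if ε then m else -m)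

structure A2Facts : Prop where
  behr : ∀ a b c m m', C.SP b → ¬ C.Meets a a → ¬ C.Meets c c → C.Tw a b c m → 20 < |m| →
    C.Tw b a c m' → |m'| ≤ 50
  fin : ∀ b c, ∃ T : Finset G, ∀ a m, C.SP a → C.Tw a b c m → 20 < |m| → ∃ τ ∈ T, Same τ a

structure A3Facts : Prop where
  pos : ∀ a k α, C.SP a → C.IsTwist a k α → C.Pres α true
  fix : ∀ a k α c, C.SP a → C.IsTwist a k α → c ≠ 1 → ¬ C.Meets a c → Same (α c) c
  bare : ∀ a k α b c, C.SP a → C.IsTwist a k α → C.SP b → ¬ C.Meets a b → ¬ Same a b →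
    C.Meets b c → ∃ m, C.Tw b c (α c) m ∧ |m| ≤ 2
  shift : ∀ a k α c, C.SP a → C.IsTwist a k α → C.Meets a c → ∃ m, C.Tw a c (α c) m ∧ |m - k| ≤ 2
  nat : ∀ a k α β, C.SP a → C.IsTwist a k α → C.Pres β true → Same (β a) a →
    Inner (β * α * β⁻¹ * α⁻¹)

end

def StmtA1 : Prop :=
  ∀ (G Z : Type) [Group G] [LinearOrder Z] [MulAction G Z] (C : CG G Z), A1Facts C

def StmtA1P : Prop :=
  ∀ (G Z : Type) [Group G] [LinearOrder Z] [MulAction G Z] (C : CG G Z), A1PFacts C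

def StmtA2 : Prop :=
  ∀ (G Z : Type) [Group G] [LinearOrder Z] [MulAction G Z] (C : CG G Z), A2Facts C

def StmtA3 : Prop :=
  ∀ (G Z : Type) [Group G] [LinearOrder Z] [MulAction G Z] (C : CG G Z), A3Facts C

def StmtA4 : Prop :=
  ∀ (Γ Cv : Type) [Group Γ] [MulAction Γ Cv] (P : AP Γ Cv) (s e : Fin 3 → Cv) (D : Set Cv),
    P.Conf s e D → ∃ (n : ℤ) (Ns : Fin 3 → ℤ), ∀ Ψ Τ : Fin 3 → Γ,
      (∀ i, P.Tw (s i) (Ns i) (Ψ i)) → (∀ i, P.Tw (e i) n (Τ i)) →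
      (∀ i, PresD D (pushW Ψ Τ i) ∧ PresD D (pushW' Ψ Τ i)) →
      (∀ α : Γ, PresD D α → PresD D (glueW Ψ Τ * α * (glueW Ψ Τ)⁻¹) →
        (P.sg α = 1 ∧ (∀ i, α • s i = s i) ∧ ∀ i, α • e i = e i) ∨ AperC Cv α) ∧
      AperC Cv (paW Ψ Τ)

def StmtA5 : Prop :=
  ∀ (G Z : Type) [Group G] [LinearOrder Z] [MulAction G Z] (C : CG G Z) (s e : Fin 3 → G)
    (N : Subgroup G), Config C s e N → ∃ (n : ℤ) (Ns : Fin 3 → ℤ), ∀ Ψ Τ : Fin 3 → MulAut G,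
      (∀ i, C.IsTwist (s i) (Ns i) (Ψ i)) → (∀ i, C.IsTwist (e i) n (Τ i)) →
      (∀ i, PresN N (pushW Ψ Τ i) ∧ PresN N (pushW' Ψ Τ i)) →
      (∀ (α : MulAut G) (ε : Bool), C.Pres α ε → PresN N α →
        PresN N (glueW Ψ Τ * α * (glueW Ψ Τ)⁻¹) → Inner α ∨ C.Aper α) ∧
      C.Aper (paW Ψ Τ)

def StmtA6 : Prop :=
  ∀ (G Z : Type) [Group G] [LinearOrder Z] [MulAction G Z] (C : CG G Z) (s e : Fin 3 → G)
    (N : Subgroup G), Config0 C s e N → Conn C s e → Pat C s e → Rigid C s e ∧ Fill C s e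

def StmtA7 : Prop :=
  ∀ (G Z : Type) [Group G] [LinearOrder Z] [MulAction G Z] (C : CG G Z) (α : MulAut G),
    C.SidePres α → ∃ ε, C.Pres α ε

/-! ### B: the tiling and the circle at infinity -/

structure StmtB1 : Prop where
  far : ∀ i j, i ≠ j → ¬ Adjacent i j → lor (pole i) (pole j) < -1
  far_neg : ∀ i j, i ≠ j → ¬ Adjacent i j → ∀ z : X, lor z.1 (pole i) + lor z.1 (pole j) < 0
  descent : ∀ (w : W) i, (cs.IsLeftDescent w i ↔ 0 < lor (w • x0).1 (pole i)) ∧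
    lor (w • x0).1 (pole i) ≠ 0
  descent_le : ∀ (w : W) i, ¬ cs.IsLeftDescent w i → ∀ z ∈ Q, lor (w • z).1 (pole i) ≤ 0
  descent_ge : ∀ (w : W) i, cs.IsLeftDescent w i → ∀ z ∈ Q, 0 ≤ lor (w • z).1 (pole i)
  compact : IsCompact Q
  cover : ∀ z : X, ∃ (w : W) (z' : X), z' ∈ Q ∧ z = w • z'
  fund : ∀ (w : W) (z : X), z ∈ Q → w • z ∈ Q →
    w • z = z ∧ w ∈ Subgroup.closure {t | ∃ i, lor z.1 (pole i) = 0 ∧ t = sr i}
  faithful : ∀ w : W, w • x0 = x0 → w = 1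
  proper : ∀ K L : Set X, IsCompact K → IsCompact L → {w : W | ∃ z ∈ K, w • z ∈ L}.Finite
  free : ∀ (g : G) (z : X), g • z = z → g = 1
  ball : ∀ R : ℝ, IsCompact {z : X | z.1 2 ≤ R}
  homeo : Nonempty (X ≃ₜ ℝ × ℝ)
  det : ∀ (w : W) (x y z : V), det3 (w • x) (w • y) (w • z) = chB w * chR w * det3 x y z
  ch : ∀ w : W, (chB w = 1 ∨ chB w = -1) ∧ (chR w = 1 ∨ chR w = -1)
  revCS : ∀ x y : X, lor x.1 y.1 ≤ -1 ∧ (lor x.1 y.1 = -1 → x = y)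

/-- gluing continuous maps tile by tile -/
def StmtGlue : Prop :=
  ∀ (Y : Type) [TopologicalSpace Y] (Φ : W → X → Y), (∀ w, ContinuousOn (Φ w) Q) →
    (∀ (w : W) (i : Fin 12), ∀ z ∈ Q, lor z.1 (pole i) = 0 → Φ (w * sr i) z = Φ w z) →
    ∃ F : X → Y, Continuous F ∧ ∀ (w : W), ∀ z ∈ Q, F (w • z) = Φ w z

structure StmtAx : Prop where
  expand : ∀ (a : Axis) (x : V), x = (-lor x a.η) • a.ξ + (-lor x a.ξ) • a.η + lor x a.n • a.n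
  ex : ∀ g : G, g ≠ 1 → ∃ a : Axis, a.For g.1
  uniq : ∀ (g : W) (a b : Axis), a.For g → b.For g →
    a.n = b.n ∧ a.L = b.L ∧ (∀ τ x, a.flow τ x = b.flow τ x) ∧
      ∃ c : ℝ, 0 < c ∧ b.ξ = c • a.ξ ∧ b.η = c⁻¹ • a.η
  inv : ∀ (g : W) (a : Axis), a.For g → ∃ b : Axis, b.For g⁻¹ ∧
    b.ξ = a.η ∧ b.η = a.ξ ∧ b.n = -a.n ∧ b.L = a.L
  conj : ∀ (g w : W) (a : Axis), a.For g → ∃ b : Axis, b.For (w * g * w⁻¹) ∧
    b.ξ = w • a.ξ ∧ b.η = w • a.η ∧ b.n = (chB w * chR w) • w • a.n ∧ b.L = a.L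
  zpow : ∀ (g : W) (a : Axis), a.For g → ∀ (m : ℤ) (x : V), g ^ m • x = a.flow m x
  pow : ∀ (g : W) (a : Axis) (m : ℕ), a.For g → 0 < m → ∃ b : Axis, b.For (g ^ m) ∧
    b.ξ = a.ξ ∧ b.η = a.η ∧ b.n = a.n ∧ b.L = m * a.L
  opole : ∀ (g : W) (a : Axis) (n : V), a.For g → (OPole g n ↔ ∃ c : ℝ, 0 < c ∧ n = c • a.n)
  fermi : ∀ a : Axis, ∃ e : ℝ × ℝ ≃ₜ X, Fermi a e ∧ ∀ τ ν : ℝ, (e (τ, ν)).1 =
    √((1 + ν ^ 2) / 2) • (Real.exp (τ * a.L) • a.ξ + Real.exp (-(τ * a.L)) • a.η) + ν • a.n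

def StmtB2a : Prop :=
  ∃ (Z : Type) (_ : LinearOrder Z) (_ : MulAction G Z) (att : G → Z) (ν : Z → V), Link att ν

section
variable {Z : Type} [LinearOrder Z] [MulAction G Z] (att : G → Z) (ν : Z → V)

structure B2bFacts : Prop where
  smul_cyc : ∀ (g : G) (a b c : Z), cyc (g • a) (g • b) (g • c) ↔ cyc a b c
  att_fix : ∀ g : G, g ≠ 1 → g • att g = att g
  att_ne : ∀ g : G, g ≠ 1 → att g ≠ att g⁻¹
  att_conj : ∀ g h : G, g ≠ 1 → att (h * g * h⁻¹) = h • att g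
  att_pow : ∀ (g : G) (n : ℕ), g ≠ 1 → 0 < n → g ^ n ≠ 1 ∧ att (g ^ n) = att g
  move : ∀ (g : G) (z : Z), g ≠ 1 → Rt att g z → cyc z (g • z) (att g)
  arch : ∀ (g : G) (x y : Z), g ≠ 1 → Rt att g x → Rt att g y →
    ∃ n : ℕ, cyc y (g ^ n • x) (att g)
  rt_iff : ∀ (g : G) (a : Axis) (z : Z), a.For g.1 →
    (Rt att g z ↔ 0 < lor (ν z) a.n) ∧ (Rt att g⁻¹ z ↔ lor (ν z) a.n < 0) ∧
      (lor (ν z) a.n = 0 ↔ z = att g ∨ z = att g⁻¹)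
  cross_iff : ∀ (g h : G) (a b : Axis), a.For g.1 → b.For h.1 →
    (Cross att g h ↔ |lor a.n b.n| < 1) ∧
    (Cross att g h → ∃ z : X, lor z.1 a.n = 0 ∧ lor z.1 b.n = 0) ∧
    (OC att g h ↔ Cross att g h ∧ 0 < det3 b.n a.n x0.1) ∧
    (∀ z : X, lor z.1 a.n = 0 → lor z.1 b.n = 0 → Cross att g h ∨ a.n = b.n ∨ a.n = -b.n) ∧
    (a.n = b.n ↔ att g = att h ∧ att g⁻¹ = att h⁻¹)

structure B2cFacts : Prop where
  root : ∀ g : G, g ≠ 1 → ∃ t : G, t ≠ 1 ∧ att t = att g ∧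
    ∀ h : G, h • att g = att g → h ∈ Subgroup.zpowers t
  dense : ∀ g : G, g ≠ 1 → ∃ h : G, h ≠ 1 ∧ Cross att g h

structure B2dFacts : Prop where
  fin_cross : ∀ a b : G, a ≠ 1 → b ≠ 1 → ∃ T : Finset G, ∀ y : G, IsConj b y → Cross att a y →
    ∃ (m : ℤ) (τ : G), τ ∈ T ∧ y = a ^ m * τ * (a ^ m)⁻¹
  fin_sep : ∀ a b c : G, a ≠ 1 → b ≠ 1 → c ≠ 1 → {u : G | IsConj c u ∧ Sep att u a b}.Finite

end

def StmtB2b : Prop := ∀ (Z : Type) [LinearOrder Z] [MulAction G Z] (att : G → Z) (ν : Z → V),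
  Link att ν → B2bFacts att ν

def StmtB2c : Prop := ∀ (Z : Type) [LinearOrder Z] [MulAction G Z] (att : G → Z) (ν : Z → V),
  Link att ν → B2cFacts att

def StmtB2d : Prop := ∀ (Z : Type) [LinearOrder Z] [MulAction G Z] (att : G → Z) (ν : Z → V),
  Link att ν → B2dFacts att

/-- everything about the plane, used as a hypothesis by the later blocks -/
structure Geo : Prop where
  b1 : StmtB1
  glue : StmtGlue
  ax : StmtAx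
  b2b : StmtB2b
  a1 : StmtA1
  a1p : StmtA1P

/-! ### C: the six curves -/

/-- enumeration of the tiles met by the six axes -/
def StmtC1 : Prop := ∀ b : Fin 6, OPole (cvG b).1 (toV (nZ b)) ∧
  ∀ (w : W), ∀ z ∈ Q, lor (w • z).1 (toV (nZ b)) = 0 →
    ∃ (j : ℤ), ∃ u ∈ TL b, w = (cvG b).1 ^ j * wd u

def StmtC2 : Prop :=
  (∀ (Z : Type) [LinearOrder Z] [MulAction G Z] (C : CG G Z) (ν : Z → V), Link C.att ν →
    Config0 C sC eC NS) ∧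
  ∀ k : Fin 3, seg k ⊆ Q ∧ IsCompact (seg k) ∧ ∀ a : Axis, a.For (sC k).1 →
    ∀ w : W, chR w = 1 → ∀ z ∈ seg k, lor (w • z).1 a.n ≠ 0

/-- a lift of `sC i` or `sC j` separates the wall `first` of the tile `w • Q` from the wall `last`
of the tile `w * wd mid • Q` -/
def SepWalls (i j : Fin 3) (w : W) (first : Fin 12) (mid : List (Fin 12)) (last : Fin 12) : Prop :=
  ∃ (x : G) (a : Axis), (Same (sC i) x ∨ Same (sC j) x) ∧ a.For x.1 ∧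
    (∀ z : X, 0 ≤ lor z.1 (w • pole first) → lor z.1 a.n < 0) ∧
    (∀ z : X, 0 ≤ lor z.1 ((w * wd mid) • pole last) → 0 < lor z.1 a.n)

/-- blue letters, no two consecutive ones equal -/
def BlueWord (l : List (Fin 12)) : Prop := (∀ b ∈ l, b.val % 2 = 0) ∧ l.IsChain (· ≠ ·)

def StmtCW1 : Prop := ∀ i j : Fin 3, i ≠ j → ∀ w : W,
  (∀ (r b b' : Fin 12) (l : List (Fin 12)), r.val % 2 = 1 → BlueWord l → l.head? = some b →
    l.getLast? = some b' → ¬ Adjacent r b → ¬ Adjacent r b' → SepWalls i j w r l r) ∧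
  (∀ (b b' : Fin 12) (l : List (Fin 12)), BlueWord (b :: (l ++ [b'])) → 4 ≤ l.length →
    SepWalls i j w b l b')

def StmtCW2 : Prop :=
  ∀ (Z : Type) [LinearOrder Z] [MulAction G Z] (C : CG G Z) (ν : Z → V), Link C.att ν →
    Wave C sC NS

def StmtC3 : Prop :=
  ∀ (Z : Type) [LinearOrder Z] [MulAction G Z] (C : CG G Z) (ν : Z → V), Link C.att ν →
    Conn C sC eC

def StmtC4 : Prop :=
  ∀ (Z : Type) [LinearOrder Z] [MulAction G Z] (C : CG G Z) (ν : Z → V), Link C.att ν →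
    Pat C sC eC

/-! ### D: homeomorphisms and loops of the surface -/

structure D1Facts {S : Type} [TopologicalSpace S] (p : X → S) : Prop where
  ex : ∀ f : S ≃ₜ S, ∃ α, Induces p f α
  uniq : ∀ f α α', Induces p f α → Induces p f α' → Inner (α⁻¹ * α')
  inner_iff : ∀ (f : S ≃ₜ S) α, Induces p f α →
    (Inner α ↔ (f : C(S, S)).Homotopic (ContinuousMap.id S))
  rep_ex : ∀ c, ∃ g, Rep p c g
  rep_one : ∀ c, Rep p c 1 → c.Nullhomotopic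
  rep_same : ∀ c d g h, SameCurve c d → Rep p c g → Rep p d h → Same g h
  rep_map : ∀ c g (f : S ≃ₜ S) α, Rep p c g → Induces p f α → Rep p ((f : C(S, S)).comp c) (α g)

def StmtD1 : Prop := ∀ (S : Type) [TopologicalSpace S] (p : X → S),
  IsQuotientCoveringMap p G → D1Facts p

/-- a bottom-to-top path and a left-to-right path meet -/
def StmtMir : Prop := ∀ (a b : ℝ → ℝ × ℝ) (K : ℝ), Continuous a → Continuous b →
  (∀ s, |(a s).1| ≤ K) → (∀ t, |(b t).2| ≤ K) → ∀ s₀ s₁ t₀ t₁ : ℝ, (a s₀).2 < -K → K < (a s₁).2 →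
    (b t₀).1 < -K → K < (b t₁).1 → ∃ s t, a s = b t

def StmtD1b : Prop := ∀ (S : Type) [TopologicalSpace S] (p : X → S), IsQuotientCoveringMap p G →
  ∀ (Z : Type) [LinearOrder Z] [MulAction G Z] (C : CG G Z) (ν : Z → V), Link C.att ν →
    ∀ (c : C(Circle, S)) (g : G), Function.Injective c → Rep p c g → ¬ C.Meets g g

def StmtD2 : Prop := ∀ (S : Type) [TopologicalSpace S] (p : X → S), IsQuotientCoveringMap p G →
  ∀ (Z : Type) [LinearOrder Z] [MulAction G Z] (C : CG G Z) (ν : Z → V), Link C.att ν →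
    ∀ f α, Induces p f α → C.SidePres α

/-- the translates of the `2 ε`-neighbourhood of the axis are disjoint -/
def Thin (g : G) (a : Axis) (ε : ℝ) : Prop :=
  ∀ (γ : G) (z : X), |lor z.1 a.n| ≤ 2 * ε → |lor (γ • z).1 a.n| ≤ 2 * ε → γ ∈ Subgroup.zpowers g

def StmtD3a : Prop := ∀ (S : Type) [TopologicalSpace S] [T2Space S] (p : X → S),
  IsQuotientCoveringMap p G →
  ∀ (g : G) (a : Axis) (ε : ℝ) (k : ℤ), a.For g.1 → 0 < ε → Thin g a ε →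
    IsCompact (p '' Strip a ε) ∧ ∃ f, IsTw p a ε k f

def StmtD3b : Prop := ∀ (S : Type) [TopologicalSpace S] (p : X → S), IsQuotientCoveringMap p G →
  ∀ (Z : Type) [LinearOrder Z] [MulAction G Z] (C : CG G Z) (ν : Z → V), Link C.att ν →
    ∀ (g : G) (a : Axis) (ε : ℝ) (k : ℤ), a.For g.1 → 0 < ε → Thin g a ε → C.SP g →
      ∀ f α, IsTw p a ε k f → Induces p f α → (∃ ε', C.Pres α ε') → C.IsTwist g k α

def StmtSEP : Prop :=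
  (∀ (Z : Type) [LinearOrder Z] [MulAction G Z] (C : CG G Z) (ν : Z → V), Link C.att ν →
    (∀ (g : G) (a : Axis), a.For g.1 → C.SP g → ∃ ε : ℝ, 0 < ε ∧ Thin g a ε) ∧
    ∀ (g h : G) (a b : Axis), a.For g.1 → b.For h.1 → C.Prim g → C.Prim h → ¬ C.Meets g h →
      ¬ Same g h → ∃ ε : ℝ, 0 < ε ∧ ∀ (γ : G) (z : X), |lor z.1 a.n| ≤ ε →
        ε < |lor (γ • z).1 b.n|) ∧
  ∀ (K : Set X) (g : G) (a : Axis) (T : Set W), IsCompact K → a.For g.1 →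
    (∀ w ∈ T, g.1 * w ∈ T ∧ g.1⁻¹ * w ∈ T) → (∀ w ∈ T, ∀ z ∈ K, lor (w • z).1 a.n ≠ 0) →
    ∃ ε : ℝ, 0 < ε ∧ ∀ w ∈ T, ∀ z ∈ K, ε < |lor (w • z).1 a.n|

/-! ### E: the handlebody -/

structure StmtE1 : Prop where
  proj : ∃ p, IsProj p
  compact : CompactSpace Hw
  closed : IsClosed Sw
  chart : ∀ s : Sw, ∃ c : OpenPartialHomeomorph Sw (ℝ × ℝ), s ∈ c.source

def StmtE2 : Prop := ∀ p, IsProj p → ∀ f α, Induces p f α → Ext Sw f → PresN NS α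

def StmtEXT : Prop := ∀ (H : Type) [TopologicalSpace H] [CompactSpace H] [T2Space H] (S : Set H),
  IsClosed S → HasCollar S → ∀ (ψ τ : S ≃ₜ S) (O : Set S), IsOpen O → (∀ s ∈ O, ψ s = s) →
    Pushable S τ O → Ext S (ψ * τ * ψ⁻¹)

def StmtPushA1 : Prop := ∀ (k : Fin 3) (aY aZ : Axis),
  aY.For (eC (k + 1)).1 → aZ.For (eC (k + 2)).1 → ∃ ε₀ : ℝ, 0 < ε₀ ∧ ∀ ε, 0 < ε → ε ≤ ε₀ →
    ∃ Ω u s eY eZ, ChartGeo k aY aZ ε Ω u s eY eZ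

def StmtPushA2 : Prop := ∀ p, IsProj p → ∀ (k : Fin 3) (aY aZ : Axis),
  aY.For (eC (k + 1)).1 → aZ.For (eC (k + 2)).1 → ∀ ε Ω u s eY eZ, 0 < ε →
    ChartGeo k aY aZ ε Ω u s eY eZ → ∀ (n : ℤ) (fY fZ : Sw ≃ₜ Sw),
      IsTw p aY ε n fY → IsTw p aZ ε (-n) fZ → PushChart k n (fY * fZ) Ω u s

def StmtPushB : Prop := ∀ k n f Ω u s, PushChart k n f Ω u s → ∀ O : Set Sw, IsOpen O →
  (∀ x : Sw, x.1.1.1 ∈ seg k → 0 ≤ x.1.1.2.1 → x ∈ O) → Pushable Sw f O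

def StmtLens : Prop := ∀ (x : Fin 12 → ℝ) (lo hi : ℝ → ℝ), StrictMono x →
  ContinuousOn lo (Icc (x 0) (x 11)) → ContinuousOn hi (Icc (x 0) (x 11)) →
  lo (x 0) = hi (x 0) → lo (x 11) = hi (x 11) → (∀ t ∈ Ioo (x 0) (x 11), lo t < hi t) →
  ∃ e : {q : ℝ × ℝ // q.1 ∈ Icc (x 0) (x 11) ∧ lo q.1 ≤ q.2 ∧ q.2 ≤ hi q.1} ≃ₜ Mod, ∀ q,
    ((e q).1.2 = 0 ↔ q.1.2 = lo q.1.1) ∧
    ((e q).1.2 = (e q).1.1 * (11 - (e q).1.1) ↔ q.1.2 = hi q.1.1) ∧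
    ∀ i : Fin 12, ((i : ℝ) ≤ (e q).1.1 ↔ x i ≤ q.1.1) ∧ ((e q).1.1 ≤ i ↔ q.1.1 ≤ x i)

def StmtKAP1 : Prop := ∃ κ : Q ≃ₜ Mod, ∀ (z : Q) (i : Fin 12),
  lor z.1.1 (pole i) = 0 ↔ (κ z).1 ∈ ModSide i

def StmtKAP2 : Prop := ∃ κ : {p : ℝ × ℝ // p ∈ Planar 5 ∧ 0 ≤ p.2} ≃ₜ Mod, ∀ p,
  (p.1.2 = 0 ↔ ∃ i : Fin 12, i.val % 2 = 1 ∧ (κ p).1 ∈ ModSide i) ∧
  (p.1 ∈ PBd 5 ↔ ∃ i : Fin 12, i.val % 2 = 0 ∧ (κ p).1 ∈ ModSide i)

def StmtDBL : Prop := ∃ lam, LamOK 5 lam ∧ ∃ e : Hw ≃ₜ Lens 5 lam,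
  ∀ x, x ∈ Sw ↔ |(e x).1.2| = lam (e x).1.1

def StmtSC : Prop := ∃ a sc, Scaling 5 a sc

def StmtPL : Prop := ∀ g a sc, Scaling g a sc →
  HasCollar {x : Handlebody g | x.1 ∈ frontier (Handlebody g)} ∧
  ∀ lam, LamOK g lam → ∃ e : Handlebody g ≃ₜ Lens g lam,
    ∀ x, |(e x).1.2| = lam (e x).1.1 ↔ x.1 ∈ frontier (Handlebody g)

def StmtM2 : Prop := ∀ (g : ℕ) (H : Type) [TopologicalSpace H] (S : Set H)
  (e : Handlebody g ≃ₜ H), (∀ x, e x ∈ S ↔ x.1 ∈ frontier (Handlebody g)) → HasCollar S →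
  (∀ s : S, ∃ c : OpenPartialHomeomorph S (ℝ × ℝ), s ∈ c.source) → ∀ (θ : S ≃ₜ S)
  (M : Type) [TopologicalSpace M] (iA iB : H → M), Glued S θ iA iB →
    Nonempty (ChartedSpace (EuclideanSpace ℝ (Fin 3)) M)

/-- gluing two handlebodies -/
def StmtM : Prop := ∀ (g : ℕ) (H : Type) [TopologicalSpace H] [CompactSpace H] (S : Set H)
  (e : Handlebody g ≃ₜ H), (∀ x, e x ∈ S ↔ x.1 ∈ frontier (Handlebody g)) → HasCollar S →
  (∀ s : S, ∃ c : OpenPartialHomeomorph S (ℝ × ℝ), s ∈ c.source) → ∀ θ : S ≃ₜ S,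
  ∃ (M : Type) (_ : TopologicalSpace M) (_ : T2Space M) (_ : CompactSpace M)
    (_ : ChartedSpace (EuclideanSpace ℝ (Fin 3)) M) (A B : Set M) (j : S ≃ₜ ↥(A ∩ B)),
    IsHeegaardSplitting g A B ∧ ∀ f : C(↥(A ∩ B), ↥(A ∩ B)), IsRestrictedAut A B f ↔
      ∃ f₀ : S ≃ₜ S, (∀ s, f (j s) = j (f₀ s)) ∧ Ext S f₀ ∧ Ext S (θ * f₀ * θ⁻¹)

/-- the theorem -/
def StmtMain : Prop :=
  ∃ (g : ℕ) (M : Type) (_ : TopologicalSpace M) (_ : T2Space M) (_ : CompactSpace M)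
    (_ : ChartedSpace (EuclideanSpace ℝ (Fin 3)) M) (A B : Set M), IsHeegaardSplitting g A B ∧
    (∃ f, IsRestrictedAut A B f ∧ ¬ f.Homotopic (ContinuousMap.id _)) ∧
    ∀ f, IsRestrictedAut A B f →
      f.Homotopic (ContinuousMap.id _) ∨ (¬ IsPeriodic f ∧ ¬ IsReducible f)

end Pool.Agent.Lib.MP_003e01_gt
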