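import Pool.Agent.Lib.MP_003e01_gt.Blue

/-! Block C1: the tiles met by the six axes. -/

open Set Topology

namespace Pool.Agent.Lib.MP_003e01_gt

namespace C1

open Z3

/-- multiples of the two end points of side `i` -/
def vaZ (i : Fin 12) : ZV := addZ (poleZ (i - 1)) (smulZ (1, 1) (poleZ (i + 1)))
def vbZ (i : Fin 12) : ZV := addZ (smulZ (1, 1) (poleZ (i - 1))) (poleZ (i + 1))

def sameSign (x y : Z3) : Bool := (pos x && pos y) || (pos (neg x) && pos (neg y))

def known (b : Fin 6) (v : ZV) : Bool :=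
  (TL b).any fun u' => let y := actZ u' x0Z
    v == y || v == actZ (cvL b) y || v == actZ (cvL b).reverse y

def chk (b : Fin 6) : Bool :=
  (TL b).all fun u => let m := actZ u.reverse (nZ b)
    (List.finRange 12).all fun i =>
      sameSign (lorZ (vaZ i) m) (lorZ (vbZ i) m) || known b (actZ (u ++ [i]) x0Z)

def good (b : Fin 6) (y : ZV) : Bool :=
  lorZ y (nZ b) == (0, 0) && pos (neg (lorZ y y)) && pos (neg (lorZ y x0Z)) &&
    (List.finRange 12).all fun k => !pos (lorZ y (poleZ k))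

def base (b : Fin 6) : Bool :=
  (List.finRange 12).any fun i =>
    let y := subZ (smulZ (lorZ (vbZ i) (nZ b)) (vaZ i)) (smulZ (lorZ (vaZ i) (nZ b)) (vbZ i))
    good b y || good b (negZ y)

lemma chk_all : ∀ b, chk b = true := by decide +kernel

lemma base_all : ∀ b, base b = true := by decide +kernel

lemma opole_all : ∀ b, actZ (cvL b) (nZ b) = nZ b ∧
    pos (detZ x0Z (nZ b) (actZ (cvL b) x0Z)) = true ∧ [] ∈ TL b := by decide +kernel

lemma gram : ∀ i : Fin 12, lorZ (poleZ (i - 1)) (poleZ (i + 1)) = (-1, -1) ∧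
    Adjacent (i - 1) i ∧ Adjacent (i + 1) i := by decide +kernel

lemma eq_zero_of_orth {p q r D : V} (hd : det3 p q r ≠ 0) (h1 : lor D p = 0) (h2 : lor D q = 0)
    (h3 : lor D r = 0) : D = 0 := by
  simp only [lor] at h1 h2 h3
  have e0 : det3 p q r * D 0 = 0 := by
    simp only [det3]
    linear_combination (q 1 * r 2 - q 2 * r 1) * h1 - (p 1 * r 2 - p 2 * r 1) * h2 +
      (p 1 * q 2 - p 2 * q 1) * h3
  have e1 : det3 p q r * D 1 = 0 := by
    simp only [det3]
    linear_combination -(q 0 * r 2 - q 2 * r 0) * h1 + (p 0 * r 2 - p 2 * r 0) * h2 -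
      (p 0 * q 2 - p 2 * q 0) * h3
  have e2 : det3 p q r * D 2 = 0 := by
    simp only [det3]
    linear_combination -(q 0 * r 1 - q 1 * r 0) * h1 + (p 0 * r 1 - p 1 * r 0) * h2 -
      (p 0 * q 1 - p 1 * q 0) * h3
  ext k
  fin_cases k
  · exact (mul_eq_zero.1 e0).resolve_left hd
  · exact (mul_eq_zero.1 e1).resolve_left hd
  · exact (mul_eq_zero.1 e2).resolve_left hd

lemma det_sq (p q r : V) : det3 p q r ^ 2 =
    -(lor p p * (lor q q * lor r r - lor q r ^ 2) - lor p q * (lor p q * lor r r - lor q r * lor p r)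
      + lor p r * (lor p q * lor q r - lor q q * lor p r)) := by
  simp only [det3, lor]; ring

/-- points on wall `i` are combinations of the two end points -/
lemma wall_comb (i : Fin 12) (z : V) (hz : lor z (pole i) = 0) :
    (3 + 2 * √3) • z = (-lor z (pole (i - 1))) • toV (vaZ i) + (-lor z (pole (i + 1))) • toV (vbZ i) := by
  obtain ⟨g1, g2, g3⟩ := gram i
  have h3 := sq3
  have hs : (0 : ℝ) < √3 := by positivity
  have hpq : lor (pole (i - 1)) (pole (i + 1)) = -1 - √3 := by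
    rw [lor_pole_pole, g1]; simp [toR]; ring
  have hqp : lor (pole (i + 1)) (pole (i - 1)) = -1 - √3 := by rw [lor_comm]; exact hpq
  have hpr := lor_pole_adj g2
  have hqr := lor_pole_adj g3
  have h11 : toR (1, 1) = 1 + √3 := by simp [toR]
  have ha : toV (vaZ i) = pole (i - 1) + (1 + √3) • pole (i + 1) := by
    rw [vaZ, toV_add, toV_smul, toV_pole, toV_pole, h11]
  have hb : toV (vbZ i) = (1 + √3) • pole (i - 1) + pole (i + 1) := by
    rw [vbZ, toV_add, toV_smul, toV_pole, toV_pole, h11]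
  have hd : det3 (pole (i - 1)) (pole (i + 1)) (pole i) ≠ 0 := by
    intro h0
    have := det_sq (pole (i - 1)) (pole (i + 1)) (pole i)
    rw [h0, hpq, hpr, hqr, lor_pole_self, lor_pole_self, lor_pole_self] at this
    nlinarith
  rw [← sub_eq_zero]
  refine eq_zero_of_orth hd ?_ ?_ ?_
  · simp only [ha, hb, lor_sub_left, lor_add_left, lor_smul_left, lor_pole_self, hqp]
    linear_combination (-lor z (pole (i - 1))) * h3
  · simp only [ha, hb, lor_sub_left, lor_add_left, lor_smul_left, lor_pole_self, hpq]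
    linear_combination (-lor z (pole (i + 1))) * h3
  · simp only [ha, hb, lor_sub_left, lor_add_left, lor_smul_left, hz, hpr, hqr]
    ring

lemma not_same {i : Fin 12} {m : ZV} {z : X} (hQ : z ∈ Q) (hz : lor z.1 (pole i) = 0)
    (hm : lor z.1 (toV m) = 0) : sameSign (lorZ (vaZ i) m) (lorZ (vbZ i) m) = false := by
  have hw := wall_comb i z.1 hz
  have e1 := congrArg (fun v => lor v (toV m)) hw
  have e2 := congrArg (fun v => lor v z.1) hw
  simp only [lor_add_left, lor_smul_left, hm, lor_toV, z.2.1] at e1 e2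
  have ha : 0 ≤ -lor z.1 (pole (i - 1)) := neg_nonneg.2 (hQ _)
  have hb : 0 ≤ -lor z.1 (pole (i + 1)) := neg_nonneg.2 (hQ _)
  have hs : (0 : ℝ) < √3 := by positivity
  generalize -lor z.1 (pole (i - 1)) = a at *
  generalize -lor z.1 (pole (i + 1)) = b at *
  have key : ∀ x y : ℝ, 0 < x → 0 < y → a * x + b * y ≠ 0 := by
    intro x y hx hy h0
    have h1 : a * x = 0 := by nlinarith [mul_nonneg ha hx.le, mul_nonneg hb hy.le]
    have h2 : b * y = 0 := by linarith
    have h1' : a = 0 := (mul_eq_zero.1 h1).resolve_right hx.ne'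
    have h2' : b = 0 := (mul_eq_zero.1 h2).resolve_right hy.ne'
    rw [h1', h2'] at e2
    linarith
  rw [Bool.eq_false_iff]
  intro h
  simp only [sameSign, Bool.or_eq_true, Bool.and_eq_true, pos_iff, toR_neg] at h
  rcases h with ⟨h1, h2⟩ | ⟨h1, h2⟩
  · exact key _ _ h1 h2 (by linarith)
  · exact key _ _ h1 h2 (by linarith)

lemma wd_reverse (l : List (Fin 12)) : wd l.reverse = (wd l)⁻¹ := cs.wordProd_reverse l

lemma wd_append (l l' : List (Fin 12)) : wd (l ++ l') = wd l * wd l' := cs.wordProd_append l l'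

lemma eq_of_x0 (h : StmtB1) {w w' : W} (e : w • toV x0Z = w' • toV x0Z) : w = w' := by
  obtain ⟨c, hc, h0⟩ := toV_x0
  rw [h0, smul_smul_V, smul_smul_V] at e
  have e' : w • x0.1 = w' • x0.1 := smul_right_injective V hc.ne' e
  have : (w'⁻¹ * w) • x0 = x0 := by
    apply Subtype.ext
    rw [smul_val, mul_smul, e', inv_smul_smul]
  have := h.faithful _ this
  rw [inv_mul_eq_one] at this
  exact this.symm

/-- the tiles on the list -/
def SS (b : Fin 6) : Set W := {w | ∃ (j : ℤ), ∃ u ∈ TL b, w = (cvG b).1 ^ j * wd u}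

lemma fix_n (b : Fin 6) : (cvG b).1 • toV (nZ b) = toV (nZ b) := by
  rw [cvG_val, ← toV_act, (opole_all b).1]

lemma fix_n_zpow (b : Fin 6) (j : ℤ) : (cvG b).1 ^ j • toV (nZ b) = toV (nZ b) :=
  MulAction.mem_stabilizer_iff.1
    (Subgroup.zpow_mem _ (MulAction.mem_stabilizer_iff.2 (fix_n b)) j)

lemma step (h : StmtB1) (b : Fin 6) {w : W} (hw : w ∈ SS b) {z : X} (hQ : z ∈ Q)
    (hn : lor (w • z).1 (toV (nZ b)) = 0) {i : Fin 12} (hi : lor z.1 (pole i) = 0) :
    w * sr i ∈ SS b := by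
  obtain ⟨j, u, hu, rfl⟩ := hw
  have hm : lor z.1 (toV (actZ u.reverse (nZ b))) = 0 := by
    rw [toV_act, wd_reverse, ← lor_smul (wd u), smul_inv_smul, ← lor_smul ((cvG b).1 ^ j),
      fix_n_zpow, ← mul_smul]
    exact hn
  have hc := chk_all b
  simp only [chk, List.all_eq_true] at hc
  have hc' := hc u hu i (List.mem_finRange i)
  rw [not_same hQ hi hm, Bool.false_or] at hc'
  simp only [known, List.any_eq_true, Bool.or_eq_true, beq_iff_eq] at hc'
  obtain ⟨u', hu', hc'⟩ := hc'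
  have hsr : wd (u ++ [i]) = wd u * sr i := by rw [wd_append, wd, wd, cs.wordProd_singleton]
  rcases hc' with (e | e) | e
  · have e' := congrArg toV e
    rw [toV_act, toV_act, hsr] at e'
    exact ⟨j, u', hu', by rw [mul_assoc, eq_of_x0 h e']⟩
  · have e' := congrArg toV e
    rw [toV_act, toV_act, toV_act, hsr, ← mul_smul, ← cvG_val] at e'
    exact ⟨j + 1, u', hu', by rw [mul_assoc, eq_of_x0 h e', zpow_add_one, mul_assoc]⟩
  · have e' := congrArg toV e
    rw [toV_act, toV_act, toV_act, hsr, ← mul_smul, wd_reverse, ← cvG_val] at e'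
    exact ⟨j - 1, u', hu', by rw [mul_assoc, eq_of_x0 h e', zpow_sub_one, mul_assoc]⟩

lemma sr_fix {z : X} {i : Fin 12} (hi : lor z.1 (pole i) = 0) : sr i • z = z := by
  apply Subtype.ext
  rw [smul_val, sr_smul, hi]; simp

/-- all tiles through a point of a listed tile on the axis are listed -/
lemma all_tiles (h : StmtB1) (b : Fin 6) {w w' : W} (hw : w ∈ SS b) {z z' : X} (hQ : z ∈ Q)
    (hQ' : z' ∈ Q) (e : w • z = w' • z') (hn : lor (w • z).1 (toV (nZ b)) = 0) : w' ∈ SS b := by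
  have e1 : (w⁻¹ * w') • z' = z := by rw [mul_smul, ← e, inv_smul_smul]
  obtain ⟨e2, hc⟩ := h.fund (w⁻¹ * w') z' hQ' (by rw [e1]; exact hQ)
  have e3 : z = z' := by rw [← e1, e2]
  subst e3
  have key : ∀ t ∈ Subgroup.closure {t | ∃ i, lor z.1 (pole i) = 0 ∧ t = sr i},
      w * t ∈ SS b ∧ t • z = z := by
    intro t ht
    induction ht using Subgroup.closure_induction_right with
    | one => exact ⟨by simpa using hw, one_smul _ _⟩
    | mul_right x _ y hy ih =>
      obtain ⟨i, hi, rfl⟩ := hy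
      refine ⟨?_, by rw [mul_smul, sr_fix hi, ih.2]⟩
      rw [← mul_assoc]
      exact step h b ih.1 hQ (by rw [mul_smul, ih.2]; exact hn) hi
    | mul_inv_cancel x _ y hy ih =>
      obtain ⟨i, hi, rfl⟩ := hy
      rw [cs.inv_simple]
      refine ⟨?_, by rw [mul_smul, sr_fix hi, ih.2]⟩
      rw [← mul_assoc]
      exact step h b ih.1 hQ (by rw [mul_smul, ih.2]; exact hn) hi
  simpa using (key _ hc).1

/-- the tiles form a locally finite family -/
lemma locFin (h : StmtB1) : LocallyFinite fun w : W => (fun z : X => w • z) '' Q := by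
  intro x
  refine ⟨{z : X | z.1 2 ≤ x.1 2 + 1}, ?_, ?_⟩
  · have hc : Continuous fun z : X => z.1 2 := (continuous_apply 2).comp continuous_subtype_val
    exact Filter.mem_of_superset ((isOpen_lt hc continuous_const).mem_nhds
      (show x.1 2 < x.1 2 + 1 by linarith)) fun z hz => show z.1 2 ≤ x.1 2 + 1 from le_of_lt hz
  · refine (h.proper Q _ h.compact (h.ball (x.1 2 + 1))).subset ?_
    rintro w ⟨_, ⟨z, hz, rfl⟩, hz'⟩
    exact ⟨z, hz, hz'⟩

lemma closed_union (h : StmtB1) (T : Set W) :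
    IsClosed {x : X | ∃ w ∈ T, ∃ z ∈ Q, x = w • z} := by
  have h1 : LocallyFinite fun w : T => (fun z : X => w.1 • z) '' Q :=
    (locFin h).comp_injective Subtype.val_injective
  have h2 := h1.isClosed_iUnion fun w =>
    (h.compact.image (continuous_const_smul w.1)).isClosed
  convert h2 using 1
  ext x
  simp only [mem_ofPred_eq, mem_iUnion, mem_image]
  constructor
  · rintro ⟨w, hw, z, hz, rfl⟩
    exact ⟨⟨w, hw⟩, z, hz, rfl⟩
  · rintro ⟨w, z, hz, rfl⟩
    exact ⟨w.1, w.2, z, hz, rfl⟩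

lemma of_good {b : Fin 6} {y : ZV} (hy : good b y = true) :
    ∃ z ∈ Q, lor z.1 (toV (nZ b)) = 0 := by
  simp only [good, Bool.and_eq_true, beq_iff_eq, pos_iff, toR_neg, List.all_eq_true,
    Bool.not_eq_true', Bool.eq_false_iff, ne_eq, not_lt] at hy
  obtain ⟨⟨⟨h1, h2⟩, h3⟩, h4⟩ := hy
  rw [← lor_toV] at h2 h3
  obtain ⟨c, hc, h0⟩ := toV_x0
  have h5 : 0 < toV y 2 := by
    rw [h0, lor_smul_right] at h3
    have : lor (toV y) x0.1 = -toV y 2 := by simp [lor, x0]
    rw [this] at h3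
    have h6 : 0 < c * toV y 2 := by linarith
    exact (mul_pos_iff_of_pos_left hc).1 h6
  have hr : 0 < √(-lor (toV y) (toV y)) := Real.sqrt_pos.2 h2
  have hr2 := Real.mul_self_sqrt h2.le
  refine ⟨⟨(√(-lor (toV y) (toV y)))⁻¹ • toV y, ?_, ?_⟩, fun k => ?_, ?_⟩
  · rw [lor_smul_left, lor_smul_right]
    field_simp
    linarith
  · exact mul_pos (inv_pos.2 hr) h5
  · show lor (_ • _) _ ≤ 0
    rw [lor_smul_left, ← toV_pole, lor_toV y (poleZ k)]
    exact mul_nonpos_of_nonneg_of_nonpos (inv_pos.2 hr).le (h4 k (List.mem_finRange k))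
  · show lor (_ • _) _ = 0
    rw [lor_smul_left, lor_toV y (nZ b), h1]; simp [toR]

lemma opole (b : Fin 6) : OPole (cvG b).1 (toV (nZ b)) := by
  refine ⟨fix_n b, ?_⟩
  obtain ⟨c, hc, h0⟩ := toV_x0
  obtain ⟨d, hd, h1⟩ := det3_toV
  have h2 := mul_pos hd ((pos_iff _).1 (opole_all b).2.1)
  rw [← h1, toV_act, h0, smul_smul_V, ← cvG_val] at h2
  have h3 : det3 (c • x0.1) (toV (nZ b)) (c • ((cvG b).1 • x0.1)) =
      c * c * det3 x0.1 (toV (nZ b)) ((cvG b).1 • x0.1) := by
    simp only [det3, Pi.smul_apply, smul_eq_mul]; ring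
  rw [h3] at h2
  exact (mul_pos_iff_of_pos_left (mul_pos hc hc)).1 h2

end C1

open C1 in
theorem blockC1 (h : Geo) : StmtC1 := by
  intro b
  refine ⟨opole b, ?_⟩
  have hne : cvG b ≠ 1 := by
    intro h1
    have h2 := (opole b).2
    rw [h1] at h2
    have h3 : det3 x0.1 (toV (nZ b)) ((1 : G).1 • x0.1) = 0 := by
      rw [Subgroup.coe_one, one_smul]; simp only [det3]; ring
    exact h2.ne' h3
  obtain ⟨a, ha⟩ := h.ax.ex _ hne
  obtain ⟨c, hc, hn⟩ := (h.ax.opole _ a _ ha).1 (opole b)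
  obtain ⟨e, ⟨he, -⟩, -⟩ := h.ax.fermi a
  have hline : ∀ x : X, lor x.1 (toV (nZ b)) = 0 ↔ ∃ τ, x = e (τ, 0) := by
    intro x
    rw [hn, lor_smul_right]
    constructor
    · intro h0
      have h1 : lor x.1 a.n = 0 := (mul_eq_zero.1 h0).resolve_left hc.ne'
      refine ⟨(e.symm x).1, ?_⟩
      have h2 := he (e.symm x)
      rw [e.apply_symm_apply, h1] at h2
      rw [h2]; simp
    · rintro ⟨τ, rfl⟩
      rw [he]; simp
  have hcont : Continuous fun τ : ℝ => e (τ, 0) := by fun_prop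
  let A : Set ℝ := (fun τ : ℝ => e (τ, 0)) ⁻¹' {x : X | ∃ w ∈ SS b, ∃ z ∈ Q, x = w • z}
  let B : Set ℝ := (fun τ : ℝ => e (τ, 0)) ⁻¹' {x : X | ∃ w ∈ (SS b)ᶜ, ∃ z ∈ Q, x = w • z}
  have hA : IsClosed A := (closed_union h.b1 _).preimage hcont
  have hB : IsClosed B := (closed_union h.b1 _).preimage hcont
  have hAB : A = Bᶜ := by
    ext τ
    constructor
    · rintro ⟨w, hw, z, hz, e1⟩ ⟨w', hw', z', hz', e2⟩
      exact hw' (all_tiles h.b1 b hw hz hz' (e1.symm.trans e2) ((hline _).2 ⟨τ, e1.symm⟩))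
    · intro hτ
      obtain ⟨w, z, hz, e1⟩ := h.b1.cover (e (τ, 0))
      refine ⟨w, ?_, z, hz, e1⟩
      by_contra hw
      exact hτ ⟨w, hw, z, hz, e1⟩
  have hclopen : IsClopen A := ⟨hA, by rw [hAB]; exact hB.isOpen_compl⟩
  have hne' : A.Nonempty := by
    have hb := base_all b
    simp only [base, List.any_eq_true, Bool.or_eq_true] at hb
    obtain ⟨i, -, hb⟩ := hb
    obtain ⟨z, hz, h0⟩ : ∃ z ∈ Q, lor z.1 (toV (nZ b)) = 0 := hb.elim of_good of_good
    obtain ⟨τ, hτ⟩ := (hline z).1 h0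
    exact ⟨τ, 1, ⟨0, [], (opole_all b).2.2, by simp⟩, z, hz, by rw [one_smul]; exact hτ.symm⟩
  have huniv : A = univ := hclopen.eq_univ hne'
  intro w z hz h0
  obtain ⟨τ, hτ⟩ := (hline _).1 h0
  have hτA : τ ∈ A := by rw [huniv]; trivial
  obtain ⟨w', hw', z', hz', e1⟩ := hτA
  exact all_tiles h.b1 b hw' hz' hz (e1.symm.trans hτ.symm) ((hline _).2 ⟨τ, e1.symm⟩)

end Pool.Agent.Lib.MP_003e01_gt
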