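import Pool.Agent.Lib.MP_003e01_gt.Blue

/-! Block C2: the intersection pattern of the six curves. -/

open Set Topology

namespace Pool.Agent.Lib.MP_003e01_gt

namespace C2

open Z3

def tB (l : List (Fin 12)) : ℕ := (l.filter (fun i => i.val % 2 = 0)).length % 2
def tR (l : List (Fin 12)) : ℕ := (l.filter (fun i => ¬ i.val % 2 = 0)).length % 2

lemma pow_iff (m n : ℕ) : (-1 : ℝ) ^ m = (-1) ^ n ↔ m % 2 = n % 2 := by
  rw [neg_one_pow_eq_pow_mod_two (n := m), neg_one_pow_eq_pow_mod_two (n := n)]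
  rcases Nat.mod_two_eq_zero_or_one m with h | h <;>
    rcases Nat.mod_two_eq_zero_or_one n with h' | h' <;> rw [h, h'] <;> norm_num

lemma chB_iff (u v : List (Fin 12)) : chB (wd u) = chB (wd v) ↔ tB u = tB v := by
  rw [chB_wd, chB_wd, pow_iff, tB, tB]

lemma chR_iff (u v : List (Fin 12)) : chR (wd u) = chR (wd v) ↔ tR u = tR v := by
  rw [chR_wd, chR_wd, pow_iff, tR, tR]

/-- the line of the curve `b` seen from the tile `u` -/
def ln (b : Fin 6) (u : List (Fin 12)) : ZV := actZ u.reverse (nZ b)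

lemma toV_ln (b : Fin 6) (u : List (Fin 12)) : toV (ln b u) = (wd u)⁻¹ • toV (nZ b) := by
  rw [ln, toV_act, wd, CoxeterSystem.wordProd_reverse]

def NN (b : Fin 6) : Z3 := lorZ (nZ b) (nZ b)

/-- the two lines cross -/
def cr (b b' : Fin 6) (m m' : ZV) : Bool :=
  pos (sub (mul (NN b) (NN b')) (mul (lorZ m m') (lorZ m m')))

def MT (b b' : Fin 6) : Prop :=
  ∃ u ∈ TL b, ∃ u' ∈ TL b', tB u = tB u' ∧ tR u = tR u' ∧ cr b b' (ln b u) (ln b' u') = true

instance (b b' : Fin 6) : Decidable (MT b b') := by unfold MT; infer_instance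

def sI (k : Fin 3) : Fin 6 := ⟨k, by omega⟩
def eI (k : Fin 3) : Fin 6 := ⟨k + 3, by omega⟩

lemma cv_s (k : Fin 3) : cvG (sI k) = sC k := by fin_cases k <;> rfl
lemma cv_e (k : Fin 3) : cvG (eI k) = eC k := by fin_cases k <;> rfl

lemma chk_ss : ∀ i j : Fin 3, ¬ MT (sI i) (sI j) := by decide +kernel
lemma chk_ee : ∀ i j : Fin 3, ¬ MT (eI i) (eI j) := by decide +kernel
lemma chk_se : ∀ i j : Fin 3, MT (sI i) (eI j) ↔ i ≠ j := by decide +kernel

lemma chk_prim : ∀ b : Fin 6, ∀ u ∈ TL b, ∀ u' ∈ TL b, tB u = tB u' → tR u = tR u' → u = u' ∨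
    pos (sub (NN b) (lorZ (ln b u) (ln b u'))) = true ∨
    pos (sub (lorZ (ln b u) (ln b u')) (NN b)) = true := by decide +kernel

/-- end points of the chords -/
def vZ (k : Fin 3) (i : Fin 12) : ZV := addZ (poleZ (rot k 0)) (smulZ (5, 3) (poleZ (rot k i)))

lemma toV_vZ (k : Fin 3) (i : Fin 12) :
    toV (vZ k i) = pole (rot k 0) + (5 + 3 * √3) • pole (rot k i) := by
  rw [vZ, toV_add, toV_smul, toV_pole, toV_pole]
  simp [toR]

lemma chk_Q : ∀ (k : Fin 3) (i : Fin 12), pos (lorZ (vZ k 4) (poleZ i)) = false ∧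
    pos (lorZ (vZ k 8) (poleZ i)) = false := by decide +kernel

lemma chk_ind : ∀ k : Fin 3, lorZ (vZ k 4) (poleZ (rot k 4)) = (0, 0) ∧
    lorZ (vZ k 8) (poleZ (rot k 8)) = (0, 0) ∧ pos (neg (lorZ (vZ k 8) (poleZ (rot k 4)))) = true ∧
    pos (neg (lorZ (vZ k 4) (poleZ (rot k 8)))) = true := by decide +kernel

lemma chk_seg : ∀ k : Fin 3, ∀ u ∈ TL (sI k), tR u = tR [] →
    pos (mul (lorZ (vZ k 4) (ln (sI k) u)) (lorZ (vZ k 8) (ln (sI k) u))) = true := by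
  decide +kernel

lemma abs_iff {c c' N N' L : ℝ} (h : c * (c * N) = 1) (h' : c' * (c' * N') = 1) :
    |c * (c' * L)| < 1 ↔ 0 < N * N' - L * L := by
  have a : 0 < c * c := mul_self_pos.2 (by rintro rfl; simp at h)
  have a' : 0 < c' * c' := mul_self_pos.2 (by rintro rfl; simp at h')
  rw [← sq_lt_one_iff_abs_lt_one, ← mul_pos_iff_of_pos_left (mul_pos a a'), ← sub_pos]
  have : c * c * (c' * c') * (N * N' - L * L) = 1 - (c * (c' * L)) ^ 2 := by
    linear_combination (c' * (c' * N')) * h + h'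
  rw [this]

lemma lor_inv (w : W) (x y : V) : lor (w • x) y = lor x (w⁻¹ • y) := by
  rw [← lor_smul w x, smul_inv_smul]

variable (h : Geo) (h1 : StmtC1)
include h1

lemma cv_ne (b : Fin 6) : cvG b ≠ 1 := fun e => by
  have := (h1 b).1.2
  rw [e, OneMemClass.coe_one, one_smul] at this
  simp only [det3] at this
  linarith

lemma zpow_fix (b : Fin 6) (j : ℤ) : (cvG b).1 ^ j • toV (nZ b) = toV (nZ b) :=
  MulAction.mem_stabilizer_iff.1 (zpow_mem (MulAction.mem_stabilizer_iff.2 (h1 b).1.1) j)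

lemma tile (b : Fin 6) (γ : G) (w : W) {z : X} (hz : z ∈ Q)
    (h0 : lor (w • z).1 (γ.1 • toV (nZ b)) = 0) : ∃ (j : ℤ), ∃ u ∈ TL b,
      w = γ.1 * ((cvG b).1 ^ j * wd u) ∧ chB w = chB (wd u) ∧ chR w = chR (wd u) ∧
      w⁻¹ • γ.1 • toV (nZ b) = toV (ln b u) := by
  obtain ⟨j, u, hu, e⟩ := (h1 b).2 (γ.1⁻¹ * w) z hz (by
    rw [mul_smul, smul_val, lor_inv, inv_inv, h0])
  rw [inv_mul_eq_iff_eq_mul] at e
  have m := zpow_mem (cvG b).2 j
  refine ⟨j, u, hu, e, ?_, ?_, ?_⟩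
  · rw [e, map_mul, map_mul, γ.2.1, m.1, one_mul, one_mul]
  · rw [e, map_mul, map_mul, γ.2.2, m.2, one_mul, one_mul]
  · rw [toV_ln, e, mul_inv_rev, mul_inv_rev, mul_smul, mul_smul, inv_smul_smul, ← zpow_neg,
      zpow_fix h1]

include h

lemma axis_conj (b : Fin 6) (γ : G) : ∃ (a : Axis) (c : ℝ), a.For (γ * cvG b * γ⁻¹).1 ∧
    a.n = c • γ.1 • toV (nZ b) := by
  obtain ⟨a, ha⟩ := h.ax.ex _ (cv_ne h1 b)
  obtain ⟨c, hc, e⟩ := (h.ax.opole _ a _ ha).1 (h1 b).1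
  obtain ⟨a', ha', -, -, e', -⟩ := h.ax.conj _ γ.1 a ha
  refine ⟨a', c⁻¹, ha', ?_⟩
  rw [e', γ.2.1, γ.2.2, e, smul_smul_V, smul_smul, inv_mul_cancel₀ hc.ne', one_mul]

lemma axis_same (b : Fin 6) {x : G} (hx : Same (cvG b) x) : ∃ (γ : G) (a : Axis) (c : ℝ),
    a.For x.1 ∧ a.n = c • γ.1 • toV (nZ b) := by
  rcases hx with hx | hx <;> obtain ⟨γ, rfl⟩ := isConj_iff.1 hx <;>
    obtain ⟨a, c, ha, e⟩ := axis_conj h h1 b γ
  · exact ⟨γ, a, c, ha, e⟩
  · obtain ⟨a', ha', -, -, e', -⟩ := h.ax.inv _ a ha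
    refine ⟨γ, a', -c, ?_, by rw [e', e, neg_smul]⟩
    rwa [← InvMemClass.coe_inv, mul_inv_rev, mul_inv_rev, inv_inv, ← mul_assoc] at ha'

omit h h1 in
lemma norm_c {b : Fin 6} {a : Axis} {c : ℝ} {w : W} (e : a.n = c • w • toV (nZ b)) :
    c * (c * toR (NN b)) = 1 := by
  rw [← a.hn, e, lor_smul_left, lor_smul_right, lor_smul, lor_toV, NN]

variable {Z : Type} [LinearOrder Z] [MulAction G Z] (C : CG G Z) {ν : Z → V} (hl : Link C.att ν)
include hl

lemma meets_iff (b b' : Fin 6) : C.Meets (cvG b) (cvG b') ↔ MT b b' := by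
  have F := h.b2b Z C.att ν hl
  constructor
  · rintro ⟨x, y, hx, hy, hc⟩
    obtain ⟨γ, a, c, ha, e⟩ := axis_same h h1 b hx
    obtain ⟨γ', a', c', ha', e'⟩ := axis_same h h1 b' hy
    obtain ⟨i1, i2, -⟩ := F.cross_iff x y a a' ha ha'
    obtain ⟨z, z1, z2⟩ := i2 hc
    obtain ⟨w, z, hz, rfl⟩ := h.b1.cover z
    have n := norm_c e
    have n' := norm_c e'
    rw [e, lor_smul_right, mul_eq_zero] at z1
    rw [e', lor_smul_right, mul_eq_zero] at z2
    obtain ⟨-, u, hu, -, b1, r1, l1⟩ := tile h1 b γ w hz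
      (z1.resolve_left (by rintro rfl; simp at n))
    obtain ⟨-, u', hu', -, b2, r2, l2⟩ := tile h1 b' γ' w hz
      (z2.resolve_left (by rintro rfl; simp at n'))
    refine ⟨u, hu, u', hu', (chB_iff _ _).1 (b1.symm.trans b2), (chR_iff _ _).1 (r1.symm.trans r2),
      ?_⟩
    have := i1.1 hc
    rw [e, e', lor_smul_left, lor_smul_right, abs_iff n n', ← lor_smul w⁻¹, l1, l2, lor_toV] at this
    rwa [cr, pos_iff, toR_sub, toR_mul, toR_mul]
  · rintro ⟨u, -, u', -, b1, r1, hc⟩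
    let γ : G := ⟨wd u * (wd u')⁻¹, by
      rw [map_mul, (chB_iff _ _).2 b1, ← map_mul, mul_inv_cancel, map_one], by
      rw [map_mul, (chR_iff _ _).2 r1, ← map_mul, mul_inv_cancel, map_one]⟩
    obtain ⟨a, c, ha, e⟩ := axis_conj h h1 b 1
    obtain ⟨a', c', ha', e'⟩ := axis_conj h h1 b' γ
    refine ⟨_, _, Or.inl (isConj_iff.2 ⟨1, rfl⟩), Or.inl (isConj_iff.2 ⟨γ, rfl⟩),
      (F.cross_iff _ _ a a' ha ha').1.2 ?_⟩
    rw [cr, pos_iff, toR_sub, toR_mul, toR_mul, ← lor_toV, toV_ln, toV_ln] at hc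
    rw [e, e', lor_smul_left, lor_smul_right, abs_iff (norm_c e) (norm_c e'), OneMemClass.coe_one,
      one_smul, ← lor_smul (wd u)⁻¹]
    simpa only [γ, mul_smul, inv_smul_smul] using hc

lemma prim (b : Fin 6) : C.Prim (cvG b) := by
  refine ⟨cv_ne h1 b, fun γ hγ => ?_⟩
  have F := h.b2b Z C.att ν hl
  have ne := cv_ne h1 b
  obtain ⟨a, ha⟩ := h.ax.ex _ ne
  obtain ⟨c, hc, e⟩ := (h.ax.opole _ a _ ha).1 (h1 b).1
  obtain ⟨a', ha', -, -, e', -⟩ := h.ax.conj _ γ.1 a ha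
  have t : C.att (cvG b) = C.att (γ * cvG b * γ⁻¹) := by rw [C.att_conj _ _ ne, hγ]
  have fx := (F.cross_iff (cvG b) (γ * cvG b * γ⁻¹) a a' ha ha').2.2.2.2.2
    ⟨t, (h.a1 G Z C).att_eq _ _ ne (by simpa [mul_inv_eq_one] using ne) t⟩
  rw [e', γ.2.1, γ.2.2, one_mul, one_smul] at fx
  have fx' : γ.1 • toV (nZ b) = toV (nZ b) := by rw [e, smul_smul_V, ← fx]
  obtain ⟨f, ⟨hf, -⟩, -⟩ := h.ax.fermi a
  obtain ⟨w, z, hz, ez⟩ := h.b1.cover (f (0, 0))
  have z0 : lor (w • z).1 (toV (nZ b)) = 0 := by rw [e, lor_smul_right, ← ez, hf, mul_zero]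
  obtain ⟨j, u, hu, w1, b1, r1, l1⟩ := tile h1 b 1 w hz (by simpa using z0)
  obtain ⟨j', u', hu', w2, b2, r2, l2⟩ := tile h1 b γ⁻¹ w hz (by
    rwa [InvMemClass.coe_inv, inv_smul_eq_iff.2 fx'.symm])
  rw [InvMemClass.coe_inv, inv_smul_eq_iff.2 fx'.symm] at l2
  rw [OneMemClass.coe_one, one_smul] at l1
  have eN : toR (lorZ (ln b u) (ln b u')) = toR (NN b) := by
    rw [← lor_toV, ← l1, ← l2, lor_smul, lor_toV, NN]
  rcases chk_prim b u hu u' hu' ((chB_iff _ _).1 (b1.symm.trans b2))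
    ((chR_iff _ _).1 (r1.symm.trans r2)) with rfl | q | q
  · refine ⟨j' - j, Subtype.ext ?_⟩
    rw [w1, OneMemClass.coe_one, one_mul, InvMemClass.coe_inv, eq_inv_mul_iff_mul_eq, ← mul_assoc,
      mul_left_inj] at w2
    simp only [SubgroupClass.coe_zpow]
    rw [zpow_sub, ← w2, mul_inv_cancel_right]
  · rw [pos_iff, toR_sub, eN, sub_self] at q
    exact (lt_irrefl _ q).elim
  · rw [pos_iff, toR_sub, eN, sub_self] at q
    exact (lt_irrefl _ q).elim

end C2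

open C2 Z3 in
theorem blockC2 (h : Geo) (h1 : StmtC1) : StmtC2 := by
  refine ⟨fun Z _ _ C ν hl => ?_, fun k => ?_⟩
  · refine ⟨MonoidHom.normal_ker _, fun i => cv_s i ▸ prim h h1 C hl _,
      fun i => cv_e i ▸ prim h h1 C hl _, fun i j => ?_, fun i j => ?_, fun i => ?_,
      fun i j hij => ?_, fun i => ?_⟩
    · rw [← cv_s, ← cv_s, meets_iff h h1 C hl]
      exact chk_ss i j
    · rw [← cv_e, ← cv_e, meets_iff h h1 C hl]
      exact chk_ee i j
    · rw [← cv_s, ← cv_e, meets_iff h h1 C hl, chk_se]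
      simp
    · rwa [← cv_s, ← cv_e, meets_iff h h1 C hl, chk_se]
    · change redH (wd [rot i 4, rot i 8]) = 1
      rw [wd, CoxeterSystem.wordProd_cons, CoxeterSystem.wordProd_singleton, map_mul, redH_sr,
        redH_sr, if_pos (by revert i; decide), if_pos (by revert i; decide), one_mul]
  have mem : ∀ z : X, z ∈ seg k ↔ ∃ a b : ℝ, 0 ≤ a ∧ 0 ≤ b ∧
      z.1 = a • toV (vZ k 4) + b • toV (vZ k 8) := fun z => by
    rw [toV_vZ, toV_vZ]
    rfl
  have sub : seg k ⊆ Q := fun z hz i => by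
    obtain ⟨a, b, ha, hb, e⟩ := (mem z).1 hz
    obtain ⟨c1, c2⟩ := chk_Q k i
    rw [← Bool.not_eq_true, pos_iff, not_lt] at c1 c2
    rw [e, ← toV_pole, lor_add_left, lor_smul_left, lor_smul_left, lor_toV, lor_toV]
    exact add_nonpos (mul_nonpos_of_nonneg_of_nonpos ha c1) (mul_nonpos_of_nonneg_of_nonpos hb c2)
  refine ⟨sub, h.b1.compact.of_isClosed_subset ?_ sub, fun a ha w hw z hz h0 => ?_⟩
  · let L : ℝ × ℝ →ₗ[ℝ] V := (LinearMap.toSpanSingleton ℝ V (toV (vZ k 4))).coprod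
      (LinearMap.toSpanSingleton ℝ V (toV (vZ k 8)))
    have hL : ∀ q, L q = q.1 • toV (vZ k 4) + q.2 • toV (vZ k 8) := fun _ => rfl
    have inj : LinearMap.ker L = ⊥ := LinearMap.ker_eq_bot'.2 fun q hq => by
      obtain ⟨c1, c2, c3, c4⟩ := chk_ind k
      rw [pos_iff, toR_neg] at c3 c4
      have e := fun i => congrArg (lor · (toV (poleZ i))) hq
      simp only [hL, lor_add_left, lor_smul_left, lor_toV] at e
      have e1 := e (rot k 4)
      have e2 := e (rot k 8)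
      rw [c1] at e1
      rw [c2] at e2
      simp only [toR, lor, Pi.zero_apply, zero_mul, add_zero, sub_zero, Int.cast_zero, mul_zero,
        zero_add, mul_eq_zero] at e1 e2 c3 c4
      exact Prod.ext (e2.resolve_right (by linarith)) (e1.resolve_right (by linarith))
    have := ((LinearMap.isClosedEmbedding_of_injective inj).isClosedMap (Ici 0 ×ˢ Ici 0)
      (isClosed_Ici.prod isClosed_Ici)).preimage
        (continuous_subtype_val : Continuous fun z : X => z.1)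
    refine (Set.ext fun z => (mem z).trans ?_ : seg k = _) ▸ this
    exact ⟨fun ⟨a, b, ha, hb, e⟩ => ⟨(a, b), ⟨ha, hb⟩, e.symm⟩,
      fun ⟨q, hq, e⟩ => ⟨q.1, q.2, hq.1, hq.2, e.symm⟩⟩
  · rw [← cv_s] at ha
    obtain ⟨c, -, e⟩ := (h.ax.opole _ a _ ha).1 (h1 _).1
    obtain ⟨-, u, hu, -, -, r1, l1⟩ := tile h1 (sI k) 1 w (sub hz) (by
      rw [OneMemClass.coe_one, one_smul, e, lor_smul_right, h0, mul_zero])
    have p := chk_seg k u hu ((chR_iff _ _).1 (by rw [← r1, hw]; simp))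
    have z0 : lor z.1 (toV (ln (sI k) u)) = 0 := by
      rw [← l1, ← lor_inv, OneMemClass.coe_one, one_smul, e, lor_smul_right, ← smul_val, h0,
        mul_zero]
    obtain ⟨s, t, hs, ht, ez⟩ := (mem z).1 hz
    rw [pos_iff, toR_mul] at p
    rw [ez, lor_add_left, lor_smul_left, lor_smul_left, lor_toV, lor_toV] at z0
    generalize toR (lorZ (vZ k 4) (ln (sI k) u)) = A at *
    generalize toR (lorZ (vZ k 8) (ln (sI k) u)) = B at *
    have st : s = 0 ∧ t = 0 := by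
      rcases mul_pos_iff.1 p with ⟨p1, p2⟩ | ⟨p1, p2⟩ <;> constructor <;> nlinarith
    have := z.2.2
    rw [ez, st.1, st.2] at this
    simp at this

end Pool.Agent.Lib.MP_003e01_gt
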