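import Pool.Agent.Lib.MP_003e01_gt.Blue

namespace Pool.Agent.Lib.MP_003e01_gt

namespace C3

open Z3

def CH : List (List (List (Fin 12) × Fin 6)) := [
  [([], 5), ([], 1)],
  [([], 4), ([], 2)],
  [([], 4), ([], 2), ([], 3)],
  [([], 4)],
  [([], 5)],
  [([8, 0], 4)],
  [([0, 4], 5)],
  [([1, 11], 4)],
  [([], 4), ([7, 9], 2)],
  [([], 4), ([11, 1], 0), ([11, 1], 5), ([11, 1, 5, 4, 3, 7, 10, 1], 1), ([9, 1], 5)],
  [([], 5), ([4, 7, 10, 1], 1), ([3, 5], 3), ([3, 5, 9, 8, 7, 11, 2, 5], 2), ([1, 5], 3)],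
  [([], 4), ([8, 11, 2, 5], 2), ([7, 9], 4), ([7, 9, 1, 0, 11, 3, 6, 9], 0), ([5, 9], 4), ([5,
    9], 2), ([5, 7], 3)],
  [([], 5), ([4, 7, 10, 1], 1), ([3, 5], 3), ([3, 5, 9, 8, 7, 11, 2, 5], 2), ([1, 5], 3), ([1,
    5], 1), ([1, 3], 3)],
  [([], 5), ([4, 7, 10, 1], 1), ([3, 5], 3), ([3, 5], 2), ([3, 2, 11, 0], 4), ([2, 1, 11, 7, 8,
    9], 2), ([2, 1, 11, 0], 4), ([2, 0], 0)],
  [([], 4), ([11, 1], 0), ([11, 1], 5), ([11, 1], 1), ([11, 10, 7, 4], 3), ([10, 9, 7, 3, 4, 5],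
    1), ([10, 9, 7, 4], 3), ([10, 9, 7, 11, 2, 5], 2), ([10, 0], 4)],
  [([], 4), ([8, 11, 2, 5], 2), ([7, 9], 4), ([7, 9], 0), ([7, 6, 3, 0], 5), ([6, 5, 3, 11, 0,
    1], 0), ([6, 5, 3, 0], 5), ([6, 5, 3, 7, 10, 1], 1), ([6, 0], 5)],
  [([], 5), ([4, 7, 10, 1], 1), ([3, 5], 3), ([3, 5], 2), ([3, 2, 11, 0], 4), ([2, 1, 11, 7, 8,
    9], 2), ([2, 1, 11, 0], 4), ([2, 0], 0), ([2, 4], 5)],
  [([], 5), ([4, 7, 10, 1], 1), ([3, 5, 4, 0], 5)],
  [([], 4), ([11, 1], 0), ([11, 1], 5), ([11, 1], 1), ([11, 10, 7, 4], 3), ([11, 10, 8, 9], 2)],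
  [([], 5), ([4, 7, 10, 1], 1), ([3, 5], 3), ([3, 5], 2), ([3, 2, 11, 0], 4), ([3, 2, 0, 1], 0)],
  [([], 4), ([11, 1], 0), ([11, 1], 5), ([11, 1], 1), ([11, 10, 7, 4], 3), ([11, 10, 7, 11, 2,
    5], 2), ([11, 10, 7, 0], 4)],
  [([], 4), ([11, 1], 0), ([11, 1], 5), ([11, 1], 1), ([11, 10, 7, 4], 3), ([11, 10, 7, 11, 2,
    5], 2), ([11, 10, 9, 0], 4)],
  [([], 4), ([11, 1], 0), ([11, 1], 5), ([11, 1], 1), ([11, 10, 7, 4], 3), ([10, 9, 7, 3, 4, 5],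
    1), ([10, 9, 7, 4], 3), ([10, 9, 7, 11, 2, 5], 2), ([10, 8], 4), ([10, 0, 11, 1], 0)],
  [([], 5), ([4, 7, 10, 1], 1), ([3, 5], 3), ([3, 5], 2), ([3, 2, 11, 0], 4), ([2, 1, 11, 7, 8,
    9], 2), ([2, 1, 11, 0], 4), ([2, 0], 0), ([2, 0], 4), ([2, 3, 6, 9], 0)],
  [([], 5), ([4, 7, 10, 1], 1), ([3, 5], 3), ([3, 5], 2), ([3, 2, 11, 0], 4), ([2, 1, 11, 7, 8,
    9], 2), ([2, 1, 11, 0], 4), ([2, 0], 0), ([2, 0], 5), ([2, 3, 4, 5], 1)]]

def TB : Fin 4 → Fin 12 → List (List (Fin 12)) × Fin 4 := ![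
  ![([], 1),
    ([], 2),
    ([[2, 0]], 1),
    ([[3, 1]], 2),
    ([[4, 0]], 1),
    ([[5, 1]], 2),
    ([[6, 0]], 1),
    ([[7, 9], [9, 1]], 2),
    ([[8, 0]], 1),
    ([[9, 1]], 2),
    ([[10, 0]], 1),
    ([[11, 1]], 2)],
  ![([], 0),
    ([], 3),
    ([[0, 2]], 0),
    ([[0, 2], [3, 2, 0, 1]], 3),
    ([[0, 4]], 0),
    ([[0, 4], [5, 4, 3, 2], [3, 2, 0, 1]], 3),
    ([[0, 6]], 0),
    ([[0, 7, 10, 11], [10, 0, 11, 1]], 3),
    ([[0, 8]], 0),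
    ([[0, 9, 10, 11], [10, 0, 11, 1]], 3),
    ([[0, 10]], 0),
    ([[11, 1]], 3)],
  ![([], 3),
    ([], 0),
    ([[2, 0]], 3),
    ([[1, 3]], 0),
    ([[1, 5], [5, 4, 3, 2], [3, 2, 0, 1]], 3),
    ([[1, 5]], 0),
    ([[1, 9], [9, 6, 3, 2], [3, 2, 0, 1]], 3),
    ([[1, 5], [5, 7]], 0),
    ([[1, 9], [9, 8, 10, 11], [10, 0, 11, 1]], 3),
    ([[1, 9]], 0),
    ([[1, 11], [10, 0, 11, 1]], 3),
    ([[1, 11]], 0)],
  ![([], 2),
    ([], 1),
    ([[0, 2]], 2),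
    ([[1, 0, 2, 3], [2, 0]], 1),
    ([[1, 0, 2, 3], [2, 4], [3, 1]], 2),
    ([[1, 0, 2, 3], [2, 4], [3, 5, 4, 0]], 1),
    ([[1, 0, 2, 3], [2, 3, 6, 9], [9, 1]], 2),
    ([[1, 11, 0, 10], [11, 10, 7, 0]], 1),
    ([[1, 11, 0, 10], [11, 10, 8, 9], [9, 1]], 2),
    ([[1, 11, 0, 10], [11, 10, 9, 0]], 1),
    ([[1, 11, 0, 10], [11, 1]], 2),
    ([[1, 11]], 1)]]

def RP : Fin 4 → List (Fin 12) := ![[], [0], [1], [0, 1]]

def ev (l : List (Fin 12)) : Bool :=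
  decide ((l.filter (fun i => i.val % 2 = 0)).length % 2 = 0) &&
    decide ((l.filter (fun i => ¬ i.val % 2 = 0)).length % 2 = 0)

def crossZ (u v : ZV) : Bool :=
  pos (sub (mul (lorZ u u) (lorZ v v)) (mul (lorZ u v) (lorZ u v)))

def chain : List (Fin 12) × Fin 6 → List (List (Fin 12) × Fin 6) → Bool
  | _, [] => true
  | p, q :: l => ev q.1 && crossZ (actZ p.1 (nZ p.2)) (actZ q.1 (nZ q.2)) && chain q l

theorem check1 : ∀ l ∈ CH, chain ([], 0) l = true := by decide +kernel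

theorem check2 : ∀ b : Fin 6, b = 0 ∨ ([], b) ∈ CH.flatten := by decide +kernel

theorem check3 : ∀ t i, (∀ w ∈ (TB t i).1, ∃ q ∈ CH.flatten, q.1 = w ∨ q.1.reverse = w) ∧
    actZ (RP t ++ [i]) x0Z = actZ ((TB t i).1.flatten ++ RP (TB t i).2) x0Z := by decide +kernel

theorem ev_mem {l : List (Fin 12)} (h : ev l = true) : wd l ∈ GS := by
  simp only [ev, Bool.and_eq_true, decide_eq_true_eq] at h
  exact wd_mem l h.1 h.2

theorem wd_eq (h : Geo) {l l' : List (Fin 12)} (e : actZ l x0Z = actZ l' x0Z) : wd l = wd l' := by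
  obtain ⟨c, hc, h0⟩ := toV_x0
  have h1 := congrArg toV e
  rw [toV_act, toV_act, h0, smul_smul_V, smul_smul_V] at h1
  have h2 : wd l • x0 = wd l' • x0 := Subtype.ext (smul_right_injective V hc.ne' h1)
  have := h.b1.faithful ((wd l')⁻¹ * wd l) (by rw [mul_smul, h2, inv_smul_smul])
  exact (inv_mul_eq_one.1 this).symm

theorem cv_ne (h1 : StmtC1) (b : Fin 6) : cvG b ≠ 1 := fun e => by
  have := (h1 b).1.2
  rw [e, OneMemClass.coe_one, one_smul] at this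
  simp only [det3] at this
  linarith

theorem lift_iff {u : G} : Lift sC eC u ↔ ∃ b, Same (cvG b) u := by
  constructor
  · rintro ⟨i, h | h⟩ <;> fin_cases i
    exacts [⟨0, h⟩, ⟨1, h⟩, ⟨2, h⟩, ⟨3, h⟩, ⟨4, h⟩, ⟨5, h⟩]
  · rintro ⟨b, h⟩
    fin_cases b
    exacts [⟨0, Or.inl h⟩, ⟨1, Or.inl h⟩, ⟨2, Or.inl h⟩, ⟨0, Or.inr h⟩, ⟨1, Or.inr h⟩,
      ⟨2, Or.inr h⟩]

theorem same_conj (x g : G) : Same x (g * x * g⁻¹) := Or.inl (isConj_iff.2 ⟨g, rfl⟩)

theorem lift_same {u v : G} (h : Lift sC eC u) (h' : Same u v) : Lift sC eC v := by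
  obtain ⟨b, hb⟩ := lift_iff.1 h
  exact lift_iff.2 ⟨b, hb.trans h'⟩

theorem lift_ne (h1 : StmtC1) {u : G} (h : Lift sC eC u) : u ≠ 1 := by
  rintro rfl
  obtain ⟨b, hb | hb⟩ := lift_iff.1 h
  · exact cv_ne h1 b (isConj_one_left.1 hb)
  · exact cv_ne h1 b (inv_eq_one.1 (isConj_one_left.1 hb))

variable {Z : Type} [LinearOrder Z] [MulAction G Z] {C : CG G Z} {ν : Z → V}

/-- the crossing relation on lifts -/
def Rl (C : CG G Z) (x y : G) : Prop := Lift sC eC x ∧ Lift sC eC y ∧ Cross C.att x y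

theorem Rl.symm {x y : G} (h : Rl C x y) : Rl C y x := by
  refine ⟨h.2.1, h.1, ?_⟩
  have := h.2.2
  simp only [Cross, Rt, inv_inv, cyc] at this ⊢
  grind

theorem Rl.inv {x y : G} (h : Rl C x y) : Rl C x y⁻¹ :=
  ⟨h.1, lift_same h.2.1 (Or.inr (IsConj.refl _)), by
    have := h.2.2
    simp only [Cross, inv_inv] at this ⊢
    exact this.symm⟩

theorem Rl.conj (h1 : StmtC1) {x y : G} (h : Rl C x y) (g : G) :
    Rl C (g * x * g⁻¹) (g * y * g⁻¹) := by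
  refine ⟨lift_same h.1 (same_conj _ _), lift_same h.2.1 (same_conj _ _), ?_⟩
  have hx := lift_ne h1 h.1
  have hy := lift_ne h1 h.2.1
  have := h.2.2
  simp only [Cross, Rt, inv_inv] at this
  simp only [Cross, Rt, inv_inv, conj_inv, C.att_conj _ g hx, C.att_conj _ g hy,
    C.att_conj _ g (inv_ne_one.2 hx), C.att_conj _ g (inv_ne_one.2 hy), C.smul_cyc]
  exact this

/-- connected by a chain of crossings -/
abbrev Cn (C : CG G Z) (x y : G) : Prop := Relation.ReflTransGen (Rl C) x y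

theorem cn_symm {x y : G} (h : Cn C x y) : Cn C y x := by
  induction h with
  | refl => exact Relation.ReflTransGen.refl
  | tail _ h ih => exact Relation.ReflTransGen.head h.symm ih

theorem cn_conj (h1 : StmtC1) {x y : G} (h : Cn C x y) (g : G) :
    Cn C (g * x * g⁻¹) (g * y * g⁻¹) := by
  induction h with
  | refl => exact Relation.ReflTransGen.refl
  | tail _ h ih => exact ih.tail (h.conj h1 g)

theorem pole_conj (h : Geo) (h1 : StmtC1) (hL : Link C.att ν) (g : G) (b : Fin 6) :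
    ∃ (a : Axis) (c : ℝ), a.For (g * cvG b * g⁻¹).1 ∧ 0 < c ∧ g.1 • toV (nZ b) = c • a.n := by
  obtain ⟨a, ha⟩ := hL.axis _ (cv_ne h1 b)
  obtain ⟨c, hc, e⟩ := (h.ax.opole _ a _ ha).1 (h1 b).1
  obtain ⟨a', ha', -, -, e', -⟩ := h.ax.conj _ g.1 a ha
  refine ⟨a', c, ha', hc, ?_⟩
  rw [e', g.2.1, g.2.2, e, smul_smul_V]
  simp

theorem edge (h : Geo) (h1 : StmtC1) (hL : Link C.att ν) {l l' : List (Fin 12)} {b b' : Fin 6}
    (hl : wd l ∈ GS) (hl' : wd l' ∈ GS) (hc : crossZ (actZ l (nZ b)) (actZ l' (nZ b')) = true) :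
    Rl C (⟨_, hl⟩ * cvG b * ⟨_, hl⟩⁻¹) (⟨_, hl'⟩ * cvG b' * ⟨_, hl'⟩⁻¹) := by
  refine ⟨lift_iff.2 ⟨b, same_conj _ _⟩, lift_iff.2 ⟨b', same_conj _ _⟩, ?_⟩
  obtain ⟨a, c, ha, c0, e⟩ := pole_conj h h1 hL ⟨_, hl⟩ b
  obtain ⟨a', c', ha', c0', e'⟩ := pole_conj h h1 hL ⟨_, hl'⟩ b'
  rw [((h.b2b Z C.att ν hL).cross_iff _ _ a a' ha ha').1, ← sq_lt_one_iff_abs_lt_one]
  rw [crossZ, pos_iff, toR_sub, toR_mul, toR_mul, ← lor_toV, ← lor_toV, ← lor_toV, toV_act,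
    toV_act, e, e'] at hc
  simp only [lor_smul_left, lor_smul_right, a.hn, a'.hn] at hc
  by_contra h2
  nlinarith [mul_nonneg (sub_nonneg.2 (not_lt.1 h2)) (mul_pos (mul_pos c0 c0) (mul_pos c0' c0')).le]

theorem chain_ok (h : Geo) (h1 : StmtC1) (hL : Link C.att ν) (l : List (List (Fin 12) × Fin 6)) :
    ∀ (p : List (Fin 12) × Fin 6) (hp : wd p.1 ∈ GS), chain p l = true →
      Cn C (sC 0) (⟨_, hp⟩ * cvG p.2 * ⟨_, hp⟩⁻¹) →
      ∀ q ∈ l, ∃ hq : wd q.1 ∈ GS, Cn C (sC 0) (⟨_, hq⟩ * cvG q.2 * ⟨_, hq⟩⁻¹) := by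
  induction l with
  | nil => simp
  | cons q l ih =>
    intro p hp hc h0
    simp only [chain, Bool.and_eq_true] at hc
    have h2 := h0.tail (edge h h1 hL hp (ev_mem hc.1.1) hc.1.2)
    exact List.forall_mem_cons.2 ⟨⟨_, h2⟩, ih q _ hc.2 h2⟩

end C3

open C3 in
theorem blockC3 (h : Geo) (h1 : StmtC1) : StmtC3 := by
  intro Z _ _ C ν hL
  have one : (⟨wd [], ev_mem rfl⟩ : G) = 1 := Subtype.ext cs.wordProd_nil
  have node : ∀ q ∈ CH.flatten, ∃ hq : wd q.1 ∈ GS,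
      Cn C (sC 0) (⟨_, hq⟩ * cvG q.2 * ⟨_, hq⟩⁻¹) := fun q hq => by
    obtain ⟨l, hl, hq⟩ := List.mem_flatten.1 hq
    refine chain_ok h h1 hL l ([], 0) (ev_mem rfl) (check1 l hl) ?_ q hq
    rw [one, one_mul, inv_one, mul_one]
    exact Relation.ReflTransGen.refl
  have six : ∀ b, Cn C (sC 0) (cvG b) := fun b => by
    rcases check2 b with rfl | hb
    · exact Relation.ReflTransGen.refl
    · obtain ⟨_, h2⟩ := node _ hb
      rwa [one, one_mul, inv_one, mul_one] at h2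
  have inv : ∀ x, Cn C (sC 0) x → Cn C (sC 0) x⁻¹ := fun x hx => by
    rcases hx.cases_tail with rfl | ⟨y, h2, h3⟩
    · have := edge (l := []) (l' := []) (b := 4) (b' := 0) h h1 hL (ev_mem rfl) (ev_mem rfl)
        (by decide +kernel)
      simp only [one, one_mul, inv_one, mul_one] at this
      exact (six 4).tail this.inv
    · exact h2.tail h3.inv
  let St : Subgroup G :=
    { carrier := {g | Cn C (sC 0) (g * sC 0 * g⁻¹)}
      one_mem' := by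
        simp only [Set.mem_ofPred_eq, one_mul, inv_one, mul_one]
        exact Relation.ReflTransGen.refl
      mul_mem' := fun {a b} ha hb => by
        have := cn_conj h1 hb a
        rw [show a * (b * sC 0 * b⁻¹) * a⁻¹ = a * b * sC 0 * (a * b)⁻¹ by group] at this
        exact ha.trans this
      inv_mem' := fun {a} ha => by
        have := cn_conj h1 ha a⁻¹
        rw [show a⁻¹ * (a * sC 0 * a⁻¹) * a⁻¹⁻¹ = sC 0 by group] at this
        exact cn_symm this }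
  have word : ∀ q ∈ CH.flatten, wd q.1 ∈ St.map GS.subtype := fun q hq => by
    obtain ⟨hq, h2⟩ := node q hq
    exact ⟨⟨_, hq⟩, h2.trans (cn_symm (cn_conj h1 (six q.2) _)), rfl⟩
  have key : ∀ l : List (Fin 12), ∃ t, wd l * (wd (RP t))⁻¹ ∈ St.map GS.subtype := fun l => by
    induction l using List.reverseRecOn with
    | nil => exact ⟨0, by simp [RP]⟩
    | append_singleton l i ih =>
      obtain ⟨t, ht⟩ := ih
      obtain ⟨c1, c2⟩ := check3 t i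
      have e := wd_eq h c2
      have m : ∀ L : List (List (Fin 12)), (∀ w ∈ L, ∃ q ∈ CH.flatten, q.1 = w ∨ q.1.reverse = w) →
          wd L.flatten ∈ St.map GS.subtype := fun L => by
        induction L with
        | nil => simp
        | cons w L ih =>
          intro hw
          rw [List.forall_mem_cons] at hw
          rw [List.flatten_cons, wd, cs.wordProd_append]
          refine mul_mem ?_ (ih hw.2)
          obtain ⟨q, hq, rfl | rfl⟩ := hw.1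
          · exact word q hq
          · rw [cs.wordProd_reverse]; exact inv_mem (word q hq)
      refine ⟨(TB t i).2, ?_⟩
      have := mul_mem ht (m _ c1)
      simp only [wd, cs.wordProd_append] at e this ⊢
      rw [eq_mul_inv_of_mul_eq e.symm] at this
      convert this using 1
      group
  have all : ∀ g : G, g ∈ St := fun g => by
    obtain ⟨l, hl⟩ := cs.wordProd_surjective g.1
    obtain ⟨t, g', h2, h3⟩ := key l
    have h4 : wd (RP t) ∈ GS := by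
      have : wd (RP t) = (g'.1)⁻¹ * g.1 := by
        rw [show g'.1 = _ from h3, ← hl]; group
      rw [this]; exact mul_mem (inv_mem g'.2) g.2
    obtain rfl : t = 0 := by
      have a1 := h4.1
      have a2 := h4.2
      rw [chB_wd] at a1
      rw [chR_wd] at a2
      fin_cases t
      · rfl
      all_goals (exfalso; revert a1 a2; simp [RP]; try norm_num)
    have : g' = g := Subtype.ext (by simpa [RP, ← hl] using h3)
    exact this ▸ h2
  have fin : ∀ u, Lift sC eC u → Cn C (sC 0) u := fun u hu => by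
    obtain ⟨b, hb | hb⟩ := lift_iff.1 hu <;> obtain ⟨g, rfl⟩ := isConj_iff.1 hb
    · exact (all g).trans (cn_conj h1 (six b) g)
    · exact (all g).trans (cn_conj h1 (inv _ (six b)) g)
  exact fun u v hu hv => (cn_symm (fin u hu)).trans (fin v hv)

end Pool.Agent.Lib.MP_003e01_gt
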