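import Pool.Agent.Lib.MP_003e01_gt.Blue

namespace Pool.Agent.Lib.MP_003e01_gt

namespace C4

open Z3

/-- `m` is a positive multiple of the pole of the axis of `x` -/
def HasPole (x : G) (m : V) : Prop := ∃ a : Axis, a.For x.1 ∧ ∃ c : ℝ, 0 < c ∧ m = c • a.n

lemma hp_conj (h : Geo) {x : G} {m : V} (hx : HasPole x m) (g : G) :
    HasPole (g * x * g⁻¹) (g.1 • m) := by
  obtain ⟨a, ha, c, hc, rfl⟩ := hx
  obtain ⟨b, hb, -, -, hn, -⟩ := h.ax.conj x.1 g.1 a ha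
  refine ⟨b, hb, c, hc, ?_⟩
  rw [hn, g.2.1, g.2.2, one_mul, one_smul, smul_smul_V]

lemma hp_inv (h : Geo) {x : G} {m : V} (hx : HasPole x m) : HasPole x⁻¹ (-m) := by
  obtain ⟨a, ha, c, hc, rfl⟩ := hx
  obtain ⟨b, hb, -, -, hn, -⟩ := h.ax.inv x.1 a ha
  exact ⟨b, hb, c, hc, by rw [hn, smul_neg]⟩

lemma hp_base (h : Geo) (h1 : StmtC1) (b : Fin 6) (hb : cvG b ≠ 1) :
    HasPole (cvG b) (toV (nZ b)) := by
  obtain ⟨a, ha⟩ := h.ax.ex _ hb
  exact ⟨a, ha, (h.ax.opole _ a _ ha).1 (h1 b).1⟩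

lemma det3_smul (c d : ℝ) (x y z : V) : det3 (c • x) (d • y) z = c * d * det3 x y z := by
  simp only [det3, Pi.smul_apply, smul_eq_mul]; ring

lemma det3_smul3 (c : ℝ) (x y z : V) : det3 x y (c • z) = c * det3 x y z := by
  simp only [det3, Pi.smul_apply, smul_eq_mul]; ring

lemma lor_time {ξ v : V} (hξ : Null ξ) (h1 : lor v v < 0) (h2 : lor v x0.1 < 0) : lor ξ v < 0 := by
  have h3 : 0 < v 2 := by simpa [lor, x0] using h2
  have h4 : 0 < √(-lor v v) := Real.sqrt_pos.2 (by linarith)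
  have h5 : √(-lor v v) * √(-lor v v) = -lor v v := Real.mul_self_sqrt (by linarith)
  have h6 := lor_null_neg ⟨(√(-lor v v))⁻¹ • v, by
    rw [lor_smul_left, lor_smul_right]; field_simp; linarith,
    mul_pos (inv_pos.2 h4) h3⟩ hξ
  rw [lor_smul_left] at h6
  rw [lor_comm]
  by_contra hh
  exact absurd h6 (not_lt.2 (mul_nonneg (inv_pos.2 h4).le (not_lt.1 hh)))

section
variable {Z : Type} [LinearOrder Z] [MulAction G Z] {C : CG G Z} {ν : Z → V}

lemma cross_iff (H : B2bFacts C.att ν) {x y : G} {m m' : V} (hx : HasPole x m)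
    (hy : HasPole y m') : (Cross C.att x y ↔ lor m m' * lor m m' < lor m m * lor m' m') ∧
      (Cross C.att x y → ∃ z : X, lor z.1 m = 0 ∧ lor z.1 m' = 0) ∧
      (Cross C.att x y → 0 < det3 m' m x0.1 → OC C.att x y) ∧ (m = m' → C.att x = C.att y) := by
  obtain ⟨a, ha, c, hc, rfl⟩ := hx
  obtain ⟨b, hb, d, hd, rfl⟩ := hy
  obtain ⟨e1, e2, e3, -, e4⟩ := H.cross_iff x y a b ha hb
  refine ⟨?_, fun hc' => ?_, fun hc' hd' => e3.2 ⟨hc', ?_⟩, fun e => (e4.1 ?_).1⟩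
  · rw [e1, ← sq_lt_one_iff_abs_lt_one]
    simp only [lor_smul_left, lor_smul_right, a.hn, b.hn]
    have : 0 < c * d * (c * d) := by positivity
    constructor <;> intro h' <;> nlinarith
  · obtain ⟨z, h1, h2⟩ := e2 hc'
    exact ⟨z, by rw [lor_smul_right, h1, mul_zero], by rw [lor_smul_right, h2, mul_zero]⟩
  · rw [det3_smul] at hd'
    exact (mul_pos_iff_of_pos_left (mul_pos hd hc)).1 hd'
  · have h1 : c * c = d * d := by
      have := congrArg (fun v => lor v v) e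
      simpa only [lor_smul_left, lor_smul_right, a.hn, b.hn, mul_one] using this
    have h2 : c = d := by nlinarith
    subst h2
    exact smul_right_injective V hc.ne' e

lemma rt_of (L : Link C.att ν) (H : B2bFacts C.att ν) {x y : G} {m m' : V} (hx : HasPole x m)
    (hy : HasPole y m') (h1 : lor (m - m') (m - m') < 0) (h2 : lor (m - m') x0.1 < 0) :
    Rt C.att x⁻¹ (C.att y) := by
  have h3 := lor_time (L.null (C.att y)) h1 h2
  obtain ⟨a, ha, c, hc, rfl⟩ := hx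
  obtain ⟨b, hb, d, hd, rfl⟩ := hy
  rw [lor_sub_right, lor_smul_right, lor_smul_right,
    (H.rt_iff y b _ hb).2.2.2 (Or.inl rfl), mul_zero, sub_zero] at h3
  exact (H.rt_iff x a _ ha).2.1.2 (by by_contra hh; exact absurd h3 (not_lt.2 (mul_nonneg hc.le (not_lt.1 hh))))

lemma rt_conj (g : G) {x : G} (hx : x ≠ 1) (z : Z) :
    Rt C.att (g * x * g⁻¹) (g • z) ↔ Rt C.att x z := by
  have e : (g * x * g⁻¹)⁻¹ = g * x⁻¹ * g⁻¹ := by group
  rw [Rt, Rt, e, C.att_conj _ _ hx, C.att_conj _ _ (inv_ne_one.2 hx), C.smul_cyc]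

lemma oc_conj (g : G) {x y : G} (hx : x ≠ 1) (hy : y ≠ 1) :
    OC C.att (g * x * g⁻¹) (g * y * g⁻¹) ↔ OC C.att x y := by
  have e : ∀ x : G, (g * x * g⁻¹)⁻¹ = g * x⁻¹ * g⁻¹ := fun x => by group
  rw [OC, OC, e, e, C.att_conj _ _ hy, C.att_conj _ _ (inv_ne_one.2 hy), rt_conj g hx,
    rt_conj g (inv_ne_one.2 hx)]

lemma oc_not {x y : G} (h : OC C.att x y) : ¬ OC C.att x y⁻¹ := by
  simp only [OC, Rt, inv_inv, cyc] at *
  grind

end

def eb : Fin 3 → Fin 6 := ![3, 4, 5]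

lemma cvG_eb (k : Fin 3) : cvG (eb k) = eC k := by fin_cases k <;> rfl

def hL : Fin 11 → List (Fin 12) := ![[], [], [1, 11], [1, 11], [1, 0, 11, 3, 5, 7, 3, 0],
  [1, 0, 11, 3, 5, 7, 3, 0], [1, 11, 0, 3, 5, 7, 3, 0, 9, 5, 7, 9],
  [1, 11, 0, 3, 5, 7, 3, 0, 9, 5, 7, 9], [1, 11, 0, 3, 5, 7, 3, 0, 9, 5, 7, 9, 1, 11],
  [1, 11, 0, 3, 5, 7, 3, 0, 9, 5, 7, 9, 1, 11], cvL 0]

def tI : Fin 11 → Fin 3 := ![1, 2, 1, 2, 2, 1, 1, 2, 1, 2, 1]

def mZ (r : Fin 11) : ZV :=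
  if r.val % 2 = 0 then negZ (actZ (hL r) (nZ (eb (tI r)))) else actZ (hL r) (nZ (eb (tI r)))

def cr (n m : ZV) : Bool := pos (sub (mul (lorZ n n) (lorZ m m)) (mul (lorZ n m) (lorZ n m)))

lemma cr_iff (n m : ZV) : cr n m = true ↔
    lor (toV n) (toV m) * lor (toV n) (toV m) < lor (toV n) (toV n) * lor (toV m) (toV m) := by
  rw [cr, pos_iff, toR_sub, toR_mul, toR_mul, lor_toV, lor_toV, lor_toV, sub_pos]

noncomputable def hG (r : Fin 11) : G :=
  ⟨wd (hL r), wd_mem _ (by revert r; decide) (by revert r; decide)⟩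

noncomputable def Y (r : Fin 11) : G :=
  hG r * (if r.val % 2 = 0 then (eC (tI r))⁻¹ else eC (tI r)) * (hG r)⁻¹

lemma same_Y (r : Fin 11) : Same (eC (tI r)) (Y r) := by
  unfold Y
  split_ifs
  · exact Or.inr (isConj_iff.2 ⟨_, rfl⟩)
  · exact Or.inl (isConj_iff.2 ⟨_, rfl⟩)

lemma Y_last : Y 10 = sC 0 * Y 0 * (sC 0)⁻¹ := by
  have e0 : hG 0 = 1 := Subtype.ext (cs.wordProd_nil)
  have e1 : hG 10 = sC 0 := rfl
  simp only [Y, e0, e1, one_mul, inv_one, mul_one]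
  rfl

lemma hp_Y (h : Geo) (he : ∀ k, HasPole (eC k) (toV (nZ (eb k)))) (r : Fin 11) :
    HasPole (Y r) (toV (mZ r)) := by
  unfold Y mZ
  split_ifs
  · rw [toV_neg, toV_act, ← smul_neg_V]
    exact hp_conj h (hp_inv h (he _)) (hG r)
  · rw [toV_act]
    exact hp_conj h (he _) (hG r)

lemma chk1 : ∀ r : Fin 11, cr (nZ 0) (mZ r) = true ∧ pos (detZ (mZ r) (nZ 0) x0Z) = true := by
  decide +kernel

lemma chk2 : ∀ r : Fin 10,
    pos (neg (lorZ (subZ (mZ r.castSucc) (mZ r.succ)) (subZ (mZ r.castSucc) (mZ r.succ)))) = true ∧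
    pos (neg (lorZ (subZ (mZ r.castSucc) (mZ r.succ)) x0Z)) = true := by
  decide +kernel

def wL : Fin 3 → List (Fin 12) := ![(cvL 0).reverse, [], cvL 0]

lemma chk3 : ∀ k : Fin 3, ∀ u ∈ TL 0, ∀ u' ∈ TL (eb k),
    ((u ++ u'.reverse).filter (fun i => i.val % 2 = 0)).length % 2 = 0 →
    ((u ++ u'.reverse).filter (fun i => ¬ i.val % 2 = 0)).length % 2 = 0 →
    cr (nZ 0) (actZ (u ++ u'.reverse) (nZ (eb k))) = true → ∃ (r : Fin 10) (d : Fin 3),
      actZ (u ++ u'.reverse) (nZ (eb k)) = actZ (wL d) (mZ r.castSucc) ∨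
      negZ (actZ (u ++ u'.reverse) (nZ (eb k))) = actZ (wL d) (mZ r.castSucc) := by
  decide +kernel

lemma wd_wL (d : Fin 3) : wd (wL d) = (sC 0).1 ^ ((d.val : ℤ) - 1) := by
  have e : wd (cvL 0) = (sC 0).1 := rfl
  fin_cases d
  · simp [wL, wd, CoxeterSystem.wordProd_reverse, ← e]
  · simp [wL, wd]
  · simp [wL, ← e]

/-- residue modulo ten -/
def md (i : ℤ) : Fin 10 := ⟨(i % 10).toNat, by omega⟩

noncomputable def yy (i : ℤ) : G := sC 0 ^ (i / 10) * Y (md i).castSucc * (sC 0 ^ (i / 10))⁻¹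

lemma yy_eq (j : ℤ) (r : Fin 10) :
    yy (10 * j + r) = sC 0 ^ j * Y r.castSucc * (sC 0 ^ j)⁻¹ := by
  have h1 : (10 * j + r) / 10 = j := by omega
  have h2 : md (10 * j + r) = r := Fin.ext (by simp only [md]; omega)
  rw [yy, h1, h2]

lemma yy_succ (i : ℤ) : yy (i + 1) = sC 0 ^ (i / 10) * Y (md i).succ * (sC 0 ^ (i / 10))⁻¹ := by
  by_cases h : i % 10 = 9
  · have h1 : md i = 9 := Fin.ext (by simp only [md]; omega)
    have h2 : i + 1 = 10 * (i / 10 + 1) + (0 : Fin 10) := by simp only [Fin.val_zero]; omega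
    rw [h2, yy_eq, h1, show (9 : Fin 10).succ = 10 from rfl, Y_last, zpow_add_one]
    simp only [mul_assoc, mul_inv_rev]
    rfl
  · have h1 : (i + 1) / 10 = i / 10 := by omega
    have h2 : (md (i + 1)).castSucc = (md i).succ := Fin.ext (by simp only [md, Fin.val_succ, Fin.val_castSucc]; omega)
    rw [yy, h1, h2]

lemma zpow_fix {g : W} {n : V} (h : g • n = n) (j : ℤ) : g ^ j • n = n :=
  (MulAction.stabilizer W n).zpow_mem h j

lemma even_of {n : ℕ} (h : (-1 : ℝ) ^ n = 1) : n % 2 = 0 :=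
  Nat.even_iff.1 ((neg_one_pow_eq_one_iff_even (by norm_num)).1 h)

end C4

open C4 Z3 in
theorem blockC4 (h : Geo) (h1 : StmtC1) (h2 : StmtC2) : StmtC4 := by
  intro Z _ _ C ν L
  have H := h.b2b Z C.att ν L
  have A := h.a1 G Z C
  have K := h2.1 Z C ν L
  have hs1 := (K.prim_s 0).1
  have hs : HasPole (sC 0) (toV (nZ 0)) := hp_base h h1 0 hs1
  have he : ∀ k, HasPole (eC k) (toV (nZ (eb k))) := fun k =>
    cvG_eb k ▸ hp_base h h1 (eb k) (by rw [cvG_eb]; exact (K.prim_e k).1)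
  have hY := hp_Y h he
  have pY : ∀ r, C.Prim (Y r) := fun r => A.prim_same _ _ (K.prim_e _) (same_Y r)
  have cj : ∀ j : ℤ, sC 0 ^ j * sC 0 * (sC 0 ^ j)⁻¹ = sC 0 := fun j => by group
  have sj : ∀ {a x : G} (g : G), Same a x → Same a (g * x * g⁻¹) := fun g hx =>
    hx.trans (Or.inl (isConj_iff.2 ⟨g, rfl⟩))
  obtain ⟨c0, hc0, e0⟩ := toV_x0
  have oc : ∀ (j : ℤ) r, OC C.att (sC 0) (sC 0 ^ j * Y r * (sC 0 ^ j)⁻¹) := fun j r => by
    rw [← cj j, cj j]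
    nth_rewrite 1 [← cj j]
    rw [oc_conj _ hs1 (pY r).1]
    obtain ⟨e1, -, e3, -⟩ := cross_iff H hs (hY r)
    refine e3 (e1.2 ((cr_iff _ _).1 (chk1 r).1)) ?_
    obtain ⟨c, hc, e⟩ := det3_toV
    have := mul_pos hc ((pos_iff _).1 (chk1 r).2)
    rw [← e, e0, det3_smul3] at this
    exact (mul_pos_iff_of_pos_left hc0).1 this
  refine ⟨yy, fun i => oc _ _, fun i => ?_, fun i => ?_, fun i => ?_, fun k y' hy ho => ?_⟩
  · have : patT i = tI (md i).castSucc := by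
      unfold patT md
      generalize (⟨(i % 10).toNat, _⟩ : Fin 10) = r
      revert r; decide
    rw [this]
    exact sj _ (same_Y _)
  · have h3 : (i + 10) / 10 = 1 + i / 10 := by omega
    have h4 : md (i + 10) = md i := Fin.ext (by simp only [md]; omega)
    rw [yy, yy, h3, h4, zpow_one_add]
    simp only [mul_assoc, mul_inv_rev]
  · have e : ∀ g x : G, (g * x * g⁻¹)⁻¹ = g * x⁻¹ * g⁻¹ := fun g x => by group
    rw [yy_succ, yy, e, C.att_conj _ _ (pY _).1, rt_conj _ (inv_ne_one.2 (pY _).1)]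
    obtain ⟨e1, e2⟩ := chk2 (md i)
    rw [pos_iff, toR_neg, ← lor_toV, toV_sub, neg_pos] at e1 e2
    rw [e0, lor_smul_right] at e2
    exact rt_of L H (hY _) (hY _) e1 (by by_contra hh; exact absurd e2 (not_lt.2 (mul_nonneg hc0.le (not_lt.1 hh))))
  · have py := A.prim_same _ _ (K.prim_e k) hy
    obtain ⟨c, x, m, rfl, hx, hm⟩ : ∃ (c x : G) (m : V), y' = c * x * c⁻¹ ∧ HasPole x m ∧
        (m = toV (nZ (eb k)) ∨ m = -toV (nZ (eb k))) := by
      rcases hy with hy | hy <;> obtain ⟨c, rfl⟩ := isConj_iff.1 hy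
      · exact ⟨c, _, _, rfl, he k, Or.inl rfl⟩
      · exact ⟨c, _, _, rfl, hp_inv h (he k), Or.inr rfl⟩
    obtain ⟨e1, e2, -⟩ := cross_iff H hs (hp_conj h hx c)
    obtain ⟨z, hz1, hz2⟩ := e2 (Or.inl ho)
    obtain ⟨w, z', hz', rfl⟩ := h.b1.cover z
    obtain ⟨j, u, hu, hw⟩ := (h1 0).2 w z' hz' hz1
    obtain ⟨l, u', hu', hw'⟩ := (h1 (eb k)).2 (c.1⁻¹ * w) z' hz' (by
      rw [← lor_smul c.1, mul_smul, smul_val, smul_inv_smul]
      rcases hm with rfl | rfl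
      · exact hz2
      · rwa [smul_neg_V, lor_neg_right, neg_eq_zero] at hz2)
    have e3 : wd (u ++ u'.reverse) = ((sC 0 ^ j)⁻¹ * c * cvG (eb k) ^ l : G) := by
      rw [wd, CoxeterSystem.wordProd_append, CoxeterSystem.wordProd_reverse]
      have a1 : cs.wordProd u = ((sC 0).1 ^ j)⁻¹ * w := by
        rw [hw]; exact (inv_mul_cancel_left _ _).symm
      have a2 : cs.wordProd u' = ((cvG (eb k)).1 ^ l)⁻¹ * (c.1⁻¹ * w) := by
        rw [hw']; exact (inv_mul_cancel_left _ _).symm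
      rw [a1, a2]
      push_cast
      group
    have e4 : toV (actZ (u ++ u'.reverse) (nZ (eb k))) =
        ((sC 0 ^ j)⁻¹ : G).1 • c.1 • toV (nZ (eb k)) := by
      rw [toV_act, e3]
      push_cast
      rw [mul_smul, mul_smul, zpow_fix (h1 (eb k)).1.1]
    have e5 : ((sC 0 ^ j)⁻¹ : G).1 • toV (nZ 0) = toV (nZ 0) := by
      rw [← zpow_neg]
      exact zpow_fix (h1 0).1.1 _
    have hmem : wd (u ++ u'.reverse) ∈ GS := e3 ▸ Subtype.prop _
    obtain ⟨r, d, hr⟩ := chk3 k u hu u' hu' (even_of (by rw [← chB_wd]; exact hmem.1))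
      (even_of (by rw [← chR_wd]; exact hmem.2)) (by
        have := e1.1 (Or.inl ho)
        rw [cr_iff, e4, ← e5, lor_smul, lor_smul, lor_smul]
        rcases hm with rfl | rfl
        · exact this
        · simpa only [smul_neg_V, lor_neg_left, lor_neg_right, neg_mul_neg, neg_neg] using this)
    have hp := hp_conj h (hp_conj h (hY r.castSucc) (sC 0 ^ ((d.val : ℤ) - 1))) (sC 0 ^ j)
    have e6 : sC 0 ^ j * (sC 0 ^ ((d.val : ℤ) - 1) * Y r.castSucc * (sC 0 ^ ((d.val : ℤ) - 1))⁻¹) *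
        (sC 0 ^ j)⁻¹ = yy (10 * (j + (d.val - 1)) + r) := by
      rw [yy_eq, zpow_add]
      simp only [mul_assoc, mul_inv_rev]
    have e7 : (sC 0 ^ ((d.val : ℤ) - 1) : G).1 • toV (mZ r.castSucc) =
        toV (actZ (wL d) (mZ r.castSucc)) := by
      rw [toV_act, wd_wL]; rfl
    rw [e6, e7] at hp
    have pp : C.Prim (yy (10 * (j + (d.val - 1)) + r)) :=
      A.prim_same _ _ (K.prim_e _) (sj _ (same_Y _))
    have e8 : (sC 0 ^ j : G).1 • toV (actZ (wL d) (mZ r.castSucc)) = c.1 • m ∨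
        (sC 0 ^ j : G).1 • toV (actZ (wL d) (mZ r.castSucc)) = -(c.1 • m) := by
      rcases hr with hr | hr <;> rw [← hr] <;> rcases hm with rfl | rfl <;>
        simp [toV_neg, e4, smul_neg_V]
    rcases e8 with e8 | e8 <;> rw [e8] at hp
    · exact ⟨_, A.prim_eq _ _ py pp ((cross_iff H (hp_conj h hx c) hp).2.2.2 rfl)⟩
    · have := A.prim_eq _ _ (A.prim_same _ _ py (Or.inr (IsConj.refl _))) pp
        ((cross_iff H (hp_inv h (hp_conj h hx c)) hp).2.2.2 rfl)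
      exact absurd (this ▸ oc _ _) (oc_not ho)

end Pool.Agent.Lib.MP_003e01_gt
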