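import Pool.Agent.Lib.MP_003e01_gt.Blue

/-! Block CW1: lifts of two of the three curves separate far apart walls. -/

open Set Topology

namespace Pool.Agent.Lib.MP_003e01_gt

open Z3

namespace CW1

/-- distinct and not adjacent -/
def NA (a b : Fin 12) : Prop := a ≠ b ∧ ¬ Adjacent a b

instance (a b : Fin 12) : Decidable (NA a b) := by unfold NA; infer_instance

lemma lor_inv (w : W) (x y : V) : lor x (w • y) = lor (w⁻¹ • x) y := by
  rw [← lor_smul w⁻¹, inv_smul_smul]

lemma sr_pole (i : Fin 12) : sr i • pole i = -pole i := by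
  rw [sr_smul, lor_pole_self]
  module

lemma nest_one (h : Geo) {a b : Fin 12} (hab : NA a b) (z : X)
    (hz : 0 ≤ lor z.1 (sr a • pole b)) : 0 ≤ lor z.1 (pole a) := by
  have h1 := h.b1.far_neg a b hab.1 hab.2 ((sr a)⁻¹ • z)
  rw [smul_val, ← lor_inv, ← lor_inv, sr_pole, lor_neg_right] at h1
  linarith

lemma nest_chain (h : Geo) (fin : Fin 12) : ∀ (rest : List (Fin 12)) (a : Fin 12),
    (a :: (rest ++ [fin])).IsChain NA → ∀ z : X, 0 ≤ lor z.1 (wd (a :: rest) • pole fin) →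
      0 ≤ lor z.1 (pole a) := by
  intro rest
  induction rest with
  | nil =>
    intro a hc z hz
    rw [wd, CoxeterSystem.wordProd_singleton] at hz
    exact nest_one h (List.isChain_cons_cons.1 hc).1 z hz
  | cons b rest ih =>
    intro a hc z hz
    have hc' := List.isChain_cons_cons.1 hc
    rw [wd, CoxeterSystem.wordProd_cons, mul_smul, lor_inv] at hz
    have := ih b hc'.2 ((sr a)⁻¹ • z) hz
    rw [smul_val, ← lor_inv] at this
    exact nest_one h hc'.1 z this

lemma sep_chain (h : Geo) {i j : Fin 3} {w : W} {first a fin : Fin 12} {mid rest : List (Fin 12)}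
    (hs : SepWalls i j w first mid a) (hc : (a :: (rest ++ [fin])).IsChain NA) :
    SepWalls i j w first (mid ++ a :: rest) fin := by
  obtain ⟨x, ax, h1, h2, h3, h4⟩ := hs
  refine ⟨x, ax, h1, h2, h3, fun z hz => h4 z ?_⟩
  rw [wd, CoxeterSystem.wordProd_append, ← mul_assoc, mul_smul, lor_inv] at hz
  rw [lor_inv]
  exact nest_chain h fin rest a hc ((w * wd mid)⁻¹ • z) hz

lemma lor_time (z : X) {v : V} (h1 : lor v v < 0) (h2 : 0 < v 2) : lor z.1 v < 0 := by
  obtain ⟨h3, h4⟩ := z.2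
  simp only [lor] at *
  by_contra hc
  push Not at hc
  have h5 : 0 < z.1 2 * v 2 := mul_pos h4 h2
  have h6 : (z.1 2 * v 2) ^ 2 ≤ (z.1 0 * v 0 + z.1 1 * v 1) ^ 2 :=
    pow_le_pow_left₀ h5.le (by linarith) 2
  have h7 : (z.1 0 * v 0 + z.1 1 * v 1) ^ 2 ≤
      (z.1 0 * z.1 0 + z.1 1 * z.1 1) * (v 0 * v 0 + v 1 * v 1) := by
    nlinarith [sq_nonneg (z.1 0 * v 1 - z.1 1 * v 0)]
  have h8 : z.1 0 * z.1 0 + z.1 1 * z.1 1 = z.1 2 * z.1 2 - 1 := by linarith
  have h9 : (z.1 0 * z.1 0 + z.1 1 * z.1 1) * (v 0 * v 0 + v 1 * v 1) ≤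
      (z.1 0 * z.1 0 + z.1 1 * z.1 1) * (v 2 * v 2) :=
    mul_le_mul_of_nonneg_left (by linarith) (by nlinarith [mul_self_nonneg (z.1 0), mul_self_nonneg (z.1 1)])
  rw [h8] at h7 h9
  nlinarith [mul_pos h2 h2]

/-- the half plane of `P` lies on the negative side of `n` -/
def nest (P n : ZV) : Bool :=
  pos (neg (lorZ n P)) &&
    (pos (neg (lorZ (subZ n (smulZ (lorZ n P) P)) (subZ n (smulZ (lorZ n P) P)))) &&
      pos (neg (lorZ (subZ n (smulZ (lorZ n P) P)) x0Z)))

lemma nest_ok {P n : ZV} (h : nest P n = true) (z : X) (hz : 0 ≤ lor z.1 (toV P)) :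
    lor z.1 (toV n) < 0 := by
  simp only [nest, Bool.and_eq_true, pos_iff, toR_neg, ← lor_toV] at h
  obtain ⟨h1, h2, h3⟩ := h
  obtain ⟨c, hc, e⟩ := toV_x0
  rw [e, lor_smul_right] at h3
  have h4 : 0 < toV (subZ n (smulZ (lorZ n P) P)) 2 := by
    have : lor (toV (subZ n (smulZ (lorZ n P) P))) x0.1 =
        -toV (subZ n (smulZ (lorZ n P) P)) 2 := by simp [lor, x0]
    rw [this, mul_neg, neg_neg] at h3
    exact (mul_pos_iff_of_pos_left hc).1 h3
  have h5 := lor_time z (by linarith) h4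
  rw [toV_sub, toV_smul, lor_sub_right, lor_smul_right, ← lor_toV] at h5
  nlinarith

def ev (l : List (Fin 12)) : Bool :=
  decide ((l.filter (fun i => i.val % 2 = 0)).length % 2 = 0) &&
    decide ((l.filter (fun i => ¬ i.val % 2 = 0)).length % 2 = 0)

def dec : ℕ → ℕ → List (Fin 12)
  | 0, _ => []
  | f + 1, n => if n = 0 then [] else Fin.ofNat 12 (n % 13 - 1) :: dec f (n / 13)

def e6 (k : Fin 3) : Fin 6 := ⟨k.val, by omega⟩

lemma cvG_e6 (k : Fin 3) : cvG (e6 k) = sC k := by fin_cases k <;> rfl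

def sgZ (s : Bool) (x : ZV) : ZV := if s then x else negZ x

def sepV (first : Fin 12) (mid : List (Fin 12)) (last : Fin 12) (x : ZV) : Bool :=
  nest (poleZ first) x && nest (actZ mid (poleZ last)) (negZ x)

def sepB (i j : Fin 3) (l0 : List (Fin 12)) (first : Fin 12) (mid : List (Fin 12)) (last : Fin 12)
    (c : ℕ) : Bool :=
  ev (l0 ++ dec 20 (c / 4)) && sepV first mid last
    (sgZ (decide (c / 2 % 2 = 0)) (actZ (dec 20 (c / 4)) (nZ (e6 (if c % 2 = 0 then i else j)))))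

lemma lift_ex (h : Geo) (h1 : StmtC1) (b : Fin 3) (g : G) (s : Bool) : ∃ (x : G) (a : Axis) (c : ℝ),
    Same (sC b) x ∧ a.For x.1 ∧ 0 < c ∧ g.1 • toV (sgZ s (nZ (e6 b))) = c • a.n := by
  have ho := (h1 (e6 b)).1
  rw [cvG_e6] at ho
  have hne : sC b ≠ 1 := by
    intro e
    have := ho.2
    rw [e] at this
    simp only [OneMemClass.coe_one, one_smul, det3] at this
    linarith
  obtain ⟨a, ha⟩ := h.ax.ex _ hne
  obtain ⟨c, hc, e⟩ := (h.ax.opole _ a _ ha).1 ho
  obtain ⟨a1, ha1, -, -, e1, -⟩ := h.ax.conj _ g.1 a ha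
  rw [g.2.1, g.2.2, one_mul, one_smul] at e1
  have hconj : IsConj (sC b) (g * sC b * g⁻¹) := isConj_iff.2 ⟨g, rfl⟩
  cases s with
  | true => exact ⟨g * sC b * g⁻¹, a1, c, Or.inl hconj, ha1, hc, by
      simp only [sgZ, if_true]
      rw [e, smul_smul_V, e1]⟩
  | false =>
    obtain ⟨a2, ha2, -, -, e2, -⟩ := h.ax.inv _ a1 ha1
    refine ⟨(g * sC b * g⁻¹)⁻¹, a2, c, Or.inr (isConj_inv hconj), ha2, hc, ?_⟩
    simp only [sgZ, Bool.false_eq_true, if_false]
    rw [toV_neg, smul_neg_V, e, smul_smul_V, e2, e1, smul_neg]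

lemma toV_sg (s : Bool) (v : List (Fin 12)) (x : ZV) :
    toV (sgZ s (actZ v x)) = wd v • toV (sgZ s x) := by
  cases s
  · simp only [sgZ, Bool.false_eq_true, if_false]
    rw [toV_neg, toV_neg, toV_act, smul_neg_V]
  · simp only [sgZ, if_true]
    rw [toV_act]

lemma sepB_ok (h : Geo) (h1 : StmtC1) {i j : Fin 3} {l0 : List (Fin 12)} {w : W}
    (hw : chB w = chB (wd l0) ∧ chR w = chR (wd l0)) {first last : Fin 12} {mid : List (Fin 12)}
    {c : ℕ} (hs : sepB i j l0 first mid last c = true) : SepWalls i j w first mid last := by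
  simp only [sepB, sepV, ev, Bool.and_eq_true, decide_eq_true_eq] at hs
  obtain ⟨⟨e1, e2⟩, n1, n2⟩ := hs
  generalize dec 20 (c / 4) = v at *
  generalize decide (c / 2 % 2 = 0) = s at *
  have hm := wd_mem _ e1 e2
  rw [wd, CoxeterSystem.wordProd_append] at hm
  have hg : w * wd v ∈ GS := ⟨by rw [map_mul, hw.1, ← map_mul]; exact hm.1,
    by rw [map_mul, hw.2, ← map_mul]; exact hm.2⟩
  obtain ⟨x, a, c', k1, k2, k3, k4⟩ := lift_ex h h1 (if c % 2 = 0 then i else j) ⟨_, hg⟩ s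
  have key : ∀ z : X, lor (w⁻¹ • z).1
      (toV (sgZ s (actZ v (nZ (e6 (if c % 2 = 0 then i else j)))))) = c' * lor z.1 a.n := fun z => by
    rw [smul_val, ← lor_inv, toV_sg, ← mul_smul, ← lor_smul_right, ← k4]
  refine ⟨x, a, ?_, k2, fun z hz => ?_, fun z hz => ?_⟩
  · split_ifs at k1
    exacts [Or.inl k1, Or.inr k1]
  · rw [lor_inv, ← toV_pole] at hz
    have := nest_ok n1 (w⁻¹ • z) hz
    rw [key] at this
    exact neg_of_mul_neg_right this k3.le
  · rw [mul_smul, lor_inv, ← toV_pole, ← toV_act] at hz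
    have := nest_ok n2 (w⁻¹ • z) hz
    rw [toV_neg, lor_neg_right, key] at this
    exact (mul_pos_iff_of_pos_left k3).1 (by linarith)

/-- search trees -/
inductive T : Type
  | l (c : ℕ) : T
  | n (c : ℕ) (t0 t2 t4 t6 t8 t10 : T) : T

open T

def o : T := l 0

def chk (i j : Fin 3) (l0 : List (Fin 12)) (first : Fin 12) :
    T → ℕ → List (Fin 12) → Fin 12 → Bool
  | l c, _, mid, a => sepB i j l0 first mid a c
  | n c t0 t2 t4 t6 t8 t10, f, mid, a =>
    (if first.val % 2 = 1 then decide (Adjacent a first) || sepB i j l0 first (mid ++ [a]) first c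
      else decide (0 < f)) &&
    ((decide (a = 0) || chk i j l0 first t0 (f - 1) (mid ++ [a]) 0) &&
    ((decide (a = 2) || chk i j l0 first t2 (f - 1) (mid ++ [a]) 2) &&
    ((decide (a = 4) || chk i j l0 first t4 (f - 1) (mid ++ [a]) 4) &&
    ((decide (a = 6) || chk i j l0 first t6 (f - 1) (mid ++ [a]) 6) &&
    ((decide (a = 8) || chk i j l0 first t8 (f - 1) (mid ++ [a]) 8) &&
    (decide (a = 10) || chk i j l0 first t10 (f - 1) (mid ++ [a]) 10))))))

lemma blue_cases : ∀ b : Fin 12, b.val % 2 = 0 →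
    b = 0 ∨ b = 2 ∨ b = 4 ∨ b = 6 ∨ b = 8 ∨ b = 10 := by decide

lemma chk_ok (h : Geo) (h1 : StmtC1) {i j : Fin 3} {l0 : List (Fin 12)} {w : W}
    (hw : chB w = chB (wd l0) ∧ chR w = chR (wd l0)) {first fin : Fin 12} (t : T) :
    ∀ (f : ℕ) (mid : List (Fin 12)) (a : Fin 12), chk i j l0 first t f mid a = true →
      ∀ rest : List (Fin 12), (∀ b ∈ rest, b.val % 2 = 0) → (a :: (rest ++ [fin])).IsChain NA →
        (if first.val % 2 = 1 then fin = first else f ≤ rest.length) →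
        SepWalls i j w first (mid ++ a :: rest) fin := by
  induction t with
  | l c => exact fun f mid a hc rest _ hch _ => sep_chain h (sepB_ok h h1 hw hc) hch
  | n c t0 t2 t4 t6 t8 t10 i0 i2 i4 i6 i8 i10 =>
    intro f mid a hc rest hb hch hf
    simp only [chk, Bool.and_eq_true, Bool.or_eq_true, decide_eq_true_eq] at hc
    obtain ⟨c1, c0, c2, c4, c6, c8, c10⟩ := hc
    have hch' := List.isChain_cons_cons.1 (show List.IsChain NA
      (a :: (rest ++ [fin]).head (by simp) :: (rest ++ [fin]).tail) by simpa using hch)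
    cases rest with
    | nil =>
      split_ifs at c1 hf with hr
      · subst hf
        rw [Bool.or_eq_true, decide_eq_true_eq] at c1
        exact sepB_ok h h1 hw (c1.resolve_left hch'.1.2)
      · simp only [decide_eq_true_eq, List.length_nil] at c1 hf
        omega
    | cons b rest =>
      have hab : a ≠ b := hch'.1.1
      have hb' : ∀ x ∈ rest, x.val % 2 = 0 := fun x hx => hb x (List.mem_cons_of_mem _ hx)
      have hch2 : (b :: (rest ++ [fin])).IsChain NA := hch'.2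
      have hf' : if first.val % 2 = 1 then fin = first else f - 1 ≤ rest.length := by
        split_ifs at hf ⊢
        · exact hf
        · simp only [List.length_cons] at hf
          omega
      rw [List.append_cons]
      rcases blue_cases b (hb b List.mem_cons_self) with rfl | rfl | rfl | rfl | rfl | rfl
      exacts [i0 _ _ _ (c0.resolve_left hab) rest hb' hch2 hf',
        i2 _ _ _ (c2.resolve_left hab) rest hb' hch2 hf',
        i4 _ _ _ (c4.resolve_left hab) rest hb' hch2 hf',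
        i6 _ _ _ (c6.resolve_left hab) rest hb' hch2 hf',
        i8 _ _ _ (c8.resolve_left hab) rest hb' hch2 hf',
        i10 _ _ _ (c10.resolve_left hab) rest hb' hch2 hf']

def top (i j : Fin 3) (l0 : List (Fin 12)) (first : Fin 12) : T → Bool
  | l _ => false
  | n _ t0 t2 t4 t6 t8 t10 =>
    (decide (¬ NA first 0) || chk i j l0 first t0 3 [] 0) &&
    ((decide (¬ NA first 2) || chk i j l0 first t2 3 [] 2) &&
    ((decide (¬ NA first 4) || chk i j l0 first t4 3 [] 4) &&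
    ((decide (¬ NA first 6) || chk i j l0 first t6 3 [] 6) &&
    ((decide (¬ NA first 8) || chk i j l0 first t8 3 [] 8) &&
    (decide (¬ NA first 10) || chk i j l0 first t10 3 [] 10)))))

lemma top_ok {i j : Fin 3} {l0 : List (Fin 12)} {first : Fin 12} {t : T}
    (ht : top i j l0 first t = true) (a : Fin 12) (ha : a.val % 2 = 0) (hna : NA first a) :
    ∃ t', chk i j l0 first t' 3 [] a = true := by
  cases t with
  | l c => simp [top] at ht
  | n c t0 t2 t4 t6 t8 t10 =>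
    simp only [top, Bool.and_eq_true, Bool.or_eq_true, decide_eq_true_eq] at ht
    obtain ⟨c0, c2, c4, c6, c8, c10⟩ := ht
    rcases blue_cases a ha with rfl | rfl | rfl | rfl | rfl | rfl
    exacts [⟨_, c0.resolve_left (not_not.2 hna)⟩, ⟨_, c2.resolve_left (not_not.2 hna)⟩,
      ⟨_, c4.resolve_left (not_not.2 hna)⟩, ⟨_, c6.resolve_left (not_not.2 hna)⟩,
      ⟨_, c8.resolve_left (not_not.2 hna)⟩, ⟨_, c10.resolve_left (not_not.2 hna)⟩]

def L0 : Fin 4 → List (Fin 12) := ![[], [0], [1], [0, 1]]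

lemma exists_L0 (h : Geo) (w : W) : ∃ k, chB w = chB (wd (L0 k)) ∧ chR w = chR (wd (L0 k)) := by
  obtain ⟨h1 | h1, h2 | h2⟩ := h.b1.ch w
  · exact ⟨0, by rw [h1, chB_wd]; simp [L0], by rw [h2, chR_wd]; simp [L0]⟩
  · exact ⟨2, by rw [h1, chB_wd]; simp [L0], by rw [h2, chR_wd]; simp [L0]⟩
  · exact ⟨1, by rw [h1, chB_wd]; simp [L0], by rw [h2, chR_wd]; simp [L0]⟩
  · exact ⟨3, by rw [h1, chB_wd]; simp [L0], by rw [h2, chR_wd]; simp [L0]⟩

lemma main (h : Geo) (h1 : StmtC1) {i j : Fin 3} {D : Fin 4 → Fin 12 → T}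
    (hD : ∀ k first, top i j (L0 k) first (D k first) = true) (w : W) (first a fin : Fin 12)
    (rest : List (Fin 12)) (hb : ∀ b ∈ a :: rest, b.val % 2 = 0)
    (hch : (first :: a :: (rest ++ [fin])).IsChain NA)
    (hf : if first.val % 2 = 1 then fin = first else 3 ≤ rest.length) :
    SepWalls i j w first (a :: rest) fin := by
  obtain ⟨k, hk⟩ := exists_L0 h w
  have hch' := List.isChain_cons_cons.1 hch
  obtain ⟨t, ht⟩ := top_ok (hD k first) a (hb a List.mem_cons_self) hch'.1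
  exact chk_ok h h1 hk t 3 [] a ht rest (fun x hx => hb x (List.mem_cons_of_mem _ hx)) hch'.2 hf

lemma na_blue : ∀ a b : Fin 12, a.val % 2 = 0 → b.val % 2 = 0 → a ≠ b → NA a b := by decide

lemma na_red : ∀ r b : Fin 12, r.val % 2 = 1 → b.val % 2 = 0 → ¬ Adjacent r b →
    NA r b ∧ NA b r := by decide

lemma BlueWord.chain {l : List (Fin 12)} (h : BlueWord l) : l.IsChain NA :=
  h.2.imp_of_mem_imp fun a b ha hb => na_blue a b (h.1 a ha) (h.1 b hb)

lemma sep_symm {i j : Fin 3} {w : W} {first last : Fin 12} {mid : List (Fin 12)}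
    (h : SepWalls i j w first mid last) : SepWalls j i w first mid last := by
  obtain ⟨x, a, h1, h2⟩ := h
  exact ⟨x, a, h1.symm, h2⟩

def D01 : Fin 4 → Fin 12 → T := ![
  ![n 0 o (l 1) (n 0 (l 1) (l 1) o (l 1) (l 1) (l 1)) (l 2652413640) (n 0 (n 0 o (l 90) (l 90)
      (l 90) (l 90) (l 18914)) (l 18914) (n 0 (l 299) (l 25467) o (l 299) (l 299) (l 296)) (l
      25467) o (l 9523371)) (l 726754233),
    n 0 o o (n 329 (l 329) (l 329) o (l 3193082) (l 329) (l 329)) (l 2652413640) (n 18914 (n 0 o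
      (l 90) (l 90) (l 90) (l 90) (l 18914)) (l 18914) (n 25467 (l 299) (l 25467) o (l 299) (l
      299) (l 296)) (l 25467) o (l 9523371)) (l 539632762),
    n 0 (l 3) o (n 0 (l 329) (l 329) o (l 3193082) (l 329) (l 329)) (l 3) (l 3) (l 0),
    n 0 (l 3) o o (l 3) (l 3) (l 0),
    n 0 (n 0 o (l 0) (l 0) (l 0) (l 0) (l 0)) (n 0 (n 0 o (l 66) (l 66) (l 66) (l 66) (l
      539632770)) o (l 18888) (l 18888) (l 18888) (l 18888)) o (l 2652413640) (n 0 (n 0 o (l 90)
      (l 90) (l 90) (l 90) (l 18914)) (l 18914) (n 0 (l 299) (l 25467) o (l 299) (l 299) (l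
      296)) (l 25467) o (l 9523371)) (l 0),
    n 0 (n 0 o (l 0) (l 0) (l 0) (l 0) (l 0)) (l 1609451659) o o (n 25467 (n 90 o (l 90) (l 90)
      (l 90) (l 90) (l 18914)) (l 18914) (n 0 (l 299) (l 25467) o (l 299) (l 299) (l 296)) (l
      25467) o (l 9523371)) (l 0),
    n 0 (l 2652413642) (l 1) (l 2652413642) o (l 2652413642) (l 0),
    n 0 (n 0 o (l 0) (l 0) (l 0) (l 0) (l 0)) (l 1) (n 1 (l 1) (l 1) o (l 1) (l 1) (l 1)) o o (l
      0),
    n 0 (n 0 o (l 0) (l 0) (l 0) (l 0) (l 0)) (l 1) (n 0 (l 1) (l 1) o (l 1) (l 1) (l 1)) (l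
      2652413640) o (l 0),
    n 0 (n 152 o (n 163 (l 163) o (n 55593 (l 55593) (l 55593) o (l 539630682) (l 55593) (l
      55593)) (l 163) (l 163) (l 160)) (l 152) (l 152) (l 152) (l 152)) (l 1) (n 1 (l 1) (l 1) o
      (l 1) (l 1) (l 1)) (l 2652413640) o o,
    n 0 (l 726754235) (l 2) (l 2) (l 2) (l 2) o,
    n 0 o (l 2) (l 2) (l 2) (l 2) o],
  ![n 0 o (n 0 (l 15) o (n 0 (l 4277) (l 4277) o (l 41510054) (l 4277) (l 4277)) (l 15) (l 15)
      (l 12)) (n 0 (l 23) (l 1959) o (l 23) (l 23) (l 20)) (l 1959) (n 0 (n 0 o (l 36) (l 36) (l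
      36) (l 36) (l 36)) (l 37) (n 0 (l 37) (l 37) o (l 37) (l 37) (l 37)) (l 34481377356) o (l
      36)) (l 732567),
    n 0 o o (l 1452) (l 1452) (l 1452) (l 1452),
    n 0 (n 0 o (l 6) (l 6) (l 6) (l 6) (l 41510214)) o (l 1452) (l 1452) (l 1452) (l 1452),
    n 0 (n 6 o (l 6) (l 6) (l 6) (l 6) (l 9447805021)) o o (l 245622) (n 37 (n 36 o (l 36) (l
      36) (l 36) (l 36) (l 36)) (l 37) (n 0 (l 37) (l 37) o (l 37) (l 37) (l 37)) (l
      34481377356) o (l 36)) (l 732567),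
    n 0 (n 0 o (l 6) (l 6) (l 6) (l 6) (l 1454)) (l 1454) o (l 245622) (n 0 (n 0 o (l 36) (l 36)
      (l 36) (l 36) (l 36)) (l 37) (n 0 (l 37) (l 37) o (l 37) (l 37) (l 37)) (l 34481377356) o
      (l 36)) (l 732567),
    n 0 (l 1957) (l 1454) o o (l 1957) (l 1957),
    n 0 (l 1957) (l 1454) (l 245620) o (l 1957) (l 1957),
    n 0 (n 6 o (l 6) (l 6) (l 6) (l 6) (l 1454)) (l 1454) (n 23 (l 23) (n 245564 (n 854 o (l
      854) (l 854) (l 854) (l 854) (l 7015226006)) o (l 245564) (l 245564) (l 245564) (l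
      245564)) o (l 23) (l 23) (l 20)) o o (l 732567),
    n 0 (n 0 o (l 6) (l 6) (l 6) (l 6) (l 1454)) (l 1454) (n 0 (l 23) (l 1959) o (l 23) (l 23)
      (l 20)) (l 1959) o (l 732567),
    n 0 (n 1454 o (l 6) (l 6) (l 6) (l 6) (l 1454)) (l 1454) (n 23 (l 23) (l 1959) o (l 23) (l
      23) (l 20)) (l 1959) o o,
    n 0 (l 732565) (l 1454) (l 732565) (l 1959) (l 732565) o,
    n 0 o (l 41510212) (n 20 (l 23) (l 1959) o (l 23) (l 23) (l 20)) (l 1959) (n 36 (n 0 o (l
      36) (l 36) (l 36) (l 36) (l 36)) (l 37) (n 37 (l 37) (l 37) o (l 37) (l 37) (l 37)) (l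
      34481377356) o (l 36)) o],
  ![n 0 o (l 9) (l 9) (l 9) (l 42) (l 55904169),
    n 0 o o (n 25 (l 25) (l 25) o (l 25) (l 25) (l 25)) (l 7015225920) (l 42) (n 123803985 (l
      123803985) (l 123803985) (l 7168) (l 41510242) (l 732569) o),
    n 0 (l 11) o (n 0 (l 25) (l 25) o (l 25) (l 25) (l 25)) (l 7015225920) (l 42) (l 9447805057),
    n 0 (l 11) o o (l 7015225920) (l 42) (l 9447805057),
    n 0 (l 11) (n 0 (n 0 o (l 1418) (l 1418) (l 1418) (l 1418) (l 1418)) o (l 7136) (l 41510210)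
      (l 1937) (l 123803955)) o (l 7015225920) (l 42) (l 9447805057),
    n 0 (l 11) (n 7136 (n 1418 o (l 1418) (l 1418) (l 1418) (l 1418) (l 1418)) o (l 7136) (l
      41510210) (l 1937) (l 123803955)) o o (l 42) (l 9447805057),
    n 0 (l 11) (l 7015225922) (l 7015225922) o (l 204031818) (l 7015225922),
    n 0 (l 40) (l 40) (l 40) o o (l 40),
    n 0 (l 40) (l 40) (l 40) (l 204031816) o (l 40),
    n 0 (l 11) (n 1937 (n 1418 o (l 1418) (l 1418) (l 1418) (l 1418) (l 1418)) o (l 7136) (l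
      41510210) (l 1937) (l 123803955)) (n 25 (l 25) (l 25) o (l 25) (l 25) (l 25)) (n 1953 (l
      41510224) (l 41510224) (l 245624) o (l 1953) (l 41510224)) o o,
    n 0 (l 55904171) (l 9447805059) (l 9447805059) (l 7015225920) (l 42) o,
    n 0 o (l 9) (l 9) (l 9) (l 42) o],
  ![n 0 o (n 0 (l 119) o (n 0 (l 325) (l 325) o (l 325) (l 325) (l 325)) (l 91197936972) (l 534)
      (l 122821465741)) (l 548) (l 3193094) (l 149) (l 9523383),
    n 0 o o (l 548) (l 3193094) (l 149) (l 9523383),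
    n 0 (n 0 o (l 110) (l 110) (l 110) (l 110) (l 110)) o (l 548) (l 3193094) (l 149) (l
      9523383),
    n 0 (n 110 o (l 110) (l 110) (l 110) (l 110) (l 110)) o o (n 91197936990 (l 135) (l
      91197936990) (l 91197936990) o (l 2652413638) (l 91197936990)) (l 149) (l 9523383),
    n 0 (l 550) (l 550) o (l 18894) (l 550) (l 550),
    n 0 (l 550) (l 550) o o (l 550) (l 550),
    n 0 (l 3193092) (l 3193092) (l 18892) o (l 149) (l 3193092),
    n 0 (n 110 o (l 110) (l 110) (l 110) (l 110) (l 110)) (n 534 (l 119) o (n 325 (l 325) (l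
      325) o (l 325) (l 325) (l 325)) (l 91197936972) (l 534) (l 122821465741)) (l 548) o o (n
      566 (l 726754231) (l 122821465775) (l 122821465775) (l 91197937004) (l 566) o),
    n 0 (l 151) (l 151) (l 548) (l 151) o (l 56351),
    n 0 (l 151) (l 151) (l 548) (l 151) o o,
    n 0 (l 9523381) (l 9523381) (l 548) (l 3193094) (l 56349) o,
    n 0 o (n 119 (l 119) o (n 325 (l 325) (l 325) o (l 325) (l 325) (l 325)) (l 91197936972) (l
      534) (l 122821465741)) (l 548) (l 3193094) (l 149) o]]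

def D12 : Fin 4 → Fin 12 → T := ![
  ![n 0 o (l 0) (n 0 (l 0) (l 0) o (l 0) (l 0) (l 0)) (l 1) (n 0 (l 1) (l 1) (l 1) (l 1) o (l
      1)) (l 726754232),
    n 0 o o (n 328 (l 328) (l 328) o (n 387 (l 387) (l 384) (l 387) o (n 93673 (l 93673) (l
      93673) (l 93673) (l 93673) o (l 1609449578)) (l 387)) (l 328) (l 328)) (l 1) (n 1 (l 1) (l
      1) (l 1) (l 1) o (l 1)) (l 726754232),
    n 0 (l 2) o (l 1582708315) (l 2) (l 2) (l 2),
    n 0 (l 2) o o (l 2) (l 2) (l 2),
    n 0 (n 0 o (l 15958443) (n 0 (l 266) (l 25434) o (l 266) (l 266) (l 266)) (l 25434) (n 0 (l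
      475) (l 472) (l 475) (l 55387) o (l 475)) (l 55387)) (l 1582708313) o (l 1) (n 0 (l 1) (l
      1) (l 1) (l 1) o (l 1)) (l 726754232),
    n 0 (n 25434 o (l 15958443) (n 0 (l 266) (l 25434) o (l 266) (l 266) (l 266)) (l 25434) (n
      55387 (l 475) (l 472) (l 475) (l 55387) o (l 475)) (l 55387)) (l 1609451658) o o (n 553 (l
      553) (l 553) (l 553) (l 553) o (l 9523370)) (l 726754232),
    n 0 (l 3) (l 0) (l 3) o (n 0 (l 553) (l 553) (l 553) (l 553) o (l 9523370)) (l 3),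
    n 0 (l 3) (l 0) (l 3) o o (l 3),
    n 0 (n 0 o (l 15958443) (n 0 (l 266) (l 25434) o (l 266) (l 266) (l 266)) (l 25434) (n 0 (l
      475) (l 472) (l 475) (l 55387) o (l 475)) (l 55387)) (l 0) (n 0 (l 0) (l 0) o (l 0) (l 0)
      (l 0)) (n 0 (l 25456) (l 25456) (n 0 (l 290) (l 1609451666) o (l 290) (l 290) (l 290)) o
      (l 25456) (l 25456)) o (l 726754232),
    n 0 (n 55387 o (l 15958443) (n 266 (l 266) (l 25434) o (l 266) (l 266) (l 266)) (l 25434) (n
      0 (l 475) (l 472) (l 475) (l 55387) o (l 475)) (l 55387)) (l 0) (n 0 (l 0) (l 0) o (l 0)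
      (l 0) (l 0)) (l 2696979051) o o,
    n 0 (l 726754234) (l 0) (l 726754234) (l 1) (l 726754234) o,
    n 0 o (l 0) (n 0 (l 0) (l 0) o (l 0) (l 0) (l 0)) (l 1) (n 1 (l 1) (l 1) (l 1) (l 1) o (l
      1)) o],
  ![n 0 o (l 1227575) (n 0 (l 22) (l 1958) o (l 22) (l 22) (l 22)) (l 1958) (n 0 (l 39) (l 36)
      (l 39) (l 4263) o (l 39)) (l 4263),
    n 0 o o (n 1958 (l 22) (l 1958) o (l 22) (l 22) (l 22)) (l 1958) (n 39 (l 39) (l 36) (l 39)
      (l 4263) o (l 39)) (l 4263),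
    n 0 (l 1227573) o (l 1227573) (l 1958) (l 1227573) (l 4263),
    n 0 (n 4 o (l 4) (n 0 (l 4) (l 4) o (l 4) (l 4) (l 4)) (l 5) (n 5 (l 5) (l 5) (l 5) (l 5) o
      (l 5)) (l 9447805020)) o o (l 123803972) (n 36 (l 39) (l 36) (l 39) (l 4263) o (l 39)) (l
      4263),
    n 0 (n 0 o (l 4) (n 0 (l 4) (l 4) o (l 4) (l 4) (l 4)) (l 5) (n 0 (l 5) (l 5) (l 5) (l 5) o
      (l 5)) (l 9447805020)) (l 1227575) o (n 0 (l 31) (l 28) (l 31) o (n 0 (l 7205) (l 7205) (l
      7205) (l 7205) o (l 123803814)) (l 31)) (n 0 (l 39) (l 36) (l 39) (l 4263) o (l 39)) (l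
      4263),
    n 0 (l 1956) (l 1956) o o (l 1956) (l 1956),
    n 0 (l 1956) (l 1956) (n 0 (l 22) (l 123803974) o (l 22) (l 22) (l 22)) o (l 1956) (l 1956),
    n 0 (n 5 o (l 4) (n 4 (l 4) (l 4) o (l 4) (l 4) (l 4)) (l 5) (n 0 (l 5) (l 5) (l 5) (l 5) o
      (l 5)) (l 9447805020)) (l 1227575) (n 22 (l 22) (l 20575208077) o (l 22) (l 22) (l 22)) o
      o (l 732566),
    n 0 (n 0 o (l 4) (n 0 (l 4) (l 4) o (l 4) (l 4) (l 4)) (l 5) (n 0 (l 5) (l 5) (l 5) (l 5) o
      (l 5)) (l 9447805020)) (l 1227575) (n 0 (l 22) (l 1958) o (l 22) (l 22) (l 22)) (l 1958) o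
      (l 732566),
    n 0 (l 4261) (l 4261) (l 4261) (l 1958) o o,
    n 0 (l 4261) (l 4261) (l 4261) (l 1958) (l 732564) o,
    n 0 o (l 1227575) (n 22 (l 22) (l 1958) o (l 22) (l 22) (l 22)) (l 1958) (n 39 (l 39) (l 36)
      (l 39) (n 330964 (l 330964) (l 330964) (n 3782 (l 3782) (l 20922871670) o (l 3782) (l
      3782) (l 3782)) o (l 330964) (l 330964)) o (l 39)) o],
  ![n 0 o (l 8) (l 8) (l 8) (l 8) (l 55904168),
    n 0 o o (l 27) (n 4241 (l 4241) (l 207459907) (n 4346 (l 4346) (l 4346) o (l 4346) (l 4346)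
      (l 4346)) o (l 1952) (l 123803970)) (n 41 (l 41) (l 41) (l 41) (l 41) o (l 41)) (n 4257 (l
      4257) (l 123803984) (l 123803984) (l 123803984) (l 732568) o),
    n 0 (l 10) o (l 121746795) (l 20575208067) (l 20575208067) (l 9447805056),
    n 0 (l 10) o o (l 25) (l 25) (l 25),
    n 0 (l 10) (l 121746793) o (l 25) (l 25) (l 25),
    n 0 (l 10) (n 207459889 (l 1227577) o (l 207459889) (l 207459889) (l 1936) (l 123803954)) o
      o (n 41 (l 41) (l 41) (l 41) (l 41) o (l 41)) (l 9447805056),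
    n 0 (l 10) (l 20575208065) (l 27) o (n 0 (l 41) (l 41) (l 41) (l 41) o (l 41)) (l
      9447805056),
    n 0 (l 10) (l 20575208065) (l 27) o o (l 9447805056),
    n 0 (l 10) (l 20575208065) (l 27) (n 0 (l 4241) (l 207459907) (n 0 (l 4346) (l 4346) o (l
      4346) (l 4346) (l 4346)) o (l 1952) (l 123803970)) o (l 9447805056),
    n 0 (l 10) (l 20575208065) (l 27) (n 1952 (l 4241) (l 207459907) (n 4346 (l 4346) (l 4346) o
      (l 4346) (l 4346) (l 4346)) o (l 1952) (l 123803970)) o o,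
    n 0 (l 55904170) (l 9447805058) (l 27) (l 9447805058) (l 9447805058) o,
    n 0 o (l 8) (l 8) (l 8) (l 8) o],
  ![n 0 o (l 94431) (l 327) (l 327) (l 148) (l 327),
    n 0 o o (l 327) (l 327) (l 148) (l 327),
    n 0 (l 94429) o (l 15958453) (l 15958453) (l 148) (l 9523382),
    n 0 (l 325) o o (n 343 (l 134) (l 267477704861) (l 343) o (n 549 (l 549) (l 549) (l 549) (l
      549) o (l 549)) (l 122821465756)) (l 148) (l 9523382),
    n 0 (l 325) (l 15958455) o (n 0 (l 134) (l 267477704861) (l 343) o (n 0 (l 549) (l 549) (l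
      549) (l 549) o (l 549)) (l 122821465756)) (l 148) (l 9523382),
    n 0 (l 325) (l 15958455) o o (l 148) (l 9523382),
    n 0 (l 325) (l 15958455) (n 0 (l 334) (l 334) o (l 334) (l 334) (l 334)) o (l 148) (l
      9523382),
    n 0 (l 325) (l 15958455) (n 334 (l 334) (l 334) o (l 334) (l 334) (l 334)) o o (n
      122821465774 (l 726754230) (l 122821465774) (l 359) (l 122821465774) (l 122821465774) o),
    n 0 (l 150) (l 150) (l 150) (l 150) o (l 56350),
    n 0 (l 150) (l 150) (l 150) (l 150) o o,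
    n 0 (l 325) (l 9523380) (l 9523380) (l 9523380) (l 56348) o,
    n 0 o (n 118 (l 118) o (l 1582708311) (l 267477704847) (l 267477704847) (l 122821465740)) (n
      334 (l 334) (l 334) o (l 334) (l 334) (l 334)) (n 134 (l 134) (l 267477704861) (l 343) o
      (n 549 (l 549) (l 549) (l 549) (l 549) o (l 549)) (l 122821465756)) (l 148) o]]

def D02 : Fin 4 → Fin 12 → T := ![
  ![n 0 o (l 1582708313) (n 0 (n 0 o (l 74) (l 74) (l 74) (l 74) (l 18898)) (l 18898) o (l
      3193082) (n 0 (l 491) (l 491) (l 491) (l 55403) o (l 488)) (l 55403)) (l 1) (n 0 (l 1) (l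
      1) (l 1) (l 1) o (l 1)) (n 0 (l 55425) (l 18922) (l 55425) (l 55425) (n 0 (l 515) (l 515)
      (l 515) (l 2696979059) o (l 512)) o),
    n 0 o o (n 18898 (n 0 o (l 74) (l 74) (l 74) (l 74) (l 18898)) (l 18898) o (l 3193082) (n
      491 (l 491) (l 491) (l 491) (l 55403) o (l 488)) (l 55403)) (l 1) (n 1 (l 1) (l 1) (l 1)
      (l 1) o (l 1)) (l 539632762),
    n 0 (l 1582708315) o (l 1582708315) (l 1) (l 1582708315) (l 0),
    n 0 (n 0 o (l 0) (l 0) (l 0) (l 0) (l 0)) o o (l 1) (n 1 (l 1) (l 1) (l 1) (l 1) o (l 1)) (l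
      0),
    n 0 (n 0 o (l 0) (l 0) (l 0) (l 0) (l 0)) (l 1582708313) o (l 1) (n 0 (l 1) (l 1) (l 1) (l
      1) o (l 1)) (l 0),
    n 0 (n 0 o (l 0) (l 0) (l 0) (l 0) (l 0)) (l 1582708313) o o (n 553 (l 553) (l 553) (l 553)
      (l 553) o (n 610 (n 26296 o (l 2696976971) (l 26296) (l 26296) (l 26296) (l 26296)) (l
      610) (l 610) (l 610) (l 610) o)) (l 0),
    n 0 (l 3) (l 3) (l 3) o (l 2652413642) (l 0),
    n 0 (l 3) (l 3) (l 3) o o (l 0),
    n 0 (n 0 o (l 0) (l 0) (l 0) (l 0) (l 0)) (l 1582708313) (n 0 (n 0 o (l 74) (l 74) (l 74) (l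
      74) (l 18898)) (l 18898) o (l 3193082) (n 0 (l 491) (l 491) (l 491) (l 55403) o (l 488))
      (l 55403)) (l 2652413640) o (l 0),
    n 0 (n 152 o (l 15958443) (l 152) (l 152) (l 152) (l 152)) (l 1582708313) (n 55403 (n 18898
      o (l 74) (l 74) (l 74) (l 74) (l 18898)) (l 18898) o (l 3193082) (n 0 (l 491) (l 491) (l
      491) (l 55403) o (l 488)) (l 55403)) (l 2652413640) o o,
    n 0 (n 0 o (l 15958443) (l 152) (l 152) (l 152) (l 152)) (l 2) (l 2) (l 2) (l 2) o,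
    n 0 o (l 2) (l 2) (l 2) (l 2) o],
  ![n 0 o (l 1227575) (n 0 (n 0 o (l 20) (l 20) (l 20) (l 20) (l 20)) (l 20575208077) o (l 21)
      (n 0 (l 21) (l 21) (l 21) (l 21) o (l 21)) (l 20)) (l 245622) (n 0 (l 39) (l 39) (l 39) (l
      4263) o (l 36)) (l 4263),
    n 0 o o (l 1452) (l 1452) (l 1452) (l 1452),
    n 0 (l 1227573) o (l 1452) (l 1452) (l 1452) (l 1452),
    n 0 (n 6 o (l 6) (l 6) (l 6) (l 6) (n 720517 (l 720517) (l 245966) (l 720517) (l 720517) (n
      6663 (l 6663) (l 6663) (l 6663) (l 35060727735) o (l 6660)) o)) o o (l 245622) (n 39 (l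
      39) (l 39) (l 39) (l 4263) o (l 36)) (l 4263),
    n 0 (n 0 o (l 6) (l 6) (l 6) (l 6) (l 1454)) (l 1454) o (l 245622) (n 0 (l 39) (l 39) (l 39)
      (l 4263) o (l 36)) (l 4263),
    n 0 (n 6 o (l 6) (l 6) (l 6) (l 6) (l 1454)) (l 1454) o o (n 4263 (l 39) (l 39) (l 39) (l
      4263) o (l 36)) (l 4263),
    n 0 (l 245620) (l 1454) (l 245620) o (l 245620) (l 4263),
    n 0 (n 6 o (l 6) (l 6) (l 6) (l 6) (l 1454)) (l 1454) (n 21 (n 20 o (l 20) (l 20) (l 20) (l
      20) (l 20)) (l 20575208077) o (l 21) (n 0 (l 21) (l 21) (l 21) (l 21) o (l 21)) (l 20)) o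
      o (l 207459925),
    n 0 (n 0 o (l 6) (l 6) (l 6) (l 6) (l 1454)) (l 1454) (n 0 (n 0 o (l 20) (l 20) (l 20) (l
      20) (l 20)) (l 20575208077) o (l 21) (n 0 (l 21) (l 21) (l 21) (l 21) o (l 21)) (l 20)) (l
      245622) o (n 0 (n 0 o (l 207459767) (l 2020) (l 2020) (l 2020) (l 2020)) (l 46) (l 46) (l
      46) (l 46) o),
    n 0 (l 4261) (l 1454) (l 4261) (l 4261) o o,
    n 0 (l 4261) (l 1454) (l 4261) (l 4261) (n 0 (l 39) (l 39) (l 39) (l 207459927) o (l 36)) o,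
    n 0 o (l 1227575) (n 20 (n 0 o (l 20) (l 20) (l 20) (l 20) (l 20)) (l 20575208077) o (l 21)
      (n 21 (l 21) (l 21) (l 21) (l 21) o (l 21)) (l 20)) (l 245622) (n 36 (l 39) (l 39) (l 39)
      (l 34481377356) o (l 36)) o],
  ![n 0 o (l 20575208065) (l 27) (l 7015225920) (l 42) (n 0 (l 4257) (l 207459923) (l 7168) (l
      41510242) (n 0 (l 7275) (l 7275) (l 7275) (l 7275) o (l 7275)) o),
    n 0 o o (l 27) (l 7015225920) (l 42) (n 4257 (l 4257) (l 207459923) (l 7168) (l 41510242) (n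
      7275 (l 7275) (l 7275) (l 7275) (l 7275) o (l 7275)) o),
    n 0 (l 20575208067) o (l 121746795) (l 7015225920) (l 42) (l 20575208067),
    n 0 (l 25) o o (l 25) (l 42) (l 25),
    n 0 (l 25) (l 121746793) o (l 25) (l 42) (l 25),
    n 0 (n 8 o (l 8) (l 8) (l 8) (l 8) (l 8)) (n 7136 (l 1227577) o (l 7136) (l 41510210) (l
      207459889) (l 207459889)) o o (l 42) (n 7168 (l 4257) (l 207459923) (l 7168) (l 41510242)
      (n 7275 (l 7275) (l 7275) (l 7275) (l 7275) o (l 7275)) o),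
    n 0 (l 7015225922) (l 7015225922) (l 27) o (l 204031818) (l 7015225922),
    n 0 (l 40) (l 40) (l 40) o o (l 40),
    n 0 (l 40) (l 40) (l 40) (l 204031816) o (l 40),
    n 0 (n 8 o (l 8) (l 8) (l 8) (l 8) (l 8)) (l 20575208065) (l 27) (n 41510224 (l 4241) (l
      41510224) (l 245624) o (l 41510224) (l 41510224)) o o,
    n 0 (n 0 o (l 8) (l 8) (l 8) (l 8) (l 8)) (l 20575208065) (l 27) (l 7015225920) (l 42) o,
    n 0 o (l 20575208065) (l 27) (l 7015225920) (l 42) o],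
  ![n 0 o (l 94431) (l 548) (l 327) (l 327) (l 327),
    n 0 o o (l 548) (l 327) (l 327) (l 327),
    n 0 (l 94429) o (l 548) (l 3193094) (l 15958453) (l 15958453),
    n 0 (l 325) o o (n 343 (l 91197936990) (l 91197936990) (l 343) o (l 2652413638) (l
      91197936990)) (n 559 (l 559) (l 559) (l 559) (l 559) o (l 559)) (n 359 (n 148 o (l 148) (l
      148) (l 148) (l 148) (l 148)) (l 267477704877) (l 359) (l 91197937004) (l 566) o),
    n 0 (l 550) (l 550) o (l 18894) (l 550) (l 550),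
    n 0 (l 550) (l 550) o o (l 550) (l 550),
    n 0 (l 325) (l 3193092) (l 18892) o (l 3193092) (l 3193092),
    n 0 (l 325) (l 15958455) (l 548) o o (n 566 (n 148 o (l 148) (l 148) (l 148) (l 148) (l
      148)) (l 267477704877) (l 359) (l 91197937004) (l 566) o),
    n 0 (l 325) (l 15958455) (l 548) (l 3193094) o (n 0 (n 0 o (l 148) (l 148) (l 148) (l 148)
      (l 148)) (l 267477704877) (l 359) (l 91197937004) (l 566) o),
    n 0 (l 325) (l 15958455) (l 548) (l 3193094) o o,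
    n 0 (l 325) (l 15958455) (l 548) (l 3193094) (n 0 (l 559) (l 559) (l 559) (l 559) o (l 559))
      o,
    n 0 o (n 267477704847 (l 267477704847) o (l 1582708311) (l 91197936972) (l 534) (l
      267477704847)) (l 548) (l 3193094) (n 559 (l 559) (l 559) (l 559) (l 559) o (l 559)) o]]

lemma ok01 : ∀ k first, top 0 1 (L0 k) first (D01 k first) = true := by decide +kernel

lemma ok12 : ∀ k first, top 1 2 (L0 k) first (D12 k first) = true := by decide +kernel

lemma ok02 : ∀ k first, top 0 2 (L0 k) first (D02 k first) = true := by decide +kernel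

lemma main' (h : Geo) (h1 : StmtC1) {i j : Fin 3} (hij : i ≠ j) (w : W) (first a fin : Fin 12)
    (rest : List (Fin 12)) (hb : ∀ b ∈ a :: rest, b.val % 2 = 0)
    (hch : (first :: a :: (rest ++ [fin])).IsChain NA)
    (hf : if first.val % 2 = 1 then fin = first else 3 ≤ rest.length) :
    SepWalls i j w first (a :: rest) fin := by
  have k01 := main h h1 ok01 w first a fin rest hb hch hf
  have k12 := main h h1 ok12 w first a fin rest hb hch hf
  have k02 := main h h1 ok02 w first a fin rest hb hch hf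
  fin_cases i <;> fin_cases j
  exacts [absurd rfl hij, k01, k02, sep_symm k01, absurd rfl hij, k12, sep_symm k02, sep_symm k12,
    absurd rfl hij]

end CW1

open CW1 in
theorem blockCW1 (h : Geo) (h1 : StmtC1) : StmtCW1 := by
  intro i j hij w
  refine ⟨fun r b b' l hr hl e1 e2 n1 n2 => ?_, fun b b' l hl hlen => ?_⟩
  · cases l with
    | nil => simp at e1
    | cons a rest =>
      obtain rfl : a = b := by simpa using e1
      have hb' : b'.val % 2 = 0 := hl.1 b' (List.mem_of_getLast? e2)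
      refine main' h h1 hij w r a r rest hl.1 (List.isChain_cons_cons.2
        ⟨(na_red r a hr (hl.1 a List.mem_cons_self) n1).1, ?_⟩) (by rw [if_pos hr])
      rw [← List.cons_append, List.isChain_append]
      refine ⟨BlueWord.chain hl, List.isChain_singleton _, fun x hx y hy => ?_⟩
      rw [e2] at hx
      obtain rfl : b' = x := by simpa using hx
      obtain rfl : r = y := by simpa using hy
      exact (na_red r b' hr hb' n2).2
  · cases l with
    | nil => simp at hlen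
    | cons a rest =>
      have hb : b.val % 2 = 0 := hl.1 b List.mem_cons_self
      refine main' h h1 hij w b a b' rest
        (fun x hx => hl.1 x (List.mem_cons_of_mem _ (List.mem_append_left _ hx)))
        (BlueWord.chain hl) ?_
      rw [if_neg (by omega)]
      simp only [List.length_cons] at hlen
      omega

end Pool.Agent.Lib.MP_003e01_gt
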