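import Pool.Agent.Lib.MP_003e01_gt.CW2b

/-! Block CW2: waves. -/

open Set Topology

namespace Pool.Agent.Lib.MP_003e01_gt

namespace CW2

lemma coord (ha : StmtAx) (b : Axis) (x : V) (hx : lor x b.n = 0) (M : V) :
    lor x M = (-lor x b.η) * lor b.ξ M + (-lor x b.ξ) * lor b.η M := by
  conv_lhs => rw [ha.expand b x]
  rw [lor_add_left, lor_add_left, lor_smul_left, lor_smul_left, lor_smul_left, hx]; ring

lemma between_real {A₁ B₁ A₂ B₂ A B u₁ v₁ u₂ v₂ u v : ℝ} (a1 : 0 < A₁) (a2 : 0 < A₂) (a : 0 < A)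
    (h1 : 0 ≤ A₁ * u₁ + B₁ * v₁) (h2 : A₂ * u₁ + B₂ * v₁ < 0) (h3 : A * u₁ + B * v₁ < 0)
    (h4 : 0 ≤ A₂ * u₂ + B₂ * v₂) (h5 : A₁ * u₂ + B₁ * v₂ < 0) (h6 : A * u₂ + B * v₂ < 0)
    (h7 : A * u + B * v = 0) : (A₁ * u + B₁ * v) * (A₂ * u + B₂ * v) ≤ 0 := by
  obtain ⟨s₁, rfl⟩ : ∃ s, B₁ = A₁ * s := ⟨B₁ / A₁, by field_simp⟩
  obtain ⟨s₂, rfl⟩ : ∃ s, B₂ = A₂ * s := ⟨B₂ / A₂, by field_simp⟩
  obtain ⟨s, rfl⟩ : ∃ s, B = A * s := ⟨B / A, by field_simp⟩
  have k1 : 0 ≤ u₁ + s₁ * v₁ := by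
    by_contra hc; nlinarith [mul_pos a1 (neg_pos.2 (not_le.1 hc))]
  have k2 : u₁ + s₂ * v₁ < 0 := by
    by_contra hc; nlinarith [mul_nonneg a2.le (not_lt.1 hc)]
  have k3 : u₁ + s * v₁ < 0 := by
    by_contra hc; nlinarith [mul_nonneg a.le (not_lt.1 hc)]
  have k4 : 0 ≤ u₂ + s₂ * v₂ := by
    by_contra hc; nlinarith [mul_pos a2 (neg_pos.2 (not_le.1 hc))]
  have k5 : u₂ + s₁ * v₂ < 0 := by
    by_contra hc; nlinarith [mul_nonneg a1.le (not_lt.1 hc)]
  have k6 : u₂ + s * v₂ < 0 := by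
    by_contra hc; nlinarith [mul_nonneg a.le (not_lt.1 hc)]
  have k7 : u = -(s * v) := by
    have : A * (u + s * v) = 0 := by linarith
    rcases mul_eq_zero.1 this with h | h
    · linarith
    · linarith
  have m1 : 0 < (s₁ - s₂) * v₁ := by linarith
  have m2 : 0 < (s₁ - s) * v₁ := by linarith
  have m3 : 0 < (s₂ - s₁) * v₂ := by linarith
  have m4 : 0 < (s₂ - s) * v₂ := by linarith
  have m5 : (s₁ - s) * (s₂ - s) ≤ 0 := by
    rcases lt_trichotomy s₁ s₂ with c | c | c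
    · have n1 : v₁ < 0 := by by_contra hc; nlinarith [not_lt.1 hc]
      have n2 : 0 < v₂ := by by_contra hc; nlinarith [not_lt.1 hc]
      have n3 : s₁ - s < 0 := by by_contra hc; nlinarith [not_lt.1 hc]
      have n4 : 0 < s₂ - s := by by_contra hc; nlinarith [not_lt.1 hc]
      exact (mul_neg_of_neg_of_pos n3 n4).le
    · rw [c] at m1; simp at m1
    · have n1 : 0 < v₁ := by by_contra hc; nlinarith [not_lt.1 hc]
      have n2 : v₂ < 0 := by by_contra hc; nlinarith [not_lt.1 hc]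
      have n3 : 0 < s₁ - s := by by_contra hc; nlinarith [not_lt.1 hc]
      have n4 : s₂ - s < 0 := by by_contra hc; nlinarith [not_lt.1 hc]
      exact (mul_neg_of_pos_of_neg n3 n4).le
  have e : (A₁ * u + A₁ * s₁ * v) * (A₂ * u + A₂ * s₂ * v) =
      (A₁ * A₂ * (v * v)) * ((s₁ - s) * (s₂ - s)) := by rw [k7]; ring
  rw [e]
  exact mul_nonpos_of_nonneg_of_nonpos (mul_nonneg (mul_pos a1 a2).le (mul_self_nonneg v)) m5

/-- the geometric form of a wave for the line `b` -/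
def Good (i j : Fin 3) (b : Axis) : Prop :=
  ∃ (x : G) (a : Axis), (Same (sC i) x ∨ Same (sC j) x) ∧ a.For x.1 ∧
    (∃ q : X, lor q.1 a.n = 0 ∧ lor q.1 b.n = 0) ∧ (∃ z : X, lor z.1 b.n = 0 ∧ lor z.1 a.n ≠ 0) ∧
    ∀ (g : W) (r : Fin 12), r.val % 2 = 1 → ∀ p : X, lor p.1 a.n = 0 → lor p.1 (g • pole r) = 0 →
      ∀ q : X, lor q.1 b.n = 0 → lor q.1 (g • pole r) = 0 →
        lor b.ξ (g • pole r) = 0 ∧ lor b.η (g • pole r) = 0

lemma cross_pt (h : StmtB1) (z₁ z₂ : X) (a b : V) (h1 : lor z₁.1 b = 0) (h2 : lor z₂.1 b = 0)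
    (h3 : lor z₁.1 a < 0) (h4 : 0 < lor z₂.1 a) : ∃ q : X, lor q.1 a = 0 ∧ lor q.1 b = 0 := by
  obtain ⟨q, hq, hM⟩ := segm h z₁ z₂ a (mul_neg_of_neg_of_pos h3 h4).le
  refine ⟨q, hq, le_antisymm ?_ (hM b h1.ge h2.ge)⟩
  have := hM (-b) (by rw [lor_neg_right, h1]; simp) (by rw [lor_neg_right, h2]; simp)
  rw [lor_neg_right] at this
  linarith

/-- a red wall with a point strictly outside a red half plane misses the half plane -/
lemma miss (h : StmtB1) (g w : W) (r r' : Fin 12) (hr : r.val % 2 = 1) (hr' : r'.val % 2 = 1)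
    (p : X) (hp : lor p.1 (g • pole r') = 0) (hp' : lor p.1 (w • pole r) < 0) (q : X)
    (hq : lor q.1 (g • pole r') = 0) : lor q.1 (w • pole r) < 0 := by
  by_contra hc
  obtain ⟨y, hy, hM⟩ := segm h p q (w • pole r)
    (mul_nonpos_of_nonpos_of_nonneg hp'.le (not_lt.1 hc))
  have h1 : lor y.1 (g • pole r') = 0 := by
    refine le_antisymm ?_ (hM _ hp.ge hq.ge)
    have := hM (-(g • pole r')) (by rw [lor_neg_right, hp]; simp) (by rw [lor_neg_right, hq]; simp)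
    rw [lor_neg_right] at this
    linarith
  have := red_meet h g w r' r hr' hr y h1 hy p.1 hp
  linarith

lemma same_side (h : StmtB1) (N M : V) (hNM : ∀ q : X, lor q.1 N = 0 → lor q.1 M < 0) (z c : X)
    (hz : 0 ≤ lor z.1 M) (hc : 0 ≤ lor c.1 M) : 0 < lor z.1 N * lor c.1 N := by
  by_contra hh
  obtain ⟨y, hy, hM⟩ := segm h z c N (not_lt.1 hh)
  linarith [hNM y hy, hM M hz hc]

lemma before_wall (h : StmtB1) (w₀ : W) (u v : List (Fin 12)) (r : Fin 12)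
    (hred : cs.IsReduced (u ++ r :: v)) (z : X) (hz : z ∈ Q) :
    0 ≤ lor (w₀ • z).1 ((w₀ * wd u * sr r) • pole r) ∧
      0 ≤ lor ((w₀ * wd (u ++ r :: v)) • z).1 ((w₀ * wd u) • pole r) := by
  obtain ⟨h1, h2⟩ := wall_of_reduced h u v r hred z hz
  constructor
  · rw [mul_smul, mul_smul, sr_pole, smul_neg_V, smul_val, lor_smul, lor_neg_right]
    linarith
  · rw [mul_smul, mul_smul, smul_val, lor_smul]
    exact h2

lemma case_red (h : Geo) (hw : StmtCW1) (i j : Fin 3) (hij : i ≠ j) (b : Axis) (w₀ : W) (z : X)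
    (hz : z ∈ Q) (l : List (Fin 12)) (hred : cs.IsReduced l) (h1 : redH (wd l) = 1)
    (h2 : ∃ a ∈ l, a.val % 2 = 1) (hb1 : lor (w₀ • z).1 b.n = 0)
    (hb2 : lor ((w₀ * wd l) • z).1 b.n = 0) : Good i j b := by
  obtain ⟨u, r, m, u', rfl, hr, hm⟩ := red_pair h.b1 l h1 h2
  obtain ⟨v, k, v', c, c', e, hred', hk, hc, hc', hrc, hrc'⟩ := shrink r _ u m u' rfl hm hred
  rw [← e] at hb2
  obtain ⟨x, a, hx, hax, s1, s2⟩ := (hw i j hij (w₀ * wd v * sr r)).1 r c c' k hr hk hc hc' hrc hrc'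
  have t1 := (before_wall h.b1 w₀ v _ r hred' z hz).1
  have e2 : v ++ r :: (k ++ r :: v') = (v ++ r :: k) ++ r :: v' := by simp
  have t2 := (before_wall h.b1 w₀ (v ++ r :: k) v' r (e2 ▸ hred') z hz).2
  have e3 : w₀ * wd (v ++ r :: k) = w₀ * wd v * sr r * wd k := by
    simp only [wd_append, wd_cons, mul_assoc]
  rw [← e2, e3] at t2
  set w := w₀ * wd v * sr r with hwd
  set z₁ := w₀ • z
  set z₂ := (w₀ * wd (v ++ r :: (k ++ r :: v'))) • z
  have f1 := s1 z₁ t1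
  have f2 := s2 z₂ t2
  refine ⟨x, a, hx, hax, cross_pt h.b1 z₁ z₂ a.n b.n hb1 hb2 f1 f2, ⟨z₁, hb1, f1.ne⟩, ?_⟩
  intro g r' hr' p hp hp' q hq hq'
  exfalso
  have p1 : lor p.1 (w • pole r) < 0 := by
    by_contra hh; linarith [s1 p (not_lt.1 hh)]
  have p2 : lor p.1 ((w * wd k) • pole r) < 0 := by
    by_contra hh; linarith [s2 p (not_lt.1 hh)]
  have m1 := miss h.b1 g w r r' hr hr' p hp' p1
  have m2 := miss h.b1 g (w * wd k) r r' hr hr' p hp' p2
  have g1 : lor z₂.1 (w • pole r) < 0 := by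
    by_contra hh; linarith [s1 z₂ (not_lt.1 hh)]
  have g2 : lor z₁.1 ((w * wd k) • pole r) < 0 := by
    by_contra hh; linarith [s2 z₁ (not_lt.1 hh)]
  have hsep : lor z₁.1 (g • pole r') * lor z₂.1 (g • pole r') ≤ 0 := by
    have q1 := m1 q hq'
    have q2 := m2 q hq'
    rw [coord h.ax b _ hb1] at t1 g2 ⊢
    rw [coord h.ax b _ hb2] at t2 g1 ⊢
    rw [coord h.ax b _ hq] at q1 q2 hq'
    exact between_real (neg_pos.2 (lor_null_neg z₁ b.hη)) (neg_pos.2 (lor_null_neg z₂ b.hη))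
      (neg_pos.2 (lor_null_neg q b.hη)) t1 g1 q1 t2 g2 q2 hq'
  obtain ⟨y, hy, hy0, _⟩ := mid h.b1 r
  have y1 : 0 ≤ lor (w • y).1 (w • pole r) := by rw [smul_val, lor_smul, hy0]
  have y2 : 0 ≤ lor ((w * wd k) • y).1 ((w * wd k) • pole r) := by rw [smul_val, lor_smul, hy0]
  have k1 := same_side h.b1 _ _ m1 z₁ _ t1 y1
  have k2 := same_side h.b1 _ _ m2 z₂ _ t2 y2
  have k3 := blue_tiles h.b1 g r' hr' k hk.1 w y y hy hy
  have k4 := mul_pos k1 k2
  nlinarith [mul_nonneg (neg_nonneg.2 hsep) k3]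

lemma exp_big (L c : ℝ) (hL : 0 < L) : ∃ n : ℕ, 0 < n ∧ c < Real.exp (n * L) := by
  obtain ⟨n, hn⟩ := exists_nat_gt (c / L)
  refine ⟨n + 1, by omega, ?_⟩
  have h1 := Real.add_one_le_exp (((n + 1 : ℕ) : ℝ) * L)
  rw [div_lt_iff₀ hL] at hn
  push_cast at h1 ⊢
  nlinarith

lemma blue_pow (l : List (Fin 12)) (hl : ∀ b ∈ l, b.val % 2 = 0) (n : ℕ) :
    ∃ m : List (Fin 12), (∀ b ∈ m, b.val % 2 = 0) ∧ wd m = wd l ^ n := by
  induction n with
  | zero => exact ⟨[], by simp, by simp⟩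
  | succ n ih =>
    obtain ⟨m, hm, e⟩ := ih
    refine ⟨m ++ l, fun b hb => ?_, by rw [wd_append, e, pow_succ]⟩
    rcases List.mem_append.1 hb with hb | hb
    · exact hm b hb
    · exact hl b hb

/-- the axis of a blue element crosses no red wall -/
lemma blue_axis (h : Geo) (D : W) (b : Axis) (hb : b.For D) (w₀ : W) (z : X) (hz : z ∈ Q)
    (hb1 : lor (w₀ • z).1 b.n = 0) (l : List (Fin 12)) (hl : ∀ c ∈ l, c.val % 2 = 0)
    (e : wd l = w₀⁻¹ * D * w₀) (g : W) (r : Fin 12) (hr : r.val % 2 = 1) (q : X)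
    (hq : lor q.1 b.n = 0) (hq' : lor q.1 (g • pole r) = 0) :
    lor b.ξ (g • pole r) = 0 ∧ lor b.η (g • pole r) = 0 := by
  set N := g • pole r with hN
  set u := lor b.ξ N
  set v := lor b.η N
  have hA := neg_pos.2 (lor_null_neg (w₀ • z) b.hη)
  have hB := neg_pos.2 (lor_null_neg (w₀ • z) b.hξ)
  have hA' := neg_pos.2 (lor_null_neg q b.hη)
  have hB' := neg_pos.2 (lor_null_neg q b.hξ)
  rw [coord h.ax b _ hq] at hq'
  change -lor q.1 b.η * u + -lor q.1 b.ξ * v = 0 at hq'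
  set A := -lor (w₀ • z).1 b.η
  set B := -lor (w₀ • z).1 b.ξ
  set A' := -lor q.1 b.η
  set B' := -lor q.1 b.ξ
  have val : ∀ m : ℤ, lor ((D ^ m * w₀) • z).1 N =
      Real.exp (m * b.L) * A * u + Real.exp (-(m * b.L)) * B * v := by
    intro m
    have e1 : ((D ^ m * w₀) • z).1 = b.flow m (w₀ • z).1 := by
      rw [mul_smul, smul_val, h.ax.zpow D b hb]
    rw [e1, coord h.ax b _ (by rw [b.lor_flow_n]; exact hb1), b.lor_flow_η, b.lor_flow_ξ]
    simp only [A, B, u, v]; ring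
  have key : ∀ n : ℕ, 0 ≤ (Real.exp (-(n * b.L)) * A * u + Real.exp (n * b.L) * B * v) *
      (Real.exp (n * b.L) * A * u + Real.exp (-(n * b.L)) * B * v) := by
    intro n
    obtain ⟨m, hm, em⟩ := blue_pow l hl (2 * n)
    have k := blue_tiles h.b1 g r hr m hm (D ^ (-(n : ℤ)) * w₀) z z hz hz
    have e2 : D ^ (-(n : ℤ)) * w₀ * wd m = D ^ (n : ℤ) * w₀ := by
      have : (w₀⁻¹ * D * w₀) ^ (2 * n) = w₀⁻¹ * D ^ (2 * n) * w₀ := by
        have := conj_pow (a := w₀⁻¹) (b := D) (i := 2 * n)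
        simpa using this
      rw [em, e, this, ← zpow_natCast]
      push_cast
      group
    rw [e2, val, val] at k
    push_cast at k
    simpa using k
  by_contra hne
  have huv : u * v < 0 := by
    have h1 : u ≠ 0 := by
      intro h0
      rw [h0] at hq'
      have : v = 0 := by
        rcases mul_eq_zero.1 (show B' * v = 0 by linarith) with h2 | h2
        · linarith
        · exact h2
      exact hne ⟨h0, this⟩
    have h2 : B' * (u * v) = -(A' * (u * u)) := by linear_combination u * hq'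
    by_contra hc
    nlinarith [mul_nonneg hB'.le (not_lt.1 hc), mul_pos hA' (mul_self_pos.2 h1)]
  have hABuv : 0 < A * B * -(u * v) := mul_pos (mul_pos hA hB) (neg_pos.2 huv)
  obtain ⟨n, _, hn⟩ := exp_big b.L
    (1 + (A * A * (u * u) + B * B * (v * v)) / (A * B * -(u * v))) b.hL
  have k := key n
  have hE : Real.exp (n * b.L) * Real.exp (-(n * b.L)) = 1 := by rw [← Real.exp_add]; simp
  have hF : 0 < Real.exp (-(n * b.L)) := Real.exp_pos _
  set E := Real.exp (n * b.L)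
  set F := Real.exp (-(n * b.L))
  have hS : 0 ≤ (A * A * (u * u) + B * B * (v * v)) / (A * B * -(u * v)) :=
    div_nonneg (by nlinarith [mul_self_nonneg (A * u), mul_self_nonneg (B * v)]) hABuv.le
  have h1 : (A * A * (u * u) + B * B * (v * v)) / (A * B * -(u * v)) < E * E := by nlinarith
  rw [div_lt_iff₀ hABuv] at h1
  have e3 : (F * A * u + E * B * v) * (E * A * u + F * B * v) =
      (A * A * (u * u) + B * B * (v * v)) - (E * E + F * F) * (A * B * -(u * v)) := by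
    linear_combination (A * A * (u * u) + B * B * (v * v)) * hE
  rw [e3] at k
  nlinarith [mul_nonneg (mul_self_nonneg F) hABuv.le]

lemma good (h : Geo) (hw : StmtCW1) (i j : Fin 3) (hij : i ≠ j) (D : W) (b : Axis) (hb : b.For D)
    (hD : ∀ n : ℕ, 0 < n → D ^ n ≠ 1) (hr : redH D = 1) : Good i j b := by
  obtain ⟨e, -, he⟩ := h.ax.fermi b
  have h0 : lor (e (0, 0)).1 b.n = 0 := by
    rw [he, lor_add_left, lor_smul_left, lor_smul_left, lor_add_left, lor_smul_left, lor_smul_left,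
      lor_comm b.ξ, lor_comm b.η, b.hnξ, b.hnη]
    ring
  obtain ⟨w₀, z, hz, ez⟩ := h.b1.cover (e (0, 0))
  rw [ez] at h0
  have hpow : ∀ n : ℕ, (w₀⁻¹ * D * w₀) ^ n = w₀⁻¹ * D ^ n * w₀ := by
    intro n
    have := conj_pow (a := w₀⁻¹) (b := D) (i := n)
    simpa using this
  have hline : ∀ (n : ℕ) (l : List (Fin 12)), (w₀⁻¹ * D * w₀) ^ n = wd l →
      lor ((w₀ * wd l) • z).1 b.n = 0 := by
    intro n l e1
    have : w₀ * wd l = D ^ (n : ℤ) * w₀ := by rw [← e1, hpow, zpow_natCast]; group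
    rw [this, mul_smul, smul_val, h.ax.zpow D b hb, b.lor_flow_n, h0]
  have hredH : ∀ (n : ℕ) (l : List (Fin 12)), (w₀⁻¹ * D * w₀) ^ n = wd l → redH (wd l) = 1 := by
    intro n l e1
    rw [← e1, map_pow, map_mul, map_mul, hr, map_inv]; simp
  by_cases hcase : ∃ (n : ℕ) (l : List (Fin 12)), cs.IsReduced l ∧ (w₀⁻¹ * D * w₀) ^ n = wd l ∧
      ∃ a ∈ l, a.val % 2 = 1
  · obtain ⟨n, l, h1, h2, h3⟩ := hcase
    exact case_red h hw i j hij b w₀ z hz l h1 (hredH n l h2) h3 h0 (hline n l h2)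
  have hblue : ∀ (n : ℕ) (l : List (Fin 12)), cs.IsReduced l → (w₀⁻¹ * D * w₀) ^ n = wd l →
      ∀ a ∈ l, a.val % 2 = 0 := by
    intro n l h1 h2 a ha
    by_contra hc
    exact hcase ⟨n, l, h1, h2, a, ha, by omega⟩
  obtain ⟨K, -, hK⟩ := long_power (w₀⁻¹ * D * w₀) (fun n hn e1 => hD n hn (by
    rw [hpow] at e1
    calc D ^ n = w₀ * (w₀⁻¹ * D ^ n * w₀) * w₀⁻¹ := by group
      _ = 1 := by rw [e1]; group)) 5
  obtain ⟨ω, hω, eω⟩ := cs.exists_isReduced ((w₀⁻¹ * D * w₀) ^ K)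
  obtain ⟨ω₁, hω₁, eω₁⟩ := cs.exists_isReduced ((w₀⁻¹ * D * w₀) ^ 1)
  have hlen : 5 < ω.length := by rw [← hω.eq, ← eω]; exact hK
  have hne : ω ≠ [] := by rintro rfl; simp at hlen
  obtain ⟨c, ω', rfl⟩ := List.exists_cons_of_ne_nil hne
  have hne' : ω' ≠ [] := by rintro rfl; simp at hlen
  obtain ⟨k, c', rfl⟩ : ∃ k c', ω' = k ++ [c'] :=
    ⟨ω'.dropLast, ω'.getLast hne', (List.dropLast_append_getLast hne').symm⟩
  obtain ⟨x, a, hx, hax, s1, s2⟩ := (hw i j hij (w₀ * wd [] * sr c)).2 c c' k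
    ⟨hblue K _ hω eω, chain_of_reduced _ hω⟩ (by simp at hlen; omega)
  have t1 := (before_wall h.b1 w₀ [] (k ++ [c']) c hω z hz).1
  have t2 := (before_wall h.b1 w₀ (c :: k) [] c' hω z hz).2
  have e3 : w₀ * wd (c :: k) = w₀ * wd [] * sr c * wd k := by
    simp only [wd_cons, wd_nil, mul_assoc, one_mul]
  rw [e3] at t2
  have f1 := s1 _ t1
  have f2 := s2 _ t2
  refine ⟨x, a, hx, hax, cross_pt h.b1 _ _ a.n b.n h0 (hline K _ eω) f1 f2, ⟨_, h0, f1.ne⟩, ?_⟩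
  intro g r hr' p _ _ q hq hq'
  exact blue_axis h D b hb w₀ z hz h0 ω₁ (hblue 1 _ hω₁ eω₁)
    (by rw [← pow_one (w₀⁻¹ * D * w₀)]; exact eω₁.symm) g r hr' q hq hq'

/-- a vector fixed by a hyperbolic element is orthogonal to the ends of its axis -/
lemma fix_perp (g : W) (c : Axis) (hc : c.For g) (N : V) (hN : g • N = N) :
    lor c.ξ N = 0 ∧ lor c.η N = 0 := by
  have h1 := c.lor_flow_ξ 1 N
  have h2 := c.lor_flow_η 1 N
  rw [← hc N, hN, one_mul] at h1 h2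
  have e1 : Real.exp (-c.L) < 1 := Real.exp_lt_one_iff.2 (by linarith [c.hL])
  have e2 : 1 < Real.exp c.L := Real.one_lt_exp_iff.2 c.hL
  constructor
  · rw [lor_comm]
    rcases mul_eq_zero.1 (show (Real.exp (-c.L) - 1) * lor N c.ξ = 0 by linarith) with h | h
    · linarith
    · exact h
  · rw [lor_comm]
    rcases mul_eq_zero.1 (show (Real.exp c.L - 1) * lor N c.η = 0 by linarith) with h | h
    · linarith
    · exact h

lemma unit_perp (ha : StmtAx) (c : Axis) (N : V) (h1 : lor N N = 1) (h2 : lor c.ξ N = 0)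
    (h3 : lor c.η N = 0) : N = c.n ∨ N = -c.n := by
  have e := ha.expand c N
  rw [lor_comm N c.η, lor_comm N c.ξ, h2, h3] at e
  simp only [neg_zero, zero_smul, zero_add] at e
  have h4 : lor N c.n * lor N c.n = 1 := by
    have : lor N N = lor (lor N c.n • c.n) (lor N c.n • c.n) := by rw [← e]
    rw [lor_smul_left, lor_smul_right, c.hn, h1] at this
    linarith
  rcases mul_self_eq_one_iff.1 h4 with h | h
  · left; rw [e, h, one_smul]
  · right; rw [e, h, neg_one_smul]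

/-- the elements translating along the red walls `rot k 1` -/
noncomputable def rC (k : Fin 3) : G :=
  ⟨wd [rot k 0, rot k 2], wd_mem _ (by revert k; decide) (by revert k; decide)⟩

lemma rC_fix (k : Fin 3) : (rC k).1 • pole (rot k 1) = pole (rot k 1) := by
  have h1 : Adjacent (rot k 1) (rot k 0) := by revert k; decide
  have h2 : Adjacent (rot k 1) (rot k 2) := by revert k; decide
  show wd [rot k 0, rot k 2] • _ = _
  rw [wd_cons, wd_cons, wd_nil, mul_one, mul_smul, sr_fix (lor_pole_adj h2), sr_fix (lor_pole_adj h1)]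

lemma num_ne : ∀ k : Fin 3,
    Z3.pos (Z3.sub (lorZ x0Z x0Z) (lorZ (actZ [rot k 0, rot k 2] x0Z) x0Z)) = true := by
  decide

lemma rot_odd : ∀ k : Fin 3, (rot k 1).val % 2 = 1 := by decide

lemma rC_ne (k : Fin 3) : rC k ≠ 1 := by
  intro e
  have h1 : wd [rot k 0, rot k 2] = 1 := congrArg Subtype.val e
  have h2 := toV_act [rot k 0, rot k 2] x0Z
  rw [h1, one_smul] at h2
  have h3 := lor_toV (actZ [rot k 0, rot k 2] x0Z) x0Z
  rw [h2, lor_toV] at h3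
  have h4 := num_ne k
  rw [Z3.pos_iff, Z3.toR_sub] at h4
  linarith

def idx (k : Fin 3) : Fin 6 := ⟨k.val, by omega⟩

lemma cvG_idx (k : Fin 3) : cvG (idx k) = sC k := by fin_cases k <;> rfl

lemma num_cross : ∀ k : Fin 3, Z3.pos (Z3.sub (lorZ (nZ (idx k)) (nZ (idx k)))
    (Z3.mul (lorZ (nZ (idx k)) (poleZ (rot k 1))) (lorZ (nZ (idx k)) (poleZ (rot k 1))))) = true := by
  decide

section
variable {Z : Type} [LinearOrder Z] [MulAction G Z] (C : CG G Z) (ν : Z → V)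

lemma cross_inv_left (x y : G) (h : Cross C.att x y) : Cross C.att x⁻¹ y := by
  unfold Cross at *
  rw [inv_inv]
  tauto

lemma sC_cross (h : Geo) (h1 : StmtC1) (hL : Link C.att ν) (k : Fin 3) :
    Cross C.att (sC k) (rC k) := by
  have hB := h.b2b Z C.att ν hL
  have hO := (h1 (idx k)).1
  rw [cvG_idx] at hO
  have hne : sC k ≠ 1 := by
    intro e
    have := hO.2
    rw [e] at this
    simp only [OneMemClass.coe_one, one_smul, det3] at this
    linarith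
  obtain ⟨a, ha⟩ := h.ax.ex _ hne
  obtain ⟨c, hc⟩ := h.ax.ex _ (rC_ne k)
  obtain ⟨t, ht, et⟩ := (h.ax.opole _ a _ ha).1 hO
  obtain ⟨p1, p2⟩ := fix_perp _ c hc _ (rC_fix k)
  have hn := num_cross k
  rw [Z3.pos_iff, Z3.toR_sub, Z3.toR_mul, ← lor_toV, ← lor_toV, toV_pole, et, lor_smul_left,
    lor_smul_left, lor_smul_right, a.hn] at hn
  rw [(hB.cross_iff _ _ a c ha hc).1, ← sq_lt_one_iff_abs_lt_one]
  have e : lor a.n (pole (rot k 1)) * lor a.n (pole (rot k 1)) = lor a.n c.n ^ 2 := by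
    rcases unit_perp h.ax c _ (lor_pole_self _) p1 p2 with e | e
    · rw [e]; ring
    · rw [e, lor_neg_right]; ring
  have : 0 < t * t * (1 - lor a.n c.n ^ 2) := by rw [← e]; linarith
  have := (mul_pos_iff_of_pos_left (mul_pos ht ht)).1 this
  linarith

lemma lift_cross (h : Geo) (h1 : StmtC1) (hL : Link C.att ν) (k : Fin 3) (x : G)
    (hx : Same (sC k) x) : ∃ γ : G, Cross C.att x (γ * rC k * γ⁻¹) := by
  have hA := h.a1 G Z C
  rcases hx with hx | hx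
  · obtain ⟨γ, rfl⟩ := isConj_iff.1 hx
    exact ⟨γ, (hA.cross_conj γ _ _).2 (sC_cross C ν h h1 hL k)⟩
  · obtain ⟨γ, rfl⟩ := isConj_iff.1 hx
    exact ⟨γ, (hA.cross_conj γ _ _).2 (cross_inv_left C _ _ (sC_cross C ν h h1 hL k))⟩

end

end CW2

open CW2 in
theorem blockCW2 (h : Geo) (h1 : StmtC1) (hw : StmtCW1) : StmtCW2 := by
  intro Z _ _ C ν hL
  classical
  have hA := h.a1 G Z C
  have hB := h.b2b Z C.att ν hL
  refine ⟨Finset.univ.image rC, fun i j hij d hd hd1 => ?_⟩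
  obtain ⟨b, hb⟩ := h.ax.ex d hd1
  obtain ⟨x, a, hx, hax, ⟨q, hq1, hq2⟩, ⟨z, hz1, hz2⟩, hred⟩ := good h hw i j hij d.1 b hb
    (fun n hn e => (hB.att_pow d n hd1 hn).1 (Subtype.ext e)) hd
  obtain ⟨k, hk⟩ : ∃ k, Same (sC k) x := by
    rcases hx with hx | hx
    · exact ⟨i, hx⟩
    · exact ⟨j, hx⟩
  obtain ⟨γ, hγ⟩ := lift_cross C ν h h1 hL k x hk
  refine ⟨x, d, γ * rC k * γ⁻¹, rC k, hx, Same.refl d, Finset.mem_image_of_mem _ (Finset.mem_univ k),
    Or.inl (isConj_iff.2 ⟨γ, rfl⟩), ?_, hγ, fun l hcr => ?_⟩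
  · rcases (hB.cross_iff x d a b hax hb).2.2.2.1 q hq1 hq2 with h2 | h2 | h2
    · exact h2
    · exact absurd (by rw [h2]; exact hz1) hz2
    · exact absurd (by rw [h2, lor_neg_right, hz1, neg_zero]) hz2
  · have e : x ^ l * (γ * rC k * γ⁻¹) * (x ^ l)⁻¹ = (x ^ l * γ) * rC k * (x ^ l * γ)⁻¹ := by group
    have hxm : Cross C.att x (x ^ l * (γ * rC k * γ⁻¹) * (x ^ l)⁻¹) := by
      have := (hA.cross_conj (x ^ l) x (γ * rC k * γ⁻¹)).2 hγ
      rwa [show x ^ l * x * (x ^ l)⁻¹ = x by group] at this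
    rw [e] at hxm hcr
    set δ := x ^ l * γ
    have hne : δ * rC k * δ⁻¹ ≠ 1 := by
      intro e1
      apply rC_ne k
      calc rC k = δ⁻¹ * (δ * rC k * δ⁻¹) * δ := by group
        _ = 1 := by rw [e1]; group
    obtain ⟨c, hc⟩ := h.ax.ex _ hne
    have hfix : (δ * rC k * δ⁻¹).1 • δ.1 • pole (rot k 1) = δ.1 • pole (rot k 1) := by
      show (δ.1 * (rC k).1 * δ.1⁻¹) • _ = _
      rw [mul_smul, inv_smul_smul, mul_smul, rC_fix]
    obtain ⟨p1, p2⟩ := fix_perp _ c hc _ hfix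
    have hN : lor (δ.1 • pole (rot k 1)) (δ.1 • pole (rot k 1)) = 1 := by
      rw [lor_smul, lor_pole_self]
    have hc0 : ∀ y : V, lor y c.n = 0 → lor y (δ.1 • pole (rot k 1)) = 0 := by
      intro y hy
      rcases unit_perp h.ax c _ hN p1 p2 with e1 | e1
      · rw [e1, hy]
      · rw [e1, lor_neg_right, hy, neg_zero]
    obtain ⟨p, hp1, hp2⟩ := (hB.cross_iff x _ a c hax hc).2.1 hxm
    obtain ⟨y, hy1, hy2⟩ := (hB.cross_iff d _ b c hb hc).2.1 hcr
    obtain ⟨r1, r2⟩ := hred δ.1 (rot k 1) (rot_odd k) p hp1 (hc0 _ hp2) y hy1 (hc0 _ hy2)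
    have hlt := (hB.cross_iff d _ b c hb hc).1.1 hcr
    have habs : |lor b.n c.n| = 1 := by
      rcases unit_perp h.ax c _ hN p1 p2 with e1 | e1 <;>
        rcases unit_perp h.ax b _ hN r1 r2 with e2 | e2
      · rw [← e1, ← e2, hN, abs_one]
      · rw [← e1, ← neg_eq_iff_eq_neg.2 e2, lor_neg_left, hN, abs_neg, abs_one]
      · rw [← e2, ← neg_eq_iff_eq_neg.2 e1, lor_neg_right, hN, abs_neg, abs_one]
      · rw [← neg_eq_iff_eq_neg.2 e2, ← neg_eq_iff_eq_neg.2 e1, lor_neg_left, lor_neg_right, hN,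
          neg_neg, abs_one]
    linarith

end Pool.Agent.Lib.MP_003e01_gt
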