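import Pool.Agent.Lib.MP_003e01_gt.Blue

/-! Block CW2, first part: walls, segments, colours. -/

open Set Topology

namespace Pool.Agent.Lib.MP_003e01_gt

namespace CW2

lemma lor_move (g : W) (x v : V) : lor x (g • v) = lor (g⁻¹ • x) v := by
  rw [← lor_smul g (g⁻¹ • x) v, smul_inv_smul]

lemma lor_move' (g w : W) (z : X) (v : V) :
    lor (w • z).1 (g • v) = lor ((g⁻¹ * w) • z).1 v := by
  rw [lor_move, smul_val, smul_val, mul_smul]

lemma sr_pole (i : Fin 12) : sr i • pole i = -pole i := by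
  rw [sr_smul, lor_pole_self]
  ext k; simp only [Pi.sub_apply, Pi.smul_apply, smul_eq_mul, Pi.neg_apply]; ring

lemma sr_fix {i : Fin 12} {x : V} (h : lor x (pole i) = 0) : sr i • x = x := by
  rw [sr_smul, h]; simp

lemma sr_fixX {i : Fin 12} {z : X} (h : lor z.1 (pole i) = 0) : sr i • z = z :=
  Subtype.ext (sr_fix h)

lemma sr_comm {i j : Fin 12} (h : Adjacent i j) : sr i * sr j = sr j * sr i := by
  have hne : i ≠ j := by
    rintro rfl
    revert i; decide
  have h2 : cm i j = 2 := by simp [cm, hne, h]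
  have h3 := cs.simple_mul_simple_pow i j
  rw [h2, pow_two] at h3
  have h4 : sr i * sr j = (sr i * sr j)⁻¹ := eq_inv_of_mul_eq_one_left h3
  rw [h4, mul_inv_rev, cs.inv_simple, cs.inv_simple]

lemma adj_symm {i j : Fin 12} (h : Adjacent i j) : Adjacent j i := Or.symm h

lemma adj_parity : ∀ i j : Fin 12, Adjacent i j → i.val % 2 ≠ j.val % 2 := by decide

/-- normalisation of a future timelike vector -/
lemma normalise (v : V) (h1 : lor v v < 0) (h2 : 0 < v 2) :
    ∃ (c : ℝ) (z : X), 0 < c ∧ z.1 = c • v := by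
  have h3 : 0 < √(-lor v v) := Real.sqrt_pos.2 (by linarith)
  have h4 : √(-lor v v) * √(-lor v v) = -lor v v := Real.mul_self_sqrt (by linarith)
  refine ⟨(√(-lor v v))⁻¹, ⟨(√(-lor v v))⁻¹ • v, ?_, ?_⟩, inv_pos.2 h3, rfl⟩
  · rw [lor_smul_left, lor_smul_right]
    field_simp
    nlinarith
  · simp only [Pi.smul_apply, smul_eq_mul]
    exact mul_pos (inv_pos.2 h3) h2

lemma lor_x0_pole (i : Fin 12) : lor x0.1 (pole i) = -√(3 + 2 * √3) := by
  simp [lor, x0, pole]

lemma lor_x0_neg (i : Fin 12) : lor x0.1 (pole i) < 0 := by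
  rw [lor_x0_pole]
  have : 0 < √(3 + 2 * √3) := by positivity
  linarith

/-- the midpoint of a side -/
lemma mid (h : StmtB1) (j : Fin 12) :
    ∃ c : X, c ∈ Q ∧ lor c.1 (pole j) = 0 ∧ ∀ k, k ≠ j → lor c.1 (pole k) < 0 := by
  have hb : 0 < √(3 + 2 * √3) := by positivity
  set β := √(3 + 2 * √3) with hβ
  have hx : lor x0.1 x0.1 = -1 := x0.2.1
  have e1 : ∀ k, lor (x0.1 + β • pole j) (pole k) = β * (lor (pole j) (pole k) - 1) := by
    intro k
    rw [lor_add_left, lor_smul_left, lor_x0_pole]; ring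
  obtain ⟨c, z, hc, hz⟩ := normalise (x0.1 + β • pole j) (by
      rw [lor_add_right, lor_smul_right, e1, lor_pole_self, lor_add_left, lor_smul_left,
        lor_comm (pole j), lor_x0_pole, hx]
      nlinarith) (by
      have : (x0.1 + β • pole j) 2 = 1 + β * β := by simp [x0, pole, hβ]
      rw [this]; positivity)
  have e2 : ∀ k, k ≠ j → lor z.1 (pole k) < 0 := by
    intro k hk
    rw [hz, lor_smul_left, e1]
    have : lor (pole j) (pole k) ≤ 0 := by
      by_cases ha : Adjacent j k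
      · exact (lor_pole_adj ha).le
      · linarith [h.far j k hk.symm ha]
    exact mul_neg_of_pos_of_neg hc (mul_neg_of_pos_of_neg hb (by linarith))
  have e3 : lor z.1 (pole j) = 0 := by
    rw [hz, lor_smul_left, e1, lor_pole_self]; ring
  refine ⟨z, fun k => ?_, e3, e2⟩
  by_cases hk : k = j
  · rw [hk]; exact e3.le
  · exact (e2 k hk).le

/-- a line separating two points meets the segment between them -/
lemma segm (h : StmtB1) (z₁ z₂ : X) (N : V) (hN : lor z₁.1 N * lor z₂.1 N ≤ 0) :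
    ∃ q : X, lor q.1 N = 0 ∧ ∀ M : V, 0 ≤ lor z₁.1 M → 0 ≤ lor z₂.1 M → 0 ≤ lor q.1 M := by
  by_cases h0 : lor z₁.1 N = 0
  · exact ⟨z₁, h0, fun M h1 _ => h1⟩
  have hβ : 0 < |lor z₁.1 N| := abs_pos.2 h0
  have hα : 0 ≤ |lor z₂.1 N| := abs_nonneg _
  set α := |lor z₂.1 N| with hαd
  set β := |lor z₁.1 N| with hβd
  have h12 := (h.revCS z₁ z₂).1
  obtain ⟨c, q, hc, hq⟩ := normalise (α • z₁.1 + β • z₂.1) (by
      simp only [lor_add_left, lor_add_right, lor_smul_left, lor_smul_right, z₁.2.1, z₂.2.1,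
        lor_comm z₂.1 z₁.1]
      nlinarith [mul_nonneg hα hβ.le, mul_pos hβ hβ, mul_nonneg hα hα]) (by
      simp only [Pi.add_apply, Pi.smul_apply, smul_eq_mul]
      have := mul_nonneg hα z₁.2.2.le
      have := mul_pos hβ z₂.2.2
      linarith)
  refine ⟨q, ?_, fun M h1 h2 => ?_⟩
  · rw [hq, lor_smul_left, lor_add_left, lor_smul_left, lor_smul_left]
    have : α * lor z₁.1 N + β * lor z₂.1 N = 0 := by
      rcases lt_or_gt_of_ne h0 with h1 | h1
      · have h2 : 0 ≤ lor z₂.1 N := by nlinarith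
        rw [hαd, hβd, abs_of_nonneg h2, abs_of_neg h1]; ring
      · have h2 : lor z₂.1 N ≤ 0 := by nlinarith
        rw [hαd, hβd, abs_of_nonpos h2, abs_of_pos h1]; ring
    rw [this, mul_zero]
  · rw [hq, lor_smul_left, lor_add_left, lor_smul_left, lor_smul_left]
    exact mul_nonneg hc.le (add_nonneg (mul_nonneg hα h1) (mul_nonneg hβ.le h2))

/-- the stabiliser of a point of the polygon -/
lemma stab (h : StmtB1) (z : X) (t : W)
    (ht : t ∈ Subgroup.closure {t | ∃ i, lor z.1 (pole i) = 0 ∧ t = sr i}) :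
    t = 1 ∨ (∃ i, lor z.1 (pole i) = 0 ∧ t = sr i) ∨
      ∃ i j : Fin 12, i.val % 2 = 1 ∧ j.val % 2 = 0 ∧ lor z.1 (pole i) = 0 ∧
        lor z.1 (pole j) = 0 ∧ t = sr i * sr j := by
  have hadj : ∀ i j, lor z.1 (pole i) = 0 → lor z.1 (pole j) = 0 → i = j ∨ Adjacent i j := by
    intro i j hi hj
    by_contra hc
    push Not at hc
    have := h.far_neg i j hc.1 hc.2 z
    linarith
  have step : ∀ k, lor z.1 (pole k) = 0 → ∀ t : W,
      (t = 1 ∨ (∃ i, lor z.1 (pole i) = 0 ∧ t = sr i) ∨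
      ∃ i j : Fin 12, i.val % 2 = 1 ∧ j.val % 2 = 0 ∧ lor z.1 (pole i) = 0 ∧
        lor z.1 (pole j) = 0 ∧ t = sr i * sr j) →
      (sr k * t = 1 ∨ (∃ i, lor z.1 (pole i) = 0 ∧ sr k * t = sr i) ∨
      ∃ i j : Fin 12, i.val % 2 = 1 ∧ j.val % 2 = 0 ∧ lor z.1 (pole i) = 0 ∧
        lor z.1 (pole j) = 0 ∧ sr k * t = sr i * sr j) := by
    intro k hk t ht
    rcases ht with rfl | ⟨i, hi, rfl⟩ | ⟨i, j, hi, hj, hi', hj', rfl⟩
    · exact Or.inr (Or.inl ⟨k, hk, mul_one _⟩)
    · rcases hadj k i hk hi with rfl | ha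
      · exact Or.inl (cs.simple_mul_simple_self _)
      · have hp := adj_parity k i ha
        by_cases hk2 : k.val % 2 = 1
        · exact Or.inr (Or.inr ⟨k, i, hk2, by omega, hk, hi, rfl⟩)
        · exact Or.inr (Or.inr ⟨i, k, by omega, by omega, hi, hk, sr_comm ha⟩)
    · have hij : Adjacent i j := by
        rcases hadj i j hi' hj' with rfl | ha
        · omega
        · exact ha
      by_cases hk2 : k.val % 2 = 1
      · rcases hadj k i hk hi' with rfl | ha
        · exact Or.inr (Or.inl ⟨j, hj', cs.simple_mul_simple_cancel_left _⟩)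
        · have := adj_parity k i ha; omega
      · rcases hadj k j hk hj' with rfl | ha
        · refine Or.inr (Or.inl ⟨i, hi', ?_⟩)
          rw [sr_comm hij]; exact cs.simple_mul_simple_cancel_left _
        · have := adj_parity k j ha; omega
  induction ht using Subgroup.closure_induction_left with
  | one => exact Or.inl rfl
  | mul_left x hx y _ ih =>
    obtain ⟨k, hk, rfl⟩ := hx
    exact step k hk y ih
  | inv_mul_cancel x hx y _ ih =>
    obtain ⟨k, hk, rfl⟩ := hx
    rw [cs.inv_simple]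
    exact step k hk y ih

lemma chB_conj (g : W) (h : StmtB1) (t : W) : chB (g * t * g⁻¹) = chB t := by
  have : chB g ≠ 0 := by rcases (h.ch g).1 with e | e <;> rw [e] <;> norm_num
  rw [map_mul, map_mul, map_inv]; field_simp

lemma chR_conj (g : W) (h : StmtB1) (t : W) : chR (g * t * g⁻¹) = chR t := by
  have : chR g ≠ 0 := by rcases (h.ch g).2 with e | e <;> rw [e] <;> norm_num
  rw [map_mul, map_mul, map_inv]; field_simp

/-- a red wall through a point of the polygon is a red side -/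
lemma wall_red (h : StmtB1) (z : X) (hz : z ∈ Q) (g : W) (r : Fin 12) (hr : r.val % 2 = 1)
    (h0 : lor z.1 (g • pole r) = 0) :
    ∃ i : Fin 12, i.val % 2 = 1 ∧ lor z.1 (pole i) = 0 ∧ g * sr r * g⁻¹ = sr i := by
  have hfix : (g * sr r * g⁻¹) • z = z := by
    rw [mul_smul, mul_smul, sr_fixX (by rw [smul_val, ← lor_move]; exact h0), smul_inv_smul]
  have hB : chB (g * sr r * g⁻¹) = 1 := by
    rw [chB_conj g h, chB_sr, if_neg (by omega)]
  have hR : chR (g * sr r * g⁻¹) = -1 := by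
    rw [chR_conj g h, chR_sr, if_neg (by omega)]
  rcases stab h z _ (h.fund _ z hz (by rw [hfix]; exact hz)).2 with
    e | ⟨i, hi, e⟩ | ⟨i, j, hi, hj, _, _, e⟩
  · rw [e, map_one] at hR; norm_num at hR
  · refine ⟨i, ?_, hi, e⟩
    by_contra hc
    rw [e, chR_sr, if_pos (by omega)] at hR; norm_num at hR
  · rw [e, map_mul, chB_sr, chB_sr, if_neg (by omega), if_pos hj] at hB; norm_num at hB

lemma refl_apply (g : W) (r : Fin 12) (x : V) :
    (g * sr r * g⁻¹) • x = x - (2 * lor x (g • pole r)) • g • pole r := by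
  rw [mul_smul, mul_smul, sr_smul, smul_sub_V, smul_inv_smul, smul_smul_V, ← lor_move]

/-- two red walls that meet coincide -/
lemma red_meet (h : StmtB1) (g g' : W) (r r' : Fin 12) (hr : r.val % 2 = 1) (hr' : r'.val % 2 = 1)
    (p : X) (h1 : lor p.1 (g • pole r) = 0) (h2 : lor p.1 (g' • pole r') = 0) (x : V)
    (hx : lor x (g • pole r) = 0) : lor x (g' • pole r') = 0 := by
  obtain ⟨w, z, hz, rfl⟩ := h.cover p
  have e : ∀ (g : W) (v : V), lor (w • z).1 (g • v) = lor z.1 ((w⁻¹ * g) • v) := by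
    intro g v
    rw [smul_val, mul_smul, lor_move w⁻¹, inv_inv]
  rw [e] at h1 h2
  obtain ⟨i, hi, hi', e1⟩ := wall_red h z hz _ r hr h1
  obtain ⟨j, hj, hj', e2⟩ := wall_red h z hz _ r' hr' h2
  have hij : i = j := by
    by_contra hc
    have := h.far_neg i j hc (fun ha => adj_parity i j ha (by omega)) z
    linarith
  have e3 : g * sr r * g⁻¹ = g' * sr r' * g'⁻¹ := by
    have : w⁻¹ * (g * sr r * g⁻¹) * w = w⁻¹ * (g' * sr r' * g'⁻¹) * w := by
      calc _ = w⁻¹ * g * sr r * (w⁻¹ * g)⁻¹ := by group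
        _ = w⁻¹ * g' * sr r' * (w⁻¹ * g')⁻¹ := by rw [e1, e2, hij]
        _ = _ := by group
    exact mul_left_cancel (mul_right_cancel this)
  have e4 := refl_apply g r x
  rw [e3, refl_apply, hx] at e4
  have e5 := congrArg (fun v => lor v (g' • pole r')) e4
  simp only [lor_sub_smul, lor_smul, lor_pole_self] at e5
  linarith

/-- the sign of a wall on a tile -/
lemma tile_pos (h : StmtB1) (g w : W) (r : Fin 12) (z : X) (hz : z ∈ Q)
    (hp : 0 < lor (w • z).1 (g • pole r)) : 0 < lor (w • x0).1 (g • pole r) := by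
  rw [lor_move'] at hp ⊢
  refine ((h.descent _ r).1).1 ?_
  by_contra hc
  linarith [h.descent_le _ r hc z hz]

lemma tile_neg (h : StmtB1) (g w : W) (r : Fin 12) (z : X) (hz : z ∈ Q)
    (hp : lor (w • z).1 (g • pole r) < 0) : lor (w • x0).1 (g • pole r) < 0 := by
  rw [lor_move'] at hp ⊢
  have h1 := h.descent (g⁻¹ * w) r
  refine lt_of_le_of_ne ?_ h1.2
  by_contra hc
  linarith [h.descent_ge _ r (h1.1.2 (not_le.1 hc)) z hz]

lemma tile_ne (h : StmtB1) (g w : W) (r : Fin 12) : lor (w • x0).1 (g • pole r) ≠ 0 := by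
  rw [lor_move']; exact (h.descent _ r).2

/-- a blue step does not cross a red wall -/
lemma blue_step (h : StmtB1) (g w : W) (r j : Fin 12) (hr : r.val % 2 = 1) (hj : j.val % 2 = 0) :
    0 < lor (w • x0).1 (g • pole r) * lor ((w * sr j) • x0).1 (g • pole r) := by
  obtain ⟨c, hc, hc0, hc1⟩ := mid h j
  have e : (w * sr j) • c = w • c := by rw [mul_smul, sr_fixX hc0]
  have hne : lor (w • c).1 (g • pole r) ≠ 0 := by
    intro h0
    have h1 : lor c.1 ((w⁻¹ * g) • pole r) = 0 := by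
      rw [mul_smul, lor_move w⁻¹, inv_inv]; exact h0
    obtain ⟨i, hi, hi', _⟩ := wall_red h c hc _ r hr h1
    have := hc1 i (by rintro rfl; omega)
    linarith
  rcases lt_or_gt_of_ne hne with h1 | h1
  · exact mul_pos_of_neg_of_neg (tile_neg h g w r c hc h1)
      (tile_neg h g _ r c hc (by rw [e]; exact h1))
  · exact mul_pos (tile_pos h g w r c hc h1) (tile_pos h g _ r c hc (by rw [e]; exact h1))

lemma blue_word (h : StmtB1) (g : W) (r : Fin 12) (hr : r.val % 2 = 1) (l : List (Fin 12))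
    (hl : ∀ b ∈ l, b.val % 2 = 0) (w : W) :
    0 < lor (w • x0).1 (g • pole r) * lor ((w * wd l) • x0).1 (g • pole r) := by
  induction l generalizing w with
  | nil =>
    rw [wd, cs.wordProd_nil, mul_one]
    exact mul_self_pos.2 (tile_ne h g w r)
  | cons j l ih =>
    have h1 := blue_step h g w r j hr (hl j (by simp))
    have h2 := ih (fun b hb => hl b (by simp [hb])) (w * sr j)
    rw [wd, cs.wordProd_cons, ← mul_assoc]
    have h3 := mul_self_pos.2 (tile_ne h g (w * sr j) r)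
    have h4 := mul_pos h1 h2
    by_contra hc
    nlinarith [mul_nonneg (neg_nonneg.2 (not_lt.1 hc)) h3.le]

/-- points of two tiles joined by a blue word are not strictly separated by a red wall -/
lemma blue_tiles (h : StmtB1) (g : W) (r : Fin 12) (hr : r.val % 2 = 1) (l : List (Fin 12))
    (hl : ∀ b ∈ l, b.val % 2 = 0) (w : W) (z z' : X) (hz : z ∈ Q) (hz' : z' ∈ Q) :
    0 ≤ lor (w • z).1 (g • pole r) * lor ((w * wd l) • z').1 (g • pole r) := by
  have h0 := blue_word h g r hr l hl w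
  by_contra hc
  rcases mul_neg_iff.1 (not_le.1 hc) with ⟨h1, h2⟩ | ⟨h1, h2⟩
  · linarith [mul_neg_of_pos_of_neg (tile_pos h g w r z hz h1) (tile_neg h g _ r z' hz' h2)]
  · linarith [mul_neg_of_neg_of_pos (tile_neg h g w r z hz h1) (tile_pos h g _ r z' hz' h2)]

end CW2

end Pool.Agent.Lib.MP_003e01_gt
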