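import Pool.Agent.Lib.MP_003e01_gt.CW2a

/-! Block CW2, second part: reduced words. -/

open Set Topology

namespace Pool.Agent.Lib.MP_003e01_gt

namespace CW2

lemma wd_cons (i : Fin 12) (l : List (Fin 12)) : wd (i :: l) = sr i * wd l := cs.wordProd_cons i l

lemma wd_append (l l' : List (Fin 12)) : wd (l ++ l') = wd l * wd l' := cs.wordProd_append l l'

lemma wd_nil : wd [] = 1 := cs.wordProd_nil

lemma red_split {u v : List (Fin 12)} (h : cs.IsReduced (u ++ v)) :
    cs.IsReduced u ∧ cs.IsReduced v := by
  have h1 := h.take u.length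
  have h2 := h.drop u.length
  simp only [List.take_left', List.drop_left'] at h1 h2
  exact ⟨h1, h2⟩

/-- walls crossed by a reduced word -/
lemma wall_of_reduced (h : StmtB1) (u v : List (Fin 12)) (r : Fin 12)
    (hred : cs.IsReduced (u ++ r :: v)) (z : X) (hz : z ∈ Q) :
    lor z.1 (wd u • pole r) ≤ 0 ∧ 0 ≤ lor (wd (u ++ r :: v) • z).1 (wd u • pole r) := by
  have h1 : cs.IsReduced (u ++ [r]) := by
    have : u ++ r :: v = (u ++ [r]) ++ v := by simp
    rw [this] at hred
    exact (red_split hred).1
  have h2 := (red_split hred).1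
  have h3 := (red_split hred).2
  have h4 : cs.IsReduced v := (red_split (u := [r]) h3).2
  constructor
  · have e : lor z.1 (wd u • pole r) = lor ((wd u)⁻¹ • z).1 (pole r) := by
      rw [lor_move, smul_val]
    rw [e]
    refine h.descent_le _ r ?_ z hz
    rw [cs.isLeftDescent_inv_iff]
    have e1 := h1.eq
    have e2 := h2.eq
    rw [cs.wordProd_append, cs.wordProd_singleton, List.length_append] at e1
    unfold CoxeterSystem.IsRightDescent
    simp only [List.length_singleton] at e1
    show ¬ cs.length (cs.wordProd u * cs.simple r) < cs.length (cs.wordProd u)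
    omega
  · rw [lor_move', wd_append, inv_mul_cancel_left]
    refine h.descent_ge _ r ?_ z hz
    have e1 := h3.eq
    have e2 := h4.eq
    unfold CoxeterSystem.IsLeftDescent
    show cs.length (cs.simple r * cs.wordProd (r :: v)) < cs.length (cs.wordProd (r :: v))
    rw [e1, cs.wordProd_cons, cs.simple_mul_simple_cancel_left, e2]
    simp

lemma chain_of_reduced (l : List (Fin 12)) (h : cs.IsReduced l) : l.IsChain (· ≠ ·) := by
  induction l with
  | nil => simp
  | cons a l ih =>
    have h1 : cs.IsReduced l := (red_split (u := [a]) h).2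
    cases l with
    | nil => simp
    | cons b l =>
      rw [List.isChain_cons_cons]
      refine ⟨?_, ih h1⟩
      rintro rfl
      have e := h.eq
      rw [cs.wordProd_cons, cs.wordProd_cons, cs.simple_mul_simple_cancel_left] at e
      have := cs.length_wordProd_le l
      simp only [List.length_cons] at e
      omega

/-- ping-pong with red letters -/
lemma pingpong (h : StmtB1) (a : Fin 12) (l : List (Fin 12)) (hl : ∀ b ∈ a :: l, b.val % 2 = 1)
    (hc : (a :: l).IsChain (· ≠ ·)) : 0 < lor (wd (a :: l) • x0).1 (pole a) := by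
  have key : ∀ y : X, lor y.1 (pole a) < 0 → 0 < lor (sr a • y).1 (pole a) := by
    intro y hy
    rw [smul_val, sr_smul, lor_sub_smul, lor_pole_self]; linarith
  induction l generalizing a with
  | nil =>
    rw [wd_cons, wd_nil, mul_one]
    exact key _ (lor_x0_neg a)
  | cons b l ih =>
    rw [List.isChain_cons_cons] at hc
    have hb : 0 < lor (wd (b :: l) • x0).1 (pole b) := by
      refine ih b (fun c hc' => hl c (List.mem_cons_of_mem _ hc')) hc.2 ?_
      intro y hy
      rw [smul_val, sr_smul, lor_sub_smul, lor_pole_self]; linarith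
    have ha2 := hl a (by simp)
    have hb2 := hl b (by simp)
    have hf := h.far_neg a b hc.1 (fun hh => adj_parity a b hh (by omega)) (wd (b :: l) • x0)
    rw [wd_cons a, mul_smul]
    exact key _ (by linarith)

lemma redH_wd (l : List (Fin 12)) : redH (wd l) = wd (l.filter fun i => i.val % 2 = 1) := by
  induction l with
  | nil => simp
  | cons i l ih =>
    rw [wd_cons, map_mul, redH_sr, ih, List.filter_cons]
    by_cases hi : i.val % 2 = 0
    · rw [if_pos hi, one_mul, if_neg (by simp; omega)]
    · rw [if_neg hi, if_pos (by simp; omega), wd_cons]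

lemma not_chain_split (p : Fin 12 → Bool) (l : List (Fin 12))
    (h : ¬ (l.filter p).IsChain (· ≠ ·)) :
    ∃ u r m u', l = u ++ r :: (m ++ r :: u') ∧ p r = true ∧ ∀ b ∈ m, ¬ p b = true := by
  induction l with
  | nil => simp at h
  | cons a l ih =>
    by_cases hc : (l.filter p).IsChain (· ≠ ·)
    · by_cases ha : p a = true
      · rw [List.filter_cons_of_pos ha] at h
        cases hf : l.filter p with
        | nil => rw [hf] at h; simp at h
        | cons b t =>
          rw [hf] at h hc
          rw [List.isChain_cons_cons] at h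
          have hab : a = b := by
            by_contra hne
            exact h ⟨hne, hc⟩
          subst hab
          obtain ⟨l₁, l₂, e, h1, _, _⟩ := List.filter_eq_cons_iff.1 hf
          exact ⟨[], a, l₁, l₂, by simp [e], ha, h1⟩
      · rw [List.filter_cons_of_neg ha] at h
        exact absurd hc h
    · obtain ⟨u, r, m, u', e, h1, h2⟩ := ih hc
      exact ⟨a :: u, r, m, u', by simp [e], h1, h2⟩

/-- a word with trivial red image and a red letter has two equal consecutive red letters -/
lemma red_pair (h : StmtB1) (l : List (Fin 12)) (h1 : redH (wd l) = 1)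
    (h2 : ∃ a ∈ l, a.val % 2 = 1) :
    ∃ u r m u', l = u ++ r :: (m ++ r :: u') ∧ r.val % 2 = 1 ∧ ∀ b ∈ m, b.val % 2 = 0 := by
  rw [redH_wd] at h1
  have hc : ¬ (l.filter fun i => decide (i.val % 2 = 1)).IsChain (· ≠ ·) := by
    intro hc
    cases hf : l.filter fun i => decide (i.val % 2 = 1) with
    | nil =>
      obtain ⟨a, ha, ha'⟩ := h2
      have : a ∈ l.filter fun i => decide (i.val % 2 = 1) := List.mem_filter.2 ⟨ha, by simpa⟩
      rw [hf] at this; simp at this
    | cons a t =>
      have h3 := pingpong h a t (fun b hb => by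
        rw [← hf] at hb; simpa using (List.mem_filter.1 hb).2) (hf ▸ hc)
      rw [hf] at h1
      rw [h1, one_smul] at h3
      linarith [lor_x0_neg a]
  obtain ⟨u, r, m, u', e, h3, h4⟩ := not_chain_split _ l hc
  refine ⟨u, r, m, u', e, by simpa using h3, fun b hb => ?_⟩
  have := h4 b hb
  simp only [decide_eq_true_eq] at this
  omega

/-- pushing the letters commuting with `r` out of the middle word -/
lemma shrink (r : Fin 12) (n : ℕ) : ∀ (u m u' : List (Fin 12)), m.length = n →
    (∀ b ∈ m, b.val % 2 = 0) → cs.IsReduced (u ++ r :: (m ++ r :: u')) →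
    ∃ (v k v' : List (Fin 12)) (b b' : Fin 12),
      wd (v ++ r :: (k ++ r :: v')) = wd (u ++ r :: (m ++ r :: u')) ∧
      cs.IsReduced (v ++ r :: (k ++ r :: v')) ∧ BlueWord k ∧ k.head? = some b ∧
      k.getLast? = some b' ∧ ¬ Adjacent r b ∧ ¬ Adjacent r b' := by
  induction n with
  | zero =>
    intro u m u' hm _ hred
    have : m = [] := List.length_eq_zero_iff.1 hm
    subst this
    have h1 := chain_of_reduced _ (red_split hred).2
    simp at h1
  | succ n ih =>
    intro u m u' hm hb hred
    have hne : m ≠ [] := by rintro rfl; simp at hm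
    by_cases h1 : Adjacent r (m.head hne)
    · obtain ⟨b, m', rfl⟩ := List.exists_cons_of_ne_nil hne
      simp only [List.head_cons] at h1
      have e : wd ((u ++ [b]) ++ r :: (m' ++ r :: u')) = wd (u ++ r :: (b :: m' ++ r :: u')) := by
        simp only [wd_append, wd_cons, wd_nil, List.cons_append, mul_one, mul_assoc]
        rw [← mul_assoc (sr b), ← sr_comm h1, mul_assoc]
      have hred' : cs.IsReduced ((u ++ [b]) ++ r :: (m' ++ r :: u')) := by
        have e1 := hred.eq
        unfold CoxeterSystem.IsReduced
        rw [show cs.wordProd ((u ++ [b]) ++ r :: (m' ++ r :: u')) = _ from e, e1]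
        simp only [List.length_append, List.length_cons, List.length_nil]
        omega
      obtain ⟨v, k, v', c, c', e1, rest⟩ := ih (u ++ [b]) m' u' (by simpa using hm)
        (fun c hc => hb c (List.mem_cons_of_mem _ hc)) hred'
      exact ⟨v, k, v', c, c', e1.trans e, rest⟩
    by_cases h2 : Adjacent r (m.getLast hne)
    · obtain ⟨m', b, rfl⟩ : ∃ m' b, m = m' ++ [b] :=
        ⟨m.dropLast, m.getLast hne, (List.dropLast_append_getLast hne).symm⟩
      simp only [List.getLast_append_singleton] at h2
      have e : wd (u ++ r :: (m' ++ r :: (b :: u'))) = wd (u ++ r :: (m' ++ [b] ++ r :: u')) := by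
        simp only [wd_append, wd_cons, wd_nil, mul_one, mul_assoc]
        rw [← mul_assoc (sr b), ← sr_comm h2, mul_assoc]
      have hred' : cs.IsReduced (u ++ r :: (m' ++ r :: (b :: u'))) := by
        have e1 := hred.eq
        unfold CoxeterSystem.IsReduced
        rw [show cs.wordProd (u ++ r :: (m' ++ r :: (b :: u'))) = _ from e, e1]
        simp only [List.length_append, List.length_cons, List.length_nil]
        omega
      obtain ⟨v, k, v', c, c', e1, rest⟩ := ih u m' (b :: u') (by simpa using hm)
        (fun c hc => hb c (List.mem_append_left _ hc)) hred'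
      exact ⟨v, k, v', c, c', e1.trans e, rest⟩
    · refine ⟨u, m, u', m.head hne, m.getLast hne, rfl, hred, ⟨hb, ?_⟩,
        List.head?_eq_some_head hne, List.getLast?_eq_some_getLast hne, h1, h2⟩
      have h3 : cs.IsReduced (m ++ r :: u') := (red_split (u := [r]) (red_split hred).2).2
      exact chain_of_reduced _ (red_split h3).1

/-- powers of an element of infinite order have unbounded length -/
lemma long_power (D : W) (hD : ∀ n : ℕ, 0 < n → D ^ n ≠ 1) (B : ℕ) :
    ∃ K : ℕ, 0 < K ∧ B < cs.length (D ^ K) := by
  by_contra hc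
  push Not at hc
  have hfin : ((fun l => wd l) '' {l : List (Fin 12) | l.length ≤ B}).Finite :=
    (List.finite_length_le (Fin 12) B).image _
  have hinj : Function.Injective fun K : ℕ => D ^ (K + 1) := by
    have hord : ¬ IsOfFinOrder D := by
      rw [isOfFinOrder_iff_pow_eq_one]
      rintro ⟨n, hn, e⟩
      exact hD n hn e
    intro a b hab
    have := (injective_pow_iff_not_isOfFinOrder.2 hord) hab
    omega
  refine Set.infinite_of_injective_forall_mem hinj (fun K => ?_) hfin
  obtain ⟨l, hl, e⟩ := cs.exists_isReduced (D ^ (K + 1))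
  refine ⟨l, ?_, e.symm⟩
  have := hc (K + 1) (by omega)
  rw [e, hl.eq] at this
  exact this

end CW2

end Pool.Agent.Lib.MP_003e01_gt
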