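import Pool.Agent.Lib.MP_003e01_gt.Model

/-! Exact arithmetic: vectors with coordinates in `ℤ[√3]` in the basis of the first three poles. -/

namespace Pool.Agent.Lib.MP_003e01_gt

/-- `(a, b)` stands for `a + b √3` -/
abbrev Z3 : Type := ℤ × ℤ

namespace Z3

def add (x y : Z3) : Z3 := (x.1 + y.1, x.2 + y.2)
def sub (x y : Z3) : Z3 := (x.1 - y.1, x.2 - y.2)
def neg (x : Z3) : Z3 := (-x.1, -x.2)
def mul (x y : Z3) : Z3 := (x.1 * y.1 + 3 * (x.2 * y.2), x.1 * y.2 + x.2 * y.1)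
def pos (x : Z3) : Bool :=
  if 0 ≤ x.1 then (if 0 ≤ x.2 then decide (0 < x.1 + x.2) else decide (3 * (x.2 * x.2) < x.1 * x.1))
  else (if 0 ≤ x.2 then decide (x.1 * x.1 < 3 * (x.2 * x.2)) else false)
noncomputable def toR (x : Z3) : ℝ := x.1 + x.2 * √3

lemma sq3 : √3 * √3 = (3 : ℝ) := Real.mul_self_sqrt (by norm_num)

@[simp] lemma toR_add (x y : Z3) : toR (add x y) = toR x + toR y := by
  simp only [toR, add]; push_cast; ring
@[simp] lemma toR_sub (x y : Z3) : toR (sub x y) = toR x - toR y := by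
  simp only [toR, sub]; push_cast; ring
@[simp] lemma toR_neg (x : Z3) : toR (neg x) = -toR x := by
  simp only [toR, neg]; push_cast; ring
@[simp] lemma toR_mul (x y : Z3) : toR (mul x y) = toR x * toR y := by
  simp only [toR, mul]; push_cast; linear_combination (-(x.2 : ℝ) * y.2) * sq3

lemma pos_iff (x : Z3) : pos x = true ↔ 0 < toR x := by
  have h3 := sq3
  have hp : (0 : ℝ) < √3 := by positivity
  obtain ⟨a, b⟩ := x
  simp only [pos, toR]
  split_ifs with h1 h2 h2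
  · have h1' : (0 : ℝ) ≤ a := by exact_mod_cast h1
    have h2' : (0 : ℝ) ≤ b := by exact_mod_cast h2
    rw [decide_eq_true_iff]
    constructor
    · intro h
      have h' : (0 : ℝ) < a + b := by exact_mod_cast h
      rcases h2'.eq_or_lt with h4 | h4
      · rw [← h4] at h' ⊢; simpa using h'
      · have := mul_pos h4 hp; linarith
    · intro h
      by_contra hc
      have ha : a = 0 := by omega
      have hb : b = 0 := by omega
      simp [ha, hb] at h
  · have h1' : (0 : ℝ) ≤ a := by exact_mod_cast h1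
    have h2' : (b : ℝ) < 0 := by exact_mod_cast (not_le.1 h2)
    have h4 : 0 < (a : ℝ) - b * √3 := by nlinarith [mul_pos (neg_pos.2 h2') hp]
    have h5 : ((a : ℝ) + b * √3) * (a - b * √3) = a * a - 3 * (b * b) := by
      linear_combination (-(b : ℝ) * b) * h3
    rw [decide_eq_true_iff]
    constructor
    · intro h
      have h' : (3 : ℝ) * (b * b) < a * a := by exact_mod_cast h
      exact pos_of_mul_pos_right' h4 (by rw [h5]; linarith)
    · intro h
      have h' : (3 : ℝ) * (b * b) < a * a := by have := mul_pos h h4; linarith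
      exact_mod_cast h'
  · have h1' : (a : ℝ) < 0 := by exact_mod_cast (not_le.1 h1)
    have h2' : (0 : ℝ) ≤ b := by exact_mod_cast h2
    have h4 : 0 < b * √3 - (a : ℝ) := by nlinarith [mul_nonneg h2' hp.le]
    have h5 : ((a : ℝ) + b * √3) * (b * √3 - a) = 3 * (b * b) - a * a := by
      linear_combination ((b : ℝ) * b) * h3
    rw [decide_eq_true_iff]
    constructor
    · intro h
      have h' : (a : ℝ) * a < 3 * (b * b) := by exact_mod_cast h
      exact pos_of_mul_pos_right' h4 (by rw [h5]; linarith)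
    · intro h
      have h' : (a : ℝ) * a < 3 * (b * b) := by have := mul_pos h h4; linarith
      exact_mod_cast h'
  · have h1' : (a : ℝ) < 0 := by exact_mod_cast (not_le.1 h1)
    have h2' : (b : ℝ) < 0 := by exact_mod_cast (not_le.1 h2)
    simp only [Bool.false_eq_true, false_iff, not_lt]
    nlinarith [mul_pos (neg_pos.2 h2') hp]
where
  pos_of_mul_pos_right' {u v : ℝ} (hv : 0 < v) (h : 0 < u * v) : 0 < u :=
    (mul_pos_iff_of_pos_right hv).1 h

end Z3

open Z3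

abbrev ZV : Type := Z3 × Z3 × Z3

noncomputable def toV (v : ZV) : V := toR v.1 • pole 0 + toR v.2.1 • pole 1 + toR v.2.2 • pole 2

def addZ (u v : ZV) : ZV := (add u.1 v.1, add u.2.1 v.2.1, add u.2.2 v.2.2)
def subZ (u v : ZV) : ZV := (sub u.1 v.1, sub u.2.1 v.2.1, sub u.2.2 v.2.2)
def negZ (v : ZV) : ZV := (neg v.1, neg v.2.1, neg v.2.2)
def smulZ (c : Z3) (v : ZV) : ZV := (mul c v.1, mul c v.2.1, mul c v.2.2)
def lorZ (u v : ZV) : Z3 :=
  add (add (add (mul u.1 v.1) (mul u.2.1 v.2.1)) (mul u.2.2 v.2.2))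
    (mul (-1, -1) (add (mul u.1 v.2.2) (mul u.2.2 v.1)))
def detZ (x y z : ZV) : Z3 :=
  add (sub (mul x.1 (sub (mul y.2.1 z.2.2) (mul y.2.2 z.2.1)))
    (mul x.2.1 (sub (mul y.1 z.2.2) (mul y.2.2 z.1))))
    (mul x.2.2 (sub (mul y.1 z.2.1) (mul y.2.1 z.1)))

def poleZ : Fin 12 → ZV := ![
  ((1, 0), (0, 0), (0, 0)),
  ((0, 0), (1, 0), (0, 0)),
  ((0, 0), (0, 0), (1, 0)),
  ((1, 0), (-1, -1), (1, 1)),
  ((1, 1), (-3, -2), (3, 1)),
  ((3, 1), (-5, -3), (3, 2)),
  ((3, 2), (-6, -4), (4, 2)),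
  ((4, 2), (-7, -4), (4, 2)),
  ((4, 2), (-6, -4), (3, 2)),
  ((3, 2), (-5, -3), (3, 1)),
  ((3, 1), (-3, -2), (1, 1)),
  ((1, 1), (-1, -1), (1, 0))]

/-- poles of the six curves `sC 0, sC 1, sC 2, eC 0, eC 1, eC 2` -/
def nZ : Fin 6 → ZV := ![
  ((1892, 479), (-83, -746), (976, -775)),
  ((-880, -323), (2023, -496), (1642, -223)),
  ((6320, 1947), (-8249, -6090), (4714, 3101)),
  ((-5, -2), (9, 5), (-5, -3)),
  ((-2, -2), (3, 2), (-2, 0)),
  ((1, 1), (-3, -1), (1, 0))]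

/-- tiles met by the axes, modulo translation -/
def TL : Fin 6 → List (List (Fin 12)) := ![
  [[], [1], [9], [1, 0], [9, 6], [1, 0, 11], [9, 6, 3], [1, 0, 11, 3], [9, 6, 3, 11], [1, 0, 11, 3, 5], [9, 6, 3, 11, 0], [1, 0, 11, 3, 5, 7], [9, 6, 3, 11, 0, 1], [1, 0, 11, 3, 5, 7, 3], [9, 6, 3, 11, 0, 1, 9], [1, 0, 11, 3, 5, 7, 3, 0], [9, 6, 3, 11, 0, 1, 9, 7], [1, 0, 11, 3, 5, 7, 3, 0, 9]],
  [[], [1], [5], [1, 10], [5, 4], [1, 10, 7], [5, 4, 3], [1, 10, 7, 3], [5, 4, 3, 7], [1, 10, 7, 3, 4], [5, 4, 3, 7, 9], [1, 10, 7, 3, 4, 5], [5, 4, 3, 7, 9, 11], [1, 10, 7, 3, 4, 5, 1], [5, 4, 3, 7, 9, 11, 7], [1, 10, 7, 3, 4, 5, 1, 11], [5, 4, 3, 7, 9, 11, 7, 4], [1, 10, 7, 3, 4, 5, 1, 11, 9]],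
  [[], [5], [9], [5, 2], [9, 8], [5, 2, 11], [9, 8, 7], [5, 2, 11, 7], [9, 8, 7, 11], [5, 2, 11, 7, 8], [9, 8, 7, 11, 1], [5, 2, 11, 7, 8, 9], [9, 8, 7, 11, 1, 3], [5, 2, 11, 7, 8, 9, 5], [9, 8, 7, 11, 1, 3, 11], [5, 2, 11, 7, 8, 9, 5, 3], [9, 8, 7, 11, 1, 3, 11, 8], [5, 2, 11, 7, 8, 9, 5, 3, 1]],
  [[], [4]],
  [[], [0]],
  [[], [0]]]


def reflZ (i : Fin 12) (v : ZV) : ZV := subZ v (smulZ (mul (2, 0) (lorZ v (poleZ i))) (poleZ i))

/-- action of a word -/
def actZ (l : List (Fin 12)) (v : ZV) : ZV := l.foldr reflZ v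

/-- a positive multiple of `x0` -/
def x0Z : ZV := ((1, 0), (0, -1), (1, 0))

/-- the words of the six curves -/
def cvL : Fin 6 → List (Fin 12) := ![sWord.map (rot 0), sWord.map (rot 1), sWord.map (rot 2),
  [rot 0 4, rot 0 8], [rot 1 4, rot 1 8], [rot 2 4, rot 2 8]]

/-- the six curves -/
noncomputable def cvG : Fin 6 → G := ![sC 0, sC 1, sC 2, eC 0, eC 1, eC 2]

lemma cvG_val (b : Fin 6) : (cvG b).1 = wd (cvL b) := by fin_cases b <;> rfl

lemma toV_add (u v : ZV) : toV (addZ u v) = toV u + toV v := by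
  simp only [toV, addZ, toR_add]; module
lemma toV_sub (u v : ZV) : toV (subZ u v) = toV u - toV v := by
  simp only [toV, subZ, toR_sub]; module
lemma toV_neg (v : ZV) : toV (negZ v) = -toV v := by
  simp only [toV, negZ, toR_neg]; module
lemma toV_smul (c : Z3) (v : ZV) : toV (smulZ c v) = toR c • toV v := by
  simp only [toV, smulZ, toR_mul]; module

lemma cos_nat (k : ℕ) : Real.cos (((k + 2 : ℕ) : ℝ) * Real.pi / 6) =
    √3 * Real.cos (((k + 1 : ℕ) : ℝ) * Real.pi / 6) - Real.cos ((k : ℝ) * Real.pi / 6) := by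
  have e1 : ((k + 2 : ℕ) : ℝ) * Real.pi / 6 = ((k + 1 : ℕ) : ℝ) * Real.pi / 6 + Real.pi / 6 := by
    push_cast; ring
  have e2 : (k : ℝ) * Real.pi / 6 = ((k + 1 : ℕ) : ℝ) * Real.pi / 6 - Real.pi / 6 := by
    push_cast; ring
  rw [e1, e2, Real.cos_add, Real.cos_sub, Real.cos_pi_div_six]; ring

lemma sin_nat (k : ℕ) : Real.sin (((k + 2 : ℕ) : ℝ) * Real.pi / 6) =
    √3 * Real.sin (((k + 1 : ℕ) : ℝ) * Real.pi / 6) - Real.sin ((k : ℝ) * Real.pi / 6) := by
  have e1 : ((k + 2 : ℕ) : ℝ) * Real.pi / 6 = ((k + 1 : ℕ) : ℝ) * Real.pi / 6 + Real.pi / 6 := by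
    push_cast; ring
  have e2 : (k : ℝ) * Real.pi / 6 = ((k + 1 : ℕ) : ℝ) * Real.pi / 6 - Real.pi / 6 := by
    push_cast; ring
  rw [e1, e2, Real.sin_add, Real.sin_sub, Real.cos_pi_div_six]; ring

/-- poles indexed by natural numbers -/
noncomputable def poleN (k : ℕ) : V :=
  ![√(4 + 2 * √3) * Real.cos (k * Real.pi / 6), √(4 + 2 * √3) * Real.sin (k * Real.pi / 6),
    √(3 + 2 * √3)]

lemma poleN_rec (k : ℕ) :
    poleN (k + 3) = (1 + √3) • poleN (k + 2) - (1 + √3) • poleN (k + 1) + poleN k := by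
  have c1 := cos_nat k
  have c2 := cos_nat (k + 1)
  have s1 := sin_nat k
  have s2 := sin_nat (k + 1)
  ext j
  fin_cases j
  · simp only [poleN, Pi.add_apply, Pi.sub_apply, Pi.smul_apply, smul_eq_mul, Fin.zero_eta,
      Matrix.cons_val_zero]
    rw [show k + 3 = k + 1 + 2 from rfl, c2, show k + 1 + 1 = k + 2 from rfl, c1]; ring
  · simp only [poleN, Pi.add_apply, Pi.sub_apply, Pi.smul_apply, smul_eq_mul, Fin.mk_one,
      Matrix.cons_val_one, Matrix.cons_val_zero]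
    rw [show k + 3 = k + 1 + 2 from rfl, s2, show k + 1 + 1 = k + 2 from rfl, s1]; ring
  · simp [poleN]

lemma poleZ_rec : ∀ j : Fin 9, poleZ ⟨j.1 + 3, by omega⟩ =
    addZ (subZ (smulZ (1, 1) (poleZ ⟨j.1 + 2, by omega⟩))
      (smulZ (1, 1) (poleZ ⟨j.1 + 1, by omega⟩))) (poleZ ⟨j.1, by omega⟩) := by decide

lemma toV_pole (i : Fin 12) : toV (poleZ i) = pole i := by
  have key : ∀ k : ℕ, ∀ h : k < 12, toV (poleZ ⟨k, h⟩) = poleN k := by
    intro k
    induction k using Nat.strong_induction_on with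
    | _ k ih =>
      intro h
      match k, h, ih with
      | 0, _, _ => show toV ((1, 0), (0, 0), (0, 0)) = pole 0; simp [toV, toR]
      | 1, _, _ => show toV ((0, 0), (1, 0), (0, 0)) = pole 1; simp [toV, toR]
      | 2, _, _ => show toV ((0, 0), (0, 0), (1, 0)) = pole 2; simp [toV, toR]
      | k + 3, h, ih =>
        have hr := poleZ_rec
        have h1 : toR (1, 1) = 1 + √3 := by simp [toR]
        rw [hr ⟨k, by omega⟩, toV_add, toV_sub, toV_smul, toV_smul, ih (k + 2) (by omega),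
          ih (k + 1) (by omega), ih k (by omega), poleN_rec, h1]
  exact key i.1 i.2

lemma lor_pole02 : lor (pole 0) (pole 2) = -1 - √3 := by
  rw [lor_pole_sub]
  have : (((0 : Fin 12) : ℝ) - ((2 : Fin 12) : ℝ)) * Real.pi / 6 = -(Real.pi / 3) := by
    have e1 : ((0 : Fin 12) : ℕ) = 0 := rfl
    have e2 : ((2 : Fin 12) : ℕ) = 2 := rfl
    rw [e1, e2]; push_cast; ring
  rw [this, Real.cos_neg, Real.cos_pi_div_three]; ring

lemma lor_toV (u v : ZV) : lor (toV u) (toV v) = toR (lorZ u v) := by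
  have h01 : lor (pole 0) (pole 1) = 0 := lor_pole_succ 0
  have h12 : lor (pole 1) (pole 2) = 0 := lor_pole_succ 1
  have h10 : lor (pole 1) (pole 0) = 0 := by rw [lor_comm]; exact h01
  have h21 : lor (pole 2) (pole 1) = 0 := by rw [lor_comm]; exact h12
  have h20 : lor (pole 2) (pole 0) = -1 - √3 := by rw [lor_comm]; exact lor_pole02
  have h1 : toR (-1, -1) = -1 - √3 := by simp [toR]; ring
  simp only [toV, lorZ, lor_add_left, lor_add_right, lor_smul_left, lor_smul_right, lor_pole_self,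
    h01, h12, h10, h21, h20, lor_pole02, toR_add, toR_mul, h1]
  ring

/-- the Gram matrix of the poles -/
lemma lor_pole_pole (i j : Fin 12) : lor (pole i) (pole j) = toR (lorZ (poleZ i) (poleZ j)) := by
  rw [← lor_toV, toV_pole, toV_pole]

lemma toV_refl (i : Fin 12) (v : ZV) : toV (reflZ i v) = sr i • toV v := by
  have h2 : toR (2, 0) = 2 := by simp [toR]
  rw [reflZ, toV_sub, toV_smul, toR_mul, ← lor_toV, toV_pole, sr_smul, h2]

lemma toV_act (l : List (Fin 12)) (v : ZV) : toV (actZ l v) = wd l • toV v := by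
  induction l with
  | nil => simp [actZ]
  | cons i l ih =>
    rw [wd, CoxeterSystem.wordProd_cons, mul_smul, ← ih, ← toV_refl]; rfl

lemma toV_x0 : ∃ c : ℝ, 0 < c ∧ toV x0Z = c • x0.1 := by
  have h3 := sq3
  have hlt : √3 < 2 := by nlinarith [Real.sqrt_nonneg 3]
  refine ⟨(2 - √3) * √(3 + 2 * √3), mul_pos (by linarith) (by positivity), ?_⟩
  have c1 := cos_nat 0
  have s1 := sin_nat 0
  have e : toV x0Z = poleN 0 - √3 • poleN 1 + poleN 2 := by
    have e0 : pole 0 = poleN 0 := rfl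
    have e1 : pole 1 = poleN 1 := rfl
    have e2 : pole 2 = poleN 2 := rfl
    simp only [toV, x0Z, toR, e0, e1, e2]; push_cast; module
  rw [e]
  ext j
  fin_cases j
  · simp only [poleN, Pi.add_apply, Pi.sub_apply, Pi.smul_apply, smul_eq_mul, Fin.zero_eta,
      Matrix.cons_val_zero, x0]
    simp only [zero_add] at c1; linear_combination √(4 + 2 * √3) * c1
  · simp only [poleN, Pi.add_apply, Pi.sub_apply, Pi.smul_apply, smul_eq_mul, Fin.mk_one,
      Matrix.cons_val_one, Matrix.cons_val_zero, x0]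
    simp only [zero_add] at s1; linear_combination √(4 + 2 * √3) * s1
  · simp [poleN, x0]; ring

lemma det3_toV : ∃ c : ℝ, 0 < c ∧ ∀ x y z : ZV,
    det3 (toV x) (toV y) (toV z) = c * toR (detZ x y z) := by
  refine ⟨det3 (pole 0) (pole 1) (pole 2), ?_, fun x y z => ?_⟩
  · have h3 := sq3
    have hlt : √3 < 2 := by nlinarith [Real.sqrt_nonneg 3]
    have e0 : pole 0 = poleN 0 := rfl
    have e1 : pole 1 = poleN 1 := rfl
    have e2 : pole 2 = poleN 2 := rfl
    have a2 : ((2 : ℕ) : ℝ) * Real.pi / 6 = Real.pi / 3 := by push_cast; ring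
    have hA : 0 < √(4 + 2 * √3) := by positivity
    have hB : 0 < √(3 + 2 * √3) := by positivity
    have : det3 (pole 0) (pole 1) (pole 2) =
        √(4 + 2 * √3) * √(4 + 2 * √3) * √(3 + 2 * √3) * (1 - √3 / 2) := by
      simp only [det3, e0, e1, e2, poleN, a2, Matrix.cons_val_zero, Matrix.cons_val_one,
        Matrix.cons_val, Nat.cast_zero, Nat.cast_one, zero_mul, one_mul, zero_div, Real.cos_zero,
        Real.sin_zero, Real.cos_pi_div_six, Real.sin_pi_div_six, Real.cos_pi_div_three,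
        Real.sin_pi_div_three]
      linear_combination (√(4 + 2 * √3) * √(4 + 2 * √3) * √(3 + 2 * √3) / 4) * h3
    rw [this]
    exact mul_pos (by positivity) (by linarith)
  · simp only [det3, toV, detZ, toR_add, toR_sub, toR_mul, Pi.add_apply, Pi.smul_apply, smul_eq_mul]
    ring

end Pool.Agent.Lib.MP_003e01_gt
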