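import Pool.Agent.Lib.MP_003e01_gt.Blue

/-! Block D1: homeomorphisms and loops of the surface, lifted to the plane. -/

open Set Topology unitInterval

namespace Pool.Agent.Lib.MP_003e01_gt

namespace D1

variable {S : Type} [TopologicalSpace S] {p : X → S} (hp : IsQuotientCoveringMap p G)

lemma cont_smul (g : G) : Continuous fun x : X => g • x := continuous_const_smul g.1

include hp

lemma cancel {g g' : G} {x : X} (h : g • x = g' • x) : g = g' :=
  have := hp.isCancelSMul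
  IsCancelSMul.right_cancel _ _ x h

lemma lift_eq {A : Type} [TopologicalSpace A] [PreconnectedSpace A] {u v : A → X}
    (hu : Continuous u) (hv : Continuous v) (h : ∀ a, p (u a) = p (v a)) (a : A)
    (ha : u a = v a) (b : A) : u b = v b :=
  congrFun (hp.isCoveringMap.eq_of_comp_eq hu hv (funext h) a ha) b

lemma two_lifts {A : Type} [TopologicalSpace A] [PreconnectedSpace A] [Nonempty A] {u v : A → X}
    (hu : Continuous u) (hv : Continuous v) (h : ∀ a, p (u a) = p (v a)) :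
    ∃ g : G, ∀ a, u a = g • v a := by
  obtain ⟨a⟩ := ‹Nonempty A›
  obtain ⟨g, hg⟩ := hp.apply_eq_iff_mem_orbit.1 (h a)
  exact ⟨g, lift_eq hp hu ((cont_smul g).comp hv) (fun b => (h b).trans (hp.map_smul g).symm) a
    hg.symm⟩

lemma lift_ex {A : Type} [TopologicalSpace A] [SimplyConnectedSpace A]
    [LocallyPathConnectedSpace A] {f : A → S} (hf : Continuous f) (a : A) (e : X)
    (he : p e = f a) : ∃ F : A → X, Continuous F ∧ F a = e ∧ ∀ x, p (F x) = f x := by
  obtain ⟨F, ⟨h1, h2⟩, -⟩ := hp.isCoveringMap.existsUnique_continuousMap_lifts ⟨f, hf⟩ a e he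
  exact ⟨F, F.continuous, h1, congrFun h2⟩

/-- lifting a homotopy together with a symmetry -/
lemma lift_htpy {A : Type} [TopologicalSpace A] {K : I × A → S} (hK : Continuous K) {F : A → X}
    (hF : Continuous F) (h0 : ∀ a, K (0, a) = p (F a)) : ∃ F' : A → X, Continuous F' ∧
      (∀ a, p (F' a) = K (1, a)) ∧ ∀ (g : G) (a b : A), (∀ t, K (t, b) = K (t, a)) →
        F b = g • F a → F' b = g • F' a := by
  let L := hp.isCoveringMap.liftHomotopy ⟨K, hK⟩ ⟨F, hF⟩ h0
  have l1 : ∀ q, p (L q) = K q := congrFun (hp.isCoveringMap.liftHomotopy_lifts ⟨K, hK⟩ ⟨F, hF⟩ h0)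
  have l0 : ∀ a, L (0, a) = F a := hp.isCoveringMap.liftHomotopy_zero ⟨K, hK⟩ ⟨F, hF⟩ h0
  refine ⟨fun a => L (1, a), by fun_prop, fun a => l1 _, fun g a b h1 h2 => ?_⟩
  exact lift_eq hp (u := fun t => L (t, b)) (v := fun t => g • L (t, a)) (by fun_prop)
    ((cont_smul g).comp (by fun_prop)) (fun t => by rw [hp.map_smul, l1, l1, h1]) 0
    (by rw [l0, l0, h2]) 1

lemma ex [ContractibleSpace X] [LocallyPathConnectedSpace X] (f : S ≃ₜ S) :
    ∃ α, Induces p f α := by
  have pc := hp.isCoveringMap.continuous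
  obtain ⟨e, he⟩ := hp.surjective (f (p x0))
  obtain ⟨F, c1, e1, l1⟩ := lift_ex hp (f.continuous.comp pc) x0 e he
  obtain ⟨F', c2, e2, l2⟩ := lift_ex hp (f.symm.continuous.comp pc) e x0 (by simp [he])
  have i1 : ∀ x, F' (F x) = x :=
    lift_eq hp (c2.comp c1) continuous_id (fun x => by simp [l1, l2]) x0 (by simp [e1, e2])
  have i2 : ∀ x, F (F' x) = x :=
    lift_eq hp (c1.comp c2) continuous_id (fun x => by simp [l1, l2]) e (by simp [e1, e2])
  choose a ha using fun g : G => two_lifts hp (c1.comp (cont_smul g)) c1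
    fun x => by simp [l1, hp.map_smul]
  choose b hb using fun g : G => two_lifts hp (c2.comp (cont_smul g)) c2
    fun x => by simp [l2, hp.map_smul]
  simp only [Function.comp] at ha hb
  refine ⟨⟨⟨a, b, fun g => cancel hp (x := x0) ?_, fun g => cancel hp (x := x0) ?_⟩,
    fun g g' => cancel hp (x := F x0) ?_⟩, ⟨⟨F, F', i1, i2⟩, c1, c2⟩, l1, ha⟩
  · rw [← i1 (g • x0), ha, hb, i1]
  · rw [← i2 (g • x0), hb, ha, i2]
  · simp only
    rw [← ha, mul_smul, mul_smul, ha, ha]

lemma uniq [PreconnectedSpace X] {f : S ≃ₜ S} {α α' : MulAut G} (h : Induces p f α)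
    (h' : Induces p f α') : Inner (α⁻¹ * α') := by
  obtain ⟨F, l1, e1⟩ := h
  obtain ⟨F', l2, e2⟩ := h'
  have : Nonempty X := ⟨x0⟩
  obtain ⟨γ, hγ⟩ := two_lifts hp F'.continuous F.continuous fun x => by rw [l1, l2]
  refine ⟨α⁻¹ γ, fun g => ?_⟩
  have : α' g * γ = γ * α g := cancel hp (x := F x0) (by
    rw [mul_smul, mul_smul, ← hγ, ← e1, ← e2, hγ])
  rw [MulAut.mul_apply, eq_mul_inv_of_mul_eq this, map_mul, map_mul, map_inv]
  simp

omit hp in
lemma seg_lor (hb : StmtB1) (t : I) (a b : X) :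
    lor ((1 - t : ℝ) • a.1 + (t : ℝ) • b.1) ((1 - t : ℝ) • a.1 + (t : ℝ) • b.1) ≤ -1 := by
  simp only [lor_add_left, lor_add_right, lor_smul_left, lor_smul_right, a.2.1, b.2.1,
    lor_comm b.1 a.1]
  nlinarith [mul_nonneg (mul_nonneg t.2.1 (sub_nonneg.2 t.2.2))
    (sub_nonneg.2 (hb.revCS a b).1)]

/-- normalised segment -/
noncomputable def seg (hb : StmtB1) (t : I) (a b : X) : X :=
  ⟨(√(-lor ((1 - t : ℝ) • a.1 + (t : ℝ) • b.1) ((1 - t : ℝ) • a.1 + (t : ℝ) • b.1)))⁻¹ •
      ((1 - t : ℝ) • a.1 + (t : ℝ) • b.1), by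
    have h := seg_lor hb t a b
    generalize (1 - t : ℝ) • a.1 + (t : ℝ) • b.1 = v at *
    have h1 : 0 < √(-lor v v) := Real.sqrt_pos.2 (by linarith)
    have h2 : √(-lor v v) * √(-lor v v) = -lor v v := Real.mul_self_sqrt (by linarith)
    rw [lor_smul_left, lor_smul_right]
    field_simp
    linarith, by
    have h := seg_lor hb t a b
    refine mul_pos (inv_pos.2 (Real.sqrt_pos.2 (by linarith))) ?_
    have := a.2.2
    have := b.2.2
    simp only [Pi.add_apply, Pi.smul_apply, smul_eq_mul]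
    rcases le_total (a.1 2) (b.1 2) with h | h <;> nlinarith [t.2.1, t.2.2]⟩

omit hp in
lemma seg_zero (hb : StmtB1) (a b : X) : seg hb 0 a b = a := Subtype.ext (by simp [seg, a.2.1])

omit hp in
lemma seg_one (hb : StmtB1) (a b : X) : seg hb 1 a b = b := Subtype.ext (by simp [seg, b.2.1])

omit hp in
lemma seg_smul (hb : StmtB1) (t : I) (g : G) (a b : X) :
    seg hb t (g • a) (g • b) = g • seg hb t a b := by
  apply Subtype.ext
  have e : (1 - t : ℝ) • (g • a).1 + (t : ℝ) • (g • b).1 =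
      g.1 • ((1 - t : ℝ) • a.1 + (t : ℝ) • b.1) := by
    rw [smul_add_V, smul_smul_V, smul_smul_V]
    rfl
  change _ • ((1 - t : ℝ) • (g • a).1 + (t : ℝ) • (g • b).1) = g.1 • (_ • _)
  rw [e, lor_smul, smul_smul_V]

omit hp in
lemma seg_cont (hb : StmtB1) {A : Type} [TopologicalSpace A] {t : A → I} {a b : A → X}
    (ht : Continuous t) (ha : Continuous a) (hc : Continuous b) :
    Continuous fun x => seg hb (t x) (a x) (b x) := by
  refine Continuous.subtype_mk ?_ _
  have h1 : Continuous fun x => (a x).1 := continuous_subtype_val.comp ha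
  have h2 : Continuous fun x => (b x).1 := continuous_subtype_val.comp hc
  have h3 : Continuous fun x => (1 - t x : ℝ) • (a x).1 + (t x : ℝ) • (b x).1 := by fun_prop
  refine Continuous.smul (Continuous.inv₀ (Real.continuous_sqrt.comp
    (continuous_lor.comp (h3.prodMk h3)).neg) fun x => ?_) h3
  exact (Real.sqrt_pos.2 (neg_pos.2 ((seg_lor hb (t x) (a x) (b x)).trans_lt (by norm_num)))).ne'

lemma inner_iff (hb : StmtB1) [PreconnectedSpace X] (f : S ≃ₜ S) (α : MulAut G)
    (h : Induces p f α) : Inner α ↔ (f : C(S, S)).Homotopic (ContinuousMap.id S) := by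
  obtain ⟨F, l1, e1⟩ := h
  have pc := hp.isCoveringMap.continuous
  refine ⟨fun ⟨γ, hγ⟩ => ?_, fun ⟨K⟩ => ?_⟩
  · choose r hr using hp.surjective
    have key : ∀ (t : I) (x : X), p (seg hb t (γ⁻¹ • F (r (p x))) (r (p x))) =
        p (seg hb t (γ⁻¹ • F x) x) := fun t x => by
      obtain ⟨g, hg⟩ := hp.apply_eq_iff_mem_orbit.1 (hr (p x))
      rw [← hg, e1, hγ, ← mul_smul, show γ⁻¹ * (γ * g * γ⁻¹) = g * γ⁻¹ by group, mul_smul,
        seg_smul, hp.map_smul]
    refine ⟨⟨⟨fun q => p (seg hb q.1 (γ⁻¹ • F (r q.2)) (r q.2)), ?_⟩, fun s => ?_, fun s => ?_⟩⟩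
    · rw [(IsOpenQuotientMap.id.prodMap hp.isOpenQuotientMap).isQuotientMap.continuous_iff]
      exact (pc.comp (seg_cont hb continuous_fst ((cont_smul γ⁻¹).comp
        (F.continuous.comp continuous_snd)) continuous_snd)).congr fun q => (key q.1 q.2).symm
    · simp [seg_zero, hp.map_smul, l1, hr]
    · simp [seg_one, hr]
  · obtain ⟨F', c, l, e⟩ := lift_htpy hp (K := fun q => K (q.1, p q.2)) (by fun_prop)
      F.continuous fun x => by simp [l1]
    have : Nonempty X := ⟨x0⟩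
    obtain ⟨γ, hγ⟩ := two_lifts hp c continuous_id fun x => by simp [l]
    refine ⟨γ, fun g => eq_mul_inv_of_mul_eq (cancel hp (x := x0) ?_)⟩
    have := e (α g) x0 (g • x0) (fun t => by simp [hp.map_smul]) (e1 g x0)
    rw [hγ, hγ] at this
    rw [mul_smul, mul_smul]
    exact this.symm

omit hp in
lemma exp_add_one (t : ℝ) : Circle.exp (2 * Real.pi * (t + 1)) = Circle.exp (2 * Real.pi * t) :=
  Circle.exp_eq_exp.2 ⟨1, by push_cast; ring⟩

lemma rep_ex (c : C(Circle, S)) : ∃ g, Rep p c g := by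
  obtain ⟨e, he⟩ := hp.surjective (c (Circle.exp (2 * Real.pi * 0)))
  obtain ⟨γ, c1, -, l1⟩ := lift_ex hp (f := fun t : ℝ => c (Circle.exp (2 * Real.pi * t)))
    (by fun_prop) 0 e he
  obtain ⟨g, hg⟩ := two_lifts hp (u := fun t => γ (t + 1)) (by fun_prop) c1
    fun t => by rw [l1, l1, exp_add_one]
  exact ⟨g, γ, c1, l1, hg⟩

lemma rep_one [ContractibleSpace X] (c : C(Circle, S)) (h : Rep p c 1) : c.Nullhomotopic := by
  obtain ⟨γ, c1, l1, e1⟩ := h
  have per : Function.Periodic γ 1 := fun t => by rw [e1, one_smul]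
  choose r hr using Circle.exp_surjective
  have key : ∀ t, γ (r (Circle.exp t) / (2 * Real.pi)) = γ (t / (2 * Real.pi)) := fun t => by
    obtain ⟨m, hm⟩ := Circle.exp_eq_exp.1 (hr (Circle.exp t))
    rw [hm, add_div, mul_div_assoc, div_self (by positivity)]
    exact per.int_mul m _
  have c2 : Continuous fun z => γ (r z / (2 * Real.pi)) := by
    rw [Circle.isAddQuotientCoveringMap_exp.toIsQuotientMap.continuous_iff]
    exact (c1.comp (continuous_id.div_const _)).congr fun t => (key t).symm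
  have : c = (ContinuousMap.mk p hp.isCoveringMap.continuous).comp
      ((ContinuousMap.id X).comp ⟨_, c2⟩) := by
    ext z
    simp [l1, mul_div_cancel₀ _ (by positivity : 2 * Real.pi ≠ 0), hr]
  rw [this]
  exact ((id_nullhomotopic X).comp_left _).comp_right _

lemma rep_htpy {c d : C(Circle, S)} {g : G} (h : c.Homotopic d) (hc : Rep p c g) : Rep p d g := by
  obtain ⟨K⟩ := h
  obtain ⟨γ, c1, l1, e1⟩ := hc
  obtain ⟨F', c, l, e⟩ := lift_htpy hp (K := fun q => K (q.1, Circle.exp (2 * Real.pi * q.2)))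
    (by fun_prop) c1 fun x => by simp [l1]
  exact ⟨F', c, fun t => by simp [l], fun t =>
    e g t (t + 1) (fun s => by simp only [exp_add_one]) (e1 t)⟩

lemma rep_conj {c : C(Circle, S)} {g h : G} (hg : Rep p c g) (hh : Rep p c h) : IsConj g h := by
  obtain ⟨γ, c1, l1, e1⟩ := hg
  obtain ⟨γ', c2, l2, e2⟩ := hh
  obtain ⟨δ, hδ⟩ := two_lifts hp c2 c1 fun t => by rw [l1, l2]
  refine isConj_iff.2 ⟨δ, (eq_mul_inv_of_mul_eq (cancel hp (x := γ 0) ?_)).symm⟩
  rw [mul_smul, mul_smul, ← hδ, ← e1, ← e2, hδ]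

omit hp in
lemma rep_inv {c : C(Circle, S)} {g : G}
    (h : Rep p (c.comp ⟨fun z => z⁻¹, continuous_inv⟩) g) : Rep p c g⁻¹ := by
  obtain ⟨γ, c1, l1, e1⟩ := h
  refine ⟨fun t => γ (-t), by fun_prop, fun t => by simp [l1], fun t => ?_⟩
  rw [eq_inv_smul_iff, ← e1]
  congr 1
  ring

end D1

open D1 in
theorem blockD1 (h : Geo) : StmtD1 := by
  intro S _ p hp
  obtain ⟨e⟩ := h.b1.homeo
  have := e.contractibleSpace
  have := e.isOpenEmbedding.locallyPathConnectedSpace
  refine ⟨ex hp, fun _ _ _ => uniq hp, inner_iff hp h.b1, rep_ex hp, rep_one hp,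
    fun c d g g' hs hc hd => ?_, fun c g f α ⟨γ, c1, l1, e1⟩ ⟨F, l2, e2⟩ => ?_⟩
  · exact hs.imp (fun a => rep_conj hp (rep_htpy hp a hc) hd)
      fun a => rep_conj hp (rep_inv (rep_htpy hp a hc)) hd
  · exact ⟨F ∘ γ, F.continuous.comp c1, fun t => by simp [l2, l1], fun t => by simp [e1, e2]⟩

end Pool.Agent.Lib.MP_003e01_gt
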