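import Pool.Agent.Lib.MP_003e01_gt.Ax

/-! Block D1b: an embedded loop represents an element whose lifts do not cross. -/

open Set Topology Filter

namespace Pool.Agent.Lib.MP_003e01_gt

namespace D1b

lemma shift {γ : ℝ → X} {x : G} (h : ∀ t, γ (t + 1) = x • γ t) (m : ℤ) (t : ℝ) :
    γ (t + m) = x ^ m • γ t := by
  induction m using Int.induction_on generalizing t with
  | zero => simp
  | succ m ih =>
    push_cast at ih ⊢
    rw [← add_assoc, h, ih, ← mul_smul, ← zpow_one_add, add_comm]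
  | pred m ih =>
    push_cast at ih ⊢
    have := h (t + (-m - 1))
    rw [show t + (-(m : ℝ) - 1) + 1 = t + -m by ring, ih] at this
    rw [sub_eq_neg_add (-(m : ℤ)), zpow_add, zpow_neg_one, mul_smul, this, inv_smul_smul]

lemma bdd {γ : ℝ → X} (hc : Continuous γ) {x : G} (h : ∀ t, γ (t + 1) = x • γ t) {a : Axis}
    (ha : a.For x.1) : ∃ K, ∀ t, |lor (γ t).1 a.n| ≤ K := by
  have hp : Function.Periodic (fun t => |lor (γ t).1 a.n|) 1 := fun t => by
    have : (x • γ t).1 = a.flow 1 (γ t).1 := ha _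
    simp only [h, this, a.lor_flow_n]
  have hcont : Continuous fun t => |lor (γ t).1 a.n| := ((continuous_lor_left _).comp hc).abs
  obtain ⟨K, hK⟩ := (hp.isBounded_of_continuous one_ne_zero hcont).bddAbove
  exact ⟨K, fun t => hK ⟨t, rfl⟩⟩

lemma neg_prod (a : Axis) {n : V} (hn : lor n n = 1) (h : |lor a.n n| < 1) :
    lor n a.η * lor n a.ξ < 0 := by
  have h1 := Ax.lor_self a n
  have h2 : lor n a.n ^ 2 < 1 := by
    rw [lor_comm]
    exact (sq_lt_one_iff_abs_lt_one _).2 h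
  linarith

lemma big {u v L : ℝ} (hu : 0 < u) (hL : 0 < L) (K : ℝ) :
    ∃ m : ℕ, K < Real.exp (m * L) * u + Real.exp (-(m * L)) * v := by
  obtain ⟨m, hm⟩ := exists_nat_gt ((K + |v|) / (u * L))
  refine ⟨m, ?_⟩
  have h1 : m * L + 1 ≤ Real.exp (m * L) := Real.add_one_le_exp _
  have h2 : Real.exp (-(m * L)) ≤ 1 := Real.exp_le_one_iff.2 (neg_nonpos.2 (by positivity))
  have h3 := Real.exp_pos (-(m * L))
  rw [div_lt_iff₀ (mul_pos hu hL)] at hm
  have h4 : -|v| ≤ Real.exp (-(m * L)) * v := by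
    have := neg_abs_le v
    have := abs_nonneg v
    nlinarith
  nlinarith

lemma unb {γ : ℝ → X} {x : G} (h : ∀ t, γ (t + 1) = x • γ t) {a : Axis} (ha : a.For x.1) {n : V}
    (hn : lor n a.η * lor n a.ξ < 0) (K : ℝ) : ∃ s, K < lor (γ s).1 n := by
  have e : ∀ m : ℤ, lor (γ m).1 n = Real.exp (m * a.L) * (-lor (γ 0).1 a.η * lor n a.ξ) +
      Real.exp (-(m * a.L)) * (-lor (γ 0).1 a.ξ * lor n a.η) + lor (γ 0).1 a.n * lor n a.n := by
    intro m
    have h1 := shift h m 0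
    have h2 : (x ^ m • γ 0).1 = a.flow m (γ 0).1 := Ax.zpow a ha m _
    rw [zero_add] at h1
    rw [h1, h2, Ax.flow_eq]
    simp only [lor_add_left, lor_smul_left, lor_comm n]
    ring
  have h1 := neg_pos.2 (lor_null_neg (γ 0) a.hη)
  have h2 := neg_pos.2 (lor_null_neg (γ 0) a.hξ)
  rcases mul_neg_iff.1 hn with ⟨p1, -⟩ | ⟨-, p2⟩
  · obtain ⟨m, hm⟩ := big (v := -lor (γ 0).1 a.η * lor n a.ξ) (mul_pos h2 p1) a.hL
      (K - lor (γ 0).1 a.n * lor n a.n)
    refine ⟨(-(m : ℤ) : ℤ), ?_⟩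
    rw [e]
    push_cast
    rw [neg_mul, neg_neg]
    linarith
  · obtain ⟨m, hm⟩ := big (v := -lor (γ 0).1 a.ξ * lor n a.η) (mul_pos h1 p2) a.hL
      (K - lor (γ 0).1 a.n * lor n a.n)
    refine ⟨((m : ℤ) : ℤ), ?_⟩
    rw [e]
    push_cast
    linarith

lemma unb' {γ : ℝ → X} {x : G} (h : ∀ t, γ (t + 1) = x • γ t) {a : Axis} (ha : a.For x.1) {n : V}
    (hn : lor n a.η * lor n a.ξ < 0) (K : ℝ) : ∃ s, lor (γ s).1 n < -K := by
  obtain ⟨s, hs⟩ := unb h ha (n := -n) (by simpa only [lor_neg_left, neg_mul_neg] using hn) K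
  rw [lor_neg_right] at hs
  exact ⟨s, by linarith⟩

lemma eq_of (h : StmtB1) (a : Axis) {n : V} (hn : lor n a.η * lor n a.ξ < 0) {z z' : X}
    (h1 : lor z.1 a.n = lor z'.1 a.n) (h2 : lor z.1 n = lor z'.1 n) : z = z' := by
  have d1 : lor (z.1 - z'.1) a.n = 0 := by rw [lor_sub_left, h1, sub_self]
  have d2 : lor (z.1 - z'.1) n = 0 := by rw [lor_sub_left, h2, sub_self]
  have d3 := Ax.lor_self a (z.1 - z'.1)
  rw [Ax.expand a (z.1 - z'.1), d1] at d2
  simp only [lor_add_left, lor_smul_left, lor_comm a.ξ n, lor_comm a.η n] at d2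
  rw [d1] at d3
  generalize lor (z.1 - z'.1) a.η = u at d2 d3
  generalize lor (z.1 - z'.1) a.ξ = v at d2 d3
  have d4 : 0 ≤ u * v := by
    have hp : lor n a.ξ ≠ 0 := fun e => by simp [e] at hn
    have : u * v * lor n a.ξ ^ 2 = v ^ 2 * -(lor n a.η * lor n a.ξ) := by
      linear_combination -(v * lor n a.ξ) * d2
    have h3 : 0 ≤ u * v * lor n a.ξ ^ 2 := by
      rw [this]
      exact mul_nonneg (sq_nonneg _) (by linarith)
    exact nonneg_of_mul_nonneg_left h3 (by positivity)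
  simp only [lor_sub_left, lor_sub_right, z.2.1, z'.2.1, lor_comm z'.1 z.1] at d3
  obtain ⟨r1, r2⟩ := h.revCS z z'
  exact r2 (by linarith)

lemma curve {γ : ℝ → X} {g x : G} (h : ∀ t, γ (t + 1) = g • γ t) (hs : Same g x) :
    ∃ (k : G) (ε : ℝ), (x = k * g * k⁻¹ ∨ x = k * g⁻¹ * k⁻¹) ∧
      ∀ t, k • γ (ε * (t + 1)) = x • k • γ (ε * t) := by
  rcases hs with hs | hs <;> obtain ⟨k, rfl⟩ := isConj_iff.1 hs
  · exact ⟨k, 1, Or.inl rfl, fun t => by simp [h, mul_smul]⟩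
  · refine ⟨k, -1, Or.inr rfl, fun t => ?_⟩
    have := h (-1 * (t + 1))
    rw [show -1 * (t + 1) + 1 = -1 * t by ring] at this
    simp only [this, mul_smul, inv_smul_smul]

end D1b

open D1b in
theorem blockD1b (h : Geo) (hm : StmtMir) : StmtD1b := by
  rintro S _ p hp Z _ _ C ν hl c g hc ⟨γ, hγ, hpγ, hg⟩ ⟨x, y, hx, hy, hxy⟩
  have nc : ∀ u : G, ¬ Cross C.att u u ∧ ¬ Cross C.att u u⁻¹ := fun u => by
    constructor <;> simp only [Cross, Rt, cyc, inv_inv] <;> grind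
  obtain ⟨k, ε, ex, hk⟩ := curve hg hx
  obtain ⟨k', ε', ey, hk'⟩ := curve hg hy
  have g1 : g ≠ 1 := by
    rintro rfl
    have e1 : x = 1 := by simpa using ex
    have e2 : y = 1 := by simpa using ey
    rw [e1, e2] at hxy
    exact (nc 1).1 hxy
  obtain ⟨a, ha⟩ := hl.axis x (by rcases ex with rfl | rfl <;> simpa using g1)
  obtain ⟨b, hb⟩ := hl.axis y (by rcases ey with rfl | rfl <;> simpa using g1)
  have hab := ((h.b2b Z C.att ν hl).cross_iff x y a b ha hb).1.1 hxy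
  have n1 := neg_prod a b.hn hab
  have n2 := neg_prod b a.hn (by rwa [lor_comm])
  have c1 : Continuous fun t => k • γ (ε * t) :=
    (continuous_const_smul (T := X) k.1).comp (hγ.comp (continuous_const.mul continuous_id))
  have c2 : Continuous fun t => k' • γ (ε' * t) :=
    (continuous_const_smul (T := X) k'.1).comp (hγ.comp (continuous_const.mul continuous_id))
  obtain ⟨K1, hK1⟩ := bdd c1 hk ha
  obtain ⟨K2, hK2⟩ := bdd c2 hk' hb
  obtain ⟨s0, hs0⟩ := unb' (γ := fun t => k • γ (ε * t)) hk ha n1 (max K1 K2)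
  obtain ⟨s1, hs1⟩ := unb (γ := fun t => k • γ (ε * t)) hk ha n1 (max K1 K2)
  obtain ⟨t0, ht0⟩ := unb' (γ := fun t => k' • γ (ε' * t)) hk' hb n2 (max K1 K2)
  obtain ⟨t1, ht1⟩ := unb (γ := fun t => k' • γ (ε' * t)) hk' hb n2 (max K1 K2)
  obtain ⟨s, t, hst⟩ := hm (fun s => (lor (k • γ (ε * s)).1 a.n, lor (k • γ (ε * s)).1 b.n))
    (fun s => (lor (k' • γ (ε' * s)).1 a.n, lor (k' • γ (ε' * s)).1 b.n)) (max K1 K2)
    (((continuous_lor_left _).comp c1).prodMk ((continuous_lor_left _).comp c1))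
    (((continuous_lor_left _).comp c2).prodMk ((continuous_lor_left _).comp c2))
    (fun s => (hK1 s).trans (le_max_left _ _)) (fun s => (hK2 s).trans (le_max_right _ _))
    s0 s1 t0 t1 hs0 hs1 ht0 ht1
  have e := eq_of h.b1 a n1 (congrArg Prod.fst hst) (congrArg Prod.snd hst)
  have e2 := congrArg p e
  rw [hp.map_smul, hp.map_smul, hpγ, hpγ] at e2
  obtain ⟨m, hm'⟩ := Circle.exp_eq_exp.1 (hc e2)
  have e3 : ε * s = ε' * t + m :=
    mul_left_cancel₀ (by positivity : 2 * Real.pi ≠ 0) (by linarith)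
  rw [e3, shift hg, ← mul_smul, ← inv_smul_eq_iff, ← mul_smul] at e
  have e4 : k' = k * g ^ m := (inv_mul_eq_one.1 (h.b1.free _ _ e))
  have e5 : y = k * g * k⁻¹ ∨ y = k * g⁻¹ * k⁻¹ := by
    rcases ey with rfl | rfl
    · left; rw [e4]; group
    · right; rw [e4]; group
  have e6 : y = x ∨ y = x⁻¹ := by
    rcases ex with rfl | rfl <;> rcases e5 with rfl | rfl
    · exact Or.inl rfl
    · right; group
    · right; group
    · exact Or.inl rfl
  rcases e6 with rfl | rfl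
  · exact (nc _).1 hxy
  · exact (nc _).2 hxy

end Pool.Agent.Lib.MP_003e01_gt
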