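import Pool.Agent.Lib.MP_003e01_gt.Blue

/-! Block D2: equivariant homeomorphisms preserve the sides of axes. -/

open Set Topology Filter

namespace Pool.Agent.Lib.MP_003e01_gt

namespace D2

section Alg
variable {Γ Z : Type} [Group Γ] [LinearOrder Z] [MulAction Γ Z] (C : CG Γ Z)

theorem pos_pow {t g : Γ} (ht : t ≠ 1) (hg : g ≠ 1) (h : C.att t = C.att g)
    (hm : g ∈ Subgroup.zpowers t) : ∃ i : ℕ, 0 < i ∧ g = t ^ i := by
  obtain ⟨k, rfl⟩ := Subgroup.mem_zpowers_iff.1 hm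
  obtain ⟨i, rfl | rfl⟩ := Int.eq_nat_or_neg k
  · refine ⟨i, Nat.pos_of_ne_zero ?_, zpow_natCast t i⟩
    rintro rfl
    simp at hg
  · have hi : 0 < i := by
      refine Nat.pos_of_ne_zero ?_
      rintro rfl
      simp at hg
    rw [zpow_neg, zpow_natCast, ← inv_pow, (C.att_pow _ i (inv_ne_one.2 ht) hi).2] at h
    exact absurd h (C.att_ne t ht)

theorem att_map (α : MulAut Γ) {g h : Γ} (hg : g ≠ 1) (hh : h ≠ 1) (e : C.att h = C.att g) :
    C.att (α h) = C.att (α g) := by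
  obtain ⟨t, ht, e1, hs⟩ := C.root g hg
  obtain ⟨i, hi, rfl⟩ := pos_pow C ht hg e1 (hs g (C.att_fix g hg))
  obtain ⟨j, hj, rfl⟩ := pos_pow C ht hh (e1.trans e.symm) (hs h (e ▸ C.att_fix h hh))
  have ht' : α t ≠ 1 := by simpa using ht
  rw [map_pow, map_pow, (C.att_pow _ i ht' hi).2, (C.att_pow _ j ht' hj).2]

theorem att_iff (α : MulAut Γ) {g h : Γ} (hg : g ≠ 1) (hh : h ≠ 1) :
    C.att (α h) = C.att (α g) ↔ C.att h = C.att g :=
  ⟨fun e ↦ by simpa using att_map C α.symm (by simpa using hg) (by simpa using hh) e,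
    att_map C α hg hh⟩

end Alg

theorem zpow_val (hx : StmtAx) {g : G} {a : Axis} (ha : a.For g.1) (m : ℤ) (z : X) :
    (g ^ m) • z = a.flowX m z :=
  Subtype.ext (hx.zpow g.1 a ha m z.1)

theorem grow (hx : StmtAx) {h : G} {b : Axis} (hb : b.For h.1) {n : V} (hn : 0 < lor b.ξ n)
    (z : X) (K : ℝ) : ∀ᶠ m : ℕ in atTop, K < lor ((h ^ m) • z).1 n := by
  have h1 : 0 < -lor z.1 b.η * lor b.ξ n := mul_pos (neg_pos.2 (lor_null_neg z b.hη)) hn
  have h2 : Tendsto (fun m : ℕ ↦ Real.exp (m * b.L) * (-lor z.1 b.η * lor b.ξ n)) atTop atTop :=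
    (Real.tendsto_exp_atTop.comp (tendsto_natCast_atTop_atTop.atTop_mul_const b.hL)).atTop_mul_const
      h1
  filter_upwards [h2.eventually_gt_atTop
    (K - lor z.1 n - lor z.1 b.η * lor b.ξ n + |lor z.1 b.ξ * lor b.η n|)] with m hm
  rw [← zpow_natCast, zpow_val hx hb, Axis.flowX_val, Axis.flow, lor_sub_smul, lor_sub_smul]
  push_cast
  have h3 : 0 < Real.exp (-(m * b.L)) := Real.exp_pos _
  have h4 : Real.exp (-(m * b.L)) ≤ 1 :=
    Real.exp_le_one_iff.2 (neg_nonpos.2 (mul_nonneg (Nat.cast_nonneg m) b.hL.le))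
  have h5 : (Real.exp (-(m * b.L)) - 1) * (lor z.1 b.ξ * lor b.η n) ≤
      |lor z.1 b.ξ * lor b.η n| := by
    refine (le_abs_self _).trans ?_
    rw [abs_mul]
    refine mul_le_of_le_one_left (abs_nonneg _) (abs_le.2 ⟨?_, ?_⟩) <;> linarith
  nlinarith

theorem axis_bdd (hx : StmtAx) (F : X ≃ₜ X) {g g' : G} {a a' : Axis} (ha : a.For g.1)
    (ha' : a'.For g'.1) (hF : ∀ (m : ℤ) (x : X), F (g ^ m • x) = g' ^ m • F x) :
    ∃ K : ℝ, ∀ z : X, lor z.1 a.n = 0 → |lor (F z).1 a'.n| ≤ K := by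
  obtain ⟨e, ⟨he1, he2⟩, -⟩ := hx.fermi a
  have hc : Continuous fun τ : ℝ ↦ lor (F (e (τ, 0))).1 a'.n :=
    (continuous_lor_left _).comp (by fun_prop)
  obtain ⟨K, hK⟩ := (isCompact_Icc (a := (0 : ℝ)) (b := 1)).exists_bound_of_continuousOn
    hc.continuousOn
  refine ⟨K, fun z hz ↦ ?_⟩
  obtain ⟨⟨τ, y⟩, rfl⟩ := e.surjective z
  rw [he1] at hz
  obtain rfl : y = 0 := hz
  have h1 : e (τ, 0) = g ^ ⌊τ⌋ • e (Int.fract τ, 0) := by
    rw [zpow_val hx ha, he2]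
    simp
  rw [h1, hF, zpow_val hx ha', Axis.flowX_val, Axis.lor_flow_n]
  exact hK _ ⟨Int.fract_nonneg τ, (Int.fract_lt_one τ).le⟩

theorem side (hx : StmtAx) (F : X ≃ₜ X) (a' : Axis) (n : V) {I : Set ℝ} (hI : IsPreconnected I)
    (h : ∀ z : X, lor (F z).1 a'.n ∈ I → lor z.1 n ≠ 0) :
    ∃ σ : ℝ, (σ = 1 ∨ σ = -1) ∧ ∀ z : X, lor (F z).1 a'.n ∈ I → 0 < σ * lor z.1 n := by
  obtain ⟨e, ⟨he1, -⟩, -⟩ := hx.fermi a'
  have hc : Continuous fun q : ℝ × ℝ ↦ lor (F.symm (e q)).1 n :=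
    (continuous_lor_left _).comp (by fun_prop)
  have h1 := (isPreconnected_univ.prod hI).image _ hc.continuousOn
  have h2 : ∀ z : X, lor (F z).1 a'.n ∈ I →
      lor z.1 n ∈ (fun q : ℝ × ℝ ↦ lor (F.symm (e q)).1 n) '' (univ ×ˢ I) := by
    intro z hz
    refine ⟨e.symm (F z), ⟨trivial, ?_⟩, by simp⟩
    rw [← he1]
    simpa using hz
  rcases h1.subset_or_subset isOpen_Ioi isOpen_Iio
    (show Disjoint (Ioi (0 : ℝ)) (Iio 0) from (Iio_disjoint_Ici le_rfl).symm.mono_left Ioi_subset_Ici_self)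
    (by
      rintro _ ⟨q, hq, rfl⟩
      have := h (F.symm (e q)) (by rw [F.apply_symm_apply, he1]; exact hq.2)
      exact (lt_or_gt_of_ne this).symm) with h3 | h3
  · exact ⟨1, Or.inl rfl, fun z hz ↦ by simpa using h3 (h2 z hz)⟩
  · exact ⟨-1, Or.inr rfl, fun z hz ↦ by simpa using h3 (h2 z hz)⟩

end D2

open D2 in
theorem blockD2 (h : Geo) : StmtD2 := by
  rintro S _ p - Z _ _ C ν hl f α ⟨F, -, hF⟩ g hg
  have hx := h.ax
  have hb := h.b2b Z C.att ν hl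
  have hne : ∀ u : G, u ≠ 1 → α u ≠ 1 := fun u hu ↦ by simpa using hu
  obtain ⟨a, ha⟩ := hl.axis g hg
  obtain ⟨a', ha'⟩ := hl.axis (α g) (hne g hg)
  obtain ⟨K, hK⟩ := axis_bdd hx F ha ha' fun m x ↦ by rw [hF, map_zpow]
  obtain ⟨σ, hσ, h1⟩ := side hx F a' a.n (isPreconnected_Ioi (a := K))
    fun z hz h0 ↦ absurd (le_of_abs_le (hK z h0)) (not_le.2 hz)
  obtain ⟨σ', hσ', h2⟩ := side hx F a' a.n (isPreconnected_Iio (a := -K))
    fun z hz h0 ↦ absurd (neg_le_of_abs_le (hK z h0)) (not_le.2 hz)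
  have gr : ∀ u : G, u ≠ 1 → ∀ n : V, 0 < lor (ν (C.att u)) n → ∀ (z : X) (R : ℝ),
      ∀ᶠ m : ℕ in atTop, R < lor ((u ^ m) • z).1 n := by
    intro u hu n hn z R
    obtain ⟨b, hb'⟩ := hl.axis u hu
    obtain ⟨c, hc, e⟩ := hl.att u b hb'
    rw [e, lor_smul_left] at hn
    exact grow hx hb' ((mul_pos_iff_of_pos_left hc).1 hn) z R
  have zero : ∀ u : G, u ≠ 1 →
      (lor (ν (C.att (α u))) a'.n = 0 ↔ lor (ν (C.att u)) a.n = 0) := by
    intro u hu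
    rw [(hb.rt_iff _ a' _ ha').2.2, (hb.rt_iff _ a _ ha).2.2, ← map_inv, att_iff C α hg hu,
      att_iff C α (inv_ne_one.2 hg) hu]
  have key : ∀ (s s' : ℝ), s ≠ 0 → (∀ z : X, K < lor (F z).1 (s' • a'.n) → 0 < s * lor z.1 a.n) →
      ∀ u : G, u ≠ 1 → 0 < s' * lor (ν (C.att (α u))) a'.n → 0 < s * lor (ν (C.att u)) a.n := by
    intro s s' hs H u hu hpos
    have h0 : lor (ν (C.att u)) a.n ≠ 0 := fun h0 ↦ by
      rw [(zero u hu).2 h0] at hpos
      simp at hpos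
    refine lt_of_le_of_ne (not_lt.1 fun hneg ↦ ?_) (mul_ne_zero hs h0).symm
    obtain ⟨m, m1, m2⟩ := ((gr _ (hne u hu) (s' • a'.n) (by rwa [lor_smul_right]) (F x0) K).and
      (gr u hu ((-s) • a.n) (by rw [lor_smul_right]; linarith) x0 0)).exists
    rw [← map_pow, ← hF] at m1
    have := H _ m1
    rw [lor_smul_right] at m2
    linarith
  have hs0 : ∀ s : ℝ, s = 1 ∨ s = -1 → s ≠ 0 := by
    rintro s (rfl | rfl) <;> norm_num
  have k1 := key σ 1 (hs0 σ hσ) fun z hz ↦ h1 z (by simpa using hz)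
  have k2 := key σ' (-1) (hs0 σ' hσ') fun z hz ↦ h2 z (by
    rw [lor_smul_right] at hz
    rw [mem_Iio]
    linarith)
  have hopp : σ' = -σ := by
    by_contra hc
    have e : σ' = σ := by
      rcases hσ with rfl | rfl <;> rcases hσ' with rfl | rfl <;> simp_all
    subst e
    have k3 : ∀ u : G, u ≠ 1 → lor (ν (C.att u)) a.n ≠ 0 → 0 < σ' * lor (ν (C.att u)) a.n := by
      intro u hu h0
      rcases lt_or_gt_of_ne (mt (zero u hu).1 h0) with h3 | h3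
      · exact k2 u hu (by linarith)
      · exact k1 u hu (by linarith)
    obtain ⟨u, hu, hc⟩ := C.dense g hg
    have hu' := inv_ne_one.2 hu
    simp only [Cross, (hb.rt_iff _ a _ ha).1, (hb.rt_iff _ a _ ha).2.1] at hc
    rcases hc with ⟨c1, c2⟩ | ⟨c1, c2⟩
    · have := k3 u hu c1.ne'
      have := k3 _ hu' c2.ne
      rcases hσ with rfl | rfl <;> linarith
    · have := k3 u hu c2.ne
      have := k3 _ hu' c1.ne'
      rcases hσ with rfl | rfl <;> linarith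
  subst hopp
  have fin : ∀ u : G, u ≠ 1 →
      (0 < σ * lor (ν (C.att u)) a.n ↔ 0 < lor (ν (C.att (α u))) a'.n) ∧
      (σ * lor (ν (C.att u)) a.n < 0 ↔ lor (ν (C.att (α u))) a'.n < 0) := by
    intro u hu
    rcases lt_trichotomy (lor (ν (C.att (α u))) a'.n) 0 with h3 | h3 | h3
    · have := k2 u hu (by linarith)
      exact ⟨iff_of_false (by linarith) (by linarith), iff_of_true (by linarith) h3⟩
    · rw [(zero u hu).1 h3, h3]
      simp
    · have := k1 u hu (by linarith)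
      exact ⟨iff_of_true this h3, iff_of_false (by linarith) (by linarith)⟩
  rcases hσ with rfl | rfl
  · refine ⟨α g, Or.inl rfl, fun u hu ↦ ?_⟩
    rw [(hb.rt_iff _ a _ ha).1, (hb.rt_iff _ a _ ha).2.1, (hb.rt_iff _ a' _ ha').1,
      (hb.rt_iff _ a' _ ha').2.1]
    simpa using fin u hu
  · refine ⟨(α g)⁻¹, Or.inr rfl, fun u hu ↦ ?_⟩
    rw [inv_inv, (hb.rt_iff _ a _ ha).1, (hb.rt_iff _ a _ ha).2.1, (hb.rt_iff _ a' _ ha').1,
      (hb.rt_iff _ a' _ ha').2.1]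
    simpa using (fin u hu).symm

end Pool.Agent.Lib.MP_003e01_gt
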