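import Pool.Agent.Lib.MP_003e01_gt.Blue

/-! Block D3a: existence of the Dehn twist supported in a thin strip. -/

open Set Topology

namespace Pool.Agent.Lib.MP_003e01_gt

namespace D3a

variable {S : Type} [TopologicalSpace S] {p : X → S} {g : G} {a : Axis} {ε : ℝ}

lemma zpow_smul (h : Geo) (ha : a.For g.1) (m : ℤ) (z : X) : (g ^ m) • z = a.flowX m z := by
  apply Subtype.ext
  have := h.ax.zpow g.1 a ha m z.1
  rw [Axis.flowX_val, ← this]
  change ((g ^ m : G) : W) • z.1 = _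
  rw [SubgroupClass.coe_zpow]

lemma p_flow (h : Geo) (hp : IsQuotientCoveringMap p G) (ha : a.For g.1) (m : ℤ) (z : X) :
    p (a.flowX m z) = p z := by
  rw [← zpow_smul h ha, hp.map_smul]

lemma nu_flow (τ : ℝ) (z : X) : lor (a.flowX τ z).1 a.n = lor z.1 a.n := a.lor_flow_n τ z.1

lemma wd_eq (h : Geo) (hp : IsQuotientCoveringMap p G) (ha : a.For g.1) (hε : 0 < ε)
    (ht : Thin g a ε) (φ : ℝ → ℝ) {z z' : X} (hz : z ∈ Strip a ε) (hz' : z' ∈ Strip a ε)
    (e : p z' = p z) :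
    p (a.flowX (φ (lor z'.1 a.n)) z') = p (a.flowX (φ (lor z.1 a.n)) z) := by
  obtain ⟨γ, hγ⟩ := hp.apply_eq_iff_mem_orbit.1 e
  have hγ' : γ • z = z' := hγ
  have h1 : |lor z.1 a.n| ≤ 2 * ε := abs_le.2 ⟨by linarith [hz.1], by linarith [hz.2]⟩
  have h2 : |lor (γ • z).1 a.n| ≤ 2 * ε := by
    rw [hγ']; exact abs_le.2 ⟨by linarith [hz'.1], by linarith [hz'.2]⟩
  obtain ⟨m, hm⟩ := Subgroup.mem_zpowers_iff.1 (ht γ z h1 h2)
  rw [← hγ', ← hm, zpow_smul h ha, nu_flow, ← Axis.flowX_add, add_comm, Axis.flowX_add,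
    p_flow h hp ha]

open scoped Classical in
/-- the twist as a function -/
noncomputable def tw (p : X → S) (a : Axis) (ε : ℝ) (k : ℤ) (s : S) : S :=
  if h : s ∈ p '' Strip a ε then
    p (a.flowX (k * (1 + lor (Classical.choose h).1 a.n / ε)) (Classical.choose h)) else s

lemma tw_in (h : Geo) (hp : IsQuotientCoveringMap p G) (ha : a.For g.1) (hε : 0 < ε)
    (ht : Thin g a ε) (k : ℤ) {z : X} (hz : z ∈ Strip a ε) :
    tw p a ε k (p z) = p (a.flowX (k * (1 + lor z.1 a.n / ε)) z) := by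
  have h1 : p z ∈ p '' Strip a ε := mem_image_of_mem p hz
  rw [tw, dif_pos h1]
  exact wd_eq h hp ha hε ht (fun ν => k * (1 + ν / ε)) hz (Classical.choose_spec h1).1
    (Classical.choose_spec h1).2

omit [TopologicalSpace S] in
lemma tw_out (k : ℤ) {s : S} (hs : s ∉ p '' Strip a ε) : tw p a ε k s = s := by
  rw [tw, dif_neg hs]

lemma tw_tw (h : Geo) (hp : IsQuotientCoveringMap p G) (ha : a.For g.1) (hε : 0 < ε)
    (ht : Thin g a ε) {k k' : ℤ} (hk : k' + k = 0) (s : S) : tw p a ε k' (tw p a ε k s) = s := by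
  by_cases hs : s ∈ p '' Strip a ε
  · obtain ⟨z, hz, rfl⟩ := hs
    have h1 : a.flowX (k * (1 + lor z.1 a.n / ε)) z ∈ Strip a ε := by
      constructor
      · rw [nu_flow]; exact hz.1
      · rw [nu_flow]; exact hz.2
    have h2 : (k' : ℝ) + k = 0 := by exact_mod_cast hk
    rw [tw_in h hp ha hε ht k hz, tw_in h hp ha hε ht k' h1, nu_flow, ← Axis.flowX_add, ← add_mul,
      h2, zero_mul, Axis.flowX_zero]
  · rw [tw_out k hs, tw_out k' hs]

lemma exists_compact (h : Geo) (hp : IsQuotientCoveringMap p G) (ha : a.For g.1) :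
    ∃ K : Set X, IsCompact K ∧ K ⊆ Strip a ε ∧ p '' K = p '' Strip a ε := by
  obtain ⟨e, ⟨h1, h2⟩, -⟩ := h.ax.fermi a
  have h3 : e '' (Icc 0 1 ×ˢ Icc (-ε) 0) ⊆ Strip a ε := by
    rintro _ ⟨q, hq, rfl⟩
    constructor
    · rw [h1]; exact hq.2.1
    · rw [h1]; exact hq.2.2
  refine ⟨e '' (Icc 0 1 ×ˢ Icc (-ε) 0), (isCompact_Icc.prod isCompact_Icc).image e.continuous, h3,
    (image_mono h3).antisymm ?_⟩
  rintro _ ⟨z, hz, rfl⟩
  obtain ⟨q, rfl⟩ := e.surjective z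
  have h4 := hz.1
  have h5 := hz.2
  rw [h1] at h4 h5
  refine ⟨e (Int.fract q.1, q.2), ⟨(Int.fract q.1, q.2),
    ⟨⟨Int.fract_nonneg _, (Int.fract_lt_one _).le⟩, h4, h5⟩, rfl⟩, ?_⟩
  rw [← p_flow h hp ha ⌊q.1⌋, h2]
  simp

lemma tw_cont [T2Space S] (h : Geo) (hp : IsQuotientCoveringMap p G) (ha : a.For g.1)
    (hε : 0 < ε) (ht : Thin g a ε) (k : ℤ) : Continuous (tw p a ε k) := by
  obtain ⟨K, hK, hKs, hKe⟩ := exists_compact (ε := ε) h hp ha
  have hpc : Continuous p := hp.toIsQuotientMap.continuous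
  have hF : Continuous fun z : X => p (a.flowX (k * (1 + lor z.1 a.n / ε)) z) := by
    have h1 := continuous_lor_left a.n
    exact hpc.comp (a.continuous_flowX.comp
      (f := fun z : X => ((k * (1 + lor z.1 a.n / ε) : ℝ), z)) (by fun_prop))
  have hA : ContinuousOn (tw p a ε k) (p '' K) := by
    rw [continuousOn_iff_isClosed]
    intro t htc
    refine ⟨p '' (K ∩ (fun z : X => p (a.flowX (k * (1 + lor z.1 a.n / ε)) z)) ⁻¹' t),
      ((hK.inter_right (htc.preimage hF)).image hpc).isClosed, ?_⟩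
    ext s
    constructor
    · rintro ⟨h1, z, hz, rfl⟩
      refine ⟨⟨z, ⟨hz, ?_⟩, rfl⟩, z, hz, rfl⟩
      rw [mem_preimage, tw_in h hp ha hε ht k (hKs hz)] at h1
      exact h1
    · rintro ⟨⟨z, ⟨hz, h1⟩, rfl⟩, h2⟩
      refine ⟨?_, h2⟩
      rw [mem_preimage, tw_in h hp ha hε ht k (hKs hz)]
      exact h1
  have hO : IsOpen (p '' {z : X | -ε < lor z.1 a.n ∧ lor z.1 a.n < 0}) :=
    hp.isOpenQuotientMap.isOpenMap _ ((isOpen_lt continuous_const (continuous_lor_left _)).inter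
      (isOpen_lt (continuous_lor_left _) continuous_const))
  have hB : ContinuousOn (tw p a ε k) (p '' {z : X | -ε < lor z.1 a.n ∧ lor z.1 a.n < 0})ᶜ := by
    refine continuousOn_id.congr fun s hs => ?_
    by_cases h1 : s ∈ p '' Strip a ε
    · obtain ⟨z, hz, rfl⟩ := h1
      rw [tw_in h hp ha hε ht k hz, id]
      rcases hz.1.eq_or_lt with h2 | h2
      · rw [← h2, neg_div, div_self hε.ne', add_neg_cancel, mul_zero, Axis.flowX_zero]
      · rcases hz.2.eq_or_lt with h3 | h3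
        · rw [h3, zero_div, add_zero, mul_one, p_flow h hp ha]
        · exact absurd ⟨z, ⟨h2, h3⟩, rfl⟩ hs
    · exact tw_out k h1
  rw [← continuousOn_univ]
  refine (hA.union_of_isClosed hB (hK.image hpc).isClosed hO.isClosed_compl).mono fun s _ => ?_
  by_cases h1 : s ∈ p '' {z : X | -ε < lor z.1 a.n ∧ lor z.1 a.n < 0}
  · obtain ⟨z, hz, rfl⟩ := h1
    left
    rw [hKe]
    exact ⟨z, ⟨hz.1.le, hz.2.le⟩, rfl⟩
  · exact Or.inr h1

end D3a

open D3a in
theorem blockD3a (h : Geo) : StmtD3a := by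
  intro S _ _ p hp g a ε k ha hε ht
  obtain ⟨K, hK, -, hKe⟩ := exists_compact (ε := ε) h hp ha
  refine ⟨hKe ▸ hK.image hp.toIsQuotientMap.continuous,
    ⟨⟨tw p a ε k, tw p a ε (-k), tw_tw h hp ha hε ht (by simp), tw_tw h hp ha hε ht (by simp)⟩,
      tw_cont h hp ha hε ht k, tw_cont h hp ha hε ht (-k)⟩, fun z hz => ?_, fun s hs => ?_⟩
  · exact tw_in h hp ha hε ht k hz
  · exact tw_out k hs

end Pool.Agent.Lib.MP_003e01_gt
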