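import Pool.Agent.Lib.MP_003e01_gt.Blue

/-! Block D3b: the action of a Dehn twist on the deck group. -/

open Set Topology

namespace Pool.Agent.Lib.MP_003e01_gt

namespace D3b

lemma gs (γ : G) (z : X) : (γ • z).1 = γ.1 • z.1 := rfl

lemma lor_inv (w : W) (x y : V) : lor (w • x) y = lor x (w⁻¹ • y) := by
  rw [← lor_smul w x, smul_inv_smul]

lemma revCS {x : V} (y : V) (hx : lor x x < 0) :
    lor x x * lor y y ≤ lor x y ^ 2 := by
  simp only [lor] at *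
  have h2 : 0 < x 2 * x 2 := by nlinarith [mul_self_nonneg (x 0), mul_self_nonneg (x 1)]
  have key : (x 2 * x 2) * ((x 0 * y 0 + x 1 * y 1 - x 2 * y 2) ^ 2 -
      (x 0 * x 0 + x 1 * x 1 - x 2 * x 2) * (y 0 * y 0 + y 1 * y 1 - y 2 * y 2)) =
      ((x 0 * y 0 + x 1 * y 1 - x 2 * y 2) * x 2 - (x 0 * x 0 + x 1 * x 1 - x 2 * x 2) * y 2) ^ 2 +
      (-(x 0 * x 0 + x 1 * x 1 - x 2 * x 2)) *
        ((x 2 * y 0 - x 0 * y 2) ^ 2 + (x 2 * y 1 - x 1 * y 2) ^ 2) := by ring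
  have : 0 ≤ (x 2 * x 2) * ((x 0 * y 0 + x 1 * y 1 - x 2 * y 2) ^ 2 -
      (x 0 * x 0 + x 1 * x 1 - x 2 * x 2) * (y 0 * y 0 + y 1 * y 1 - y 2 * y 2)) := by
    rw [key]
    exact add_nonneg (sq_nonneg _) (mul_nonneg (by linarith) (by positivity))
  linarith [(mul_nonneg_iff_of_pos_left h2).1 this]

lemma near {ε : ℝ} (hε : 0 < ε) : ∃ δ : ℝ, 0 < δ ∧ ∀ (z z' : X) (n : V), lor n n = 1 →
    -1 - δ < lor z.1 z'.1 → lor z.1 z'.1 ≤ -1 → 2 * ε ≤ |lor z'.1 n| → ε < |lor z.1 n| := by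
  refine ⟨min (1 / 8) (ε ^ 2 / 6), by positivity, fun z z' n hn h1 h2 h3 => ?_⟩
  by_contra h4
  push Not at h4
  have e : ∀ x y : V, lor (x - lor x n • n) (y - lor y n • n) = lor x y - lor x n * lor y n := by
    intro x y
    rw [lor_sub_smul, lor_sub_right, lor_sub_right, lor_smul_right, lor_smul_right, hn,
      lor_comm n y]
    ring
  have h5 := revCS (x := z.1 - lor z.1 n • n) (z'.1 - lor z'.1 n • n)
    (by rw [e, z.2.1]; nlinarith [mul_self_nonneg (lor z.1 n)])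
  rw [e, e, e, z.2.1, z'.2.1] at h5
  generalize lor z.1 n = A at *
  generalize lor z'.1 n = B at *
  obtain ⟨u, hu⟩ : ∃ u, lor z.1 z'.1 = -1 - u := ⟨-1 - lor z.1 z'.1, by ring⟩
  rw [hu] at h1 h2 h5
  have u0 : 0 ≤ u := by linarith
  have u1 : u < 1 / 8 := by linarith [min_le_left (1 / 8 : ℝ) (ε ^ 2 / 6)]
  have u2 : u < ε ^ 2 / 6 := by linarith [min_le_right (1 / 8 : ℝ) (ε ^ 2 / 6)]
  have d1 : |B| - |A| ≤ |A - B| := by rw [abs_sub_comm]; exact abs_sub_abs_le_abs_sub _ _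
  have d2 : A * B ≤ |A| * |B| := by rw [← abs_mul]; exact le_abs_self _
  have d3 : |A - B| ^ 2 ≤ u * (u + 2 + 2 * (A * B)) := by rw [sq_abs]; nlinarith
  have d4 : |A| * |B| ≤ 2 * |A - B| ^ 2 := by nlinarith [abs_nonneg A, abs_nonneg B]
  have d5 : ε ^ 2 ≤ |A - B| ^ 2 := pow_le_pow_left₀ hε.le (by linarith) 2
  nlinarith

lemma seg (z z' : X) (h : lor z.1 z'.1 ≤ -1) : ∃ σ : unitInterval → X, Continuous σ ∧ σ 0 = z ∧
    σ 1 = z' ∧ ∀ s n, 0 < lor z.1 n * lor z'.1 n → lor (σ s).1 n ≠ 0 := by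
  let v : unitInterval → V := fun s => (1 - s.1) • z.1 + s.1 • z'.1
  have hv : Continuous v := by fun_prop
  have hq : ∀ s, 0 < -lor (v s) (v s) := by
    intro s
    simp only [v, lor_add_left, lor_add_right, lor_smul_left, lor_smul_right, z.2.1, z'.2.1,
      lor_comm z'.1 z.1]
    nlinarith [mul_nonneg (mul_nonneg s.2.1 (sub_nonneg.2 s.2.2)) (sub_nonneg.2 h)]
  have hs : ∀ s, 0 < √(-lor (v s) (v s)) := fun s => Real.sqrt_pos.2 (hq s)
  refine ⟨fun s => ⟨(√(-lor (v s) (v s)))⁻¹ • v s, ?_, ?_⟩, ?_, ?_, ?_, fun s n hn => ?_⟩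
  · rw [lor_smul_left, lor_smul_right, ← mul_assoc, ← mul_inv, Real.mul_self_sqrt (hq s).le,
      inv_neg, neg_mul, inv_mul_cancel₀ (neg_pos.1 (hq s)).ne]
  · refine mul_pos (inv_pos.2 (hs s)) ?_
    simp only [v, Pi.add_apply, Pi.smul_apply, smul_eq_mul]
    have := z.2.2
    have := z'.2.2
    rcases s.2.1.eq_or_lt with h0 | h0
    · rw [← h0]; linarith
    · nlinarith [mul_nonneg (sub_nonneg.2 s.2.2) z.2.2.le, mul_pos h0 z'.2.2]
  · refine Continuous.subtype_mk (Continuous.smul (Continuous.inv₀ ?_ fun s => (hs s).ne') hv) _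
    exact (continuous_lor.comp (hv.prodMk hv)).neg.sqrt
  · exact Subtype.ext (by simp [v, z.2.1])
  · exact Subtype.ext (by simp [v, z'.2.1])
  · rw [lor_smul_left]
    refine mul_ne_zero (inv_pos.2 (hs s)).ne' fun e => ?_
    simp only [v, lor_add_left, lor_smul_left] at e
    have e1 := congrArg (· * lor z.1 n) e
    have e2 := congrArg (· * lor z'.1 n) e
    have a1 := mul_nonneg (sub_nonneg.2 s.2.2) (mul_self_nonneg (lor z.1 n))
    have a2 := mul_nonneg s.2.1 (mul_self_nonneg (lor z'.1 n))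
    have a3 := mul_nonneg (sub_nonneg.2 s.2.2) hn.le
    have a4 := mul_nonneg s.2.1 hn.le
    nlinarith

open Classical in
/-- the discontinuous equivariant lift of the twist -/
noncomputable def T (a : Axis) (ε : ℝ) (k : ℤ) (z : X) : X :=
  if h : ∃ γ : G, γ • z ∈ Strip a ε then
    h.choose⁻¹ • a.flowX (k * (1 + lor (h.choose • z).1 a.n / ε)) (h.choose • z) else z

variable (geo : Geo) {g : G} {a : Axis} {ε : ℝ} (k : ℤ) (ha : a.For g.1) (hε : 0 < ε)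
  (hT : Thin g a ε)
include geo ha

lemma zp (m : ℤ) (z : X) : g ^ m • z = a.flowX m z :=
  Subtype.ext (geo.ax.zpow g.1 a ha m z.1)

include hT

lemma thin2 {γ γ' : G} {z : X} (h : |lor (γ • z).1 a.n| ≤ 2 * ε)
    (h' : |lor (γ' • z).1 a.n| ≤ 2 * ε) : ∃ m : ℤ, γ' = g ^ m * γ := by
  obtain ⟨m, hm⟩ := hT (γ' * γ⁻¹) (γ • z) h (by rwa [mul_smul, inv_smul_smul])
  exact ⟨m, by simp only at hm; rw [hm]; simp⟩

include hε

lemma T_neg {γ : G} {z : X} (h : -(2 * ε) ≤ lor (γ • z).1 a.n) (h' : lor (γ • z).1 a.n ≤ 0) :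
    T a ε k z = γ⁻¹ • a.flowX (k * max 0 (1 + lor (γ • z).1 a.n / ε)) (γ • z) := by
  rw [T]
  split_ifs with h1
  · obtain ⟨h2, h3⟩ := h1.choose_spec
    generalize h1.choose = γ' at *
    obtain ⟨m, rfl⟩ := thin2 geo ha hT (γ := γ) (γ' := γ') (z := z) (abs_le.2 ⟨h, by linarith⟩)
      (abs_le.2 ⟨by linarith, by linarith⟩)
    rw [mul_smul, zp geo ha, Axis.flowX_val, Axis.lor_flow_n] at *
    rw [max_eq_right (by rw [← neg_le_iff_add_nonneg', le_div_iff₀ hε]; linarith), mul_inv_rev,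
      mul_smul, ← zpow_neg, zp geo ha, ← Axis.flowX_add, ← Axis.flowX_add]
    congr 2
    push_cast
    ring
  · have : lor (γ • z).1 a.n < -ε := not_le.1 fun e => h1 ⟨γ, e, h'⟩
    rw [max_eq_left (by rw [← le_neg_iff_add_nonpos_left, div_le_iff₀ hε]; linarith), mul_zero,
      Axis.flowX_zero, inv_smul_smul]

lemma T_pos {γ : G} {z : X} (h : 0 < lor (γ • z).1 a.n) (h' : lor (γ • z).1 a.n ≤ 2 * ε) :
    T a ε k z = z := by
  refine dif_neg fun ⟨γ', h2, h3⟩ => ?_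
  obtain ⟨m, rfl⟩ := thin2 geo ha hT (γ := γ) (γ' := γ') (z := z) (abs_le.2 ⟨by linarith, h'⟩)
    (abs_le.2 ⟨by linarith, by linarith⟩)
  rw [mul_smul, zp geo ha, Axis.flowX_val, Axis.lor_flow_n] at h3
  linarith

lemma T_edge {γ : G} {z : X} (h : |lor (γ • z).1 a.n| = ε) : T a ε k z = z := by
  rcases (abs_eq hε.le).1 h with h | h
  · exact T_pos geo k ha hε hT (γ := γ) (by linarith) (by linarith)
  · rw [T_neg geo k ha hε hT (γ := γ) (by linarith) (by linarith), h, neg_div, div_self hε.ne']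
    simp [Axis.flowX_zero]

lemma T_cont {z : X} (hz : ∀ γ : G, lor (γ • z).1 a.n ≠ 0) : ContinuousAt (T a ε k) z := by
  have hc : ∀ γ : G, Continuous fun w : X => lor (γ • w).1 a.n := fun γ =>
    (continuous_lor_left a.n).comp (continuous_const_smul γ.1)
  by_cases h : ∃ γ : G, |lor (γ • z).1 a.n| < 2 * ε
  · obtain ⟨γ, h⟩ := h
    obtain ⟨h1, h2⟩ := abs_lt.1 h
    rcases (hz γ).lt_or_gt with h3 | h3
    · refine ContinuousAt.congr (f := fun w : X =>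
        γ⁻¹ • a.flowX (k * max 0 (1 + lor (γ • w).1 a.n / ε)) (γ • w)) ?_ ?_
      · refine ((continuous_const_smul γ⁻¹.1).comp (a.continuous_flowX.comp
          (Continuous.prodMk ?_ (continuous_const_smul γ.1)))).continuousAt
        have := hc γ
        fun_prop
      · filter_upwards [(hc γ).continuousAt.eventually (Ioo_mem_nhds h1 h3)] with w hw
        exact (T_neg geo k ha hε hT hw.1.le hw.2.le).symm
    · refine continuousAt_id.congr ?_
      filter_upwards [(hc γ).continuousAt.eventually (Ioo_mem_nhds h3 h2)] with w hw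
      exact (T_pos geo k ha hε hT hw.1 hw.2.le).symm
  · push Not at h
    obtain ⟨δ, hδ, hn⟩ := near hε
    refine continuousAt_id.congr ?_
    filter_upwards [(continuous_lor_left z.1).continuousAt.eventually
      (Ioi_mem_nhds (show -1 - δ < lor z.1 z.1 by rw [z.2.1]; linarith))] with w hw
    rw [T, dif_neg, id]
    rintro ⟨γ, h2, h3⟩
    have := hn (γ • w) (γ • z) a.n a.hn (by rw [gs, gs, lor_smul]; exact hw)
      (geo.b1.revCS _ _).1 (h γ)
    linarith [abs_le.2 ⟨h2, h3.trans hε.le⟩]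

omit hε hT in
lemma fix_n (m : ℤ) : g.1 ^ m • a.n = a.n := by
  rw [geo.ax.zpow g.1 a ha, Axis.flow, a.hnξ, a.hnη]
  simp

omit geo ha hε hT in
/-- oriented poles of the lifts -/
def Pol (a : Axis) (m : V) : Prop := ∃ γ : G, m = γ.1 • a.n ∨ m = -(γ.1 • a.n)

omit geo ha hε hT in
lemma Pol.neg {m : V} (h : Pol a m) : Pol a (-m) := by
  obtain ⟨γ, rfl | rfl⟩ := h
  · exact ⟨γ, Or.inr rfl⟩
  · exact ⟨γ, Or.inl (neg_neg _)⟩

omit geo ha hε hT in
lemma Pol.smul {m : V} (h : Pol a m) (b : G) : Pol a (b.1 • m) := by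
  obtain ⟨γ, rfl | rfl⟩ := h
  · exact ⟨b * γ, Or.inl (mul_smul _ _ _).symm⟩
  · exact ⟨b * γ, Or.inr (by rw [smul_neg_V, ← mul_smul]; rfl)⟩

omit geo ha hε hT in
lemma Pol.abs {m : V} (h : Pol a m) : ∃ γ : G, (m = γ.1⁻¹ • a.n ∨ m = -(γ.1⁻¹ • a.n)) ∧
    ∀ z : X, |lor z.1 m| = |lor (γ • z).1 a.n| := by
  obtain ⟨γ, rfl | rfl⟩ := h
  · exact ⟨γ⁻¹, Or.inl (by simp), fun z => by rw [gs, lor_inv]; simp⟩
  · exact ⟨γ⁻¹, Or.inr (by simp), fun z => by rw [gs, lor_inv, lor_neg_right, abs_neg]; simp⟩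

omit hε in
lemma Pol.thin {m m' : V} (h : Pol a m) (h' : Pol a m') {z : X} (h1 : |lor z.1 m| ≤ 2 * ε)
    (h2 : |lor z.1 m'| ≤ 2 * ε) : m' = m ∨ m' = -m := by
  obtain ⟨γ, e, f⟩ := h.abs
  obtain ⟨γ', e', f'⟩ := h'.abs
  obtain ⟨j, rfl⟩ := thin2 geo ha hT (f z ▸ h1) (f' z ▸ h2)
  have : (g ^ j * γ).1⁻¹ • a.n = γ.1⁻¹ • a.n := by
    rw [Subgroup.coe_mul, mul_inv_rev, mul_smul, Subgroup.coe_zpow, ← zpow_neg, fix_n geo ha]
  rw [this] at e'
  rcases e with rfl | rfl <;> rcases e' with rfl | rfl <;> simp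

omit hε hT in
lemma ax_conj (γ : G) : (∃ b : Axis, b.For (γ * g * γ⁻¹).1 ∧ b.n = γ.1 • a.n) ∧
    ∃ b : Axis, b.For (γ * g⁻¹ * γ⁻¹).1 ∧ b.n = -(γ.1 • a.n) := by
  obtain ⟨b, h1, -, -, h2, -⟩ := geo.ax.conj g.1 γ.1 a ha
  rw [γ.2.1, γ.2.2, one_mul, one_smul] at h2
  obtain ⟨b', h3, -, -, h4, -⟩ := geo.ax.inv _ b h1
  exact ⟨⟨b, h1, h2⟩, b', by simpa [mul_assoc] using h3, by rw [h4, h2]⟩

omit hε hT in
lemma Pol.lift {m : V} (h : Pol a m) : ∃ (u : G) (b : Axis), Same g u ∧ b.For u.1 ∧ b.n = m := by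
  obtain ⟨γ, rfl | rfl⟩ := h
  · obtain ⟨b, h1, h2⟩ := (ax_conj geo ha γ).1
    exact ⟨_, b, Or.inl (isConj_iff.2 ⟨γ, rfl⟩), h1, h2⟩
  · obtain ⟨b, h1, h2⟩ := (ax_conj geo ha γ).2
    exact ⟨_, b, Or.inr (isConj_iff.2 ⟨γ, rfl⟩), h1, h2⟩

lemma side {τ : Axis} (hτ : Pol a τ.n) {m : V} (hm : Pol a m) {z : X} (hz : lor z.1 τ.n = -ε)
    (h : lor z.1 m < 0) : m = τ.n ∨ lor τ.ξ m < 0 := by
  by_contra hc
  push Not at hc
  have h1 : ∀ w : X, |lor w.1 τ.n| ≤ 2 * ε → 2 * ε < |lor w.1 m| := fun w hw => by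
    by_contra h2
    rcases hτ.thin geo ha hT hm hw (not_lt.1 h2) with e | e
    · exact hc.1 e
    · rw [e, lor_neg_right] at h
      linarith
  obtain ⟨e, ⟨e1, -⟩, e2⟩ := geo.ax.fermi τ
  obtain ⟨⟨t, ν⟩, rfl⟩ := e.surjective z
  obtain rfl : ν = -ε := (e1 _).symm.trans hz
  have hB : IsPreconnected (univ ×ˢ Icc (-ε) 0 : Set (ℝ × ℝ)) :=
    isPreconnected_univ.prod isPreconnected_Icc
  have h3 : ∀ s : ℝ, lor (e (s, 0)).1 m < -(2 * ε) := by
    intro s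
    have h4 := h1 (e (s, 0)) (by rw [e1]; simp; linarith)
    rcases lt_abs.1 h4 with h5 | h5
    · obtain ⟨q, hq, h6⟩ := hB.intermediate_value (a := (t, -ε)) (b := (s, 0))
        ⟨trivial, le_rfl, by simp; linarith⟩ ⟨trivial, by simp; linarith, le_rfl⟩
        ((continuous_lor_left m).comp e.continuous).continuousOn
        (show (0 : ℝ) ∈ Icc _ _ from ⟨h.le, by simp only [Function.comp]; linarith⟩)
      have := h1 (e q) (by rw [e1, abs_le]; constructor <;> linarith [hq.2.1, hq.2.2])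
      simp only [Function.comp] at h6
      rw [h6, abs_zero] at this
      linarith
    · linarith
  have h7 : 0 < |lor τ.η m| / ε + 1 := by positivity
  have h8 := h3 (Real.log (|lor τ.η m| / ε + 1) / τ.L)
  rw [e2, div_mul_cancel₀ _ τ.hL.ne', Real.exp_neg, Real.exp_log h7, lor_add_left, lor_smul_left,
    lor_add_left, lor_smul_left, lor_smul_left, lor_smul_left, zero_mul, add_zero] at h8
  have h9 : √((1 + 0 ^ 2) / 2) ≤ (1 : ℝ) := Real.sqrt_le_one.2 (by norm_num)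
  have h10 : -ε ≤ (|lor τ.η m| / ε + 1)⁻¹ * lor τ.η m := by
    rw [le_inv_mul_iff₀ h7, mul_neg, add_mul, div_mul_cancel₀ _ hε.ne']
    linarith [neg_abs_le (lor τ.η m)]
  nlinarith [mul_nonneg h7.le hc.2, Real.sqrt_nonneg ((1 + 0 ^ 2) / 2)]

variable {Z : Type} [LinearOrder Z] [MulAction G Z] {C : CG G Z} {ν : Z → V} (hl : Link C.att ν)
include hl

lemma adjPt {t : G} {τ : Axis} (ht : τ.For t.1) (hτ : Pol a τ.n) {z : X} (hz : lor z.1 τ.n = -ε)
    {ζ : Z} (hζ : C.AdjPt g t ζ) {m : V} (hm : Pol a m) (h : lor z.1 m < 0) : lor (ν ζ) m ≤ 0 := by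
  have b := geo.b2b Z C.att ν hl
  rcases side geo ha hε hT hτ hm hz h with rfl | h1
  · exact not_lt.1 fun e => hζ.1 ((b.rt_iff t τ ζ ht).1.2 e)
  · obtain ⟨u, β, h2, h3, rfl⟩ := hm.lift geo ha
    obtain ⟨c, hc, e⟩ := hl.att t τ ht
    refine not_lt.1 fun e' => hζ.2 u h2 ((b.rt_iff u β _ h3).2.1.2 ?_) ((b.rt_iff u β ζ h3).1.2 e')
    rw [e, lor_smul_left]
    exact mul_neg_of_pos_of_neg hc h1

omit hl in
lemma ne_zero {τ : Axis} (hτ : Pol a τ.n) {z : X} (hz : lor z.1 τ.n = -ε) {m : V} (hm : Pol a m) :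
    lor z.1 m ≠ 0 := fun e => by
  rcases hτ.thin geo ha hT hm (z := z) (by rw [hz, abs_neg, abs_of_pos hε]; linarith)
    (by rw [e, abs_zero]; linarith) with rfl | rfl
  · linarith
  · rw [lor_neg_right] at e
    linarith

lemma adj {t b : G} {τ : Axis} (ht : τ.For t.1) (hτ : Pol a τ.n) {z : X} (hz : lor z.1 τ.n = -ε)
    (hb : C.Adj g t b) {m : V} (hm : Pol a m) (h : lor z.1 m < 0) : lor (b • z).1 m < 0 := by
  obtain ⟨β, hβ⟩ := hl.axis b hb.1
  obtain ⟨β', hβ', e1, -⟩ := geo.ax.inv _ β hβ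
  obtain ⟨c, hc, e⟩ := hl.att b β hβ
  obtain ⟨c', hc', e'⟩ := hl.att b⁻¹ β' hβ'
  have key : ∀ m, Pol a m → lor z.1 m < 0 → lor m β.ξ ≤ 0 ∧ lor m β.η ≤ 0 := fun m hm h => by
    have h1 := adjPt geo ha hε hT hl ht hτ hz hb.2.1 hm h
    have h2 := adjPt geo ha hε hT hl ht hτ hz hb.2.2 hm h
    rw [e, lor_smul_left, lor_comm] at h1
    rw [e', e1, lor_smul_left, lor_comm] at h2
    exact ⟨nonpos_of_mul_nonpos_right h1 hc, nonpos_of_mul_nonpos_right h2 hc'⟩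
  rw [gs, lor_inv]
  have hm' : Pol a (b.1⁻¹ • m) := hm.smul b⁻¹
  refine (ne_zero geo ha hε hT hτ hz hm').lt_or_gt.resolve_right fun h1 => ?_
  have e2 : b.1⁻¹ • m = β.flow (-1 : ℤ) m := by rw [← geo.ax.zpow b.1 β hβ, zpow_neg_one]
  obtain ⟨h2, h3⟩ := key m hm h
  obtain ⟨h4, h5⟩ := key _ hm'.neg (by rw [lor_neg_right]; linarith)
  rw [lor_neg_left, e2, Axis.lor_flow_ξ, neg_nonpos] at h4
  rw [lor_neg_left, e2, Axis.lor_flow_η, neg_nonpos] at h5
  rw [e2, Axis.flow, h2.antisymm (nonneg_of_mul_nonneg_right h4 (Real.exp_pos _)),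
    h3.antisymm (nonneg_of_mul_nonneg_right h5 (Real.exp_pos _))] at h1
  simp at h1
  linarith

omit hl

variable {S : Type} [TopologicalSpace S] {p : X → S} (hp : IsQuotientCoveringMap p G)
  {f : S ≃ₜ S} (hf : IsTw p a ε k f) {F : X ≃ₜ X} (hF : ∀ x, p (F x) = f (p x))
include hp

omit geo ha hε hT in
lemma p_smul (γ : G) (z : X) : p (γ • z) = p z := hp.apply_eq_iff_mem_orbit.2 ⟨γ, rfl⟩

include hf

omit geo ha hε hT in
lemma pT (z : X) : p (T a ε k z) = f (p z) := by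
  rw [T]
  split_ifs with h
  · rw [p_smul hp, ← hf.inside _ h.choose_spec, p_smul hp]
  · refine (hf.outside _ ?_).symm
    rintro ⟨w, hw, e⟩
    obtain ⟨γ, rfl⟩ := hp.apply_eq_iff_mem_orbit.1 e
    exact h ⟨γ, hw⟩

include hF

lemma same {z z' : X} (h : ∀ γ : G, 0 < lor (γ • z).1 a.n * lor (γ • z').1 a.n) {c : G}
    (hc : F z = c • T a ε k z) : F z' = c • T a ε k z' := by
  obtain ⟨σ, h1, h2, h3, h4⟩ := seg z z' (geo.b1.revCS _ _).1
  have h5 : Continuous fun s => T a ε k (σ s) := continuous_iff_continuousAt.2 fun s =>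
    (T_cont geo k ha hε hT fun γ => by
      rw [gs, lor_inv]
      exact h4 s _ (by simpa only [gs, lor_inv] using h γ)).comp h1.continuousAt
  have := hp.isCoveringMap.eq_of_comp_eq (g₁ := fun s => F (σ s))
    (g₂ := fun s => c • T a ε k (σ s)) (F.continuous.comp h1)
    ((continuous_const_smul c.1).comp h5)
    (funext fun s => by simp only [Function.comp, hF, p_smul hp, pT k hp hf]) 0 (by rwa [h2])
  simpa only [h3] using congrFun this 1

lemma cross {z z' : X} (h : lor z.1 a.n = -ε) (h' : lor z'.1 a.n = ε) {c : G}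
    (hc : F z = c • z) : F z' = (c * g ^ k) • z' := by
  obtain ⟨e, ⟨e1, -⟩, -⟩ := geo.ax.fermi a
  obtain ⟨q, rfl⟩ := e.surjective z
  obtain ⟨q', rfl⟩ := e.surjective z'
  rw [e1] at h h'
  have := hp.isCoveringMap.eqOn_of_comp_eqOn (s := (univ ×ˢ Icc (-ε) ε : Set (ℝ × ℝ)))
    (g₁ := fun q => F (e q)) (g₂ := fun q => c • a.flowX (k * (1 + min q.2 0 / ε)) (e q))
    (isPreconnected_univ.prod isPreconnected_Icc) (F.continuous.comp e.continuous).continuousOn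
    ((continuous_const_smul c.1).comp (a.continuous_flowX.comp
      (Continuous.prodMk (by fun_prop) e.continuous))).continuousOn (fun r hr => ?_) (a := q)
    ⟨trivial, h.ge, by linarith⟩ ?_ (show q' ∈ _ from ⟨trivial, by linarith, h'.le⟩)
  · rw [mul_smul, zp geo ha]
    simpa [h', hε.le] using this
  · simp only [Function.comp, hF, p_smul hp]
    rcases le_or_gt r.2 0 with h1 | h1
    · rw [hf.inside _ ⟨by rw [e1]; exact hr.2.1, by rw [e1]; exact h1⟩, e1, min_eq_left h1]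
    · rw [← pT k hp hf, T_pos geo k ha hε hT (γ := 1) (by rwa [one_smul, e1])
        (by rw [one_smul, e1]; linarith [hr.2.2]), min_eq_right h1.le, zero_div, add_zero, mul_one,
        ← zp geo ha, p_smul hp]
  · rw [hc, h, min_eq_left (by linarith), neg_div, div_self hε.ne']
    simp [Axis.flowX_zero]

variable {α : MulAut G} (hα : ∀ (g : G) (x : X), F (g • x) = α g • F x)
include hα

lemma cross' (γ : G) {z z' : X} (h : lor z.1 (γ.1 • a.n) = -ε) (h' : lor z'.1 (γ.1 • a.n) = ε)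
    {c : G} (hc : F z = c • z) : F z' = (c * (γ * g * γ⁻¹) ^ k) • z' := by
  have := cross geo k ha hε hT hp hf hF (z := γ⁻¹ • z) (z' := γ⁻¹ • z') (c := α γ⁻¹ * c * γ)
    (by rw [gs, lor_inv]; simpa using h) (by rw [gs, lor_inv]; simpa using h')
    (by rw [hα, hc]; simp [mul_smul])
  rw [hα, mul_assoc, mul_assoc, mul_smul] at this
  rw [(MulAction.injective _) this, conj_zpow]
  simp [mul_smul]

include hl

lemma fix {t b c : G} {τ : Axis} (ht : τ.For t.1) (hτ : Pol a τ.n) {z : X}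
    (hz : lor z.1 τ.n = -ε) (hc : F z = c • z) (hb : C.Adj g t b) : α b * c = c * b := by
  obtain ⟨γ, -, h1⟩ := hτ.abs
  have h2 := h1 z
  rw [hz, abs_neg, abs_of_pos hε] at h2
  have h3 := same geo k ha hε hT hp hf hF (z := z) (z' := b • z) (c := c) (fun δ => ?_)
    (by rw [T_edge geo k ha hε hT h2.symm, hc])
  · rw [T_edge geo k ha hε hT (γ := γ * b⁻¹) (by rw [mul_smul, inv_smul_smul, ← h2]), hα, hc,
      ← mul_smul, ← mul_smul, ← inv_smul_eq_iff, ← mul_smul] at h3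
    exact (inv_mul_eq_one.1 (geo.b1.free _ _ h3)).symm
  · have hm : Pol a (δ.1⁻¹ • a.n) := ⟨δ⁻¹, Or.inl rfl⟩
    rw [gs δ, gs δ, lor_inv, lor_inv]
    rcases (ne_zero geo ha hε hT hτ hz hm).lt_or_gt with h4 | h4
    · exact mul_pos_of_neg_of_neg h4 (adj geo ha hε hT hl ht hτ hz hb hm h4)
    · have := adj geo ha hε hT hl ht hτ hz hb hm.neg (by rw [lor_neg_right]; linarith)
      rw [lor_neg_right] at this
      exact mul_pos h4 (by linarith)

end D3b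

open D3b in
theorem blockD3b (h : Geo) : StmtD3b := by
  intro S _ p hp Z _ _ C ν hl g a ε k ha hε hT _ f α hf ⟨F, hF, hα⟩ hP
  refine ⟨hP, fun t ht => ?_⟩
  have ex : ∀ (γ : G) (z : X), |lor z.1 (γ.1 • a.n)| = ε → ∃ c : G, F z = c • z := fun γ z hz => by
    obtain ⟨c, hc⟩ := hp.apply_eq_iff_mem_orbit.1 ((hF z).trans (pT k hp hf z).symm)
    rw [T_edge h k ha hε hT (γ := γ⁻¹) (by rw [gs, lor_inv]; simpa using hz)] at hc
    exact ⟨c, hc.symm⟩
  obtain ⟨τ, c, z, z', h1, h2, h3, h4, h5, h6⟩ : ∃ (τ : Axis) (c : G) (z z' : X), τ.For t.1 ∧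
      Pol a τ.n ∧ lor z.1 τ.n = -ε ∧ lor z'.1 τ.n = ε ∧ F z = c • z ∧ F z' = (c * t ^ k) • z' := by
    rcases ht with ht | ht <;> obtain ⟨γ, rfl⟩ := isConj_iff.1 ht
    · obtain ⟨τ, h1, h2⟩ := (ax_conj h ha γ).1
      obtain ⟨e, ⟨e1, -⟩, -⟩ := h.ax.fermi τ
      obtain ⟨c, hc⟩ := ex γ (e (0, -ε)) (by rw [← h2, e1, abs_neg, abs_of_pos hε])
      exact ⟨τ, c, _, e (0, ε), h1, ⟨γ, Or.inl h2⟩, e1 _, e1 _, hc,
        cross' h k ha hε hT hp hf hF hα γ (h2 ▸ e1 _) (h2 ▸ e1 _) hc⟩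
    · obtain ⟨τ, h1, h2⟩ := (ax_conj h ha γ).2
      obtain ⟨e, ⟨e1, -⟩, -⟩ := h.ax.fermi τ
      have h3 : ∀ q, lor (e q).1 (γ.1 • a.n) = -q.2 := fun q => by
        rw [← e1 q, h2, lor_neg_right, neg_neg]
      obtain ⟨c, hc⟩ := ex γ (e (0, ε)) (by rw [h3, abs_neg, abs_of_pos hε])
      refine ⟨τ, _, e (0, -ε), e (0, ε), h1, ⟨γ, Or.inr h2⟩, e1 _, e1 _,
        cross' h k ha hε hT hp hf hF hα γ (h3 _) (by rw [h3, neg_neg]) hc, ?_⟩
      rw [hc, conj_zpow, conj_zpow]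
      simp [mul_assoc]
  obtain ⟨τ', h7, -, -, h8, -⟩ := h.ax.inv _ τ h1
  refine ⟨c⁻¹, fun b hb => ?_, fun b hb => ?_⟩
  · rw [mul_assoc, inv_inv, fix h k ha hε hT hl hp hf hF hα h1 h2 h3 h5 hb]
    simp
  · have := fix h k ha hε hT hl hp hf hF hα (t := t⁻¹) h7 (h8 ▸ h2.neg)
      (by rw [h8, lor_neg_right, h4]) h6 hb
    rw [inv_inv, eq_mul_inv_iff_mul_eq, mul_assoc, mul_assoc, this]
    simp [mul_assoc]

end Pool.Agent.Lib.MP_003e01_gt
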