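import Pool.Agent.Lib.MP_003e01_gt.Blue

/-! Block DBL: the handlebody as a lens over the planar surface. -/

open Set Topology

namespace Pool.Agent.Lib.MP_003e01_gt

namespace DBL

/-- the upper half of the planar surface -/
abbrev PP : Type := {p : ℝ × ℝ // p ∈ Planar 5 ∧ 0 ≤ p.2}

lemma planar_congr {g : ℕ} {p q : ℝ × ℝ} (h1 : q.1 = p.1) (h2 : q.2 ^ 2 = p.2 ^ 2)
    (h : p ∈ Planar g) : q ∈ Planar g := by
  simp only [Planar, mem_ofPred_eq, h1, h2] at h ⊢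
  exact h

lemma pbd_congr {g : ℕ} {p q : ℝ × ℝ} (h1 : q.1 = p.1) (h2 : q.2 ^ 2 = p.2 ^ 2)
    (h : p ∈ PBd g) : q ∈ PBd g := by
  refine ⟨planar_congr h1 h2 h.1, ?_⟩
  rw [h1, h2]
  exact h.2

/-- folding along the horizontal axis -/
def fold (p : Planar 5) : PP :=
  ⟨(p.1.1, |p.1.2|), planar_congr (p := p.1) rfl (sq_abs _) p.2, abs_nonneg _⟩

lemma continuous_fold : Continuous fold := by
  refine Continuous.subtype_mk ?_ _
  fun_prop

open Classical in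
/-- the thickness function -/
noncomputable def lam (κ : Q ≃ₜ PP) (p : ℝ × ℝ) : ℝ :=
  if h : p ∈ Planar 5 then lamB (κ.symm (fold ⟨p, h⟩)).1 else 0

lemma lam_eq (κ : Q ≃ₜ PP) {p : ℝ × ℝ} (h : p ∈ Planar 5) :
    lam κ p = lamB (κ.symm (fold ⟨p, h⟩)).1 := dif_pos h

/-- a number with the sign of `y` -/
noncomputable def sg (y k : ℝ) : ℝ := if 0 ≤ y then k else -k

lemma sg_abs (y : ℝ) {k : ℝ} (hk : 0 ≤ k) : |sg y k| = k := by
  unfold sg
  split_ifs
  · exact abs_of_nonneg hk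
  · rw [abs_neg, abs_of_nonneg hk]

lemma sg_sg {y k : ℝ} (hk : 0 ≤ k) (h0 : k = 0 → y = 0) : sg (sg y k) |y| = y := by
  unfold sg
  by_cases h : 0 ≤ y
  · rw [if_pos h, if_pos hk, abs_of_nonneg h]
  · have : k ≠ 0 := fun e ↦ h (h0 e).ge
    have hk' : 0 < k := lt_of_le_of_ne hk this.symm
    rw [if_neg h, if_neg (by linarith), abs_of_neg (not_le.1 h), neg_neg]

lemma continuous_sg {T : Type} [TopologicalSpace T] {y k : T → ℝ} (hy : Continuous y)
    (hk : Continuous k) (h : ∀ t, y t = 0 → k t = 0) : Continuous fun t ↦ sg (y t) (k t) :=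
  Continuous.if_le hk hk.neg continuous_const hy fun t ht ↦ by rw [h t ht.symm, neg_zero]

theorem main (κ : Q ≃ₜ PP) (hR : ∀ z : Q, (κ z).1.2 = 0 ↔ lamR z.1 = 0)
    (hB : ∀ z : Q, (κ z).1 ∈ PBd 5 ↔ lamB z.1 = 0) : StmtDBL := by
  have hpl : ∀ (z : Q) (y : ℝ), ((κ z).1.1, sg y (κ z).1.2) ∈ Planar 5 := fun z y ↦
    planar_congr (p := (κ z).1) rfl (by rw [← sq_abs, sg_abs _ (κ z).2.2]) (κ z).2.1
  have hfold : ∀ (z : Q) (y : ℝ), fold ⟨_, hpl z y⟩ = κ z := fun z y ↦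
    Subtype.ext (Prod.ext rfl (sg_abs _ (κ z).2.2))
  have hlam : ∀ (z : Q) (y : ℝ), lam κ ((κ z).1.1, sg y (κ z).1.2) = lamB z.1 := fun z y ↦ by
    rw [lam_eq κ (hpl z y), hfold, κ.symm_apply_apply]
  have cz : Continuous fun x : Hw ↦ (⟨x.1.1, x.2.1⟩ : Q) :=
    Continuous.subtype_mk (by fun_prop) _
  have ck : Continuous fun x : Hw ↦ (κ ⟨x.1.1, x.2.1⟩).1 :=
    continuous_subtype_val.comp (κ.continuous.comp cz)
  have cp : Continuous fun q : Lens 5 (lam κ) ↦ (⟨q.1.1, q.2.1⟩ : Planar 5) :=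
    Continuous.subtype_mk (by fun_prop) _
  have cw : Continuous fun q : Lens 5 (lam κ) ↦ (κ.symm (fold ⟨q.1.1, q.2.1⟩)).1 :=
    continuous_subtype_val.comp (κ.symm.continuous.comp (continuous_fold.comp cp))
  refine ⟨lam κ, ⟨?_, fun p hp ↦ ?_, fun p hp ↦ ?_⟩,
    { toFun := fun x ↦ ⟨(((κ ⟨x.1.1, x.2.1⟩).1.1, sg x.1.2.1 (κ ⟨x.1.1, x.2.1⟩).1.2), x.1.2.2),
        hpl _ _, by rw [hlam]; exact x.2.2.2⟩
      invFun := fun q ↦ ⟨((κ.symm (fold ⟨q.1.1, q.2.1⟩)).1,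
          sg q.1.1.2 (lamR (κ.symm (fold ⟨q.1.1, q.2.1⟩)).1), q.1.2),
        (κ.symm _).2, sg_abs _ (lamR_nonneg (κ.symm _).2), by
          rw [← lam_eq κ q.2.1]; exact q.2.2⟩
      left_inv := fun x ↦ ?_
      right_inv := fun q ↦ ?_
      continuous_toFun := ?_
      continuous_invFun := ?_ }, fun x ↦ ?_⟩
  · rw [continuousOn_iff_continuous_domRestrict]
    have : (Planar 5).domRestrict (lam κ) = fun p ↦ lamB (κ.symm (fold p)).1 :=
      funext fun p ↦ lam_eq κ p.2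
    rw [this]
    exact continuous_lamB.comp
      (continuous_subtype_val.comp (κ.symm.continuous.comp continuous_fold))
  · rw [lam_eq κ hp]
    exact lamB_nonneg (κ.symm _).2
  · rw [lam_eq κ hp, ← hB, κ.apply_symm_apply]
    exact ⟨pbd_congr rfl (sq_abs _).symm, pbd_congr rfl (sq_abs _)⟩
  · refine Subtype.ext ?_
    simp only [hfold, κ.symm_apply_apply]
    refine Prod.ext rfl (Prod.ext ?_ rfl)
    have h1 : |x.1.2.1| = lamR x.1.1 := x.2.2.1
    simp only [← h1]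
    refine sg_sg (κ _).2.2 fun h ↦ ?_
    rw [hR] at h
    exact abs_eq_zero.1 (h1.trans h)
  · refine Subtype.ext (Prod.ext ?_ rfl)
    simp only [Subtype.coe_eta, κ.apply_symm_apply]
    refine Prod.ext rfl ?_
    refine sg_sg (lamR_nonneg (κ.symm _).2) fun h ↦ ?_
    rw [← hR, κ.apply_symm_apply] at h
    exact abs_eq_zero.1 h
  · refine Continuous.subtype_mk (Continuous.prodMk (Continuous.prodMk ck.fst
      (continuous_sg (by fun_prop) ck.snd fun x h ↦ ?_)) (by fun_prop)) _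
    have h1 : |x.1.2.1| = lamR x.1.1 := x.2.2.1
    rw [hR, ← h1, h, abs_zero]
  · refine Continuous.subtype_mk (Continuous.prodMk cw (Continuous.prodMk
      (continuous_sg (by fun_prop) (continuous_lamR.comp cw) fun q h ↦ ?_) (by fun_prop))) _
    refine (hR _).1 ?_
    rw [κ.apply_symm_apply]
    exact abs_eq_zero.2 h
  · change _ ↔ |x.1.2.2| = lam κ (_, sg _ _)
    rw [hlam]
    rfl

end DBL

theorem blockDBL (h1 : StmtKAP1) (h2 : StmtKAP2) : StmtDBL := by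
  obtain ⟨κ1, h1⟩ := h1
  obtain ⟨κ2, h2⟩ := h2
  refine DBL.main (κ1.trans κ2.symm) (fun z ↦ ?_) fun z ↦ ?_
  · rw [lamR_eq_zero, Homeomorph.trans_apply, (h2 _).1, κ2.apply_symm_apply]
    simp only [h1]
  · rw [lamB_eq_zero, Homeomorph.trans_apply, (h2 _).2, κ2.apply_symm_apply]
    simp only [h1]

end Pool.Agent.Lib.MP_003e01_gt
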