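import Pool.Agent.Lib.MP_003e01_gt.Blue

/-! Block E1: the universal covering of the boundary surface of the handlebody. -/

open Set Topology

namespace Pool.Agent.Lib.MP_003e01_gt

namespace E1

lemma sr_fix {z : X} {i : Fin 12} (h : lor z.1 (pole i) = 0) : sr i • z = z :=
  Subtype.ext (by rw [smul_val, sr_smul, h]; simp)

lemma exists_F (h : Geo) : ∃ F : X → X × ℝ × ℝ, Continuous F ∧
    ∀ (w : W), ∀ z ∈ Q, F (w • z) = (z, chR w * lamR z, chB w * lamB z) := by
  refine h.glue _ (fun w z => (z, chR w * lamR z, chB w * lamB z)) (fun w => ?_) ?_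
  · have h1 := continuous_lamR
    have h2 := continuous_lamB
    exact Continuous.continuousOn (by fun_prop)
  · intro w i z _ hi
    simp only [map_mul, chR_sr, chB_sr]
    by_cases he : i.val % 2 = 0
    · simp [he, (lamB_eq_zero z).2 ⟨i, he, hi⟩]
    · simp [he, (lamR_eq_zero z).2 ⟨i, by omega, hi⟩]

lemma exists_stab (h : Geo) (z : X) {u v : W} (h1 : chR u * lamR z = chR v * lamR z)
    (h2 : chB u * lamB z = chB v * lamB z) :
    ∃ t : W, t • z = z ∧ chR (u * t) = chR v ∧ chB (u * t) = chB v := by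
  obtain ⟨t, a1, a2, a3⟩ : ∃ t : W, t • z = z ∧ chR u * chR t = chR v ∧ chB t = 1 := by
    by_cases e : chR u = chR v
    · exact ⟨1, one_smul _ _, by simp [e], map_one _⟩
    · obtain ⟨i, b1, b2⟩ := (lamR_eq_zero z).1 (by
        by_contra h0; exact e (mul_right_cancel₀ h0 h1))
      refine ⟨sr i, sr_fix b2, ?_, by rw [chB_sr, if_neg (by omega)]⟩
      rw [chR_sr, if_neg (by omega)]
      rcases (h.b1.ch u).2 with c | c <;> rcases (h.b1.ch v).2 with d | d <;> simp_all
  obtain ⟨t', c1, c2, c3⟩ : ∃ t : W, t • z = z ∧ chB u * chB t = chB v ∧ chR t = 1 := by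
    by_cases e : chB u = chB v
    · exact ⟨1, one_smul _ _, by simp [e], map_one _⟩
    · obtain ⟨i, b1, b2⟩ := (lamB_eq_zero z).1 (by
        by_contra h0; exact e (mul_right_cancel₀ h0 h2))
      refine ⟨sr i, sr_fix b2, ?_, by rw [chR_sr, if_pos b1]⟩
      rw [chB_sr, if_pos b1]
      rcases (h.b1.ch u).1 with c | c <;> rcases (h.b1.ch v).1 with d | d <;> simp_all
  exact ⟨t * t', by rw [mul_smul, c1, a1], by simp [a2, c3, ← mul_assoc], by simp [a3, c2]⟩

lemma exists_sign {y t a b : ℝ} (h1 : |y| = a) (h2 : |t| = b) :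
    ∃ w ∈ ({1, sr 0, sr 1, sr 0 * sr 1} : Set W), chR w * a = y ∧ chB w * b = t := by
  have r0 : chR (sr 0) = 1 := by rw [chR_sr]; rfl
  have r1 : chR (sr 1) = -1 := by rw [chR_sr]; rfl
  have b0 : chB (sr 0) = -1 := by rw [chB_sr]; rfl
  have b1 : chB (sr 1) = 1 := by rw [chB_sr]; rfl
  subst h1 h2
  rcases abs_cases y with ⟨c, -⟩ | ⟨c, -⟩ <;> rcases abs_cases t with ⟨d, -⟩ | ⟨d, -⟩ <;> rw [c, d]
  · exact ⟨1, by simp, by simp, by simp⟩
  · exact ⟨sr 0, by simp, by simp [r0], by simp [b0]⟩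
  · exact ⟨sr 1, by simp, by simp [r1], by simp [b1]⟩
  · exact ⟨sr 0 * sr 1, by simp, by simp [r0, r1], by simp [b0, b1]⟩

lemma proj (h : Geo) : ∃ p, IsProj p := by
  obtain ⟨F, hF, hE⟩ := exists_F h
  have hm : ∀ x, F x ∈ Q ×ˢ univ ∧ |(F x).2.1| = lamR (F x).1 ∧ |(F x).2.2| = lamB (F x).1 := by
    intro x
    obtain ⟨w, z, hz, rfl⟩ := h.b1.cover x
    rw [hE w z hz]
    refine ⟨⟨hz, trivial⟩, ?_, ?_⟩
    · rcases (h.b1.ch w).2 with c | c <;> simp [c, abs_of_nonneg (lamR_nonneg hz)]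
    · rcases (h.b1.ch w).1 with c | c <;> simp [c, abs_of_nonneg (lamB_nonneg hz)]
  let p : X → Sw := fun x => ⟨⟨F x, (hm x).1.1, (hm x).2.1, (hm x).2.2.le⟩, (hm x).2.2⟩
  have hp : Continuous p := (hF.subtype_mk _).subtype_mk _
  have hK : IsCompact (⋃ w ∈ ({1, sr 0, sr 1, sr 0 * sr 1} : Set W), (w • ·) '' Q) :=
    (toFinite _).isCompact_biUnion fun w _ => h.b1.compact.image (continuous_const_smul w)
  have hq : IsQuotientMap p := by
    have := isCompact_iff_compactSpace.1 hK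
    have h1 := hp.comp (continuous_subtype_val
      (p := (· ∈ ⋃ w ∈ ({1, sr 0, sr 1, sr 0 * sr 1} : Set W), (w • ·) '' Q)))
    refine IsQuotientMap.of_comp continuous_subtype_val hp
      (h1.isClosedMap.isQuotientMap h1 fun s => ?_)
    obtain ⟨⟨⟨z, y, t⟩, hz, h2, h3⟩, h4⟩ := s
    obtain ⟨w, hw, h5, h6⟩ := exists_sign h2 h4
    refine ⟨⟨w • z, mem_biUnion hw ⟨z, hz, rfl⟩⟩, Subtype.ext (Subtype.ext ?_)⟩
    exact (hE w z hz).trans (Prod.ext rfl (Prod.ext h5 h6))
  obtain ⟨e⟩ := h.b1.homeo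
  have : LocallyCompactSpace X := e.isOpenEmbedding.locallyCompactSpace
  have : ProperlyDiscontinuousSMul G X := ⟨fun {K L} hK hL =>
    ((h.b1.proper K L hK hL).preimage Subtype.val_injective.injOn).subset fun g hg => by
      obtain ⟨_, ⟨z, hz, rfl⟩, h1⟩ := hg
      exact ⟨z, hz, h1⟩⟩
  have : ContinuousConstSMul G X := ⟨fun g => continuous_const_smul g.1⟩
  have : IsCancelSMul G X := isCancelSMul_iff_eq_one_of_smul_eq.2 h.b1.free
  refine ⟨p, hq.isQuotientCoveringMap_of_properlyDiscontinuousSMul fun {x y} => ?_, hE⟩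
  obtain ⟨v, z, hz, rfl⟩ := h.b1.cover y
  constructor
  · intro e
    obtain ⟨u, z', hz', rfl⟩ := h.b1.cover x
    have e1 : F (u • z') = F (v • z) := congrArg (·.1.1) e
    rw [hE u z' hz', hE v z hz] at e1
    obtain rfl : z' = z := congrArg (·.1) e1
    obtain ⟨t, a1, a2, a3⟩ := exists_stab h z' (congrArg (·.2.1) e1) (congrArg (·.2.2) e1)
    refine ⟨⟨u * t * v⁻¹, ?_, ?_⟩, ?_⟩
    · rw [map_mul, a3, ← map_mul, mul_inv_cancel, map_one]
    · rw [map_mul, a2, ← map_mul, mul_inv_cancel, map_one]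
    · show (u * t * v⁻¹) • v • z' = u • z'
      rw [mul_smul, inv_smul_smul, mul_smul, a1]
  · rintro ⟨g, rfl⟩
    refine Subtype.ext (Subtype.ext ?_)
    show F (g.1 • v • z) = F (v • z)
    rw [← mul_smul, hE _ z hz, hE _ z hz, map_mul, map_mul, g.2.1, g.2.2, one_mul, one_mul]

lemma compact (h : Geo) : CompactSpace Hw := by
  obtain ⟨A, hA⟩ := h.b1.compact.exists_bound_of_continuousOn continuous_lamR.continuousOn
  obtain ⟨B, hB⟩ := h.b1.compact.exists_bound_of_continuousOn continuous_lamB.continuousOn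
  have h1 := continuous_lamR
  have h2 := continuous_lamB
  refine isCompact_iff_compactSpace.1 ((h.b1.compact.prod ((isCompact_Icc (a := -A) (b := A)).prod
    (isCompact_Icc (a := -B) (b := B)))).of_isClosed_subset ?_ fun q hq => ⟨hq.1, ?_, ?_⟩)
  · exact (h.b1.compact.isClosed.preimage continuous_fst).inter
      ((isClosed_eq (f := fun q : X × ℝ × ℝ => |q.2.1|) (by fun_prop) (h1.comp continuous_fst)).inter
        (isClosed_le (f := fun q : X × ℝ × ℝ => |q.2.2|) (by fun_prop) (h2.comp continuous_fst)))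
  · exact abs_le.1 (hq.2.1.trans_le ((le_abs_self _).trans (hA _ hq.1)))
  · exact abs_le.1 (hq.2.2.trans ((le_abs_self _).trans (hB _ hq.1)))

end E1

theorem blockE1 (h : Geo) : StmtE1 where
  proj := E1.proj h
  compact := E1.compact h
  closed := by
    have h2 := continuous_lamB
    exact isClosed_eq (by fun_prop) (by fun_prop)
  chart s := by
    obtain ⟨p, hp⟩ := E1.proj h
    obtain ⟨e⟩ := h.b1.homeo
    obtain ⟨x, rfl⟩ := hp.cov.surjective s
    have hl := hp.cov.isCoveringMap.isLocalHomeomorph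
    exact ⟨(hl.localInverseAt x).transHomeomorph e, hl.apply_self_mem_localInverseAt_source⟩

end Pool.Agent.Lib.MP_003e01_gt
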