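import Pool.Agent.Lib.MP_003e01_gt.Blue

/-! Homeomorphisms which extend to the handlebody preserve the kernel. -/

open Set Topology unitInterval

namespace Pool.Agent.Lib.MP_003e01_gt

namespace E2

lemma chB_redH (w : W) : chB (redH w) = 1 := by
  induction w using cs.simple_induction_left with
  | one => simp
  | mul_simple_left w i ih =>
    rw [map_mul, map_mul, ih, mul_one, redH_sr]
    split_ifs with h
    · simp
    · rw [chB_sr, if_neg h]

lemma chR_redH (w : W) : chR (redH w) = chR w := by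
  induction w using cs.simple_induction_left with
  | one => simp
  | mul_simple_left w i ih =>
    rw [map_mul, map_mul, ih, map_mul, redH_sr]
    split_ifs with h
    · rw [map_one, chR_sr, if_pos h]
    · rfl

lemma exists_fold (h : Geo) : ∃ φ : X → X, Continuous φ ∧
    (∀ (w : W), ∀ z ∈ Q, φ (w • z) = redH w • z) ∧ ∀ (w : W) x, φ (w • x) = redH w • φ x := by
  obtain ⟨φ, h1, h2⟩ := h.glue X (fun w z => redH w • z)
    (fun w => (continuous_const_smul _).continuousOn) fun w i z _ hz => by
      have : sr i • z = z := Subtype.ext (by rw [smul_val, sr_smul, hz]; simp)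
      rw [map_mul, mul_smul, redH_sr]
      split_ifs
      · rw [one_smul]
      · rw [this]
  refine ⟨φ, h1, h2, fun w x => ?_⟩
  obtain ⟨w', z, hz, rfl⟩ := h.b1.cover x
  rw [← mul_smul, h2 _ z hz, h2 _ z hz, map_mul, mul_smul]

/-- pushing the handlebody to the top half of its boundary -/
noncomputable def push (q : I × Hw) : Hw :=
  ⟨(q.2.1.1, q.2.1.2.1, (1 - (q.1 : ℝ)) * q.2.1.2.2 + q.1 * lamB q.2.1.1), q.2.2.1, q.2.2.2.1, by
    have h0 := q.1.2.1
    have h1 := q.1.2.2
    have h2 := abs_le.1 q.2.2.2.2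
    refine abs_le.2 ⟨?_, ?_⟩ <;> nlinarith [h2.1, h2.2]⟩

lemma continuous_push : Continuous push := by
  refine Continuous.subtype_mk ?_ _
  have := continuous_lamB
  fun_prop

/-- the end of the push -/
noncomputable def top (q : Hw) : Sw :=
  ⟨push (1, q), by
    show |(1 - (1 : ℝ)) * q.1.2.2 + 1 * lamB q.1.1| = lamB q.1.1
    rw [sub_self, zero_mul, zero_add, one_mul, abs_of_nonneg (lamB_nonneg q.2.1)]⟩

lemma continuous_top : Continuous top :=
  (continuous_push.comp (continuous_const.prodMk continuous_id)).subtype_mk _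

lemma push_zero (q : Hw) : push (0, q) = q := by
  refine Subtype.ext (Prod.ext rfl (Prod.ext rfl ?_))
  simp [push]

lemma half (h : Geo) {p : X → Sw} (hp : IsProj p) {f : Sw ≃ₜ Sw} {α : MulAut G}
    (hi : Induces p f α) (he : Ext Sw f) {g : G} (hg : g ∈ NS) : α g ∈ NS := by
  obtain ⟨φ, hφ, h1, h2⟩ := exists_fold h
  obtain ⟨F, hF, hα⟩ := hi
  obtain ⟨Φ, hΦ⟩ := he
  obtain ⟨e⟩ := h.b1.homeo
  have : ConnectedSpace X := e.symm.surjective.connectedSpace e.symm.continuous
  have cov := hp.cov.isCoveringMap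
  have ht : ∀ x, top (p x) = p (φ x) := by
    intro x
    obtain ⟨w, z, hz, rfl⟩ := h.b1.cover x
    refine Subtype.ext (Subtype.ext ?_)
    rw [h1 w z hz, hp.eq _ z hz, chB_redH, chR_redH]
    simp [top, push, hp.eq w z hz]
  set Hm : C(I × X, Sw) := ⟨fun q => top (Φ (push (q.1, p q.2))),
    continuous_top.comp (Φ.continuous.comp (continuous_push.comp (continuous_fst.prodMk
      (continuous_subtype_val.comp (cov.continuous.comp continuous_snd)))))⟩ with hH
  have H0 : ∀ x, Hm (0, x) = p ((⟨φ ∘ F, hφ.comp F.continuous⟩ : C(X, X)) x) := fun x => by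
    show top (Φ (push (0, p x))) = p (φ (F x))
    rw [push_zero, hΦ, ← hF, ht]
  have H1 : ∀ x, Hm (1, x) = p (φ (F (φ x))) := fun x => by
    show top (Φ (top (p x))) = _
    rw [hΦ, ht x, ← hF, ht]
  set L := cov.liftHomotopy Hm _ H0
  have hL : ∀ q, p (L q) = Hm q := congrFun (cov.liftHomotopy_lifts Hm _ H0)
  have hL0 : ∀ x, L (0, x) = φ (F x) := cov.liftHomotopy_zero Hm _ H0
  set r : G := ⟨redH (α g).1, chB_redH _, (chR_redH _).trans (α g).2.2⟩ with hr
  have h3 : (fun s : I => L (s, g • x0)) = fun s => r • L (s, x0) := by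
    refine cov.eq_of_comp_eq (by fun_prop) ?_ (funext fun s => ?_) 0 ?_
    · exact (continuous_const_smul r.1).comp (by fun_prop)
    · show p (L (s, g • x0)) = p (r • L (s, x0))
      rw [hp.cov.map_smul, hL, hL]
      show top (Φ (push (s, p (g • x0)))) = top (Φ (push (s, p x0)))
      rw [hp.cov.map_smul]
    · show L (0, g • x0) = r • L (0, x0)
      rw [hL0, hL0, hα]
      exact h2 _ _
  obtain ⟨γ, hγ⟩ := hp.cov.apply_eq_iff_mem_orbit.1 ((hL (1, x0)).trans (H1 x0))
  have h4 : (fun x => L (1, x)) = fun x => γ • φ (F (φ x)) := by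
    refine cov.eq_of_comp_eq (by fun_prop) ?_ (funext fun x => ?_) x0 hγ.symm
    · exact (continuous_const_smul γ.1).comp (by fun_prop)
    · show p (L (1, x)) = p (γ • φ (F (φ x)))
      rw [hp.cov.map_smul, hL, H1]
  have h5 : L (1, g • x0) = L (1, x0) := by
    have e1 : φ (g • x0) = φ x0 := by
      have := h2 g.1 x0
      rwa [show redH g.1 = 1 from hg, one_smul] at this
    rw [congrFun h4 (g • x0), congrFun h4 x0, e1]
  have h6 : r = 1 := h.b1.free r (L (1, x0)) ((congrFun h3 1).symm.trans h5)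
  exact congrArg Subtype.val h6

end E2

theorem blockE2 (h : Geo) : StmtE2 := fun _ hp _ α hi he g =>
  ⟨fun hg => by simpa using E2.half h hp hi.inv he.inv hg, E2.half h hp hi he⟩

end Pool.Agent.Lib.MP_003e01_gt
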