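import Pool.Agent.Lib.MP_003e01_gt.Blue

/-! Block EXT: conjugating a pushable homeomorphism by a homeomorphism supported off the track. -/

open Set Topology Filter

namespace Pool.Agent.Lib.MP_003e01_gt

namespace EXT

variable {H : Type} [TopologicalSpace H] {S : Set H} {c : S × Ioc (0 : ℝ) 1 → H} {δ : ℝ}

/-- the product extension over the part of the collar above `δ` -/
noncomputable def hat (c : S × Ioc (0 : ℝ) 1 → H) (δ : ℝ) (ψ : S → S) : H → H :=
  Function.extend c (fun p => if δ < p.2.1 then c (ψ p.1, p.2) else c p) id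

omit [TopologicalSpace H] in
lemma hat_pos (hc : Function.Injective c) (ψ : S → S) {p : S × Ioc (0 : ℝ) 1} (h : δ < p.2.1) :
    hat c δ ψ (c p) = c (ψ p.1, p.2) := by
  rw [hat, hc.extend_apply, if_pos h]

omit [TopologicalSpace H] in
lemma hat_neg (hc : Function.Injective c) (ψ : S → S) {x : H}
    (h : ∀ p, c p = x → δ < p.2.1 → ψ p.1 = p.1) : hat c δ ψ x = x := by
  by_cases e : ∃ p, c p = x
  · obtain ⟨p, rfl⟩ := e
    rw [hat, hc.extend_apply]
    split_ifs with h'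
    · rw [h p rfl h']
    · rfl
  · rw [hat, Function.extend_apply' _ _ _ e]; rfl

omit [TopologicalSpace H] in
lemma hat_hat (hc : Function.Injective c) {ψ φ : S → S} (e : ∀ s, ψ (φ s) = s) (x : H) :
    hat c δ ψ (hat c δ φ x) = x := by
  by_cases h : ∃ p, c p = x ∧ δ < p.2.1
  · obtain ⟨p, rfl, h⟩ := h
    rw [hat_pos hc φ h, hat_pos hc ψ (p := (φ p.1, p.2)) h, e]
  · have : ∀ χ : S → S, hat c δ χ x = x := fun χ => hat_neg hc χ fun p e h' => (h ⟨p, e, h'⟩).elim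
    rw [this, this]

omit [TopologicalSpace H] in
lemma hat_mem (hc : Function.Injective c) (ψ : S → S) {K : Set S} {x : H}
    (hx : x ∉ c '' {p | p.1 ∈ K ∧ p.2.1 = δ}) : hat c δ ψ x ∉ c '' {p | p.1 ∈ K ∧ p.2.1 = δ} := by
  by_cases h : ∃ p, c p = x ∧ δ < p.2.1
  · obtain ⟨p, rfl, h⟩ := h
    rw [hat_pos hc ψ h, hc.mem_set_image]
    exact fun h' => h.ne' h'.2
  · rwa [hat_neg hc ψ fun p e h' => (h ⟨p, e, h'⟩).elim]

lemma hat_cont (hc : IsOpenEmbedding c) {ψ : S → S} (hψ : Continuous ψ) {K : Set S}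
    (hK : ∀ s, s ∉ K → ψ s = s) (hcl : IsClosed (c '' {p | p.1 ∈ K ∧ δ ≤ p.2.1})) {x : H}
    (hx : x ∉ c '' {p | p.1 ∈ K ∧ p.2.1 = δ}) : ContinuousAt (hat c δ ψ) x := by
  by_cases h : x ∈ c '' {p | p.1 ∈ K ∧ δ ≤ p.2.1}
  · obtain ⟨p, hp, rfl⟩ := h
    have h1 : δ < p.2.1 := hp.2.lt_of_ne fun e => hx ⟨p, ⟨hp.1, e.symm⟩, rfl⟩
    rw [← hc.continuousAt_iff]
    have h2 : Continuous fun p : S × Ioc (0 : ℝ) 1 => c (ψ p.1, p.2) :=
      hc.continuous.comp (by fun_prop)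
    refine h2.continuousAt.congr ?_
    filter_upwards [(isOpen_lt continuous_const
      (by fun_prop : Continuous fun p : S × Ioc (0 : ℝ) 1 => p.2.1)).mem_nhds h1] with q hq
    exact (hat_pos hc.injective ψ hq).symm
  · refine continuousAt_id.congr ?_
    filter_upwards [hcl.isOpen_compl.mem_nhds h] with y hy
    exact (hat_neg hc.injective ψ fun p e h' => hK _ fun hk => hy ⟨p, ⟨hk, h'.le⟩, e⟩).symm

lemma compact_band (hc : Continuous c) {K : Set S} (hK : IsCompact K) (h0 : 0 < δ) {T : Set ℝ}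
    (hT : IsClosed T) (hT' : ∀ t ∈ T, δ ≤ t) : IsCompact (c '' {p | p.1 ∈ K ∧ p.2.1 ∈ T}) := by
  refine (hK.prod (t := {t : Ioc (0 : ℝ) 1 | t.1 ∈ T}) ?_).image hc
  rw [Subtype.isCompact_iff]
  convert (isCompact_Icc (a := δ) (b := 1)).inter_right hT using 1
  ext t
  constructor
  · rintro ⟨t, ht, rfl⟩
    exact ⟨⟨hT' _ ht, t.2.2⟩, ht⟩
  · rintro ⟨h1, h2⟩
    exact ⟨⟨t, h0.trans_le h1.1, h1.2⟩, h2, rfl⟩

end EXT

open EXT in
theorem blockEXT : StmtEXT := by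
  rintro H _ _ _ S hS ⟨c, hc, hc1⟩ ψ τ O hO hψ ⟨B, hB, hBO, hP⟩
  have : CompactSpace S := isCompact_iff_compactSpace.1 hS.isCompact
  have hK : IsCompact Oᶜ := hO.isClosed_compl.isCompact
  obtain ⟨δ, h0, h1, hδ⟩ : ∃ δ : ℝ, 0 < δ ∧ δ < 1 ∧ ∀ p : S × Ioc (0 : ℝ) 1, p.1 ∈ Oᶜ →
      p.2.1 = δ → c p ∉ B := by
    obtain ⟨u, v, -, hv, h1, h2, h3⟩ := generalized_tube_lemma hK
      (isCompact_singleton (x := (⟨1, one_pos, le_rfl⟩ : Ioc (0 : ℝ) 1)))
      (hB.isClosed.isOpen_compl.preimage hc.continuous) (by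
        rintro ⟨s, t⟩ ⟨hs, rfl⟩ h
        exact hs (hBO s (hc1 s ▸ h)))
    obtain ⟨ε, hε, h4⟩ := Metric.isOpen_iff.1 hv _ (h2 rfl)
    refine ⟨1 - min (ε / 2) (1 / 2), by linarith [min_le_right (ε / 2) (1 / 2 : ℝ)],
      by linarith [lt_min (half_pos hε) (one_half_pos (α := ℝ))], fun p hp e => ?_⟩
    refine h3 (mk_mem_prod (h1 hp) (h4 ?_))
    rw [Metric.mem_ball, Subtype.dist_eq, e, Real.dist_eq, sub_sub_cancel_left, abs_neg,
      abs_of_pos (lt_min (half_pos hε) one_half_pos)]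
    exact (min_le_left _ _).trans_lt (half_lt_self hε)
  have hD := (compact_band hc.continuous hK h0 (isClosed_singleton (x := δ))
    fun t ht => ht.ge).isClosed
  have hD' := (compact_band hc.continuous hK h0 isClosed_Ici fun t ht => ht).isClosed
  obtain ⟨Φ, hΦ, Z, hZ, hZU, hfix⟩ := hP _ hD.isOpen_compl
    (fun s hs ⟨p, hp, e⟩ => by
      have := hc.injective (e.trans (hc1 ⟨s, hs⟩).symm)
      rw [this] at hp
      exact h1.ne' hp.2)
    fun x hx ⟨p, hp, e⟩ => hδ p hp.1 hp.2 (e ▸ hx)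
  have hψ1 : ∀ s, s ∉ Oᶜ → ψ s = s := fun s hs => hψ s (not_not.1 hs)
  have hψ2 : ∀ s, s ∉ Oᶜ → ψ.symm s = s := fun s hs => by
    rw [Homeomorph.symm_apply_eq, hψ1 s hs]
  let e : H ≃ H := ⟨hat c δ ψ, hat c δ ψ.symm, hat_hat hc.injective ψ.symm_apply_apply,
    hat_hat hc.injective ψ.apply_symm_apply⟩
  have hcont : Continuous ((e.symm.trans Φ.toEquiv).trans e) := by
    refine continuous_iff_continuousAt.2 fun x => ?_
    have hZ' : IsCompact (hat c δ ψ '' Z) := hZ.image_of_continuousOn fun z hz =>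
      (hat_cont hc ψ.continuous hψ1 hD' (hZU hz)).continuousWithinAt
    by_cases hx : x ∈ hat c δ ψ '' Z
    · have h2 : x ∉ c '' {p | p.1 ∈ Oᶜ ∧ p.2.1 = δ} := by
        obtain ⟨z, hz, rfl⟩ := hx
        exact hat_mem hc.injective ψ (hZU hz)
      have h3 := hat_mem hc.injective ψ.symm h2
      have h4 : Φ (hat c δ ψ.symm x) ∉ c '' {p | p.1 ∈ Oᶜ ∧ p.2.1 = δ} := fun h => by
        have := Φ.injective (hfix _ fun hz => hZU hz h)
        exact h3 (this ▸ h)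
      exact (hat_cont hc ψ.continuous hψ1 hD' h4).comp (f := fun x => Φ (hat c δ ψ.symm x))
        (Φ.continuous.continuousAt.comp (hat_cont hc ψ.symm.continuous hψ2 hD' h2))
    · refine continuousAt_id.congr ?_
      filter_upwards [hZ'.isClosed.isOpen_compl.mem_nhds hx] with y hy
      change y = e (Φ (e.symm y))
      rw [hfix _ fun hz => hy ⟨_, hz, e.apply_symm_apply y⟩, e.apply_symm_apply]
  refine ⟨hcont.homeoOfEquivCompactToT2, fun s => ?_⟩
  have key : ∀ (χ : S → S) (s : S), hat c δ χ s = χ s := fun χ s => by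
    rw [← hc1 s, hat_pos hc.injective χ h1, hc1]
  change hat c δ ψ (Φ (hat c δ ψ.symm s)) = _
  rw [key, hΦ, key]
  rfl

end Pool.Agent.Lib.MP_003e01_gt
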