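import Pool.Agent.Lib.MP_003e01_gt.Blue

/-! Final assembly, part one: group identities, transport lemmas. -/

open Set Topology

namespace Pool.Agent.Lib.MP_003e01_gt

namespace F

section
variable {Γ : Type} [Group Γ]

lemma paW_eq (Ψ Τ : Fin 3 → Γ) : paW Ψ Τ = pushW Ψ Τ 2 * pushW Ψ Τ 1 * pushW Ψ Τ 0 := rfl

lemma conj_paW (Ψ Τ : Fin 3 → Γ) (h1 : ∀ i j, Commute (Ψ i) (Ψ j)) (h2 : ∀ i j, Commute (Τ i) (Τ j))
    (h3 : ∀ i, Commute (Ψ i) (Τ i)) :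
    glueW Ψ Τ * paW Ψ Τ * (glueW Ψ Τ)⁻¹ =
      (pushW' Ψ Τ 0)⁻¹ * (pushW' Ψ Τ 2)⁻¹ * (pushW' Ψ Τ 1)⁻¹ := by
  rw [mul_inv_eq_iff_eq_mul]
  show Ψ 0 * Ψ 1 * (Τ 0)⁻¹ * Ψ 2 * (((Ψ 2)⁻¹ * (Τ 0 * (Τ 1)⁻¹) * Ψ 2) *
    ((Ψ 1)⁻¹ * (Τ 2 * (Τ 0)⁻¹) * Ψ 1) * ((Ψ 0)⁻¹ * (Τ 1 * (Τ 2)⁻¹) * Ψ 0)) =
    (Ψ 0 * (Τ 1 * (Τ 2)⁻¹) * (Ψ 0)⁻¹)⁻¹ * (Ψ 2 * (Τ 0 * (Τ 1)⁻¹) * (Ψ 2)⁻¹)⁻¹ *
      (Ψ 1 * (Τ 2 * (Τ 0)⁻¹) * (Ψ 1)⁻¹)⁻¹ * (Ψ 0 * Ψ 1 * (Τ 0)⁻¹ * Ψ 2)
  have ab := h1 0 1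
  have ac := h1 0 2
  have bc := h1 1 2
  have xy := h2 0 1
  have xz := h2 0 2
  have yz := h2 1 2
  have ax := h3 0
  have by' := h3 1
  have cz := h3 2
  generalize Ψ 0 = a at *
  generalize Ψ 1 = b at *
  generalize Ψ 2 = c at *
  generalize Τ 0 = x at *
  generalize Τ 1 = y at *
  generalize Τ 2 = z at *
  have e1 : b * y⁻¹ * c * b⁻¹ = y⁻¹ * c := by
    rw [by'.inv_right.eq, mul_assoc y⁻¹, bc.eq]; group
  have e2 : b⁻¹ * a * b = a := by rw [mul_assoc, ab.eq]; group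
  have e3 : x * z⁻¹ * a * x⁻¹ = z⁻¹ * a := by
    rw [xz.inv_right.eq, mul_assoc z⁻¹, ← ax.eq]; group
  have e4 : c⁻¹ * b * z⁻¹ * a * c = b * z⁻¹ * a := by
    have : Commute (b * z⁻¹ * a) c := (bc.mul_left cz.symm.inv_left).mul_left ac
    calc _ = c⁻¹ * ((b * z⁻¹ * a) * c) := by group
      _ = _ := by rw [this.eq]; group
  calc _ = a * (b * y⁻¹ * c * b⁻¹) * z * x⁻¹ * b * a⁻¹ * y * z⁻¹ * a := by group
    _ = a * (y⁻¹ * (c * z)) * (x⁻¹ * (b * a⁻¹)) * y * z⁻¹ * a := by rw [e1]; group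
    _ = a * (y⁻¹ * z) * (c * (x⁻¹ * a⁻¹)) * (b * y) * z⁻¹ * a := by
      rw [cz.eq, ab.symm.inv_right.eq]; group
    _ = a * (z * y⁻¹) * ((c * a⁻¹) * x⁻¹) * (y * b) * z⁻¹ * a := by
      rw [yz.inv_left.eq, ← ax.inv_inv.eq, by'.eq]; group
    _ = a * (z * y⁻¹) * a⁻¹ * c * (x⁻¹ * y) * (b * z⁻¹ * a) := by
      rw [← ac.inv_left.eq]; group
    _ = a * (z * y⁻¹) * a⁻¹ * c * (y * x⁻¹) * (c⁻¹ * b * (z⁻¹ * a) * c) := by
      rw [xy.inv_left.eq, ← e4]; group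
    _ = a * (z * y⁻¹) * a⁻¹ * c * (y * x⁻¹) *
        (c⁻¹ * b * (x * z⁻¹ * (b⁻¹ * a * b) * x⁻¹) * c) := by rw [e2, e3]
    _ = _ := by group

end

section
variable {S : Type} [TopologicalSpace S]

lemma commute_of_disjoint {f g : S ≃ₜ S} {A B : Set S} (hf : ∀ s, s ∉ A → f s = s)
    (hA : ∀ s ∈ A, f s ∈ A) (hg : ∀ s, s ∉ B → g s = s) (hB : ∀ s ∈ B, g s ∈ B)
    (h : ∀ s ∈ A, s ∉ B) : Commute f g := by
  refine Homeomorph.ext fun s => ?_
  show f (g s) = g (f s)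
  by_cases h1 : s ∈ A
  · rw [hg s (h s h1), hg _ (h _ (hA s h1))]
  · rw [hf s h1]
    by_cases h2 : s ∈ B
    · exact hf _ fun h3 => h _ h3 (hB s h2)
    · rw [hg s h2, hf s h1]

lemma induces_pow {p : X → S} {f : S ≃ₜ S} {α : MulAut G} (h : Induces p f α) (k : ℕ) :
    Induces p (f ^ k) (α ^ k) := by
  induction k with
  | zero => simpa using Induces.one p
  | succ k ih => rw [pow_succ, pow_succ]; exact ih.mul h

lemma coe_pow_apply (f : S ≃ₜ S) (k : ℕ) (s : S) : (f ^ k) s = f^[k] s := by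
  induction k generalizing s with
  | zero => rfl
  | succ k ih => rw [pow_succ, Function.iterate_succ_apply, ← ih]; rfl

variable {T : Type} [TopologicalSpace T]

lemma homotopic_transport (j : S ≃ₜ T) {f : C(T, T)} {f₀ : C(S, S)} (h : ∀ s, f (j s) = j (f₀ s)) :
    f.Homotopic (ContinuousMap.id T) ↔ f₀.Homotopic (ContinuousMap.id S) := by
  constructor
  · intro H
    have h1 := ((ContinuousMap.Homotopic.refl (j.symm : C(T, S))).comp H).comp
      (ContinuousMap.Homotopic.refl (j : C(S, T)))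
    convert h1 using 1
    · ext s; simp [h]
    · ext s; simp
  · intro H
    have h1 := ((ContinuousMap.Homotopic.refl (j : C(S, T))).comp H).comp
      (ContinuousMap.Homotopic.refl (j.symm : C(T, S)))
    convert h1 using 1
    · ext t; simp [← h]
    · ext t; simp

lemma periodic_transport (j : S ≃ₜ T) {f : C(T, T)} {f₀ : S ≃ₜ S} (h : ∀ s, f (j s) = j (f₀ s))
    (hp : IsPeriodic f) : ∃ k : ℕ, 0 < k ∧
      ((f₀ ^ k : S ≃ₜ S) : C(S, S)).Homotopic (ContinuousMap.id S) := by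
  obtain ⟨k, hk, H⟩ := hp
  refine ⟨k, hk, (homotopic_transport j fun s => ?_).1 H⟩
  show f^[k] (j s) = j ((f₀ ^ k) s)
  rw [coe_pow_apply]
  exact (Function.Semiconj.iterate_right (f := j) (ga := f₀) (gb := f) (fun s => (h s).symm) k s).symm

lemma sameCurve_map (j : C(T, S)) {c d : C(Circle, T)} (h : SameCurve c d) :
    SameCurve (j.comp c) (j.comp d) := by
  rcases h with h | h
  · exact Or.inl ((ContinuousMap.Homotopic.refl j).comp h)
  · exact Or.inr ((ContinuousMap.Homotopic.refl j).comp h)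

lemma reducible_transport (j : S ≃ₜ T) {f : C(T, T)} {f₀ : C(S, S)} (h : ∀ s, f (j s) = j (f₀ s))
    (hr : IsReducible f) : IsReducible f₀ := by
  obtain ⟨n, c, σ, h1, h2, h3⟩ := hr
  refine ⟨n, fun i => (j.symm : C(T, S)).comp (c i), σ, fun i => ⟨?_, fun hn => (h1 i).2 ?_⟩,
    fun i k hik => ?_, fun i => ?_⟩
  · exact j.symm.injective.comp (h1 i).1
  · have := hn.comp_right (j : C(S, T))
    convert this using 1
    ext z; simp
  · rw [Set.disjoint_left]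
    rintro _ ⟨a, rfl⟩ ⟨b, hb⟩
    exact Set.disjoint_left.1 (h2 i k hik) ⟨a, rfl⟩ ⟨b, j.symm.injective hb⟩
  · convert sameCurve_map (j.symm : C(T, S)) (h3 i) using 1
    ext z
    apply j.injective
    simp [← h]

end

lemma collar_transport {H H' : Type} [TopologicalSpace H] [TopologicalSpace H'] (e : H ≃ₜ H')
    {S : Set H} {S' : Set H'} (h : ∀ x, e x ∈ S' ↔ x ∈ S) (hc : HasCollar S) : HasCollar S' := by
  obtain ⟨c, h1, h2⟩ := hc
  let j : S ≃ₜ S' := e.subtype fun x => (h x).symm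
  refine ⟨e ∘ c ∘ (j.symm.prodCongr (Homeomorph.refl _)), ?_, fun s => ?_⟩
  · exact e.isOpenEmbedding.comp (h1.comp (Homeomorph.isOpenEmbedding _))
  · show e (c (j.symm s, _)) = s
    have := h2 (j.symm s)
    erw [this]
    exact congrArg Subtype.val (j.apply_symm_apply s)

lemma same_map {Γ : Type} [Group Γ] (α : MulAut Γ) {a b : Γ} (h : Same a b) : Same (α a) (α b) := by
  rcases h with h | h
  · exact Or.inl (α.toMonoidHom.map_isConj h)
  · refine Or.inr ?_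
    rw [← map_inv]; exact α.toMonoidHom.map_isConj h

lemma same_of_inner {Γ : Type} [Group Γ] {α : MulAut Γ} (h : Inner α) (a : Γ) : Same (α a) a := by
  obtain ⟨γ, hγ⟩ := h
  exact Same.symm (Or.inl (isConj_iff.2 ⟨γ, (hγ a).symm⟩))

/-- the dichotomy for a homeomorphism of the surface -/
lemma not_per_red {S : Type} [TopologicalSpace S] {p : X → S} (hp : D1Facts p)
    {Z : Type} [LinearOrder Z] [MulAction G Z] (C : CG G Z)
    (hs : ∀ (c : C(Circle, S)) (g : G), Function.Injective c → Rep p c g → ¬ C.Meets g g)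
    {a : G} (ha : a ≠ 1) (ha' : ¬ C.Meets a a) {f : S ≃ₜ S} {α : MulAut G} (h : Induces p f α)
    (hα : C.Aper α) :
    (∀ k : ℕ, 0 < k → ¬ ((f ^ k : S ≃ₜ S) : C(S, S)).Homotopic (ContinuousMap.id S)) ∧
      ¬ IsReducible (f : C(S, S)) := by
  constructor
  · intro k hk H
    exact hα k a hk ha ha' (same_of_inner ((hp.inner_iff _ _ (induces_pow h k)).2 H) a)
  · rintro ⟨n, c, σ, h1, -, h3⟩
    choose g hg using fun i => hp.rep_ex (c i)
    have step : ∀ i, Same (α (g i)) (g (σ i)) := fun i =>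
      hp.rep_same _ _ _ _ (h3 i) (hp.rep_map _ _ _ _ (hg i) h) (hg _)
    have iter : ∀ (m : ℕ) i, Same ((α ^ m) (g i)) (g ((σ ^ m) i)) := by
      intro m
      induction m with
      | zero => intro i; simpa using Same.refl _
      | succ m ih =>
        intro i
        rw [pow_succ', pow_succ']
        exact (same_map α (ih i)).trans (step _)
    have h4 := iter (orderOf σ) 0
    rw [pow_orderOf_eq_one] at h4
    refine hα (orderOf σ) (g 0) (orderOf_pos σ) (fun h5 => (h1 0).2 (hp.rep_one _ (h5 ▸ hg 0)))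
      (hs _ _ (h1 0).1 (hg 0)) h4

end F

end Pool.Agent.Lib.MP_003e01_gt
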