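import Pool.Agent.Lib.MP_003e01_gt.Fa

/-! Final assembly, part two. -/

open Set Topology

namespace Pool.Agent.Lib.MP_003e01_gt

namespace F

lemma thin_mono {g : G} {a : Axis} {ε ε' : ℝ} (h : Thin g a ε) (hε : ε' ≤ ε) : Thin g a ε' :=
  fun γ z h1 h2 => h γ z (by linarith) (by linarith)

lemma ev_of {P : ℝ → Prop} {ε₀ : ℝ} (h0 : 0 < ε₀) (h : ∀ ε, 0 < ε → ε ≤ ε₀ → P ε) :
    ∀ᶠ ε in 𝓝[>] (0 : ℝ), P ε := by
  filter_upwards [Ioc_mem_nhdsGT h0] with ε hε using h ε hε.1 hε.2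

lemma strip_abs {a : Axis} {ε : ℝ} {z : X} (hz : z ∈ Strip a ε) : |lor z.1 a.n| ≤ ε :=
  abs_le.2 ⟨hz.1, hz.2.trans (by linarith [hz.1, hz.2])⟩

lemma disjoint_strips {S : Type} [TopologicalSpace S] {p : X → S}
    (hp : IsQuotientCoveringMap p G) {a b : Axis} {ε : ℝ}
    (h : ∀ (γ : G) (z : X), |lor z.1 a.n| ≤ ε → ε < |lor (γ • z).1 b.n|) :
    ∀ s ∈ p '' Strip a ε, s ∉ p '' Strip b ε := by
  rintro _ ⟨z, hz, rfl⟩ ⟨z', hz', he⟩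
  obtain ⟨γ, rfl⟩ := hp.apply_eq_iff_mem_orbit.1 he
  exact absurd (strip_abs hz') (not_le.2 (h γ z (strip_abs hz)))

section
variable {Γ Z : Type} [Group Γ] [LinearOrder Z] [MulAction Γ Z] (C : CG Γ Z)

lemma meets_congr {a a' b : Γ} (h : Same a a') (hm : C.Meets a' b) : C.Meets a b := by
  obtain ⟨x, y, h1, h2, h3⟩ := hm
  exact ⟨x, y, h.trans h1, h2, h3⟩

lemma meets_symm (hA : A1Facts C) {a b : Γ} (hm : C.Meets a b) : C.Meets b a := by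
  obtain ⟨x, y, h1, h2, h3⟩ := hm
  exact ⟨y, x, h2, h1, hA.cross_symm _ _ h3⟩

end

/-- the six twists -/
lemma twists (hg : Geo) (hC2 : StmtC2) (hD3a : StmtD3a) (hSEP : StmtSEP) (hE1 : StmtE1)
    (hEXT : StmtEXT) (hP1 : StmtPushA1) (hP2 : StmtPushA2) (hPB : StmtPushB) (hcol : HasCollar Sw)
    {Z : Type} [LinearOrder Z] [MulAction G Z] (C : CG G Z) (ν : Z → V) (hL : Link C.att ν)
    {p : X → Sw} (hp : IsProj p) (n : ℤ) (Ns : Fin 3 → ℤ) :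
    ∃ (ε : ℝ) (aS aE : Fin 3 → Axis) (ψ τ : Fin 3 → Sw ≃ₜ Sw), 0 < ε ∧
      (∀ i, (aS i).For (sC i).1 ∧ Thin (sC i) (aS i) ε ∧ IsTw p (aS i) ε (Ns i) (ψ i)) ∧
      (∀ i, (aE i).For (eC i).1 ∧ Thin (eC i) (aE i) ε ∧ IsTw p (aE i) ε n (τ i)) ∧
      (∀ i j, Commute (ψ i) (ψ j)) ∧ (∀ i j, Commute (τ i) (τ j)) ∧ (∀ i, Commute (ψ i) (τ i)) ∧
      ∀ i, Ext Sw (pushW ψ τ i) ∧ Ext Sw (pushW' ψ τ i) := by
  have hc := hC2.1 Z C ν hL
  have hA := hg.a1 G Z C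
  have := hE1.compact
  choose aS haS using fun i => hL.axis (sC i) (hc.prim_s i).1
  choose aE haE using fun i => hL.axis (eC i) (hc.prim_e i).1
  obtain ⟨hs1, hs2⟩ := hSEP.1 Z C ν hL
  have thin : ∀ (g : G) (a : Axis), a.For g.1 → C.SP g → ∀ᶠ ε in 𝓝[>] (0 : ℝ), Thin g a ε := by
    intro g a h1 h2
    obtain ⟨ε₀, h3, h4⟩ := hs1 g a h1 h2
    exact ev_of h3 fun ε _ h => thin_mono h4 h
  have sep : ∀ (g h : G) (a b : Axis), a.For g.1 → b.For h.1 → C.Prim g → C.Prim h →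
      ¬ C.Meets g h → ¬ Same g h → ∀ᶠ ε in 𝓝[>] (0 : ℝ),
        ∀ s ∈ p '' Strip a ε, s ∉ p '' Strip b ε := by
    intro g h a b h1 h2 h3 h4 h5 h6
    obtain ⟨ε₀, h7, h8⟩ := hs2 g h a b h1 h2 h3 h4 h5 h6
    exact ev_of h7 fun ε _ h => disjoint_strips hp.cov fun γ z hz =>
      h.trans_lt (h8 γ z (hz.trans h))
  have ne1 : ∀ i : Fin 3, i ≠ i + 1 := by decide
  have e1 : ∀ᶠ ε in 𝓝[>] (0 : ℝ), ∀ i, Thin (sC i) (aS i) ε :=
    Filter.eventually_all.2 fun i => thin _ _ (haS i) ⟨hc.prim_s i, hc.disj_ss i i⟩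
  have e2 : ∀ᶠ ε in 𝓝[>] (0 : ℝ), ∀ i, Thin (eC i) (aE i) ε :=
    Filter.eventually_all.2 fun i => thin _ _ (haE i) ⟨hc.prim_e i, hc.disj_ee i i⟩
  have e3 : ∀ᶠ ε in 𝓝[>] (0 : ℝ), ∀ i j, i ≠ j →
      ∀ s ∈ p '' Strip (aS i) ε, s ∉ p '' Strip (aS j) ε :=
    Filter.eventually_all.2 fun i => Filter.eventually_all.2 fun j =>
      Filter.eventually_all.2 fun hij => sep _ _ _ _ (haS i) (haS j) (hc.prim_s i) (hc.prim_s j)
        (hc.disj_ss i j) fun h => hc.disj_se j (meets_congr C h.symm (hc.meets i j hij))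
  have e4 : ∀ᶠ ε in 𝓝[>] (0 : ℝ), ∀ i j, i ≠ j →
      ∀ s ∈ p '' Strip (aE i) ε, s ∉ p '' Strip (aE j) ε :=
    Filter.eventually_all.2 fun i => Filter.eventually_all.2 fun j =>
      Filter.eventually_all.2 fun hij => sep _ _ _ _ (haE i) (haE j) (hc.prim_e i) (hc.prim_e j)
        (hc.disj_ee i j) fun h => hc.disj_se i
          (meets_symm C hA (meets_congr C h (meets_symm C hA (hc.meets i j hij))))
  have e5 : ∀ᶠ ε in 𝓝[>] (0 : ℝ), ∀ i, ∀ s ∈ p '' Strip (aS i) ε, s ∉ p '' Strip (aE i) ε :=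
    Filter.eventually_all.2 fun i => sep _ _ _ _ (haS i) (haE i) (hc.prim_s i) (hc.prim_e i)
      (hc.disj_se i) fun h => hc.disj_ee i (i + 1) (meets_congr C h.symm (hc.meets i _ (ne1 i)))
  have e6 : ∀ᶠ ε in 𝓝[>] (0 : ℝ), ∀ i, ∀ w : W, chR w = 1 → ∀ z ∈ seg i,
      ε < |lor (w • z).1 (aS i).n| := by
    refine Filter.eventually_all.2 fun i => ?_
    obtain ⟨-, h1, h2⟩ := hC2.2 i
    obtain ⟨ε₀, h3, h4⟩ := hSEP.2 (seg i) (sC i) (aS i) {w | chR w = 1} h1 (haS i)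
      (fun w hw => by
        have h5 : chR (sC i).1 = 1 := (sC i).2.2
        have h6 : chR (sC i).1⁻¹ = 1 := (GS.inv_mem (sC i).2).2
        simp only [mem_ofPred_eq, map_mul] at hw ⊢
        rw [h5, h6, hw]; simp) (h2 _ (haS i))
    exact ev_of h3 fun ε _ h w hw z hz => h.trans_lt (h4 w hw z hz)
  have e7 : ∀ᶠ ε in 𝓝[>] (0 : ℝ), ∀ i, ∃ Ω u s eY eZ,
      ChartGeo i (aE (i + 1)) (aE (i + 2)) ε Ω u s eY eZ := by
    refine Filter.eventually_all.2 fun i => ?_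
    obtain ⟨ε₀, h3, h4⟩ := hP1 i _ _ (haE (i + 1)) (haE (i + 2))
    exact ev_of h3 h4
  obtain ⟨ε, ⟨⟨⟨⟨⟨⟨⟨f1, f2⟩, f3⟩, f4⟩, f5⟩, f6⟩, f7⟩, hε⟩⟩ :=
    (((((((e1.and e2).and e3).and e4).and e5).and e6).and e7).and self_mem_nhdsWithin).exists
  have hε' : 0 < ε := hε
  have kS := fun i => (hD3a Sw p hp.cov (sC i) (aS i) ε (Ns i) (haS i) hε' (f1 i)).1
  choose ψ hψ using fun i => (hD3a Sw p hp.cov (sC i) (aS i) ε (Ns i) (haS i) hε' (f1 i)).2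
  choose τ hτ using fun i => (hD3a Sw p hp.cov (eC i) (aE i) ε n (haE i) hε' (f2 i)).2
  refine ⟨ε, aS, aE, ψ, τ, hε', fun i => ⟨haS i, f1 i, hψ i⟩, fun i => ⟨haE i, f2 i, hτ i⟩,
    fun i j => ?_, fun i j => ?_, fun i => ?_, fun i => ?_⟩
  · by_cases h : i = j
    · rw [h]
    · exact commute_of_disjoint (hψ i).outside (fun _ => (hψ i).mem) (hψ j).outside
        (fun _ => (hψ j).mem) (f3 i j h)
  · by_cases h : i = j
    · rw [h]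
    · exact commute_of_disjoint (hτ i).outside (fun _ => (hτ i).mem) (hτ j).outside
        (fun _ => (hτ j).mem) (f4 i j h)
  · exact commute_of_disjoint (hψ i).outside (fun _ => (hψ i).mem) (hτ i).outside
        (fun _ => (hτ i).mem) (f5 i)
  · obtain ⟨Ω, u, s, eY, eZ, hch⟩ := f7 i
    have hO : IsOpen (p '' Strip (aS i) ε)ᶜ := (kS i).isClosed.isOpen_compl
    have hpush : Pushable Sw (τ (i + 1) * (τ (i + 2))⁻¹) (p '' Strip (aS i) ε)ᶜ := by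
      refine hPB i n _ Ω u s (hP2 p hp i _ _ (haE _) (haE _) ε Ω u s eY eZ hε' hch n _ _
        (hτ _) (hτ _).inv) _ hO ?_
      rintro ⟨⟨⟨z, y, t⟩, hz, hy, ht⟩, hx⟩ h1 h2 ⟨z', hz', he⟩
      have hx' : |t| = lamB z := hx
      have hy' : y = lamR z := by
        have : |y| = lamR z := hy
        rwa [abs_of_nonneg h2] at this
      have key : ∃ w : W, chR w = 1 ∧ chB w * lamB z = t := by
        rcases abs_eq (lamB_nonneg hz) |>.1 hx' with h | h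
        · exact ⟨1, by simp, by simp [h]⟩
        · exact ⟨sr 0, by simp [chR_sr], by simp [chB_sr, h]⟩
      obtain ⟨w, hw1, hw2⟩ := key
      have he2 : p z' = p (w • z) := by
        rw [he]
        apply Subtype.ext
        apply Subtype.ext
        rw [hp.eq w z hz, hw1, hw2, one_mul]
        exact Prod.ext rfl (Prod.ext hy' rfl)
      obtain ⟨γ, hγ⟩ := hp.cov.apply_eq_iff_mem_orbit.1 he2
      have h3 : z' = (γ.1 * w) • z := by rw [mul_smul]; exact hγ.symm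
      have h4 := f6 i (γ.1 * w) (by rw [map_mul, γ.2.2, hw1, one_mul]) z h1
      rw [← h3] at h4
      exact absurd (strip_abs hz') (not_le.2 h4)
    constructor
    · have := hEXT Hw Sw hE1.closed hcol (ψ i)⁻¹ _ _ hO (fun s hs => (hψ i).inv.outside s hs) hpush
      rwa [inv_inv] at this
    · exact hEXT Hw Sw hE1.closed hcol (ψ i) _ _ hO (fun s hs => (hψ i).outside s hs) hpush

end F

open F in
theorem blockF (hg : Geo) (hA5 : StmtA5) (hA6 : StmtA6) (hA7 : StmtA7) (hB2a : StmtB2a)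
    (hB2c : StmtB2c) (hB2d : StmtB2d) (hC2 : StmtC2) (hCW : StmtCW2) (hC3 : StmtC3) (hC4 : StmtC4)
    (hD1 : StmtD1) (hD1b : StmtD1b) (hD2 : StmtD2) (hD3a : StmtD3a) (hD3b : StmtD3b)
    (hSEP : StmtSEP) (hE1 : StmtE1) (hE2 : StmtE2) (hEXT : StmtEXT) (hP1 : StmtPushA1)
    (hP2 : StmtPushA2) (hPB : StmtPushB) (hDBL : StmtDBL) (hSC : StmtSC) (hPL : StmtPL)
    (hM : StmtM) :
    ∃ (M : Type) (_ : TopologicalSpace M) (_ : T2Space M) (_ : CompactSpace M)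
      (_ : ChartedSpace (EuclideanSpace ℝ (Fin 3)) M) (A B : Set M), IsHeegaardSplitting 5 A B ∧
      (∃ f, IsRestrictedAut A B f ∧ ¬ f.Homotopic (ContinuousMap.id _)) ∧
      ∀ f, IsRestrictedAut A B f →
        f.Homotopic (ContinuousMap.id _) ∨ (¬ IsPeriodic f ∧ ¬ IsReducible f) := by
  obtain ⟨Z, _, _, att, ν, hL0⟩ := hB2a
  have hb := hg.b2b Z att ν hL0
  have hc := hB2c Z att ν hL0
  have hd := hB2d Z att ν hL0
  let C : CG G Z := ⟨att, hb.smul_cyc, hb.att_fix, hb.att_ne, hb.att_conj, hb.att_pow, hb.move,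
    hb.arch, hc.root, hd.fin_cross, hd.fin_sep, hc.dense⟩
  have hL : Link C.att ν := hL0
  have hc0 := hC2.1 Z C ν hL
  obtain ⟨hrig, hfill⟩ := hA6 G Z C sC eC NS hc0 (hC3 Z C ν hL) (hC4 Z C ν hL)
  obtain ⟨n, Ns, hmain⟩ := hA5 G Z C sC eC NS ⟨hc0, hCW Z C ν hL, hrig, hfill⟩
  obtain ⟨p, hp⟩ := hE1.proj
  have := hE1.compact
  obtain ⟨lam, hlam, e1, he1⟩ := hDBL
  obtain ⟨a, sc, hsc⟩ := hSC
  obtain ⟨hcol0, hpl⟩ := hPL 5 a sc hsc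
  obtain ⟨e2, he2⟩ := hpl lam hlam
  have he : ∀ x, (e2.trans e1.symm) x ∈ Sw ↔ x.1 ∈ frontier (Handlebody 5) := fun x => by
    rw [he1, ← he2]; simp
  have hcol : HasCollar Sw := collar_transport (e2.trans e1.symm) he hcol0
  obtain ⟨ε, aS, aE, ψ, τ, hε, hψ, hτ, c1, c2, c3, hext⟩ :=
    twists hg hC2 hD3a hSEP hE1 hEXT hP1 hP2 hPB hcol C ν hL hp n Ns
  have hD := hD1 Sw p hp.cov
  have pres : ∀ f α, Induces p f α → ∃ ε', C.Pres α ε' := fun f α h =>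
    hA7 G Z C α (hD2 Sw p hp.cov Z C ν hL f α h)
  choose Ψ hΨ using fun i => hD.ex (ψ i)
  choose Τ hΤ using fun i => hD.ex (τ i)
  have i1 : ∀ i, Induces p (pushW ψ τ i) (pushW Ψ Τ i) := fun i =>
    ((hΨ i).inv.mul ((hΤ _).mul (hΤ _).inv)).mul (hΨ i)
  have i2 : ∀ i, Induces p (pushW' ψ τ i) (pushW' Ψ Τ i) := fun i =>
    ((hΨ i).mul ((hΤ _).mul (hΤ _).inv)).mul (hΨ i).inv
  have i3 : Induces p (glueW ψ τ) (glueW Ψ Τ) :=
    (((hΨ 0).mul (hΨ 1)).mul (hΤ 0).inv).mul (hΨ 2)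
  have i4 : Induces p (paW ψ τ) (paW Ψ Τ) := ((i1 2).mul (i1 1)).mul (i1 0)
  obtain ⟨m1, m2⟩ := hmain Ψ Τ
    (fun i => hD3b Sw p hp.cov Z C ν hL _ _ ε _ (hψ i).1 hε (hψ i).2.1
      ⟨hc0.prim_s i, hc0.disj_ss i i⟩ _ _ (hψ i).2.2 (hΨ i) (pres _ _ (hΨ i)))
    (fun i => hD3b Sw p hp.cov Z C ν hL _ _ ε _ (hτ i).1 hε (hτ i).2.1
      ⟨hc0.prim_e i, hc0.disj_ee i i⟩ _ _ (hτ i).2.2 (hΤ i) (pres _ _ (hΤ i)))
    (fun i => ⟨hE2 p hp _ _ (i1 i) (hext i).1, hE2 p hp _ _ (i2 i) (hext i).2⟩)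
  obtain ⟨M, _, _, _, _, A, B, j, hH, hAut⟩ :=
    hM 5 Hw Sw (e2.trans e1.symm) he hcol hE1.chart (glueW ψ τ)
  have npr := fun f α => not_per_red hD C (hD1b Sw p hp.cov Z C ν hL) (hc0.prim_s 0).1
    (hc0.disj_ss 0 0) (f := f) (α := α)
  refine ⟨M, inferInstance, inferInstance, inferInstance, inferInstance, A, B, hH, ?_, ?_⟩
  · have hj : ∀ s, ((j.symm.trans ((paW ψ τ).trans j) : ↥(A ∩ B) ≃ₜ ↥(A ∩ B)) :
        C(↥(A ∩ B), ↥(A ∩ B))) (j s) = j (paW ψ τ s) := fun s => by simp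
    refine ⟨_, (hAut _).2 ⟨paW ψ τ, hj, ?_, ?_⟩, fun H => ?_⟩
    · exact ((hext 2).1.mul (hext 1).1).mul (hext 0).1
    · rw [conj_paW ψ τ c1 c2 c3]
      exact ((hext 0).2.inv.mul (hext 2).2.inv).mul (hext 1).2.inv
    · refine (npr _ _ i4 m2).1 1 one_pos ?_
      rw [pow_one]
      exact (homotopic_transport j (f₀ := ((paW ψ τ : Sw ≃ₜ Sw) : C(Sw, Sw))) hj).1 H
  · intro f hf
    obtain ⟨f₀, hj, x1, x2⟩ := (hAut f).1 hf
    obtain ⟨α, hα⟩ := hD.ex f₀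
    obtain ⟨ε', hε'⟩ := pres _ _ hα
    rcases m1 α ε' hε' (hE2 p hp _ _ hα x1) (hE2 p hp _ _ ((i3.mul hα).mul i3.inv) x2) with h | h
    · exact Or.inl ((homotopic_transport j (f₀ := (f₀ : C(Sw, Sw))) hj).2
        ((hD.inner_iff _ _ hα).1 h))
    · obtain ⟨h1, h2⟩ := npr _ _ hα h
      refine Or.inr ⟨fun hp' => ?_, fun hr => h2 (reducible_transport j hj hr)⟩
      obtain ⟨k, hk, H⟩ := periodic_transport j hj hp'
      exact h1 k hk H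

end Pool.Agent.Lib.MP_003e01_gt
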