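import Pool.Agent.Lib.MP_003e01_gt.Blue

/-! Block Glue: gluing continuous maps tile by tile. -/

open Set Topology

namespace Pool.Agent.Lib.MP_003e01_gt

theorem blockGlue (h : StmtB1) : StmtGlue := by
  intro Y _ Φ hc hΦ
  have inv : ∀ z ∈ Q, ∀ u ∈ Subgroup.closure {t | ∃ i, lor z.1 (pole i) = 0 ∧ t = sr i},
      ∀ w, Φ (w * u) z = Φ w z := fun z hz u hu => by
    induction hu using Subgroup.closure_induction with
    | mem t ht =>
      obtain ⟨i, hi, rfl⟩ := ht
      exact fun w => hΦ w i z hz hi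
    | one => simp
    | mul a b _ _ ha hb => exact fun w => by rw [← mul_assoc, hb, ha]
    | inv a _ ha => exact fun w => by rw [← ha, inv_mul_cancel_right]
  choose w z hz e using h.cover
  have key : ∀ (v : W), ∀ y ∈ Q, Φ (w (v • y)) (z (v • y)) = Φ v y := fun v y hy => by
    have e1 : ((w (v • y))⁻¹ * v) • y = z (v • y) := by rw [mul_smul, inv_smul_eq_iff, ← e]
    obtain ⟨e2, e3⟩ := h.fund _ y hy (e1 ▸ hz _)
    rw [← e1, e2, ← inv y hy _ e3, mul_inv_cancel_left]
  refine ⟨fun x => Φ (w x) (z x), LocallyFinite.continuous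
    (f := fun v : W => (fun x : X => v⁻¹ • x) ⁻¹' Q) (fun x => ?_) ?_
    (fun v => h.compact.isClosed.preimage (continuous_const_smul _)) fun v => ?_, key⟩
  · have c2 : Continuous fun y : X => y.1 2 := (continuous_apply 2).comp continuous_subtype_val
    refine ⟨{y | y.1 2 < x.1 2 + 1}, (isOpen_lt c2 continuous_const).mem_nhds (lt_add_one (x.1 2)),
      (h.proper _ _ h.compact (h.ball (x.1 2 + 1))).subset ?_⟩
    rintro v ⟨y, h1, h2⟩
    exact ⟨_, h1, by rw [smul_inv_smul]; exact le_of_lt (α := ℝ) h2⟩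
  · exact eq_univ_of_forall fun x => mem_iUnion.2
      ⟨w x, by rw [mem_preimage, inv_smul_eq_iff.2 (e x)]; exact hz x⟩
  · refine ((hc v).comp (continuous_const_smul v⁻¹).continuousOn fun _ hx => hx).congr fun x hx => ?_
    simpa using key v _ hx

end Pool.Agent.Lib.MP_003e01_gt
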