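import Pool.Agent.Lib.MP_003e01_gt.Blue

/-! Block KAP1: the polygon `Q` is the model disc with its twelve marked arcs. -/

open Set Topology

namespace Pool.Agent.Lib.MP_003e01_gt

namespace KAP1

noncomputable def cc (k : ℕ) : ℝ := Real.cos (k * Real.pi / 6)
noncomputable def ss (k : ℕ) : ℝ := Real.sin (k * Real.pi / 6)

lemma s3 : √3 * √3 = (3 : ℝ) := Real.mul_self_sqrt (by norm_num)

lemma s3_lo : (1.73 : ℝ) < √3 := by
  have := s3; have h0 := Real.sqrt_nonneg 3; nlinarith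

lemma s3_hi : √3 < (1.74 : ℝ) := by
  have := s3; have h0 := Real.sqrt_nonneg 3; nlinarith

lemma cc_succ (k : ℕ) : cc (k + 1) = √3 / 2 * cc k - 1 / 2 * ss k := by
  have e : ((k + 1 : ℕ) : ℝ) * Real.pi / 6 = k * Real.pi / 6 + Real.pi / 6 := by push_cast; ring
  rw [cc, e, Real.cos_add, Real.cos_pi_div_six, Real.sin_pi_div_six, cc, ss]; ring

lemma ss_succ (k : ℕ) : ss (k + 1) = √3 / 2 * ss k + 1 / 2 * cc k := by
  have e : ((k + 1 : ℕ) : ℝ) * Real.pi / 6 = k * Real.pi / 6 + Real.pi / 6 := by push_cast; ring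
  rw [ss, e, Real.sin_add, Real.cos_pi_div_six, Real.sin_pi_div_six, cc, ss]; ring

lemma cc_pred (k : ℕ) : cc k = √3 / 2 * cc (k + 1) + 1 / 2 * ss (k + 1) := by
  rw [cc_succ, ss_succ]; linear_combination (-cc k / 4) * s3

lemma ss_pred (k : ℕ) : ss k = √3 / 2 * ss (k + 1) - 1 / 2 * cc (k + 1) := by
  rw [cc_succ, ss_succ]; linear_combination (-ss k / 4) * s3

lemma sq (k : ℕ) : cc k ^ 2 + ss k ^ 2 = 1 := Real.cos_sq_add_sin_sq _

lemma cc_zero : cc 0 = 1 := by simp [cc]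
lemma ss_zero : ss 0 = 0 := by simp [ss]

lemma cc_add12 (k : ℕ) : cc (k + 12) = cc k := by
  have e : ((k + 12 : ℕ) : ℝ) * Real.pi / 6 = k * Real.pi / 6 + 2 * Real.pi := by push_cast; ring
  rw [cc, e, Real.cos_add_two_pi, cc]

lemma ss_add12 (k : ℕ) : ss (k + 12) = ss k := by
  have e : ((k + 12 : ℕ) : ℝ) * Real.pi / 6 = k * Real.pi / 6 + 2 * Real.pi := by push_cast; ring
  rw [ss, e, Real.sin_add_two_pi, ss]

lemma cc_le_one (k : ℕ) : cc k ≤ 1 := Real.cos_le_one _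

lemma cc_le {k : ℕ} (h1 : 1 ≤ k) (h2 : k ≤ 11) : cc k ≤ √3 / 2 := by
  have hp := Real.pi_pos
  have h1' : (1 : ℝ) ≤ k := by exact_mod_cast h1
  have h2' : (k : ℝ) ≤ 11 := by exact_mod_cast h2
  rw [← Real.cos_pi_div_six, cc]
  rcases le_total (k : ℝ) 6 with h | h
  · exact Real.cos_le_cos_of_nonneg_of_le_pi (by positivity) (by nlinarith) (by nlinarith)
  · rw [← Real.cos_two_pi_sub]
    exact Real.cos_le_cos_of_nonneg_of_le_pi (by positivity) (by nlinarith) (by nlinarith)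

/-- the regular polygon lies in a disc -/
lemma disc {u v y : ℝ} (h : ∀ k < 12, cc k * u + ss k * v ≤ y) :
    0 ≤ y ∧ u ^ 2 + v ^ 2 ≤ 1.08 * y ^ 2 := by
  obtain ⟨j, hj, hM⟩ := (Finset.range 12).exists_max_image
    (fun j => cc (j + 1) * u + ss (j + 1) * v) ⟨0, by simp⟩
  rw [Finset.mem_range] at hj
  have hall : ∀ k ≤ 13, cc k * u + ss k * v ≤ cc (j + 1) * u + ss (j + 1) * v := by
    intro k hk
    rcases Nat.eq_zero_or_pos k with rfl | hk0
    · rw [← cc_add12, ← ss_add12]; exact hM 11 (by simp)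
    · rcases eq_or_lt_of_le hk with rfl | hk1
      · rw [show (13 : ℕ) = 1 + 12 from rfl, cc_add12, ss_add12]; exact hM 0 (by simp)
      · obtain ⟨l, rfl⟩ : ∃ l, k = l + 1 := ⟨k - 1, by omega⟩
        exact hM l (Finset.mem_range.2 (by omega))
  have hy : cc (j + 1) * u + ss (j + 1) * v ≤ y := by
    rcases eq_or_lt_of_le (show j + 1 ≤ 12 by omega) with e | e
    · rw [e, show (12 : ℕ) = 0 + 12 from rfl, cc_add12, ss_add12]; exact h 0 (by norm_num)
    · exact h _ e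
  have h1 := hall j (by omega)
  have h2 := hall (j + 1 + 1) (by omega)
  rw [cc_pred j, ss_pred j] at h1
  rw [cc_succ (j + 1), ss_succ (j + 1)] at h2
  have hs := sq (j + 1)
  generalize cc (j + 1) = c at *
  generalize ss (j + 1) = s at *
  have hl := s3_lo
  have hh := s3_hi
  obtain ⟨M, hM'⟩ : ∃ M, M = c * u + s * v := ⟨_, rfl⟩
  obtain ⟨N, hN⟩ : ∃ N, N = c * v - s * u := ⟨_, rfl⟩
  have e1 : √3 / 2 * M - 1 / 2 * N ≤ M := by rw [hM', hN]; linarith
  have e2 : √3 / 2 * M + 1 / 2 * N ≤ M := by rw [hM', hN]; linarith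
  have e3 : u ^ 2 + v ^ 2 = M ^ 2 + N ^ 2 := by
    rw [hM', hN]; linear_combination (-(u ^ 2) - v ^ 2) * hs
  rw [← hM'] at hy
  have hM0 : 0 ≤ M := by nlinarith
  have e4 : N ≤ 0.27 * M := by nlinarith
  have e5 : -(0.27 * M) ≤ N := by nlinarith
  have e6 : N ^ 2 ≤ (0.27 * M) ^ 2 := sq_le_sq' e5 e4
  have e7 : M ^ 2 ≤ y ^ 2 := pow_le_pow_left₀ hM0 hy 2
  refine ⟨hM0.trans hy, ?_⟩
  rw [e3]; nlinarith [sq_nonneg y]

noncomputable def aa (k : ℕ) : ℝ := 1 - 9 / 8 * cc k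
noncomputable def gg : ℝ := 1 + √3 / 2
noncomputable def DD (j : ℕ) : ℝ := 9 / 8 * gg - (cc j + cc (j + 1))
noncomputable def xx (j : ℕ) : ℝ := -(ss j + ss (j + 1)) / DD j
noncomputable def ell (k : ℕ) (t : ℝ) : ℝ := (-ss k * t - cc k) / aa k

lemma aa_pos {k : ℕ} (h1 : 1 ≤ k) (h2 : k ≤ 11) : 0 < aa k := by
  have := cc_le h1 h2; have := s3_hi; unfold aa; linarith

lemma gg_pos : 0 < gg := by unfold gg; positivity

lemma DD_pos (j : ℕ) : 0 < DD j := by
  have := cc_le_one j; have := cc_le_one (j + 1); have := s3_lo; unfold DD gg; linarith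

lemma xx_lt {j : ℕ} (h : j < 11) : xx j < xx (j + 1) := by
  have ha := mul_pos gg_pos (aa_pos (k := j + 1) (by omega) (by omega))
  rw [xx, xx, div_lt_div_iff₀ (DD_pos _) (DD_pos _)]
  have hs := sq (j + 1)
  unfold DD
  unfold aa at ha
  rw [cc_pred j, ss_pred j, cc_succ (j + 1), ss_succ (j + 1)]
  unfold gg at *
  generalize cc (j + 1) = c at *
  generalize ss (j + 1) = s at *
  generalize √3 = r at *
  have : -(s + (r / 2 * s + 1 / 2 * c)) * (9 / 8 * (1 + r / 2) - (r / 2 * c + 1 / 2 * s + c)) -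
      -(r / 2 * s - 1 / 2 * c + s) * (9 / 8 * (1 + r / 2) - (c + (r / 2 * c - 1 / 2 * s))) =
      (1 + r / 2) * (1 - 9 / 8 * c) := by linear_combination (1 + r / 2) * hs
  linarith

lemma xx_mono {i j : ℕ} (h : i ≤ j) (hj : j ≤ 11) : xx i ≤ xx j := by
  induction j, h using Nat.le_induction with
  | base => exact le_rfl
  | succ j _ ih => exact (ih (by omega)).trans (xx_lt (by omega)).le

lemma ell_self {k : ℕ} (h1 : 1 ≤ k) (h2 : k ≤ 11) : ell k (xx k) = gg / DD k := by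
  have ha := (aa_pos h1 h2).ne'
  have hd := (DD_pos k).ne'
  have hs := sq k
  rw [ell, xx, div_eq_div_iff ha hd]
  field_simp
  unfold DD aa gg
  rw [cc_succ k, ss_succ k]
  linear_combination (1 + √3 / 2) * hs

lemma ell_succ {k : ℕ} (h2 : k < 11) : ell (k + 1) (xx k) = gg / DD k := by
  have ha := (aa_pos (k := k + 1) (by omega) (by omega)).ne'
  have hd := (DD_pos k).ne'
  have hs := sq (k + 1)
  rw [ell, xx, div_eq_div_iff ha hd]
  field_simp
  unfold DD aa gg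
  rw [cc_pred k, ss_pred k]
  linear_combination (1 + √3 / 2) * hs

lemma ell_one : ell 1 (xx 0) = 8 := by
  rw [ell_succ (k := 0) (by norm_num), div_eq_iff (DD_pos 0).ne', DD, cc_succ, cc_zero, ss_zero, gg]
  ring

lemma ell_eleven : ell 11 (xx 11) = 8 := by
  rw [ell_self (by norm_num) le_rfl, div_eq_iff (DD_pos 11).ne', DD, cc_pred 11,
    show 11 + 1 = 0 + 12 from rfl, cc_add12, ss_add12, cc_zero, ss_zero, gg]
  ring

/-- consecutive lines differ by an increasing function vanishing at the vertex -/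
lemma ell_diff {k : ℕ} (h1 : 1 ≤ k) (h2 : k < 11) :
    ∃ μ : ℝ, 0 < μ ∧ ∀ t, ell (k + 1) t - ell k t = μ * (t - xx k) := by
  have ha := aa_pos h1 h2.le
  have hb := aa_pos (k := k + 1) (by omega) (by omega)
  refine ⟨-ss (k + 1) / aa (k + 1) - -ss k / aa k, ?_, fun t => ?_⟩
  · rw [sub_pos, div_lt_div_iff₀ ha hb]
    have hs := sq k
    have h3 := s3
    have hl := s3_lo
    have hh := s3_hi
    unfold aa
    rw [cc_succ k, ss_succ k]
    generalize cc k = c at *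
    generalize ss k = s at *
    generalize √3 = r at *
    have e1 : ((r / 2 - 1) * s + 1 / 2 * c) ^ 2 ≤ 2 - r := by
      nlinarith [sq_nonneg ((r / 2 - 1) * c - 1 / 2 * s)]
    have e2 : (r / 2 - 1) * s + 1 / 2 * c < 9 / 16 := by nlinarith
    nlinarith
  · have e := (ell_succ h2).trans (ell_self h1 h2.le).symm
    unfold ell at *
    linear_combination e

lemma ell_le_of_le {i j : ℕ} {t : ℝ} (h1 : 1 ≤ i) (h : i ≤ j) (hj : j ≤ 11) (ht : t ≤ xx i) :
    ell j t ≤ ell i t := by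
  induction j, h using Nat.le_induction with
  | base => exact le_rfl
  | succ j hij ih =>
    obtain ⟨μ, hμ, e⟩ := ell_diff (k := j) (by omega) (by omega)
    have := xx_mono hij (by omega)
    have := ih (by omega)
    nlinarith [e t]

lemma ell_le_of_ge {i j : ℕ} {t : ℝ} (h1 : 1 ≤ j) (h : j ≤ i) (hi : i ≤ 11) (ht : xx (i - 1) ≤ t) :
    ell j t ≤ ell i t := by
  induction i, h using Nat.le_induction with
  | base => exact le_rfl
  | succ i hij ih =>
    obtain ⟨μ, hμ, e⟩ := ell_diff (k := i) (by omega) (by omega)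
    rw [Nat.add_sub_cancel] at ht
    have := ih (by omega) ((xx_mono (Nat.sub_le i 1) (by omega)).trans ht)
    nlinarith [e t]

lemma ell_affine (k : ℕ) (s t θ : ℝ) :
    ell k ((1 - θ) * s + θ * t) = (1 - θ) * ell k s + θ * ell k t := by
  unfold ell; ring

lemma ell_left {k : ℕ} (h1 : 1 ≤ k) (h2 : k ≤ 11) : ell k (xx 0) ≤ 8 :=
  ell_one ▸ ell_le_of_le le_rfl h1 h2 (xx_mono (by norm_num) (by norm_num))

lemma ell_right {k : ℕ} (h1 : 1 ≤ k) (h2 : k ≤ 11) : ell k (xx 11) ≤ 8 :=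
  ell_eleven ▸ ell_le_of_ge h1 h2 le_rfl (xx_mono (by norm_num) (by norm_num))

lemma ell_left_lt {k : ℕ} (h1 : 2 ≤ k) (h2 : k ≤ 11) : ell k (xx 0) < 8 := by
  obtain ⟨μ, hμ, e⟩ := ell_diff (k := 1) le_rfl (by norm_num)
  have h3 := ell_le_of_le (i := 2) (t := xx 0) (by norm_num) h1 h2
    (xx_mono (by norm_num) (by norm_num))
  have h4 := xx_lt (j := 0) (by norm_num)
  have h5 := e (xx 0)
  rw [ell_one] at h5
  norm_num at h4 h5
  nlinarith

lemma ell_right_lt {k : ℕ} (h1 : 1 ≤ k) (h2 : k ≤ 10) : ell k (xx 11) < 8 := by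
  obtain ⟨μ, hμ, e⟩ := ell_diff (k := 10) (by norm_num) (by norm_num)
  have h3 := ell_le_of_ge (i := 10) (t := xx 11) h1 h2 (by norm_num)
    (xx_mono (by norm_num) (by norm_num))
  have h4 := xx_lt (j := 10) (by norm_num)
  have h5 := e (xx 11)
  norm_num at h4 h5
  rw [ell_eleven] at h5
  nlinarith

lemma x0_lt : xx 0 < xx 11 :=
  (xx_lt (j := 0) (by norm_num)).trans_le (xx_mono (by norm_num) le_rfl)

lemma param (t : ℝ) : ∃ θ : ℝ, t = (1 - θ) * xx 0 + θ * xx 11 ∧ t - xx 0 = θ * (xx 11 - xx 0) := by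
  have h := sub_pos.2 x0_lt
  refine ⟨(t - xx 0) / (xx 11 - xx 0), ?_, ?_⟩
  · field_simp; ring
  · field_simp

lemma ell_lt {k : ℕ} (h1 : 1 ≤ k) (h2 : k ≤ 11) {t : ℝ} (h3 : xx 0 < t) (h4 : t < xx 11) :
    ell k t < 8 := by
  obtain ⟨θ, e1, e2⟩ := param t
  have h := x0_lt
  have p1 : 0 < θ := by nlinarith
  have p2 : θ < 1 := by nlinarith
  have l1 := ell_left h1 h2
  have l2 := ell_right h1 h2
  rw [e1, ell_affine]
  rcases eq_or_lt_of_le h1 with rfl | hk
  · have := ell_right_lt (k := 1) le_rfl (by norm_num); nlinarith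
  · have := ell_left_lt hk h2; nlinarith

lemma left_le {t : ℝ} (h : ell 1 t ≤ 8) : xx 0 ≤ t := by
  obtain ⟨θ, e1, e2⟩ := param t
  have h0 := x0_lt
  have h1 := ell_right_lt (k := 1) le_rfl (by norm_num)
  rw [e1, ell_affine, ell_one] at h
  have : 0 ≤ θ := by nlinarith
  nlinarith

lemma le_right {t : ℝ} (h : ell 11 t ≤ 8) : t ≤ xx 11 := by
  obtain ⟨θ, e1, e2⟩ := param t
  have h0 := x0_lt
  have h1 := ell_left_lt (k := 11) (by norm_num) le_rfl
  rw [e1, ell_affine, ell_eleven] at h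
  have : θ ≤ 1 := by nlinarith
  nlinarith

noncomputable def lo (t : ℝ) : ℝ := (Finset.Icc 1 11).sup' ⟨1, by simp⟩ fun k => ell k t

lemma lo_le_iff {t y : ℝ} : lo t ≤ y ↔ ∀ k, 1 ≤ k → k ≤ 11 → ell k t ≤ y := by
  simp [lo, Finset.sup'_le_iff]

lemma ell_le_lo {k : ℕ} (h1 : 1 ≤ k) (h2 : k ≤ 11) (t : ℝ) : ell k t ≤ lo t :=
  lo_le_iff.1 le_rfl k h1 h2

lemma continuous_lo : Continuous lo :=
  Continuous.finset_sup'_apply _ fun k _ => by unfold ell; fun_prop

lemma lo_left : lo (xx 0) = 8 :=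
  le_antisymm (lo_le_iff.2 fun _ => ell_left) (ell_one ▸ ell_le_lo le_rfl (by norm_num) _)

lemma lo_right : lo (xx 11) = 8 :=
  le_antisymm (lo_le_iff.2 fun _ => ell_right) (ell_eleven ▸ ell_le_lo (by norm_num) le_rfl _)

lemma lo_lt {t : ℝ} (h3 : xx 0 < t) (h4 : t < xx 11) : lo t < 8 := by
  rw [lo, Finset.sup'_lt_iff]
  intro k hk
  rw [Finset.mem_Icc] at hk
  exact ell_lt hk.1 hk.2 h3 h4

lemma side_iff {k : ℕ} (h1 : 1 ≤ k) (h2 : k ≤ 11) {t y : ℝ} (h3 : xx 0 ≤ t) (h4 : t ≤ xx 11)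
    (h5 : lo t ≤ y) : ell k t = y ↔ y = lo t ∧ xx (k - 1) ≤ t ∧ t ≤ xx k := by
  constructor
  · rintro rfl
    refine ⟨le_antisymm (ell_le_lo h1 h2 t) h5, ?_, ?_⟩
    · rcases eq_or_lt_of_le h1 with rfl | hk
      · exact h3
      · obtain ⟨l, rfl⟩ : ∃ l, k = l + 1 := ⟨k - 1, by omega⟩
        obtain ⟨μ, hμ, e⟩ := ell_diff (k := l) (by omega) (by omega)
        have := lo_le_iff.1 h5 l (by omega) (by omega)
        rw [Nat.add_sub_cancel]
        nlinarith [e t]
    · rcases eq_or_lt_of_le h2 with rfl | hk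
      · exact h4
      · obtain ⟨μ, hμ, e⟩ := ell_diff (k := k) h1 hk
        have := lo_le_iff.1 h5 (k + 1) (by omega) (by omega)
        nlinarith [e t]
  · rintro ⟨rfl, h6, h7⟩
    refine le_antisymm (ell_le_lo h1 h2 t) (lo_le_iff.2 fun j hj1 hj2 => ?_)
    rcases le_total k j with h | h
    · exact ell_le_of_le h1 h hj2 h7
    · exact ell_le_of_ge hj1 h h2 h6

noncomputable def cA : ℝ := √(4 + 2 * √3)
noncomputable def cB : ℝ := √(3 + 2 * √3)

lemma cA_pos : 0 < cA := by unfold cA; positivity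
lemma cB_pos : 0 < cB := by unfold cB; positivity
lemma cA_sq : cA ^ 2 = 4 + 2 * √3 := Real.sq_sqrt (by positivity)
lemma cB_sq : cB ^ 2 = 3 + 2 * √3 := Real.sq_sqrt (by positivity)

lemma lor_pole (z : V) (i : Fin 12) :
    lor z (pole i) = cA * (cc i * z 0 + ss i * z 1) - cB * z 2 := by
  simp only [lor, pole, cA, cB, cc, ss, Matrix.cons_val_zero, Matrix.cons_val_one, Matrix.cons_val]
  ring

noncomputable def den (z : V) : ℝ := 9 / 8 * (cB * z 2) - cA * z 0

noncomputable def chart (z : V) : ℝ × ℝ := (-(cA * z 1) / den z, cB * z 2 / den z)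

lemma lor_chart {z : V} (hd : den z ≠ 0) (i : Fin 12) :
    lor z (pole i) = den z * (-ss i * (chart z).1 - cc i - aa i * (chart z).2) := by
  rw [lor_pole]
  unfold chart aa
  field_simp
  unfold den
  ring

lemma lor_chart_zero {z : V} (hd : den z ≠ 0) :
    lor z (pole 0) = den z / 8 * ((chart z).2 - 8) := by
  rw [lor_chart hd, aa]
  simp only [Fin.val_zero, cc_zero, ss_zero]
  ring

lemma lor_chart_ne {z : V} (hd : den z ≠ 0) {i : Fin 12} (hi : 1 ≤ i.val) :
    lor z (pole i) = den z * aa i * (ell i (chart z).1 - (chart z).2) := by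
  have ha := (aa_pos hi (by omega)).ne'
  rw [lor_chart hd, ell]
  field_simp

lemma den_pos {z : X} (hz : z ∈ Q) : 0 < den z.1 := by
  have h := hz 0
  rw [lor_pole] at h
  simp only [Fin.val_zero, cc_zero, ss_zero] at h
  have := mul_pos cB_pos z.2.2
  unfold den; linarith

/-- the image of the polygon -/
abbrev R : Type := {q : ℝ × ℝ // q.1 ∈ Icc (xx 0) (xx 11) ∧ lo q.1 ≤ q.2 ∧ q.2 ≤ 8}

lemma chart_mem {z : X} (hz : z ∈ Q) :
    (chart z.1).1 ∈ Icc (xx 0) (xx 11) ∧ lo (chart z.1).1 ≤ (chart z.1).2 ∧ (chart z.1).2 ≤ 8 := by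
  have hd := den_pos hz
  have h0 : (chart z.1).2 ≤ 8 := by
    have h := hz 0
    rw [lor_chart_zero hd.ne'] at h
    nlinarith
  have h1 : ∀ k, 1 ≤ k → k ≤ 11 → ell k (chart z.1).1 ≤ (chart z.1).2 := by
    intro k hk1 hk2
    have h := hz ⟨k, by omega⟩
    rw [lor_chart_ne hd.ne' hk1] at h
    have := mul_pos hd (aa_pos hk1 hk2)
    dsimp only at h
    nlinarith
  exact ⟨⟨left_le ((h1 1 le_rfl (by norm_num)).trans h0),
    le_right ((h1 11 (by norm_num) le_rfl).trans h0)⟩, lo_le_iff.2 h1, h0⟩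

noncomputable def fw (z : Q) : R := ⟨chart z.1.1, chart_mem z.2⟩

lemma continuous_fw : Continuous fw := by
  refine Continuous.subtype_mk ?_ _
  have h : Continuous fun z : Q => z.1.1 := continuous_subtype_val.comp continuous_subtype_val
  have h0 := (continuous_apply 0).comp h
  have h1 := (continuous_apply 1).comp h
  have h2 := (continuous_apply 2).comp h
  have hd : Continuous fun z : Q => den z.1.1 :=
    (continuous_const.mul (continuous_const.mul h2)).sub (continuous_const.mul h0)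
  exact Continuous.prodMk ((continuous_const.mul h1).neg.div hd fun z => (den_pos z.2).ne')
    ((continuous_const.mul h2).div hd fun z => (den_pos z.2).ne')

lemma injective_fw : Function.Injective fw := by
  intro z w h
  have hz := den_pos z.2
  have hw := den_pos w.2
  have hA := cA_pos
  have hB := cB_pos
  have h' : chart z.1.1 = chart w.1.1 := congrArg Subtype.val h
  rw [chart, chart, Prod.mk.injEq, div_eq_div_iff hz.ne' hw.ne', div_eq_div_iff hz.ne' hw.ne'] at h'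
  obtain ⟨h1, h2⟩ := h'
  have e1 : z.1.1 1 * den w.1.1 = w.1.1 1 * den z.1.1 :=
    mul_left_cancel₀ hA.ne' (by linear_combination -h1)
  have e2 : z.1.1 2 * den w.1.1 = w.1.1 2 * den z.1.1 :=
    mul_left_cancel₀ hB.ne' (by linear_combination h2)
  have e0 : z.1.1 0 * den w.1.1 = w.1.1 0 * den z.1.1 := by
    refine mul_left_cancel₀ hA.ne' ?_
    have a1 : cA * z.1.1 0 = 9 / 8 * (cB * z.1.1 2) - den z.1.1 := by unfold den; ring
    have a2 : cA * w.1.1 0 = 9 / 8 * (cB * w.1.1 2) - den w.1.1 := by unfold den; ring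
    rw [← mul_assoc, ← mul_assoc, a1, a2]
    linear_combination 9 / 8 * h2
  have q1 := z.1.2.1
  have q2 := w.1.2.1
  unfold lor at q1 q2
  have e : den w.1.1 = den z.1.1 := by
    rw [← sq_eq_sq₀ hw.le hz.le]
    linear_combination (den w.1.1 ^ 2) * q1 - (den z.1.1 ^ 2) * q2
      - (z.1.1 0 * den w.1.1 + w.1.1 0 * den z.1.1) * e0
      - (z.1.1 1 * den w.1.1 + w.1.1 1 * den z.1.1) * e1
      + (z.1.1 2 * den w.1.1 + w.1.1 2 * den z.1.1) * e2
  rw [e] at e0 e1 e2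
  refine Subtype.ext (Subtype.ext (funext fun j => ?_))
  fin_cases j
  · exact mul_right_cancel₀ hz.ne' e0
  · exact mul_right_cancel₀ hz.ne' e1
  · exact mul_right_cancel₀ hz.ne' e2

lemma surjective_fw : Function.Surjective fw := by
  rintro ⟨⟨t, y⟩, -, h1, h2⟩
  dsimp only at h1 h2
  have hA := cA_pos
  have hB := cB_pos
  have key : ∀ k < 12, cc k * (9 / 8 * y - 1) + ss k * (-t) ≤ y := by
    intro k hk
    rcases Nat.eq_zero_or_pos k with rfl | hk0
    · rw [cc_zero, ss_zero]; linarith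
    · have h := lo_le_iff.1 h1 k hk0 (by omega)
      rw [ell, div_le_iff₀ (aa_pos hk0 (by omega)), aa] at h
      linarith
  obtain ⟨y0, hd⟩ := disc key
  have hy : 0 < y := by
    rcases eq_or_lt_of_le y0 with rfl | h
    · nlinarith [sq_nonneg (-t)]
    · exact h
  obtain ⟨N, hN⟩ : ∃ N, N = cA ^ 2 * y ^ 2 - cB ^ 2 * ((9 / 8 * y - 1) ^ 2 + (-t) ^ 2) := ⟨_, rfl⟩
  have hN0 : 0 < N := by
    have hl := s3_lo
    have hh := s3_hi
    have := mul_le_mul_of_nonneg_left hd (sq_nonneg cB)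
    rw [hN, cA_sq]
    rw [cB_sq] at this ⊢
    nlinarith [pow_pos hy 2]
  obtain ⟨r, hr, hr2⟩ : ∃ r : ℝ, 0 < r ∧ r ^ 2 * N = 1 :=
    ⟨(√N)⁻¹, by positivity, by rw [inv_pow, Real.sq_sqrt hN0.le, inv_mul_cancel₀ hN0.ne']⟩
  let z : X := ⟨![r * (cB * (9 / 8 * y - 1)), r * (cB * -t), r * (cA * y)], by
    simp only [lor, Matrix.cons_val_zero, Matrix.cons_val_one, Matrix.cons_val]
    rw [hN] at hr2
    linear_combination -hr2, by
    simp only [Matrix.cons_val]; positivity⟩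
  have z0 : z.1 0 = r * (cB * (9 / 8 * y - 1)) := rfl
  have z1 : z.1 1 = r * (cB * -t) := rfl
  have z2 : z.1 2 = r * (cA * y) := rfl
  have hz : z ∈ Q := by
    intro i
    rw [lor_pole, z0, z1, z2]
    have := mul_le_mul_of_nonneg_left (key i i.2) (by positivity : 0 ≤ r * cA * cB)
    linarith
  refine ⟨⟨z, hz⟩, Subtype.ext ?_⟩
  have hden : den z.1 = r * cA * cB := by rw [den, z0, z2]; ring
  show chart z.1 = (t, y)
  rw [chart, hden, z1, z2, Prod.mk.injEq]
  constructor <;> field_simp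

end KAP1

open KAP1 in
theorem blockKAP1 (h : Geo) (hl : StmtLens) : StmtKAP1 := by
  have : CompactSpace Q := isCompact_iff_compactSpace.1 h.b1.compact
  let φ : Q ≃ₜ R := Continuous.homeoOfEquivCompactToT2
    (f := Equiv.ofBijective fw ⟨injective_fw, surjective_fw⟩) continuous_fw
  obtain ⟨e, he⟩ := hl (fun i => xx i.val) lo (fun _ => 8)
    (Fin.strictMono_iff_lt_succ.2 fun i => xx_lt i.2) continuous_lo.continuousOn continuousOn_const
    lo_left lo_right fun t ht => lo_lt ht.1 ht.2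
  refine ⟨φ.trans e, fun z i => ?_⟩
  obtain ⟨e1, e2, e3⟩ := he (φ z)
  have hd := den_pos z.2
  have hφ : (φ z).1 = chart z.1.1 := rfl
  obtain ⟨⟨m1, m2⟩, m3, m4⟩ := chart_mem z.2
  show _ ↔ (e (φ z)).1 ∈ ModSide i
  rw [hφ] at e1 e2 e3
  unfold ModSide
  rw [mem_setOf_eq]
  split_ifs with hi
  · rw [e2, hi, lor_chart_zero hd.ne', mul_eq_zero, sub_eq_zero]
    exact or_iff_right (by positivity)
  · have hi1 : 1 ≤ i.val := Nat.pos_of_ne_zero fun h0 => hi (Fin.ext h0)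
    have c1 : ((i : ℕ) : ℝ) - 1 = (((⟨i.val - 1, by omega⟩ : Fin 12) : ℕ) : ℝ) := by
      simp only [Nat.cast_sub hi1, Nat.cast_one]
    rw [c1, e1, (e3 _).1, (e3 _).2, lor_chart_ne hd.ne' hi1, mul_eq_zero, sub_eq_zero,
      or_iff_right (mul_pos hd (aa_pos hi1 (by omega))).ne']
    exact side_iff hi1 (by omega) m1 m2 m3

end Pool.Agent.Lib.MP_003e01_gt
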