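import Pool.Agent.Lib.MP_003e01_gt.Blue

/-! Block KAP2: the upper half of the planar surface is the model disc. -/

open Set Topology

namespace Pool.Agent.Lib.MP_003e01_gt

namespace KAP2

noncomputable def xs : Fin 12 → ℝ := ![0, 2, 4, 5, 7, 8, 10, 11, 13, 14, 16, 18]

noncomputable def arc (c t : ℝ) : ℝ := √(1 - (t - c) ^ 2)

noncomputable def lo (t : ℝ) : ℝ :=
  max (arc 3 t) (max (arc 6 t) (max (arc 9 t) (max (arc 12 t) (arc 15 t))))

noncomputable def hi (t : ℝ) : ℝ := √(t * (18 - t))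

lemma xs_mono : StrictMono xs := by
  refine Fin.strictMono_iff_lt_succ.2 fun i => ?_
  fin_cases i <;> simp [xs] <;> norm_num

lemma xs0 : xs 0 = 0 := rfl
lemma xs11 : xs 11 = 18 := rfl

lemma arc_le (c t y : ℝ) : arc c t ≤ y ↔ 0 ≤ y ∧ 1 ≤ (t - c) ^ 2 + y ^ 2 := by
  rw [arc, Real.sqrt_le_iff]
  constructor <;> rintro ⟨h1, h2⟩ <;> exact ⟨h1, by linarith⟩

lemma le_arc (c t : ℝ) {y : ℝ} (hy : 0 < y) : y ≤ arc c t ↔ (t - c) ^ 2 + y ^ 2 ≤ 1 := by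
  rw [arc, Real.le_sqrt' hy]
  constructor <;> intro h <;> linarith

lemma holes (t y : ℝ) : (∀ i : ℕ, 1 ≤ i → i ≤ 5 → 1 ≤ (t - 3 * i) ^ 2 + y ^ 2) ↔
    1 ≤ (t - 3) ^ 2 + y ^ 2 ∧ 1 ≤ (t - 6) ^ 2 + y ^ 2 ∧ 1 ≤ (t - 9) ^ 2 + y ^ 2 ∧
      1 ≤ (t - 12) ^ 2 + y ^ 2 ∧ 1 ≤ (t - 15) ^ 2 + y ^ 2 := by
  constructor
  · intro h
    have h1 := h 1 (by norm_num) (by norm_num)
    have h2 := h 2 (by norm_num) (by norm_num)
    have h3 := h 3 (by norm_num) (by norm_num)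
    have h4 := h 4 (by norm_num) (by norm_num)
    have h5 := h 5 (by norm_num) (by norm_num)
    norm_num at h1 h2 h3 h4 h5
    exact ⟨h1, h2, h3, h4, h5⟩
  · rintro ⟨h1, h2, h3, h4, h5⟩ i hi1 hi5
    interval_cases i <;> norm_num <;> assumption

lemma circles (t y : ℝ) : (∃ i : ℕ, 1 ≤ i ∧ i ≤ 5 ∧ (t - 3 * i) ^ 2 + y ^ 2 = 1) ↔
    (t - 3) ^ 2 + y ^ 2 = 1 ∨ (t - 6) ^ 2 + y ^ 2 = 1 ∨ (t - 9) ^ 2 + y ^ 2 = 1 ∨
      (t - 12) ^ 2 + y ^ 2 = 1 ∨ (t - 15) ^ 2 + y ^ 2 = 1 := by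
  constructor
  · rintro ⟨i, hi1, hi5, h⟩
    interval_cases i <;> norm_num at h <;> simp [h]
  · rintro (h | h | h | h | h)
    · exact ⟨1, by norm_num, by norm_num, by norm_num; exact h⟩
    · exact ⟨2, by norm_num, by norm_num, by norm_num; exact h⟩
    · exact ⟨3, by norm_num, by norm_num, by norm_num; exact h⟩
    · exact ⟨4, by norm_num, by norm_num, by norm_num; exact h⟩
    · exact ⟨5, by norm_num, by norm_num, by norm_num; exact h⟩

lemma lo_le (t y : ℝ) : lo t ≤ y ↔ 0 ≤ y ∧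
    1 ≤ (t - 3) ^ 2 + y ^ 2 ∧ 1 ≤ (t - 6) ^ 2 + y ^ 2 ∧ 1 ≤ (t - 9) ^ 2 + y ^ 2 ∧
      1 ≤ (t - 12) ^ 2 + y ^ 2 ∧ 1 ≤ (t - 15) ^ 2 + y ^ 2 := by
  simp only [lo, max_le_iff, arc_le]
  tauto

lemma lo_nonneg (t : ℝ) : 0 ≤ lo t := le_max_of_le_left (Real.sqrt_nonneg _)

lemma eq_lo {t y : ℝ} (h : lo t ≤ y) : y = lo t ↔ y = 0 ∨
    (t - 3) ^ 2 + y ^ 2 = 1 ∨ (t - 6) ^ 2 + y ^ 2 = 1 ∨ (t - 9) ^ 2 + y ^ 2 = 1 ∨
      (t - 12) ^ 2 + y ^ 2 = 1 ∨ (t - 15) ^ 2 + y ^ 2 = 1 := by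
  obtain ⟨h0, h1, h2, h3, h4, h5⟩ := (lo_le t y).1 h
  rcases h0.eq_or_lt with h0 | h0
  · exact ⟨fun _ => Or.inl h0.symm, fun _ => le_antisymm (h0 ▸ lo_nonneg t) h⟩
  · have : y = lo t ↔ y ≤ lo t := ⟨fun e => e.le, fun e => le_antisymm e h⟩
    rw [this]
    simp only [lo, le_max_iff, le_arc _ _ h0, h0.ne', false_or]
    constructor
    · rintro (e | e | e | e | e)
      · exact Or.inl (le_antisymm e h1)
      · exact Or.inr (Or.inl (le_antisymm e h2))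
      · exact Or.inr (Or.inr (Or.inl (le_antisymm e h3)))
      · exact Or.inr (Or.inr (Or.inr (Or.inl (le_antisymm e h4))))
      · exact Or.inr (Or.inr (Or.inr (Or.inr (le_antisymm e h5))))
    · rintro (e | e | e | e | e) <;> simp [e]

lemma mem_iff (p : ℝ × ℝ) : (p ∈ Planar 5 ∧ 0 ≤ p.2) ↔
    p.1 ∈ Icc (xs 0) (xs 11) ∧ lo p.1 ≤ p.2 ∧ p.2 ≤ hi p.1 := by
  obtain ⟨t, y⟩ := p
  simp only [Planar, mem_ofPred_eq, holes, lo_le, xs0, xs11, mem_Icc, hi]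
  constructor
  · rintro ⟨⟨h1, h2⟩, h3⟩
    norm_num at h1
    refine ⟨⟨by nlinarith, by nlinarith⟩, ⟨h3, h2⟩, Real.le_sqrt_of_sq_le (by linarith)⟩
  · rintro ⟨⟨h1, h1'⟩, ⟨h2, h3⟩, h4⟩
    rw [Real.le_sqrt h2 (mul_nonneg h1 (by linarith))] at h4
    exact ⟨⟨by norm_num; linarith, h3⟩, h2⟩

lemma eq_hi {t y : ℝ} (h0 : 0 ≤ y) (h1 : 0 ≤ t) (h2 : t ≤ 18) :
    y = hi t ↔ t ^ 2 + y ^ 2 = 18 * t := by
  rw [hi, eq_comm, Real.sqrt_eq_iff_mul_self_eq (mul_nonneg h1 (by linarith)) h0]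
  constructor <;> intro h <;> linarith

lemma lo_lt_hi (t : ℝ) (ht : t ∈ Ioo (xs 0) (xs 11)) : lo t < hi t := by
  obtain ⟨h1, h2⟩ := ht
  rw [xs0] at h1
  rw [xs11] at h2
  have hp : 0 < t * (18 - t) := mul_pos h1 (by linarith)
  have key : ∀ c : ℝ, 1 - (t - c) ^ 2 < t * (18 - t) → arc c t < hi t := by
    intro c hc
    rw [arc, hi, Real.sqrt_lt' (Real.sqrt_pos.2 hp), Real.sq_sqrt hp.le]
    exact hc
  simp only [lo, max_lt_iff]
  refine ⟨key _ ?_, key _ ?_, key _ ?_, key _ ?_, key _ ?_⟩ <;> nlinarith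

lemma pred_val (i : Fin 12) (hi : i ≠ 0) : (((i - 1 : Fin 12) : ℕ) : ℝ) = (i : ℕ) - 1 := by
  have : ((i - 1 : Fin 12) : ℕ) + 1 = i := by revert i; decide
  rw [← this]; push_cast; ring

end KAP2

open KAP2 in
theorem blockKAP2 (hl : StmtLens) : StmtKAP2 := by
  have c1 : Continuous lo := by unfold lo arc; fun_prop
  have c2 : Continuous hi := by unfold hi; fun_prop
  have z0 : lo (xs 0) = hi (xs 0) := by
    rw [xs0]
    have : lo 0 ≤ 0 := by rw [lo_le]; norm_num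
    rw [le_antisymm this (lo_nonneg 0), hi]; simp
  have z1 : lo (xs 11) = hi (xs 11) := by
    rw [xs11]
    have : lo 18 ≤ 0 := by rw [lo_le]; norm_num
    rw [le_antisymm this (lo_nonneg 18), hi]; simp
  obtain ⟨e, he⟩ := hl xs lo hi xs_mono c1.continuousOn c2.continuousOn z0 z1 lo_lt_hi
  let ι : {p : ℝ × ℝ // p ∈ Planar 5 ∧ 0 ≤ p.2} ≃ₜ
      {q : ℝ × ℝ // q.1 ∈ Icc (xs 0) (xs 11) ∧ lo q.1 ≤ q.2 ∧ q.2 ≤ hi q.1} :=
    Homeomorph.setCongr (s := {p : ℝ × ℝ | p ∈ Planar 5 ∧ 0 ≤ p.2})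
      (t := {q : ℝ × ℝ | q.1 ∈ Icc (xs 0) (xs 11) ∧ lo q.1 ≤ q.2 ∧ q.2 ≤ hi q.1})
      (Set.ext mem_iff)
  refine ⟨ι.trans e, fun p => ?_⟩
  obtain ⟨h1, h2, h3⟩ := he (ι p)
  have hval : (ι p).1 = p.1 := rfl
  obtain ⟨⟨ht0, ht1⟩, hlo, hhi⟩ := (ι p).2
  rw [hval] at h1 h2 h3 ht0 ht1 hlo hhi
  rw [xs0] at ht0
  rw [xs11] at ht1
  have side : ∀ i : Fin 12, i ≠ 0 → (((ι.trans e) p).1 ∈ ModSide i ↔
      p.1.2 = lo p.1.1 ∧ xs (i - 1) ≤ p.1.1 ∧ p.1.1 ≤ xs i) := by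
    intro i hi
    simp only [ModSide, mem_ofPred_eq, hi, if_false, Homeomorph.trans_apply]
    rw [h1, ← pred_val i hi, (h3 (i - 1)).1, (h3 i).2]
  have side0 : ((ι.trans e) p).1 ∈ ModSide 0 ↔ p.1.1 ^ 2 + p.1.2 ^ 2 = 18 * p.1.1 := by
    simp only [ModSide, mem_ofPred_eq, if_true, Homeomorph.trans_apply]
    rw [h2, eq_hi p.2.2 ht0 ht1]
  have hP := p.2.1
  obtain ⟨k0, k1, k2, k3, k4, k5⟩ := (lo_le _ _).1 hlo
  have hE := eq_lo hlo
  have hB : p.1 ∈ PBd 5 ↔ p.1.1 ^ 2 + p.1.2 ^ 2 = 18 * p.1.1 ∨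
      (p.1.1 - 3) ^ 2 + p.1.2 ^ 2 = 1 ∨ (p.1.1 - 6) ^ 2 + p.1.2 ^ 2 = 1 ∨
      (p.1.1 - 9) ^ 2 + p.1.2 ^ 2 = 1 ∨ (p.1.1 - 12) ^ 2 + p.1.2 ^ 2 = 1 ∨
      (p.1.1 - 15) ^ 2 + p.1.2 ^ 2 = 1 := by
    simp only [PBd, mem_ofPred_eq, hP, true_and, circles]
    norm_num
  have mk : ∀ (i : Fin 12) (a b : ℝ), i ≠ 0 → xs (i - 1) = a → xs i = b → p.1.2 = lo p.1.1 →
      a ≤ p.1.1 → p.1.1 ≤ b → ((ι.trans e) p).1 ∈ ModSide i := by
    intro i a b hi ha hb h h' h''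
    exact (side i hi).2 ⟨h, ha ▸ h', hb ▸ h''⟩
  have un : ∀ (i : Fin 12) (a b : ℝ), i ≠ 0 → xs (i - 1) = a → xs i = b →
      ((ι.trans e) p).1 ∈ ModSide i → p.1.2 = lo p.1.1 ∧ a ≤ p.1.1 ∧ p.1.1 ≤ b := by
    intro i a b hi ha hb h
    rw [← ha, ← hb]; exact (side i hi).1 h
  generalize ((ι.trans e) p).1 = m at *
  generalize p.1.1 = t at *
  generalize p.1.2 = y at *
  have out : ∀ c : ℝ, 1 ≤ (t - c) ^ 2 + 0 ^ 2 → t ≤ c - 1 ∨ c + 1 ≤ t := by
    intro c hc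
    by_contra hn
    push Not at hn
    nlinarith
  have ins : ∀ c : ℝ, (t - c) ^ 2 + y ^ 2 = 1 → c - 1 ≤ t ∧ t ≤ c + 1 := by
    intro c hc
    constructor <;> nlinarith
  have flat : ∀ c : ℝ, (t ≤ c - 1 ∨ c + 1 ≤ t) → (t - c) ^ 2 + y ^ 2 = 1 → y = 0 := by
    intro c h hc
    rcases h with h | h <;> nlinarith
  have flat' : y = lo t → (t ≤ 2 ∨ 4 ≤ t) → (t ≤ 5 ∨ 7 ≤ t) → (t ≤ 8 ∨ 10 ≤ t) →
      (t ≤ 11 ∨ 13 ≤ t) → (t ≤ 14 ∨ 16 ≤ t) → y = 0 := by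
    intro h a1 a2 a3 a4 a5
    rcases hE.1 h with h | h | h | h | h | h
    · exact h
    · exact flat 3 (by norm_num; exact a1) h
    · exact flat 6 (by norm_num; exact a2) h
    · exact flat 9 (by norm_num; exact a3) h
    · exact flat 12 (by norm_num; exact a4) h
    · exact flat 15 (by norm_num; exact a5) h
  have onc : ∀ c : ℝ, y = 0 → c - 1 ≤ t → t ≤ c + 1 → 1 ≤ (t - c) ^ 2 + y ^ 2 →
      (t - c) ^ 2 + y ^ 2 = 1 := by
    intro c h a b hc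
    subst h
    nlinarith
  constructor
  · constructor
    · intro h0
      have hy : y = lo t := hE.2 (Or.inl h0)
      rw [h0] at k1 k2 k3 k4 k5
      rcases out 3 k1 with a1 | a1
      · exact ⟨1, rfl, mk 1 0 2 (by decide) rfl rfl hy ht0 (by linarith)⟩
      rcases out 6 k2 with a2 | a2
      · exact ⟨3, rfl, mk 3 4 5 (by decide) rfl rfl hy (by linarith) (by linarith)⟩
      rcases out 9 k3 with a3 | a3
      · exact ⟨5, rfl, mk 5 7 8 (by decide) rfl rfl hy (by linarith) (by linarith)⟩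
      rcases out 12 k4 with a4 | a4
      · exact ⟨7, rfl, mk 7 10 11 (by decide) rfl rfl hy (by linarith) (by linarith)⟩
      rcases out 15 k5 with a5 | a5
      · exact ⟨9, rfl, mk 9 13 14 (by decide) rfl rfl hy (by linarith) (by linarith)⟩
      · exact ⟨11, rfl, mk 11 16 18 (by decide) rfl rfl hy (by linarith) ht1⟩
    · rintro ⟨i, hi, hm⟩
      have hc : i = 1 ∨ i = 3 ∨ i = 5 ∨ i = 7 ∨ i = 9 ∨ i = 11 := by
        clear hm; revert i; decide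
      rcases hc with rfl | rfl | rfl | rfl | rfl | rfl
      · obtain ⟨a, b, c⟩ := un 1 0 2 (by decide) rfl rfl hm
        exact flat' a (.inl (by linarith)) (.inl (by linarith)) (.inl (by linarith))
          (.inl (by linarith)) (.inl (by linarith))
      · obtain ⟨a, b, c⟩ := un 3 4 5 (by decide) rfl rfl hm
        exact flat' a (.inr (by linarith)) (.inl (by linarith)) (.inl (by linarith))
          (.inl (by linarith)) (.inl (by linarith))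
      · obtain ⟨a, b, c⟩ := un 5 7 8 (by decide) rfl rfl hm
        exact flat' a (.inr (by linarith)) (.inr (by linarith)) (.inl (by linarith))
          (.inl (by linarith)) (.inl (by linarith))
      · obtain ⟨a, b, c⟩ := un 7 10 11 (by decide) rfl rfl hm
        exact flat' a (.inr (by linarith)) (.inr (by linarith)) (.inr (by linarith))
          (.inl (by linarith)) (.inl (by linarith))
      · obtain ⟨a, b, c⟩ := un 9 13 14 (by decide) rfl rfl hm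
        exact flat' a (.inr (by linarith)) (.inr (by linarith)) (.inr (by linarith))
          (.inr (by linarith)) (.inl (by linarith))
      · obtain ⟨a, b, c⟩ := un 11 16 18 (by decide) rfl rfl hm
        exact flat' a (.inr (by linarith)) (.inr (by linarith)) (.inr (by linarith))
          (.inr (by linarith)) (.inr (by linarith))
  · rw [hB]
    constructor
    · rintro (h | h | h | h | h | h)
      · exact ⟨0, rfl, side0.2 h⟩
      · obtain ⟨a, b⟩ := ins _ h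
        exact ⟨2, rfl, mk 2 2 4 (by decide) rfl rfl (hE.2 (by simp [h])) (by linarith) (by linarith)⟩
      · obtain ⟨a, b⟩ := ins _ h
        exact ⟨4, rfl, mk 4 5 7 (by decide) rfl rfl (hE.2 (by simp [h])) (by linarith) (by linarith)⟩
      · obtain ⟨a, b⟩ := ins _ h
        exact ⟨6, rfl, mk 6 8 10 (by decide) rfl rfl (hE.2 (by simp [h])) (by linarith)
          (by linarith)⟩
      · obtain ⟨a, b⟩ := ins _ h
        exact ⟨8, rfl, mk 8 11 13 (by decide) rfl rfl (hE.2 (by simp [h])) (by linarith)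
          (by linarith)⟩
      · obtain ⟨a, b⟩ := ins _ h
        exact ⟨10, rfl, mk 10 14 16 (by decide) rfl rfl (hE.2 (by simp [h])) (by linarith)
          (by linarith)⟩
    · rintro ⟨i, hi, hm⟩
      have hc : i = 0 ∨ i = 2 ∨ i = 4 ∨ i = 6 ∨ i = 8 ∨ i = 10 := by
        clear hm; revert i; decide
      rcases hc with rfl | rfl | rfl | rfl | rfl | rfl
      · exact Or.inl (side0.1 hm)
      · obtain ⟨a, b, c⟩ := un 2 2 4 (by decide) rfl rfl hm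
        rcases hE.1 a with h | h
        · simp [onc 3 h (by linarith) (by linarith) k1]
        · exact Or.inr h
      · obtain ⟨a, b, c⟩ := un 4 5 7 (by decide) rfl rfl hm
        rcases hE.1 a with h | h
        · simp [onc 6 h (by linarith) (by linarith) k2]
        · exact Or.inr h
      · obtain ⟨a, b, c⟩ := un 6 8 10 (by decide) rfl rfl hm
        rcases hE.1 a with h | h
        · simp [onc 9 h (by linarith) (by linarith) k3]
        · exact Or.inr h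
      · obtain ⟨a, b, c⟩ := un 8 11 13 (by decide) rfl rfl hm
        rcases hE.1 a with h | h
        · simp [onc 12 h (by linarith) (by linarith) k4]
        · exact Or.inr h
      · obtain ⟨a, b, c⟩ := un 10 14 16 (by decide) rfl rfl hm
        rcases hE.1 a with h | h
        · simp [onc 15 h (by linarith) (by linarith) k5]
        · exact Or.inr h

end Pool.Agent.Lib.MP_003e01_gt
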