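import Pool.Agent.Lib.MP_003e01_gt.PushBa

/-! Block Lens: a lens with twelve marked abscissae is the model disc. -/

open Set Topology Filter

namespace Pool.Agent.Lib.MP_003e01_gt

namespace LensB

noncomputable def cl (a : ℝ) : ℝ := max 0 (min 1 a)

lemma cl_mono {a b : ℝ} (h : a ≤ b) : cl a ≤ cl b := max_le_max le_rfl (min_le_min le_rfl h)

lemma cl_lt {a b : ℝ} (h : a < b) (h0 : 0 ≤ a) (h1 : a < 1) : cl a < cl b := by
  unfold cl
  rw [min_eq_right h1.le, max_eq_right h0]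
  exact lt_max_of_lt_right (lt_min h1 h)

/-- the marked points, indexed by natural numbers -/
def xn (x : Fin 12 → ℝ) (n : ℕ) : ℝ := x ⟨min n 11, by omega⟩

lemma xn_fin (x : Fin 12 → ℝ) (j : Fin 12) : xn x j = x j := by
  unfold xn
  congr 1
  ext
  have := j.2
  simp only
  omega

/-- the piecewise linear interpolation -/
noncomputable def ps (x : Fin 12 → ℝ) (a : ℝ) : ℝ :=
  xn x 0 + ∑ i ∈ Finset.range 11, (xn x (i + 1) - xn x i) * cl (a - i)

lemma continuous_ps (x : Fin 12 → ℝ) : Continuous (ps x) := by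
  unfold ps cl
  fun_prop

lemma ps_nat (x : Fin 12 → ℝ) {j : ℕ} (hj : j ≤ 11) : ps x j = xn x j := by
  have h1 : ∑ i ∈ Finset.range 11, (xn x (i + 1) - xn x i) * cl ((j : ℝ) - i) =
      ∑ i ∈ Finset.range j, (xn x (i + 1) - xn x i) := by
    rw [← Finset.sum_subset (Finset.range_subset_range.2 hj)]
    · refine Finset.sum_congr rfl fun i hi => ?_
      have : (i : ℝ) + 1 ≤ j := by exact_mod_cast Finset.mem_range.1 hi
      rw [cl, min_eq_left (by linarith), max_eq_right zero_le_one, mul_one]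
    · intro i _ hi
      have : (j : ℝ) ≤ i := by exact_mod_cast not_lt.1 fun h => hi (Finset.mem_range.2 h)
      rw [cl, max_eq_left (min_le_of_right_le (by linarith)), mul_zero]
  rw [ps, h1, Finset.sum_range_sub]
  ring

lemma ps_fin (x : Fin 12 → ℝ) (j : Fin 12) : ps x j = x j := by
  rw [ps_nat x (by omega), xn_fin]

lemma ps_zero (x : Fin 12 → ℝ) : ps x 0 = x 0 := by simpa using ps_fin x 0

lemma ps_last (x : Fin 12 → ℝ) : ps x 11 = x 11 := by
  have := ps_fin x 11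
  have e : (((11 : Fin 12) : ℕ) : ℝ) = 11 := by norm_num
  rwa [e] at this

lemma ps_strict {x : Fin 12 → ℝ} (hx : StrictMono x) : StrictMonoOn (ps x) (Icc 0 11) := by
  intro a ha b hb hab
  have hp : ∀ i ∈ Finset.range 11, 0 < xn x (i + 1) - xn x i := by
    intro i hi
    have := Finset.mem_range.1 hi
    exact sub_pos.2 (hx (by simp only [Fin.mk_lt_mk]; omega))
  have hf : ⌊a⌋₊ ∈ Finset.range 11 :=
    Finset.mem_range.2 ((Nat.floor_lt ha.1).2 (by exact_mod_cast hab.trans_le hb.2))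
  unfold ps
  refine add_lt_add_of_le_of_lt le_rfl (Finset.sum_lt_sum (fun i hi =>
    mul_le_mul_of_nonneg_left (cl_mono (by linarith)) (hp i hi).le) ⟨_, hf, ?_⟩)
  refine mul_lt_mul_of_pos_left (cl_lt (by linarith) ?_ ?_) (hp _ hf)
  · linarith [Nat.floor_le ha.1]
  · linarith [Nat.lt_floor_add_one a]

lemma mod_mem (m : Mod) : m.1.1 ∈ Icc (0 : ℝ) 11 := ⟨m.2.1, m.2.2.1⟩

instance : CompactSpace Mod := by
  refine isCompact_iff_compactSpace.1
    ((isCompact_Icc (a := ((0 : ℝ), (0 : ℝ))) (b := (11, 121))).of_isClosed_subset ?_ ?_)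
  · exact (isClosed_le continuous_const continuous_fst).inter
      ((isClosed_le continuous_fst continuous_const).inter
        ((isClosed_le continuous_const continuous_snd).inter
          (isClosed_le continuous_snd (by fun_prop))))
  · rintro q ⟨h1, h2, h3, h4⟩
    exact ⟨⟨h1, h3⟩, ⟨h2, by nlinarith⟩⟩

lemma ends {a : ℝ} (ha : a ∈ Icc (0 : ℝ) 11) : a = 0 ∨ a = 11 ∨ (0 < a ∧ a < 11) := by
  rcases ha.1.eq_or_lt with h | h
  · exact Or.inl h.symm
  · rcases ha.2.eq_or_lt with h' | h'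
    · exact Or.inr (Or.inl h')
    · exact Or.inr (Or.inr ⟨h, h'⟩)

end LensB

open LensB in
theorem blockLens : StmtLens := by
  intro x lo hi hx hlo hhi e0 e1 hlt
  have sm := ps_strict hx
  have z0 : (0 : ℝ) ∈ Icc (0 : ℝ) 11 := ⟨le_rfl, by norm_num⟩
  have z1 : (11 : ℝ) ∈ Icc (0 : ℝ) 11 := ⟨by norm_num, le_rfl⟩
  have hmem : ∀ a ∈ Icc (0 : ℝ) 11, ps x a ∈ Icc (x 0) (x 11) := fun a ha =>
    ⟨ps_zero x ▸ sm.monotoneOn z0 ha ha.1, ps_last x ▸ sm.monotoneOn ha z1 ha.2⟩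
  have hpos : ∀ a, 0 < a → a < 11 → 0 < hi (ps x a) - lo (ps x a) := fun a h0 h1 =>
    sub_pos.2 (hlt _ ⟨ps_zero x ▸ sm z0 ⟨h0.le, h1.le⟩ h0, ps_last x ▸ sm ⟨h0.le, h1.le⟩ z1 h1⟩)
  have hcase : ∀ a ∈ Icc (0 : ℝ) 11, (hi (ps x a) - lo (ps x a) = 0 ∧ a * (11 - a) = 0) ∨
      (0 < hi (ps x a) - lo (ps x a) ∧ 0 < a * (11 - a)) := by
    intro a ha
    rcases ends ha with h | h | h
    · left; rw [h, ps_zero, e0]; simp
    · left; rw [h, ps_last, e1]; simp
    · right; exact ⟨hpos a h.1 h.2, mul_pos h.1 (by linarith [h.2])⟩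
  have hr : ∀ m : Mod, 0 ≤ m.1.2 / (m.1.1 * (11 - m.1.1)) ∧ m.1.2 / (m.1.1 * (11 - m.1.1)) ≤ 1 :=
    fun m => ⟨div_nonneg m.2.2.2.1 (m.2.2.2.1.trans m.2.2.2.2),
      div_le_one_of_le₀ m.2.2.2.2 (m.2.2.2.1.trans m.2.2.2.2)⟩
  have hD : ∀ m : Mod, 0 ≤ hi (ps x m.1.1) - lo (ps x m.1.1) := fun m =>
    (hcase _ (mod_mem m)).elim (fun h => h.1.ge) fun h => h.1.le
  let F : Mod → {q : ℝ × ℝ // q.1 ∈ Icc (x 0) (x 11) ∧ lo q.1 ≤ q.2 ∧ q.2 ≤ hi q.1} := fun m =>
    ⟨(ps x m.1.1, lo (ps x m.1.1) +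
      (hi (ps x m.1.1) - lo (ps x m.1.1)) * (m.1.2 / (m.1.1 * (11 - m.1.1)))),
      hmem _ (mod_mem m), le_add_of_nonneg_right (mul_nonneg (hD m) (hr m).1), by
        have := mul_le_of_le_one_right (hD m) (hr m).2
        dsimp only
        linarith⟩
  have c1 : Continuous fun m : Mod => m.1.1 := continuous_fst.comp continuous_subtype_val
  have c2 : Continuous fun m : Mod => ps x m.1.1 := (continuous_ps x).comp c1
  have c3 : Continuous fun m : Mod => lo (ps x m.1.1) :=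
    hlo.comp_continuous c2 fun m => hmem _ (mod_mem m)
  have c4 : Continuous fun m : Mod => hi (ps x m.1.1) :=
    hhi.comp_continuous c2 fun m => hmem _ (mod_mem m)
  have hF : Continuous F := by
    refine Continuous.subtype_mk (c2.prodMk (c3.add (PushB.cont_mul_div (c4.sub c3)
      (continuous_snd.comp continuous_subtype_val) (c1.mul (continuous_const.sub c1))
      (fun m => ?_) fun m hm => ?_))) _
    · exact (abs_of_nonneg m.2.2.2.1).le.trans m.2.2.2.2
    · exact (hcase _ (mod_mem m)).elim (fun h => h.1) fun h => absurd hm h.2.ne'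
  have hinj : Function.Injective F := by
    intro m m' e
    have a1 : ps x m.1.1 = ps x m'.1.1 := congrArg (fun q => q.1.1) e
    have a2 : m.1.1 = m'.1.1 := sm.injOn (mod_mem m) (mod_mem m') a1
    have a3 := congrArg (fun q => q.1.2) e
    simp only [F] at a3
    rw [← a2] at a3
    refine Subtype.ext (Prod.ext a2 ?_)
    rcases hcase _ (mod_mem m) with h | h
    · have b1 := m.2.2.2
      have b2 := m'.2.2.2
      rw [← a2] at b2
      rw [h.2] at b1 b2
      linarith [b1.1, b1.2, b2.1, b2.2]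
    · exact (div_left_inj' h.2.ne').1 (mul_left_cancel₀ h.1.ne' (add_left_cancel a3))
  have hsurj : Function.Surjective F := by
    rintro ⟨⟨t, y⟩, h1, h2, h3⟩
    have iv := intermediate_value_Icc (show (0 : ℝ) ≤ 11 by norm_num) (continuous_ps x).continuousOn
    rw [ps_zero, ps_last] at iv
    obtain ⟨a, ha, rfl⟩ := iv h1
    dsimp only at h2 h3
    rcases hcase a ha with h | h
    · refine ⟨⟨(a, 0), ha.1, ha.2, le_rfl, h.2.ge⟩, Subtype.ext (Prod.ext rfl ?_)⟩
      simp only [F]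
      rw [h.1]
      linarith [h.1]
    · refine ⟨⟨(a, (y - lo (ps x a)) / (hi (ps x a) - lo (ps x a)) * (a * (11 - a))), ha.1, ha.2,
        mul_nonneg (div_nonneg (sub_nonneg.2 h2) h.1.le) h.2.le,
        mul_le_of_le_one_left h.2.le ((div_le_one h.1).2 (by linarith))⟩,
        Subtype.ext (Prod.ext rfl ?_)⟩
      simp only [F]
      rw [mul_div_cancel_right₀ _ h.2.ne', mul_div_cancel₀ _ h.1.ne']
      ring
  let E := Continuous.homeoOfEquivCompactToT2 (f := Equiv.ofBijective F ⟨hinj, hsurj⟩) hF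
  refine ⟨E.symm, fun q => ?_⟩
  obtain ⟨m, rfl⟩ := E.surjective q
  rw [E.symm_apply_apply]
  change (m.1.2 = 0 ↔ (F m).1.2 = lo (F m).1.1) ∧
    (m.1.2 = m.1.1 * (11 - m.1.1) ↔ (F m).1.2 = hi (F m).1.1) ∧
    ∀ i : Fin 12, ((i : ℝ) ≤ m.1.1 ↔ x i ≤ (F m).1.1) ∧ (m.1.1 ≤ i ↔ (F m).1.1 ≤ x i)
  simp only [F]
  have b1 := m.2.2.2
  refine ⟨?_, ?_, fun i => ?_⟩
  · rcases hcase _ (mod_mem m) with h | h
    · rw [h.2] at b1
      exact iff_of_true (le_antisymm b1.2 b1.1) (by rw [h.1]; simp)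
    · rw [add_eq_left, mul_eq_zero, div_eq_zero_iff]
      simp [h.1.ne', h.2.ne']
  · rcases hcase _ (mod_mem m) with h | h
    · rw [h.2] at b1 ⊢
      exact iff_of_true (le_antisymm b1.2 b1.1) (by rw [h.1]; linarith [h.1])
    · rw [← eq_sub_iff_add_eq', mul_eq_left₀ h.1.ne', div_eq_one_iff_eq h.2.ne']
  · have hi' : ((i : ℕ) : ℝ) ∈ Icc (0 : ℝ) 11 :=
      ⟨Nat.cast_nonneg _, by exact_mod_cast (show (i : ℕ) ≤ 11 by omega)⟩
    rw [← ps_fin x i]
    exact ⟨(sm.le_iff_le hi' (mod_mem m)).symm, (sm.le_iff_le (mod_mem m) hi').symm⟩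

end Pool.Agent.Lib.MP_003e01_gt
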