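import Pool.Agent.Lib.MP_003e01_gt.Blue

/-! Block M: gluing two handlebodies. -/

open Set Topology

namespace Pool.Agent.Lib.MP_003e01_gt

namespace M

variable {H : Type} [TopologicalSpace H] {S : Set H} {θ : S ≃ₜ S} {M : Type} [TopologicalSpace M]
  {iA iB : H → M}

lemma AB (G : Glued S θ iA iB) (s : S) : iA s = iB (θ s) := (G.eq_iff _ _).2 ⟨s, rfl, rfl⟩

lemma BA (G : Glued S θ iA iB) (s : S) : iB s = iA (θ.symm s) := by
  rw [AB G, θ.apply_symm_apply]

lemma memA (G : Glued S θ iA iB) (x : H) : iA x ∈ range iB ↔ x ∈ S := by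
  constructor
  · rintro ⟨y, hy⟩
    obtain ⟨s, rfl, -⟩ := (G.eq_iff x y).1 hy.symm
    exact s.2
  · exact fun h => ⟨_, (AB G ⟨x, h⟩).symm⟩

lemma memB (G : Glued S θ iA iB) (x : H) : iB x ∈ range iA ↔ x ∈ S := by
  constructor
  · rintro ⟨y, hy⟩
    obtain ⟨s, -, rfl⟩ := (G.eq_iff y x).1 hy
    exact (θ s).2
  · exact fun h => ⟨_, (BA G ⟨x, h⟩).symm⟩

lemma cases (G : Glued S θ iA iB) (m : M) : (∃ x, iA x = m) ∨ ∃ x, iB x = m := by
  have : m ∈ range iA ∪ range iB := G.cover ▸ mem_univ m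
  exact this

lemma image_eq (G : Glued S θ iA iB) : iA '' S = range iA ∩ range iB := by
  ext m
  constructor
  · rintro ⟨x, hx, rfl⟩
    exact ⟨⟨x, rfl⟩, (memA G x).2 hx⟩
  · rintro ⟨⟨x, rfl⟩, h⟩
    exact ⟨x, (memA G x).1 h, rfl⟩

/-- maps out of the glued space -/
lemma glue (G : Glued S θ iA iB) {N : Type} [TopologicalSpace N] {u v : H → N}
    (hu : Continuous u) (hv : Continuous v) (h : ∀ s : S, u s = v (θ s)) :
    ∃ w : M → N, Continuous w ∧ (∀ x, w (iA x) = u x) ∧ ∀ x, w (iB x) = v x := by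
  classical
  let w : M → N := fun m =>
    if hm : ∃ x, iA x = m then u hm.choose else v ((cases G m).resolve_left hm).choose
  have hA : ∀ x, w (iA x) = u x := fun x => by
    have hm : ∃ y, iA y = iA x := ⟨x, rfl⟩
    simp only [w, dif_pos hm]
    rw [G.embA.injective hm.choose_spec]
  have hB : ∀ x, w (iB x) = v x := fun x => by
    by_cases hm : ∃ y, iA y = iB x
    · obtain ⟨y, hy⟩ := hm
      obtain ⟨s, rfl, rfl⟩ := (G.eq_iff y x).1 hy
      rw [← hy, hA, h]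
    · simp only [w, dif_neg hm]
      rw [G.embB.injective ((cases G (iB x)).resolve_left hm).choose_spec]
  refine ⟨w, continuous_iff_isClosed.2 fun C hC => ?_, hA, hB⟩
  have : w ⁻¹' C = iA '' (u ⁻¹' C) ∪ iB '' (v ⁻¹' C) := by
    ext m
    constructor
    · intro hm
      rcases cases G m with ⟨x, rfl⟩ | ⟨x, rfl⟩
      · exact Or.inl ⟨x, by rwa [mem_preimage, ← hA], rfl⟩
      · exact Or.inr ⟨x, by rwa [mem_preimage, ← hB], rfl⟩
    · rintro (⟨x, hx, rfl⟩ | ⟨x, hx, rfl⟩)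
      · rwa [mem_preimage, hA]
      · rwa [mem_preimage, hB]
  rw [this]
  exact (G.embA.isClosedMap _ (hC.preimage hu)).union (G.embB.isClosedMap _ (hC.preimage hv))

/-- gluing two homeomorphisms -/
lemma glue_homeo (G : Glued S θ iA iB) {f : S ≃ₜ S} (hA : Ext S f) (hB : Ext S (θ * f * θ⁻¹)) :
    ∃ φ : M ≃ₜ M, φ '' range iA = range iA ∧ φ '' range iB = range iB ∧
      ∀ s : S, φ (iA s) = iA (f s) := by
  obtain ⟨Φ, hΦ⟩ := hA
  obtain ⟨Ψ, hΨ⟩ := hB
  have hΨ' : ∀ s : S, Ψ (θ s) = θ (f s) := fun s => by rw [hΨ]; simp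
  obtain ⟨w, cw, wA, wB⟩ := glue G (u := iA ∘ Φ) (v := iB ∘ Ψ)
    (G.embA.continuous.comp Φ.continuous) (G.embB.continuous.comp Ψ.continuous) fun s => by
      simp only [Function.comp, hΦ, hΨ', AB G]
  obtain ⟨w', cw', wA', wB'⟩ := glue G (u := iA ∘ Φ.symm) (v := iB ∘ Ψ.symm)
    (G.embA.continuous.comp Φ.symm.continuous) (G.embB.continuous.comp Ψ.symm.continuous)
    fun s => by
      obtain ⟨s, rfl⟩ := f.surjective s
      simp only [Function.comp]
      rw [← hΦ, ← hΨ', Φ.symm_apply_apply, Ψ.symm_apply_apply, AB G]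
  simp only [Function.comp] at wA wB wA' wB'
  refine ⟨⟨⟨w, w', fun m => ?_, fun m => ?_⟩, cw, cw'⟩, ?_, ?_, fun s => ?_⟩
  · rcases cases G m with ⟨x, rfl⟩ | ⟨x, rfl⟩
    · rw [wA, wA', Φ.symm_apply_apply]
    · rw [wB, wB', Ψ.symm_apply_apply]
  · rcases cases G m with ⟨x, rfl⟩ | ⟨x, rfl⟩
    · rw [wA', wA, Φ.apply_symm_apply]
    · rw [wB', wB, Ψ.apply_symm_apply]
  · rw [← range_comp]
    exact (congrArg range (funext wA)).trans (Φ.surjective.range_comp iA)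
  · rw [← range_comp]
    exact (congrArg range (funext wB)).trans (Ψ.surjective.range_comp iB)
  · exact (wA s).trans (by rw [hΦ])

/-- restriction of a homeomorphism to an embedded piece -/
lemma restrict {i : H → M} (hi : IsEmbedding i) (φ : M ≃ₜ M) (h : φ '' range i = range i) :
    ∃ Φ : H ≃ₜ H, ∀ x, i (Φ x) = φ (i x) := by
  refine ⟨hi.toHomeomorph.trans (((φ.image (range i)).trans (Homeomorph.setCongr h)).trans
    hi.toHomeomorph.symm), fun x => ?_⟩
  exact congrArg Subtype.val (hi.toHomeomorph.apply_symm_apply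
    (((φ.image (range i)).trans (Homeomorph.setCongr h)) (hi.toHomeomorph x)))

lemma of_homeo (G : Glued S θ iA iB) (φ : M ≃ₜ M) (hA : φ '' range iA = range iA)
    (hB : φ '' range iB = range iB) :
    ∃ f : S ≃ₜ S, (∀ s : S, φ (iA s) = iA (f s)) ∧ Ext S f ∧ Ext S (θ * f * θ⁻¹) := by
  obtain ⟨Φ, hΦ⟩ := restrict G.embA.isEmbedding φ hA
  obtain ⟨Ψ, hΨ⟩ := restrict G.embB.isEmbedding φ hB
  have hS : ∀ x, x ∈ S ↔ Φ x ∈ S := fun x => by
    rw [← memA G, ← memA G, hΦ]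
    conv_rhs => rw [← hB]
    exact (φ.injective.mem_set_image).symm
  refine ⟨Φ.subtype hS, fun s => (hΦ s).symm, ⟨Φ, fun s => rfl⟩, Ψ, fun s => ?_⟩
  apply G.embB.injective
  rw [hΨ, BA G, ← hΦ]
  exact AB G (Φ.subtype hS (θ.symm s))

lemma front_nonempty (g : ℕ) : (frontier (Handlebody g)).Nonempty := by
  refine nonempty_frontier_iff.2 ⟨⟨((0, 0), 0), ⟨by simp, fun i h1 _ => ?_⟩, by simp⟩, fun h => ?_⟩
  · have : (1 : ℝ) ≤ i := by exact_mod_cast h1
    simp only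
    nlinarith
  · have : (((0, 0), 2) : (ℝ × ℝ) × ℝ) ∈ Handlebody g := h ▸ mem_univ _
    have := this.2.2
    norm_num at this

/-- existence of the glued space -/
lemma exists_glued {g : ℕ} [CompactSpace H] (e : Handlebody g ≃ₜ H)
    (he : ∀ x, e x ∈ S ↔ x.1 ∈ frontier (Handlebody g)) (θ : S ≃ₜ S) :
    ∃ (M : Type) (_ : TopologicalSpace M) (_ : T2Space M) (_ : CompactSpace M) (iA iB : H → M),
      Glued S θ iA iB := by
  have : T2Space H := e.symm.isEmbedding.t2Space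
  let ι : H → (ℝ × ℝ) × ℝ := fun x => (e.symm x).1
  have cι : Continuous ι := continuous_subtype_val.comp e.symm.continuous
  have iι : Function.Injective ι := Subtype.val_injective.comp e.symm.injective
  have hS : ∀ x, x ∈ S ↔ ι x ∈ frontier (Handlebody g) := fun x => by
    rw [← he, e.apply_symm_apply]
  have cS : IsClosed S := by
    have : S = ι ⁻¹' frontier (Handlebody g) := Set.ext hS
    rw [this]
    exact isClosed_frontier.preimage cι
  let d : H → ℝ := fun x => Metric.infDist (ι x) (frontier (Handlebody g))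
  have cd : Continuous d := (Metric.continuous_infDist_pt _).comp cι
  have d0 : ∀ x, 0 ≤ d x := fun x => Metric.infDist_nonneg
  have hd : ∀ x, x ∈ S ↔ d x = 0 := fun x => by
    rw [hS, isClosed_frontier.mem_iff_infDist_zero (front_nonempty g)]
  obtain ⟨a, ha⟩ := ContinuousMap.exists_restrict_eq cS
    (⟨fun s => ι (θ s), cι.comp (continuous_subtype_val.comp θ.continuous)⟩ : C(S, (ℝ × ℝ) × ℝ))
  obtain ⟨b, hb⟩ := ContinuousMap.exists_restrict_eq cS
    (⟨fun s => ι (θ.symm s), cι.comp (continuous_subtype_val.comp θ.symm.continuous)⟩ :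
      C(S, (ℝ × ℝ) × ℝ))
  have ha' : ∀ s : S, a s = ι (θ s) := fun s => DFunLike.congr_fun ha s
  have hb' : ∀ s : S, b s = ι (θ.symm s) := fun s => DFunLike.congr_fun hb s
  let jA : H → ((ℝ × ℝ) × ℝ) × ((ℝ × ℝ) × ℝ) × ℝ := fun x => (ι x, a x, d x)
  let jB : H → ((ℝ × ℝ) × ℝ) × ((ℝ × ℝ) × ℝ) × ℝ := fun x => (b x, ι x, -d x)
  have cA : Continuous jA := cι.prodMk (a.continuous.prodMk cd)
  have cB : Continuous jB := b.continuous.prodMk (cι.prodMk cd.neg)
  refine ⟨↥(range jA ∪ range jB), inferInstance, inferInstance,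
    isCompact_iff_compactSpace.1 ((isCompact_range cA).union (isCompact_range cB)),
    fun x => ⟨jA x, Or.inl ⟨x, rfl⟩⟩, fun x => ⟨jB x, Or.inr ⟨x, rfl⟩⟩,
    (cA.subtype_mk _).isClosedEmbedding fun x y h => iι (congrArg (fun m => m.1.1) h),
    (cB.subtype_mk _).isClosedEmbedding fun x y h => iι (congrArg (fun m => m.1.2.1) h), ?_,
    fun x y => ⟨fun h => ?_, ?_⟩⟩
  · refine eq_univ_of_forall ?_
    rintro ⟨_, ⟨x, rfl⟩ | ⟨x, rfl⟩⟩
    · exact Or.inl ⟨x, rfl⟩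
    · exact Or.inr ⟨x, rfl⟩
  · have h1 : a x = ι y := congrArg (fun m => m.1.2.1) h
    have h2 : d x = -d y := congrArg (fun m => m.1.2.2) h
    have hx : x ∈ S := (hd x).2 (by linarith [d0 x, d0 y])
    exact ⟨⟨x, hx⟩, rfl, iι (h1.symm.trans (ha' ⟨x, hx⟩))⟩
  · rintro ⟨s, rfl, rfl⟩
    refine Subtype.ext ?_
    simp only [jA, jB, ha', hb', θ.symm_apply_apply, (hd _).1 s.2, (hd _).1 (θ s).2, neg_zero]

end M

theorem blockM (h2 : StmtM2) : StmtM := by
  intro g H _ _ S e he hc hch θ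
  obtain ⟨N, _, _, _, iA, iB, G⟩ := M.exists_glued e he θ
  obtain ⟨cs⟩ := h2 g H S e he hc hch θ N iA iB G
  let j : S ≃ₜ ↥(range iA ∩ range iB) :=
    (G.embA.isEmbedding.homeomorphImage S).trans (Homeomorph.setCongr (M.image_eq G))
  have hj : ∀ s : S, (j s : N) = iA s := fun s => rfl
  refine ⟨N, inferInstance, inferInstance, inferInstance, cs, range iA, range iB, j,
    ⟨G.cover, ⟨e.trans G.embA.isEmbedding.toHomeomorph, fun x => ?_⟩,
      ⟨e.trans G.embB.isEmbedding.toHomeomorph, fun x => ?_⟩⟩, fun f => ⟨?_, ?_⟩⟩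
  · rw [← he, ← M.memA G]
    exact ⟨fun h => h.2, fun h => ⟨⟨_, rfl⟩, h⟩⟩
  · rw [← he, ← M.memB G]
    exact ⟨fun h => h.1, fun h => ⟨h, ⟨_, rfl⟩⟩⟩
  · rintro ⟨φ, hA, hB, hf⟩
    obtain ⟨f₀, h0, h1⟩ := M.of_homeo G φ hA hB
    exact ⟨f₀, fun s => Subtype.ext (by rw [hf, hj, hj, h0]), h1⟩
  · rintro ⟨f₀, h0, hA, hB⟩
    obtain ⟨φ, h1, h2, h3⟩ := M.glue_homeo G hA hB
    refine ⟨φ, h1, h2, fun x => ?_⟩
    obtain ⟨s, rfl⟩ := j.surjective x
    rw [h0, hj, hj, h3]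

end Pool.Agent.Lib.MP_003e01_gt
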