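import Pool.Agent.Lib.MP_003e01_gt.M

/-! Block M2: the glued space is a manifold. -/

open Set Topology

namespace Pool.Agent.Lib.MP_003e01_gt

namespace M2

open M

/-- there is a chart around the point -/
def Loc {Y : Type} [TopologicalSpace Y] (y : Y) : Prop :=
  ∃ c : OpenPartialHomeomorph Y ((ℝ × ℝ) × ℝ), y ∈ c.source

lemma Loc.push {Y Z : Type} [TopologicalSpace Y] [TopologicalSpace Z] {f : Y → Z}
    (hf : IsOpenEmbedding f) {y : Y} (h : Loc y) : Loc (f y) := by
  obtain ⟨c, hc⟩ := h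
  have : Nonempty Y := ⟨y⟩
  refine ⟨(hf.toOpenPartialHomeomorph f).symm.trans c, ?_⟩
  rw [OpenPartialHomeomorph.trans_source]
  refine ⟨by simp, ?_⟩
  rw [mem_preimage, hf.toOpenPartialHomeomorph_left_inv]
  exact hc

lemma loc_of_emb {Y : Type} [TopologicalSpace Y] {f : Y → (ℝ × ℝ) × ℝ} (hf : IsOpenEmbedding f)
    (y : Y) : Loc y := by
  have : Nonempty Y := ⟨y⟩
  exact ⟨hf.toOpenPartialHomeomorph f, by simp⟩

/-- coordinates on three-space -/
noncomputable def coord : ((ℝ × ℝ) × ℝ) ≃ₜ EuclideanSpace ℝ (Fin 3) :=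
  (ContinuousLinearEquiv.ofFinrankEq (𝕜 := ℝ) (by simp)).toHomeomorph

lemma charted {Y : Type} [TopologicalSpace Y] (h : ∀ y : Y, Loc y) :
    Nonempty (ChartedSpace (EuclideanSpace ℝ (Fin 3)) Y) := by
  choose c hc using h
  exact ⟨⟨univ, fun y => (c y).transHomeomorph coord, fun y => hc y, fun _ => mem_univ _⟩⟩

variable {H : Type} [TopologicalSpace H] {S : Set H} {θ : S ≃ₜ S} {N : Type} [TopologicalSpace N]
  {iA iB : H → N}

lemma loc_compl {g : ℕ} (e : Handlebody g ≃ₜ H)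
    (he : ∀ x, e x ∈ S ↔ x.1 ∈ frontier (Handlebody g)) (y : ↥Sᶜ) : Loc y := by
  refine loc_of_emb (f := fun y : ↥Sᶜ => (e.symm y.1).1) ⟨IsEmbedding.subtypeVal.comp
    (e.symm.isEmbedding.comp IsEmbedding.subtypeVal), ?_⟩ y
  have : range (fun y : ↥Sᶜ => (e.symm y.1).1) = interior (Handlebody g) := by
    rw [← self_sdiff_frontier]
    ext q
    constructor
    · rintro ⟨y, rfl⟩
      refine ⟨(e.symm y.1).2, fun h => y.2 ?_⟩
      have := (he _).2 h
      rwa [e.apply_symm_apply] at this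
    · rintro ⟨h1, h2⟩
      exact ⟨⟨e ⟨q, h1⟩, fun h => h2 ((he _).1 h)⟩, by simp⟩
  rw [this]
  exact isOpen_interior

lemma openA (G : Glued S θ iA iB) : IsOpenEmbedding fun y : ↥Sᶜ => iA y := by
  refine ⟨G.embA.isEmbedding.comp IsEmbedding.subtypeVal, ?_⟩
  have : range (fun y : ↥Sᶜ => iA y) = (range iB)ᶜ := by
    ext m
    constructor
    · rintro ⟨y, rfl⟩ h
      exact y.2 ((memA G _).1 h)
    · intro h
      obtain ⟨x, rfl⟩ := (cases G m).resolve_right h
      exact ⟨⟨x, fun hx => h ((memA G _).2 hx)⟩, rfl⟩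
  rw [this]
  exact G.embB.isClosed_range.isOpen_compl

lemma openB (G : Glued S θ iA iB) : IsOpenEmbedding fun y : ↥Sᶜ => iB y := by
  refine ⟨G.embB.isEmbedding.comp IsEmbedding.subtypeVal, ?_⟩
  have : range (fun y : ↥Sᶜ => iB y) = (range iA)ᶜ := by
    ext m
    constructor
    · rintro ⟨y, rfl⟩ h
      exact y.2 ((memB G _).1 h)
    · intro h
      obtain ⟨x, rfl⟩ := (cases G m).resolve_left h
      exact ⟨⟨x, fun hx => h ((memB G _).2 hx)⟩, rfl⟩
  rw [this]
  exact G.embA.isClosed_range.isOpen_compl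

lemma isOpen_of (G : Glued S θ iA iB) {V : Set N} (hA : IsOpen (iA ⁻¹' V))
    (hB : IsOpen (iB ⁻¹' V)) : IsOpen V := by
  have : Vᶜ = iA '' (iA ⁻¹' V)ᶜ ∪ iB '' (iB ⁻¹' V)ᶜ := by
    ext m
    constructor
    · intro hm
      rcases cases G m with ⟨x, rfl⟩ | ⟨x, rfl⟩
      · exact Or.inl ⟨x, hm, rfl⟩
      · exact Or.inr ⟨x, hm, rfl⟩
    · rintro (⟨x, hx, rfl⟩ | ⟨x, hx, rfl⟩) <;> exact hx
  rw [← isClosed_compl_iff, this]
  exact (G.embA.isClosedMap _ hA.isClosed_compl).union (G.embB.isClosedMap _ hB.isClosed_compl)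

/-- the collar parameter -/
noncomputable def k (t : ℝ) : Ioc (0 : ℝ) 1 :=
  ⟨Real.exp (-|t|), Real.exp_pos _, Real.exp_le_one_iff.2 (neg_nonpos.2 (abs_nonneg t))⟩

lemma continuous_k : Continuous k :=
  (Real.continuous_exp.comp continuous_abs.neg).subtype_mk _

lemma k_zero : k 0 = ⟨1, one_pos, le_rfl⟩ := Subtype.ext (by simp [k])

lemma k_inj {t t' : ℝ} (h : k t = k t') : |t| = |t'| :=
  neg_injective (Real.exp_injective (congrArg Subtype.val h))

lemma log_nonpos (r : Ioc (0 : ℝ) 1) : Real.log r ≤ 0 := Real.log_nonpos r.2.1.le r.2.2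

lemma k_log (r : Ioc (0 : ℝ) 1) : k (Real.log r) = r :=
  Subtype.ext (by simp only [k]; rw [abs_of_nonpos (log_nonpos r), neg_neg, Real.exp_log r.2.1])

lemma k_neg (t : ℝ) : k (-t) = k t := Subtype.ext (by simp [k])

lemma log_k (t : ℝ) : Real.log (k t) = -|t| := Real.log_exp _

lemma continuous_log : Continuous fun r : Ioc (0 : ℝ) 1 => Real.log r :=
  continuous_subtype_val.log fun r => r.2.1.ne'

lemma bicollar (G : Glued S θ iA iB) (hc : HasCollar S) :
    ∃ β : S × ℝ → N, IsOpenEmbedding β ∧ ∀ s : S, β (s, 0) = iA s := by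
  obtain ⟨c, hc, h1⟩ := hc
  have h0 : ∀ s : S, c (s, k 0) = s := fun s => by rw [k_zero, h1]
  have hS : ∀ (s : S) (t : ℝ), c (s, k t) ∈ S → t = 0 := fun s t h => by
    have := k_inj (congrArg Prod.snd (hc.injective (h0 ⟨_, h⟩)))
    simpa using this.symm
  let β : S × ℝ → N := fun q => if q.2 ≤ 0 then iA (c (q.1, k q.2)) else iB (c (θ q.1, k q.2))
  have βA : ∀ (s : S) (t : ℝ), t ≤ 0 → β (s, t) = iA (c (s, k t)) := fun s t h => if_pos h
  have βB : ∀ (s : S) (t : ℝ), 0 ≤ t → β (s, t) = iB (c (θ s, k t)) := fun s t h => by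
    rcases h.eq_or_lt with rfl | h
    · rw [βA _ _ le_rfl, h0, h0, AB G]
    · exact if_neg h.not_ge
  refine ⟨β, .of_continuous_injective_isOpenMap ?_ ?_ fun U hU => isOpen_of G ?_ ?_,
    fun s => by rw [βA _ _ le_rfl, h0]⟩
  · refine Continuous.if_le ?_ ?_ continuous_snd continuous_const fun q hq => ?_
    · exact G.embA.continuous.comp
        (hc.continuous.comp (continuous_fst.prodMk (continuous_k.comp continuous_snd)))
    · exact G.embB.continuous.comp (hc.continuous.comp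
        ((θ.continuous.comp continuous_fst).prodMk (continuous_k.comp continuous_snd)))
    · rw [hq, h0, h0, AB G]
  · have mixed : ∀ (s s' : S) (t t' : ℝ), t ≤ 0 → 0 < t' → β (s, t) ≠ β (s', t') := by
      intro s s' t t' h h' e
      rw [βA _ _ h, βB _ _ h'.le] at e
      exact h'.ne' (hS _ _ ((memB G _).1 ⟨_, e⟩))
    rintro ⟨s, t⟩ ⟨s', t'⟩ e
    rcases le_or_gt t 0 with h | h <;> rcases le_or_gt t' 0 with h' | h'
    · rw [βA _ _ h, βA _ _ h'] at e
      have e1 := hc.injective (G.embA.injective e)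
      have e2 := k_inj (congrArg Prod.snd e1)
      rw [abs_of_nonpos h, abs_of_nonpos h'] at e2
      exact Prod.ext (Prod.ext_iff.1 e1).1 (neg_injective e2)
    · exact absurd e (mixed _ _ _ _ h h')
    · exact absurd e.symm (mixed _ _ _ _ h' h)
    · rw [βB _ _ h.le, βB _ _ h'.le] at e
      have e1 := hc.injective (G.embB.injective e)
      have e2 := k_inj (congrArg Prod.snd e1)
      rw [abs_of_pos h, abs_of_pos h'] at e2
      exact Prod.ext (θ.injective (congrArg Prod.fst e1)) e2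
  · have : iA ⁻¹' (β '' U) = c '' ((fun q : S × Ioc (0 : ℝ) 1 => (q.1, Real.log q.2)) ⁻¹' U) := by
      ext x
      constructor
      · rintro ⟨⟨s, t⟩, hq, e⟩
        have ht : t ≤ 0 := by
          by_contra h
          rw [βB _ _ (not_le.1 h).le] at e
          exact h (hS _ _ ((memB G _).1 ⟨_, e.symm⟩)).le
        rw [βA _ _ ht] at e
        refine ⟨(s, k t), ?_, G.embA.injective e⟩
        rwa [mem_preimage, log_k, abs_of_nonpos ht, neg_neg]
      · rintro ⟨⟨s, r⟩, hq, rfl⟩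
        exact ⟨_, hq, by rw [βA _ _ (log_nonpos r), k_log]⟩
    rw [this]
    exact hc.isOpenMap _ (hU.preimage (continuous_fst.prodMk (continuous_log.comp continuous_snd)))
  · have : iB ⁻¹' (β '' U) =
        c '' ((fun q : S × Ioc (0 : ℝ) 1 => (θ.symm q.1, -Real.log q.2)) ⁻¹' U) := by
      ext x
      constructor
      · rintro ⟨⟨s, t⟩, hq, e⟩
        have ht : 0 ≤ t := by
          by_contra h
          rw [βA _ _ (not_le.1 h).le] at e
          exact h (hS _ _ ((memA G _).1 ⟨_, e.symm⟩)).ge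
        rw [βB _ _ ht] at e
        refine ⟨(θ s, k t), ?_, G.embB.injective e⟩
        rwa [mem_preimage, log_k, abs_of_nonneg ht, neg_neg, θ.symm_apply_apply]
      · rintro ⟨⟨s, r⟩, hq, rfl⟩
        exact ⟨_, hq, by
          rw [βB _ _ (neg_nonneg.2 (log_nonpos r)), k_neg, k_log, θ.apply_symm_apply]⟩
    rw [this]
    exact hc.isOpenMap _ (hU.preimage ((θ.symm.continuous.comp continuous_fst).prodMk
      (continuous_log.comp continuous_snd).neg))

end M2

open M2 in
theorem blockM2 : StmtM2 := by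
  intro g H _ S e he hc hch θ N _ iA iB G
  obtain ⟨β, hβ, h0⟩ := bicollar G hc
  have hS : ∀ s : S, Loc (iA s) := fun s => by
    obtain ⟨c, hs⟩ := hch s
    rw [← h0]
    exact Loc.push hβ ⟨c.prod (OpenPartialHomeomorph.refl ℝ), hs, mem_univ _⟩
  refine charted fun m => ?_
  rcases M.cases G m with ⟨x, rfl⟩ | ⟨x, rfl⟩
  · by_cases hx : x ∈ S
    · exact hS ⟨x, hx⟩
    · exact Loc.push (openA G) (loc_compl e he ⟨x, hx⟩)
  · by_cases hx : x ∈ S
    · rw [M.BA G ⟨x, hx⟩]
      exact hS _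
    · exact Loc.push (openB G) (loc_compl e he ⟨x, hx⟩)

end Pool.Agent.Lib.MP_003e01_gt
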