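import Pool.Agent.Lib.MP_003e01_gt.Blue

/-! Block Mir: a bottom-to-top path and a left-to-right path meet. -/

open Set Topology

namespace Pool.Agent.Lib.MP_003e01_gt

namespace Mir

lemma step {θ f : ℝ → ℝ} (hθ : Continuous θ) (hf : ∀ x, f (x + Real.pi) = -f x)
    (hpos : ∀ t, 0 < f (θ t)) {u v : ℝ}
    (h : 0 < Real.sin (θ v) * Real.cos (θ u) - Real.cos (θ v) * Real.sin (θ u)) : θ u < θ v := by
  by_contra hc
  push Not at hc
  rw [← Real.sin_sub] at h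
  rcases le_total (θ v + Real.pi) (θ u) with h1 | h1
  · obtain ⟨t, ht⟩ := intermediate_value_univ v u hθ
      (show θ v + Real.pi ∈ Icc (θ v) (θ u) from ⟨by linarith [Real.pi_pos], h1⟩)
    have h2 := hpos t
    rw [ht, hf] at h2
    linarith [hpos v]
  · exact absurd h (not_lt.2 (Real.sin_nonpos_of_nonpos_of_neg_pi_le (by linarith) (by linarith)))

lemma exists_arg {x y : ℝ × ℝ → ℝ} (hx : Continuous x) (hy : Continuous y)
    (h : ∀ q, ¬ (x q = 0 ∧ y q = 0)) : ∃ θ r : ℝ × ℝ → ℝ, Continuous θ ∧ ∀ q, 0 < r q ∧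
      x q = r q * Real.cos (θ q) ∧ y q = r q * Real.sin (θ q) := by
  have h0 : ∀ q, (x q : ℂ) + y q * Complex.I ≠ 0 := fun q hq =>
    h q ⟨by simpa using congrArg Complex.re hq, by simpa using congrArg Complex.im hq⟩
  let f : C(ℝ × ℝ, {z : ℂ // z ≠ 0}) := ⟨fun q => ⟨_, h0 q⟩, by fun_prop⟩
  obtain ⟨F, ⟨-, hF⟩, -⟩ := Complex.isCoveringMap_exp.existsUnique_continuousMap_lifts f (0, 0)
    (Complex.log (f (0, 0)).1) (Subtype.ext (Complex.exp_log (f (0, 0)).2))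
  refine ⟨fun q => (F q).im, fun q => Real.exp (F q).re, by fun_prop, fun q => ?_⟩
  have h1 : Complex.exp (F q) = x q + y q * Complex.I := congrArg Subtype.val (congrFun hF q)
  refine ⟨Real.exp_pos _, ?_, ?_⟩
  · rw [← Complex.exp_re, h1]; simp
  · rw [← Complex.exp_im, h1]; simp

end Mir

theorem blockMir : StmtMir := by
  intro a b K ha hb h1 h2 s₀ s₁ t₀ t₁ h3 h4 h5 h6
  by_contra hc
  push Not at hc
  obtain ⟨θ, r, hθ, H⟩ := Mir.exists_arg (x := fun q => (a q.1).1 - (b q.2).1)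
    (y := fun q => (a q.1).2 - (b q.2).2) (by fun_prop) (by fun_prop) fun q hq =>
      hc q.1 q.2 (Prod.ext (sub_eq_zero.1 hq.1) (sub_eq_zero.1 hq.2))
  have c0 : ∀ s, 0 < Real.cos (θ (s, t₀)) := fun s => by
    obtain ⟨e1, e2, -⟩ := H (s, t₀)
    exact (mul_pos_iff_of_pos_left e1).1 (by linarith [(abs_le.1 (h1 s)).1])
  have c1 : ∀ s, 0 < -Real.cos (θ (s, t₁)) := fun s => by
    obtain ⟨e1, e2, -⟩ := H (s, t₁)
    exact (mul_pos_iff_of_pos_left e1).1 (by linarith [(abs_le.1 (h1 s)).2])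
  have d0 : ∀ t, 0 < -Real.sin (θ (s₀, t)) := fun t => by
    obtain ⟨e1, -, e2⟩ := H (s₀, t)
    exact (mul_pos_iff_of_pos_left e1).1 (by linarith [(abs_le.1 (h2 t)).1])
  have d1 : ∀ t, 0 < Real.sin (θ (s₁, t)) := fun t => by
    obtain ⟨e1, -, e2⟩ := H (s₁, t)
    exact (mul_pos_iff_of_pos_left e1).1 (by linarith [(abs_le.1 (h2 t)).2])
  have k1 := Mir.step (θ := fun s => θ (s, t₀)) (f := Real.cos) (by fun_prop) Real.cos_add_pi c0
    (u := s₀) (v := s₁) (by nlinarith [mul_pos (d1 t₀) (c0 s₀), mul_pos (c0 s₁) (d0 t₀)])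
  have k2 := Mir.step (θ := fun t => θ (s₁, t)) (f := Real.sin) (by fun_prop) Real.sin_add_pi d1
    (u := t₀) (v := t₁) (by nlinarith [mul_pos (d1 t₁) (c0 s₁), mul_pos (c1 s₁) (d1 t₀)])
  have k3 := Mir.step (θ := fun s => θ (s, t₁)) (f := fun x => -Real.cos x) (by fun_prop)
    (fun x => by rw [Real.cos_add_pi]) c1
    (u := s₁) (v := s₀) (by nlinarith [mul_pos (d0 t₁) (c1 s₁), mul_pos (c1 s₀) (d1 t₁)])
  have k4 := Mir.step (θ := fun t => θ (s₀, t)) (f := fun x => -Real.sin x) (by fun_prop)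
    (fun x => by rw [Real.sin_add_pi]) d0
    (u := t₁) (v := t₀) (by nlinarith [mul_pos (d0 t₀) (c1 s₀), mul_pos (c0 s₀) (d0 t₁)])
  linarith

end Pool.Agent.Lib.MP_003e01_gt
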