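import Pool.Agent.Lib.MP_003e01_gt.Blue

/-! Block PL: collar of the standard handlebody and its lens shaped models. -/

open Set Topology

namespace Pool.Agent.Lib.MP_003e01_gt

namespace PL

variable {g : ℕ} {a : ℝ × ℝ → ℝ} {sc : ℝ → ℝ × ℝ → ℝ × ℝ}

/-- simultaneous scaling -/
def sg (sc : ℝ → ℝ × ℝ → ℝ × ℝ) (s : ℝ) (q : (ℝ × ℝ) × ℝ) : (ℝ × ℝ) × ℝ := (sc s q.1, s * q.2)

def NN (a : ℝ × ℝ → ℝ) (q : (ℝ × ℝ) × ℝ) : ℝ := max (a q.1) |q.2|

def mm (a : ℝ × ℝ → ℝ) (q : (ℝ × ℝ) × ℝ) : ℝ := min (a q.1) |q.2|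

lemma NN_add_mm (q : (ℝ × ℝ) × ℝ) : NN a q + mm a q = a q.1 + |q.2| := max_add_min _ _

lemma mm_le_NN (q : (ℝ × ℝ) × ℝ) : mm a q ≤ NN a q := min_le_max

lemma mem_H {q : (ℝ × ℝ) × ℝ} : q ∈ Handlebody g ↔ q.1 ∈ Planar g ∧ |q.2| ≤ 1 := by
  simp only [Handlebody, mem_prod, mem_Icc, abs_le]

lemma mm_nonneg (h : Scaling g a sc) {q : (ℝ × ℝ) × ℝ} (hq : q.1 ∈ Planar g) : 0 ≤ mm a q :=
  le_min (h.range _ hq).1 (abs_nonneg _)

lemma NN_le (h : Scaling g a sc) {q : (ℝ × ℝ) × ℝ} (hq : q ∈ Handlebody g) : NN a q ≤ 1 :=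
  max_le (h.range _ (mem_H.1 hq).1).2.1 (mem_H.1 hq).2

lemma front_iff (h : Scaling g a sc) {q : (ℝ × ℝ) × ℝ} (hq : q ∈ Handlebody g) :
    q ∈ frontier (Handlebody g) ↔ NN a q = 1 := by
  obtain ⟨h1, h2⟩ := mem_H.1 hq
  obtain ⟨-, h3, h4⟩ := h.range _ h1
  rw [h.front q hq, ← h4, NN, max_eq_iff]
  constructor
  · rintro (e | e)
    · exact Or.inl ⟨e, by rw [e]; exact h2⟩
    · exact Or.inr ⟨e, by rw [e]; exact h3⟩
  · rintro (e | e)
    · exact Or.inl e.1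
    · exact Or.inr e.1

lemma sa_le {q : (ℝ × ℝ) × ℝ} {s : ℝ} (hs : 0 ≤ s) (h1 : s * NN a q ≤ 1) : s * a q.1 ≤ 1 :=
  (mul_le_mul_of_nonneg_left (le_max_left _ _) hs).trans h1

lemma sg_facts (h : Scaling g a sc) {q : (ℝ × ℝ) × ℝ} (hq : q.1 ∈ Planar g) {s : ℝ} (hs : 0 ≤ s)
    (h1 : s * NN a q ≤ 1) : sg sc s q ∈ Handlebody g ∧ NN a (sg sc s q) = s * NN a q ∧
      mm a (sg sc s q) = s * mm a q := by
  obtain ⟨k1, k2⟩ := h.maps _ hq s hs (sa_le hs h1)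
  have k3 : |s * q.2| = s * |q.2| := by rw [abs_mul, abs_of_nonneg hs]
  refine ⟨mem_H.2 ⟨k1, ?_⟩, ?_, ?_⟩
  · change |s * q.2| ≤ 1
    rw [k3]
    exact (mul_le_mul_of_nonneg_left (le_max_right _ _) hs).trans h1
  · change max (a (sc s q.1)) |s * q.2| = _
    rw [k2, k3, NN, mul_max_of_nonneg _ _ hs]
  · change min (a (sc s q.1)) |s * q.2| = _
    rw [k2, k3, mm, mul_min_of_nonneg _ _ hs]

lemma sg_sg (h : Scaling g a sc) {q : (ℝ × ℝ) × ℝ} (hq : q.1 ∈ Planar g) {s t : ℝ} (hs : 0 ≤ s)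
    (ht : 0 ≤ t) (h1 : t * NN a q ≤ 1) (e : s * t = 1) : sg sc s (sg sc t q) = q := by
  refine Prod.ext ?_ ?_
  · change sc s (sc t q.1) = q.1
    rw [h.comp _ hq s t hs ht (sa_le ht h1) (by rw [e, one_mul]; exact (h.range _ hq).2.1), e,
      h.one _ hq]
  · change s * (t * q.2) = q.2
    rw [← mul_assoc, e, one_mul]

section
variable {Y : Type} [TopologicalSpace Y] {q : Y → (ℝ × ℝ) × ℝ}

lemma cont_a (h : Scaling g a sc) (hq : Continuous q) (hp : ∀ y, (q y).1 ∈ Planar g) :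
    Continuous fun y => a (q y).1 :=
  h.cont_a.comp_continuous hq.fst hp

lemma cont_NN (h : Scaling g a sc) (hq : Continuous q) (hp : ∀ y, (q y).1 ∈ Planar g) :
    Continuous fun y => NN a (q y) := (cont_a h hq hp).max hq.snd.abs

lemma cont_mm (h : Scaling g a sc) (hq : Continuous q) (hp : ∀ y, (q y).1 ∈ Planar g) :
    Continuous fun y => mm a (q y) := (cont_a h hq hp).min hq.snd.abs

lemma cont_sg (h : Scaling g a sc) (hq : Continuous q) (hp : ∀ y, (q y).1 ∈ Planar g)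
    {s : Y → ℝ} (hs : Continuous s) (h0 : ∀ y, 0 ≤ s y) (h1 : ∀ y, s y * NN a (q y) ≤ 1) :
    Continuous fun y => sg sc (s y) (q y) :=
  (h.cont_sc.comp_continuous (hs.prodMk hq.fst) fun y => ⟨hp y, h0 y, sa_le (h0 y) (h1 y)⟩).prodMk
    (hs.mul hq.snd)
end

abbrev Bd (g : ℕ) : Set (Handlebody g) := {x | x.1 ∈ frontier (Handlebody g)}

lemma NN_bd (h : Scaling g a sc) (x : Bd g) : NN a x.1.1 = 1 := (front_iff h x.1.2).1 x.2

lemma col_ok (h : Scaling g a sc) (y : Bd g × Ioc (0 : ℝ) 1) : y.2.1 * NN a y.1.1.1 ≤ 1 := by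
  rw [NN_bd h, mul_one]; exact y.2.2.2

/-- the collar as a homeomorphism onto an open set -/
noncomputable def collar (h : Scaling g a sc) :
    Bd g × Ioc (0 : ℝ) 1 ≃ₜ {x : Handlebody g | 0 < NN a x.1} where
  toFun y := ⟨⟨sg sc y.2.1 y.1.1.1, (sg_facts h (mem_H.1 y.1.1.2).1 y.2.2.1.le (col_ok h y)).1⟩, by
    change 0 < NN a (sg sc y.2.1 y.1.1.1)
    rw [(sg_facts h (mem_H.1 y.1.1.2).1 y.2.2.1.le (col_ok h y)).2.1, NN_bd h, mul_one]
    exact y.2.2.1⟩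
  invFun x :=
    have h0 : 0 < NN a x.1.1 := x.2
    have k := sg_facts h (mem_H.1 x.1.2).1 (inv_pos.2 h0).le (inv_mul_cancel₀ h0.ne').le
    (⟨⟨sg sc (NN a x.1.1)⁻¹ x.1.1, k.1⟩,
      (front_iff h k.1).2 (k.2.1.trans (inv_mul_cancel₀ h0.ne'))⟩,
      ⟨NN a x.1.1, h0, NN_le h x.1.2⟩)
  left_inv y := by
    have k := (sg_facts h (mem_H.1 y.1.1.2).1 y.2.2.1.le (col_ok h y)).2.1
    rw [NN_bd h, mul_one] at k
    refine Prod.ext (Subtype.ext (Subtype.ext ?_)) (Subtype.ext k)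
    change sg sc (NN a (sg sc y.2.1 y.1.1.1))⁻¹ (sg sc y.2.1 y.1.1.1) = y.1.1.1
    rw [k]
    exact sg_sg h (mem_H.1 y.1.1.2).1 (inv_pos.2 y.2.2.1).le y.2.2.1.le (col_ok h y)
      (inv_mul_cancel₀ y.2.2.1.ne')
  right_inv x := by
    have h0 : 0 < NN a x.1.1 := x.2
    exact Subtype.ext (Subtype.ext (sg_sg h (mem_H.1 x.1.2).1 h0.le (inv_pos.2 h0).le
      (inv_mul_cancel₀ h0.ne').le (mul_inv_cancel₀ h0.ne')))
  continuous_toFun := by
    refine Continuous.subtype_mk (Continuous.subtype_mk ?_ _) _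
    exact cont_sg h (q := fun y : Bd g × Ioc (0 : ℝ) 1 => y.1.1.1) (by fun_prop)
      (fun y => (mem_H.1 y.1.1.2).1) (s := fun y => y.2.1) (by fun_prop) (fun y => y.2.2.1.le)
      (col_ok h)
  continuous_invFun := by
    have c0 : Continuous fun x : {x : Handlebody g | 0 < NN a x.1} => x.1.1 := by fun_prop
    have c1 := cont_NN h c0 fun x => (mem_H.1 x.1.2).1
    refine Continuous.prodMk (Continuous.subtype_mk (Continuous.subtype_mk ?_ _) _)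
      (Continuous.subtype_mk c1 _)
    exact cont_sg h c0 (fun x => (mem_H.1 x.1.2).1) (c1.inv₀ fun x => ne_of_gt x.2)
      (fun x => (inv_pos.2 x.2).le) fun x => (inv_mul_cancel₀ (ne_of_gt x.2)).le

lemma hasCollar (h : Scaling g a sc) : HasCollar (Bd g) := by
  have ho : IsOpen {x : Handlebody g | 0 < NN a x.1} :=
    isOpen_lt continuous_const (cont_NN h continuous_subtype_val fun x => (mem_H.1 x.2).1)
  refine ⟨Subtype.val ∘ collar h, ho.isOpenEmbedding_subtypeVal.comp (collar h).isOpenEmbedding,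
    fun s => Subtype.ext (Prod.ext ?_ ?_)⟩
  · exact h.one _ (mem_H.1 s.1.2).1
  · exact one_mul _

lemma fw_ok (h : Scaling g a sc) (x : Handlebody g) :
    0 < 1 + mm a x.1 ∧ (1 + mm a x.1)⁻¹ * NN a x.1 ≤ 1 := by
  have h1 := mm_nonneg h (mem_H.1 x.2).1
  have h2 := NN_le h x.2
  refine ⟨by linarith, ?_⟩
  rw [inv_mul_le_iff₀ (by linarith)]
  linarith

lemma bw_ok (x : Lens g fun p => 1 - a p) :
    0 < 1 - mm a x.1 ∧ (1 - mm a x.1)⁻¹ * NN a x.1 ≤ 1 := by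
  have h1 := NN_add_mm (a := a) x.1
  have h2 := mm_le_NN (a := a) x.1
  have h3 : |x.1.2| ≤ 1 - a x.1.1 := x.2.2
  refine ⟨by linarith, ?_⟩
  rw [inv_mul_le_iff₀ (by linarith)]
  linarith

lemma fw_sum (h : Scaling g a sc) (x : Handlebody g) :
    (a (sg sc (1 + mm a x.1)⁻¹ x.1).1 + |(sg sc (1 + mm a x.1)⁻¹ x.1).2|) * (1 + mm a x.1) =
      NN a x.1 + mm a x.1 := by
  obtain ⟨h1, h2⟩ := fw_ok h x
  obtain ⟨-, k2, k3⟩ := sg_facts h (mem_H.1 x.2).1 (inv_pos.2 h1).le h2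
  rw [← NN_add_mm, k2, k3]
  field_simp

/-- rounding the corners -/
noncomputable def round (h : Scaling g a sc) : Handlebody g ≃ₜ Lens g fun p => 1 - a p where
  toFun x := ⟨sg sc (1 + mm a x.1)⁻¹ x.1,
    (mem_H.1 (sg_facts h (mem_H.1 x.2).1 (inv_pos.2 (fw_ok h x).1).le (fw_ok h x).2).1).1, by
      have h1 := fw_sum h x
      have h2 := (fw_ok h x).1
      have h3 := NN_le h x.2
      have h4 : (a (sg sc (1 + mm a x.1)⁻¹ x.1).1 + |(sg sc (1 + mm a x.1)⁻¹ x.1).2|) *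
          (1 + mm a x.1) ≤ 1 * (1 + mm a x.1) := by linarith
      have h5 := le_of_mul_le_mul_right h4 h2
      change _ ≤ 1 - a _
      linarith⟩
  invFun x := ⟨sg sc (1 - mm a x.1)⁻¹ x.1,
    (sg_facts h x.2.1 (inv_pos.2 (bw_ok x).1).le (bw_ok x).2).1⟩
  left_inv x := by
    obtain ⟨h1, h2⟩ := fw_ok h x
    have k := (sg_facts h (mem_H.1 x.2).1 (inv_pos.2 h1).le h2).2.2
    refine Subtype.ext ?_
    change sg sc (1 - mm a (sg sc (1 + mm a x.1)⁻¹ x.1))⁻¹ (sg sc (1 + mm a x.1)⁻¹ x.1) = x.1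
    have e : 1 - (1 + mm a x.1)⁻¹ * mm a x.1 = (1 + mm a x.1)⁻¹ := by field_simp; ring
    rw [k, e, inv_inv]
    exact sg_sg h (mem_H.1 x.2).1 h1.le (inv_pos.2 h1).le h2 (mul_inv_cancel₀ h1.ne')
  right_inv x := by
    obtain ⟨h1, h2⟩ := bw_ok x
    have k := (sg_facts h x.2.1 (inv_pos.2 h1).le h2).2.2
    refine Subtype.ext ?_
    change sg sc (1 + mm a (sg sc (1 - mm a x.1)⁻¹ x.1))⁻¹ (sg sc (1 - mm a x.1)⁻¹ x.1) = x.1
    have e : 1 + (1 - mm a x.1)⁻¹ * mm a x.1 = (1 - mm a x.1)⁻¹ := by field_simp; ring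
    rw [k, e, inv_inv]
    exact sg_sg h x.2.1 h1.le (inv_pos.2 h1).le h2 (mul_inv_cancel₀ h1.ne')
  continuous_toFun := by
    refine Continuous.subtype_mk ?_ _
    have c1 := cont_mm h (continuous_subtype_val (p := (· ∈ Handlebody g))) fun x => (mem_H.1 x.2).1
    exact cont_sg h continuous_subtype_val (fun x => (mem_H.1 x.2).1)
      ((continuous_const.add c1).inv₀ fun x => (fw_ok h x).1.ne')
      (fun x => (inv_pos.2 (fw_ok h x).1).le) fun x => (fw_ok h x).2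
  continuous_invFun := by
    refine Continuous.subtype_mk ?_ _
    have c1 := cont_mm h (continuous_subtype_val (p := (· ∈ Lens g fun p => 1 - a p)))
      fun x => x.2.1
    exact cont_sg h continuous_subtype_val (fun x => x.2.1)
      ((continuous_const.sub c1).inv₀ fun x => (bw_ok x).1.ne')
      (fun x => (inv_pos.2 (bw_ok x).1).le) fun x => (bw_ok x).2

lemma round_bd (h : Scaling g a sc) (x : Handlebody g) :
    |(round h x).1.2| = 1 - a (round h x).1.1 ↔ x.1 ∈ frontier (Handlebody g) := by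
  rw [front_iff h x.2]
  have h1 := fw_sum h x
  have h2 := (fw_ok h x).1
  change |(sg sc (1 + mm a x.1)⁻¹ x.1).2| = 1 - a (sg sc (1 + mm a x.1)⁻¹ x.1).1 ↔ _
  constructor
  · intro e
    rw [e] at h1
    linarith
  · intro e
    have h3 : (a (sg sc (1 + mm a x.1)⁻¹ x.1).1 + |(sg sc (1 + mm a x.1)⁻¹ x.1).2|) *
        (1 + mm a x.1) = 1 * (1 + mm a x.1) := by linarith
    have h4 := mul_right_cancel₀ h2.ne' h3
    linarith

lemma lamOK (h : Scaling g a sc) : LamOK g fun p => 1 - a p :=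
  ⟨continuousOn_const.sub h.cont_a, fun p hp => sub_nonneg.2 (h.range p hp).2.1,
    fun p hp => by rw [← (h.range p hp).2.2, sub_eq_zero, eq_comm]⟩

variable {l₁ l₂ : ℝ × ℝ → ℝ}

lemma zero_iff (h₁ : LamOK g l₁) (h₂ : LamOK g l₂) {p : ℝ × ℝ} (hp : p ∈ Planar g) :
    l₁ p = 0 ↔ l₂ p = 0 := by rw [h₁.zero p hp, h₂.zero p hp]

lemma abs_res (h₁ : LamOK g l₁) (h₂ : LamOK g l₂) (x : Lens g l₁) :
    |x.1.2 / l₁ x.1.1 * l₂ x.1.1| = |x.1.2| / l₁ x.1.1 * l₂ x.1.1 := by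
  rw [abs_mul, abs_div, abs_of_nonneg (h₁.nonneg _ x.2.1), abs_of_nonneg (h₂.nonneg _ x.2.1)]

lemma res_le (h₁ : LamOK g l₁) (h₂ : LamOK g l₂) (x : Lens g l₁) :
    |x.1.2 / l₁ x.1.1 * l₂ x.1.1| ≤ l₂ x.1.1 := by
  rw [abs_res h₁ h₂]
  exact mul_le_of_le_one_left (h₂.nonneg _ x.2.1) (div_le_one_of_le₀ x.2.2 (h₁.nonneg _ x.2.1))

/-- rescaling the height -/
noncomputable def res (h₁ : LamOK g l₁) (h₂ : LamOK g l₂) (x : Lens g l₁) : Lens g l₂ :=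
  ⟨(x.1.1, x.1.2 / l₁ x.1.1 * l₂ x.1.1), x.2.1, res_le h₁ h₂ x⟩

lemma res_res (h₁ : LamOK g l₁) (h₂ : LamOK g l₂) (x : Lens g l₁) :
    res h₂ h₁ (res h₁ h₂ x) = x := by
  refine Subtype.ext (Prod.ext rfl ?_)
  change x.1.2 / l₁ x.1.1 * l₂ x.1.1 / l₂ x.1.1 * l₁ x.1.1 = x.1.2
  by_cases e : l₁ x.1.1 = 0
  · have := x.2.2
    rw [e] at this ⊢
    rw [mul_zero, abs_nonpos_iff.1 this]
  · have e' : l₂ x.1.1 ≠ 0 := fun k => e ((zero_iff h₁ h₂ x.2.1).2 k)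
    field_simp

lemma res_cont (h₁ : LamOK g l₁) (h₂ : LamOK g l₂) : Continuous (res h₁ h₂) := by
  have c0 : Continuous fun x : Lens g l₁ => x.1.1 := by fun_prop
  have c1 : Continuous fun x : Lens g l₁ => l₁ x.1.1 := h₁.cont.comp_continuous c0 fun x => x.2.1
  have c2 : Continuous fun x : Lens g l₁ => l₂ x.1.1 := h₂.cont.comp_continuous c0 fun x => x.2.1
  have c3 : Continuous fun x : Lens g l₁ => x.1.2 := by fun_prop
  refine Continuous.subtype_mk (c0.prodMk (continuous_iff_continuousAt.2 fun x => ?_)) _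
  by_cases e : l₁ x.1.1 = 0
  · have e' := (zero_iff h₁ h₂ x.2.1).1 e
    have t : Filter.Tendsto (fun y : Lens g l₁ => l₂ y.1.1) (𝓝 x) (𝓝 0) := e' ▸ c2.tendsto x
    unfold ContinuousAt
    beta_reduce
    rw [e', mul_zero]
    exact squeeze_zero_norm (fun y => res_le h₁ h₂ y) t
  · exact (c3.continuousAt.div c1.continuousAt e).mul c2.continuousAt

noncomputable def resH (h₁ : LamOK g l₁) (h₂ : LamOK g l₂) : Lens g l₁ ≃ₜ Lens g l₂ where
  toFun := res h₁ h₂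
  invFun := res h₂ h₁
  left_inv := res_res h₁ h₂
  right_inv := res_res h₂ h₁
  continuous_toFun := res_cont h₁ h₂
  continuous_invFun := res_cont h₂ h₁

lemma res_bd (h₁ : LamOK g l₁) (h₂ : LamOK g l₂) (x : Lens g l₁) :
    |(res h₁ h₂ x).1.2| = l₂ (res h₁ h₂ x).1.1 ↔ |x.1.2| = l₁ x.1.1 := by
  change |x.1.2 / l₁ x.1.1 * l₂ x.1.1| = l₂ x.1.1 ↔ _
  rw [abs_res h₁ h₂]
  by_cases e : l₁ x.1.1 = 0
  · have := x.2.2
    rw [e] at this
    rw [(zero_iff h₁ h₂ x.2.1).1 e, e, abs_nonpos_iff.1 this]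
    simp
  · have e' : l₂ x.1.1 ≠ 0 := fun k => e ((zero_iff h₁ h₂ x.2.1).2 k)
    rw [mul_eq_right₀ e', div_eq_one_iff_eq e]

end PL

theorem blockPL : StmtPL := fun _ _ _ h =>
  ⟨PL.hasCollar h, fun _ hl => ⟨(PL.round h).trans (PL.resH (PL.lamOK h) hl), fun x =>
    (PL.res_bd (PL.lamOK h) hl (PL.round h x)).trans (PL.round_bd h x)⟩⟩

end Pool.Agent.Lib.MP_003e01_gt
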