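import Pool.Agent.Lib.MP_003e01_gt.PushA1b

/-! Block PushA1: the chart on the base of the solid cylinder. -/

open Set Topology Filter

namespace Pool.Agent.Lib.MP_003e01_gt

namespace PushA1

/-- Fermi coordinates along the common perpendicular of the walls `p` and `r` -/
structure FD (p q r : Fin 12) (e : ℝ × ℝ ≃ₜ X) : Prop where
  nu : ∀ τ ν, NN p q r (e (τ, ν)) = Dd * ν
  tau : ∀ τ ν, Gf (ya p (e (τ, ν))) (ya r (e (τ, ν))) = 2 * τ

variable {p q r : Fin 12} {ε : ℝ} {z : X} {e e' : ℝ × ℝ ≃ₜ X}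

lemma FD.signs (T : Tri p q r) (F : FD p q r e) {τ : ℝ} (ν : ℝ) (h0 : 0 ≤ τ) (h1 : τ ≤ 1 / 2) :
    0 ≤ ya p (e (τ, ν)) ∧ 0 ≤ ya r (e (τ, ν)) := by
  have a1 := posE T.hpr (e (τ, ν))
  have a2 := posF T.hpr (e (τ, ν))
  refine ⟨(Gf_nonneg_iff a1 a2).1 ?_, (Gf_le_one_iff a1 a2).1 ?_⟩ <;> rw [F.tau] <;> linarith

lemma FD.inStrip (T : Tri p q r) (F : FD p q r e) (hε : 0 < ε) {τ ν : ℝ} (h0 : 0 ≤ τ)
    (h1 : τ ≤ 1 / 2) (h2 : -ε ≤ ν) (h3 : ν ≤ 0) :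
    e (τ, ν) ∈ Om p q r (Dd * ε) ∧ uu p q r (e (τ, ν)) = 2 * τ ∧
      ss p q r (Dd * ε) (e (τ, ν)) = 1 - ν / ε := by
  have hD := Dd_pos
  obtain ⟨a1, a2⟩ := F.signs T ν h0 h1
  have hY : NN p q r (e (τ, ν)) ≤ 0 := by
    rw [F.nu]; exact mul_nonpos_of_nonneg_of_nonpos hD.le h3
  have hB := T.BB_Y a1 hY
  have hS := T.NN_add a1
  refine ⟨⟨a1, hB ▸ a2, ?_, ?_⟩, ?_, ?_⟩
  · rw [F.nu]; nlinarith
  · have := mul_pos hD hε
    linarith
  · rw [uu, hB, F.tau]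
  · rw [T.ss_Y a1 hY, F.nu, mul_div_mul_left _ _ hD.ne']

lemma FD.ofStrip (T : Tri p q r) (F : FD p q r e) (hz : z ∈ Om p q r (Dd * ε))
    (hY : NN p q r z ≤ 0) :
    ∃ τ ν, z = e (τ, ν) ∧ 0 ≤ τ ∧ τ ≤ 1 / 2 ∧ -ε ≤ ν ∧ ν ≤ 0 := by
  have hD := Dd_pos
  obtain ⟨⟨τ, ν⟩, rfl⟩ := e.surjective z
  have a1 := posE T.hpr (e (τ, ν))
  have a2 := posF T.hpr (e (τ, ν))
  have b1 := (Gf_nonneg_iff a1 a2).2 hz.1
  have b2 := (Gf_le_one_iff a1 a2).2 (T.BB_Y hz.1 hY ▸ hz.2.1)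
  have b3 := hz.2.2.1
  rw [F.tau] at b1 b2
  rw [F.nu] at b3 hY
  refine ⟨τ, ν, rfl, by linarith, by linarith, ?_, ?_⟩
  · exact le_of_mul_le_mul_left (by linarith) hD
  · exact le_of_mul_le_mul_left (by linarith) hD

lemma FD.onAxis (T : Tri p q r) (F : FD p q r e) {τ : ℝ} (h0 : 0 ≤ τ) (h1 : τ ≤ 1 / 2) :
    0 ≤ ya p (e (τ, 0)) ∧ NN p q r (e (τ, 0)) = 0 ∧ 0 < NN p r q (e (τ, 0)) ∧
      0 ≤ AA p q r (e (τ, 0)) ∧
      AA p q r (e (τ, 0)) / (2 * Mm - 1) + Ee * ya p (e (τ, 0)) =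
        Real.exp (2 * Real.log Ee * (2 * τ)) *
          (AA p q r (e (τ, 0)) / (2 * Mm - 1) + Ff * ya p (e (τ, 0))) := by
  have hM := Mm_ge
  obtain ⟨a1, a2⟩ := F.signs T 0 h0 h1
  have hY : NN p q r (e (τ, 0)) = 0 := by rw [F.nu, mul_zero]
  have hS := T.NN_add a1
  have hZ : 0 < NN p r q (e (τ, 0)) := by linarith
  have hB : AA p q r (e (τ, 0)) / (2 * Mm - 1) = ya r (e (τ, 0)) := by
    rw [← BB_T hY.ge hZ.le, T.BB_Y a1 hY.le]
  refine ⟨a1, hY, hZ, ?_, ?_⟩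
  · rw [← hB, le_div_iff₀ (by linarith), zero_mul] at a2
    exact a2
  · rw [hB]
    exact (Gf_eq_iff (posE T.hpr _) (posF T.hpr _)).1 (F.tau τ 0)

lemma FD.small (T : Tri p q r) (F : FD p q r e) : ∃ ε₀ : ℝ, 0 < ε₀ ∧ ∀ τ ν, 0 ≤ τ → τ ≤ 1 / 2 →
    -ε₀ ≤ ν → ν ≤ 0 → ∀ i, i ≠ p → i ≠ q → i ≠ r → 0 < ya i (e (τ, ν)) := by
  have key : ∀ᶠ ν in 𝓝 (0 : ℝ), ∀ τ ∈ Icc (0 : ℝ) (1 / 2),
      ∀ i, i ≠ p → i ≠ q → i ≠ r → 0 < ya i (e (τ, ν)) := by
    refine isCompact_Icc.eventually_forall_of_forall_eventually fun τ hτ => ?_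
    refine eventually_all.2 fun i => ?_
    by_cases hi : i ≠ p ∧ i ≠ q ∧ i ≠ r
    · obtain ⟨a1, a2, a3, a4, -⟩ := F.onAxis T hτ.1 hτ.2
      have h0 := T.trap a1 a2.ge a3.le a4 hi.1 hi.2.1 hi.2.2
      have hc : Continuous fun x : ℝ × ℝ => ya i (e (x.2, x.1)) :=
        (continuous_ya i).comp (e.continuous.comp continuous_swap)
      filter_upwards [hc.continuousAt.eventually (lt_mem_nhds (a := 0) (b := ya i (e (τ, 0))) h0)]
        with x hx _ _ _ using hx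
    · exact Eventually.of_forall fun x h1 h2 h3 => absurd ⟨h1, h2, h3⟩ hi
  obtain ⟨δ, hδ, hb⟩ := Metric.eventually_nhds_iff.1 key
  refine ⟨δ / 2, by positivity, fun τ ν h0 h1 h2 h3 => hb ?_ τ ⟨h0, h1⟩⟩
  rw [Real.dist_eq, sub_zero, abs_lt]
  constructor <;> linarith

lemma FD.inj (T : Tri p q r) (F : FD p q r e) (hε : 0 < ε) {z' : X} (hz : z ∈ Om p q r (Dd * ε))
    (hz' : z' ∈ Om p q r (Dd * ε)) (hY : NN p q r z ≤ 0) (hu : uu p q r z = uu p q r z')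
    (hs : ss p q r (Dd * ε) z = ss p q r (Dd * ε) z') : z = z' := by
  have hδ := mul_pos Dd_pos hε
  have hY' : NN p q r z' ≤ 0 := (T.ss_ge_iff hδ hz'.1).1 (hs ▸ (T.ss_ge_iff hδ hz.1).2 hY)
  obtain ⟨τ, ν, rfl, a1, a2, a3, a4⟩ := F.ofStrip T hz hY
  obtain ⟨τ', ν', rfl, b1, b2, b3, b4⟩ := F.ofStrip T hz' hY'
  obtain ⟨-, c1, c2⟩ := F.inStrip T hε a1 a2 a3 a4
  obtain ⟨-, d1, d2⟩ := F.inStrip T hε b1 b2 b3 b4
  rw [c1, d1] at hu
  rw [c2, d2, sub_right_inj, div_left_inj' hε.ne'] at hs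
  rw [hs, show τ = τ' by linarith]

lemma FD.surj (T : Tri p q r) (F : FD p q r e) (hε : 0 < ε) {u0 s0 : ℝ} (h0 : 0 ≤ u0) (h1 : u0 ≤ 1)
    (h2 : 1 ≤ s0) (h3 : s0 ≤ 2) :
    ∃ z ∈ Om p q r (Dd * ε), uu p q r z = u0 ∧ ss p q r (Dd * ε) z = s0 := by
  obtain ⟨a1, a2, a3⟩ := F.inStrip T hε (τ := u0 / 2) (ν := ε * (1 - s0)) (by linarith)
    (by linarith) (by nlinarith) (by nlinarith)
  refine ⟨_, a1, by rw [a2]; ring, ?_⟩
  rw [a3]
  field_simp
  ring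

lemma surj_T (h : StmtB1) (T : Tri p q r) (F : FD p q r e) (F' : FD p r q e') {δ : ℝ} (hδ : 0 < δ)
    {u0 s0 : ℝ} (h0 : 0 ≤ u0) (h1 : u0 ≤ 1) (h2 : -1 ≤ s0) (h3 : s0 ≤ 1) :
    ∃ z ∈ Om p q r δ, uu p q r z = u0 ∧ ss p q r δ z = s0 := by
  have hM := Mm_ge
  obtain ⟨a1, a2, a3, a4, a5⟩ := F.onAxis T (τ := u0 / 2) (by linarith) (by linarith)
  obtain ⟨b1, b2, b3, b4, b5⟩ := F'.onAxis T.swap (τ := u0 / 2) (by linarith) (by linarith)
  rw [AA_swap] at b4 b5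
  rw [show 2 * (u0 / 2) = u0 by ring] at a5 b5
  set y := e (u0 / 2, 0)
  set y' := e' (u0 / 2, 0)
  have hα : 0 ≤ (1 + s0) * NN p q r y' := mul_nonneg (by linarith) b3.le
  have hβ : 0 ≤ (1 - s0) * NN p r q y := mul_nonneg (by linarith) a3.le
  obtain ⟨w, c, hc, hw⟩ := exists_norm h y y' hα hβ (by
    rcases h3.eq_or_lt with h4 | h4
    · rw [h4]; nlinarith
    · have : 0 < (1 - s0) * NN p r q y := mul_pos (by linarith) a3
      linarith)
  have l1 : ∀ i, ya i w =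
      c * ((1 + s0) * NN p q r y' * ya i y + (1 - s0) * NN p r q y * ya i y') := fun i => by
    simp only [ya, hw, lor_add_left, lor_smul_left]; ring
  set α := (1 + s0) * NN p q r y' with hαd
  set β := (1 - s0) * NN p r q y with hβd
  have l2 : NN p q r w = c * (α * NN p q r y + β * NN p q r y') := by
    simp only [NN, l1]; ring
  have l3 : NN p r q w = c * (α * NN p r q y + β * NN p r q y') := by
    simp only [NN, l1]; ring
  have l4 : AA p q r w = c * (α * AA p q r y + β * AA p q r y') := by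
    simp only [AA, l1]; ring
  rw [a2, mul_zero, zero_add] at l2
  rw [b2, mul_zero, add_zero] at l3
  have hY : 0 ≤ NN p q r w := by rw [l2]; positivity
  have hZ : 0 ≤ NN p r q w := by rw [l3]; positivity
  have hA : 0 ≤ AA p q r w := by rw [l4]; positivity
  have ha : 0 ≤ ya p w := by rw [l1]; positivity
  have hw' : w ∈ Om p q r δ :=
    ⟨ha, by rw [BB_T hY hZ]; exact div_nonneg hA (by linarith), by linarith, by linarith⟩
  refine ⟨w, hw', ?_, ?_⟩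
  · rw [uu, Gf_eq_iff (T.gpos hw').1 (T.gpos hw').2, BB_T hY hZ, l4, l1]
    linear_combination (c * α) * a5 + (c * β) * b5
  · rw [ss_T hY hZ, div_eq_iff (T.NN_add ha).ne', l2, l3, hαd, hβd]
    ring

lemma toR_Mm : Z3.toR (-5, -3) = -Mm := by
  simp only [Z3.toR, Mm]; push_cast; ring

lemma tri (h : StmtB1) (k : Fin 3) : Tri (rot k 0) (rot k 4) (rot k 8) ∧
    0 < det3 (pole (rot k 0)) (pole (rot k 4)) (pole (rot k 8)) := by
  have hd : 0 < det3 (pole (rot k 0)) (pole (rot k 4)) (pole (rot k 8)) := by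
    obtain ⟨c, hc, hdet⟩ := det3_toV
    rw [← toV_pole, ← toV_pole, ← toV_pole, hdet]
    refine mul_pos hc ((Z3.pos_iff _).1 ?_)
    revert k
    decide
  have hM := Mm_ge
  have le0 : ∀ i j : Fin 12, i ≠ j → lor (pole i) (pole j) ≤ 0 := fun i j hij => by
    by_cases ha : Adjacent i j
    · exact (lor_pole_adj ha).le
    · linarith [h.far i j hij ha]
  have vert : ∀ i j l : Fin 12, i ≠ j → i ≠ l → ¬ (Adjacent i j ∧ Adjacent i l) →
      lor (pole i) (pole j) + Mm * lor (pole i) (pole l) < 0 := fun i j l h1 h2 h3 => by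
    have a1 := le0 i j h1
    have a2 := le0 i l h2
    by_cases ha : Adjacent i j
    · have := h.far i l h2 fun hb => h3 ⟨ha, hb⟩
      nlinarith
    · have := h.far i j h1 ha
      nlinarith
  have n1 : ∀ (k : Fin 3) (i : Fin 12), ¬ (Adjacent i (rot k 4) ∧ Adjacent i (rot k 0)) ∧
      ¬ (Adjacent i (rot k 0) ∧ Adjacent i (rot k 4)) ∧
      ¬ (Adjacent i (rot k 8) ∧ Adjacent i (rot k 0)) ∧
      ¬ (Adjacent i (rot k 0) ∧ Adjacent i (rot k 8)) := by decide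
  have n2 : ∀ k : Fin 3, lorZ (poleZ (rot k 0)) (poleZ (rot k 4)) = (-5, -3) ∧
      lorZ (poleZ (rot k 4)) (poleZ (rot k 8)) = (-5, -3) ∧
      lorZ (poleZ (rot k 0)) (poleZ (rot k 8)) = (-5, -3) := by decide
  refine ⟨⟨?_, ?_, ?_, hd.ne', fun i h1 h2 h3 => ⟨?_, ?_⟩, fun i h1 h2 h3 => ⟨?_, ?_⟩⟩, hd⟩
  · rw [lor_pole_pole, (n2 k).1, toR_Mm]
  · rw [lor_pole_pole, (n2 k).2.1, toR_Mm]
  · rw [lor_pole_pole, (n2 k).2.2, toR_Mm]
  · exact vert _ _ _ h2 h1 (n1 k i).1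
  · exact vert _ _ _ h1 h2 (n1 k i).2.1
  · exact vert _ _ _ h3 h1 (n1 k i).2.2.1
  · exact vert _ _ _ h1 h3 (n1 k i).2.2.2

lemma sr_nv (T : Tri p q r) : sr p • nv p q r = nv p q r ∧ sr r • nv p q r = nv p q r := by
  constructor
  · rw [sr_smul, lor_nv_p T.hpq T.hpr]; simp
  · rw [sr_smul, lor_nv_r T.hqr T.hpr]; simp

lemma nu_of (a : Axis) (hf : Fermi a e) (hn : a.n = Dd⁻¹ • nv p q r) (τ ν : ℝ) :
    NN p q r (e (τ, ν)) = Dd * ν := by
  have := hf.1 (τ, ν)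
  rw [hn, lor_smul_right, lor_nv] at this
  have hD := Dd_pos
  simp only at this
  calc NN p q r (e (τ, ν)) = Dd * (Dd⁻¹ * NN p q r (e (τ, ν))) := by field_simp
    _ = Dd * ν := by rw [this]

lemma exY (h : StmtAx) (T : Tri p q r) (hd : 0 < det3 (pole p) (pole q) (pole r)) (a : Axis)
    (ha : a.For (sr r * sr p)) : ∃ e : ℝ × ℝ ≃ₜ X, Fermi a e ∧
      (∀ τ ν, sr p • e (τ, ν) = e (-τ, ν)) ∧ FD p q r e := by
  have hE := Ee_gt
  have hF := Ff_pos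
  have hF' := Ff_lt
  have hl := logE_pos
  obtain ⟨e, f1, f2, f3, f4⟩ := exFermi h T.hpq T.hqr T.hpr (t := Ee) (t' := Ff)
    (L := 2 * Real.log Ee) (by linarith) hF EF_add EF_mul (by linarith)
    (mul_pos (by linarith) hd) (g := sr r * sr p)
    (by rw [mul_smul, sp_w T.hpr (t' := Ee) (by linarith [EF_add]), sr_w T.hpr EF_add EF_mul,
      exp_two_log])
    (by rw [mul_smul, sp_w T.hpr EF_add, sr_w T.hpr (t' := Ee) (by linarith [EF_add])
      (by linarith [EF_mul]), exp_neg_two_log])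
    (by rw [mul_smul, (sr_nv T).1, (sr_nv T).2]) a ha
  refine ⟨e, f1, f2, nu_of a f1 f3, fun τ ν => ?_⟩
  rw [Gf_eq_iff (posE T.hpr _) (posF T.hpr _)]
  have := f4 τ ν
  simp only [lor_add_right, lor_smul_right] at this
  rw [show 2 * Real.log Ee * (2 * τ) = 2 * (τ * (2 * Real.log Ee)) by ring]
  unfold ya
  linear_combination -this

lemma exZ (h : StmtAx) (T : Tri p q r) (hd : det3 (pole p) (pole q) (pole r) < 0) (a : Axis)
    (ha : a.For (sr p * sr r)) : ∃ e e' : ℝ × ℝ ≃ₜ X, Fermi a e ∧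
      (∀ τ ν, sr p • e (τ, ν) = e (-τ, ν)) ∧ FD p q r e' ∧ ∀ τ ν, e (τ, ν) = e' (-τ, ν) := by
  have hE := Ee_gt
  have hF := Ff_pos
  have hF' := Ff_lt
  have hl := logE_pos
  obtain ⟨e, f1, f2, f3, f4⟩ := exFermi h T.hpq T.hqr T.hpr (t := Ff) (t' := Ee)
    (L := 2 * Real.log Ee) hF (by linarith) (by linarith [EF_add]) (by linarith [EF_mul])
    (by linarith) (mul_pos_of_neg_of_neg (by linarith) hd) (g := sr p * sr r)
    (by rw [mul_smul, sr_w T.hpr EF_add EF_mul, smul_smul_V,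
      sp_w T.hpr (t' := Ee) (by linarith [EF_add]), exp_two_log])
    (by rw [mul_smul, sr_w T.hpr (t' := Ee) (by linarith [EF_add]) (by linarith [EF_mul]),
      smul_smul_V, sp_w T.hpr EF_add, exp_neg_two_log])
    (by rw [mul_smul, (sr_nv T).2, (sr_nv T).1]) a ha
  refine ⟨e, ((Homeomorph.neg ℝ).prodCongr (Homeomorph.refl ℝ)).trans e, f1, f2,
    ⟨fun τ ν => nu_of a f1 f3 (-τ) ν, fun τ ν => ?_⟩, fun τ ν => ?_⟩
  · show Gf (ya p (e (-τ, ν))) (ya r (e (-τ, ν))) = 2 * τ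
    rw [Gf_eq_iff (posE T.hpr _) (posF T.hpr _)]
    have := f4 (-τ) ν
    simp only [lor_add_right, lor_smul_right] at this
    have e1 : Real.exp (2 * Real.log Ee * (2 * τ)) *
        Real.exp (2 * (-τ * (2 * Real.log Ee))) = 1 := by
      rw [← Real.exp_add, ← Real.exp_zero]
      congr 1
      ring
    unfold ya
    linear_combination Real.exp (2 * Real.log Ee * (2 * τ)) * this +
      (lor (e (-τ, ν)).1 (pole r) + Ee * lor (e (-τ, ν)).1 (pole p)) * e1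
  · show _ = e (- -τ, ν)
    rw [neg_neg]

end PushA1

open PushA1 in
theorem blockPushA1 (h : Geo) : StmtPushA1 := by
  intro k aY aZ hY hZ
  obtain ⟨T, hd⟩ := tri h.b1 k
  have r1 : ∀ k : Fin 3, rot (k + 1) 4 = rot k 8 ∧ rot (k + 1) 8 = rot k 0 ∧
      rot (k + 2) 4 = rot k 0 ∧ rot (k + 2) 8 = rot k 4 ∧ (rot k 0).val % 2 = 0 ∧
      (rot k 4).val % 2 = 0 ∧ (rot k 8).val % 2 = 0 := by decide
  obtain ⟨r11, r12, r13, r14, ep, eq, er⟩ := r1 k
  have gY : (eC (k + 1)).1 = sr (rot k 8) * sr (rot k 0) := by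
    show wd [rot (k + 1) 4, rot (k + 1) 8] = _
    rw [r11, r12]
    rw [wd, CoxeterSystem.wordProd_cons, CoxeterSystem.wordProd_singleton]
  have gZ : (eC (k + 2)).1 = sr (rot k 0) * sr (rot k 4) := by
    show wd [rot (k + 2) 4, rot (k + 2) 8] = _
    rw [r13, r14]
    rw [wd, CoxeterSystem.wordProd_cons, CoxeterSystem.wordProd_singleton]
  rw [gY] at hY
  rw [gZ] at hZ
  set p := rot k 0 with hp
  set q := rot k 4 with hq
  set r := rot k 8 with hr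
  obtain ⟨eY, y1, y2, FY⟩ := exY h.ax T hd aY hY
  obtain ⟨eZ, e', z1, z2, FZ, z3⟩ := exZ h.ax T.swap (by
    have : det3 (pole p) (pole r) (pole q) = -det3 (pole p) (pole q) (pole r) := by
      simp only [det3]; ring
    linarith) aZ hZ
  obtain ⟨ε1, hε1, s1⟩ := FY.small T
  obtain ⟨ε2, hε2, s2⟩ := FZ.small T.swap
  refine ⟨min ε1 ε2, lt_min hε1 hε2, fun ε hε hle => ?_⟩
  have hle1 : ε ≤ ε1 := hle.trans (min_le_left _ _)
  have hle2 : ε ≤ ε2 := hle.trans (min_le_right _ _)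
  have hδ := mul_pos Dd_pos hε
  have hM := Mm_ge
  have sw : ∀ {z}, z ∈ Om p q r (Dd * ε) → z ∈ Om p r q (Dd * ε) := fun hz => Om_swap ▸ hz
  have us : ∀ z, uu p r q z = uu p q r z := fun z => uu_swap
  have sw2 : ∀ z, ss p r q (Dd * ε) z = -ss p q r (Dd * ε) z := fun z => ss_swap
  have other : ∀ z ∈ Om p q r (Dd * ε), ∀ i, i ≠ p → i ≠ q → i ≠ r → 0 < ya i z := by
    intro z hz i h1 h2 h3
    rcases le_total (NN p q r z) 0 with a | a
    · obtain ⟨τ, ν, rfl, a1, a2, a3, a4⟩ := FY.ofStrip T hz a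
      exact s1 τ ν a1 a2 (by linarith) a4 i h1 h2 h3
    rcases le_total (NN p r q z) 0 with b | b
    · obtain ⟨τ, ν, rfl, a1, a2, a3, a4⟩ := FZ.ofStrip T.swap (sw hz) b
      exact s2 τ ν a1 a2 (by linarith) a4 i h1 h3 h2
    have h4 := hz.2.1
    rw [BB_T a b, le_div_iff₀ (by linarith), zero_mul] at h4
    exact T.trap hz.1 a b h4 h1 h2 h3
  have hsub : Om p q r (Dd * ε) ⊆ Q := by
    intro z hz i
    have : 0 ≤ ya i z := by
      by_cases h1 : i = p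
      · exact h1 ▸ hz.1
      by_cases h2 : i = q
      · exact h2 ▸ (T.swap.wall (sw hz)).1
      by_cases h3 : i = r
      · exact h3 ▸ (T.wall hz).1
      exact (other z hz i h1 h2 h3).le
    unfold ya at this
    linarith
  have le_iff : ∀ {z}, z ∈ Om p q r (Dd * ε) → (ss p q r (Dd * ε) z ≤ -1 ↔ NN p r q z ≤ 0) :=
    fun hz => by rw [← T.swap.ss_ge_iff hδ hz.1, sw2, le_neg]
  have lt_iff : ∀ {z}, z ∈ Om p q r (Dd * ε) → (ss p q r (Dd * ε) z < -1 ↔ NN p r q z < 0) :=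
    fun hz => by rw [← T.swap.ss_gt_iff hδ hz.1, sw2, lt_neg]
  have u0 : ∀ {z}, z ∈ Om p q r (Dd * ε) → (uu p q r z = 0 ↔ ya p z = 0) :=
    fun hz => Gf_eq_zero_iff (T.gpos hz).1 (T.gpos hz).2
  have u1 : ∀ {z}, z ∈ Om p q r (Dd * ε) → (uu p q r z = 1 ↔ BB p q r z = 0) :=
    fun hz => Gf_eq_one_iff (T.gpos hz).1 (T.gpos hz).2
  refine ⟨Om p q r (Dd * ε), uu p q r, ss p q r (Dd * ε), eY, eZ,
    { compact := h.b1.compact.of_isClosed_subset isClosed_Om hsub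
      sub := hsub
      cont_u := T.cont_u
      cont_s := T.cont_s
      bij := ⟨fun z hz => ⟨⟨?_, ?_⟩, ?_, T.ss_le_two hδ hz⟩, fun z hz z' hz' he => ?_,
        fun x hx => ?_⟩
      red := fun z hz => ?_
      blue := fun z hz => ?_
      nhds := fun z hz h1 h2 => ?_
      chord := fun z hz h1 h2 => ?_
      fermiY := y1
      fermiZ := z1
      reflY := y2
      reflZ := z2
      inY := fun τ ν a1 a2 a3 a4 => FY.inStrip T hε a1 a2 a3 a4
      inZ := fun τ ν a1 a2 a3 a4 => ?_ }⟩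
  · exact (Gf_nonneg_iff (T.gpos hz).1 (T.gpos hz).2).2 hz.1
  · exact (Gf_le_one_iff (T.gpos hz).1 (T.gpos hz).2).2 hz.2.1
  · have := T.swap.ss_le_two hδ (sw hz)
    rw [ss_swap] at this
    show -2 ≤ ss p q r (Dd * ε) z
    linarith
  · obtain ⟨hu, hs⟩ := Prod.mk.inj he
    rcases le_or_gt (NN p q r z) 0 with a | a
    · exact FY.inj T hε hz hz' a hu hs
    rcases le_or_gt (NN p r q z) 0 with b | b
    · exact FZ.inj T.swap hε (sw hz) (sw hz') b (by rw [us, us, hu])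
        (by rw [sw2, sw2, hs])
    rcases le_or_gt (NN p q r z') 0 with a' | a'
    · exact (FY.inj T hε hz' hz a' hu.symm hs.symm).symm
    rcases le_or_gt (NN p r q z') 0 with b' | b'
    · exact (FZ.inj T.swap hε (sw hz') (sw hz) b' (by rw [us, us, hu])
        (by rw [sw2, sw2, hs])).symm
    exact T.inj_T hz hz' a.le b.le a'.le b'.le hu hs
  · obtain ⟨x1, x2⟩ := x
    obtain ⟨⟨a1, a2⟩, a3, a4⟩ := hx
    simp only at a1 a2 a3 a4
    rcases le_total 1 x2 with b | b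
    · obtain ⟨z, hz, c1, c2⟩ := FY.surj T hε a1 a2 b a4
      exact ⟨z, hz, Prod.ext c1 c2⟩
    rcases le_total x2 (-1) with b' | b'
    · obtain ⟨z, hz, c1, c2⟩ := FZ.surj T.swap hε a1 a2 (s0 := -x2) (by linarith) (by linarith)
      rw [uu_swap] at c1
      rw [ss_swap, neg_inj] at c2
      exact ⟨z, Om_swap ▸ hz, Prod.ext c1 c2⟩
    · obtain ⟨z, hz, c1, c2⟩ := surj_T h.b1 T FY FZ hδ a1 a2 b' b
      exact ⟨z, hz, Prod.ext c1 c2⟩
  · refine Finset.prod_pos fun i hi => ?_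
    have hi' : i.val % 2 = 1 := (Finset.mem_filter.1 hi).2
    exact other z hz i (fun e => by rw [e] at hi'; omega) (fun e => by rw [e] at hi'; omega)
      (fun e => by rw [e] at hi'; omega)
  · rw [lamB_eq_zero, u0 hz, u1 hz, le_abs, T.ss_ge_iff hδ hz.1, le_neg, le_iff hz]
    have w1 := (T.wall hz).2
    have w2 := (T.swap.wall (sw hz)).2
    rw [BB_swap] at w2
    constructor
    · rintro ⟨i, -, hi⟩
      have hi' : ya i z = 0 := by rw [ya, hi, neg_zero]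
      by_cases h1 : i = p
      · exact Or.inl (h1 ▸ hi')
      by_cases h2 : i = q
      · exact Or.inr ⟨(w2.1 (h2 ▸ hi')).1, Or.inr (w2.1 (h2 ▸ hi')).2⟩
      by_cases h3 : i = r
      · exact Or.inr ⟨(w1.1 (h3 ▸ hi')).1, Or.inl (w1.1 (h3 ▸ hi')).2⟩
      exact absurd hi' (other z hz i h1 h2 h3).ne'
    · rintro (a | ⟨a, b | b⟩)
      · exact ⟨p, ep, neg_eq_zero.1 a⟩
      · exact ⟨r, er, neg_eq_zero.1 (w1.2 ⟨a, b⟩)⟩
      · exact ⟨q, eq, neg_eq_zero.1 (w2.2 ⟨a, b⟩)⟩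
  · rw [abs_lt] at h1
    have b1 := T.lt_of_ss hδ hz.1 h1.2
    have b2 := T.swap.lt_of_ss hδ hz.1 (by rw [ss_swap]; linarith [h1.1])
    have b3 : NN p q r z < 0 ∨ NN p r q z < 0 ∨ 0 < BB p q r z := by
      rcases h2 with h2 | h2
      · exact Or.inr (Or.inr (lt_of_le_of_ne hz.2.1 fun e => h2.ne ((u1 hz).2 e.symm)))
      · rcases lt_abs.1 h2 with h3 | h3
        · exact Or.inl ((T.ss_gt_iff hδ hz.1).1 h3)
        · exact Or.inr (Or.inl ((lt_iff hz).1 (by linarith)))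
    have hopen : IsOpen {w | -(Dd * ε) < NN p q r w ∧ -(Dd * ε) < NN p r q w ∧
        (NN p q r w < 0 ∨ NN p r q w < 0 ∨ 0 < BB p q r w)} :=
      (isOpen_lt continuous_const (continuous_NN p q r)).inter
        ((isOpen_lt continuous_const (continuous_NN p r q)).inter
          ((isOpen_lt (continuous_NN p q r) continuous_const).union
            ((isOpen_lt (continuous_NN p r q) continuous_const).union
              (isOpen_lt continuous_const (continuous_BB p q r)))))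
    refine mem_nhdsWithin.2 ⟨_, hopen, ⟨b1, b2, b3⟩, ?_⟩
    rintro w ⟨⟨c1, c2, c3⟩, hw⟩
    have ha : ∀ i, 0 ≤ ya i w := fun i => neg_nonneg.2 (hw i)
    refine ⟨ha p, ?_, c1.le, c2.le⟩
    rcases c3 with c3 | c3 | c3
    · rw [T.BB_Y (ha p) c3.le]; exact ha r
    · rw [← BB_swap, T.swap.BB_Y (ha p) c3.le]; exact ha q
    · exact c3.le
  · rw [abs_le] at h2
    have b1 : 0 ≤ NN p q r z := by
      by_contra hc
      linarith [(T.ss_gt_iff hδ hz.1).2 (not_le.1 hc), h2.2]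
    have b2 : 0 ≤ NN p r q z := by
      by_contra hc
      linarith [(lt_iff hz).2 (not_le.1 hc), h2.1]
    have b3 := (u1 hz).1 h1
    rw [BB_T b1 b2, div_eq_zero_iff] at b3
    exact T.chord (T.swap.wall (sw hz)).1 (T.wall hz).1
      (b3.resolve_right (by linarith : 0 < 2 * Mm - 1).ne')
  · obtain ⟨c1, c2, c3⟩ := FZ.inStrip T.swap hε (τ := -τ) (by linarith) (by linarith) a3 a4
    rw [uu_swap] at c2
    rw [ss_swap] at c3
    rw [z3]
    exact ⟨Om_swap ▸ c1, by rw [c2]; ring, by linarith⟩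

end Pool.Agent.Lib.MP_003e01_gt
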