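import Pool.Agent.Lib.MP_003e01_gt.Blue

/-! Block PushA2: the two twists are rotations in the chart. -/

open Set Topology

namespace Pool.Agent.Lib.MP_003e01_gt

namespace PushA2

/-- a strip parametrised by `E`, lying over the levels `σ * s ∈ [1, 2]` -/
structure Data (p : X → Sw) (k : Fin 3) (ε σ : ℝ) (Ω : Set X) (u s : X → ℝ) (E : ℝ → ℝ → X) :
    Prop where
  per : ∀ τ ν, p (E (τ + 1) ν) = p (E τ ν)
  refl : ∀ τ ν, sr (rot k 0) • E τ ν = E (-τ) ν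
  mem : ∀ τ ν, 0 ≤ τ → τ ≤ 1 / 2 → -ε ≤ ν → ν ≤ 0 →
    E τ ν ∈ Ω ∧ u (E τ ν) = 2 * τ ∧ s (E τ ν) = σ * (1 - ν / ε)

variable {p : X → Sw} {k : Fin 3} {ε σ : ℝ} {Ω : Set X} {u s : X → ℝ} {E : ℝ → ℝ → X}

lemma eq_one (hp : IsProj p) {z : X} (hz : z ∈ Q) : (p z).1.1 = (z, lamR z, lamB z) := by
  simpa using hp.eq 1 z hz

lemma eq_refl (hp : IsProj p) (k : Fin 3) {z : X} (hz : z ∈ Q) :
    (p (sr (rot k 0) • z)).1.1 = (z, lamR z, -lamB z) := by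
  have h : (rot k 0).val % 2 = 0 := by revert k; decide
  simpa [chR_sr, chB_sr, h] using hp.eq (sr (rot k 0)) z hz

lemma div_sin (hb : ChartBase k Ω u s) {z : X} (hz : z ∈ Ω) :
    lamB z / lamB z * Real.sin (Real.pi * u z) = Real.sin (Real.pi * u z) := by
  by_cases h : lamB z = 0
  · rcases (hb.blue z hz).1 h with h | ⟨h, -⟩ <;> simp [h]
  · rw [div_self h, one_mul]

lemma per_int (D : Data p k ε σ Ω u s E) (τ ν : ℝ) (m : ℤ) : p (E (τ + m) ν) = p (E τ ν) := by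
  induction m using Int.induction_on with
  | zero => simp
  | succ m ih => rw [← ih, ← D.per (τ + ((m : ℤ) : ℝ))]; push_cast; rw [add_assoc]
  | pred m ih => rw [← ih, ← D.per]; push_cast; congr 2; ring

lemma onto (hp : IsProj p) (hb : ChartBase k Ω u s) (D : Data p k ε σ Ω u s E) (τ : ℝ) {ν : ℝ}
    (h1 : -ε ≤ ν) (h2 : ν ≤ 0) : (p (E τ ν)).1.1.1 ∈ Ω ∧ 0 < (p (E τ ν)).1.1.2.1 ∧
      s (p (E τ ν)).1.1.1 = σ * (1 - ν / ε) ∧
      ang u (p (E τ ν)) = Complex.exp (2 * Real.pi * Complex.I * τ) := by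
  obtain ⟨t, m, rfl, ht⟩ : ∃ (t : ℝ) (m : ℤ), τ = t + m ∧ |t| ≤ 1 / 2 :=
    ⟨τ - round τ, round τ, by ring, abs_sub_round τ⟩
  have e : Complex.exp (2 * Real.pi * Complex.I * ((t + m : ℝ) : ℂ)) =
      (Real.cos (Real.pi * (2 * t)) : ℝ) + Complex.I * (Real.sin (Real.pi * (2 * t)) : ℝ) := by
    rw [show 2 * Real.pi * Complex.I * ((t + m : ℝ) : ℂ) =
      ((Real.pi * (2 * t) : ℝ) : ℂ) * Complex.I + m * (2 * Real.pi * Complex.I) by push_cast; ring,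
      Complex.exp_add, Complex.exp_int_mul_two_pi_mul_I, mul_one, Complex.exp_mul_I,
      Complex.ofReal_cos, Complex.ofReal_sin, mul_comm Complex.I]
  rw [per_int D, e]
  rw [abs_le] at ht
  rcases le_total 0 t with h | h
  · obtain ⟨a, b, c⟩ := D.mem t ν h ht.2 h1 h2
    rw [ang, eq_one hp (hb.sub a)]
    refine ⟨a, hb.red _ a, c, ?_⟩
    rw [div_sin hb a, b]
  · obtain ⟨a, b, c⟩ := D.mem (-t) ν (by linarith) (by linarith) h1 h2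
    rw [← neg_neg t, ← D.refl, ang, eq_refl hp k (hb.sub a)]
    refine ⟨a, hb.red _ a, c, ?_⟩
    simp only [neg_div, neg_mul]
    rw [div_sin hb a, b]
    simp

lemma from_ (hp : IsProj p) (hb : ChartBase k Ω u s) (D : Data p k ε σ Ω u s E) (hε : 0 < ε)
    (hσ : σ = 1 ∨ σ = -1) {x : Sw} (h1 : x.1.1.1 ∈ Ω) (h2 : 0 < x.1.1.2.1)
    (h3 : 1 ≤ σ * s x.1.1.1) : ∃ τ ν, -ε ≤ ν ∧ ν ≤ 0 ∧ x = p (E τ ν) := by
  obtain ⟨⟨⟨z, y, t⟩, hQ, hy, ht'⟩, ht⟩ := x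
  obtain ⟨⟨a, b⟩, c, d⟩ := hb.bij.mapsTo h1
  simp only at a b c d h1 h2 h3 hQ hy
  replace ht : |t| = lamB z := ht
  have n1 : -ε ≤ ε * (1 - σ * s z) := by rcases hσ with rfl | rfl <;> nlinarith
  have n2 : ε * (1 - σ * s z) ≤ 0 := by nlinarith
  obtain ⟨e1, e2, e3⟩ := D.mem (u z / 2) _ (by linarith) (by linarith) n1 n2
  have e : E (u z / 2) (ε * (1 - σ * s z)) = z := hb.bij.injOn e1 h1 (Prod.ext
    (by simp only [e2]; ring) (by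
      simp only [e3, mul_div_cancel_left₀ _ hε.ne']; rcases hσ with rfl | rfl <;> ring))
  rw [abs_of_pos h2] at hy
  rcases (abs_eq (lamB_nonneg hQ)).1 ht with h | h
  · refine ⟨u z / 2, _, n1, n2, Subtype.ext (Subtype.ext ?_)⟩
    rw [e, eq_one hp hQ]
    exact Prod.ext rfl (Prod.ext hy h)
  · refine ⟨-(u z / 2), _, n1, n2, Subtype.ext (Subtype.ext ?_)⟩
    rw [← D.refl, e, eq_refl hp k hQ]
    exact Prod.ext rfl (Prod.ext hy h)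

lemma strip {a : Axis} {e : ℝ × ℝ ≃ₜ X} (h : Fermi a e) {x : Sw} :
    x ∈ p '' Strip a ε ↔ ∃ τ ν, -ε ≤ ν ∧ ν ≤ 0 ∧ x = p (e (τ, ν)) := by
  constructor
  · rintro ⟨z, hz, rfl⟩
    obtain ⟨⟨τ, ν⟩, rfl⟩ := e.surjective z
    simp only [Strip, mem_ofPred_eq, h.1] at hz
    exact ⟨τ, ν, hz.1, hz.2, rfl⟩
  · rintro ⟨τ, ν, h1, h2, rfl⟩
    exact ⟨_, by simpa only [Strip, mem_ofPred_eq, h.1] using ⟨h1, h2⟩, rfl⟩

lemma per (hp : IsProj p) {a : Axis} {e : ℝ × ℝ ≃ₜ X} (h : Fermi a e) {g : G} (hg : a.For g.1)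
    (τ ν : ℝ) : p (e (τ + 1, ν)) = p (e (τ, ν)) := by
  rw [← hp.cov.map_smul g (e := e (τ, ν)), ← h.2 1 (τ, ν)]
  exact congrArg p (Subtype.ext (hg _).symm)

lemma tw {a : Axis} {e : ℝ × ℝ ≃ₜ X} (h : Fermi a e) {n : ℤ} {f : Sw ≃ₜ Sw}
    (hf : IsTw p a ε n f) (τ : ℝ) {ν : ℝ} (h1 : -ε ≤ ν) (h2 : ν ≤ 0) :
    f (p (e (τ, ν))) = p (e (τ + n * (1 + ν / ε), ν)) := by
  rw [hf.inside _ (by simpa only [Strip, mem_ofPred_eq, h.1] using ⟨h1, h2⟩), h.2, h.1]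

end PushA2

open PushA2 in
theorem blockPushA2 (_h : Geo) : StmtPushA2 := by
  intro p hp k aY aZ hY hZ ε Ω u s eY eZ hε C n fY fZ tY tZ
  have hb := C.toChartBase
  have DY : Data p k ε 1 Ω u s fun τ ν => eY (τ, ν) :=
    ⟨per hp C.fermiY hY, C.reflY, fun τ ν a b c d => by simpa using C.inY τ ν a b c d⟩
  have DZ : Data p k ε (-1) Ω u s fun τ ν => eZ (-τ, ν) :=
    ⟨fun τ ν => by rw [← per hp C.fermiZ hZ]; congr 3; ring, fun τ ν => C.reflZ _ _,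
      fun τ ν a b c d => by simpa using C.inZ (-τ) ν (by linarith) (by linarith) c d⟩
  have hd : ∀ ν : ℝ, ν ≤ 0 → 1 ≤ 1 - ν / ε := fun ν h => by
    have := div_nonpos_of_nonpos_of_nonneg h hε.le
    linarith
  have sY : ∀ x, x ∈ p '' Strip aY ε → x.1.1.1 ∈ Ω ∧ 0 < x.1.1.2.1 ∧ 1 ≤ s x.1.1.1 := by
    intro x hx
    obtain ⟨τ, ν, h1, h2, rfl⟩ := (strip C.fermiY).1 hx
    obtain ⟨a, b, c, -⟩ := onto hp hb DY τ h1 h2
    exact ⟨a, b, by rw [c, one_mul]; exact hd ν h2⟩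
  have sZ : ∀ x, x ∈ p '' Strip aZ ε → x.1.1.1 ∈ Ω ∧ 0 < x.1.1.2.1 ∧ s x.1.1.1 ≤ -1 := by
    intro x hx
    obtain ⟨τ, ν, h1, h2, rfl⟩ := (strip C.fermiZ).1 hx
    obtain ⟨a, b, c, -⟩ := onto hp hb DZ (-τ) h1 h2
    rw [neg_neg] at a b c
    exact ⟨a, b, by rw [c]; linarith [hd ν h2]⟩
  refine ⟨hb, fun x h1 h2 h3 => ?_, fun x hx => ?_⟩
  · rcases le_abs.1 h3 with h | h
    · obtain ⟨τ, ν, n1, n2, rfl⟩ := from_ hp hb DY hε (.inl rfl) h1 h2 (by rwa [one_mul])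
      have e : (fY * fZ) (p (eY (τ, ν))) = p (eY (τ + n * (1 + ν / ε), ν)) := by
        rw [Homeomorph.mul_apply, tZ.outside _ fun h' => by linarith [(sZ _ h').2.2],
          tw C.fermiY tY τ n1 n2]
      obtain ⟨-, -, c, d⟩ := onto hp hb DY τ n1 n2
      obtain ⟨a', b', c', d'⟩ := onto hp hb DY (τ + n * (1 + ν / ε)) n1 n2
      rw [e]
      refine ⟨a', b', c'.trans c.symm, ?_⟩
      rw [d', d, c, one_mul, abs_of_nonneg (by linarith [hd ν n2]), ← Complex.exp_add]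
      congr 1; push_cast; ring
    · obtain ⟨τ, ν, n1, n2, rfl⟩ := from_ hp hb DZ hε (.inr rfl) h1 h2 (by rwa [neg_one_mul])
      have e : (fY * fZ) (p (eZ (-τ, ν))) = p (eZ (-(τ + n * (1 + ν / ε)), ν)) := by
        rw [Homeomorph.mul_apply, tY.outside _ fun h' => by
          linarith [(sY _ h').2.2, (sZ _ (tZ.mem ((strip C.fermiZ).2 ⟨-τ, ν, n1, n2, rfl⟩))).2.2],
          tw C.fermiZ tZ _ n1 n2]
        congr 3; push_cast; ring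
      obtain ⟨-, -, c, d⟩ := onto hp hb DZ τ n1 n2
      obtain ⟨a', b', c', d'⟩ := onto hp hb DZ (τ + n * (1 + ν / ε)) n1 n2
      rw [e]
      refine ⟨a', b', c'.trans c.symm, ?_⟩
      rw [d', d, c, neg_one_mul, abs_neg, abs_of_nonneg (by linarith [hd ν n2]), ← Complex.exp_add]
      congr 1; push_cast; ring
  · rw [Homeomorph.mul_apply, tZ.outside x fun h => hx ⟨(sZ x h).1, (sZ x h).2.1,
      le_abs.2 (.inr (by linarith [(sZ x h).2.2]))⟩,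
      tY.outside x fun h => hx ⟨(sY x h).1, (sY x h).2.1, le_abs.2 (.inl (sY x h).2.2)⟩]

end Pool.Agent.Lib.MP_003e01_gt
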