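import Pool.Agent.Lib.MP_003e01_gt.PushBa

/-! Block PushB: a rotation of the boundary of a solid cylinder extends near the boundary. -/

open Set Topology Filter

namespace Pool.Agent.Lib.MP_003e01_gt

namespace PushB

/-- the model cylinder -/
def KK : Set (ℂ × ℝ) := Metric.closedBall 0 1 ×ˢ Icc (-2) 2

instance : CompactSpace KK :=
  isCompact_iff_compactSpace.1 ((isCompact_closedBall _ _).prod isCompact_Icc)

lemma norm_le (p : KK) : ‖p.1.1‖ ≤ 1 := mem_closedBall_zero_iff.1 p.2.1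

lemma abs_s (p : KK) : |p.1.2| ≤ 2 := abs_le.2 p.2.2

lemma sq_norm (w : ℂ) : ‖w‖ ^ 2 = w.re ^ 2 + w.im ^ 2 := by
  rw [Complex.sq_norm, Complex.normSq_apply]; ring

lemma sq_le (p : KK) : p.1.1.re ^ 2 + p.1.1.im ^ 2 ≤ 1 := by
  rw [← sq_norm]
  exact pow_le_one₀ (norm_nonneg _) (norm_le p)

lemma abs_re (p : KK) : -1 ≤ p.1.1.re ∧ p.1.1.re ≤ 1 :=
  abs_le.1 ((Complex.abs_re_le_norm _).trans (norm_le p))

lemma abs_im (p : KK) : |p.1.1.im| ≤ √(1 - p.1.1.re ^ 2) :=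
  Real.abs_le_sqrt (by linarith [sq_le p])

/-- coordinates of the base point -/
noncomputable def qq (p : KK) : ℝ × ℝ := (Real.arccos p.1.1.re / Real.pi, p.1.2)

lemma qq_mem (p : KK) : qq p ∈ Rect :=
  mem_Rect.2 ⟨⟨div_nonneg (Real.arccos_nonneg _) Real.pi_pos.le,
    (div_le_one Real.pi_pos).2 (Real.arccos_le_pi _)⟩, abs_s p⟩

lemma continuous_re : Continuous fun p : KK => p.1.1.re :=
  Complex.continuous_re.comp (continuous_fst.comp continuous_subtype_val)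

lemma continuous_qq : Continuous qq :=
  ((Real.continuous_arccos.comp continuous_re).div_const _).prodMk
    (continuous_snd.comp continuous_subtype_val)

lemma end_of_sqrt {p : KK} (h : √(1 - p.1.1.re ^ 2) = 0) : (qq p).1 = 0 ∨ (qq p).1 = 1 := by
  have h1 := Real.sqrt_eq_zero'.1 h
  have h2 := abs_re p
  have h3 : (p.1.1.re - 1) * (p.1.1.re + 1) = 0 := by nlinarith
  rcases mul_eq_zero.1 h3 with h4 | h4
  · left
    have : p.1.1.re = 1 := by linarith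
    simp [qq, this]
  · right
    have : p.1.1.re = -1 := by linarith
    simp [qq, this, Real.pi_ne_zero]

lemma mid_of_sqrt {p : KK} (h : √(1 - p.1.1.re ^ 2) ≠ 0) : 0 < (qq p).1 ∧ (qq p).1 < 1 := by
  have h1 : 0 < 1 - p.1.1.re ^ 2 := Real.sqrt_ne_zero'.1 h
  have h2 : p.1.1.re < 1 := by nlinarith
  have h3 : -1 < p.1.1.re := by nlinarith
  exact ⟨div_pos (Real.arccos_pos.2 h2) Real.pi_pos,
    (div_lt_one Real.pi_pos).2 (Real.arccos_lt_pi.2 h3)⟩

/-- the height -/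
noncomputable def tt (l : ℝ × ℝ → ℝ) (p : KK) : ℝ :=
  l (qq p) * (p.1.1.im / √(1 - p.1.1.re ^ 2))

variable {k : Fin 3} {Ω : Set X} {u s : X → ℝ} {ζ : ℝ × ℝ → X} {δ : ℝ} {l : ℝ × ℝ → ℝ}

lemma continuous_tt (hl : Pinch ζ δ l) : Continuous (tt l) :=
  cont_mul_div (hl.cont.comp continuous_qq)
    (Complex.continuous_im.comp (continuous_fst.comp continuous_subtype_val))
    (continuous_const.sub (continuous_re.pow 2)).sqrt abs_im
    fun p hp => hl.zero _ (qq_mem p) (end_of_sqrt hp)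

lemma abs_tt (hl : Pinch ζ δ l) (p : KK) :
    |tt l p| = l (qq p) * (|p.1.1.im| / √(1 - p.1.1.re ^ 2)) := by
  rw [tt, abs_mul, abs_div, abs_of_nonneg (hl.nonneg _ (qq_mem p)),
    abs_of_nonneg (Real.sqrt_nonneg _)]

lemma abs_tt_le (hl : Pinch ζ δ l) (p : KK) : |tt l p| ≤ l (qq p) := by
  rw [abs_tt hl]
  exact mul_le_of_le_one_right (hl.nonneg _ (qq_mem p))
    (div_le_one_of_le₀ (abs_im p) (Real.sqrt_nonneg _))

lemma abs_tt_lt (hl : Pinch ζ δ l) {p : KK} (h : ‖p.1.1‖ < 1) :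
    |tt l p| < l (qq p) ∧ (qq p).1 < 1 := by
  have h1 : p.1.1.re ^ 2 + p.1.1.im ^ 2 < 1 := by
    rw [← sq_norm]
    exact pow_lt_one₀ (norm_nonneg _) h two_ne_zero
  have h2 : |p.1.1.im| < √(1 - p.1.1.re ^ 2) := by
    rw [Real.lt_sqrt (abs_nonneg _), sq_abs]; linarith
  have h3 : 0 < √(1 - p.1.1.re ^ 2) := (abs_nonneg _).trans_lt h2
  obtain ⟨h4, h5⟩ := mid_of_sqrt h3.ne'
  refine ⟨?_, h5⟩
  rw [abs_tt hl]
  exact mul_lt_of_lt_one_right (hl.pos _ (qq_mem p) h4 h5) ((div_lt_one h3).2 h2)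

lemma abs_tt_eq (hl : Pinch ζ δ l) {p : KK} (h : ‖p.1.1‖ = 1) : |tt l p| = l (qq p) := by
  rw [abs_tt hl]
  by_cases h0 : √(1 - p.1.1.re ^ 2) = 0
  · rw [hl.zero _ (qq_mem p) (end_of_sqrt h0), zero_mul]
  · have h1 := sq_norm p.1.1
    rw [h] at h1
    have h2 : √(1 - p.1.1.re ^ 2) = |p.1.1.im| := by
      rw [← Real.sqrt_sq_eq_abs]; congr 1; linarith
    rw [← h2, div_self h0, mul_one]

/-- the parametrisation of the cylinder -/
noncomputable def cyl (h : Zeta k Ω u s ζ) (l : ℝ × ℝ → ℝ) (p : KK) : Hw := pt h (qq p) (tt l p)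

lemma cyl_t (h : Zeta k Ω u s ζ) (hl : Pinch ζ δ l) (p : KK) : (cyl h l p).1.2.2 = tt l p :=
  pt_t h ((abs_tt_le hl p).trans (hl.le _))

lemma cyl_y (h : Zeta k Ω u s ζ) (p : KK) : 0 < (cyl h l p).1.2.1 := h.red _ (h.mem _)

lemma cyl_us (h : Zeta k Ω u s ζ) (p : KK) :
    (u (cyl h l p).1.1, s (cyl h l p).1.1) = qq p :=
  Prod.ext (h.right _ (qq_mem p)).1 (h.right _ (qq_mem p)).2

lemma cyl_emb (h : Zeta k Ω u s ζ) (hl : Pinch ζ δ l) : IsClosedEmbedding (cyl h l) := by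
  refine Continuous.isClosedEmbedding
    ((continuous_pt h).comp (continuous_qq.prodMk (continuous_tt hl))) fun p p' e => ?_
  have e1 : qq p = qq p' := by rw [← cyl_us (l := l) h p, e, cyl_us]
  have e2 : tt l p = tt l p' := by rw [← cyl_t h hl p, e, cyl_t h hl]
  have e3 : p.1.1.re = p'.1.1.re := by
    have := congrArg Prod.fst e1
    simp only [qq] at this
    exact Real.arccos_injOn (abs_re p) (abs_re p')
      ((div_left_inj' Real.pi_ne_zero).1 this)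
  have e4 : p.1.1.im = p'.1.1.im := by
    by_cases h0 : √(1 - p.1.1.re ^ 2) = 0
    · have a1 := abs_im p
      have a2 := abs_im p'
      rw [← e3] at a2
      rw [h0] at a1 a2
      rw [abs_nonpos_iff.1 a1, abs_nonpos_iff.1 a2]
    · obtain ⟨h4, h5⟩ := mid_of_sqrt h0
      have hp := hl.pos _ (qq_mem p) h4 h5
      unfold tt at e2
      rw [← e1, ← e3] at e2
      exact (div_left_inj' h0).1 (mul_left_cancel₀ hp.ne' e2)
  have e5 : (qq p).2 = (qq p').2 := congrArg Prod.snd e1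
  exact Subtype.ext (Prod.ext (Complex.ext e3 e4) e5)

lemma cyl_surj (h : Zeta k Ω u s ζ) (hl : Pinch ζ δ l) (x : Hw) (hz : x.1.1 ∈ Ω)
    (hy : 0 < x.1.2.1) (ht : |x.1.2.2| ≤ l (u x.1.1, s x.1.1)) :
    ∃ p : KK, p.1.1 = (Real.cos (Real.pi * u x.1.1) : ℝ) + Complex.I *
        ((x.1.2.2 / l (u x.1.1, s x.1.1) * Real.sin (Real.pi * u x.1.1) : ℝ) : ℂ) ∧
      p.1.2 = s x.1.1 ∧ cyl h l p = x := by
  have hq := h.rect hz
  have hq' := mem_Rect.1 hq
  set a := Real.pi * u x.1.1 with ha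
  set L := l (u x.1.1, s x.1.1) with hL
  set t := x.1.2.2 with ht'
  have a0 : 0 ≤ a := mul_nonneg Real.pi_pos.le hq'.1.1
  have a1 : a ≤ Real.pi := mul_le_of_le_one_right Real.pi_pos.le hq'.1.2
  have hs : 0 ≤ Real.sin a := Real.sin_nonneg_of_nonneg_of_le_pi a0 a1
  have hr : |t / L| ≤ 1 := by
    rw [abs_div, abs_of_nonneg ((abs_nonneg _).trans ht)]
    exact div_le_one_of_le₀ ht ((abs_nonneg _).trans ht)
  set w : ℂ := (Real.cos a : ℝ) + Complex.I * ((t / L * Real.sin a : ℝ) : ℂ) with hw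
  have wre : w.re = Real.cos a := by
    rw [hw, Complex.add_re, Complex.ofReal_re, Complex.I_mul_re, Complex.ofReal_im]; simp
  have wim : w.im = t / L * Real.sin a := by
    rw [hw, Complex.add_im, Complex.ofReal_im, Complex.I_mul_im, Complex.ofReal_re]; simp
  have wn : ‖w‖ ≤ 1 := by
    refine (pow_le_one_iff_of_nonneg (norm_nonneg _) two_ne_zero).1 ?_
    rw [sq_norm, wre, wim, mul_pow]
    have h1 : (t / L) ^ 2 ≤ 1 := by rw [← sq_abs]; exact pow_le_one₀ (abs_nonneg _) hr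
    nlinarith [Real.cos_sq_add_sin_sq a, sq_nonneg (Real.sin a)]
  let p : KK := ⟨(w, s x.1.1), mem_closedBall_zero_iff.2 wn, abs_le.1 hq'.2⟩
  have e1 : qq p = (u x.1.1, s x.1.1) := by
    refine Prod.ext ?_ rfl
    change Real.arccos w.re / Real.pi = u x.1.1
    rw [wre, Real.arccos_cos a0 a1, ha, mul_div_cancel_left₀ _ Real.pi_ne_zero]
  have e2 : √(1 - w.re ^ 2) = Real.sin a := by
    rw [wre, ← Real.sin_sq, Real.sqrt_sq hs]
  have e3 : tt l p = t := by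
    change l (qq p) * (w.im / √(1 - w.re ^ 2)) = t
    by_cases h0 : L = 0
    · rw [e1, ← hL, h0, zero_mul]
      rw [h0] at ht
      exact (abs_nonpos_iff.1 ht).symm
    · have h1 : √(1 - w.re ^ 2) ≠ 0 := fun h2 => h0 (by
        have := hl.zero _ (qq_mem p) (end_of_sqrt (p := p) h2)
        rwa [e1] at this)
      rw [e2] at h1
      rw [e1, ← hL, e2, wim]
      field_simp
  refine ⟨p, rfl, rfl, ?_⟩
  rw [cyl, e1, e3]
  exact pt_eq h x hz hy

lemma cyl_nhds (h : Zeta k Ω u s ζ) (hl : Pinch ζ δ l) (p : KK) (h2 : |p.1.2| < 2)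
    (h1 : ‖p.1.1‖ < 1 ∨ 1 < |p.1.2|) : range (cyl h l) ∈ 𝓝 (cyl h l p) := by
  have hus := cyl_us (l := l) h p
  have hu : u (cyl h l p).1.1 = (qq p).1 := congrArg Prod.fst hus
  have hs : s (cyl h l p).1.1 = p.1.2 := congrArg Prod.snd hus
  have hz : (cyl h l p).1.1 ∈ Ω := h.mem _
  have hb : Continuous fun x : Hw => x.1.1 := continuous_fst.comp continuous_subtype_val
  have hn : Ω ∈ 𝓝[Q] (cyl h l p).1.1 := h.nhds _ hz (by rwa [hs]) (by
    rw [hu, hs]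
    exact h1.imp_left fun h => (abs_tt_lt hl h).2)
  have t1 : Tendsto (fun x : Hw => x.1.1) (𝓝 (cyl h l p)) (𝓝[Q] (cyl h l p).1.1) :=
    tendsto_nhdsWithin_iff.2 ⟨hb.tendsto _, Eventually.of_forall fun x => x.2.1⟩
  have e1 : ∀ᶠ x : Hw in 𝓝 (cyl h l p), x.1.1 ∈ Ω := t1 hn
  have t2 : Tendsto (fun x : Hw => x.1.1) (𝓝 (cyl h l p)) (𝓝[Ω] (cyl h l p).1.1) :=
    tendsto_nhdsWithin_iff.2 ⟨hb.tendsto _, e1⟩
  have t3 : Tendsto (fun x : Hw => (u x.1.1, s x.1.1)) (𝓝 (cyl h l p)) (𝓝 (qq p)) := by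
    rw [← hus]
    exact ((h.cont_u.prodMk h.cont_s) _ hz).tendsto.comp t2
  have e2 : ∀ᶠ x : Hw in 𝓝 (cyl h l p), 0 < x.1.2.1 :=
    ((continuous_fst.comp (continuous_snd.comp continuous_subtype_val)).tendsto _).eventually
      (lt_mem_nhds (cyl_y h p))
  have e3 : ∀ᶠ x : Hw in 𝓝 (cyl h l p), x.1.1 ∈ Ω → |x.1.2.2| ≤ l (u x.1.1, s x.1.1) := by
    rcases h1 with h1 | h1
    · have t4 : Tendsto (fun x : Hw => |x.1.2.2|) (𝓝 (cyl h l p)) (𝓝 |tt l p|) := by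
        rw [← cyl_t h hl p]
        exact (continuous_snd.comp (continuous_snd.comp continuous_subtype_val)).abs.tendsto _
      exact (t4.eventually_lt ((hl.cont.tendsto _).comp t3) (abs_tt_lt hl h1).1).mono
        fun x hx _ => hx.le
    · have t4 : Tendsto (fun x : Hw => |s x.1.1|) (𝓝 (cyl h l p)) (𝓝 |p.1.2|) :=
        (continuous_snd.abs.tendsto _).comp t3
      refine (t4.eventually (lt_mem_nhds h1)).mono fun x hx hx' => ?_
      rw [hl.eq _ (h.rect hx') hx.le, h.left _ hx']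
      exact x.2.2.2
  filter_upwards [e1, e2, e3] with x a1 a2 a3
  obtain ⟨p', -, -, e⟩ := cyl_surj h hl x a1 a2 (a3 a1)
  exact ⟨p', e⟩

/-- the angle of rotation -/
noncomputable def th (ε : ℝ) (p : KK) : ℝ := min 1 (2 - |p.1.2|) * max 0 (1 - (1 - ‖p.1.1‖) / ε)

lemma norm_rot (n : ℤ) (a : ℝ) : ‖Complex.exp (2 * Real.pi * Complex.I * n * (a : ℂ))‖ = 1 := by
  rw [Complex.norm_exp]; simp

/-- the rotation of the model cylinder -/
noncomputable def ro (n : ℤ) (ε : ℝ) (p : KK) : KK :=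
  ⟨(p.1.1 * Complex.exp (2 * Real.pi * Complex.I * n * (th ε p : ℂ)), p.1.2),
    mem_closedBall_zero_iff.2 (by rw [norm_mul, norm_rot, mul_one]; exact norm_le p), p.2.2⟩

lemma norm_ro (n : ℤ) (ε : ℝ) (p : KK) : ‖(ro n ε p).1.1‖ = ‖p.1.1‖ := by
  change ‖p.1.1 * _‖ = _
  rw [norm_mul, norm_rot, mul_one]

lemma th_ro (n : ℤ) (ε : ℝ) (p : KK) : th ε (ro n ε p) = th ε p := by
  unfold th
  rw [norm_ro]
  rfl

lemma ro_ro {n n' : ℤ} (hn : n + n' = 0) (ε : ℝ) (p : KK) : ro n' ε (ro n ε p) = p := by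
  refine Subtype.ext (Prod.ext ?_ rfl)
  change p.1.1 * _ * Complex.exp (2 * Real.pi * Complex.I * n' * (th ε (ro n ε p) : ℂ)) = _
  have h1 : (n : ℂ) + n' = 0 := by exact_mod_cast hn
  rw [th_ro, mul_assoc, ← Complex.exp_add]
  have : 2 * Real.pi * Complex.I * n * (th ε p : ℂ) + 2 * Real.pi * Complex.I * n' * (th ε p : ℂ) =
      0 := by linear_combination (2 * Real.pi * Complex.I * (th ε p : ℂ)) * h1
  rw [this, Complex.exp_zero, mul_one]

lemma continuous_ro (n : ℤ) (ε : ℝ) : Continuous (ro n ε) := by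
  refine Continuous.subtype_mk ?_ _
  have h1 : Continuous fun p : KK => p.1.1 := continuous_fst.comp continuous_subtype_val
  have h2 : Continuous fun p : KK => p.1.2 := continuous_snd.comp continuous_subtype_val
  have h3 : Continuous (th ε) := by
    unfold th
    fun_prop
  fun_prop

lemma ro_zero (n : ℤ) {ε : ℝ} {p : KK} (h : th ε p = 0) : ro n ε p = p := by
  refine Subtype.ext (Prod.ext ?_ rfl)
  change p.1.1 * _ = _
  rw [h]; simp

lemma ro_one (n : ℤ) (ε : ℝ) {p : KK} (h1 : |p.1.2| ≤ 1) (h2 : ‖p.1.1‖ = 1) : ro n ε p = p := by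
  refine Subtype.ext (Prod.ext ?_ rfl)
  change p.1.1 * _ = _
  have : th ε p = 1 := by
    rw [th, h2, min_eq_left (by linarith)]; simp
  rw [this, Complex.ofReal_one, mul_one, mul_comm _ (n : ℂ), Complex.exp_int_mul_two_pi_mul_I,
    mul_one]

lemma ro_fix (h : Zeta k Ω u s ζ) (hl : Pinch ζ δ l) (n : ℤ) (ε : ℝ) (p : KK)
    (hp : range (cyl h l) ∉ 𝓝 (cyl h l p)) : ro n ε p = p := by
  rcases (abs_s p).eq_or_lt with h2 | h2
  · exact ro_zero n (by rw [th, h2]; simp)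
  · have h1 : ¬ (‖p.1.1‖ < 1 ∨ 1 < |p.1.2|) := fun h1 => hp (cyl_nhds h hl p h2 h1)
    push Not at h1
    exact ro_one n ε h1.2 (le_antisymm (norm_le p) h1.1)

lemma exists_eps {U : Set KK} (hU : IsOpen U) (h : ∀ p : KK, ‖p.1.1‖ = 1 → p ∈ U) :
    ∃ ε : ℝ, 0 < ε ∧ ∀ p : KK, 1 - ε ≤ ‖p.1.1‖ → p ∈ U := by
  rcases (Uᶜ).eq_empty_or_nonempty with h0 | h0
  · exact ⟨1, one_pos, fun p _ => by_contra fun hp => (h0 ▸ hp : p ∈ (∅ : Set KK))⟩
  · obtain ⟨p0, h1, h2⟩ := hU.isClosed_compl.isCompact.exists_isMaxOn h0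
      (f := fun p : KK => ‖p.1.1‖) (continuous_fst.comp continuous_subtype_val).norm.continuousOn
    have h3 : ‖p0.1.1‖ < 1 := lt_of_le_of_ne (norm_le p0) fun e => h1 (h p0 e)
    refine ⟨(1 - ‖p0.1.1‖) / 2, by linarith, fun p hp => by_contra fun hn => ?_⟩
    have : ‖p.1.1‖ ≤ ‖p0.1.1‖ := h2 hn
    linarith

/-- the two points of the surface above a point of the base -/
noncomputable def edge (h : Zeta k Ω u s ζ) (c : ℝ) (hc : |c| = 1) (q : ℝ × ℝ) : Sw :=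
  ⟨pt h q (c * lamB (ζ q)), by
    have e : |c * lamB (ζ q)| = lamB (ζ q) := by rw [abs_mul, hc, one_mul, abs_of_nonneg (h.nonneg q)]
    change |(pt h q (c * lamB (ζ q))).1.2.2| = lamB (ζ q)
    rw [pt_t h e.le, e]⟩

lemma continuous_edge (h : Zeta k Ω u s ζ) (c : ℝ) (hc : |c| = 1) : Continuous (edge h c hc) :=
  Continuous.subtype_mk ((continuous_pt h).comp (continuous_id.prodMk
    (continuous_const.mul (continuous_lamB.comp h.cont)))) _

lemma exists_delta (h : Zeta k Ω u s ζ) {O : Set Sw} (hO : IsOpen O)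
    (hs : ∀ x : Sw, x.1.1.1 ∈ seg k → 0 ≤ x.1.1.2.1 → x ∈ O) :
    ∃ δ : ℝ, 0 < δ ∧ ∀ q ∈ Icc (1 - δ) 1 ×ˢ Icc (-1 : ℝ) 1,
      edge h 1 abs_one q ∈ O ∧ edge h (-1) (by simp) q ∈ O := by
  have hN := (hO.preimage (continuous_edge h 1 abs_one)).inter
    (hO.preimage (continuous_edge h (-1) (by simp)))
  obtain ⟨a, b, ha, -, h1, h2, h3⟩ := generalized_tube_lemma (isCompact_singleton (x := (1 : ℝ)))
    (isCompact_Icc (a := (-1 : ℝ)) (b := 1)) hN (by
      rintro ⟨x, y⟩ ⟨hx, hy⟩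
      have hx' : x = 1 := hx
      have hy' : |y| ≤ 1 := abs_le.2 hy
      have hq : (x, y) ∈ Rect := mem_Rect.2 ⟨⟨by simp [hx'], by simp [hx']⟩, by linarith⟩
      have hz : ζ (x, y) ∈ seg k := h.chord _ (h.mem _) (by rw [(h.right _ hq).1]; exact hx')
        (by rw [(h.right _ hq).2]; exact hy')
      exact ⟨hs _ hz (h.red _ (h.mem _)).le, hs _ hz (h.red _ (h.mem _)).le⟩)
  obtain ⟨r, hr, hr'⟩ := Metric.isOpen_iff.1 ha 1 (h1 rfl)
  refine ⟨r / 2, half_pos hr, fun q hq => h3 ⟨hr' ?_, h2 hq.2⟩⟩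
  rw [Metric.mem_ball, Real.dist_eq, abs_lt]
  constructor <;> linarith [hq.1.1, hq.1.2]

lemma cyl_of_surf (h : Zeta k Ω u s ζ) (hl : Pinch ζ δ l) (x : Sw) (hz : x.1.1.1 ∈ Ω)
    (hy : 0 < x.1.1.2.1) (h1 : 1 ≤ |s x.1.1.1|) :
    ∃ p : KK, p.1.1 = ang u x ∧ p.1.2 = s x.1.1.1 ∧ cyl h l p = x := by
  have e : l (u x.1.1.1, s x.1.1.1) = lamB x.1.1.1 := by
    rw [hl.eq _ (h.rect hz) h1, h.left _ hz]
  obtain ⟨p, h2, h3, h4⟩ := cyl_surj h hl x.1 hz hy (by rw [e]; exact x.1.2.2.2)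
  exact ⟨p, by rw [h2, e]; rfl, h3, h4⟩

lemma norm_of_surf (h : Zeta k Ω u s ζ) (hl : Pinch ζ δ l) {p : KK} (hp : cyl h l p ∈ Sw) :
    ‖p.1.1‖ = 1 := by
  refine le_antisymm (norm_le p) (not_lt.1 fun h1 => ?_)
  have h2 : |(cyl h l p).1.2.2| = lamB (ζ (qq p)) := hp
  rw [cyl_t h hl] at h2
  linarith [(abs_tt_lt hl h1).1, hl.le (qq p)]

end PushB

open PushB in
theorem blockPushB : StmtPushB := by
  intro k n f Ω u s hc O hO hs
  obtain ⟨ζ, h⟩ := exists_zeta hc.toChartBase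
  obtain ⟨δ, hδ, hδ'⟩ := exists_delta h hO hs
  obtain ⟨l, hl⟩ := exists_pinch h hδ
  refine ⟨(fun p : (ℝ × ℝ) × ℝ => pt h p.1 (p.2 * lamB (ζ p.1))) ''
    ((Icc (1 - δ) 1 ×ˢ Icc (-1 : ℝ) 1) ×ˢ Icc (-1 : ℝ) 1), ?_, ?_, fun U hU hSU hBU => ?_⟩
  · refine ((isCompact_Icc.prod isCompact_Icc).prod isCompact_Icc).image ?_
    exact (continuous_pt h).comp (continuous_fst.prodMk
      (continuous_snd.mul (continuous_lamB.comp (h.cont.comp continuous_fst))))
  · rintro x ⟨⟨q, c⟩, ⟨hq, hc'⟩, e⟩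
    have e1 : |c * lamB (ζ q)| ≤ lamB (ζ q) := by
      rw [abs_mul, abs_of_nonneg (h.nonneg q)]
      exact mul_le_of_le_one_left (h.nonneg q) (abs_le.2 hc')
    have e2 : |c * lamB (ζ q)| = lamB (ζ q) := by
      have := x.2
      rw [← e] at this
      rw [← pt_t h e1]
      exact this
    rcases (abs_eq (h.nonneg q)).1 e2 with e3 | e3
    · have : x = edge h 1 abs_one q := Subtype.ext (by rw [← e]; simp only [edge, e3, one_mul])
      rw [this]
      exact (hδ' q hq).1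
    · have : x = edge h (-1) (by simp) q :=
        Subtype.ext (by rw [← e]; simp only [edge, e3, neg_one_mul])
      rw [this]
      exact (hδ' q hq).2
  have hemb := cyl_emb h hl
  obtain ⟨ε, hε, hε'⟩ := exists_eps (hU.preimage hemb.continuous) (by
    intro p hp
    have e1 := abs_tt_eq hl hp
    rcases (hl.le (qq p)).eq_or_lt with e2 | e2
    · refine hSU ?_
      change |(cyl h l p).1.2.2| = lamB (ζ (qq p))
      rw [cyl_t h hl, e1, e2]
    · obtain ⟨a1, a2⟩ := hl.lt _ (qq_mem p) e2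
      have a3 : 0 < lamB (ζ (qq p)) := (hl.nonneg _ (qq_mem p)).trans_lt e2
      refine hBU ⟨(qq p, tt l p / lamB (ζ (qq p))), ⟨⟨⟨a2, (qq_mem p).1.2⟩, abs_le.1 a1⟩,
        abs_le.1 ?_⟩, ?_⟩
      · rw [abs_div, abs_of_pos a3, div_le_one a3, e1]
        exact e2.le
      · simp only [cyl, div_mul_cancel₀ _ a3.ne'])
  obtain ⟨Φ, hΦ1, hΦ2⟩ := exists_homeo hemb (continuous_ro n ε) (continuous_ro (-n) ε)
    (ro_ro (add_neg_cancel n) ε) (ro_ro (neg_add_cancel n) ε) (ro_fix h hl n ε)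
  refine ⟨Φ, fun x => ?_, cyl h l '' {p | 1 - ε ≤ ‖p.1.1‖}, ?_, ?_, fun x hx => ?_⟩
  · by_cases hx : x.1.1.1 ∈ Ω ∧ 0 < x.1.1.2.1 ∧ 1 ≤ |s x.1.1.1|
    · obtain ⟨b1, b2, b3, b4⟩ := hc.rotate x hx.1 hx.2.1 hx.2.2
      obtain ⟨p, p1, p2, p3⟩ := cyl_of_surf h hl x hx.1 hx.2.1 hx.2.2
      obtain ⟨p', q1, q2, q3⟩ := cyl_of_surf h hl (f x) b1 b2 (by rw [b3]; exact hx.2.2)
      have hn : ‖p.1.1‖ = 1 := norm_of_surf h hl (by rw [p3]; exact x.2)
      have ht : th ε p = 2 - |s x.1.1.1| := by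
        rw [th, hn, p2, min_eq_right (by linarith [hx.2.2])]; simp
      rw [← p3, ← q3, hΦ1]
      congr 1
      refine Subtype.ext (Prod.ext ?_ (by rw [q2, b3]; exact p2))
      change p.1.1 * _ = _
      rw [ht, q1, b4, p1]
    · rw [hc.fix x hx]
      by_cases hr : x.1 ∈ range (cyl h l)
      · obtain ⟨p, hp⟩ := hr
        have hn : ‖p.1.1‖ = 1 := norm_of_surf h hl (by rw [hp]; exact x.2)
        have h1 : |p.1.2| ≤ 1 := by
          by_contra h2
          refine hx ⟨?_, ?_, ?_⟩ <;> rw [← hp]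
          · exact h.mem _
          · exact cyl_y h p
          · rw [show s (cyl h l p).1.1 = p.1.2 from congrArg Prod.snd (cyl_us h p)]
            exact (not_le.1 h2).le
        rw [← hp, hΦ1, ro_one n ε h1 hn]
      · exact hΦ2 _ hr
  · refine (IsClosed.isCompact ?_).image hemb.continuous
    exact isClosed_le continuous_const (continuous_fst.comp continuous_subtype_val).norm
  · rintro _ ⟨p, hp, rfl⟩
    exact hε' p hp
  · by_cases hr : x ∈ range (cyl h l)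
    · obtain ⟨p, rfl⟩ := hr
      have h1 : ‖p.1.1‖ < 1 - ε := not_le.1 fun h2 => hx ⟨p, h2, rfl⟩
      rw [hΦ1, ro_zero]
      rw [th, max_eq_left, mul_zero]
      rw [sub_nonpos, le_div_iff₀ hε]
      linarith
    · exact hΦ2 _ hr

end Pool.Agent.Lib.MP_003e01_gt
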