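import Pool.Agent.Lib.MP_003e01_gt.Blue

/-! Block SC: radial scaling near the boundary circles. -/

open Set Topology Filter

namespace Pool.Agent.Lib.MP_003e01_gt

namespace SC

noncomputable def ce (j : Fin 6) : ℝ := if j = 0 then 9 else 3 * (j.val : ℝ)

noncomputable def sg (j : Fin 6) : ℝ := if j = 0 then 1 else -1

noncomputable def lv (j : Fin 6) : ℝ := if j = 0 then 80 else 2

noncomputable def rho (j : Fin 6) (p : ℝ × ℝ) : ℝ := (p.1 - ce j) ^ 2 + p.2 ^ 2

noncomputable def ff (j : Fin 6) (p : ℝ × ℝ) : ℝ := sg j * (rho j p - lv j)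

noncomputable def aa (p : ℝ × ℝ) : ℝ := ∑ j, max 0 (ff j p)

noncomputable def la (j : Fin 6) (s : ℝ) (p : ℝ × ℝ) : ℝ :=
  √(1 + sg j * (s - 1) * max 0 (ff j p) / rho j p)

noncomputable def scl (s : ℝ) (p : ℝ × ℝ) : ℝ × ℝ :=
  (p.1 + ∑ j, (la j s p - 1) * (p.1 - ce j), p.2 + ∑ j, (la j s p - 1) * p.2)

lemma sg_sq (j : Fin 6) : sg j * sg j = 1 := by
  unfold sg
  split_ifs <;> norm_num

lemma sg_cases (j : Fin 6) : sg j = 1 ∨ sg j = -1 := by
  unfold sg
  split_ifs <;> simp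

lemma lv_ge (j : Fin 6) : 2 ≤ lv j := by
  unfold lv
  split_ifs <;> norm_num

lemma ff_zero (p : ℝ × ℝ) : ff 0 p = p.1 ^ 2 + p.2 ^ 2 - 18 * p.1 + 1 := by
  simp only [ff, sg, rho, ce, lv, if_true]
  ring

lemma ff_pos {j : Fin 6} (h : j ≠ 0) (p : ℝ × ℝ) :
    ff j p = 2 - ((p.1 - 3 * (j.val : ℝ)) ^ 2 + p.2 ^ 2) := by
  simp only [ff, sg, rho, ce, lv, if_neg h]
  ring

lemma planar_iff {p : ℝ × ℝ} : p ∈ Planar 5 ↔ ∀ j, ff j p ≤ 1 := by
  constructor
  · rintro ⟨h1, h2⟩ j
    by_cases hj : j = 0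
    · rw [hj, ff_zero]
      push_cast at h1
      linarith
    · rw [ff_pos hj]
      have := h2 j.val (Nat.one_le_iff_ne_zero.2 fun h => hj (Fin.ext h)) (by omega)
      linarith
  · intro h
    refine ⟨?_, fun i h1 h2 => ?_⟩
    · have := h 0
      rw [ff_zero] at this
      push_cast
      linarith
    · have := h ⟨i, by omega⟩
      rw [ff_pos (fun e => by
        have := congrArg Fin.val e
        simp at this
        omega)] at this
      simp only at this
      linarith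

lemma pbd_iff {p : ℝ × ℝ} : p ∈ PBd 5 ↔ p ∈ Planar 5 ∧ ∃ j, ff j p = 1 := by
  refine and_congr_right fun _ => ⟨?_, ?_⟩
  · rintro (h | ⟨i, h1, h2, h⟩)
    · refine ⟨0, ?_⟩
      rw [ff_zero]
      push_cast at h
      linarith
    · refine ⟨⟨i, by omega⟩, ?_⟩
      rw [ff_pos (fun e => by
        have := congrArg Fin.val e
        simp at this
        omega)]
      simp only
      linarith
  · rintro ⟨j, h⟩
    by_cases hj : j = 0
    · rw [hj, ff_zero] at h
      left
      push_cast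
      linarith
    · rw [ff_pos hj] at h
      exact Or.inr ⟨j.val, Nat.one_le_iff_ne_zero.2 fun h => hj (Fin.ext h), by omega, by linarith⟩

lemma rho_ge {p : ℝ × ℝ} (hp : p ∈ Planar 5) (j : Fin 6) : 1 ≤ rho j p := by
  by_cases hj : j = 0
  · have := hp.2 3 (by norm_num) (by norm_num)
    simp only [rho, ce, hj, if_true]
    push_cast at this
    linarith
  · have := hp.2 j.val (Nat.one_le_iff_ne_zero.2 fun h => hj (Fin.ext h)) (by omega)
    simpa only [rho, ce, if_neg hj] using this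

lemma disj0 {k : Fin 6} (hk : k ≠ 0) {p : ℝ × ℝ} (h : 0 ≤ ff 0 p) (h' : 0 ≤ ff k p) : False := by
  rw [ff_zero] at h
  rw [ff_pos hk] at h'
  have h1 : (1 : ℝ) ≤ (k.val : ℝ) := by
    exact_mod_cast Nat.one_le_iff_ne_zero.2 fun h => hk (Fin.ext h)
  have h5 : (k.val : ℝ) ≤ 5 := by
    exact_mod_cast Nat.le_of_lt_succ k.2
  generalize (k.val : ℝ) = r at *
  have e1 : p.1 - 3 * r ≤ 3 / 2 := by nlinarith [sq_nonneg p.2]
  have e2 : -(3 / 2) ≤ p.1 - 3 * r := by nlinarith [sq_nonneg p.2]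
  have e3 : p.2 ^ 2 ≤ 2 := by nlinarith [sq_nonneg (p.1 - 3 * r)]
  nlinarith

lemma disj {j k : Fin 6} (hjk : j ≠ k) {p : ℝ × ℝ} (h : 0 ≤ ff j p) : ff k p < 0 := by
  by_contra h'
  push Not at h'
  by_cases hj : j = 0
  · exact disj0 (hj ▸ hjk.symm) (hj ▸ h) h'
  by_cases hk : k = 0
  · exact disj0 hj (hk ▸ h') h
  rw [ff_pos hj] at h
  rw [ff_pos hk] at h'
  have : (j.val : ℝ) + 1 ≤ k.val ∨ (k.val : ℝ) + 1 ≤ j.val := by
    rcases lt_or_gt_of_ne hjk with h | h
    · left
      exact_mod_cast h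
    · right
      exact_mod_cast h
  generalize (j.val : ℝ) = r at *
  generalize (k.val : ℝ) = u at *
  have e1 : p.1 - 3 * r < 3 / 2 := by nlinarith [sq_nonneg p.2]
  have e2 : -(3 / 2) < p.1 - 3 * r := by nlinarith [sq_nonneg p.2]
  have e3 : p.1 - 3 * u < 3 / 2 := by nlinarith [sq_nonneg p.2]
  have e4 : -(3 / 2) < p.1 - 3 * u := by nlinarith [sq_nonneg p.2]
  rcases this with h | h <;> linarith

lemma la_one {j : Fin 6} {p : ℝ × ℝ} (h : ff j p ≤ 0) (s : ℝ) : la j s p = 1 := by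
  simp [la, max_eq_left h]

lemma aa_eq {j : Fin 6} {p : ℝ × ℝ} (h : 0 ≤ ff j p) : aa p = ff j p := by
  rw [aa, Finset.sum_eq_single j, max_eq_right h]
  · intro k _ hk
    exact max_eq_left (disj hk.symm h).le
  · simp

lemma scl_eq {j : Fin 6} {p : ℝ × ℝ} (h : 0 ≤ ff j p) (s : ℝ) :
    scl s p = (ce j + la j s p * (p.1 - ce j), la j s p * p.2) := by
  rw [scl, Finset.sum_eq_single j, Finset.sum_eq_single j]
  · ext <;> simp only <;> ring
  · intro k _ hk
    rw [la_one (disj hk.symm h).le, sub_self, zero_mul]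
  · simp
  · intro k _ hk
    rw [la_one (disj hk.symm h).le, sub_self, zero_mul]
  · simp

lemma far {p : ℝ × ℝ} (h : ∀ j, ff j p ≤ 0) : aa p = 0 ∧ ∀ s, scl s p = p := by
  refine ⟨Finset.sum_eq_zero fun j _ => max_eq_left (h j), fun s => ?_⟩
  simp [scl, la_one (h _)]

lemma cases' (p : ℝ × ℝ) : (∀ j, ff j p ≤ 0) ∨ ∃ j, 0 ≤ ff j p := by
  by_cases h : ∃ j, 0 ≤ ff j p
  · exact Or.inr h
  · push Not at h
    exact Or.inl fun j => (h j).le

lemma rho_eq (j : Fin 6) (p : ℝ × ℝ) : rho j p = lv j + sg j * ff j p := by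
  rw [ff, ← mul_assoc, sg_sq]
  ring

lemma pos_of {j : Fin 6} {x : ℝ} (h0 : 0 ≤ x) (h1 : x ≤ 1) : 0 < lv j + sg j * x := by
  have := lv_ge j
  rcases sg_cases j with h | h <;> rw [h] <;> linarith

lemma la_eq {j : Fin 6} {p : ℝ × ℝ} (h : 0 ≤ ff j p) (h1 : ff j p ≤ 1) (s : ℝ) :
    la j s p = √((lv j + sg j * (s * ff j p)) / (lv j + sg j * ff j p)) := by
  have := pos_of (j := j) h h1
  rw [la, max_eq_right h, rho_eq]
  congr 1
  field_simp
  ring

lemma ff_scl {j : Fin 6} {p : ℝ × ℝ} (h : 0 ≤ ff j p) (h1 : ff j p ≤ 1) {s : ℝ} (hs : 0 ≤ s)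
    (hs1 : s * ff j p ≤ 1) : ff j (scl s p) = s * ff j p := by
  have p1 := pos_of (j := j) h h1
  have p2 := pos_of (j := j) (mul_nonneg hs h) hs1
  have e : rho j (scl s p) = la j s p ^ 2 * rho j p := by
    rw [scl_eq h]
    simp only [rho]
    ring
  rw [la_eq h h1, Real.sq_sqrt (div_pos p2 p1).le, rho_eq j p, div_mul_cancel₀ _ p1.ne'] at e
  rw [ff, e, add_sub_cancel_left, ← mul_assoc, sg_sq, one_mul]

lemma mem_of {j : Fin 6} {p : ℝ × ℝ} (h : 0 ≤ ff j p) (h1 : ff j p ≤ 1) : p ∈ Planar 5 := by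
  refine planar_iff.2 fun k => ?_
  by_cases hk : j = k
  · exact hk ▸ h1
  · exact (disj hk h).le.trans zero_le_one

lemma cont_rho (j : Fin 6) : Continuous (rho j) := by
  unfold rho
  fun_prop

lemma cont_ff (j : Fin 6) : Continuous (ff j) :=
  continuous_const.mul ((cont_rho j).sub continuous_const)

lemma compact : IsCompact (Planar 5) := by
  have hc : IsClosed (Planar 5) := by
    have : Planar 5 = ⋂ j, {p | ff j p ≤ 1} := by
      ext p
      simp [planar_iff]
    rw [this]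
    exact isClosed_iInter fun j => isClosed_le (cont_ff j) continuous_const
  refine (isCompact_Icc (a := ((0, -9) : ℝ × ℝ)) (b := (18, 9))).of_isClosed_subset hc ?_
  intro p hp
  have h := hp.1
  push_cast at h
  refine ⟨⟨?_, ?_⟩, ⟨?_, ?_⟩⟩ <;> simp only <;>
    nlinarith [sq_nonneg p.1, sq_nonneg p.2, sq_nonneg (p.1 - 9)]

lemma interior_iff {p : ℝ × ℝ} (hp : p ∈ Planar 5) : p ∈ interior (Planar 5) ↔ p ∉ PBd 5 := by
  constructor
  · intro h hb
    obtain ⟨j, hj⟩ := (pbd_iff.1 hb).2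
    let γ : ℝ → ℝ × ℝ := fun ε => (ce j + (1 + sg j * ε) * (p.1 - ce j), (1 + sg j * ε) * p.2)
    have hγ : Continuous γ := by fun_prop
    have h0 : γ 0 = p := by simp [γ]
    have e1 : ∀ᶠ ε in 𝓝 (0 : ℝ), γ ε ∈ Planar 5 :=
      hγ.continuousAt.eventually_mem (h0 ▸ mem_interior_iff_mem_nhds.1 h)
    have e2 : ∀ᶠ ε in 𝓝[>] (0 : ℝ), ε ∈ Ioo (0 : ℝ) 1 := Ioo_mem_nhdsGT one_pos
    obtain ⟨ε, m1, m2, m3⟩ := ((e1.filter_mono nhdsWithin_le_nhds).and e2).exists
    have m4 := planar_iff.1 m1 j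
    have e : rho j (γ ε) = (1 + sg j * ε) ^ 2 * rho j p := by
      simp only [rho, γ]
      ring
    have r := rho_ge hp j
    rw [ff, e] at m4
    rw [ff] at hj
    have q : 0 < ε * (2 - ε) * rho j p := by
      have : 0 < 2 - ε := by linarith
      positivity
    have q' : 0 < ε * (2 + ε) * rho j p := by positivity
    rcases sg_cases j with s | s <;> rw [s] at m4 hj <;> nlinarith
  · intro h
    have ho : IsOpen (⋂ j, {q | ff j q < 1}) :=
      isOpen_iInter_of_finite fun j => isOpen_lt (cont_ff j) continuous_const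
    refine interior_maximal (fun q hq => planar_iff.2 fun j => (mem_iInter.1 hq j).le) ho ?_
    exact mem_iInter.2 fun j =>
      lt_of_le_of_ne (planar_iff.1 hp j) fun e => h (pbd_iff.2 ⟨hp, j, e⟩)

end SC

open SC in
theorem blockSC : StmtSC := by
  refine ⟨aa, scl, compact, ?_, ?_, ?_, ?_, ?_, ?_, ?_, ?_⟩
  · rintro q ⟨h1, h2⟩
    have hq : q ∈ closure (Handlebody 5) := subset_closure ⟨h1, h2⟩
    rw [frontier, Set.mem_sdiff, and_iff_right hq, Handlebody, interior_prod_eq, mem_prod,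
      interior_iff h1, interior_Icc, not_and_or, not_not]
    refine or_congr_right ?_
    rw [mem_Ioo, ← abs_lt, not_lt]
    exact ⟨fun h => le_antisymm (abs_le.2 h2) h, fun h => h.ge⟩
  · exact (continuous_finsetSum _ fun j _ => continuous_const.max (cont_ff j)).continuousOn
  · intro p hp
    rcases cases' p with h | ⟨j, h⟩
    · rw [(far h).1]
      refine ⟨le_rfl, zero_le_one, fun e => absurd e zero_ne_one, fun hb => ?_⟩
      obtain ⟨j, hj⟩ := (pbd_iff.1 hb).2
      linarith [h j]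
    · rw [aa_eq h]
      refine ⟨h, planar_iff.1 hp j, fun e => pbd_iff.2 ⟨hp, j, e⟩, fun hb => ?_⟩
      obtain ⟨k, hk⟩ := (pbd_iff.1 hb).2
      by_cases hjk : j = k
      · exact hjk ▸ hk
      · linarith [disj hjk h]
  · have hl : ∀ j, ContinuousOn (fun q : ℝ × ℝ × ℝ => la j q.1 q.2)
        {q | q.2 ∈ Planar 5 ∧ 0 ≤ q.1 ∧ q.1 * aa q.2 ≤ 1} := by
      intro j
      refine ContinuousOn.sqrt (continuousOn_const.add (ContinuousOn.div ?_ ?_ ?_))
      · exact ((continuous_const.mul (continuous_fst.sub continuous_const)).mul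
          (continuous_const.max ((cont_ff j).comp continuous_snd))).continuousOn
      · exact ((cont_rho j).comp continuous_snd).continuousOn
      · intro q hq
        linarith [rho_ge hq.1 j]
    refine ContinuousOn.prodMk ?_ ?_
    · exact continuous_snd.fst.continuousOn.add (continuousOn_finsetSum _ fun j _ =>
        ((hl j).sub continuousOn_const).mul (continuous_snd.fst.sub continuous_const).continuousOn)
    · exact continuous_snd.snd.continuousOn.add (continuousOn_finsetSum _ fun j _ =>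
        ((hl j).sub continuousOn_const).mul continuous_snd.snd.continuousOn)
  · intro p hp s hs hs1
    rcases cases' p with h | ⟨j, h⟩
    · rw [(far h).2, (far h).1, mul_zero]
      exact ⟨hp, rfl⟩
    · rw [aa_eq h] at hs1 ⊢
      have e := ff_scl h (planar_iff.1 hp j) hs hs1
      have e0 : 0 ≤ ff j (scl s p) := e ▸ mul_nonneg hs h
      exact ⟨mem_of e0 (e ▸ hs1), by rw [aa_eq e0, e]⟩
  · intro p _
    simp [scl, la]
  · intro p hp s t hs ht ht1 hst
    rcases cases' p with h | ⟨j, h⟩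
    · rw [(far h).2, (far h).2, (far h).2]
    · rw [aa_eq h] at ht1 hst
      have h1 := planar_iff.1 hp j
      have e := ff_scl h h1 ht ht1
      have e0 : 0 ≤ ff j (scl t p) := e ▸ mul_nonneg ht h
      have p1 := pos_of (j := j) h h1
      have p2 := pos_of (j := j) (mul_nonneg ht h) ht1
      have p3 := pos_of (j := j) (mul_nonneg (mul_nonneg hs ht) h) hst
      have key : la j s (scl t p) * la j t p = la j (s * t) p := by
        rw [la_eq e0 (e ▸ ht1), e, la_eq h h1, la_eq h h1, ← mul_assoc s t,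
          ← Real.sqrt_mul (div_pos p3 p2).le, div_mul_div_cancel₀ p2.ne']
      rw [scl_eq e0 s, scl_eq h (s * t), ← key]
      generalize la j s (scl t p) = x
      rw [scl_eq h t]
      ext <;> simp only <;> ring
  · intro p _ h0 s
    rcases cases' p with h | ⟨j, h⟩
    · exact (far h).2 s
    · rw [aa_eq h] at h0
      rw [scl_eq h, la_one h0.le]
      ext <;> simp

end Pool.Agent.Lib.MP_003e01_gt
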