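import Pool.Agent.Lib.MP_003e01_gt.Blue

/-! Block SEP: uniform separation of axes. -/

open Set Topology

namespace Pool.Agent.Lib.MP_003e01_gt

namespace SEP

lemma unif {ι : Type} {F : Set ι} (hF : F.Finite) {K : Set X} (hK : IsCompact K) (f : ι → X → ℝ)
    (hc : ∀ i, Continuous (f i)) (hp : ∀ i ∈ F, ∀ z ∈ K, 0 < f i z) :
    ∃ δ : ℝ, 0 < δ ∧ ∀ i ∈ F, ∀ z ∈ K, δ ≤ f i z := by
  have h1 : IsCompact (⋃ i ∈ F, f i '' K) := hF.isCompact_biUnion fun i _ => hK.image (hc i)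
  obtain ⟨δ, h2, h3⟩ := h1.exists_forall_le' (f := fun x : ℝ => x) continuousOn_id (a := 0) (by
    intro b hb
    simp only [mem_iUnion, mem_image] at hb
    obtain ⟨i, hi, z, hz, rfl⟩ := hb
    exact hp i hi z hz)
  exact ⟨δ, h2, fun i hi z hz => h3 _ (mem_biUnion hi (mem_image_of_mem _ hz))⟩

lemma zpow_flowX (h : Geo) {g : W} {a : Axis} (ha : a.For g) (m : ℤ) (z : X) :
    g ^ m • z = a.flowX m z :=
  Subtype.ext (h.ax.zpow g a ha m z.1)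

lemma lor_zpow (h : Geo) {g : W} {a : Axis} (ha : a.For g) (m : ℤ) (z : X) :
    lor (g ^ m • z).1 a.n = lor z.1 a.n := by
  rw [zpow_flowX h ha, Axis.flowX_val, Axis.lor_flow_n]

lemma strip (h : Geo) {g : W} {a : Axis} (ha : a.For g) :
    ∃ K : Set X, IsCompact K ∧ ∀ z : X, |lor z.1 a.n| ≤ 1 → ∃ m : ℤ, g ^ m • z ∈ K := by
  obtain ⟨e, ⟨h1, h2⟩, -⟩ := h.ax.fermi a
  refine ⟨e '' (Icc 0 1 ×ˢ Icc (-1) 1), (isCompact_Icc.prod isCompact_Icc).image e.continuous,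
    fun z hz => ?_⟩
  obtain ⟨q, rfl⟩ := e.surjective z
  rw [h1] at hz
  refine ⟨-⌊q.1⌋, ?_⟩
  rw [zpow_flowX h ha, h2]
  refine mem_image_of_mem _ ⟨⟨?_, ?_⟩, abs_le.1 hz⟩
  · push_cast; linarith [Int.floor_le q.1]
  · push_cast; linarith [Int.lt_floor_add_one q.1]

lemma cont_lor (w : W) (n : V) : Continuous fun z : X => |lor (w • z).1 n| :=
  ((continuous_lor_left n).comp (continuous_const_smul w)).abs

lemma part2 (h : Geo) (K : Set X) (g : G) (a : Axis) (T : Set W) (hK : IsCompact K)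
    (ha : a.For g.1) (hT : ∀ w ∈ T, g.1 * w ∈ T ∧ g.1⁻¹ * w ∈ T)
    (hne : ∀ w ∈ T, ∀ z ∈ K, lor (w • z).1 a.n ≠ 0) :
    ∃ ε : ℝ, 0 < ε ∧ ∀ w ∈ T, ∀ z ∈ K, ε < |lor (w • z).1 a.n| := by
  have hT' : ∀ (m : ℤ), ∀ w ∈ T, g.1 ^ m * w ∈ T := by
    intro m
    induction m using Int.induction_on with
    | zero => simp
    | succ n ih =>
      intro w hw
      rw [zpow_add_one, mul_assoc]
      exact ih _ (hT w hw).1
    | pred n ih =>
      intro w hw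
      rw [zpow_sub_one, mul_assoc]
      exact ih _ (hT w hw).2
  obtain ⟨L, hL, hL'⟩ := strip h ha
  have hF := (h.b1.proper K L hK hL).inter_of_left T
  obtain ⟨δ, h0, h1⟩ := unif hF hK (fun w z => |lor (w • z).1 a.n|) (fun w => cont_lor w _)
    fun w hw z hz => abs_pos.2 (hne w hw.2 z hz)
  refine ⟨min (δ / 2) 1, lt_min (by linarith) one_pos, fun w hw z hz => ?_⟩
  by_cases hc : |lor (w • z).1 a.n| ≤ 1
  · obtain ⟨m, hm⟩ := hL' _ hc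
    have h2 := h1 (g.1 ^ m * w) ⟨⟨z, hz, by rwa [mul_smul]⟩, hT' m w hw⟩ z hz
    simp only [mul_smul, lor_zpow h ha] at h2
    exact lt_of_le_of_lt (min_le_left _ _) (by linarith)
  · exact lt_of_le_of_lt (min_le_right _ _) (not_le.1 hc)

lemma core (h : Geo) (g k : G) (a b : Axis) (ha : a.For g.1) (hb : b.For k.1) (T : Set G)
    (hT : ∀ γ ∈ T, ∀ i j : ℤ, k ^ i * γ * g ^ j ∈ T)
    (hne : ∀ γ ∈ T, ∀ z : X, lor z.1 a.n = 0 → lor (γ • z).1 b.n ≠ 0) :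
    ∃ ε : ℝ, 0 < ε ∧ ∀ γ ∈ T, ∀ z : X, |lor z.1 a.n| ≤ ε → ε < |lor (γ • z).1 b.n| := by
  obtain ⟨K, hK, hK'⟩ := strip h ha
  obtain ⟨L, hL, hL'⟩ := strip h hb
  have hF := (((h.b1.proper K L hK hL).preimage
    (f := fun γ : G => γ.1) Subtype.val_injective.injOn)).inter_of_left T
  obtain ⟨δ, h0, h1⟩ := unif hF hK (fun γ z => |lor z.1 a.n| + |lor (γ.1 • z).1 b.n|)
    (fun γ => (continuous_lor_left _).abs.add (cont_lor _ _)) (by
      intro γ hγ z _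
      by_cases hz : lor z.1 a.n = 0
      · exact add_pos_of_nonneg_of_pos (abs_nonneg _) (abs_pos.2 (hne γ hγ.2 z hz))
      · exact add_pos_of_pos_of_nonneg (abs_pos.2 hz) (abs_nonneg _))
  refine ⟨min (δ / 3) 1, lt_min (by linarith) one_pos, fun γ hγ z hz => ?_⟩
  by_contra hc
  rw [not_lt] at hc
  obtain ⟨m, hm⟩ := hK' z (hz.trans (min_le_right _ _))
  obtain ⟨l, hl⟩ := hL' (γ • z) (hc.trans (min_le_right _ _))
  have e : (k ^ l * γ * g ^ (-m) : G).1 • g.1 ^ m • z = k.1 ^ l • γ • z := by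
    rw [← mul_smul, Subgroup.smul_def, ← mul_smul]
    congr 1
    push_cast
    group
  have h2 := h1 (k ^ l * γ * g ^ (-m)) ⟨⟨_, hm, by rw [e]; exact hl⟩, hT γ hγ _ _⟩ _ hm
  simp only [e, lor_zpow h ha, lor_zpow h hb] at h2
  have h3 := min_le_left (δ / 3) 1
  linarith

variable {Z : Type} [LinearOrder Z] [MulAction G Z] (C : CG G Z) (ν : Z → V)

lemma tri (h : Geo) (hl : Link C.att ν) (g k : G) (a b : Axis) (ha : a.For g.1) (hb : b.For k.1)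
    (hg : C.Prim g) (hk : C.Prim k) (γ : G) (z : X) (h1 : lor z.1 a.n = 0)
    (h2 : lor (γ • z).1 b.n = 0) :
    C.Meets g k ∨ g = γ⁻¹ * k * γ⁻¹⁻¹ ∨ g = (γ⁻¹ * k * γ⁻¹⁻¹)⁻¹ := by
  have B := h.b2b Z C.att ν hl
  have A := h.a1 G Z C
  obtain ⟨b', hb', -, -, hn, -⟩ := h.ax.conj k.1 (γ⁻¹ : G).1 b hb
  have hc : chB (γ⁻¹ : G).1 * chR (γ⁻¹ : G).1 = 1 := by
    obtain ⟨e1, e2⟩ := (γ⁻¹ : G).2
    rw [e1, e2, one_mul]
  rw [hc, one_smul] at hn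
  have hb1 : b'.For (γ⁻¹ * k * γ⁻¹⁻¹ : G).1 := hb'
  have hs : Same k (γ⁻¹ * k * γ⁻¹⁻¹) := Or.inl (isConj_iff.2 ⟨γ⁻¹, rfl⟩)
  have h3 : lor z.1 b'.n = 0 := by
    rw [hn, ← lor_smul γ.1, ← mul_smul]
    have : γ.1 * (γ⁻¹ : G).1 = 1 := by simp
    rw [this, one_smul]
    exact h2
  rcases (B.cross_iff g _ a b' ha hb1).2.2.2.1 z h1 h3 with h4 | h4 | h4
  · exact Or.inl ⟨g, _, Same.refl g, hs, h4⟩
  · exact Or.inr (Or.inl (A.prim_eq _ _ hg (A.prim_same _ _ hk hs)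
      ((B.cross_iff g _ a b' ha hb1).2.2.2.2.1 h4).1))
  · obtain ⟨b'', hb'', -, -, hn', -⟩ := h.ax.inv _ b' hb1
    have hb2 : b''.For ((γ⁻¹ * k * γ⁻¹⁻¹)⁻¹ : G).1 := hb''
    have hs' : Same k (γ⁻¹ * k * γ⁻¹⁻¹)⁻¹ :=
      hs.trans (Or.inr (IsConj.refl _))
    exact Or.inr (Or.inr (A.prim_eq _ _ hg (A.prim_same _ _ hk hs')
      ((B.cross_iff g _ a b'' ha hb2).2.2.2.2.1 (h4.trans hn'.symm)).1))

lemma comm_mem {g γ : G} (hg : C.Prim g) (h : γ * g * γ⁻¹ = g) : γ ∈ Subgroup.zpowers g := by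
  refine hg.2 γ ?_
  rw [← C.att_conj g γ hg.1, h]

lemma anti_mem {g γ : G} (hg : C.Prim g) (h : γ * g * γ⁻¹ = g⁻¹) : γ = 1 := by
  have h1 : (γ * γ) * g * (γ * γ)⁻¹ = g := by
    have : (γ * γ) * g * (γ * γ)⁻¹ = γ * (γ * g * γ⁻¹) * γ⁻¹ := by group
    rw [this, h]
    have : γ * g⁻¹ * γ⁻¹ = (γ * g * γ⁻¹)⁻¹ := by group
    rw [this, h, inv_inv]
  obtain ⟨m, hm⟩ := Subgroup.mem_zpowers_iff.1 (comm_mem C hg h1)
  have h2 : γ * g ^ m * γ⁻¹ = (g ^ m)⁻¹ := by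
    rw [← conj_zpow, h, inv_zpow]
  rw [hm] at h2
  by_contra hne
  refine (C.att_pow γ 4 hne (by norm_num)).1 ?_
  have : γ ^ 4 = (γ * (γ * γ) * γ⁻¹) * (γ * γ) := by
    simp only [pow_succ, pow_zero, one_mul]; group
  rw [this, h2]; group

end SEP

theorem blockSEP (h : Geo) : StmtSEP := by
  refine ⟨fun Z _ _ C ν hl => ⟨fun g a ha hg => ?_, fun g k a b ha hb hg hk hm hs => ?_⟩,
    fun K g a T => SEP.part2 h K g a T⟩
  · obtain ⟨ε, h0, h1⟩ := SEP.core h g g a a ha ha {γ | γ ∉ Subgroup.zpowers g} (by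
      intro γ hγ i j hc
      refine hγ ?_
      have : γ = (g ^ i)⁻¹ * (g ^ i * γ * g ^ j) * (g ^ j)⁻¹ := by group
      rw [this]
      exact Subgroup.mul_mem _ (Subgroup.mul_mem _
        (Subgroup.inv_mem _ (Subgroup.zpow_mem_zpowers g i)) hc)
        (Subgroup.inv_mem _ (Subgroup.zpow_mem_zpowers g j))) (by
      intro γ hγ z h1 h2
      refine hγ ?_
      rcases SEP.tri C ν h hl g g a a ha ha hg.1 hg.1 γ z h1 h2 with h3 | h3 | h3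
      · exact absurd h3 hg.2
      · exact (Subgroup.inv_mem_iff _).1 (SEP.comm_mem C hg.1 h3.symm)
      · have : γ⁻¹ = 1 := SEP.anti_mem C hg.1 (by rw [← inv_eq_iff_eq_inv] at h3; exact h3.symm)
        rw [inv_eq_one.1 this]
        exact Subgroup.one_mem _)
    refine ⟨ε / 2, by linarith, fun γ z h2 h3 => ?_⟩
    by_contra hc
    have := h1 γ hc z (by linarith)
    linarith
  · obtain ⟨ε, h0, h1⟩ := SEP.core h g k a b ha hb univ (fun _ _ _ _ => mem_univ _) (by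
      intro γ _ z h1 h2
      have hs' : Same k (γ⁻¹ * k * γ⁻¹⁻¹) := Or.inl (isConj_iff.2 ⟨γ⁻¹, rfl⟩)
      rcases SEP.tri C ν h hl g k a b ha hb hg hk γ z h1 h2 with h3 | h3 | h3
      · exact hm h3
      · exact hs (h3 ▸ hs'.symm)
      · refine hs (Same.symm ?_)
        rw [h3]
        exact hs'.trans (Or.inr (IsConj.refl _)))
    exact ⟨ε, h0, fun γ z hz => h1 γ (mem_univ _) z hz⟩

end Pool.Agent.Lib.MP_003e01_gt
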