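import Pool.Agent.Lib.MP_003e01_gt.A1
import Pool.Agent.Lib.MP_003e01_gt.A1P
import Pool.Agent.Lib.MP_003e01_gt.A2
import Pool.Agent.Lib.MP_003e01_gt.A3
import Pool.Agent.Lib.MP_003e01_gt.A4
import Pool.Agent.Lib.MP_003e01_gt.A5
import Pool.Agent.Lib.MP_003e01_gt.A6
import Pool.Agent.Lib.MP_003e01_gt.A7
import Pool.Agent.Lib.MP_003e01_gt.B1
import Pool.Agent.Lib.MP_003e01_gt.Glue
import Pool.Agent.Lib.MP_003e01_gt.Ax
import Pool.Agent.Lib.MP_003e01_gt.B2a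
import Pool.Agent.Lib.MP_003e01_gt.B2b
import Pool.Agent.Lib.MP_003e01_gt.B2c
import Pool.Agent.Lib.MP_003e01_gt.B2d
import Pool.Agent.Lib.MP_003e01_gt.C1
import Pool.Agent.Lib.MP_003e01_gt.C2
import Pool.Agent.Lib.MP_003e01_gt.CW1
import Pool.Agent.Lib.MP_003e01_gt.CW2
import Pool.Agent.Lib.MP_003e01_gt.C3
import Pool.Agent.Lib.MP_003e01_gt.C4
import Pool.Agent.Lib.MP_003e01_gt.D1
import Pool.Agent.Lib.MP_003e01_gt.Mir
import Pool.Agent.Lib.MP_003e01_gt.D1b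
import Pool.Agent.Lib.MP_003e01_gt.D2
import Pool.Agent.Lib.MP_003e01_gt.D3a
import Pool.Agent.Lib.MP_003e01_gt.D3b
import Pool.Agent.Lib.MP_003e01_gt.SEP
import Pool.Agent.Lib.MP_003e01_gt.E1
import Pool.Agent.Lib.MP_003e01_gt.E2
import Pool.Agent.Lib.MP_003e01_gt.EXT
import Pool.Agent.Lib.MP_003e01_gt.PushA1
import Pool.Agent.Lib.MP_003e01_gt.PushA2
import Pool.Agent.Lib.MP_003e01_gt.PushB
import Pool.Agent.Lib.MP_003e01_gt.Lens
import Pool.Agent.Lib.MP_003e01_gt.KAP1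
import Pool.Agent.Lib.MP_003e01_gt.KAP2
import Pool.Agent.Lib.MP_003e01_gt.DBL
import Pool.Agent.Lib.MP_003e01_gt.SC
import Pool.Agent.Lib.MP_003e01_gt.PL
import Pool.Agent.Lib.MP_003e01_gt.M2
import Pool.Agent.Lib.MP_003e01_gt.M
import Pool.Agent.Lib.MP_003e01_gt.Fb

/-! All blocks together. -/

namespace Pool.Agent.Lib.MP_003e01_gt

theorem geo : Geo :=
  ⟨blockB1, blockGlue blockB1, blockAx blockB1, blockB2b blockB1 (blockAx blockB1), blockA1,
    blockA1P blockA1⟩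

theorem main :
    ∃ (M : Type) (_ : TopologicalSpace M) (_ : T2Space M) (_ : CompactSpace M)
      (_ : ChartedSpace (EuclideanSpace ℝ (Fin 3)) M) (A B : Set M), IsHeegaardSplitting 5 A B ∧
      (∃ f, IsRestrictedAut A B f ∧ ¬ f.Homotopic (ContinuousMap.id _)) ∧
      ∀ f, IsRestrictedAut A B f →
        f.Homotopic (ContinuousMap.id _) ∨ (¬ IsPeriodic f ∧ ¬ IsReducible f) :=
  blockF geo (blockA5 geo.a1 geo.a1p (blockA2 geo.a1) (blockA3 geo.a1 geo.a1p) blockA4)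
    (blockA6 geo.a1 geo.a1p) (blockA7 geo.a1) (blockB2a geo.b1 geo.ax)
    (blockB2c geo.b1 geo.ax geo.b2b) (blockB2d geo.b1 geo.ax geo.b2b) (blockC2 geo (blockC1 geo))
    (blockCW2 geo (blockC1 geo) (blockCW1 geo (blockC1 geo))) (blockC3 geo (blockC1 geo))
    (blockC4 geo (blockC1 geo) (blockC2 geo (blockC1 geo))) (blockD1 geo) (blockD1b geo blockMir)
    (blockD2 geo) (blockD3a geo) (blockD3b geo) (blockSEP geo) (blockE1 geo) (blockE2 geo) blockEXT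
    (blockPushA1 geo) (blockPushA2 geo) blockPushB
    (blockDBL (blockKAP1 geo blockLens) (blockKAP2 blockLens)) blockSC blockPL (blockM blockM2)

end Pool.Agent.Lib.MP_003e01_gt
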