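import Pool.Agent.Lib.MP_003e01_gt.Abs

/-! The hyperboloid model, the right-angled 12-gon reflection group and the six curves. -/

open Set Topology

namespace Pool.Agent.Lib.MP_003e01_gt

abbrev V : Type := Fin 3 → ℝ

/-- Lorentz form -/
def lor (x y : V) : ℝ := x 0 * y 0 + x 1 * y 1 - x 2 * y 2

def det3 (x y z : V) : ℝ :=
  x 0 * (y 1 * z 2 - y 2 * z 1) - x 1 * (y 0 * z 2 - y 2 * z 0) + x 2 * (y 0 * z 1 - y 1 * z 0)

/-- future null vectors -/
def Null (x : V) : Prop := lor x x = 0 ∧ 0 < x 2

/-- the hyperbolic plane -/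
def X : Type := {x : V // lor x x = -1 ∧ 0 < x 2}

instance : TopologicalSpace X := instTopologicalSpaceSubtype

/-- centre of the polygon -/
def x0 : X := ⟨![0, 0, 1], by simp [lor], by simp⟩

/-- pole of side `i` of the regular right-angled 12-gon; even sides are blue, odd sides red -/
noncomputable def pole (i : Fin 12) : V :=
  ![√(4 + 2 * √3) * Real.cos (i * Real.pi / 6), √(4 + 2 * √3) * Real.sin (i * Real.pi / 6),
    √(3 + 2 * √3)]

def Adjacent (i j : Fin 12) : Prop := j = i + 1 ∨ i = j + 1

instance (i j : Fin 12) : Decidable (Adjacent i j) := by unfold Adjacent; infer_instance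

/-- Coxeter matrix of the right-angled 12-gon -/
def cm : CoxeterMatrix (Fin 12) where
  M := Matrix.of fun i j => if i = j then 1 else if Adjacent i j then 2 else 0

abbrev W : Type := cm.Group

noncomputable abbrev cs : CoxeterSystem cm W := cm.toCoxeterSystem

/-- simple reflections and words -/
noncomputable abbrev sr (i : Fin 12) : W := cs.simple i

noncomputable abbrev wd (l : List (Fin 12)) : W := cs.wordProd l

lemma lor_pole_sub (i j : Fin 12) :
    lor (pole i) (pole j) = (4 + 2 * √3) * Real.cos ((i - j) * Real.pi / 6) - (3 + 2 * √3) := by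
  have h1 : √(4 + 2 * √3) * √(4 + 2 * √3) = 4 + 2 * √3 := Real.mul_self_sqrt (by positivity)
  have h2 : √(3 + 2 * √3) * √(3 + 2 * √3) = 3 + 2 * √3 := Real.mul_self_sqrt (by positivity)
  have h3 : ((i : ℝ) - j) * Real.pi / 6 = i * Real.pi / 6 - j * Real.pi / 6 := by ring
  simp only [lor, pole, Matrix.cons_val_zero, Matrix.cons_val_one, Matrix.cons_val, h3, Real.cos_sub]
  linear_combination (Real.cos (i * Real.pi / 6) * Real.cos (j * Real.pi / 6) +
    Real.sin (i * Real.pi / 6) * Real.sin (j * Real.pi / 6)) * h1 - h2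

lemma lor_pole_self (i : Fin 12) : lor (pole i) (pole i) = 1 := by
  rw [lor_pole_sub]; simp; ring

lemma lor_comm (x y : V) : lor x y = lor y x := by simp only [lor]; ring

lemma lor_pole_succ (i : Fin 12) : lor (pole i) (pole (i + 1)) = 0 := by
  have h3 : √3 * √3 = 3 := Real.mul_self_sqrt (by norm_num)
  have key : Real.cos ((((i : ℕ) : ℝ) - (((i + 1 : Fin 12) : ℕ) : ℝ)) * Real.pi / 6) = √3 / 2 := by
    by_cases h : i = 11
    · subst h
      have : ((((11 : Fin 12) : ℕ) : ℝ) - (((11 + 1 : Fin 12) : ℕ) : ℝ)) * Real.pi / 6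
          = 2 * Real.pi - Real.pi / 6 := by
        have e1 : ((11 : Fin 12) : ℕ) = 11 := rfl
        have e2 : ((11 + 1 : Fin 12) : ℕ) = 0 := rfl
        rw [e1, e2]; push_cast; ring
      rw [this, Real.cos_two_pi_sub, Real.cos_pi_div_six]
    · have e : ((i + 1 : Fin 12) : ℕ) = i + 1 := by
        rw [Fin.val_add_one_of_lt]; exact lt_of_le_of_ne (Fin.le_last i) h
      have : (((i : ℕ) : ℝ) - (((i + 1 : Fin 12) : ℕ) : ℝ)) * Real.pi / 6 = -(Real.pi / 6) := by
        rw [e]; push_cast; ring
      rw [this, Real.cos_neg, Real.cos_pi_div_six]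
  rw [lor_pole_sub, key]; linear_combination h3

lemma lor_pole_adj {i j : Fin 12} (h : Adjacent i j) : lor (pole i) (pole j) = 0 := by
  rcases h with rfl | rfl
  · exact lor_pole_succ i
  · rw [lor_comm]; exact lor_pole_succ j

/-- reflection in side `i` -/
noncomputable def reflV (i : Fin 12) : V →ₗ[ℝ] V where
  toFun x := x - (2 * lor x (pole i)) • pole i
  map_add' x y := by ext k; simp only [lor, Pi.add_apply, Pi.sub_apply, Pi.smul_apply, smul_eq_mul]; ring
  map_smul' c x := by
    ext k; simp only [lor, Pi.sub_apply, Pi.smul_apply, smul_eq_mul, RingHom.id_apply]; ring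

lemma reflV_apply (i : Fin 12) (x : V) : reflV i x = x - (2 * lor x (pole i)) • pole i := rfl

lemma lor_sub_smul (x y z : V) (c : ℝ) : lor (x - c • y) z = lor x z - c * lor y z := by
  simp only [lor, Pi.sub_apply, Pi.smul_apply, smul_eq_mul]; ring

lemma reflV_reflV (i : Fin 12) (x : V) : reflV i (reflV i x) = x := by
  rw [reflV_apply, reflV_apply, lor_sub_smul, lor_pole_self]
  ext k; simp only [Pi.sub_apply, Pi.smul_apply, smul_eq_mul]; ring

lemma reflV_comm {i j : Fin 12} (h : Adjacent i j) (x : V) :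
    reflV i (reflV j x) = reflV j (reflV i x) := by
  have h1 := lor_pole_adj h
  have h2 : lor (pole j) (pole i) = 0 := by rw [lor_comm]; exact h1
  rw [reflV_apply, reflV_apply, reflV_apply, reflV_apply, lor_sub_smul, lor_sub_smul, h1, h2]
  ext k; simp only [Pi.sub_apply, Pi.smul_apply, smul_eq_mul]; ring

lemma reflV_liftable : cm.IsLiftable (fun i => (reflV i : Module.End ℝ V)) := by
  intro i j
  by_cases h : i = j
  · subst h
    have : cm i i = 1 := cm.diagonal i
    rw [this, pow_one]; exact LinearMap.ext fun x => reflV_reflV i x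
  · by_cases h' : Adjacent i j
    · have : cm i j = 2 := by simp [cm, h, h']
      rw [this, pow_two]; refine LinearMap.ext fun x => ?_
      show reflV i (reflV j (reflV i (reflV j x))) = x
      rw [reflV_comm h' x, reflV_reflV, reflV_reflV]
    · have : cm i j = 0 := by simp [cm, h, h']
      rw [this, pow_zero]

/-- the linear representation -/
noncomputable def rep : W →* Module.End ℝ V := cs.lift ⟨_, reflV_liftable⟩

noncomputable instance : MulAction W V where
  smul w x := rep w x
  one_smul x := by show rep 1 x = x; simp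
  mul_smul a b x := by show rep (a * b) x = rep a (rep b x); simp

lemma smul_def (w : W) (x : V) : w • x = rep w x := rfl

lemma sr_smul (i : Fin 12) (x : V) : sr i • x = x - (2 * lor x (pole i)) • pole i := by
  rw [smul_def, rep, CoxeterSystem.lift_apply_simple]; rfl

lemma lor_smul (w : W) (x y : V) : lor (w • x) (w • y) = lor x y := by
  induction w using cs.simple_induction_left with
  | one => simp
  | mul_simple_left w i ih =>
    rw [mul_smul, mul_smul, sr_smul, sr_smul, lor_sub_smul, lor_comm (w • x), lor_sub_smul,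
      lor_comm (pole i) (w • y - _), lor_sub_smul, lor_pole_self, lor_comm (w • y) (w • x), ih,
      lor_comm (pole i) (w • x)]
    ring

/-- future timelike or null vectors stay in the future -/
lemma future_of_lor {x y : V} (hx : lor x x ≤ 0) (hx2 : 0 < x 2) (hy : lor y y ≤ 0)
    (hxy : lor x y < 0) : 0 < y 2 := by
  by_contra h
  push Not at h
  simp only [lor] at hx hy hxy
  have h1 : x 0 * y 0 + x 1 * y 1 < 0 := by nlinarith
  have h2 : (x 0 * y 0 + x 1 * y 1) ^ 2 ≤ (x 2 * y 2) ^ 2 := by
    have : (x 0 * y 0 + x 1 * y 1) ^ 2 ≤ (x 0 * x 0 + x 1 * x 1) * (y 0 * y 0 + y 1 * y 1) := by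
      nlinarith [sq_nonneg (x 0 * y 1 - x 1 * y 0)]
    calc _ ≤ _ := this
      _ ≤ (x 2 * x 2) * (y 2 * y 2) := by
        apply mul_le_mul <;> nlinarith [mul_self_nonneg (y 0), mul_self_nonneg (y 1)]
      _ = _ := by ring
  nlinarith [mul_nonneg hx2.le (neg_nonneg.2 h)]

lemma sr_future (i : Fin 12) {x : V} (hx : lor x x ≤ 0) (hx2 : 0 < x 2) : 0 < (sr i • x) 2 := by
  by_cases h : lor x (pole i) = 0
  · rw [sr_smul, h]; simpa using hx2
  · refine future_of_lor hx hx2 (by rwa [lor_smul]) ?_
    rw [lor_comm, sr_smul, lor_sub_smul, lor_comm (pole i) x]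
    nlinarith [mul_self_pos.2 h]

lemma smul_future (w : W) {x : V} (hx : lor x x ≤ 0) (hx2 : 0 < x 2) : 0 < (w • x) 2 := by
  induction w using cs.simple_induction_left with
  | one => simpa
  | mul_simple_left w i ih => rw [mul_smul]; exact sr_future i (by rwa [lor_smul]) ih

noncomputable instance : MulAction W X where
  smul w x := ⟨w • x.1, by rw [lor_smul]; exact x.2.1, smul_future w (by rw [x.2.1]; norm_num) x.2.2⟩
  one_smul x := Subtype.ext (one_smul W x.1)
  mul_smul a b x := Subtype.ext (mul_smul a b x.1)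

lemma smul_val (w : W) (x : X) : (w • x).1 = w • x.1 := rfl

/-- sign characters: `chB` counts blue (even) letters, `chR` red (odd) letters -/
noncomputable def chB : W →* ℝ :=
  cs.lift ⟨fun i => if i.val % 2 = 0 then -1 else 1, by
    intro i j
    by_cases h : i = j
    · subst h; have : cm i i = 1 := cm.diagonal i
      rw [this]; dsimp only; split_ifs <;> norm_num
    · by_cases h' : Adjacent i j
      · have : cm i j = 2 := by simp [cm, h, h']
        rw [this]; dsimp only; split_ifs <;> norm_num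
      · have : cm i j = 0 := by simp [cm, h, h']
        rw [this, pow_zero]⟩

noncomputable def chR : W →* ℝ :=
  cs.lift ⟨fun i => if i.val % 2 = 0 then 1 else -1, by
    intro i j
    by_cases h : i = j
    · subst h; have : cm i i = 1 := cm.diagonal i
      rw [this]; dsimp only; split_ifs <;> norm_num
    · by_cases h' : Adjacent i j
      · have : cm i j = 2 := by simp [cm, h, h']
        rw [this]; dsimp only; split_ifs <;> norm_num
      · have : cm i j = 0 := by simp [cm, h, h']
        rw [this, pow_zero]⟩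

/-- killing the blue generators -/
noncomputable def redH : W →* W :=
  cs.lift ⟨fun i => if i.val % 2 = 0 then 1 else sr i, by
    intro i j
    by_cases h : i = j
    · subst h; have : cm i i = 1 := cm.diagonal i
      rw [this]; dsimp only; split_ifs <;> simp
    · by_cases h' : Adjacent i j
      · have h2 : cm i j = 2 := by simp [cm, h, h']
        have h3 := cs.simple_mul_simple_pow i j
        rw [h2] at h3 ⊢; dsimp only; split_ifs <;> simp [h3]
      · have : cm i j = 0 := by simp [cm, h, h']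
        rw [this, pow_zero]⟩

/-- the surface group (genus 5), of index 4 -/
noncomputable def GS : Subgroup W where
  carrier := {w | chB w = 1 ∧ chR w = 1}
  one_mem' := by simp
  mul_mem' := by rintro a b ⟨h1, h2⟩ ⟨h3, h4⟩; simp [h1, h2, h3, h4]
  inv_mem' := by rintro a ⟨h1, h2⟩; simp [h1, h2]

abbrev G : Type := GS

/-- kernel of the map to the fundamental group of the handlebody -/
noncomputable def NS : Subgroup G := (redH.comp GS.subtype).ker

/-- the fundamental polygon -/
def Q : Set X := {z | ∀ i, lor z.1 (pole i) ≤ 0}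

def rot (k : Fin 3) (i : Fin 12) : Fin 12 := i + 4 * ⟨k.val, by omega⟩

def sWord : List (Fin 12) := [1, 11, 0, 3, 5, 7, 3, 0, 9, 5, 7, 9, 1, 11, 0, 3, 6, 9]

lemma chB_sr (i : Fin 12) : chB (sr i) = if i.val % 2 = 0 then -1 else 1 := by
  rw [chB, CoxeterSystem.lift_apply_simple]

lemma chR_sr (i : Fin 12) : chR (sr i) = if i.val % 2 = 0 then 1 else -1 := by
  rw [chR, CoxeterSystem.lift_apply_simple]

lemma redH_sr (i : Fin 12) : redH (sr i) = if i.val % 2 = 0 then 1 else sr i := by
  rw [redH, CoxeterSystem.lift_apply_simple]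

lemma chB_wd (l : List (Fin 12)) :
    chB (wd l) = (-1) ^ (l.filter (fun i => i.val % 2 = 0)).length := by
  induction l with
  | nil => simp
  | cons i l ih =>
    rw [wd, CoxeterSystem.wordProd_cons, map_mul, chB_sr, ih, List.filter_cons]
    by_cases h : i.val % 2 = 0 <;> simp [h, pow_succ]

lemma chR_wd (l : List (Fin 12)) :
    chR (wd l) = (-1) ^ (l.filter (fun i => ¬ i.val % 2 = 0)).length := by
  induction l with
  | nil => simp
  | cons i l ih =>
    rw [wd, CoxeterSystem.wordProd_cons, map_mul, chR_sr, ih, List.filter_cons]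
    by_cases h : i.val % 2 = 0 <;> simp [h, pow_succ]

lemma wd_mem (l : List (Fin 12)) (h1 : (l.filter (fun i => i.val % 2 = 0)).length % 2 = 0)
    (h2 : (l.filter (fun i => ¬ i.val % 2 = 0)).length % 2 = 0) : wd l ∈ GS :=
  ⟨by rw [chB_wd]; exact Even.neg_one_pow (Nat.even_iff.2 h1),
   by rw [chR_wd]; exact Even.neg_one_pow (Nat.even_iff.2 h2)⟩

/-- the three disjoint curves -/
noncomputable def sC (k : Fin 3) : G :=
  ⟨wd (sWord.map (rot k)), wd_mem _ (by revert k; decide) (by revert k; decide)⟩

/-- the three meridians bounding a pair of pants -/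
noncomputable def eC (k : Fin 3) : G :=
  ⟨wd [rot k 4, rot k 8], wd_mem _ (by revert k; decide) (by revert k; decide)⟩

/-- axis data of a hyperbolic isometry -/
structure Axis where
  ξ : V
  η : V
  n : V
  L : ℝ
  hξ : Null ξ
  hη : Null η
  hξη : lor ξ η = -1
  hn : lor n n = 1
  hnξ : lor n ξ = 0
  hnη : lor n η = 0
  orient : 0 < det3 η n ξ
  hL : 0 < L

/-- the translation flow along the axis, from `η` to `ξ` -/
noncomputable def Axis.flow (a : Axis) (τ : ℝ) (x : V) : V :=
  x - ((Real.exp (τ * a.L) - 1) * lor x a.η) • a.ξ - ((Real.exp (-(τ * a.L)) - 1) * lor x a.ξ) • a.η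

def Axis.For (a : Axis) (g : W) : Prop := ∀ x : V, g • x = a.flow 1 x

/-- the circle at infinity `Z` with attracting points `att` is realised by null vectors `ν` -/
structure Link {Z : Type} [LinearOrder Z] [MulAction G Z] (att : G → Z) (ν : Z → V) : Prop where
  null : ∀ z, Null (ν z)
  cyc_iff : ∀ a b c, cyc a b c ↔ 0 < det3 (ν a) (ν b) (ν c)
  inj : ∀ a b, lor (ν a) (ν b) = 0 → a = b
  smul : ∀ (g : G) (z : Z), ∃ c : ℝ, 0 < c ∧ ν (g • z) = c • (g.1 • ν z)
  axis : ∀ g : G, g ≠ 1 → ∃ a : Axis, a.For g.1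
  att : ∀ (g : G) (a : Axis), a.For g.1 → ∃ c : ℝ, 0 < c ∧ ν (att g) = c • a.ξ

/-- `n` is a pole of the axis of `g` pointing to its right -/
def OPole (g : W) (n : V) : Prop := g • n = n ∧ 0 < det3 x0.1 n (g • x0.1)

lemma smul_add_V (w : W) (x y : V) : w • (x + y) = w • x + w • y := by
  simp only [smul_def, map_add]

lemma smul_sub_V (w : W) (x y : V) : w • (x - y) = w • x - w • y := by
  simp only [smul_def, map_sub]

lemma smul_neg_V (w : W) (x : V) : w • (-x) = -(w • x) := by
  simp only [smul_def, map_neg]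

lemma smul_smul_V (w : W) (c : ℝ) (x : V) : w • (c • x) = c • (w • x) := by
  simp only [smul_def, map_smul]

lemma continuous_lor : Continuous fun q : V × V => lor q.1 q.2 := by
  unfold lor; fun_prop

lemma continuous_lor_left (n : V) : Continuous fun z : X => lor z.1 n :=
  continuous_lor.comp (continuous_subtype_val.prodMk continuous_const)

instance : ContinuousConstSMul W X where
  continuous_const_smul w := by
    refine Continuous.subtype_mk ?_ _
    exact (LinearMap.continuous_of_finiteDimensional (rep w)).comp continuous_subtype_val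

instance : T2Space X := inferInstanceAs (T2Space {x : V // lor x x = -1 ∧ 0 < x 2})

lemma lor_add_left (x y z : V) : lor (x + y) z = lor x z + lor y z := by
  simp only [lor, Pi.add_apply]; ring

lemma lor_smul_left (c : ℝ) (x z : V) : lor (c • x) z = c * lor x z := by
  simp only [lor, Pi.smul_apply, smul_eq_mul]; ring

lemma lor_add_right (x y z : V) : lor z (x + y) = lor z x + lor z y := by
  simp only [lor, Pi.add_apply]; ring

lemma lor_smul_right (c : ℝ) (x z : V) : lor z (c • x) = c * lor z x := by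
  simp only [lor, Pi.smul_apply, smul_eq_mul]; ring

lemma lor_sub_left (x y z : V) : lor (x - y) z = lor x z - lor y z := by
  simp only [lor, Pi.sub_apply]; ring

lemma lor_sub_right (x y z : V) : lor z (x - y) = lor z x - lor z y := by
  simp only [lor, Pi.sub_apply]; ring

lemma lor_neg_left (x z : V) : lor (-x) z = -lor x z := by
  simp only [lor, Pi.neg_apply]; ring

lemma lor_neg_right (x z : V) : lor z (-x) = -lor z x := by
  simp only [lor, Pi.neg_apply]; ring

/-- a point of the plane pairs negatively with a future null vector -/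
lemma lor_null_neg (z : X) {ξ : V} (h : Null ξ) : lor z.1 ξ < 0 := by
  obtain ⟨h1, h2⟩ := z.2
  obtain ⟨h3, h4⟩ := h
  simp only [lor] at *
  by_contra hc
  push Not at hc
  have h5 : 0 < z.1 2 * ξ 2 := mul_pos h2 h4
  have h6 : (z.1 2 * ξ 2) ^ 2 ≤ (z.1 0 * ξ 0 + z.1 1 * ξ 1) ^ 2 :=
    pow_le_pow_left₀ h5.le (by linarith) 2
  have h7 : (z.1 0 * ξ 0 + z.1 1 * ξ 1) ^ 2 ≤
      (z.1 0 * z.1 0 + z.1 1 * z.1 1) * (ξ 0 * ξ 0 + ξ 1 * ξ 1) := by
    nlinarith [sq_nonneg (z.1 0 * ξ 1 - z.1 1 * ξ 0)]
  have h8 : z.1 0 * z.1 0 + z.1 1 * z.1 1 = z.1 2 * z.1 2 - 1 := by linarith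
  have h9 : ξ 0 * ξ 0 + ξ 1 * ξ 1 = ξ 2 * ξ 2 := by linarith
  rw [h8, h9] at h7
  nlinarith [mul_pos h4 h4]

namespace Axis

variable (a : Axis)

lemma lor_flow_ξ (τ : ℝ) (x : V) : lor (a.flow τ x) a.ξ = Real.exp (-(τ * a.L)) * lor x a.ξ := by
  have h : lor a.η a.ξ = -1 := by rw [lor_comm]; exact a.hξη
  rw [flow, lor_sub_smul, lor_sub_smul, a.hξ.1, h]; ring

lemma lor_flow_η (τ : ℝ) (x : V) : lor (a.flow τ x) a.η = Real.exp (τ * a.L) * lor x a.η := by
  rw [flow, lor_sub_smul, lor_sub_smul, a.hη.1, a.hξη]; ring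

lemma lor_flow_n (τ : ℝ) (x : V) : lor (a.flow τ x) a.n = lor x a.n := by
  have h1 : lor a.ξ a.n = 0 := by rw [lor_comm]; exact a.hnξ
  have h2 : lor a.η a.n = 0 := by rw [lor_comm]; exact a.hnη
  rw [flow, lor_sub_smul, lor_sub_smul, h1, h2]; ring

lemma lor_flow_flow (τ : ℝ) (x y : V) : lor (a.flow τ x) (a.flow τ y) = lor x y := by
  have h : Real.exp (τ * a.L) * Real.exp (-(τ * a.L)) = 1 := by rw [← Real.exp_add]; simp
  have e : lor (a.flow τ x) (a.flow τ y) = lor (a.flow τ x) y
      - ((Real.exp (τ * a.L) - 1) * lor y a.η) * lor (a.flow τ x) a.ξ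
      - ((Real.exp (-(τ * a.L)) - 1) * lor y a.ξ) * lor (a.flow τ x) a.η := by
    conv_lhs => rw [lor_comm, flow, lor_sub_smul, lor_sub_smul]
    rw [lor_comm y, lor_comm a.ξ, lor_comm a.η]
  rw [e, lor_flow_ξ, lor_flow_η, flow, lor_sub_smul, lor_sub_smul, lor_comm a.ξ y, lor_comm a.η y]
  linear_combination (-(lor x a.ξ * lor y a.η) - lor x a.η * lor y a.ξ) * h

lemma flow_add (σ τ : ℝ) (x : V) : a.flow (σ + τ) x = a.flow σ (a.flow τ x) := by
  have e1 : Real.exp ((σ + τ) * a.L) = Real.exp (σ * a.L) * Real.exp (τ * a.L) := by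
    rw [← Real.exp_add]; ring_nf
  have e2 : Real.exp (-((σ + τ) * a.L)) = Real.exp (-(σ * a.L)) * Real.exp (-(τ * a.L)) := by
    rw [← Real.exp_add]; ring_nf
  conv_rhs => rw [flow, lor_flow_ξ, lor_flow_η]
  rw [flow, flow, e1, e2]
  ext k; simp only [Pi.sub_apply, Pi.smul_apply, smul_eq_mul]; ring

lemma flow_zero (x : V) : a.flow 0 x = x := by simp [flow]

/-- the flow on the hyperbolic plane -/
noncomputable def flowX (τ : ℝ) (z : X) : X :=
  ⟨a.flow τ z.1, by rw [lor_flow_flow]; exact z.2.1,
    future_of_lor a.hξ.1.le a.hξ.2 (by rw [lor_flow_flow, z.2.1]; norm_num) (by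
      rw [lor_comm, lor_flow_ξ]; exact mul_neg_of_pos_of_neg (Real.exp_pos _) (lor_null_neg z a.hξ))⟩

lemma flowX_val (τ : ℝ) (z : X) : (a.flowX τ z).1 = a.flow τ z.1 := rfl

lemma flowX_add (σ τ : ℝ) (z : X) : a.flowX (σ + τ) z = a.flowX σ (a.flowX τ z) :=
  Subtype.ext (a.flow_add σ τ z.1)

lemma flowX_zero (z : X) : a.flowX 0 z = z := Subtype.ext (a.flow_zero z.1)

lemma continuous_flowX : Continuous fun q : ℝ × X => a.flowX q.1 q.2 := by
  refine Continuous.subtype_mk ?_ _
  have h1 : Continuous fun q : ℝ × X => lor q.2.1 a.η := (continuous_lor_left _).comp continuous_snd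
  have h2 : Continuous fun q : ℝ × X => lor q.2.1 a.ξ := (continuous_lor_left _).comp continuous_snd
  have h3 : Continuous fun q : ℝ × X => q.2.1 := continuous_subtype_val.comp continuous_snd
  unfold flow
  fun_prop

end Axis

end Pool.Agent.Lib.MP_003e01_gt
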