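import Pool.Agent.Lib.MP_003e01_gt.Blue

/-! Block PushA1, first part: constants, the angular function and explicit Fermi coordinates. -/

open Set Topology

namespace Pool.Agent.Lib.MP_003e01_gt

namespace PushA1

noncomputable def Mm : ℝ := 5 + 3 * √3

noncomputable def Ee : ℝ := Mm + √(Mm ^ 2 - 1)

noncomputable def Ff : ℝ := Mm - √(Mm ^ 2 - 1)

noncomputable def Dd : ℝ := √((Mm - 1) * (2 * Mm - 1) * (Mm + 1))

noncomputable def Kk : ℝ := √(2 * Mm ^ 2 - 2)

lemma Mm_ge : 5 ≤ Mm := by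
  have : 0 ≤ √3 := Real.sqrt_nonneg 3
  unfold Mm; linarith

lemma EF_add : Ee + Ff = 2 * Mm := by unfold Ee Ff; ring

lemma EF_mul : Ee * Ff = 1 := by
  have h := Mm_ge
  have : √(Mm ^ 2 - 1) * √(Mm ^ 2 - 1) = Mm ^ 2 - 1 := Real.mul_self_sqrt (by nlinarith)
  unfold Ee Ff
  linear_combination -this

lemma Ee_gt : 1 < Ee := by
  have h := Mm_ge
  have : 0 ≤ √(Mm ^ 2 - 1) := Real.sqrt_nonneg _
  unfold Ee; linarith

lemma Ff_pos : 0 < Ff := by
  have h1 := EF_mul
  have h2 := Ee_gt
  by_contra h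
  push Not at h
  nlinarith

lemma Ff_lt : Ff < 1 := by
  have h1 := EF_mul
  have h2 := Ee_gt
  have h3 := Ff_pos
  nlinarith

lemma Dd_pos : 0 < Dd := by
  have h := Mm_ge
  exact Real.sqrt_pos.2 (mul_pos (mul_pos (by linarith) (by linarith)) (by linarith))

lemma Dd_sq : Dd * Dd = (Mm - 1) * (2 * Mm - 1) * (Mm + 1) := by
  have h := Mm_ge
  exact Real.mul_self_sqrt (mul_pos (mul_pos (by linarith) (by linarith)) (by linarith)).le

lemma Kk_pos : 0 < Kk := by
  have h := Mm_ge
  exact Real.sqrt_pos.2 (by nlinarith)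

lemma Kk_sq : Kk * Kk = 2 * Mm ^ 2 - 2 := by
  have h := Mm_ge
  exact Real.mul_self_sqrt (by nlinarith)

lemma logE_pos : 0 < Real.log Ee := Real.log_pos Ee_gt

lemma exp_two_log : Real.exp (2 * Real.log Ee) = Ee * Ee := by
  rw [two_mul, Real.exp_add, Real.exp_log (by linarith [Ee_gt])]

lemma exp_neg_two_log : Real.exp (-(2 * Real.log Ee)) = Ff * Ff := by
  rw [Real.exp_neg, exp_two_log]
  refine inv_eq_of_mul_eq_one_right ?_
  linear_combination (Ee * Ff + 1) * EF_mul

/-- the angular function -/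
noncomputable def Gf (a b : ℝ) : ℝ := Real.log ((b + Ee * a) / (b + Ff * a)) / (2 * Real.log Ee)

section
variable {a b a' b' x : ℝ}

lemma Gf_eq_iff (h1 : 0 < b + Ee * a) (h2 : 0 < b + Ff * a) :
    Gf a b = x ↔ b + Ee * a = Real.exp (2 * Real.log Ee * x) * (b + Ff * a) := by
  have hl := logE_pos
  rw [Gf, div_eq_iff (by positivity), Real.log_eq_iff_eq_exp' (by positivity),
    div_eq_iff h2.ne', mul_comm x]
where
  Real.log_eq_iff_eq_exp' {u v : ℝ} (hu : 0 < u) : Real.log u = v ↔ u = Real.exp v :=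
    ⟨fun h => by rw [← h, Real.exp_log hu], fun h => by rw [h, Real.log_exp]⟩

lemma Gf_nonneg_iff (h1 : 0 < b + Ee * a) (h2 : 0 < b + Ff * a) : 0 ≤ Gf a b ↔ 0 ≤ a := by
  have hl := logE_pos
  have hEF : 0 < Ee - Ff := by linarith [Ee_gt, Ff_lt]
  rw [Gf, le_div_iff₀ (by positivity), zero_mul, Real.log_nonneg_iff (by positivity),
    le_div_iff₀ h2]
  constructor
  · intro h
    by_contra hc
    push Not at hc
    nlinarith
  · intro h
    nlinarith

lemma Gf_le_one_iff (h1 : 0 < b + Ee * a) (h2 : 0 < b + Ff * a) : Gf a b ≤ 1 ↔ 0 ≤ b := by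
  have hl := logE_pos
  have hE := Ee_gt
  have hEE : 0 < Ee * Ee - 1 := by nlinarith
  rw [Gf, div_le_iff₀ (by positivity), one_mul, Real.log_le_iff_le_exp (by positivity),
    exp_two_log, div_le_iff₀ h2]
  have e : Ee * Ee * (b + Ff * a) = Ee * Ee * b + Ee * a := by
    linear_combination (Ee * a) * EF_mul
  rw [e]
  constructor
  · intro h
    by_contra hc
    push Not at hc
    nlinarith
  · intro h
    nlinarith

lemma Gf_eq_zero_iff (h1 : 0 < b + Ee * a) (h2 : 0 < b + Ff * a) : Gf a b = 0 ↔ a = 0 := by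
  have hEF : Ee - Ff ≠ 0 := (by linarith [Ee_gt, Ff_lt] : 0 < Ee - Ff).ne'
  rw [Gf_eq_iff h1 h2, mul_zero, Real.exp_zero, one_mul]
  constructor
  · intro h
    exact (mul_eq_zero.1 (show (Ee - Ff) * a = 0 by linarith)).resolve_left hEF
  · rintro rfl
    simp

lemma Gf_eq_one_iff (h1 : 0 < b + Ee * a) (h2 : 0 < b + Ff * a) : Gf a b = 1 ↔ b = 0 := by
  have hE := Ee_gt
  have hEE : Ee * Ee - 1 ≠ 0 := by nlinarith
  rw [Gf_eq_iff h1 h2, mul_one, exp_two_log]
  have e : Ee * Ee * (b + Ff * a) = Ee * Ee * b + Ee * a := by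
    linear_combination (Ee * a) * EF_mul
  rw [e]
  constructor
  · intro h
    exact (mul_eq_zero.1 (show (Ee * Ee - 1) * b = 0 by linarith)).resolve_left hEE
  · rintro rfl
    simp

lemma Gf_inj (h1 : 0 < b + Ee * a) (h2 : 0 < b + Ff * a) (h1' : 0 < b' + Ee * a')
    (h2' : 0 < b' + Ff * a') (h : Gf a b = Gf a' b') : a * b' = a' * b := by
  have e1 := (Gf_eq_iff h1 h2).1 h
  have e2 := (Gf_eq_iff h1' h2').1 rfl
  have hEF : Ee - Ff ≠ 0 := (by linarith [Ee_gt, Ff_lt] : 0 < Ee - Ff).ne'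
  apply mul_left_cancel₀ hEF
  linear_combination (b' + Ff * a') * e1 - (b + Ff * a) * e2

end

lemma cramer (P Q R f z : V) : det3 P Q R * lor z f =
    det3 f Q R * lor z P + det3 P f R * lor z Q + det3 P Q f * lor z R := by
  simp only [det3, lor]; ring

lemma ext3 {P Q R x y : V} (hd : det3 P Q R ≠ 0) (h1 : lor x P = lor y P) (h2 : lor x Q = lor y Q)
    (h3 : lor x R = lor y R) : x = y := by
  have key : ∀ f, lor x f = lor y f := fun f => mul_left_cancel₀ hd (by
    rw [cramer P Q R f x, cramer P Q R f y, h1, h2, h3])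
  have k0 := key ![1, 0, 0]
  have k1 := key ![0, 1, 0]
  have k2 := key ![0, 0, 1]
  simp only [lor, Matrix.cons_val_zero, Matrix.cons_val_one, Matrix.cons_val] at k0 k1 k2
  funext i
  fin_cases i
  · simpa using k0
  · simpa using k1
  · simpa using k2

lemma pole_two_pos (i : Fin 12) : 0 < pole i 2 := by
  simp only [pole, Matrix.cons_val]
  positivity

/-- the pole of the common perpendicular of the walls `p` and `r` -/
noncomputable def nv (p q r : Fin 12) : V := (Mm - 1) • pole q - Mm • (pole p + pole r)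

lemma for_of_eig (h : StmtAx) (a : Axis) (g : W) (h1 : g • a.ξ = Real.exp a.L • a.ξ)
    (h2 : g • a.η = Real.exp (-a.L) • a.η) (h3 : g • a.n = a.n) : a.For g := by
  intro x
  have e := h.expand a x
  conv_lhs => rw [e]
  rw [smul_add_V, smul_add_V, smul_smul_V, smul_smul_V, smul_smul_V, h1, h2, h3, Axis.flow,
    one_mul]
  conv_rhs => enter [1, 1]; rw [e]
  module

section
variable {p q r : Fin 12}

lemma null_w (hpr : lor (pole p) (pole r) = -Mm) {t : ℝ} (ht : 0 < t)
    (h : t * t + 1 = 2 * Mm * t) : Null (pole r + t • pole p) := by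
  refine ⟨?_, ?_⟩
  · simp only [lor_add_left, lor_add_right, lor_smul_left, lor_smul_right, lor_pole_self, hpr,
      lor_comm (pole r) (pole p)]
    linear_combination h
  · simp only [Pi.add_apply, Pi.smul_apply, smul_eq_mul]
    have := pole_two_pos r
    have := pole_two_pos p
    positivity

lemma sp_w (hpr : lor (pole p) (pole r) = -Mm) {t t' : ℝ} (h : t + t' = 2 * Mm) :
    sr p • (pole r + t • pole p) = pole r + t' • pole p := by
  rw [sr_smul, lor_add_left, lor_smul_left, lor_pole_self, lor_comm (pole r), hpr,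
    show t' = 2 * Mm - t by linarith]
  module

lemma sr_w (hpr : lor (pole p) (pole r) = -Mm) {t t' : ℝ} (h : t + t' = 2 * Mm) (h' : t * t' = 1) :
    sr r • (pole r + t • pole p) = (t * t) • (pole r + t' • pole p) := by
  rw [sr_smul, lor_add_left, lor_smul_left, lor_pole_self, hpr, smul_add, smul_smul,
    show t * t * t' = t by linear_combination t * h',
    show t * t = 2 * Mm * t - 1 by linear_combination t * h - h']
  module

lemma lor_nv_p (hpq : lor (pole p) (pole q) = -Mm) (hpr : lor (pole p) (pole r) = -Mm) :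
    lor (nv p q r) (pole p) = 0 := by
  simp only [nv, lor_sub_left, lor_add_left, lor_smul_left, lor_pole_self, lor_comm (pole q),
    lor_comm (pole r) (pole p), hpq, hpr]
  ring

lemma lor_nv_r (hqr : lor (pole q) (pole r) = -Mm) (hpr : lor (pole p) (pole r) = -Mm) :
    lor (nv p q r) (pole r) = 0 := by
  simp only [nv, lor_sub_left, lor_add_left, lor_smul_left, lor_pole_self, hqr, hpr]
  ring

lemma lor_nv_nv (hpq : lor (pole p) (pole q) = -Mm) (hqr : lor (pole q) (pole r) = -Mm)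
    (hpr : lor (pole p) (pole r) = -Mm) : lor (nv p q r) (nv p q r) = Dd * Dd := by
  conv_lhs => enter [2]; rw [nv]
  rw [lor_sub_right, lor_smul_right, lor_smul_right, lor_add_right, lor_nv_p hpq hpr,
    lor_nv_r hqr hpr, Dd_sq]
  simp only [nv, lor_sub_left, lor_add_left, lor_smul_left, lor_pole_self, hpq,
    lor_comm (pole r) (pole q), hqr]
  ring

lemma exFermi (h : StmtAx) (hpq : lor (pole p) (pole q) = -Mm) (hqr : lor (pole q) (pole r) = -Mm)
    (hpr : lor (pole p) (pole r) = -Mm) {t t' L : ℝ} (ht : 0 < t) (ht' : 0 < t')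
    (hs : t + t' = 2 * Mm) (hm : t * t' = 1) (hL : 0 < L)
    (hdet : 0 < (t - t') * det3 (pole p) (pole q) (pole r)) {g : W}
    (g1 : g • (pole r + t' • pole p) = Real.exp L • (pole r + t' • pole p))
    (g2 : g • (pole r + t • pole p) = Real.exp (-L) • (pole r + t • pole p))
    (g3 : g • nv p q r = nv p q r) (a : Axis) (ha : a.For g) :
    ∃ e : ℝ × ℝ ≃ₜ X, Fermi a e ∧ (∀ τ ν, sr p • e (τ, ν) = e (-τ, ν)) ∧
      a.n = Dd⁻¹ • nv p q r ∧ ∀ τ ν, lor (e (τ, ν)).1 (pole r + t • pole p) =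
        Real.exp (2 * (τ * L)) * lor (e (τ, ν)).1 (pole r + t' • pole p) := by
  have hK := Kk_pos
  have hD := Dd_pos
  have hM := Mm_ge
  have n1 : Null (pole r + t • pole p) := null_w hpr ht (by linear_combination t * hs - hm)
  have n2 : Null (pole r + t' • pole p) := null_w hpr ht' (by linear_combination t' * hs - hm)
  have nsm : ∀ {x : V}, Null x → Null (Kk⁻¹ • x) := fun hx =>
    ⟨by rw [lor_smul_left, lor_smul_right, hx.1]; simp,
      by simp only [Pi.smul_apply, smul_eq_mul]; exact mul_pos (inv_pos.2 hK) hx.2⟩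
  have o1 : ∀ t : ℝ, lor (nv p q r) (pole r + t • pole p) = 0 := fun t => by
    rw [lor_add_right, lor_smul_right, lor_nv_p hpq hpr, lor_nv_r hqr hpr]; simp
  have l12 : lor (pole r + t' • pole p) (pole r + t • pole p) = -(Kk * Kk) := by
    simp only [lor_add_left, lor_add_right, lor_smul_left, lor_smul_right, lor_pole_self, hpr,
      lor_comm (pole r) (pole p), Kk_sq]
    linear_combination hm - Mm * hs
  let b : Axis :=
    { ξ := Kk⁻¹ • (pole r + t' • pole p)
      η := Kk⁻¹ • (pole r + t • pole p)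
      n := Dd⁻¹ • nv p q r
      L := L
      hξ := nsm n2
      hη := nsm n1
      hξη := by
        rw [lor_smul_left, lor_smul_right, l12]
        field_simp
      hn := by
        rw [lor_smul_left, lor_smul_right, lor_nv_nv hpq hqr hpr]
        field_simp
      hnξ := by rw [lor_smul_left, lor_smul_right, o1]; simp
      hnη := by rw [lor_smul_left, lor_smul_right, o1]; simp
      orient := by
        have : det3 (Kk⁻¹ • (pole r + t • pole p)) (Dd⁻¹ • nv p q r)
            (Kk⁻¹ • (pole r + t' • pole p)) = Kk⁻¹ * Kk⁻¹ * Dd⁻¹ * (Mm - 1) *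
              ((t - t') * det3 (pole p) (pole q) (pole r)) := by
          simp only [det3, nv, Pi.add_apply, Pi.sub_apply, Pi.smul_apply, smul_eq_mul]
          ring
        rw [this]
        have : 0 < Mm - 1 := by linarith
        positivity
      hL := hL }
  have hb : b.For g := for_of_eig h b g
    (by show g • (Kk⁻¹ • _) = _; rw [smul_smul_V, g1, smul_comm])
    (by show g • (Kk⁻¹ • _) = _; rw [smul_smul_V, g2, smul_comm])
    (by show g • (Dd⁻¹ • _) = _; rw [smul_smul_V, g3])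
  obtain ⟨u1, -, u3, -⟩ := h.uniq g a b ha hb
  obtain ⟨e, ⟨f1, f2⟩, f3⟩ := h.fermi b
  refine ⟨e, ⟨fun x => by rw [u1]; exact f1 x, fun τ x => ?_⟩, fun τ ν => ?_, u1, fun τ ν => ?_⟩
  · rw [← f2]
    exact Subtype.ext (u3 τ _)
  · apply Subtype.ext
    have s1 : sr p • b.ξ = b.η := by
      show sr p • (Kk⁻¹ • _) = _
      rw [smul_smul_V, sp_w hpr (by linarith : t' + t = 2 * Mm)]
    have s2 : sr p • b.η = b.ξ := by
      show sr p • (Kk⁻¹ • _) = _
      rw [smul_smul_V, sp_w hpr hs]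
    have s3 : sr p • b.n = b.n := by
      show sr p • (Dd⁻¹ • _) = _
      rw [smul_smul_V, sr_smul, lor_nv_p hpq hpr]
      simp [b]
    rw [smul_val, f3, f3, smul_add_V, smul_smul_V, smul_smul_V _ ν, smul_add_V,
      smul_smul_V _ _ b.ξ, smul_smul_V _ _ b.η, s1, s2, s3, neg_mul, neg_neg,
      add_comm (Real.exp (τ * b.L) • b.η)]
  · have e1 : Real.exp (2 * (τ * L)) * Real.exp (-(τ * L)) = Real.exp (τ * L) := by
      rw [← Real.exp_add]; ring_nf
    rw [f3]
    have l21 : lor (pole r + t • pole p) (pole r + t' • pole p) = -(Kk * Kk) := by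
      rw [lor_comm, l12]
    have gen : ∀ (w1 w2 n : V) (ρ c d : ℝ), lor w1 w1 = 0 → lor w2 w2 = 0 → lor w2 w1 = -(Kk * Kk) →
        lor w1 w2 = -(Kk * Kk) → lor n w1 = 0 → lor n w2 = 0 →
        lor (ρ • (Real.exp (τ * L) • c • w2 + Real.exp (-(τ * L)) • c • w1) + ν • d • n) w1 =
          Real.exp (2 * (τ * L)) *
            lor (ρ • (Real.exp (τ * L) • c • w2 + Real.exp (-(τ * L)) • c • w1) + ν • d • n) w2 := by
      intro w1 w2 n ρ c d a1 a2 a3 a4 a5 a6
      simp only [lor_add_left, lor_smul_left, a1, a2, a3, a4, a5, a6]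
      linear_combination (ρ * c * (Kk * Kk)) * e1
    exact gen _ _ _ _ _ _ n1.1 n2.1 l12 l21 (o1 t) (o1 t')

end

end PushA1

end Pool.Agent.Lib.MP_003e01_gt
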