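import Pool.Agent.Lib.MP_003e01_gt.PushA1a

/-! Block PushA1, second part: the region and its coordinates. -/

open Set Topology

namespace Pool.Agent.Lib.MP_003e01_gt

namespace PushA1

/-- three pairwise far walls -/
structure Tri (p q r : Fin 12) : Prop where
  hpq : lor (pole p) (pole q) = -Mm
  hqr : lor (pole q) (pole r) = -Mm
  hpr : lor (pole p) (pole r) = -Mm
  det : det3 (pole p) (pole q) (pole r) ≠ 0
  vq : ∀ i, i ≠ p → i ≠ q → i ≠ r → lor (pole i) (pole q) + Mm * lor (pole i) (pole p) < 0 ∧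
    lor (pole i) (pole p) + Mm * lor (pole i) (pole q) < 0
  vr : ∀ i, i ≠ p → i ≠ q → i ≠ r → lor (pole i) (pole r) + Mm * lor (pole i) (pole p) < 0 ∧
    lor (pole i) (pole p) + Mm * lor (pole i) (pole r) < 0

noncomputable def ya (i : Fin 12) (z : X) : ℝ := -lor z.1 (pole i)

noncomputable def NN (p q r : Fin 12) (z : X) : ℝ := Mm * (ya p z + ya r z) - (Mm - 1) * ya q z

noncomputable def AA (p q r : Fin 12) (z : X) : ℝ := (Mm - 1) * (ya q z + ya r z) - Mm * ya p z

noncomputable def BB (p q r : Fin 12) (z : X) : ℝ :=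
  (AA p q r z + min (NN p q r z) 0 + min (NN p r q z) 0) / (2 * Mm - 1)

noncomputable def uu (p q r : Fin 12) (z : X) : ℝ := Gf (ya p z) (BB p q r z)

noncomputable def ss (p q r : Fin 12) (δ : ℝ) (z : X) : ℝ :=
  (max (NN p r q z) 0 - max (NN p q r z) 0) / (max (NN p q r z) 0 + max (NN p r q z) 0) -
    min (NN p q r z) 0 / δ + min (NN p r q z) 0 / δ

def Om (p q r : Fin 12) (δ : ℝ) : Set X :=
  {z | 0 ≤ ya p z ∧ 0 ≤ BB p q r z ∧ -δ ≤ NN p q r z ∧ -δ ≤ NN p r q z}

variable {p q r : Fin 12} {δ : ℝ} {z : X}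

lemma Tri.swap (T : Tri p q r) : Tri p r q where
  hpq := T.hpr
  hqr := by rw [lor_comm]; exact T.hqr
  hpr := T.hpq
  det := by
    have : det3 (pole p) (pole r) (pole q) = -det3 (pole p) (pole q) (pole r) := by
      simp only [det3]; ring
    rw [this]; exact neg_ne_zero.2 T.det
  vq i h1 h2 h3 := T.vr i h1 h3 h2
  vr i h1 h2 h3 := T.vq i h1 h3 h2

lemma AA_swap : AA p r q z = AA p q r z := by unfold AA; ring

lemma BB_swap : BB p r q z = BB p q r z := by unfold BB; rw [AA_swap]; ring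

lemma uu_swap : uu p r q z = uu p q r z := by unfold uu; rw [BB_swap]

lemma ss_swap : ss p r q δ z = -ss p q r δ z := by
  unfold ss
  rw [add_comm (max (NN p r q z) 0)]
  ring

lemma Om_swap : Om p r q δ = Om p q r δ := by
  ext z
  simp only [Om, mem_ofPred_eq, BB_swap (q := q)]
  tauto

lemma continuous_ya (i : Fin 12) : Continuous (ya i) := (continuous_lor_left _).neg

lemma continuous_NN (p q r : Fin 12) : Continuous (NN p q r) := by
  have := continuous_ya p
  have := continuous_ya q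
  have := continuous_ya r
  unfold NN; fun_prop

lemma continuous_BB (p q r : Fin 12) : Continuous (BB p q r) := by
  have := continuous_ya p
  have := continuous_ya q
  have := continuous_ya r
  have := continuous_NN p q r
  have := continuous_NN p r q
  unfold BB AA; fun_prop

lemma lor_nv (z : X) : lor z.1 (nv p q r) = NN p q r z := by
  simp only [nv, NN, ya, lor_sub_right, lor_add_right, lor_smul_right]; ring

lemma posE (hpr : lor (pole p) (pole r) = -Mm) (z : X) : 0 < ya r z + Ee * ya p z := by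
  have := lor_null_neg z (null_w hpr (t := Ee) (by linarith [Ee_gt])
    (by linear_combination Ee * EF_add - EF_mul))
  rw [lor_add_right, lor_smul_right] at this
  unfold ya; linarith

lemma posF (hpr : lor (pole p) (pole r) = -Mm) (z : X) : 0 < ya r z + Ff * ya p z := by
  have := lor_null_neg z (null_w hpr (t := Ff) Ff_pos
    (by linear_combination Ff * EF_add - EF_mul))
  rw [lor_add_right, lor_smul_right] at this
  unfold ya; linarith

lemma pos_add (hpr : lor (pole p) (pole r) = -Mm) (z : X) : 0 < ya p z + ya r z := by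
  have h1 := posE hpr z
  have h2 := posF hpr z
  have h3 := Ee_gt
  have h4 := Ff_lt
  rcases le_total 0 (ya p z) with h | h <;> nlinarith

lemma Tri.sum_pos (T : Tri p q r) (z : X) : 0 < ya p z + ya q z + ya r z := by
  linarith [pos_add T.hpq z, pos_add T.hpr z, pos_add T.hqr z]

lemma Tri.NN_add (T : Tri p q r) (ha : 0 ≤ ya p z) : 0 < NN p q r z + NN p r q z := by
  have h1 := T.sum_pos z
  have h2 := Mm_ge
  have : NN p q r z + NN p r q z = (2 * Mm - 1) * ya p z + (ya p z + ya q z + ya r z) := by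
    unfold NN; ring
  rw [this]
  have : 0 ≤ (2 * Mm - 1) * ya p z := mul_nonneg (by linarith) ha
  linarith

lemma Tri.BB_Y (T : Tri p q r) (ha : 0 ≤ ya p z) (hY : NN p q r z ≤ 0) : BB p q r z = ya r z := by
  have h1 := T.NN_add ha
  have h2 := Mm_ge
  rw [BB, min_eq_left hY, min_eq_right (by linarith), div_eq_iff (by linarith)]
  unfold AA NN; ring

lemma BB_T (hY : 0 ≤ NN p q r z) (hZ : 0 ≤ NN p r q z) :
    BB p q r z = AA p q r z / (2 * Mm - 1) := by
  rw [BB, min_eq_right hY, min_eq_right hZ, add_zero, add_zero]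

lemma Tri.ss_Y (T : Tri p q r) (ha : 0 ≤ ya p z) (hY : NN p q r z ≤ 0) :
    ss p q r δ z = 1 - NN p q r z / δ := by
  have h1 := T.NN_add ha
  have h2 : 0 < NN p r q z := by linarith
  rw [ss, min_eq_left hY, min_eq_right h2.le, max_eq_right hY, max_eq_left h2.le, sub_zero,
    zero_add, div_self h2.ne', zero_div, add_zero]

lemma ss_T (hY : 0 ≤ NN p q r z) (hZ : 0 ≤ NN p r q z) :
    ss p q r δ z = (NN p r q z - NN p q r z) / (NN p q r z + NN p r q z) := by
  rw [ss, min_eq_right hY, min_eq_right hZ, max_eq_left hY, max_eq_left hZ, zero_div, sub_zero,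
    add_zero]

lemma Tri.ab_pos (T : Tri p q r) (ha : 0 ≤ ya p z) : 0 < ya p z + BB p q r z := by
  rcases le_total (NN p q r z) 0 with hY | hY
  · rw [T.BB_Y ha hY]; exact pos_add T.hpr z
  rcases le_total (NN p r q z) 0 with hZ | hZ
  · rw [← BB_swap, T.swap.BB_Y ha hZ]; exact pos_add T.hpq z
  have h1 := T.sum_pos z
  have h2 := Mm_ge
  have : ya p z + BB p q r z = (Mm - 1) * (ya p z + ya q z + ya r z) / (2 * Mm - 1) := by
    have : 2 * Mm - 1 ≠ 0 := by linarith
    rw [BB_T hY hZ, AA, add_div' _ _ _ this]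
    congr 1
    ring
  rw [this]
  exact div_pos (mul_pos (by linarith) h1) (by linarith)

lemma Tri.gpos (T : Tri p q r) (hz : z ∈ Om p q r δ) :
    0 < BB p q r z + Ee * ya p z ∧ 0 < BB p q r z + Ff * ya p z := by
  have h1 := T.ab_pos hz.1
  have h2 := hz.1
  have h3 := hz.2.1
  have h4 := Ee_gt
  have h5 := Ff_pos
  constructor
  · nlinarith
  · rcases h3.eq_or_lt with h | h
    · rw [← h] at h1 ⊢
      nlinarith
    · nlinarith

lemma Tri.ss_lt (T : Tri p q r) (hδ : 0 < δ) (ha : 0 ≤ ya p z) (hY : 0 < NN p q r z) :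
    ss p q r δ z < 1 := by
  rcases le_total (NN p r q z) 0 with hZ | hZ
  · have h1 := T.swap.ss_Y (δ := δ) ha hZ
    rw [ss_swap] at h1
    have : NN p r q z / δ ≤ 0 := div_nonpos_of_nonpos_of_nonneg hZ hδ.le
    linarith
  · rw [ss_T hY.le hZ, div_lt_one (T.NN_add ha)]
    linarith

lemma Tri.ss_ge_iff (T : Tri p q r) (hδ : 0 < δ) (ha : 0 ≤ ya p z) :
    1 ≤ ss p q r δ z ↔ NN p q r z ≤ 0 := by
  constructor
  · intro h
    by_contra hc
    push Not at hc
    linarith [T.ss_lt hδ ha hc]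
  · intro h
    rw [T.ss_Y ha h]
    have : NN p q r z / δ ≤ 0 := div_nonpos_of_nonpos_of_nonneg h hδ.le
    linarith

lemma Tri.ss_gt_iff (T : Tri p q r) (hδ : 0 < δ) (ha : 0 ≤ ya p z) :
    1 < ss p q r δ z ↔ NN p q r z < 0 := by
  constructor
  · intro h
    have h1 := (T.ss_ge_iff hδ ha).1 h.le
    rcases h1.eq_or_lt with h2 | h2
    · rw [T.ss_Y ha h1, h2] at h
      simp at h
    · exact h2
  · intro h
    rw [T.ss_Y ha h.le]
    have : NN p q r z / δ < 0 := div_neg_of_neg_of_pos h hδ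
    linarith

lemma Tri.ss_le_two (T : Tri p q r) (hδ : 0 < δ) (hz : z ∈ Om p q r δ) : ss p q r δ z ≤ 2 := by
  rcases le_or_gt (NN p q r z) 0 with hY | hY
  · rw [T.ss_Y hz.1 hY]
    have : -1 ≤ NN p q r z / δ := by
      rw [le_div_iff₀ hδ]; linarith [hz.2.2.1]
    linarith
  · linarith [T.ss_lt hδ hz.1 hY]

lemma Tri.lt_of_ss (T : Tri p q r) (hδ : 0 < δ) (ha : 0 ≤ ya p z) (h : ss p q r δ z < 2) :
    -δ < NN p q r z := by
  rcases le_or_gt (NN p q r z) 0 with hY | hY
  · rw [T.ss_Y ha hY] at h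
    have : -1 < NN p q r z / δ := by linarith
    rw [lt_div_iff₀ hδ] at this
    linarith
  · linarith

/-- the wall `r` on the region -/
lemma Tri.wall (T : Tri p q r) (hz : z ∈ Om p q r δ) :
    0 ≤ ya r z ∧ (ya r z = 0 ↔ BB p q r z = 0 ∧ NN p q r z ≤ 0) := by
  rcases le_or_gt (NN p q r z) 0 with hY | hY
  · have h := T.BB_Y hz.1 hY
    exact ⟨h ▸ hz.2.1, by rw [h]; simp [hY]⟩
  have h2 := Mm_ge
  have hpos : 0 < ya r z := by
    rcases le_total (NN p r q z) 0 with hZ | hZ
    · have h1 := pos_add T.hpq z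
      have h3 : 0 < (Mm - 1) * ya r z := by
        have : 0 < Mm * (ya p z + ya q z) := mul_pos (by linarith) h1
        unfold NN at hZ
        linarith
      exact pos_of_mul_pos_left' h3 (by linarith)
    · have h1 := hz.2.1
      rw [BB_T hY.le hZ] at h1
      have h3 : 0 ≤ AA p q r z := by
        rwa [le_div_iff₀ (by linarith), zero_mul] at h1
      have h4 : 0 < (2 * Mm - 1) * ya r z := by
        have : (2 * Mm - 1) * ya r z = AA p q r z + NN p q r z := by unfold AA NN; ring
        linarith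
      exact pos_of_mul_pos_left' h4 (by linarith)
  exact ⟨hpos.le, ⟨fun h => absurd h hpos.ne', fun h => absurd h.2 (not_le.2 hY)⟩⟩
where
  pos_of_mul_pos_left' {u v : ℝ} (h : 0 < u * v) (hu : 0 < u) : 0 < v :=
    (mul_pos_iff_of_pos_left hu).1 h

/-- the other walls stay away from the trapezoid -/
lemma Tri.trap (T : Tri p q r) (ha : 0 ≤ ya p z) (hY : 0 ≤ NN p q r z) (hZ : 0 ≤ NN p r q z)
    (hA : 0 ≤ AA p q r z) {i : Fin 12} (h1 : i ≠ p) (h2 : i ≠ q) (h3 : i ≠ r) : 0 < ya i z := by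
  have hM := Mm_ge
  obtain ⟨v1, v4⟩ := T.vq i h1 h2 h3
  obtain ⟨v2, v3⟩ := T.vr i h1 h2 h3
  have key : ((2 * Mm - 1) * (Mm ^ 2 - 1) * (NN p q r z + NN p r q z)) • z.1 =
      (AA p q r z * NN p q r z) • (pole q + Mm • pole p) +
      (AA p q r z * NN p r q z) • (pole r + Mm • pole p) +
      ((2 * Mm - 1) * ya p z * NN p r q z) • (pole p + Mm • pole r) +
      ((2 * Mm - 1) * ya p z * NN p q r z) • (pole p + Mm • pole q) := by
    refine ext3 T.det ?_ ?_ ?_ <;>
    simp only [lor_add_left, lor_smul_left, lor_pole_self, T.hpq, T.hqr, T.hpr,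
      lor_comm (pole q) (pole p), lor_comm (pole r) (pole p), lor_comm (pole r) (pole q),
      AA, NN, ya] <;> ring
  have k2 := congrArg (fun v => lor v (pole i)) key
  simp only [lor_add_left, lor_smul_left, lor_comm (pole q) (pole i), lor_comm (pole r) (pole i),
    lor_comm (pole p) (pole i)] at k2
  have hS := T.NN_add ha
  have hc : 0 < (2 * Mm - 1) * (Mm ^ 2 - 1) * (NN p q r z + NN p r q z) :=
    mul_pos (mul_pos (by linarith) (by nlinarith)) hS
  have hab : 0 < AA p q r z + (2 * Mm - 1) * ya p z := by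
    have : AA p q r z + (2 * Mm - 1) * ya p z = (Mm - 1) * (ya p z + ya q z + ya r z) := by
      unfold AA; ring
    rw [this]
    exact mul_pos (by linarith) (T.sum_pos z)
  have ha' : 0 ≤ (2 * Mm - 1) * ya p z := mul_nonneg (by linarith) ha
  have gen : ∀ A B Y Z w1 w2 w3 w4 : ℝ, 0 ≤ A → 0 ≤ B → 0 ≤ Y → 0 ≤ Z → 0 < A + B → 0 < Y + Z →
      w1 < 0 → w2 < 0 → w3 < 0 → w4 < 0 → A * Y * w1 + A * Z * w2 + B * Z * w3 + B * Y * w4 < 0 := by
    intro A B Y Z w1 w2 w3 w4 a1 a2 a3 a4 a5 a6 b1 b2 b3 b4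
    have c1 : Y * w1 + Z * w2 < 0 := by
      rcases a3.eq_or_lt with h | h
      · rw [← h] at a6 ⊢; nlinarith
      · nlinarith
    have c2 : Z * w3 + Y * w4 < 0 := by
      rcases a3.eq_or_lt with h | h
      · rw [← h] at a6 ⊢; nlinarith
      · nlinarith
    rcases a1.eq_or_lt with h | h
    · rw [← h] at a5 ⊢; nlinarith
    · nlinarith
  have k3 := gen _ _ _ _ _ _ _ _ hA ha' hY hZ hab hS v1 v2 v3 v4
  rw [← k2] at k3
  have : lor z.1 (pole i) < 0 := by
    by_contra hcon
    push Not at hcon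
    linarith [mul_nonneg hc.le hcon]
  unfold ya; linarith

lemma Tri.cont_u (T : Tri p q r) : ContinuousOn (uu p q r) (Om p q r δ) := by
  have h1 := continuous_ya p
  have h2 := continuous_BB p q r
  unfold uu Gf
  refine ContinuousOn.div_const (ContinuousOn.log (ContinuousOn.div (by fun_prop) (by fun_prop)
    fun z hz => (T.gpos hz).2.ne') fun z hz => (div_pos (T.gpos hz).1 (T.gpos hz).2).ne') _

lemma Tri.cont_s (T : Tri p q r) : ContinuousOn (ss p q r δ) (Om p q r δ) := by
  have h1 := continuous_NN p q r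
  have h2 := continuous_NN p r q
  unfold ss
  refine ContinuousOn.add (ContinuousOn.sub (ContinuousOn.div (by fun_prop) (by fun_prop)
    fun z hz => ?_) (by fun_prop)) (by fun_prop)
  have := T.NN_add hz.1
  linarith [le_max_left (NN p q r z) 0, le_max_left (NN p r q z) 0]

lemma isClosed_Om : IsClosed (Om p q r δ) :=
  (isClosed_le continuous_const (continuous_ya p)).inter
    ((isClosed_le continuous_const (continuous_BB p q r)).inter
      ((isClosed_le continuous_const (continuous_NN p q r)).inter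
        (isClosed_le continuous_const (continuous_NN p r q))))

/-- injectivity on the trapezoid -/
lemma Tri.inj_T (T : Tri p q r) {z' : X} (hz : z ∈ Om p q r δ) (hz' : z' ∈ Om p q r δ)
    (hY : 0 ≤ NN p q r z) (hZ : 0 ≤ NN p r q z) (hY' : 0 ≤ NN p q r z') (hZ' : 0 ≤ NN p r q z')
    (hu : uu p q r z = uu p q r z') (hs : ss p q r δ z = ss p q r δ z') : z = z' := by
  have hM := Mm_ge
  have h1 := Gf_inj (T.gpos hz).1 (T.gpos hz).2 (T.gpos hz').1 (T.gpos hz').2 hu
  have hS := T.NN_add hz.1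
  have hS' := T.NN_add hz'.1
  rw [BB_T hY hZ, BB_T hY' hZ', ← mul_div_assoc, ← mul_div_assoc,
    div_left_inj' (by linarith)] at h1
  rw [ss_T hY hZ, ss_T hY' hZ', div_eq_div_iff hS.ne' hS'.ne'] at hs
  have s0 := T.sum_pos z
  have s0' := T.sum_pos z'
  set σ := ya p z + ya q z + ya r z with hσ
  set σ' := ya p z' + ya q z' + ya r z' with hσ'
  have e1 : ya p z * σ' = ya p z' * σ := by
    apply mul_left_cancel₀ (by linarith : Mm - 1 ≠ 0)
    unfold AA at h1
    rw [hσ, hσ']
    linear_combination h1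
  have e2 : (NN p q r z + NN p r q z) * σ' = (NN p q r z' + NN p r q z') * σ := by
    have a1 : NN p q r z + NN p r q z = (2 * Mm - 1) * ya p z + σ := by
      rw [hσ]; unfold NN; ring
    have a2 : NN p q r z' + NN p r q z' = (2 * Mm - 1) * ya p z' + σ' := by
      rw [hσ']; unfold NN; ring
    rw [a1, a2]
    linear_combination (2 * Mm - 1) * e1
  have e3 : NN p q r z * σ' = NN p q r z' * σ := by
    apply mul_left_cancel₀ hS'.ne'
    linear_combination (NN p q r z') * e2 - (σ' / 2) * hs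
  have e4 : ya q z * σ' = ya q z' * σ := by
    apply mul_left_cancel₀ (by linarith : 2 * Mm - 1 ≠ 0)
    have a1 : NN p q r z = Mm * σ - (2 * Mm - 1) * ya q z := by rw [hσ]; unfold NN; ring
    have a2 : NN p q r z' = Mm * σ' - (2 * Mm - 1) * ya q z' := by rw [hσ']; unfold NN; ring
    rw [a1, a2] at e3
    linear_combination -e3
  have e5 : ya r z * σ' = ya r z' * σ := by
    linear_combination -e1 - e4 - σ' * hσ + σ * hσ'
  have e6 : σ' • z.1 = σ • z'.1 := by
    refine ext3 T.det ?_ ?_ ?_ <;> simp only [lor_smul_left]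
    · unfold ya at e1; linarith
    · unfold ya at e4; linarith
    · unfold ya at e5; linarith
  have e7 : σ' = σ := by
    have := congrArg (fun v => lor v v) e6
    simp only [lor_smul_left, lor_smul_right, z.2.1, z'.2.1] at this
    have h2 : (σ' - σ) * (σ' + σ) = 0 := by linarith
    linarith [(mul_eq_zero.1 h2).resolve_right (by linarith)]
  rw [e7] at e6
  exact Subtype.ext (smul_right_injective V s0.ne' e6)

/-- points of the chord -/
lemma Tri.chord (T : Tri p q r) (hb : 0 ≤ ya q z) (hc : 0 ≤ ya r z) (hA : AA p q r z = 0) :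
    ∃ a b : ℝ, 0 ≤ a ∧ 0 ≤ b ∧ z.1 = a • (pole p + Mm • pole q) + b • (pole p + Mm • pole r) := by
  have hM := Mm_ge
  have h0 : Mm ≠ 0 := by linarith
  have h1 : Mm + 1 ≠ 0 := by linarith
  have h2 : 0 < Mm * (Mm + 1) := mul_pos (by linarith) (by linarith)
  refine ⟨ya r z / (Mm * (Mm + 1)), ya q z / (Mm * (Mm + 1)), div_nonneg hc h2.le,
    div_nonneg hb h2.le, ext3 T.det ?_ ?_ ?_⟩ <;>
  simp only [lor_add_left, lor_smul_left, lor_pole_self, T.hpq, T.hqr, T.hpr,
      lor_comm (pole q) (pole p), lor_comm (pole r) (pole p), lor_comm (pole r) (pole q), ya]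
  · simp only [AA, ya] at hA
    field_simp
    linear_combination (Mm + 1) * hA
  · field_simp
    ring
  · field_simp
    ring

lemma exists_norm (h : StmtB1) (y z : X) {α β : ℝ} (hα : 0 ≤ α) (hβ : 0 ≤ β) (hs : 0 < α + β) :
    ∃ (w : X) (c : ℝ), 0 < c ∧ w.1 = c • (α • y.1 + β • z.1) := by
  have h1 := (h.revCS y z).1
  set v : V := α • y.1 + β • z.1 with hv
  have h2 : 0 < -lor v v := by
    simp only [hv, lor_add_left, lor_add_right, lor_smul_left, lor_smul_right, y.2.1, z.2.1,
      lor_comm z.1 y.1]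
    nlinarith [mul_nonneg hα hβ, mul_pos hs hs]
  have h3 : 0 < √(-lor v v) := Real.sqrt_pos.2 h2
  have h4 : √(-lor v v) * √(-lor v v) = -lor v v := Real.mul_self_sqrt h2.le
  refine ⟨⟨(√(-lor v v))⁻¹ • v, ?_, ?_⟩, _, inv_pos.2 h3, rfl⟩
  · rw [lor_smul_left, lor_smul_right]
    field_simp
    linear_combination h4
  · have a1 := y.2.2
    have a2 := z.2.2
    simp only [hv, Pi.smul_apply, Pi.add_apply, smul_eq_mul]
    refine mul_pos (inv_pos.2 h3) ?_
    rcases hα.eq_or_lt with h | h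
    · rw [← h] at hs ⊢; nlinarith
    · nlinarith [mul_nonneg hβ a2.le]

end PushA1

end Pool.Agent.Lib.MP_003e01_gt
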