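import Pool.Agent.Lib.MP_003e01_gt.Blue

/-! Block PushB, part 1: extension by the identity, the inverse chart, the pinched thickness. -/

open Set Topology Filter

namespace Pool.Agent.Lib.MP_003e01_gt

namespace PushB

lemma cont_mul_div {K : Type*} [TopologicalSpace K] {a b c : K → ℝ} (ha : Continuous a)
    (hb : Continuous b) (hc : Continuous c) (h1 : ∀ x, |b x| ≤ c x) (h2 : ∀ x, c x = 0 → a x = 0) :
    Continuous fun x => a x * (b x / c x) := by
  refine continuous_iff_continuousAt.2 fun x => ?_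
  by_cases h : c x = 0
  · have e : a x * (b x / c x) = 0 := by rw [h2 x h, zero_mul]
    change Tendsto _ _ (𝓝 (a x * (b x / c x)))
    rw [e]
    have t : Tendsto (fun y => ‖a y‖) (𝓝 x) (𝓝 0) := by
      have := ha.norm.tendsto x
      rwa [h2 x h, norm_zero] at this
    refine squeeze_zero_norm (fun y => ?_) t
    rw [norm_mul]
    refine mul_le_of_le_one_right (norm_nonneg _) ?_
    rw [Real.norm_eq_abs, abs_div, abs_of_nonneg ((abs_nonneg _).trans (h1 y))]
    exact div_le_one_of_le₀ (h1 y) ((abs_nonneg _).trans (h1 y))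
  · exact ha.continuousAt.mul (hb.continuousAt.div hc.continuousAt h)

section Extend
variable {K H : Type*} [TopologicalSpace K] [TopologicalSpace H] {g : K → H}

lemma extend_cont (hg : IsClosedEmbedding g) {ρ : K → K} (hρ : Continuous ρ)
    (hfix : ∀ p, range g ∉ 𝓝 (g p) → ρ p = p) : Continuous (Function.extend g (g ∘ ρ) id) := by
  have h1 : ContinuousOn (Function.extend g (g ∘ ρ) id) (range g) := by
    rw [← image_univ, hg.isInducing.continuousOn_image_iff]
    have : Function.extend g (g ∘ ρ) id ∘ g = g ∘ ρ := funext fun p => hg.injective.extend_apply ..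
    rw [this]
    exact (hg.continuous.comp hρ).continuousOn
  have h2 : ContinuousOn (Function.extend g (g ∘ ρ) id) (interior (range g))ᶜ := by
    refine continuousOn_id.congr fun x hx => ?_
    by_cases h : ∃ p, g p = x
    · obtain ⟨p, rfl⟩ := h
      rw [hg.injective.extend_apply, Function.comp_apply,
        hfix p fun h => hx (mem_interior_iff_mem_nhds.2 h)]
      rfl
    · rw [Function.extend_apply' _ _ _ h]
  have h3 := h1.union_of_isClosed h2 hg.isClosed_range isOpen_interior.isClosed_compl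
  have h4 : range g ∪ (interior (range g))ᶜ = univ := by
    refine eq_univ_of_forall fun x => ?_
    by_cases h : x ∈ interior (range g)
    · exact Or.inl (interior_subset h)
    · exact Or.inr h
  rwa [h4, continuousOn_univ] at h3

omit [TopologicalSpace K] [TopologicalSpace H] in
lemma extend_inv (hg : Function.Injective g) {ρ ρ' : K → K} (h : ∀ p, ρ' (ρ p) = p) (x : H) :
    Function.extend g (g ∘ ρ') id (Function.extend g (g ∘ ρ) id x) = x := by
  by_cases hx : ∃ p, g p = x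
  · obtain ⟨p, rfl⟩ := hx
    rw [hg.extend_apply, Function.comp_apply, hg.extend_apply, Function.comp_apply, h]
  · rw [Function.extend_apply' _ _ _ hx, id, Function.extend_apply' _ _ _ hx, id]

lemma exists_homeo (hg : IsClosedEmbedding g) {ρ ρ' : K → K} (hρ : Continuous ρ)
    (hρ' : Continuous ρ') (h1 : ∀ p, ρ' (ρ p) = p) (h2 : ∀ p, ρ (ρ' p) = p)
    (hfix : ∀ p, range g ∉ 𝓝 (g p) → ρ p = p) :
    ∃ Φ : H ≃ₜ H, (∀ p, Φ (g p) = g (ρ p)) ∧ ∀ x, x ∉ range g → Φ x = x := by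
  refine ⟨⟨⟨Function.extend g (g ∘ ρ) id, Function.extend g (g ∘ ρ') id,
    extend_inv hg.injective h1, extend_inv hg.injective h2⟩, extend_cont hg hρ hfix,
    extend_cont hg hρ' fun p hp => ?_⟩, fun p => hg.injective.extend_apply .., fun x hx => ?_⟩
  · have := h1 p
    rwa [hfix p hp] at this
  · exact Function.extend_apply' _ _ _ hx

end Extend

/-- the coordinate rectangle -/
def Rect : Set (ℝ × ℝ) := Icc 0 1 ×ˢ Icc (-2) 2

lemma mem_Rect {q : ℝ × ℝ} : q ∈ Rect ↔ (0 ≤ q.1 ∧ q.1 ≤ 1) ∧ |q.2| ≤ 2 := by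
  rw [abs_le]; rfl

/-- the inverse of the chart -/
structure Zeta (k : Fin 3) (Ω : Set X) (u s : X → ℝ) (ζ : ℝ × ℝ → X) : Prop
    extends ChartBase k Ω u s where
  cont : Continuous ζ
  mem : ∀ q, ζ q ∈ Ω
  right : ∀ q ∈ Rect, u (ζ q) = q.1 ∧ s (ζ q) = q.2
  left : ∀ z ∈ Ω, ζ (u z, s z) = z

variable {k : Fin 3} {Ω : Set X} {u s : X → ℝ} {ζ : ℝ × ℝ → X}

lemma exists_zeta (h : ChartBase k Ω u s) : ∃ ζ, Zeta k Ω u s ζ := by
  have : CompactSpace Ω := isCompact_iff_compactSpace.1 h.compact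
  have hc : Continuous (h.bij.equiv _) := by
    refine Continuous.subtype_mk ?_ _
    exact (h.cont_u.prodMk h.cont_s).domRestrict
  set e := hc.homeoOfEquivCompactToT2 with he
  let π : ℝ × ℝ → (Icc (0 : ℝ) 1 ×ˢ Icc (-2 : ℝ) 2 : Set (ℝ × ℝ)) := fun q =>
    ⟨((projIcc 0 1 zero_le_one q.1 : ℝ), (projIcc (-2) 2 (by norm_num) q.2 : ℝ)),
      (projIcc 0 1 zero_le_one q.1).2, (projIcc (-2) 2 (by norm_num) q.2).2⟩
  have hπ : Continuous π := by
    refine Continuous.subtype_mk ?_ _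
    exact (continuous_subtype_val.comp (continuous_projIcc.comp continuous_fst)).prodMk
      (continuous_subtype_val.comp (continuous_projIcc.comp continuous_snd))
  have hπ' : ∀ q (hq : q ∈ Rect), π q = ⟨q, hq⟩ := by
    intro q hq
    apply Subtype.ext
    simp only [π, projIcc_of_mem _ hq.1, projIcc_of_mem _ hq.2]
  have hval : ∀ z : Ω, (e z).1 = (u z.1, s z.1) := fun _ => rfl
  refine ⟨fun q => (e.symm (π q)).1, h, continuous_subtype_val.comp (e.symm.continuous.comp hπ),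
    fun q => (e.symm (π q)).2, fun q hq => ?_, fun z hz => ?_⟩
  · have := hval (e.symm (π q))
    rw [e.apply_symm_apply, hπ' q hq] at this
    rw [hπ' q hq]
    exact ⟨(congrArg Prod.fst this).symm, (congrArg Prod.snd this).symm⟩
  · have hq : (u z, s z) ∈ Rect := h.bij.mapsTo hz
    have : π (u z, s z) = e ⟨z, hz⟩ := by rw [hπ' _ hq]; rfl
    simp only [this, e.symm_apply_apply]

lemma Zeta.rect (h : Zeta k Ω u s ζ) {z : X} (hz : z ∈ Ω) : (u z, s z) ∈ Rect := h.bij.mapsTo hz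

lemma Zeta.nonneg (h : Zeta k Ω u s ζ) (q : ℝ × ℝ) : 0 ≤ lamB (ζ q) := lamB_nonneg (h.sub (h.mem q))

lemma Zeta.zero_iff (h : Zeta k Ω u s ζ) {q : ℝ × ℝ} (hq : q ∈ Rect) :
    lamB (ζ q) = 0 ↔ q.1 = 0 ∨ (q.1 = 1 ∧ 1 ≤ |q.2|) := by
  rw [h.blue _ (h.mem q), (h.right q hq).1, (h.right q hq).2]

/-- the pinched thickness -/
structure Pinch (ζ : ℝ × ℝ → X) (δ : ℝ) (l : ℝ × ℝ → ℝ) : Prop where
  cont : Continuous l
  nonneg : ∀ q ∈ Rect, 0 ≤ l q
  le : ∀ q, l q ≤ lamB (ζ q)
  eq : ∀ q ∈ Rect, 1 ≤ |q.2| → l q = lamB (ζ q)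
  zero : ∀ q ∈ Rect, q.1 = 0 ∨ q.1 = 1 → l q = 0
  pos : ∀ q ∈ Rect, 0 < q.1 → q.1 < 1 → 0 < l q
  lt : ∀ q ∈ Rect, l q < lamB (ζ q) → |q.2| ≤ 1 ∧ 1 - δ ≤ q.1

lemma exists_pinch (h : Zeta k Ω u s ζ) {δ : ℝ} (hδ : 0 < δ) : ∃ l, Pinch ζ δ l := by
  obtain ⟨C0, hC0⟩ := h.compact.bddAbove_image continuous_lamB.continuousOn
  set C := max C0 1 with hC
  have hC1 : 0 < C := lt_of_lt_of_le one_pos (le_max_right _ _)
  have hb : ∀ q, lamB (ζ q) ≤ C := fun q =>
    (hC0 ⟨_, h.mem q, rfl⟩).trans (le_max_left _ _)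
  have hΛ : Continuous fun q => lamB (ζ q) := continuous_lamB.comp h.cont
  have hn := h.nonneg
  have heq : ∀ q ∈ Rect, 1 ≤ |q.2| → lamB (ζ q) ≤
      C / δ * (1 - q.1) + lamB (ζ (q.1, max q.2 1)) + lamB (ζ (q.1, min q.2 (-1))) := by
    intro q hq h1
    have h0 : 0 ≤ C / δ * (1 - q.1) := mul_nonneg (by positivity) (by linarith [hq.1.2])
    rcases le_abs'.1 h1 with h2 | h2
    · rw [min_eq_left h2]
      linarith [hn (q.1, max q.2 1)]
    · rw [max_eq_left h2]
      linarith [hn (q.1, min q.2 (-1))]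
  refine ⟨fun q => min (lamB (ζ q))
    (C / δ * (1 - q.1) + lamB (ζ (q.1, max q.2 1)) + lamB (ζ (q.1, min q.2 (-1)))),
    hΛ.min ?_, fun q hq => le_min (hn q) ?_, fun q => min_le_left _ _,
    fun q hq h1 => min_eq_left (heq q hq h1), fun q hq h1 => ?_, fun q hq h1 h2 => lt_min ?_ ?_,
    fun q hq h1 => ?_⟩
  · exact ((continuous_const.mul (continuous_const.sub continuous_fst)).add
      (hΛ.comp (continuous_fst.prodMk (continuous_snd.max continuous_const)))).add
      (hΛ.comp (continuous_fst.prodMk (continuous_snd.min continuous_const)))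
  · exact add_nonneg (add_nonneg (mul_nonneg (by positivity) (by linarith [hq.1.2])) (hn _)) (hn _)
  · have hq' := mem_Rect.1 hq
    rcases h1 with h1 | h1
    · rw [(h.zero_iff hq).2 (Or.inl h1)]
      exact min_eq_left (add_nonneg (add_nonneg
        (mul_nonneg (by positivity) (by linarith [hq.1.2])) (hn _)) (hn _))
    · have a1 : lamB (ζ (q.1, max q.2 1)) = 0 := by
        refine (h.zero_iff (q := (q.1, max q.2 1)) (mem_Rect.2 ⟨hq'.1, ?_⟩)).2 (Or.inr ⟨h1, ?_⟩)
        · rw [abs_le]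
          exact ⟨le_max_of_le_right (by norm_num), max_le hq.2.2 (by norm_num)⟩
        · exact le_abs.2 (Or.inl (le_max_right _ _))
      have a2 : lamB (ζ (q.1, min q.2 (-1))) = 0 := by
        refine (h.zero_iff (q := (q.1, min q.2 (-1))) (mem_Rect.2 ⟨hq'.1, ?_⟩)).2
          (Or.inr ⟨h1, ?_⟩)
        · rw [abs_le]
          exact ⟨le_min hq.2.1 (by norm_num), min_le_of_right_le (by norm_num)⟩
        · exact le_abs'.2 (Or.inl (min_le_right _ _))
      rw [a1, a2, h1]
      simpa using hn q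
  · refine lt_of_le_of_ne (hn q) fun h0 => ?_
    rcases (h.zero_iff hq).1 h0.symm with h3 | h3
    · linarith
    · linarith [h3.1]
  · have : 0 < C / δ * (1 - q.1) := mul_pos (by positivity) (by linarith)
    linarith [hn (q.1, max q.2 1), hn (q.1, min q.2 (-1))]
  · have h2 := (min_lt_iff.1 h1).resolve_left (lt_irrefl _)
    refine ⟨?_, ?_⟩
    · by_contra h3
      linarith [heq q hq (not_le.1 h3).le]
    · have h3 : C / δ * (1 - q.1) < C := by
        linarith [hn (q.1, max q.2 1), hn (q.1, min q.2 (-1)), hb q]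
      rw [div_mul_eq_mul_div, div_lt_iff₀ hδ] at h3
      have := lt_of_mul_lt_mul_left h3 hC1.le
      linarith

/-- the point of the handlebody above `ζ q` at height `t` -/
noncomputable def pt (h : Zeta k Ω u s ζ) (q : ℝ × ℝ) (t : ℝ) : Hw :=
  ⟨(ζ q, lamR (ζ q), max (-lamB (ζ q)) (min (lamB (ζ q)) t)), h.sub (h.mem q),
    abs_of_nonneg (lamR_nonneg (h.sub (h.mem q))), by
      have := h.nonneg q
      rw [abs_le]
      exact ⟨le_max_left _ _, max_le (by linarith) (min_le_left _ _)⟩⟩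

lemma pt_t (h : Zeta k Ω u s ζ) {q : ℝ × ℝ} {t : ℝ} (ht : |t| ≤ lamB (ζ q)) :
    (pt h q t).1.2.2 = t := by
  rw [abs_le] at ht
  change max _ (min _ t) = t
  rw [min_eq_right ht.2, max_eq_right ht.1]

lemma continuous_pt (h : Zeta k Ω u s ζ) : Continuous fun p : (ℝ × ℝ) × ℝ => pt h p.1 p.2 := by
  refine Continuous.subtype_mk ?_ _
  have h1 : Continuous fun p : (ℝ × ℝ) × ℝ => ζ p.1 := h.cont.comp continuous_fst
  have h2 := continuous_lamB.comp h1
  exact h1.prodMk ((continuous_lamR.comp h1).prodMk (h2.neg.max (h2.min continuous_snd)))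

lemma pt_eq (h : Zeta k Ω u s ζ) (x : Hw) (hz : x.1.1 ∈ Ω) (hy : 0 < x.1.2.1) :
    pt h (u x.1.1, s x.1.1) x.1.2.2 = x := by
  have e := h.left _ hz
  apply Subtype.ext
  refine Prod.ext e (Prod.ext ?_ (pt_t h (by rw [e]; exact x.2.2.2)))
  change lamR (ζ _) = _
  rw [e, ← x.2.2.1, abs_of_pos hy]

end PushB

end Pool.Agent.Lib.MP_003e01_gt
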