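import Mathlib

/-! Definitions used in the statement. -/

open Set Topology

namespace Pool.Agent.Lib.MP_003e01_gt

/-- The closed disc with diameter `[0, 3(g+1)]` minus the `g` open unit discs centred at `(3i,0)`. -/
def Planar (g : ℕ) : Set (ℝ × ℝ) :=
  {p | p.1 ^ 2 + p.2 ^ 2 ≤ 3 * (g + 1) * p.1 ∧
    ∀ i : ℕ, 1 ≤ i → i ≤ g → 1 ≤ (p.1 - 3 * i) ^ 2 + p.2 ^ 2}

/-- The standard handlebody of genus `g`. -/
def Handlebody (g : ℕ) : Set ((ℝ × ℝ) × ℝ) := Planar g ×ˢ Icc (-1) 1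

/-- `A ⊆ M` is a genus `g` handlebody with boundary `S`. -/
def IsHandlebodyWithBoundary (g : ℕ) {M : Type} [TopologicalSpace M] (A S : Set M) : Prop :=
  ∃ e : Handlebody g ≃ₜ A, ∀ x : Handlebody g, (e x : M) ∈ S ↔ x.1 ∈ frontier (Handlebody g)

/-- `M = A ∪ B` is a genus `g` Heegaard splitting with surface `A ∩ B`. -/
def IsHeegaardSplitting (g : ℕ) {M : Type} [TopologicalSpace M] (A B : Set M) : Prop :=
  A ∪ B = univ ∧ IsHandlebodyWithBoundary g A (A ∩ B) ∧ IsHandlebodyWithBoundary g B (A ∩ B)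

/-- `f` is the restriction to `A ∩ B` of a homeomorphism of `M` preserving `A` and `B`. -/
def IsRestrictedAut {M : Type} [TopologicalSpace M] (A B : Set M)
    (f : C(↥(A ∩ B), ↥(A ∩ B))) : Prop :=
  ∃ φ : M ≃ₜ M, φ '' A = A ∧ φ '' B = B ∧ ∀ x, (f x : M) = φ x

/-- Some positive power is homotopic to the identity. -/
def IsPeriodic {S : Type} [TopologicalSpace S] (f : C(S, S)) : Prop :=
  ∃ k : ℕ, 0 < k ∧
    (⟨f^[k], f.continuous.iterate k⟩ : C(S, S)).Homotopic (ContinuousMap.id S)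

/-- Freely homotopic as unoriented closed curves. -/
def SameCurve {S : Type} [TopologicalSpace S] (c d : C(Circle, S)) : Prop :=
  c.Homotopic d ∨ c.Homotopic (d.comp ⟨fun z => z⁻¹, continuous_inv⟩)

/-- `f` permutes, up to homotopy, a nonempty finite family of disjoint essential simple closed
curves. -/
def IsReducible {S : Type} [TopologicalSpace S] (f : C(S, S)) : Prop :=
  ∃ (n : ℕ) (c : Fin (n + 1) → C(Circle, S)) (σ : Equiv.Perm (Fin (n + 1))),
    (∀ i, Function.Injective (c i) ∧ ¬ (c i).Nullhomotopic) ∧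
    (∀ i j, i ≠ j → Disjoint (range (c i)) (range (c j))) ∧
    ∀ i, SameCurve (f.comp (c i)) (c (σ i))

end Pool.Agent.Lib.MP_003e01_gt
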