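import Pool.Agent.Lib.MP_003e01_gt.Stmt
import Pool.Agent.Lib.MP_003e01_gt.Comp

/-! The handlebody, its boundary surface, twists, collars. -/

open Set Topology

namespace Pool.Agent.Lib.MP_003e01_gt

/-- vanishes on the red (odd) sides of `Q` -/
noncomputable def lamR (z : X) : ℝ :=
  ∏ i ∈ Finset.univ.filter (fun i : Fin 12 => i.val % 2 = 1), -lor z.1 (pole i)

/-- vanishes on the blue (even) sides of `Q` -/
noncomputable def lamB (z : X) : ℝ :=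
  ∏ i ∈ Finset.univ.filter (fun i : Fin 12 => i.val % 2 = 0), -lor z.1 (pole i)

lemma lamR_nonneg {z : X} (hz : z ∈ Q) : 0 ≤ lamR z :=
  Finset.prod_nonneg fun i _ => neg_nonneg.2 (hz i)

lemma lamB_nonneg {z : X} (hz : z ∈ Q) : 0 ≤ lamB z :=
  Finset.prod_nonneg fun i _ => neg_nonneg.2 (hz i)

lemma lamR_eq_zero (z : X) : lamR z = 0 ↔ ∃ i : Fin 12, i.val % 2 = 1 ∧ lor z.1 (pole i) = 0 := by
  simp [lamR, Finset.prod_eq_zero_iff]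

lemma lamB_eq_zero (z : X) : lamB z = 0 ↔ ∃ i : Fin 12, i.val % 2 = 0 ∧ lor z.1 (pole i) = 0 := by
  simp [lamB, Finset.prod_eq_zero_iff]

lemma continuous_lamR : Continuous lamR :=
  continuous_finsetProd _ fun _ _ => (continuous_lor_left _).neg

lemma continuous_lamB : Continuous lamB :=
  continuous_finsetProd _ fun _ _ => (continuous_lor_left _).neg

/-- the handlebody: the double of `Q` along its red sides, thickened, pinched along blue sides -/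
def Hw : Set (X × ℝ × ℝ) := {q | q.1 ∈ Q ∧ |q.2.1| = lamR q.1 ∧ |q.2.2| ≤ lamB q.1}

/-- its boundary surface -/
def Sw : Set Hw := {q | |q.1.2.2| = lamB q.1.1}

/-- the universal covering of the surface -/
structure IsProj (p : X → Sw) : Prop where
  cov : IsQuotientCoveringMap p G
  eq : ∀ (w : W) (z : X), z ∈ Q → (p (w • z)).1.1 = (z, chR w * lamR z, chB w * lamB z)

section
variable {S : Type} [TopologicalSpace S]

/-- the homeomorphism `f` induces the automorphism `α` of the deck group -/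
def Induces (p : X → S) (f : S ≃ₜ S) (α : MulAut G) : Prop :=
  ∃ F : X ≃ₜ X, (∀ x, p (F x) = f (p x)) ∧ ∀ (g : G) (x : X), F (g • x) = α g • F x

lemma Induces.mul {p : X → S} {f f' : S ≃ₜ S} {α α' : MulAut G} (h : Induces p f α)
    (h' : Induces p f' α') : Induces p (f * f') (α * α') := by
  obtain ⟨F, h1, h2⟩ := h
  obtain ⟨F', h3, h4⟩ := h'
  exact ⟨F * F', fun x => by simp [h1, h3], fun g x => by simp [h2, h4]⟩

lemma Induces.one (p : X → S) : Induces p 1 1 := ⟨1, fun _ => rfl, fun _ _ => rfl⟩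

lemma Induces.inv {p : X → S} {f : S ≃ₜ S} {α : MulAut G} (h : Induces p f α) :
    Induces p f⁻¹ α⁻¹ := by
  obtain ⟨F, h1, h2⟩ := h
  refine ⟨F.symm, fun x => ?_, fun g x => ?_⟩
  · apply f.injective
    rw [← h1]; simp
  · apply F.injective
    rw [h2]; simp

/-- the loop `c` represents the deck transformation `g` -/
def Rep (p : X → S) (c : C(Circle, S)) (g : G) : Prop :=
  ∃ γ : ℝ → X, Continuous γ ∧ (∀ t, p (γ t) = c (Circle.exp (2 * Real.pi * t))) ∧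
    ∀ t, γ (t + 1) = g • γ t

/-- thin strip on the left of the axis -/
def Strip (a : Axis) (ε : ℝ) : Set X := {z | -ε ≤ lor z.1 a.n ∧ lor z.1 a.n ≤ 0}

/-- `f` is the `k`-th power of the Dehn twist supported in the strip -/
structure IsTw (p : X → S) (a : Axis) (ε : ℝ) (k : ℤ) (f : S ≃ₜ S) : Prop where
  inside : ∀ z ∈ Strip a ε, f (p z) = p (a.flowX (k * (1 + lor z.1 a.n / ε)) z)
  outside : ∀ s, s ∉ p '' Strip a ε → f s = s

lemma IsTw.mem {p : X → S} {a : Axis} {ε : ℝ} {k : ℤ} {f : S ≃ₜ S} (h : IsTw p a ε k f) {s : S}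
    (hs : s ∈ p '' Strip a ε) : f s ∈ p '' Strip a ε := by
  obtain ⟨z, hz, rfl⟩ := hs
  refine ⟨_, ?_, (h.inside z hz).symm⟩
  simpa only [Strip, mem_ofPred_eq, Axis.flowX_val, Axis.lor_flow_n] using hz

lemma IsTw.inv {p : X → S} {a : Axis} {ε : ℝ} {k : ℤ} {f : S ≃ₜ S} (h : IsTw p a ε k f) :
    IsTw p a ε (-k) f⁻¹ where
  inside z hz := by
    apply f.injective
    rw [h.inside _ (by simpa only [Strip, mem_ofPred_eq, Axis.flowX_val, Axis.lor_flow_n] using hz),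
      ← Axis.flowX_add, Axis.flowX_val, Axis.lor_flow_n]
    push_cast
    rw [neg_mul, add_neg_cancel, Axis.flowX_zero]; simp
  outside s hs := by
    apply f.injective
    rw [h.outside s hs]; simp

end

section
variable {H : Type} [TopologicalSpace H]

/-- `f` extends to a homeomorphism of `H` -/
def Ext (S : Set H) (f : S ≃ₜ S) : Prop := ∃ Φ : H ≃ₜ H, ∀ s : S, Φ s = f s

lemma Ext.mul {S : Set H} {f f' : S ≃ₜ S} (h : Ext S f) (h' : Ext S f') : Ext S (f * f') := by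
  obtain ⟨Φ, h1⟩ := h
  obtain ⟨Φ', h2⟩ := h'
  exact ⟨Φ * Φ', fun s => by simp [h1, h2]⟩

lemma Ext.inv {S : Set H} {f : S ≃ₜ S} (h : Ext S f) : Ext S f⁻¹ := by
  obtain ⟨Φ, h1⟩ := h
  refine ⟨Φ.symm, fun s => ?_⟩
  apply Φ.injective
  rw [h1]; simp

def HasCollar (S : Set H) : Prop :=
  ∃ c : S × Ioc (0 : ℝ) 1 → H, IsOpenEmbedding c ∧ ∀ s : S, c (s, ⟨1, one_pos, le_rfl⟩) = s

/-- `τ` has extensions supported near `S ∪ B` with `B ∩ S ⊆ O` -/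
def Pushable (S : Set H) (τ : S ≃ₜ S) (O : Set S) : Prop :=
  ∃ B : Set H, IsCompact B ∧ (∀ s : S, (s : H) ∈ B → s ∈ O) ∧
    ∀ U : Set H, IsOpen U → S ⊆ U → B ⊆ U → ∃ Φ : H ≃ₜ H, (∀ s : S, Φ s = τ s) ∧
      ∃ Z : Set H, IsCompact Z ∧ Z ⊆ U ∧ ∀ x, x ∉ Z → Φ x = x

/-- `M` is obtained by gluing two copies of `H` along `S` by `θ` -/
structure Glued (S : Set H) (θ : S ≃ₜ S) {M : Type} [TopologicalSpace M] (iA iB : H → M) :
    Prop where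
  embA : IsClosedEmbedding iA
  embB : IsClosedEmbedding iB
  cover : range iA ∪ range iB = univ
  eq_iff : ∀ x y, iA x = iB y ↔ ∃ s : S, x = s ∧ y = θ s

end

/-- chord of `Q` parallel to the axis of `eC k`, joining the feet on the sides `rot k 4`, `rot k 8`
of the perpendiculars to the side `rot k 0` -/
def seg (k : Fin 3) : Set X :=
  {z | ∃ a b : ℝ, 0 ≤ a ∧ 0 ≤ b ∧ z.1 = a • (pole (rot k 0) + (5 + 3 * √3) • pole (rot k 4)) +
    b • (pole (rot k 0) + (5 + 3 * √3) • pole (rot k 8))}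

/-- angular coordinate on the boundary of the discs `s = const` -/
noncomputable def ang (u : X → ℝ) (x : Sw) : ℂ :=
  (Real.cos (Real.pi * u x.1.1.1) : ℝ) +
    Complex.I * ((x.1.1.2.2 / lamB x.1.1.1 * Real.sin (Real.pi * u x.1.1.1) : ℝ) : ℂ)

/-- coordinates `(u, s)` on the base of the solid cylinder -/
structure ChartBase (k : Fin 3) (Ω : Set X) (u s : X → ℝ) : Prop where
  compact : IsCompact Ω
  sub : Ω ⊆ Q
  cont_u : ContinuousOn u Ω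
  cont_s : ContinuousOn s Ω
  bij : BijOn (fun z => (u z, s z)) Ω (Icc 0 1 ×ˢ Icc (-2) 2)
  red : ∀ z ∈ Ω, 0 < lamR z
  blue : ∀ z ∈ Ω, lamB z = 0 ↔ u z = 0 ∨ (u z = 1 ∧ 1 ≤ |s z|)
  nhds : ∀ z ∈ Ω, |s z| < 2 → (u z < 1 ∨ 1 < |s z|) → Ω ∈ 𝓝[Q] z
  chord : ∀ z ∈ Ω, u z = 1 → |s z| ≤ 1 → z ∈ seg k

/-- Fermi coordinates along an axis -/
def Fermi (a : Axis) (e : ℝ × ℝ ≃ₜ X) : Prop :=
  (∀ q, lor (e q).1 a.n = q.2) ∧ ∀ τ q, a.flowX τ (e q) = e (q.1 + τ, q.2)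

/-- on the two strips the coordinates `(u, s)` are Fermi coordinates -/
structure ChartGeo (k : Fin 3) (aY aZ : Axis) (ε : ℝ) (Ω : Set X) (u s : X → ℝ)
    (eY eZ : ℝ × ℝ ≃ₜ X) : Prop extends ChartBase k Ω u s where
  fermiY : Fermi aY eY
  fermiZ : Fermi aZ eZ
  reflY : ∀ τ ν, sr (rot k 0) • eY (τ, ν) = eY (-τ, ν)
  reflZ : ∀ τ ν, sr (rot k 0) • eZ (τ, ν) = eZ (-τ, ν)
  inY : ∀ τ ν, 0 ≤ τ → τ ≤ 1 / 2 → -ε ≤ ν → ν ≤ 0 →
    eY (τ, ν) ∈ Ω ∧ u (eY (τ, ν)) = 2 * τ ∧ s (eY (τ, ν)) = 1 - ν / ε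
  inZ : ∀ τ ν, -(1 / 2) ≤ τ → τ ≤ 0 → -ε ≤ ν → ν ≤ 0 →
    eZ (τ, ν) ∈ Ω ∧ u (eZ (τ, ν)) = -(2 * τ) ∧ s (eZ (τ, ν)) = -(1 - ν / ε)

/-- in the coordinates `(u, s)` the homeomorphism `f` is a rotation -/
structure PushChart (k : Fin 3) (n : ℤ) (f : Sw ≃ₜ Sw) (Ω : Set X) (u s : X → ℝ) : Prop
    extends ChartBase k Ω u s where
  rotate : ∀ x : Sw, x.1.1.1 ∈ Ω → 0 < x.1.1.2.1 → 1 ≤ |s x.1.1.1| →
    (f x).1.1.1 ∈ Ω ∧ 0 < (f x).1.1.2.1 ∧ s (f x).1.1.1 = s x.1.1.1 ∧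
      ang u (f x) = ang u x * Complex.exp (2 * Real.pi * Complex.I * n * ((2 - |s x.1.1.1| : ℝ) : ℂ))
  fix : ∀ x : Sw, ¬ (x.1.1.1 ∈ Ω ∧ 0 < x.1.1.2.1 ∧ 1 ≤ |s x.1.1.1|) → f x = x

/-- the boundary circles of the planar surface -/
def PBd (g : ℕ) : Set (ℝ × ℝ) :=
  {p | p ∈ Planar g ∧ (p.1 ^ 2 + p.2 ^ 2 = 3 * (g + 1) * p.1 ∨
    ∃ i : ℕ, 1 ≤ i ∧ i ≤ g ∧ (p.1 - 3 * i) ^ 2 + p.2 ^ 2 = 1)}

def Lens (g : ℕ) (lam : ℝ × ℝ → ℝ) : Set ((ℝ × ℝ) × ℝ) := {q | q.1 ∈ Planar g ∧ |q.2| ≤ lam q.1}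

structure LamOK (g : ℕ) (lam : ℝ × ℝ → ℝ) : Prop where
  cont : ContinuousOn lam (Planar g)
  nonneg : ∀ p ∈ Planar g, 0 ≤ lam p
  zero : ∀ p ∈ Planar g, lam p = 0 ↔ p ∈ PBd g

/-- radial scaling near the boundary circles -/
structure Scaling (g : ℕ) (a : ℝ × ℝ → ℝ) (sc : ℝ → ℝ × ℝ → ℝ × ℝ) : Prop where
  compact : IsCompact (Planar g)
  front : ∀ q ∈ Handlebody g, q ∈ frontier (Handlebody g) ↔ q.1 ∈ PBd g ∨ |q.2| = 1
  cont_a : ContinuousOn a (Planar g)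
  range : ∀ p ∈ Planar g, 0 ≤ a p ∧ a p ≤ 1 ∧ (a p = 1 ↔ p ∈ PBd g)
  cont_sc : ContinuousOn (fun q : ℝ × ℝ × ℝ => sc q.1 q.2)
    {q | q.2 ∈ Planar g ∧ 0 ≤ q.1 ∧ q.1 * a q.2 ≤ 1}
  maps : ∀ p ∈ Planar g, ∀ s, 0 ≤ s → s * a p ≤ 1 → sc s p ∈ Planar g ∧ a (sc s p) = s * a p
  one : ∀ p ∈ Planar g, sc 1 p = p
  comp : ∀ p ∈ Planar g, ∀ s t, 0 ≤ s → 0 ≤ t → t * a p ≤ 1 → s * t * a p ≤ 1 →
    sc s (sc t p) = sc (s * t) p
  zero : ∀ p ∈ Planar g, a p = 0 → ∀ s, sc s p = p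

/-- the model disc with twelve marked boundary arcs: the top arc and `[i - 1, i] × 0` -/
def Mod : Set (ℝ × ℝ) := {q | 0 ≤ q.1 ∧ q.1 ≤ 11 ∧ 0 ≤ q.2 ∧ q.2 ≤ q.1 * (11 - q.1)}

/-- the arc number `i` of the model disc -/
def ModSide (i : Fin 12) : Set (ℝ × ℝ) :=
  {q | if i = 0 then q.2 = q.1 * (11 - q.1) else q.2 = 0 ∧ (i : ℝ) - 1 ≤ q.1 ∧ q.1 ≤ i}

end Pool.Agent.Lib.MP_003e01_gt
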